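import Mathlib
import Pool.Agent.Lib.MP_ec0ede_nt_EN.Defs4

set_option autoImplicit false

/-!
# MP_ec0ede_nt, project EN2: an explicit formula for the periodic function

The bottom cut is at the primes `p ≤ bb k`, i.e. `log p ≤ 2 ^ k`; all labels of these primes are at
most `K = k + mm`. The top cut is at `log p ≤ u`, `u = log N / 2 ^ S`, with
`2 ^ (a0 + mm + 1) ≤ u < 2 ^ (a0 + mm + 2)`, `a0 = K + n`; the primes with `log p > u` have labels
at least `a0 + 2`; the number of the top levels is `s = S + ss`.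
-/

noncomputable section

namespace Pool.Agent.EN2

open Real Filter Topology Finset Pool.Agent.EN

/-! ### Constants and cuts -/

/-- the margin between the labels and the positions -/
def mm : ℕ := sInf {m : ℕ | al ≤ m ∧ |Mer| ≤ ((m : ℝ) - 1) * Real.log 2 ∧
  ∀ j p : ℕ, mu j p ≠ 0 → (2 : ℝ) ^ j ≤ 2 ^ m * Real.log p ∧ Real.log p ≤ 2 ^ m * 2 ^ j}

/-- the number of top levels is `S + ss` -/
def ss : ℕ := ⌊(mm : ℝ) + 1 - al⌋₊

/-- the small primes are the primes `p ≤ bb k`, i.e. `log p ≤ 2 ^ k` -/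
def bb (k : ℕ) : ℕ := ⌊Real.exp (2 ^ k)⌋₊

/-! ### The sharp version of the main term -/

/-- the union of the windows `[log d, log d + log 2)` over the divisors `d` of `f` times the
subproducts of the `τ i ≤ b` -/
def TWs (b f : ℕ) {ι : Type} (τ : ι → ℕ) : Set ℝ :=
  {t | ∃ d ∈ f.divisors, ∃ I : Finset ι, (∀ i ∈ I, τ i ≤ b) ∧
    Real.log d + sz τ I ≤ t ∧ t < Real.log d + sz τ I + Real.log 2}

/-- the number of indices with `b < τ i` -/
def ex (b : ℕ) {ι : Type} [Fintype ι] (τ : ι → ℕ) : ℕ := (univ.filter fun i => b < τ i).card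

/-- the sharp version of `vol (TW f τ)` -/
def vb (b f : ℕ) {ι : Type} [Fintype ι] (τ : ι → ℕ) : ℝ := 2 ^ ex b τ * vol (TWs b f τ)

open Classical in
/-- the number of subsets `I` such that the sum of the logarithms `> u` in `I` lies in
`(2 ^ S * u - u, 2 ^ S * u]` -/
def RB (S : ℕ) (u : ℝ) {ι : Type} [Fintype ι] (τ : ι → ℕ) : ℝ :=
  ∑ I : Finset ι, ind (0 ≤ 2 ^ S * u - sz τ (I.filter fun i => u < Real.log (τ i)) ∧
    2 ^ S * u - sz τ (I.filter fun i => u < Real.log (τ i)) < u)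

/-- the sharp version of `PrC` -/
def PrD (f K n s S b : ℕ) (u : ℝ) (νC : Fin K → ℕ) (N : ℕ) (νA : Fin s → ℕ) : ℝ :=
  EX (K + (n + s)) 0 νC (fun τ => ind (Inj f τ) *
    EX (K + (n + s)) (K + n) νA (fun τ' =>
      1 - Real.exp (-(RB S u τ' / u * 2 ^ N * vb b f τ))))

/-- the barrier in the middle block -/
def md (K n : ℕ) {L : ℕ} (ν : Fin L → ℕ) : Prop := ∀ j, K ≤ j → j ≤ K + n → 1 ≤ X ν j

/-- the good counts -/
def Nice2 (D0 η1 : ℝ) (E K n s : ℕ) (ν : Fin (K + (n + s)) → ℕ) : Prop :=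
  xi 0 (K + (n + s)) ν ≤ D0 ∧ xi K (K + n + (s - s / 2)) ν ≤ η1 ∧
  Real.exp (Q ν K) * (2 : ℝ) ^ (-X ν K) ≤ η1 ∧
  cnt ν (K + n + (2 * mm + 2)) - cnt ν (K + n) ≤ E

/-! ### The limits `n → ∞` -/

/-- the limit position of a prime, in units of `u = 2 ^ (a0 + θ)` -/
def xp (θ v : ℝ) : ℝ := Real.exp (-Mer) * (2 : ℝ) ^ (v - θ)

open Classical in
/-- the number of subsets `I` such that the sum of the positions `> 1` in `I` lies in
`(2 ^ S - 1, 2 ^ S]` -/
def Rv (S : ℕ) (θ : ℝ) {ι : Type} [Fintype ι] (v : ι → ℝ) : ℝ :=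
  ∑ I : Finset ι, ind (0 ≤ 2 ^ S - ∑ i ∈ I.filter (fun i => 1 < xp θ (v i)), xp θ (v i) ∧
    2 ^ S - ∑ i ∈ I.filter (fun i => 1 < xp θ (v i)), xp θ (v i) < 1)

/-- the limit of the expectation over the last `s` levels -/
def EB (S : ℕ) (θ : ℝ) {s : ℕ} (ν : Fin s → ℕ) (r : ℝ) : ℝ :=
  ∫ t : Idx ν → ℝ, (∏ i, tent (t i)) *
    (1 - Real.exp (-(r * Rv S θ (fun i : Idx ν => (i.1 : ℝ) + 1 + t i))))

/-- the index set of the sums over the counts of the bottom block, the height `w` and the counts of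
the top block -/
abbrev Ic (K s : ℕ) : Type := (Fin K → ℕ) × (ℕ × (Fin s → ℕ))

/-- the terms of `UL` -/
def ul (K s S b : ℕ) (θ : ℝ) (φ : ℕ → ℕ → ℝ) (f : ℕ) (i : Ic K s) : ℝ :=
  wt i.1 * ind (1 ≤ X i.1 K ∧ 1 ≤ i.2.1) * (hg (X i.1 K).toNat * i.2.1) *
    φ (X i.1 K).toNat i.2.1 * (wt i.2.2 * zz ^ ((i.2.1 : ℤ) + X i.2.2 s)) *
    EX K 0 i.1 (fun τ => ind (Inj f τ) *
      EB S θ i.2.2 ((2 : ℝ) ^ (-θ - i.2.1) * (vb b f τ / 2 ^ cnt i.1 K)))

/-- the limit of `L ^ (3 / 2)` times the sum over the paths with the middle barrier; `φ` is an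
additional weight depending on the two heights -/
def UL (K s S b : ℕ) (θ : ℝ) (φ : ℕ → ℕ → ℝ) (f : ℕ) : ℝ := ∑' i : Ic K s, ul K s S b θ φ f i

/-! ### The explicit formula -/

open Classical in
/-- the number of subsets `I` with `2 ^ S - 1 < ∑ i ∈ I, 2 ^ v i ≤ 2 ^ S` -/
def RR (S : ℕ) {k : ℕ} (v : Fin k → ℝ) : ℝ :=
  ∑ I : Finset (Fin k), ind ((2 : ℝ) ^ S - 1 < ∑ i ∈ I, (2 : ℝ) ^ v i ∧
    ∑ i ∈ I, (2 : ℝ) ^ v i ≤ (2 : ℝ) ^ S)

/-- the sum over finite subsets of `[0, S]` (Poisson process with intensity `log 2 dv`, not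
normalised) of `1 - exp (-l * RR)` -/
def FF (S : ℕ) (l : ℝ) : ℝ :=
  ∑' k : ℕ, (Real.log 2) ^ k / (k.factorial : ℝ) *
    ∫ v in Set.Icc (0 : Fin k → ℝ) (fun _ => (S : ℝ)), (1 - Real.exp (-(l * RR S v)))

/-- the measure of the union of the windows `[log d, log d + log 2)` over the divisors of `a` -/
def LL (a : ℕ) : ℝ :=
  vol {t : ℝ | ∃ d ∈ a.divisors, Real.log d ≤ t ∧ t < Real.log d + Real.log 2}

/-- the explicit approximations of the periodic function -/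
def Xi (K S : ℕ) (t : ℝ) : ℝ :=
  (Real.log 2) ^ (3 / 2 : ℝ) * √(2 / π) * (2 / Real.exp 1) ^ K *
    (∏ p ∈ Nat.primesLE (bb K), (1 - 1 / (p : ℝ))) * (zz / Real.exp 1) ^ S *
    ∑' a : ℕ, ind (Sm (bb K) a) / (a : ℝ) * zz ^ a.primeFactors.card *
      max 0 ((K : ℝ) - a.primeFactors.card) *
      ∑' m : ℤ, max 0 (t + m) * zz ^ (t + m) *
        FF S ((2 : ℝ) ^ (-(t + m) - a.primeFactors.card) * LL a)

/-! ### The reduced form -/

/-- the weights of the primes in the bottom block (with the factor `zz`) -/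
def wz (K p : ℕ) : ℝ := ∑ j ∈ Icc 1 K, mu j p

/-- the sum over the sets of primes `p > b` in the bottom block -/
def EC (K b : ℕ) (ψ : ℕ → ℝ) (Z : ℤ) : ℝ :=
  ∑ B ∈ ((range (bd K)).filter (fun p => b < p)).powerset, (∏ p ∈ B, wz K p) *
    (if 1 ≤ Z - B.card then ψ (Z - B.card).toNat else 0)

/-- the mass of the labelled positions `≤ 1` in the top block (with the factor `zz`) -/
def mA (θ : ℝ) : ℝ := θ + Mer / Real.log 2 - 1 / 2

/-- the sum over the number of positions `≤ 1` in the top block -/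
def EA (θ : ℝ) (ψ : ℕ → ℝ) (W : ℤ) : ℝ :=
  ∑' e : ℕ, mA θ ^ e / (e.factorial : ℝ) * (if 1 ≤ W + e then ψ (W + e).toNat else 0)

end Pool.Agent.EN2
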