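import Mathlib
import Pool.Agent.Lib.MP_ec0ede_nt_EN2.Defs
import Pool.Agent.Lib.MP_ec0ede_nt_EN.LawA
import Pool.Agent.Lib.MP_ec0ede_nt_EN.LawB

set_option autoImplicit false

/-!
# MP_ec0ede_nt, project EN2, module Rng: the labels and the positions
-/

noncomputable section

namespace Pool.Agent.EN2

open Real Filter Topology Finset Pool.Agent.EN

namespace Rng

/-- the set whose infimum is `mm` -/
def S : Set ℕ := {m : ℕ | al ≤ m ∧ |Mer| ≤ ((m : ℝ) - 1) * Real.log 2 ∧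
  ∀ j p : ℕ, mu j p ≠ 0 → (2 : ℝ) ^ j ≤ 2 ^ m * Real.log p ∧ Real.log p ≤ 2 ^ m * 2 ^ j}

lemma two_pow_ge {x : ℝ} {m : ℕ} (h : x ≤ m) : x ≤ 2 ^ m := by
  have h1 : (m : ℝ) ≤ 2 ^ m := by exact_mod_cast (Nat.lt_two_pow_self (n := m)).le
  linarith

lemma S_nonempty : S.Nonempty := by
  obtain ⟨D, hD, hb⟩ := supp_bounds
  have hl : 0 < Real.log 2 := LawA.log2
  obtain ⟨m, hm⟩ := exists_nat_ge (max D (max al (|Mer| / Real.log 2 + 1)))
  have hm1 : D ≤ m := (le_max_left _ _).trans hm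
  have hm2 : al ≤ m := ((le_max_left _ _).trans (le_max_right _ _)).trans hm
  have hm3 : |Mer| / Real.log 2 + 1 ≤ m := ((le_max_right _ _).trans (le_max_right _ _)).trans hm
  refine ⟨m, hm2, ?_, fun j p h => ?_⟩
  · rw [← div_le_iff₀ hl]
    linarith
  · obtain ⟨h1, h2⟩ := hb j p h
    have hDm : D ≤ 2 ^ m := two_pow_ge hm1
    have hD0 : 0 < D := by linarith
    have hlog : 0 ≤ Real.log p := Real.log_natCast_nonneg p
    have hj : (0 : ℝ) < 2 ^ j := by positivity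
    constructor
    · rw [div_le_iff₀ hD0] at h1
      calc (2 : ℝ) ^ j ≤ Real.log p * D := h1
        _ ≤ Real.log p * 2 ^ m := mul_le_mul_of_nonneg_left hDm hlog
        _ = 2 ^ m * Real.log p := mul_comm _ _
    · exact h2.trans (mul_le_mul_of_nonneg_right hDm hj.le)

lemma mm_mem : mm ∈ S := Nat.sInf_mem S_nonempty

end Rng

theorem mm_al : al ≤ mm := Rng.mm_mem.1

theorem mm_mer : |Mer| ≤ ((mm : ℝ) - 1) * Real.log 2 := Rng.mm_mem.2.1

theorem mm_pos : 1 ≤ mm := by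
  have h := mm_mer
  have hl : 0 < Real.log 2 := LawA.log2
  have h0 : 0 ≤ ((mm : ℝ) - 1) * Real.log 2 := (abs_nonneg _).trans h
  have h1 : 0 ≤ (mm : ℝ) - 1 := by
    by_contra hc
    push Not at hc
    have := mul_neg_of_neg_of_pos hc hl
    linarith
  have h2 : (1 : ℝ) ≤ mm := by linarith
  exact_mod_cast h2

theorem mm_lo {j p : ℕ} (h : mu j p ≠ 0) : (2 : ℝ) ^ j ≤ 2 ^ mm * Real.log p :=
  (Rng.mm_mem.2.2 j p h).1

theorem mm_hi {j p : ℕ} (h : mu j p ≠ 0) : Real.log p ≤ 2 ^ mm * 2 ^ j :=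
  (Rng.mm_mem.2.2 j p h).2

theorem ss_lo : al ≤ (mm : ℝ) + 1 - ss := by
  have h0 : 0 ≤ (mm : ℝ) + 1 - al := by linarith [mm_al]
  have h := Nat.floor_le h0
  unfold ss
  linarith

theorem ss_hi : (mm : ℝ) + 2 - ss ≤ al + 2 := by
  have h := Nat.lt_floor_add_one ((mm : ℝ) + 1 - al)
  unfold ss
  linarith

theorem le_bb {k p : ℕ} (hp : 1 ≤ p) : p ≤ bb k ↔ Real.log p ≤ 2 ^ k := by
  have hp0 : (0 : ℝ) < p := by exact_mod_cast hp
  unfold bb
  rw [Nat.le_floor_iff (Real.exp_pos _).le, Real.log_le_iff_le_exp hp0]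

theorem lab_small {k j p : ℕ} (hp : p ≤ bb k) (h : mu j p ≠ 0) : j ≤ k + mm := by
  have hpp : p.Prime := (mu_supp h).1
  have h1 := (le_bb hpp.one_lt.le).1 hp
  have h2 := mm_lo h
  have h3 : (2 : ℝ) ^ j ≤ 2 ^ (k + mm) := by
    calc (2 : ℝ) ^ j ≤ 2 ^ mm * Real.log p := h2
      _ ≤ 2 ^ mm * 2 ^ k := by gcongr
      _ = 2 ^ (k + mm) := by rw [pow_add]; ring
  exact (pow_le_pow_iff_right₀ (by norm_num : (1 : ℝ) < 2)).1 h3

theorem lab_extra {k j p : ℕ} (hp : bb k < p) (h : mu j p ≠ 0) : k ≤ j + mm := by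
  have hpp : p.Prime := (mu_supp h).1
  have h1 : (2 : ℝ) ^ k < Real.log p := by
    by_contra hc
    push Not at hc
    exact absurd ((le_bb hpp.one_lt.le).2 hc) (not_le.2 hp)
  have h2 := mm_hi h
  have h3 : (2 : ℝ) ^ k ≤ 2 ^ (j + mm) := by
    calc (2 : ℝ) ^ k ≤ Real.log p := h1.le
      _ ≤ 2 ^ mm * 2 ^ j := h2
      _ = 2 ^ (j + mm) := by rw [pow_add]; ring
  exact (pow_le_pow_iff_right₀ (by norm_num : (1 : ℝ) < 2)).1 h3

theorem lab_large {a j p : ℕ} {u : ℝ} (hu : (2 : ℝ) ^ (a + mm + 1) ≤ u) (hp : u < Real.log p)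
    (h : mu j p ≠ 0) : a + 2 ≤ j := by
  have h2 := mm_hi h
  have h3 : (2 : ℝ) ^ (a + mm + 1) < 2 ^ (mm + j) := by
    calc (2 : ℝ) ^ (a + mm + 1) ≤ u := hu
      _ < Real.log p := hp
      _ ≤ 2 ^ mm * 2 ^ j := h2
      _ = 2 ^ (mm + j) := by rw [pow_add]
  have h4 := (pow_lt_pow_iff_right₀ (by norm_num : (1 : ℝ) < 2)).1 h3
  omega

theorem lab_low {a j p : ℕ} {u : ℝ} (hu : u ≤ (2 : ℝ) ^ (a + mm + 2)) (hp : Real.log p ≤ u)
    (h : mu j p ≠ 0) : j ≤ a + (2 * mm + 2) := by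
  have h2 := mm_lo h
  have h3 : (2 : ℝ) ^ j ≤ 2 ^ (a + (2 * mm + 2)) := by
    calc (2 : ℝ) ^ j ≤ 2 ^ mm * Real.log p := h2
      _ ≤ 2 ^ mm * 2 ^ (a + mm + 2) := by
        have := hp.trans hu
        gcongr
      _ = 2 ^ (a + (2 * mm + 2)) := by rw [← pow_add]; congr 1; ring
  exact (pow_le_pow_iff_right₀ (by norm_num : (1 : ℝ) < 2)).1 h3

namespace Rng

lemma last_prime (n : ℕ) (h : 0 < G n) : ∃ q ≤ n, q.Prime ∧ G q = G n := by
  induction n with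
  | zero => exact absurd LawA.G_zero h.ne'
  | succ n ih =>
    by_cases hp : (n + 1).Prime
    · exact ⟨n + 1, le_rfl, hp, rfl⟩
    · have h1 : G (n + 1) = G n := by
        have := LawA.G_eq hp
        rwa [Nat.add_sub_cancel] at this
      rw [h1] at h
      obtain ⟨q, hq, hqp, hG⟩ := ih h
      exact ⟨q, hq.trans (Nat.le_succ n), hqp, hG.trans h1.symm⟩

lemma tent_pos {x : ℝ} (h : |x| < 1) : 0 < tent x := by
  unfold tent
  exact lt_max_of_lt_right (by linarith)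

lemma mu_pos {q j : ℕ} (hq : q.Prime) (h : |G q / Real.log 2 - j| < 1) : 0 < mu j q := by
  have hl : 0 < Real.log 2 := LawA.log2
  have hlt : G (q - 1) < G q := by
    have := LawA.G_sub hq
    have hq0 : (0 : ℝ) < 1 / q := by
      have : (0 : ℝ) < q := by exact_mod_cast hq.pos
      positivity
    linarith
  unfold mu
  refine mul_pos (by positivity) ?_
  exact intervalIntegral.integral_pos hlt (LawA.cont j).continuousOn
    (fun x _ => tent_nonneg _) ⟨G q, ⟨hlt.le, le_rfl⟩, tent_pos h⟩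

end Rng

theorem G_bb (k : ℕ) : G (bb k) ≤ ((k + mm : ℕ) : ℝ) * Real.log 2 := by
  have hl : 0 < Real.log 2 := LawA.log2
  by_contra hc
  push Not at hc
  have h0 : 0 < G (bb k) := lt_of_le_of_lt (by positivity) hc
  obtain ⟨q, hq, hqp, hG⟩ := Rng.last_prime _ h0
  rw [← hG] at hc h0
  have hpos : 0 ≤ G q / Real.log 2 := by positivity
  have h1 : ((k + mm : ℕ) : ℝ) < G q / Real.log 2 := by rwa [lt_div_iff₀ hl]
  have h2 : G q / Real.log 2 ≤ (⌈G q / Real.log 2⌉₊ : ℝ) := Nat.le_ceil _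
  have h3 : (⌈G q / Real.log 2⌉₊ : ℝ) < G q / Real.log 2 + 1 := Nat.ceil_lt_add_one hpos
  have h4 : mu ⌈G q / Real.log 2⌉₊ q ≠ 0 := by
    refine (Rng.mu_pos hqp ?_).ne'
    rw [abs_lt]
    constructor <;> linarith
  have h5 := lab_small hq h4
  have h6 : ((⌈G q / Real.log 2⌉₊ : ℕ) : ℝ) ≤ ((k + mm : ℕ) : ℝ) := by exact_mod_cast h5
  linarith

theorem bb_tendsto : Tendsto bb atTop atTop := by
  unfold bb
  refine tendsto_nat_floor_atTop.comp ?_
  refine Real.tendsto_exp_atTop.comp ?_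
  exact tendsto_pow_atTop_atTop_of_one_lt (by norm_num)

end Pool.Agent.EN2
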