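import Mathlib
import Pool.Agent.Lib.MP_ec0ede_nt_EN2.Defs
import Pool.Agent.Lib.MP_ec0ede_nt_EN.ALim
import Pool.Agent.Lib.MP_ec0ede_nt_EN.LawA
import Pool.Agent.Lib.MP_ec0ede_nt_EN.LawB
import Pool.Agent.Lib.MP_ec0ede_nt_EN.ExB
import Pool.Agent.Lib.MP_ec0ede_nt_EN2.Rng

set_option autoImplicit false

/-!
# MP_ec0ede_nt, project EN2, module ALimB: the last levels, sharp cut
-/

noncomputable section

namespace Pool.Agent.EN2

open Real Filter Topology Finset Pool.Agent.EN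

namespace ALimB

open ALim

section Pi

variable {ι : Type} [Fintype ι]

lemma mul_integrable' {w : (ι → ℝ) → ℝ} (hw : MeasureTheory.Integrable w) {H : (ι → ℝ) → ℝ}
    (hc : Measurable H) {C : ℝ} (hC : ∀ t, |H t| ≤ C) :
    MeasureTheory.Integrable (fun t => w t * H t) :=
  hw.mul_bdd hc.aestronglyMeasurable (Filter.Eventually.of_forall fun t => by
    rw [Real.norm_eq_abs]; exact hC t)

lemma int_le {H : (ι → ℝ) → ℝ} (hc : Measurable H) {B : ℝ} (h0 : ∀ t, 0 ≤ H t)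
    (hB : ∀ t, H t ≤ B) : ∫ t : ι → ℝ, (∏ i, tent (t i)) * H t ≤ B := by
  have h1 : ∫ t : ι → ℝ, (∏ i, tent (t i)) * H t ≤ ∫ t : ι → ℝ, (∏ i, tent (t i)) * B := by
    refine MeasureTheory.integral_mono (mul_integrable' tents_integrable hc (C := B) ?_)
      (tents_integrable.mul_const B) ?_
    · intro t
      rw [abs_of_nonneg (h0 t)]
      exact hB t
    intro t
    show (∏ i, tent (t i)) * H t ≤ (∏ i, tent (t i)) * B
    exact mul_le_mul_of_nonneg_left (hB t) (tents_nonneg t)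
  rw [MeasureTheory.integral_mul_const, tents_int, one_mul] at h1
  exact h1

lemma diff_bound2 [DecidableEq ι] (L : ℕ) (lev : ι → ℕ) (hlev : ∀ i, 1 ≤ lev i ∧ lev i ≤ L)
    (F1 : (ι → ℕ) → ℝ) (F2 : (ι → ℝ) → ℝ) (hF2 : Measurable F2) {C : ℝ} (hC : ∀ t, |F2 t| ≤ C)
    (B : (ι → ℝ) → ℝ) (hBm : Measurable B) {CB : ℝ} (hCB : ∀ t, |B t| ≤ CB)
    (h : ∀ (τ : ι → ℕ) (t : ι → ℝ),
      (∀ i, tent (t i) * hI (lev i) (τ i) (t i) ≠ 0) → |F1 τ - F2 t| ≤ B t) :
    |Ex (range (bd L)) (fun i => mu (lev i)) F1 - ∫ t : ι → ℝ, (∏ i, tent (t i)) * F2 t| ≤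
      ∫ t : ι → ℝ, (∏ i, tent (t i)) * B t := by
  classical
  set P : Finset (ι → ℕ) := Fintype.piFinset (fun _ : ι => range (bd L)) with hP
  let w : (ι → ℕ) → (ι → ℝ) → ℝ := fun τ t => ∏ i, (tent (t i) * hI (lev i) (τ i) (t i))
  have w0 : ∀ τ t, 0 ≤ w τ t := fun τ t =>
    Finset.prod_nonneg fun i _ => mul_nonneg (tent_nonneg _) (hI_nonneg _ _ _)
  have wi : ∀ τ, MeasureTheory.Integrable (w τ) := fun τ =>
    MeasureTheory.Integrable.fintype_prod (ι := ι) (E := ℝ) (𝕜 := ℝ)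
      (f := fun i t => tent t * hI (lev i) (τ i) t) (μ := fun _ => MeasureTheory.volume)
      (fun i => cell_integrable (lev i) (τ i))
  have wint : ∀ τ, ∫ t, w τ t = ∏ i, mu (lev i) (τ i) := by
    intro τ
    show ∫ t : ι → ℝ, ∏ i, (tent (t i) * hI (lev i) (τ i) (t i)) = _
    rw [MeasureTheory.integral_fintype_prod_volume_eq_prod
      (fun (i : ι) (t : ℝ) => tent t * hI (lev i) (τ i) t)]
    exact Finset.prod_congr rfl fun i _ => (mu_eq _ _).symm
  have wsum : ∀ t : ι → ℝ, ∏ i, tent (t i) = ∑ τ ∈ P, w τ t := by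
    intro t
    have h1 : ∏ i, tent (t i) = ∏ i, ∑ p ∈ range (bd L), tent (t i) * hI (lev i) p (t i) :=
      Finset.prod_congr rfl fun i _ => (tent_sum (hlev i).1 (hlev i).2 (t i)).symm
    rw [h1, Finset.prod_univ_sum]
  have hwF : ∀ τ, MeasureTheory.Integrable (fun t => w τ t * F2 t) := fun τ =>
    mul_integrable' (wi τ) hF2 hC
  have hwB : ∀ τ, MeasureTheory.Integrable (fun t => w τ t * B t) := fun τ =>
    mul_integrable' (wi τ) hBm hCB
  have e1 : Ex (range (bd L)) (fun i => mu (lev i)) F1 = ∑ τ ∈ P, ∫ t, w τ t * F1 τ := by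
    unfold Ex
    refine Finset.sum_congr rfl fun τ _ => ?_
    rw [MeasureTheory.integral_mul_const, wint]
  have e2 : ∫ t : ι → ℝ, (∏ i, tent (t i)) * F2 t = ∑ τ ∈ P, ∫ t, w τ t * F2 t := by
    rw [← MeasureTheory.integral_finsetSum _ (fun τ _ => hwF τ)]
    congr 1
    funext t
    rw [wsum t, Finset.sum_mul]
  have e3 : ∫ t : ι → ℝ, (∏ i, tent (t i)) * B t = ∑ τ ∈ P, ∫ t, w τ t * B t := by
    rw [← MeasureTheory.integral_finsetSum _ (fun τ _ => hwB τ)]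
    congr 1
    funext t
    rw [wsum t, Finset.sum_mul]
  rw [e1, e2, e3, ← Finset.sum_sub_distrib]
  refine (Finset.abs_sum_le_sum_abs _ _).trans (Finset.sum_le_sum fun τ _ => ?_)
  rw [← MeasureTheory.integral_sub ((wi τ).mul_const _) (hwF τ)]
  refine (MeasureTheory.abs_integral_le_integral_abs).trans ?_
  refine MeasureTheory.integral_mono (((wi τ).mul_const _).sub (hwF τ)).abs (hwB τ) ?_
  intro t
  show |w τ t * F1 τ - w τ t * F2 t| ≤ w τ t * B t
  rw [← mul_sub, abs_mul, abs_of_nonneg (w0 τ t)]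
  by_cases hz : ∀ i, tent (t i) * hI (lev i) (τ i) (t i) ≠ 0
  · exact mul_le_mul_of_nonneg_left (h τ t hz) (w0 τ t)
  · push Not at hz
    obtain ⟨i, hi⟩ := hz
    have : w τ t = 0 := Finset.prod_eq_zero (Finset.mem_univ i) hi
    rw [this, zero_mul, zero_mul]

/-! ### The counting function of the large coordinates -/

open Classical in
/-- the sum of the coordinates `> 1` in `I` -/
def sg (x : ι → ℝ) (I : Finset ι) : ℝ := ∑ i ∈ I, (if 1 < x i then x i else 0)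

/-- the number of the subsets `I` such that the sum of the coordinates `> 1` in `I` lies in
`(2 ^ S - 1, 2 ^ S]` -/
def RG (S : ℕ) (x : ι → ℝ) : ℝ :=
  ∑ I : Finset ι, ind (0 ≤ 2 ^ S - sg x I ∧ 2 ^ S - sg x I < 1)

lemma RG_nonneg (S : ℕ) (x : ι → ℝ) : 0 ≤ RG S x := Finset.sum_nonneg fun _ _ => ind_nonneg _

lemma RG_le (S : ℕ) (x : ι → ℝ) : RG S x ≤ 2 ^ Fintype.card ι := by
  classical
  unfold RG
  rw [← ALim.card_fin]
  refine (Finset.sum_le_card_nsmul _ _ 1 (fun _ _ => ind_le_one _)).trans ?_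
  simp

omit [Fintype ι] in
lemma sg_measurable (I : Finset ι) : Measurable (fun x : ι → ℝ => sg x I) := by
  unfold sg
  refine Finset.measurable_sum _ fun i _ => ?_
  exact Measurable.ite (measurableSet_lt measurable_const (measurable_pi_apply i))
    (measurable_pi_apply i) measurable_const

omit [Fintype ι] in
lemma ind_measurable {p : (ι → ℝ) → Prop} (h : MeasurableSet {x | p x}) :
    Measurable (fun x => ind (p x)) := by
  unfold ind
  exact Measurable.ite h measurable_const measurable_const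

lemma RG_measurable (S : ℕ) : Measurable (fun x : ι → ℝ => RG S x) := by
  unfold RG
  refine Finset.measurable_sum _ fun I _ => ind_measurable ?_
  exact (measurableSet_le measurable_const (measurable_const.sub (sg_measurable I))).inter
    (measurableSet_lt (measurable_const.sub (sg_measurable I)) measurable_const)

lemma Rv_eq (S : ℕ) (θ : ℝ) (v : ι → ℝ) : Rv S θ v = RG S (fun i => xp θ (v i)) := by
  unfold Rv RG
  refine Finset.sum_congr rfl fun I _ => ?_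
  have h : ∑ i ∈ I.filter (fun i => 1 < xp θ (v i)), xp θ (v i) =
      sg (fun i => xp θ (v i)) I := by
    unfold sg
    rw [Finset.sum_filter]
  rw [h]

lemma RB_eq (S : ℕ) {u : ℝ} (hu : 0 < u) (τ : ι → ℕ) :
    RB S u τ = RG S (fun i => Real.log (τ i) / u) := by
  unfold RB RG
  refine Finset.sum_congr rfl fun I _ => ?_
  have h : sz τ (I.filter fun i => u < Real.log (τ i)) =
      u * sg (fun i => Real.log (τ i) / u) I := by
    unfold sg sz
    rw [Finset.sum_filter, Finset.mul_sum]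
    refine Finset.sum_congr rfl fun i _ => ?_
    by_cases h1 : u < Real.log (τ i)
    · rw [if_pos h1, if_pos ((one_lt_div hu).2 h1)]
      field_simp
    · rw [if_neg h1, if_neg (fun h2 => h1 ((one_lt_div hu).1 h2)), mul_zero]
  rw [h]
  refine ind_congr ?_
  have e : (2 : ℝ) ^ S * u - u * sg (fun i => Real.log (τ i) / u) I =
      u * (2 ^ S - sg (fun i => Real.log (τ i) / u) I) := by ring
  rw [e]
  constructor
  · rintro ⟨h1, h2⟩
    exact ⟨nonneg_of_mul_nonneg_right h1 hu, by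
      by_contra hc
      push Not at hc
      have := mul_le_mul_of_nonneg_left hc hu.le
      linarith⟩
  · rintro ⟨h1, h2⟩
    exact ⟨mul_nonneg hu.le h1, by
      have := mul_lt_mul_of_pos_left h2 hu
      linarith⟩

lemma RG_congr (S : ℕ) {x x' : ι → ℝ} {δ η : ℝ} (hδ : 0 ≤ δ) (h1 : δ ≤ η)
    (hc : (Fintype.card ι : ℝ) * δ ≤ η) (hx : ∀ i, |x' i - x i| ≤ δ)
    (hs : ∀ I : Finset ι, I.Nonempty → η < |∑ i ∈ I, x i - 1| ∧ η < |∑ i ∈ I, x i - 2 ^ S| ∧
      η < |∑ i ∈ I, x i - (2 ^ S - 1)|) : RG S x' = RG S x := by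
  classical
  have hi : ∀ i, (1 < x' i ↔ 1 < x i) := by
    intro i
    have h2 := (hs {i} (Finset.singleton_nonempty i)).1
    rw [Finset.sum_singleton] at h2
    have h3 := hx i
    rw [abs_le] at h3
    obtain ⟨h31, h32⟩ := h3
    rcases lt_abs.1 h2 with h4 | h4
    · exact ⟨fun _ => by linarith, fun _ => by linarith⟩
    · exact ⟨fun _ => by linarith, fun _ => by linarith⟩
  unfold RG
  refine Finset.sum_congr rfl fun I _ => ind_congr ?_
  have e1 : sg x I = ∑ i ∈ I.filter (fun i => 1 < x i), x i := by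
    unfold sg
    rw [Finset.sum_filter]
  have e2 : sg x' I = ∑ i ∈ I.filter (fun i => 1 < x i), x' i := by
    unfold sg
    rw [Finset.sum_filter]
    refine Finset.sum_congr rfl fun i _ => ?_
    by_cases h : 1 < x i
    · rw [if_pos h, if_pos ((hi i).2 h)]
    · rw [if_neg h, if_neg (fun h' => h ((hi i).1 h'))]
  rw [e1, e2]
  by_cases hne : (I.filter (fun i => 1 < x i)).Nonempty
  · set J := I.filter (fun i => 1 < x i) with hJ
    obtain ⟨-, h6, h7⟩ := hs J hne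
    have h8 : |∑ i ∈ J, x' i - ∑ i ∈ J, x i| ≤ η := by
      rw [← Finset.sum_sub_distrib]
      refine (Finset.abs_sum_le_sum_abs _ _).trans ?_
      refine (Finset.sum_le_card_nsmul _ _ δ fun i _ => hx i).trans ?_
      rw [nsmul_eq_mul]
      refine (mul_le_mul_of_nonneg_right ?_ hδ).trans hc
      exact_mod_cast Finset.card_le_univ J
    rw [abs_le] at h8
    obtain ⟨h81, h82⟩ := h8
    rcases lt_abs.1 h6 with h9 | h9 <;> rcases lt_abs.1 h7 with h10 | h10 <;> constructor <;>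
      rintro ⟨h11, h12⟩ <;> constructor <;> linarith
  · rw [Finset.not_nonempty_iff_eq_empty] at hne
    rw [hne, Finset.sum_empty, Finset.sum_empty]

/-! ### The exceptional set -/

/-- the indicator of `|∑ i ∈ I, x i - w| ≤ η` -/
def nr (η w : ℝ) (I : Finset ι) (x : ι → ℝ) : ℝ := ind (|∑ i ∈ I, x i - w| ≤ η)

omit [Fintype ι] in
lemma nr_nonneg (η w : ℝ) (I : Finset ι) (x : ι → ℝ) : 0 ≤ nr η w I x := ind_nonneg _

omit [Fintype ι] in
lemma nr_le_one (η w : ℝ) (I : Finset ι) (x : ι → ℝ) : nr η w I x ≤ 1 := ind_le_one _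

omit [Fintype ι] in
lemma nr_measurable (η w : ℝ) (I : Finset ι) : Measurable (fun x : ι → ℝ => nr η w I x) := by
  unfold nr
  refine ind_measurable ?_
  refine measurableSet_le ?_ measurable_const
  have h1 : Measurable (fun x : ι → ℝ => ∑ i ∈ I, x i) :=
    Finset.measurable_sum _ fun i _ => measurable_pi_apply i
  exact (h1.sub measurable_const).abs

open Classical in
/-- the bound for the difference -/
def BB (S : ℕ) (η : ℝ) (x : ι → ℝ) : ℝ :=
  ∑ I ∈ (Finset.univ : Finset (Finset ι)).filter (fun I => I.Nonempty),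
    (nr η 1 I x + nr η (2 ^ S) I x + nr η (2 ^ S - 1) I x)

lemma BB_nonneg (S : ℕ) (η : ℝ) (x : ι → ℝ) : 0 ≤ BB S η x :=
  Finset.sum_nonneg fun _ _ =>
    add_nonneg (add_nonneg (nr_nonneg _ _ _ _) (nr_nonneg _ _ _ _)) (nr_nonneg _ _ _ _)

lemma card_filter_le [DecidablePred (fun I : Finset ι => I.Nonempty)] :
    (((Finset.univ : Finset (Finset ι)).filter (fun I => I.Nonempty)).card : ℝ) ≤
      2 ^ Fintype.card ι := by
  classical
  rw [← ALim.card_fin]
  exact_mod_cast Finset.card_filter_le _ _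

lemma BB_le (S : ℕ) (η : ℝ) (x : ι → ℝ) : BB S η x ≤ 2 ^ Fintype.card ι * 3 := by
  classical
  unfold BB
  refine (Finset.sum_le_card_nsmul _ _ 3 (fun I _ => ?_)).trans ?_
  · have h1 := nr_le_one η 1 I x
    have h2 := nr_le_one η (2 ^ S) I x
    have h3 := nr_le_one η (2 ^ S - 1) I x
    linarith
  · rw [nsmul_eq_mul]
    exact mul_le_mul_of_nonneg_right card_filter_le (by norm_num)

lemma BB_measurable (S : ℕ) (η : ℝ) : Measurable (fun x : ι → ℝ => BB S η x) := by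
  unfold BB
  exact Finset.measurable_sum _ fun I _ =>
    ((nr_measurable η 1 I).add (nr_measurable η (2 ^ S) I)).add (nr_measurable η (2 ^ S - 1) I)

lemma BB_ge (S : ℕ) {η : ℝ} {x : ι → ℝ} (h : ¬ ∀ I : Finset ι, I.Nonempty →
    η < |∑ i ∈ I, x i - 1| ∧ η < |∑ i ∈ I, x i - 2 ^ S| ∧ η < |∑ i ∈ I, x i - (2 ^ S - 1)|) :
    1 ≤ BB S η x := by
  classical
  rw [not_forall] at h
  obtain ⟨I, h⟩ := h
  rw [Classical.not_imp] at h
  obtain ⟨hI, h⟩ := h
  have h1 : 1 ≤ nr η 1 I x + nr η (2 ^ S) I x + nr η (2 ^ S - 1) I x := by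
    have h2 := nr_nonneg η 1 I x
    have h3 := nr_nonneg η (2 ^ S) I x
    have h4 := nr_nonneg η (2 ^ S - 1) I x
    by_cases h5 : |∑ i ∈ I, x i - 1| ≤ η
    · have : nr η 1 I x = 1 := ind_of h5
      linarith
    by_cases h6 : |∑ i ∈ I, x i - 2 ^ S| ≤ η
    · have : nr η (2 ^ S) I x = 1 := ind_of h6
      linarith
    by_cases h7 : |∑ i ∈ I, x i - (2 ^ S - 1)| ≤ η
    · have : nr η (2 ^ S - 1) I x = 1 := ind_of h7
      linarith
    exact absurd ⟨not_le.1 h5, not_le.1 h6, not_le.1 h7⟩ h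
  refine h1.trans ?_
  unfold BB
  refine Finset.single_le_sum (f := fun I => nr η 1 I x + nr η (2 ^ S) I x +
    nr η (2 ^ S - 1) I x) (fun J _ => ?_) ?_
  · exact add_nonneg (add_nonneg (nr_nonneg _ _ _ _) (nr_nonneg _ _ _ _)) (nr_nonneg _ _ _ _)
  · exact Finset.mem_filter.2 ⟨Finset.mem_univ _, hI⟩

/-! ### The small ball estimate -/

lemma pow_gap {x y : ℝ} (hx : -1 ≤ x) (h : x ≤ y) :
    (y - x) * (Real.log 2 / 2) ≤ (2 : ℝ) ^ y - 2 ^ x := by
  have hl : 0 < Real.log 2 := LawA.log2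
  have e : (2 : ℝ) ^ y = 2 ^ x * 2 ^ (y - x) := by
    rw [← Real.rpow_add (by norm_num)]
    ring_nf
  have h1 : 1 + (y - x) * Real.log 2 ≤ (2 : ℝ) ^ (y - x) := by
    rw [Real.rpow_def_of_pos (by norm_num)]
    have := Real.add_one_le_exp (Real.log 2 * (y - x))
    linarith
  have h2 : (1 : ℝ) / 2 ≤ 2 ^ x := by
    calc (1 : ℝ) / 2 = 2 ^ (-1 : ℝ) := by rw [Real.rpow_neg_one]; norm_num
      _ ≤ 2 ^ x := Real.rpow_le_rpow_of_exponent_le (by norm_num) hx
  have h3 : 0 ≤ (y - x) * Real.log 2 := mul_nonneg (by linarith) hl.le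
  calc (y - x) * (Real.log 2 / 2) = 1 / 2 * ((y - x) * Real.log 2) := by ring
    _ ≤ 2 ^ x * ((y - x) * Real.log 2) := mul_le_mul_of_nonneg_right h2 h3
    _ ≤ 2 ^ x * (2 ^ (y - x) - 1) :=
      mul_le_mul_of_nonneg_left (by linarith) (Real.rpow_pos_of_pos (by norm_num) _).le
    _ = 2 ^ y - 2 ^ x := by rw [e]; ring

lemma gap_aux {K w η x y : ℝ} (hK : 0 < K) (hx : |x| ≤ 1) (hxy : x ≤ y)
    (h1 : |K * 2 ^ x - w| ≤ η) (h2 : |K * 2 ^ y - w| ≤ η) :
    y - x ≤ 4 * η / (K * Real.log 2) := by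
  have hl : 0 < Real.log 2 := LawA.log2
  have h3 := pow_gap (abs_le.1 hx).1 hxy
  rw [le_div_iff₀ (mul_pos hK hl)]
  rw [abs_le] at h1 h2
  obtain ⟨h11, h12⟩ := h1
  obtain ⟨h21, h22⟩ := h2
  have h4 := mul_le_mul_of_nonneg_left h3 hK.le
  have h5 : K * (2 ^ y - 2 ^ x) = K * 2 ^ y - K * 2 ^ x := by ring
  rw [h5] at h4
  have h6 : K * ((y - x) * (Real.log 2 / 2)) = (y - x) * (K * Real.log 2) / 2 := by ring
  rw [h6] at h4
  linarith

/-- the exceptional set on one coordinate -/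
def AA (K w η : ℝ) : Set ℝ := {y : ℝ | |y| ≤ 1 ∧ |K * 2 ^ y - w| ≤ η}

lemma vol_AA {K w η : ℝ} (hK : 0 < K) :
    MeasureTheory.volume (AA K w η) ≤ ENNReal.ofReal (4 * η / (K * Real.log 2)) := by
  refine (Real.volume_le_diam _).trans ?_
  refine Metric.ediam_le fun x hx y hy => ?_
  rw [edist_dist]
  refine ENNReal.ofReal_le_ofReal ?_
  rw [Real.dist_eq]
  rcases le_total x y with h | h
  · rw [abs_sub_comm, abs_of_nonneg (by linarith)]
    exact gap_aux hK hx.1 h hx.2 hy.2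
  · rw [abs_of_nonneg (by linarith)]
    exact gap_aux hK hy.1 h hy.2 hx.2

lemma AA_measurable (K w η : ℝ) : MeasurableSet (AA K w η) := by
  unfold AA
  have h1 : Continuous (fun y : ℝ => |K * (2 : ℝ) ^ y - w|) :=
    ((continuous_const.mul (Real.continuous_const_rpow (by norm_num))).sub continuous_const).abs
  exact (measurableSet_le continuous_abs.measurable measurable_const).inter
    (measurableSet_le h1.measurable measurable_const)

lemma lint_tent : ∫⁻ y : ℝ, ENNReal.ofReal (tent y) = 1 := by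
  rw [← MeasureTheory.ofReal_integral_eq_lintegral_ofReal tent_integrable
    (Filter.Eventually.of_forall fun y => tent_nonneg y), tent_int, ENNReal.ofReal_one]

lemma lint_tents : ∫⁻ t : ι → ℝ, ENNReal.ofReal (∏ i, tent (t i)) = 1 := by
  rw [← MeasureTheory.ofReal_integral_eq_lintegral_ofReal tents_integrable
    (Filter.Eventually.of_forall fun t => tents_nonneg t), tents_int, ENNReal.ofReal_one]

lemma prod_update [DecidableEq ι] (t : ι → ℝ) (i0 : ι) (y : ℝ) :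
    ∏ i, tent (Function.update t i0 y i) = (∏ i ∈ univ.erase i0, tent (t i)) * tent y := by
  rw [← Finset.prod_erase_mul _ _ (Finset.mem_univ i0), Function.update_self]
  congr 1
  refine Finset.prod_congr rfl fun i hi => ?_
  rw [Function.update_of_ne (Finset.ne_of_mem_erase hi)]

omit [Fintype ι] in
lemma sum_update [DecidableEq ι] (K : ι → ℝ) (I : Finset ι) {i0 : ι} (h0 : i0 ∈ I) (t : ι → ℝ)
    (y : ℝ) : ∑ i ∈ I, K i * (2 : ℝ) ^ (Function.update t i0 y i) =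
      (∑ i ∈ I.erase i0, K i * (2 : ℝ) ^ (t i)) + K i0 * 2 ^ y := by
  rw [← Finset.sum_erase_add _ _ h0, Function.update_self]
  congr 1
  refine Finset.sum_congr rfl fun i hi => ?_
  rw [Function.update_of_ne (Finset.ne_of_mem_erase hi)]

lemma small_ball [DecidableEq ι] (K : ι → ℝ) (I : Finset ι) {i0 : ι} (h0 : i0 ∈ I)
    (hK : 0 < K i0) (η w : ℝ) :
    ∫⁻ t : ι → ℝ, ENNReal.ofReal ((∏ i, tent (t i)) * nr η w I (fun i => K i * (2 : ℝ) ^ (t i))) ≤
      ENNReal.ofReal (4 * η / (K i0 * Real.log 2)) := by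
  classical
  set c : ENNReal := ENNReal.ofReal (4 * η / (K i0 * Real.log 2)) with hc
  have hKm : Measurable (fun t : ι → ℝ => fun i => K i * (2 : ℝ) ^ (t i)) := by
    refine measurable_pi_lambda _ fun i => ?_
    have : Continuous (fun y : ℝ => K i * (2 : ℝ) ^ y) :=
      continuous_const.mul (Real.continuous_const_rpow (by norm_num))
    exact this.measurable.comp (measurable_pi_apply i)
  have htm : Measurable (fun t : ι → ℝ => ∏ i, tent (t i)) :=
    Finset.measurable_prod _ fun i _ => tent_continuous.measurable.comp (measurable_pi_apply i)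
  have hfm : Measurable (fun t : ι → ℝ => ENNReal.ofReal ((∏ i, tent (t i)) *
      nr η w I (fun i => K i * (2 : ℝ) ^ (t i)))) :=
    (htm.mul ((nr_measurable η w I).comp hKm)).ennreal_ofReal
  have hgm : Measurable (fun t : ι → ℝ => c * ENNReal.ofReal (∏ i, tent (t i))) :=
    measurable_const.mul htm.ennreal_ofReal
  have hR : ∫⁻ t : ι → ℝ, c * ENNReal.ofReal (∏ i, tent (t i)) = c := by
    rw [MeasureTheory.lintegral_const_mul _ htm.ennreal_ofReal, lint_tents, mul_one]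
  rw [← hR]
  show ∫⁻ t : ι → ℝ, _ ∂(MeasureTheory.Measure.pi fun _ => MeasureTheory.volume) ≤
    ∫⁻ t : ι → ℝ, _ ∂(MeasureTheory.Measure.pi fun _ => MeasureTheory.volume)
  rw [MeasureTheory.lintegral_eq_lmarginal_univ (0 : ι → ℝ),
    MeasureTheory.lintegral_eq_lmarginal_univ (0 : ι → ℝ),
    MeasureTheory.lmarginal_erase' _ hfm (Finset.mem_univ i0),
    MeasureTheory.lmarginal_erase' _ hgm (Finset.mem_univ i0)]
  refine MeasureTheory.lmarginal_mono ?_ _
  intro t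
  show ∫⁻ y : ℝ, ENNReal.ofReal ((∏ i, tent (Function.update t i0 y i)) *
      nr η w I (fun i => K i * (2 : ℝ) ^ (Function.update t i0 y i))) ≤
    ∫⁻ y : ℝ, c * ENNReal.ofReal (∏ i, tent (Function.update t i0 y i))
  simp_rw [prod_update]
  set P : ℝ := ∏ i ∈ univ.erase i0, tent (t i) with hP
  have hP0 : 0 ≤ P := Finset.prod_nonneg fun i _ => tent_nonneg _
  have e2 : ∫⁻ y : ℝ, c * ENNReal.ofReal (P * tent y) = ENNReal.ofReal P * c := by
    have : ∀ y : ℝ, c * ENNReal.ofReal (P * tent y) =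
        (c * ENNReal.ofReal P) * ENNReal.ofReal (tent y) := by
      intro y
      rw [ENNReal.ofReal_mul hP0, mul_assoc]
    simp_rw [this]
    rw [MeasureTheory.lintegral_const_mul _ tent_continuous.measurable.ennreal_ofReal, lint_tent,
      mul_one, mul_comm]
  rw [e2]
  set w' : ℝ := w - ∑ i ∈ I.erase i0, K i * (2 : ℝ) ^ (t i) with hw'
  have e1 : ∀ y : ℝ, ENNReal.ofReal (P * tent y *
      nr η w I (fun i => K i * (2 : ℝ) ^ (Function.update t i0 y i))) ≤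
      ENNReal.ofReal P * (AA (K i0) w' η).indicator 1 y := by
    intro y
    by_cases hy : y ∈ AA (K i0) w' η
    · rw [Set.indicator_of_mem hy, Pi.one_apply, mul_one]
      refine ENNReal.ofReal_le_ofReal ?_
      rw [mul_assoc]
      refine mul_le_of_le_one_right hP0 ?_
      exact mul_le_one₀ (tent_le_one y) (nr_nonneg _ _ _ _) (nr_le_one _ _ _ _)
    · have hz : tent y * nr η w I (fun i => K i * (2 : ℝ) ^ (Function.update t i0 y i)) = 0 := by
        by_cases h1 : |y| ≤ 1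
        · have h2 : ¬ |∑ i ∈ I, K i * (2 : ℝ) ^ (Function.update t i0 y i) - w| ≤ η := by
            rw [sum_update K I h0]
            intro h3
            refine hy ⟨h1, ?_⟩
            rw [hw']
            have : K i0 * 2 ^ y - (w - ∑ i ∈ I.erase i0, K i * (2 : ℝ) ^ (t i)) =
                (∑ i ∈ I.erase i0, K i * (2 : ℝ) ^ (t i)) + K i0 * 2 ^ y - w := by ring
            rw [this]
            exact h3
          have h4 : nr η w I (fun i => K i * (2 : ℝ) ^ (Function.update t i0 y i)) = 0 :=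
            ind_not_of h2
          rw [h4, mul_zero]
        · rw [tent_eq_zero (not_le.1 h1).le, zero_mul]
      rw [mul_assoc, hz, mul_zero, ENNReal.ofReal_zero]
      exact zero_le
  refine (MeasureTheory.lintegral_mono e1).trans ?_
  rw [MeasureTheory.lintegral_const_mul _
    (measurable_one.indicator (AA_measurable _ _ _)),
    MeasureTheory.lintegral_indicator_one (AA_measurable _ _ _)]
  gcongr
  exact vol_AA hK

omit [Fintype ι] in
lemma K_measurable (K : ι → ℝ) : Measurable (fun t : ι → ℝ => fun i => K i * (2 : ℝ) ^ (t i)) := by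
  refine measurable_pi_lambda _ fun i => ?_
  have : Continuous (fun y : ℝ => K i * (2 : ℝ) ^ y) :=
    continuous_const.mul (Real.continuous_const_rpow (by norm_num))
  exact this.measurable.comp (measurable_pi_apply i)

lemma nrK_integrable (K : ι → ℝ) (I : Finset ι) (η w : ℝ) :
    MeasureTheory.Integrable (fun t : ι → ℝ => (∏ i, tent (t i)) *
      nr η w I (fun i => K i * (2 : ℝ) ^ (t i))) :=
  mul_integrable' tents_integrable ((nr_measurable η w I).comp (K_measurable K)) (C := 1)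
    fun t => by
      show |nr η w I (fun i => K i * (2 : ℝ) ^ (t i))| ≤ 1
      rw [abs_of_nonneg (nr_nonneg _ _ _ _)]
      exact nr_le_one _ _ _ _

lemma int_nr [DecidableEq ι] (K : ι → ℝ) (I : Finset ι) (hI : I.Nonempty) {K0 : ℝ}
    (hK0 : 0 < K0) (hK : ∀ i, K0 ≤ K i) {η : ℝ} (hη : 0 ≤ η) (w : ℝ) :
    ∫ t : ι → ℝ, (∏ i, tent (t i)) * nr η w I (fun i => K i * (2 : ℝ) ^ (t i)) ≤
      4 * η / (K0 * Real.log 2) := by
  have hl : 0 < Real.log 2 := LawA.log2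
  obtain ⟨i0, h0⟩ := hI
  rw [MeasureTheory.integral_eq_lintegral_of_nonneg_ae
    (Filter.Eventually.of_forall fun t => mul_nonneg (tents_nonneg t) (nr_nonneg _ _ _ _))
    (nrK_integrable K I η w).aestronglyMeasurable]
  refine ENNReal.toReal_le_of_le_ofReal (by positivity) ?_
  refine (small_ball K I h0 (hK0.trans_le (hK i0)) η w).trans ?_
  refine ENNReal.ofReal_le_ofReal ?_
  refine div_le_div_of_nonneg_left (by positivity) (by positivity) ?_
  exact mul_le_mul_of_nonneg_right (hK i0) hl.le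

lemma int_BB [DecidableEq ι] (S : ℕ) (K : ι → ℝ) {K0 : ℝ} (hK0 : 0 < K0) (hK : ∀ i, K0 ≤ K i)
    {η : ℝ} (hη : 0 ≤ η) :
    ∫ t : ι → ℝ, (∏ i, tent (t i)) * BB S η (fun i => K i * (2 : ℝ) ^ (t i)) ≤
      2 ^ Fintype.card ι * (3 * (4 * η / (K0 * Real.log 2))) := by
  classical
  have hl : 0 < Real.log 2 := LawA.log2
  have e : ∀ t : ι → ℝ, (∏ i, tent (t i)) * BB S η (fun i => K i * (2 : ℝ) ^ (t i)) =
      ∑ I ∈ (Finset.univ : Finset (Finset ι)).filter (fun I => I.Nonempty),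
        ((∏ i, tent (t i)) * nr η 1 I (fun i => K i * (2 : ℝ) ^ (t i)) +
         (∏ i, tent (t i)) * nr η (2 ^ S) I (fun i => K i * (2 : ℝ) ^ (t i)) +
         (∏ i, tent (t i)) * nr η (2 ^ S - 1) I (fun i => K i * (2 : ℝ) ^ (t i))) := by
    intro t
    unfold BB
    rw [Finset.mul_sum]
    refine Finset.sum_congr ?_ fun I _ => by ring
    ext I
    simp only [Finset.mem_filter]
  simp_rw [e]
  have hg2 : ∀ I : Finset ι, MeasureTheory.Integrable (fun t : ι → ℝ =>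
      (∏ i, tent (t i)) * nr η 1 I (fun i => K i * (2 : ℝ) ^ (t i)) +
         (∏ i, tent (t i)) * nr η (2 ^ S) I (fun i => K i * (2 : ℝ) ^ (t i))) := fun I =>
    (nrK_integrable K I η 1).add (nrK_integrable K I η (2 ^ S))
  have hg3 : ∀ I : Finset ι, MeasureTheory.Integrable (fun t : ι → ℝ =>
      (∏ i, tent (t i)) * nr η 1 I (fun i => K i * (2 : ℝ) ^ (t i)) +
         (∏ i, tent (t i)) * nr η (2 ^ S) I (fun i => K i * (2 : ℝ) ^ (t i)) +
         (∏ i, tent (t i)) * nr η (2 ^ S - 1) I (fun i => K i * (2 : ℝ) ^ (t i))) := fun I =>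
    (hg2 I).add (nrK_integrable K I η (2 ^ S - 1))
  rw [MeasureTheory.integral_finsetSum _ (fun I _ => hg3 I)]
  refine (Finset.sum_le_card_nsmul _ _ (3 * (4 * η / (K0 * Real.log 2))) fun I hI => ?_).trans ?_
  · rw [MeasureTheory.integral_add (hg2 I) (nrK_integrable K I η (2 ^ S - 1)),
      MeasureTheory.integral_add (nrK_integrable K I η 1) (nrK_integrable K I η (2 ^ S))]
    have hne := (Finset.mem_filter.1 hI).2
    have h1 := int_nr K I hne hK0 hK hη 1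
    have h2 := int_nr K I hne hK0 hK hη (2 ^ S)
    have h3 := int_nr K I hne hK0 hK hη (2 ^ S - 1)
    linarith
  · rw [nsmul_eq_mul]
    exact mul_le_mul_of_nonneg_right card_filter_le (by positivity)

end Pi

/-! ### The positions -/

variable {s : ℕ} (ν : Fin s → ℕ)

/-- the position of `t = 0` -/
def Kc (θ : ℝ) (i : Idx ν) : ℝ := Real.exp (-Mer) * (2 : ℝ) ^ ((i.1 : ℝ) + 1 - θ)

lemma xp_eq (θ : ℝ) (i : Idx ν) (t : ℝ) : xp θ ((i.1 : ℝ) + 1 + t) = Kc ν θ i * (2 : ℝ) ^ t := by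
  unfold xp Kc
  rw [mul_assoc, ← Real.rpow_add (by norm_num)]
  ring_nf

lemma Rv_K (S : ℕ) (θ : ℝ) (t : Idx ν → ℝ) :
    Rv S θ (fun i : Idx ν => (i.1 : ℝ) + 1 + t i) = RG S (fun i => Kc ν θ i * (2 : ℝ) ^ (t i)) := by
  rw [Rv_eq]
  congr 1
  funext i
  exact xp_eq ν θ i (t i)

/-- the function in the definition of `EB` -/
def F2 (S : ℕ) (θ r : ℝ) (t : Idx ν → ℝ) : ℝ :=
  1 - Real.exp (-(r * Rv S θ (fun i : Idx ν => (i.1 : ℝ) + 1 + t i)))

lemma F2_measurable (S : ℕ) (θ r : ℝ) : Measurable (F2 ν S θ r) := by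
  have h1 : Measurable (fun t : Idx ν → ℝ => RG S (fun i => Kc ν θ i * (2 : ℝ) ^ (t i))) :=
    (RG_measurable S).comp (K_measurable (Kc ν θ))
  have h2 : F2 ν S θ r = fun t : Idx ν → ℝ =>
      1 - Real.exp (-(r * RG S (fun i => Kc ν θ i * (2 : ℝ) ^ (t i)))) := by
    funext t
    unfold F2
    rw [Rv_K]
  rw [h2]
  exact measurable_const.sub ((h1.const_mul r).neg.exp)

lemma Rv_nonneg (S : ℕ) (θ : ℝ) (t : Idx ν → ℝ) :
    0 ≤ Rv S θ (fun i : Idx ν => (i.1 : ℝ) + 1 + t i) := by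
  rw [Rv_K]
  exact RG_nonneg _ _

lemma F2_nonneg (S : ℕ) (θ : ℝ) {r : ℝ} (hr : 0 ≤ r) (t : Idx ν → ℝ) : 0 ≤ F2 ν S θ r t :=
  phi_nonneg (mul_nonneg hr (Rv_nonneg ν S θ t))

lemma F2_le_one (S : ℕ) (θ r : ℝ) (t : Idx ν → ℝ) : F2 ν S θ r t ≤ 1 := phi_le_one _

lemma EB_eq (S : ℕ) (θ r : ℝ) : EB S θ ν r = ∫ t : Idx ν → ℝ, (∏ i, tent (t i)) * F2 ν S θ r t :=
  rfl

lemma Kc_ge {θ : ℝ} (h : θ ≤ mm + 2) (i : Idx ν) :
    Real.exp (-Mer) * (2 : ℝ) ^ (-((mm : ℝ) + 1)) ≤ Kc ν θ i := by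
  unfold Kc
  refine mul_le_mul_of_nonneg_left ?_ (Real.exp_pos _).le
  refine Real.rpow_le_rpow_of_exponent_le (by norm_num) ?_
  have : (0 : ℝ) ≤ (i.1 : ℝ) := Nat.cast_nonneg _
  linarith

/-- the distance of the two positions -/
lemma step (a : ℕ) {θ ε' : ℝ} (hθ : (mm : ℝ) + 1 ≤ θ) (hε' : 0 ≤ ε') (i : Idx ν) {p : ℕ} {t : ℝ}
    (h : |Real.log p - Real.exp (-Mer) * Real.exp ((((lv a ν i : ℕ) : ℝ) + t) * Real.log 2)| ≤
      ε' * 2 ^ lv a ν i) :
    |Real.log p / (2 : ℝ) ^ ((a : ℝ) + θ) - Kc ν θ i * (2 : ℝ) ^ t| ≤ ε' * 2 ^ s := by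
  have e1 : Real.exp ((((lv a ν i : ℕ) : ℝ) + t) * Real.log 2) =
      2 ^ a * (2 : ℝ) ^ ((i.1 : ℝ) + 1 + t) := by
    rw [mul_comm, ← Real.rpow_def_of_pos (by norm_num : (0 : ℝ) < 2), ← Real.rpow_natCast,
      ← Real.rpow_add (by norm_num : (0 : ℝ) < 2)]
    congr 1
    unfold lv
    push_cast
    ring
  rw [e1] at h
  have h2a : (0 : ℝ) < 2 ^ a := by positivity
  have h2θ : (1 : ℝ) ≤ 2 ^ θ := by
    refine Real.one_le_rpow (by norm_num) ?_
    have : (0 : ℝ) ≤ mm := Nat.cast_nonneg _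
    linarith
  have h2θ0 : (0 : ℝ) < 2 ^ θ := by linarith
  have e3 : (2 : ℝ) ^ ((a : ℝ) + θ) = 2 ^ a * 2 ^ θ := by
    rw [Real.rpow_add (by norm_num), Real.rpow_natCast]
  have e4 : Kc ν θ i * (2 : ℝ) ^ t = Real.exp (-Mer) * (2 : ℝ) ^ ((i.1 : ℝ) + 1 + t) / 2 ^ θ := by
    rw [← xp_eq]
    unfold xp
    rw [Real.rpow_sub (by norm_num)]
    ring
  have e2 : Real.log p / (2 : ℝ) ^ ((a : ℝ) + θ) - Kc ν θ i * (2 : ℝ) ^ t =
      (Real.log p - Real.exp (-Mer) * (2 ^ a * (2 : ℝ) ^ ((i.1 : ℝ) + 1 + t))) /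
        (2 ^ a * 2 ^ θ) := by
    rw [e3, e4]
    field_simp
  rw [e2, abs_div, abs_of_pos (mul_pos h2a h2θ0), div_le_iff₀ (mul_pos h2a h2θ0)]
  refine h.trans ?_
  rw [mul_assoc]
  refine mul_le_mul_of_nonneg_left ?_ hε'
  have h5 : (2 : ℝ) ^ lv a ν i ≤ 2 ^ s * 2 ^ a := by
    rw [← pow_add]
    refine pow_le_pow_right₀ (by norm_num) ?_
    have := i.1.2
    unfold lv
    omega
  calc (2 : ℝ) ^ lv a ν i ≤ 2 ^ s * 2 ^ a := h5
    _ = 2 ^ s * (2 ^ a * 1) := by ring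
    _ ≤ 2 ^ s * (2 ^ a * 2 ^ θ) := by gcongr

end ALimB

open ALim ALimB

theorem EB_nonneg (S : ℕ) (θ : ℝ) {s : ℕ} (ν : Fin s → ℕ) {r : ℝ} (hr : 0 ≤ r) :
    0 ≤ EB S θ ν r := by
  rw [EB_eq]
  exact MeasureTheory.integral_nonneg fun t => mul_nonneg (tents_nonneg t) (F2_nonneg ν S θ hr t)

theorem EB_le_one (S : ℕ) (θ : ℝ) {s : ℕ} (ν : Fin s → ℕ) {r : ℝ} (hr : 0 ≤ r) :
    EB S θ ν r ≤ 1 := by
  rw [EB_eq]
  exact int_le (F2_measurable ν S θ r) (F2_nonneg ν S θ hr) (F2_le_one ν S θ r)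

theorem EB_le (S : ℕ) (θ : ℝ) {s : ℕ} (ν : Fin s → ℕ) {r : ℝ} (hr : 0 ≤ r) :
    EB S θ ν r ≤ r * 2 ^ cnt ν s := by
  rw [EB_eq]
  refine int_le (F2_measurable ν S θ r) (F2_nonneg ν S θ hr) fun t => ?_
  refine (phi_le _).trans (mul_le_mul_of_nonneg_left ?_ hr)
  rw [Rv_K, ← card_Idx' ν]
  exact RG_le _ _

theorem b_lim (S : ℕ) {s : ℕ} (ν : Fin s → ℕ) : ∃ e : ℕ → ℝ, Tendsto e atTop (𝓝 0) ∧
    (∀ a, 0 ≤ e a) ∧ ∀ (a : ℕ) (θ r : ℝ), (mm : ℝ) + 1 ≤ θ → θ ≤ mm + 2 → 0 ≤ r →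
    |EX (a + s) a ν (fun τ => 1 - Real.exp (-(r * RB S ((2 : ℝ) ^ ((a : ℝ) + θ)) τ))) -
      EB S θ ν r| ≤ e a := by
  classical
  have hl : 0 < Real.log 2 := LawA.log2
  have hlev : ∀ a : ℕ, ∀ i : Idx ν, 1 ≤ lv a ν i ∧ lv a ν i ≤ a + s := by
    intro a i
    unfold lv
    have := i.1.2
    omega
  have hu : ∀ (a : ℕ) (θ : ℝ), (0 : ℝ) < 2 ^ ((a : ℝ) + θ) := fun a θ =>
    Real.rpow_pos_of_pos (by norm_num) _
  have hRB0 : ∀ (a : ℕ) (θ : ℝ) (τ : Idx ν → ℕ), 0 ≤ RB S ((2 : ℝ) ^ ((a : ℝ) + θ)) τ := by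
    intro a θ τ
    rw [RB_eq S (hu a θ)]
    exact RG_nonneg _ _
  have hF2 : ∀ (θ r : ℝ), 0 ≤ r → ∀ t, |F2 ν S θ r t| ≤ 1 := by
    intro θ r hr t
    rw [abs_of_nonneg (F2_nonneg ν S θ hr t)]
    exact F2_le_one ν S θ r t
  have hdiff1 : ∀ (a : ℕ) (θ r : ℝ) (τ : Idx ν → ℕ) (t : Idx ν → ℝ), 0 ≤ r →
      |(1 - Real.exp (-(r * RB S ((2 : ℝ) ^ ((a : ℝ) + θ)) τ))) - F2 ν S θ r t| ≤ 1 := by
    intro a θ r τ t hr
    have h1 := phi_nonneg (mul_nonneg hr (hRB0 a θ τ))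
    have h2 := phi_le_one (r * RB S ((2 : ℝ) ^ ((a : ℝ) + θ)) τ)
    have h3 := F2_nonneg ν S θ hr t
    have h4 := F2_le_one ν S θ r t
    rw [abs_le]
    constructor <;> linarith
  let SS : ℕ → Set ℝ := fun a => {e : ℝ | 0 ≤ e ∧ ∀ (θ r : ℝ), (mm : ℝ) + 1 ≤ θ → θ ≤ mm + 2 →
    0 ≤ r → |EX (a + s) a ν (fun τ => 1 - Real.exp (-(r * RB S ((2 : ℝ) ^ ((a : ℝ) + θ)) τ))) -
      EB S θ ν r| ≤ e}
  have hmem1 : ∀ a, (1 : ℝ) ∈ SS a := by
    intro a
    refine ⟨zero_le_one, fun θ r _ _ hr => ?_⟩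
    have h := diff_bound2 (a + s) (lv a ν) (hlev a)
      (fun τ => 1 - Real.exp (-(r * RB S ((2 : ℝ) ^ ((a : ℝ) + θ)) τ)))
      (F2 ν S θ r) (F2_measurable ν S θ r) (hF2 θ r hr) (fun _ => 1) measurable_const (CB := 1)
      (fun _ => by rw [abs_one]) (fun τ t _ => hdiff1 a θ r τ t hr)
    simp only [mul_one] at h
    rw [tents_int] at h
    exact h
  have hbdd : ∀ a, BddBelow (SS a) := fun a => ⟨0, fun e he => he.1⟩
  have hmem : ∀ a, sInf (SS a) ∈ SS a := by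
    intro a
    refine ⟨le_csInf ⟨1, hmem1 a⟩ fun e he => he.1, fun θ r h1 h2 hr => ?_⟩
    exact le_csInf ⟨1, hmem1 a⟩ fun e he => he.2 θ r h1 h2 hr
  refine ⟨fun a => sInf (SS a), ?_, fun a => (hmem a).1, fun a => (hmem a).2⟩
  rw [Metric.tendsto_atTop]
  intro ε hε
  set c : ℝ := (Fintype.card (Idx ν) : ℝ) with hc
  have hc0 : 0 ≤ c := Nat.cast_nonneg _
  set K0 : ℝ := Real.exp (-Mer) * (2 : ℝ) ^ (-((mm : ℝ) + 1)) with hK0d
  have hK0 : 0 < K0 := mul_pos (Real.exp_pos _) (Real.rpow_pos_of_pos (by norm_num) _)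
  set M : ℝ := 2 ^ Fintype.card (Idx ν) * (3 * (4 / (K0 * Real.log 2))) with hM
  have hM0 : 0 < M := by positivity
  set η : ℝ := ε / 2 / M with hη
  have hη0 : 0 < η := by positivity
  set δ : ℝ := η / (c + 1) with hδ
  have hδ0 : 0 < δ := by positivity
  have hδη : δ ≤ η := div_le_self hη0.le (by linarith)
  have hcδ : c * δ ≤ η := by
    rw [hδ, mul_div_assoc', div_le_iff₀ (by positivity)]
    nlinarith
  set ε' : ℝ := δ / 2 ^ s with hε'
  have hε'0 : 0 < ε' := by positivity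
  have hε's : ε' * 2 ^ s = δ := by
    rw [hε']
    field_simp
  obtain ⟨l0, hl0⟩ := pos_asymp hε'0
  refine ⟨l0, fun a ha => ?_⟩
  rw [Real.dist_eq, sub_zero, abs_of_nonneg (hmem a).1]
  refine lt_of_le_of_lt (csInf_le (hbdd a) (a := ε / 2) ?_) (by linarith)
  refine ⟨by linarith, fun θ r hθ1 hθ2 hr => ?_⟩
  have hBm : Measurable (fun t : Idx ν → ℝ => BB S η (fun i => Kc ν θ i * (2 : ℝ) ^ (t i))) :=
    (BB_measurable S η).comp (K_measurable (Kc ν θ))
  have h := diff_bound2 (a + s) (lv a ν) (hlev a)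
    (fun τ => 1 - Real.exp (-(r * RB S ((2 : ℝ) ^ ((a : ℝ) + θ)) τ)))
    (F2 ν S θ r) (F2_measurable ν S θ r) (hF2 θ r hr)
    (fun t => BB S η (fun i => Kc ν θ i * (2 : ℝ) ^ (t i))) hBm
    (CB := 2 ^ Fintype.card (Idx ν) * 3)
    (fun t => by
      rw [abs_of_nonneg (BB_nonneg _ _ _)]
      exact BB_le _ _ _) ?_
  · refine h.trans ((int_BB S (Kc ν θ) hK0 (Kc_ge ν hθ2) hη0.le).trans (le_of_eq ?_))
    have h2 : 2 ^ Fintype.card (Idx ν) * (3 * (4 * η / (K0 * Real.log 2))) = M * η := by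
      rw [hM]
      ring
    rw [h2, hη]
    field_simp
  · intro τ t hz
    by_cases hs : ∀ I : Finset (Idx ν), I.Nonempty →
        η < |∑ i ∈ I, Kc ν θ i * (2 : ℝ) ^ (t i) - 1| ∧
        η < |∑ i ∈ I, Kc ν θ i * (2 : ℝ) ^ (t i) - 2 ^ S| ∧
        η < |∑ i ∈ I, Kc ν θ i * (2 : ℝ) ^ (t i) - (2 ^ S - 1)|
    · have hx : ∀ i : Idx ν, |Real.log (τ i) / (2 : ℝ) ^ ((a : ℝ) + θ) -
          Kc ν θ i * (2 : ℝ) ^ (t i)| ≤ δ := by
        intro i
        obtain ⟨h1, h2, h3⟩ := cell (hz i)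
        have h4 := hl0 (lv a ν i) (by unfold lv; omega) (τ i) h1 _ h2
        rw [← hε's]
        exact step ν a hθ1 hε'0.le i h4
      have h5 := RG_congr S hδ0.le hδη hcδ hx hs
      have h6 : (1 - Real.exp (-(r * RB S ((2 : ℝ) ^ ((a : ℝ) + θ)) τ))) - F2 ν S θ r t = 0 := by
        unfold F2
        rw [Rv_K, RB_eq S (hu a θ), h5, sub_self]
      show |(1 - Real.exp (-(r * RB S ((2 : ℝ) ^ ((a : ℝ) + θ)) τ))) - F2 ν S θ r t| ≤ _
      rw [h6, abs_zero]
      exact BB_nonneg _ _ _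
    · exact (hdiff1 a θ r τ t hr).trans (BB_ge S hs)

end Pool.Agent.EN2
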