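import Mathlib
import Pool.Agent.Lib.MP_ec0ede_nt_EN2.Defs
import Pool.Agent.Lib.MP_ec0ede_nt_EN.ZBd
import Pool.Agent.Lib.MP_ec0ede_nt_EN.Path
import Pool.Agent.Lib.MP_ec0ede_nt_EN.Ker
import Pool.Agent.Lib.MP_ec0ede_nt_EN.Blk

set_option autoImplicit false

/-!
# MP_ec0ede_nt, project EN2: summing over the middle block, barrier in the middle block only
-/

noncomputable section

namespace Pool.Agent.EN2

open Real Filter Topology Finset Pool.Agent.EN

namespace Blk2

theorem md_append {K n s : ℕ} (νC : Fin K → ℕ) (νB : Fin n → ℕ) (νA : Fin s → ℕ) :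
    md K n (Fin.append νC (Fin.append νB νA)) ↔ ∀ j ≤ n, 1 ≤ X νC K + X νB j := by
  unfold md
  constructor
  · intro h j hj
    have := h (K + j) (by omega) (by omega)
    rwa [X_append_right, X_append_left _ _ hj] at this
  · intro h j hj1 hj2
    obtain ⟨i, rfl⟩ : ∃ i, j = K + i := ⟨j - K, by omega⟩
    rw [X_append_right, X_append_left _ _ (by omega)]
    exact h i (by omega)

theorem kernel (n : ℕ) (x : ℤ) (hx : 1 ≤ x) (w : ℕ) (hw : 1 ≤ w) :
    PW n (fun νB => if (∀ j ≤ n, 1 ≤ x + X νB j) ∧ x + X νB n = (w : ℤ) then 1 else 0) =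
    ENNReal.ofReal (kp n w x.toNat) := by
  have h := path_kernel 0 n x (w : ℤ) (-1) (by omega) (by omega)
  have h2 : ((w : ℤ) + -1 + 1).toNat = w := by omega
  have h3 : (x + -1 + 1).toNat = x.toNat := by congr 1; ring
  rw [h2, h3] at h
  unfold kp
  rw [← h]
  congr 1
  funext νB
  simp

theorem inner (n : ℕ) (x : ℤ) (hx : 1 ≤ x) (G : ℕ → ENNReal) :
    PW n (fun νB => (if (∀ j ≤ n, 1 ≤ x + X νB j) then 1 else 0) * G (x + X νB n).toNat) =
    ∑' w : ℕ, if 1 ≤ w then ENNReal.ofReal (kp n w x.toNat) * G w else 0 := by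
  have h1 : ∀ νB : Fin n → ℕ,
      (if (∀ j ≤ n, 1 ≤ x + X νB j) then (1 : ENNReal) else 0) * G (x + X νB n).toNat =
      ∑' w : ℕ, if 1 ≤ w then (if (∀ j ≤ n, 1 ≤ x + X νB j) ∧ x + X νB n = (w : ℤ) then
        (1 : ENNReal) else 0) * G w else 0 := by
    intro νB
    by_cases h : ∀ j ≤ n, 1 ≤ x + X νB j
    · rw [if_pos h, one_mul]
      have hw := h n le_rfl
      rw [tsum_eq_single (x + X νB n).toNat]
      · have hb : (((x + X νB n).toNat : ℕ) : ℤ) = x + X νB n := by omega
        rw [if_pos (by omega), if_pos ⟨h, hb.symm⟩, one_mul]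
      · intro b hb
        split_ifs with h3 h4
        · exact absurd (by omega) hb
        · rw [zero_mul]
        · rfl
    · rw [if_neg h, zero_mul]
      symm
      rw [ENNReal.tsum_eq_zero]
      intro b
      split_ifs with h3 h4
      · exact absurd h4.1 h
      · rw [zero_mul]
      · rfl
  have h2 : PW n (fun νB => (if (∀ j ≤ n, 1 ≤ x + X νB j) then (1 : ENNReal) else 0) *
      G (x + X νB n).toNat) = ∑' w : ℕ, PW n (fun νB =>
      if 1 ≤ w then (if (∀ j ≤ n, 1 ≤ x + X νB j) ∧ x + X νB n = (w : ℤ) then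
        (1 : ENNReal) else 0) * G w else 0) := by
    unfold PW
    rw [ENNReal.tsum_comm]
    refine tsum_congr fun νB => ?_
    rw [ENNReal.tsum_mul_left]
    exact congrArg (fun z => ENNReal.ofReal (wt νB) * z) (h1 νB)
  rw [h2]
  refine tsum_congr fun w => ?_
  by_cases hw : 1 ≤ w
  · rw [if_pos hw, ← kernel n x hx w hw, mul_comm, ← Path.PW_const_mul]
    congr 1
    funext νB
    rw [if_pos hw, mul_comm]
  · rw [if_neg hw]
    have h4 : (fun νB : Fin n → ℕ => if 1 ≤ w then
      (if (∀ j ≤ n, 1 ≤ x + X νB j) ∧ x + X νB n = (w : ℤ) then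
        (1 : ENNReal) else 0) * G w else 0) = fun _ => 0 := by
      funext νB
      rw [if_neg hw]
    rw [h4, Path.PW_zero]

end Blk2

open Blk2 in
theorem blk2 (K n s : ℕ) (φ : ℕ → ℕ → ℝ) (hφ : ∀ x w, 0 ≤ φ x w ∧ φ x w ≤ 1)
    (H : (Fin K → ℕ) → ℕ → (Fin s → ℕ) → ℝ)
    (h0 : ∀ νC N νA, 0 ≤ H νC N νA) (h1 : ∀ νC N νA, H νC N νA ≤ 1) :
    ZS (K + (n + s)) (fun ν => ind (md K n ν) * φ (X ν K).toNat (X ν (K + n)).toNat *
      H (lo ν) (cnt (lo (hi ν)) n) (hi (hi ν))) =
    ∑' i : Ic K s, wt i.1 * ind (1 ≤ X i.1 K ∧ 1 ≤ i.2.1) * kp n i.2.1 (X i.1 K).toNat *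
      φ (X i.1 K).toNat i.2.1 * (wt i.2.2 * zz ^ ((i.2.1 : ℤ) + X i.2.2 s)) *
      H i.1 ((n : ℤ) + X i.1 K - i.2.1).toNat i.2.2 := by
  set F : (Fin (K + (n + s)) → ℕ) → ℝ :=
    fun ν => ind (md K n ν) * φ (X ν K).toNat (X ν (K + n)).toNat *
      H (lo ν) (cnt (lo (hi ν)) n) (hi (hi ν)) with hF
  have hF0 : ∀ ν, 0 ≤ F ν := fun ν =>
    mul_nonneg (mul_nonneg (ind_nonneg _) (hφ _ _).1) (h0 _ _ _)
  have hF1 : ∀ ν, F ν ≤ 1 := fun ν => by
    calc F ν ≤ (1 * 1) * 1 := mul_le_mul (mul_le_mul (ind_le_one _) (hφ _ _).2 (hφ _ _).1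
          zero_le_one) (h1 _ _ _) (h0 _ _ _) (by norm_num)
      _ = 1 := by norm_num
  -- the terms
  set T : Ic K s → ℝ := fun i => wt i.1 * ind (1 ≤ X i.1 K ∧ 1 ≤ i.2.1) *
      kp n i.2.1 (X i.1 K).toNat * φ (X i.1 K).toNat i.2.1 *
      (wt i.2.2 * zz ^ ((i.2.1 : ℤ) + X i.2.2 s)) *
      H i.1 ((n : ℤ) + X i.1 K - i.2.1).toNat i.2.2 with hT
  have hzz : ∀ k : ℤ, 0 < zz ^ k := fun k => zpow_pos Blk.zz_pos k
  have hT0 : ∀ i, 0 ≤ T i := fun i =>
    mul_nonneg (mul_nonneg (mul_nonneg (mul_nonneg (mul_nonneg (Blk.wt_pos _).le (ind_nonneg _))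
      (kp_nonneg _ _ _)) (hφ _ _).1) (mul_nonneg (Blk.wt_pos _).le (hzz _).le)) (h0 _ _ _)
  -- the ENNReal identity
  have key : PW (K + (n + s)) (fun ν => ENNReal.ofReal (zz ^ (X ν (K + (n + s))) * F ν)) =
      ∑' i : Ic K s, ENNReal.ofReal (T i) := by
    rw [PW_append, ENNReal.tsum_prod']
    unfold PW
    refine tsum_congr fun νC => ?_
    change ENNReal.ofReal (wt νC) * PW (n + s) _ = _
    rw [PW_append, ENNReal.tsum_prod']
    have hFa : ∀ (νB : Fin n → ℕ) (νA : Fin s → ℕ),
        F (Fin.append νC (Fin.append νB νA)) = ind (∀ j ≤ n, 1 ≤ X νC K + X νB j) *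
          φ (X νC K).toNat (X νC K + X νB n).toNat * H νC (cnt νB n) νA := by
      intro νB νA
      rw [hF]
      simp only
      rw [lo_append, hi_append, lo_append, hi_append, X_append_left _ _ le_rfl, X_append_right,
        X_append_left _ _ le_rfl, ind_congr (md_append νC νB νA)]
    by_cases hC : 1 ≤ X νC K
    · set G : ℕ → ENNReal := fun w => PW s (fun νA => ENNReal.ofReal (φ (X νC K).toNat w *
        zz ^ ((w : ℤ) + X νA s) * H νC ((n : ℤ) + X νC K - w).toNat νA)) with hG
      have h5 : (fun νB : Fin n → ℕ => PW s (fun νA => ENNReal.ofReal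
          (zz ^ (X (Fin.append νC (Fin.append νB νA)) (K + (n + s))) *
            F (Fin.append νC (Fin.append νB νA))))) =
          fun νB => (if (∀ j ≤ n, 1 ≤ X νC K + X νB j) then 1 else 0) *
            G (X νC K + X νB n).toNat := by
        funext νB
        rw [hG]
        simp only
        rw [← Path.PW_const_mul]
        congr 1
        funext νA
        rw [hFa, X_append_right, X_append_right]
        by_cases hB : ∀ j ≤ n, 1 ≤ X νC K + X νB j
        · have hw := hB n le_rfl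
          have hb : (((X νC K + X νB n).toNat : ℕ) : ℤ) = X νC K + X νB n := by omega
          have hcnt : ((n : ℤ) + X νC K - (X νC K + X νB n)).toNat = cnt νB n := by
            unfold X
            omega
          rw [if_pos hB, one_mul, ind_of hB, hb, hcnt, ← add_assoc]
          congr 1
          ring
        · rw [if_neg hB, zero_mul, ind_not_of hB, zero_mul, zero_mul, mul_zero,
            ENNReal.ofReal_zero]
      rw [h5, Blk2.inner n (X νC K) hC G, ← ENNReal.tsum_mul_left]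
      refine tsum_congr fun w => ?_
      by_cases hw : 1 ≤ w
      · rw [if_pos hw, hG]
        simp only
        unfold PW
        rw [← ENNReal.tsum_mul_left, ← ENNReal.tsum_mul_left]
        refine tsum_congr fun νA => ?_
        rw [← ENNReal.ofReal_mul (Blk.wt_pos νA).le, ← ENNReal.ofReal_mul (kp_nonneg _ _ _),
          ← ENNReal.ofReal_mul (Blk.wt_pos νC).le]
        congr 1
        rw [hT]
        simp only
        rw [ind_of ⟨hC, hw⟩]
        ring
      · rw [if_neg hw, mul_zero]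
        symm
        rw [ENNReal.tsum_eq_zero]
        intro νA
        rw [hT]
        simp only
        rw [ind_not_of (fun h => hw h.2)]
        simp
    · have h6 : (fun νB : Fin n → ℕ => PW s (fun νA => ENNReal.ofReal
          (zz ^ (X (Fin.append νC (Fin.append νB νA)) (K + (n + s))) *
            F (Fin.append νC (Fin.append νB νA))))) = fun _ => 0 := by
        funext νB
        have h7 : (fun νA : Fin s → ℕ => ENNReal.ofReal
          (zz ^ (X (Fin.append νC (Fin.append νB νA)) (K + (n + s))) *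
            F (Fin.append νC (Fin.append νB νA)))) = fun _ => 0 := by
          funext νA
          rw [hFa, ind_not_of, zero_mul, zero_mul, mul_zero, ENNReal.ofReal_zero]
          intro h
          have := h 0 (Nat.zero_le _)
          rw [Path.X_zero] at this
          omega
        rw [h7, Path.PW_zero]
      rw [h6, Path.PW_zero, mul_zero]
      symm
      rw [ENNReal.tsum_eq_zero]
      intro w
      rw [ENNReal.tsum_eq_zero]
      intro νA
      rw [hT]
      simp only
      rw [ind_not_of (fun h => hC h.1)]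
      simp
  have hPW := Blk.ZS_PW1 F hF0 hF1
  rw [key] at hPW
  have hZ0 : 0 ≤ ZS (K + (n + s)) F := by
    unfold ZS
    exact tsum_nonneg fun ν => mul_nonneg (mul_nonneg (Blk.wt_pos _).le (hzz _).le) (hF0 ν)
  rw [← ENNReal.toReal_ofReal hZ0, hPW, ENNReal.tsum_toReal_eq (fun i => ENNReal.ofReal_ne_top)]
  refine tsum_congr fun i => ?_
  rw [ENNReal.toReal_ofReal (hT0 i)]

end Pool.Agent.EN2
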