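import Mathlib
import Pool.Agent.Lib.MP_ec0ede_nt_EN2.Defs
import Pool.Agent.Lib.MP_ec0ede_nt_EN.ExB
import Pool.Agent.Lib.MP_ec0ede_nt_EN.Spl
import Pool.Agent.Lib.MP_ec0ede_nt_EN.LawA
import Pool.Agent.Lib.MP_ec0ede_nt_EN.Comp

set_option autoImplicit false

/-!
# MP_ec0ede_nt, project EN2, module VolC: the measure of the union of the windows
-/

noncomputable section

namespace Pool.Agent.EN2

open Real Filter Topology Finset Pool.Agent.EN

namespace VolC

open MeasureTheory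

theorem log2_nn : 0 ≤ Real.log 2 := Real.log_nonneg (by norm_num)

theorem log2_le : Real.log 2 ≤ 1 := by
  have := Real.log_two_lt_d9
  linarith

/-- the left end of the window with the label `p` -/
def lft {ι : Type} (τ : ι → ℕ) (p : ℕ × Finset ι) : ℝ := Real.log p.1 + sz τ p.2

/-- the window with the label `p` -/
def wd {ι : Type} (τ : ι → ℕ) (p : ℕ × Finset ι) : Set ℝ :=
  Set.Ico (lft τ p) (lft τ p + Real.log 2)

theorem vol_Ico_ofReal (a h : ℝ) : volume (Set.Ico a (a + h)) = ENNReal.ofReal h := by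
  rw [Real.volume_Ico]
  congr 1
  ring

theorem vol_iUnion_le {κ : Type} (E : Finset κ) (a : κ → ℝ) (h : ℝ) :
    volume (⋃ q ∈ E, Set.Ico (a q) (a q + h)) ≤ E.card * ENNReal.ofReal h := by
  refine (measure_biUnion_finset_le E _).trans ?_
  rw [Finset.sum_congr rfl fun q _ => vol_Ico_ofReal (a q) h, Finset.sum_const, nsmul_eq_mul]

theorem TW_eq (f : ℕ) {ι : Type} [Fintype ι] [DecidableEq ι] (τ : ι → ℕ) :
    TW f τ = ⋃ p ∈ f.divisors ×ˢ (univ : Finset (Finset ι)), wd τ p := by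
  ext t
  simp only [TW, Set.mem_ofPred_eq, Set.mem_iUnion, wd, Set.mem_Ico, exists_prop, lft,
    Finset.mem_product, Finset.mem_univ, and_true]
  constructor
  · rintro ⟨d, hd, S, h1, h2⟩
    exact ⟨(d, S), hd, h1, h2⟩
  · rintro ⟨⟨d, S⟩, hd, h1, h2⟩
    exact ⟨d, hd, S, h1, h2⟩

theorem TWs_eq (b f : ℕ) {ι : Type} [Fintype ι] [DecidableEq ι] (τ : ι → ℕ) :
    TWs b f τ = ⋃ p ∈ f.divisors ×ˢ (univ.filter fun i => ¬ b < τ i).powerset, wd τ p := by
  ext t
  simp only [TWs, Set.mem_ofPred_eq, Set.mem_iUnion, wd, Set.mem_Ico, exists_prop, lft,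
    Finset.mem_product, Finset.mem_powerset]
  constructor
  · rintro ⟨d, hd, S, hS, h1, h2⟩
    refine ⟨(d, S), ⟨hd, fun i hi => ?_⟩, h1, h2⟩
    rw [Finset.mem_filter]
    exact ⟨Finset.mem_univ _, not_lt.2 (hS i hi)⟩
  · rintro ⟨⟨d, S⟩, ⟨hd, hS⟩, h1, h2⟩
    exact ⟨d, hd, S, fun i hi => not_lt.1 (Finset.mem_filter.1 (hS hi)).2, h1, h2⟩

theorem card_split {ι : Type} [Fintype ι] [DecidableEq ι] (b : ℕ) (τ : ι → ℕ) :
    ex b τ + (univ.filter fun i => ¬ b < τ i).card = Fintype.card ι := by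
  unfold ex
  rw [Finset.card_filter_add_card_filter_not, Finset.card_univ]

theorem TWs_vol (b f : ℕ) {ι : Type} [Fintype ι] [DecidableEq ι] (τ : ι → ℕ) :
    volume (TWs b f τ) ≤
      ((f.divisors.card * 2 ^ (univ.filter fun i => ¬ b < τ i).card : ℕ) : ENNReal) *
        ENNReal.ofReal (Real.log 2) := by
  rw [TWs_eq]
  refine (vol_iUnion_le _ _ _).trans (le_of_eq ?_)
  rw [Finset.card_product, Finset.card_powerset]

theorem TWs_fin (b f : ℕ) {ι : Type} [Fintype ι] [DecidableEq ι] (τ : ι → ℕ) :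
    volume (TWs b f τ) ≠ ⊤ :=
  ne_top_of_le_ne_top (ENNReal.mul_ne_top (ENNReal.natCast_ne_top _) ENNReal.ofReal_ne_top)
    (TWs_vol b f τ)

theorem TW_fin (f : ℕ) {ι : Type} [Fintype ι] [DecidableEq ι] (τ : ι → ℕ) :
    volume (TW f τ) ≠ ⊤ := by
  rw [TW_eq]
  exact ne_top_of_le_ne_top (ENNReal.mul_ne_top (ENNReal.natCast_ne_top _) ENNReal.ofReal_ne_top)
    (vol_iUnion_le _ _ _)

theorem TWs_meas (b f : ℕ) {ι : Type} [Fintype ι] [DecidableEq ι] (τ : ι → ℕ) :
    MeasurableSet (TWs b f τ) := by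
  rw [TWs_eq]
  exact Finset.measurableSet_biUnion _ fun p _ => measurableSet_Ico

theorem TW_meas (f : ℕ) {ι : Type} [Fintype ι] [DecidableEq ι] (τ : ι → ℕ) :
    MeasurableSet (TW f τ) := by
  rw [TW_eq]
  exact Finset.measurableSet_biUnion _ fun p _ => measurableSet_Ico

/-- the translate of `TWs` by the set `J` of extras -/
def Aj (b f : ℕ) {ι : Type} (τ : ι → ℕ) (J : Finset ι) : Set ℝ :=
  (fun t : ℝ => t + -sz τ J) ⁻¹' TWs b f τ

theorem Aj_vol (b f : ℕ) {ι : Type} [Fintype ι] [DecidableEq ι] (τ : ι → ℕ) (J : Finset ι) :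
    volume (Aj b f τ J) = volume (TWs b f τ) :=
  measure_preimage_add_right volume (-sz τ J) (TWs b f τ)

theorem Aj_meas (b f : ℕ) {ι : Type} [Fintype ι] [DecidableEq ι] (τ : ι → ℕ) (J : Finset ι) :
    MeasurableSet (Aj b f τ J) :=
  (measurable_add_const _) (TWs_meas b f τ)

theorem sz_union {ι : Type} [DecidableEq ι] (τ : ι → ℕ) {I J : Finset ι} (h : Disjoint I J) :
    sz τ (I ∪ J) = sz τ I + sz τ J := Finset.sum_union h

/-- the set of extras -/
def Xs {ι : Type} [Fintype ι] (b : ℕ) (τ : ι → ℕ) : Finset ι := univ.filter fun i => b < τ i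

theorem mem_Xs {ι : Type} [Fintype ι] {b : ℕ} {τ : ι → ℕ} {i : ι} : i ∈ Xs b τ ↔ b < τ i := by
  simp [Xs]

/-- the points of `Aj` in terms of the windows -/
theorem mem_Aj (b f : ℕ) {ι : Type} [Fintype ι] [DecidableEq ι] (τ : ι → ℕ) {J : Finset ι}
    (hJ : J ⊆ Xs b τ) (t : ℝ) : t ∈ Aj b f τ J ↔
      ∃ p ∈ f.divisors ×ˢ (univ : Finset (Finset ι)), p.2 ∩ Xs b τ = J ∧ t ∈ wd τ p := by
  unfold Aj wd lft
  rw [Set.mem_preimage]
  constructor
  · rintro ⟨d, hd, I, hI, h1, h2⟩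
    have hdj : Disjoint I (Xs b τ) := by
      rw [Finset.disjoint_left]
      intro i hi hx
      have := hI i hi
      have := mem_Xs.1 hx
      omega
    have hIJ : Disjoint I J := hdj.mono_right hJ
    refine ⟨(d, I ∪ J), ?_, ?_, ?_⟩
    · simp [hd]
    · simp only
      rw [Finset.union_inter_distrib_right, Finset.disjoint_iff_inter_eq_empty.1 hdj,
        Finset.empty_union]
      exact Finset.inter_eq_left.2 hJ
    · simp only [Set.mem_Ico]
      rw [sz_union τ hIJ]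
      constructor <;> linarith
  · rintro ⟨⟨d, S⟩, hp, hS, h1, h2⟩
    simp only at hS h1 h2
    have hd : d ∈ f.divisors := (Finset.mem_product.1 hp).1
    refine ⟨d, hd, S \ Xs b τ, fun i hi => ?_, ?_, ?_⟩
    · by_contra hc
      exact (Finset.mem_sdiff.1 hi).2 (mem_Xs.2 (not_le.1 hc))
    all_goals
      have e : sz τ S = sz τ (S \ Xs b τ) + sz τ J := by
        rw [← hS, ← sz_union]
        · congr 1
          exact (Finset.sdiff_union_inter S (Xs b τ)).symm
        · exact Finset.disjoint_of_subset_right Finset.inter_subset_right Finset.sdiff_disjoint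
      linarith

theorem TW_sub (b f : ℕ) {ι : Type} [Fintype ι] [DecidableEq ι] (τ : ι → ℕ) :
    TW f τ = ⋃ J ∈ (Xs b τ).powerset, Aj b f τ J := by
  ext t
  rw [TW_eq]
  simp only [Set.mem_iUnion, exists_prop, Finset.mem_powerset]
  constructor
  · rintro ⟨p, hp, ht⟩
    exact ⟨p.2 ∩ Xs b τ, Finset.inter_subset_right,
      (mem_Aj b f τ Finset.inter_subset_right t).2 ⟨p, hp, rfl, ht⟩⟩
  · rintro ⟨J, hJ, ht⟩
    obtain ⟨p, hp, -, ht⟩ := (mem_Aj b f τ hJ t).1 ht
    exact ⟨p, hp, ht⟩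

theorem card_Xs {ι : Type} [Fintype ι] (b : ℕ) (τ : ι → ℕ) : (Xs b τ).card = ex b τ := rfl

/-- the labels of the pairs of windows -/
def Rr (b f : ℕ) {ι : Type} [Fintype ι] [DecidableEq ι] (τ : ι → ℕ) :
    Finset (ι × ((ℕ × Finset ι) × (ℕ × Finset ι))) :=
  ((Xs b τ) ×ˢ ((f.divisors ×ˢ univ) ×ˢ (f.divisors ×ˢ univ))).filter
    (fun x => x.1 ∈ x.2.1.2 ∧ x.1 ∉ x.2.2.2)

open Classical in
/-- the combinatorial inequality at the point `t` -/
theorem point (b f : ℕ) {ι : Type} [Fintype ι] [DecidableEq ι] (τ : ι → ℕ) (t : ℝ) :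
    ((Xs b τ).powerset.filter fun J => t ∈ Aj b f τ J).card ≤
      (if t ∈ TW f τ then 1 else 0) +
        ((Rr b f τ).filter fun x => t ∈ wd τ x.2.1 ∩ wd τ x.2.2).card := by
  set 𝒮 := (Xs b τ).powerset.filter fun J => t ∈ Aj b f τ J with hS
  rcases 𝒮.eq_empty_or_nonempty with h0 | hne
  · rw [h0]
    simp
  · obtain ⟨J0, hJ0, hmin⟩ := Finset.exists_min_image 𝒮 (fun J => J.card) hne
    have hJ0' := Finset.mem_filter.1 hJ0
    have hX0 : J0 ⊆ Xs b τ := Finset.mem_powerset.1 hJ0'.1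
    have hTW : t ∈ TW f τ := by
      rw [TW_sub b f τ]
      simp only [Set.mem_iUnion, exists_prop]
      exact ⟨J0, hJ0'.1, hJ0'.2⟩
    rw [if_pos hTW, ← Finset.card_erase_add_one hJ0, add_comm]
    apply Nat.add_le_add_left
    obtain ⟨p0, hp0, hp0J, hp0t⟩ := (mem_Aj b f τ hX0 t).1 hJ0'.2
    have hsub : 𝒮.erase J0 ⊆ ((Rr b f τ).filter
        (fun x => t ∈ wd τ x.2.1 ∩ wd τ x.2.2)).image (fun x => x.2.1.2 ∩ Xs b τ) := by
      intro J hJ
      obtain ⟨hJne, hJS⟩ := Finset.mem_erase.1 hJ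
      have hJS' := Finset.mem_filter.1 hJS
      have hX : J ⊆ Xs b τ := Finset.mem_powerset.1 hJS'.1
      have hns : ¬ J ⊆ J0 := by
        intro hsub
        exact hJne (Finset.eq_of_subset_of_card_le hsub (hmin J hJS))
      obtain ⟨i, hiJ, hi0⟩ := Finset.not_subset.1 hns
      obtain ⟨p, hp, hpJ, hpt⟩ := (mem_Aj b f τ hX t).1 hJS'.2
      rw [Finset.mem_image]
      refine ⟨(i, (p, p0)), ?_, hpJ⟩
      rw [Finset.mem_filter]
      refine ⟨?_, hpt, hp0t⟩
      unfold Rr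
      rw [Finset.mem_filter]
      refine ⟨?_, ?_, ?_⟩
      · rw [Finset.mem_product, Finset.mem_product]
        exact ⟨hX hiJ, hp, hp0⟩
      · rw [← hpJ] at hiJ
        exact (Finset.mem_inter.1 hiJ).1
      · intro hi
        apply hi0
        rw [← hp0J]
        exact Finset.mem_inter.2 ⟨hi, hX hiJ⟩
    exact (Finset.card_le_card hsub).trans Finset.card_image_le

theorem sum_ind {κ : Type} (E : Finset κ) (A : κ → Set ℝ) (t : ℝ) [DecidablePred fun x => t ∈ A x] :
    ∑ x ∈ E, (A x).indicator (1 : ℝ → ENNReal) t = ((E.filter fun x => t ∈ A x).card : ENNReal) := by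
  rw [Finset.card_filter, Nat.cast_sum]
  refine Finset.sum_congr rfl fun x _ => ?_
  by_cases h : t ∈ A x
  · rw [Set.indicator_of_mem h, if_pos h]
    simp
  · rw [Set.indicator_of_notMem h, if_neg h]
    simp

theorem wd_meas {ι : Type} (τ : ι → ℕ) (p : ℕ × Finset ι) : MeasurableSet (wd τ p) :=
  measurableSet_Ico

/-- the integrated inequality -/
theorem meas_ineq (b f : ℕ) {ι : Type} [Fintype ι] [DecidableEq ι] (τ : ι → ℕ) :
    (2 : ENNReal) ^ ex b τ * volume (TWs b f τ) ≤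
      volume (TW f τ) + ∑ x ∈ Rr b f τ, volume (wd τ x.2.1 ∩ wd τ x.2.2) := by
  classical
  have e1 : (2 : ENNReal) ^ ex b τ * volume (TWs b f τ) =
      ∑ J ∈ (Xs b τ).powerset, volume (Aj b f τ J) := by
    rw [Finset.sum_congr rfl fun J _ => Aj_vol b f τ J, Finset.sum_const, Finset.card_powerset,
      card_Xs, nsmul_eq_mul]
    push_cast
    rfl
  have e2 : ∑ J ∈ (Xs b τ).powerset, volume (Aj b f τ J) =
      ∫⁻ t, ∑ J ∈ (Xs b τ).powerset, (Aj b f τ J).indicator (1 : ℝ → ENNReal) t := by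
    rw [lintegral_finsetSum _ fun J _ => measurable_one.indicator (Aj_meas b f τ J)]
    exact Finset.sum_congr rfl fun J _ => (lintegral_indicator_one (Aj_meas b f τ J)).symm
  have e3 : ∑ x ∈ Rr b f τ, volume (wd τ x.2.1 ∩ wd τ x.2.2) =
      ∫⁻ t, ∑ x ∈ Rr b f τ, (wd τ x.2.1 ∩ wd τ x.2.2).indicator (1 : ℝ → ENNReal) t := by
    rw [lintegral_finsetSum _ fun x _ =>
      measurable_one.indicator ((wd_meas τ x.2.1).inter (wd_meas τ x.2.2))]
    exact Finset.sum_congr rfl fun x _ =>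
      (lintegral_indicator_one ((wd_meas τ x.2.1).inter (wd_meas τ x.2.2))).symm
  have e4 : volume (TW f τ) = ∫⁻ t, (TW f τ).indicator (1 : ℝ → ENNReal) t :=
    (lintegral_indicator_one (TW_meas f τ)).symm
  rw [e1, e2, e3, e4, ← lintegral_add_left (measurable_one.indicator (TW_meas f τ))]
  refine lintegral_mono fun t => ?_
  simp only
  rw [sum_ind, sum_ind]
  have h := point b f τ t
  have h2 : (TW f τ).indicator (1 : ℝ → ENNReal) t = ((if t ∈ TW f τ then 1 else 0 : ℕ) : ENNReal) := by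
    by_cases h : t ∈ TW f τ
    · rw [Set.indicator_of_mem h, if_pos h]
      simp
    · rw [Set.indicator_of_notMem h, if_neg h]
      simp
  rw [h2]
  exact_mod_cast h

theorem wd_inter {ι : Type} (τ : ι → ℕ) (p q : ℕ × Finset ι) :
    (volume (wd τ p ∩ wd τ q)).toReal ≤ ind (|lft τ p - lft τ q| < Real.log 2) := by
  by_cases h : |lft τ p - lft τ q| < Real.log 2
  · rw [ind_of h]
    have h1 : volume (wd τ p ∩ wd τ q) ≤ ENNReal.ofReal 1 := by
      refine (measure_mono Set.inter_subset_left).trans ?_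
      unfold wd
      rw [vol_Ico_ofReal]
      exact ENNReal.ofReal_le_ofReal log2_le
    exact ENNReal.toReal_le_of_le_ofReal zero_le_one h1
  · have : wd τ p ∩ wd τ q = ∅ := by
      ext t
      simp only [wd, Set.mem_inter_iff, Set.mem_Ico, Set.mem_empty_iff_false, iff_false]
      rintro ⟨⟨h1, h2⟩, h3, h4⟩
      apply h
      rw [abs_lt]
      constructor <;> linarith
    rw [this, measure_empty, ENNReal.toReal_zero]
    exact ind_nonneg _

/-- the pointwise bound -/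
theorem diff_le (b f : ℕ) {ι : Type} [Fintype ι] [DecidableEq ι] (τ : ι → ℕ) :
    vb b f τ - vol (TW f τ) ≤
      ∑ x ∈ Rr b f τ, ind (|lft τ x.2.1 - lft τ x.2.2| < Real.log 2) := by
  have hfin : ∀ x ∈ Rr b f τ, volume (wd τ x.2.1 ∩ wd τ x.2.2) ≠ ⊤ := by
    intro x _
    refine ne_top_of_le_ne_top ?_ (measure_mono Set.inter_subset_left)
    unfold wd
    rw [vol_Ico_ofReal]
    exact ENNReal.ofReal_ne_top
  have h1 := meas_ineq b f τ
  have h2 : vb b f τ = ((2 : ENNReal) ^ ex b τ * volume (TWs b f τ)).toReal := by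
    unfold vb vol
    rw [ENNReal.toReal_mul, ENNReal.toReal_pow]
    simp
  have h3 : ((2 : ENNReal) ^ ex b τ * volume (TWs b f τ)).toReal ≤
      vol (TW f τ) + ∑ x ∈ Rr b f τ, (volume (wd τ x.2.1 ∩ wd τ x.2.2)).toReal := by
    unfold vol
    rw [← ENNReal.toReal_sum hfin, ← ENNReal.toReal_add (TW_fin f τ)]
    · refine ENNReal.toReal_mono ?_ h1
      exact ENNReal.add_ne_top.2 ⟨TW_fin f τ, ENNReal.sum_ne_top.2 hfin⟩
    · exact ENNReal.sum_ne_top.2 hfin
  have h4 : ∑ x ∈ Rr b f τ, (volume (wd τ x.2.1 ∩ wd τ x.2.2)).toReal ≤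
      ∑ x ∈ Rr b f τ, ind (|lft τ x.2.1 - lft τ x.2.2| < Real.log 2) :=
    Finset.sum_le_sum fun x _ => wd_inter τ x.2.1 x.2.2
  rw [h2]
  linarith

/-- the expectation of one indicator -/
theorem Ex_ind {ι : Type} [Fintype ι] [DecidableEq ι] (P : Finset ℕ) (m : ι → ℕ → ℝ)
    (lev : ι → ℕ) (D : ℝ) (hL : Laws P m lev D) (i : ι) (p q : ℕ × Finset ι)
    (hp : i ∈ p.2) (hq : i ∉ q.2) :
    Ex P m (fun τ => ind (|lft τ p - lft τ q| < Real.log 2)) ≤ 2 * D / 2 ^ lev i := by
  rw [Ex_pivot P m hL.mass i]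
  rw [← Ex_const P m hL.mass (2 * D / 2 ^ lev i)]
  refine Ex_mono P m hL.nonneg _ _ fun τ _ => ?_
  set c : ℝ := Real.log p.1 + sz τ (p.2.erase i) - (Real.log q.1 + sz τ q.2) with hc
  have h1 : ∀ r : ℕ, lft (Function.update τ i r) p - lft (Function.update τ i r) q =
      c + Real.log r := by
    intro r
    unfold lft
    have e1 : sz (Function.update τ i r) p.2 = sz τ (p.2.erase i) + Real.log r := by
      unfold sz
      rw [← Finset.sum_erase_add _ _ hp, Function.update_self]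
      congr 1
      refine Finset.sum_congr rfl fun j hj => ?_
      rw [Function.update_of_ne (Finset.ne_of_mem_erase hj)]
    have e2 : sz (Function.update τ i r) q.2 = sz τ q.2 := by
      unfold sz
      refine Finset.sum_congr rfl fun j hj => ?_
      rw [Function.update_of_ne]
      rintro rfl
      exact hq hj
    rw [e1, e2, hc]
    ring
  have h2 : ∑ r ∈ P, m i r * ind (|lft (Function.update τ i r) p -
      lft (Function.update τ i r) q| < Real.log 2) ≤
      ∑ r ∈ P.filter (fun r : ℕ => -c - 1 ≤ Real.log r ∧ Real.log r ≤ -c - 1 + 2), m i r := by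
    rw [Finset.sum_filter]
    refine Finset.sum_le_sum fun r _ => ?_
    rw [h1 r]
    by_cases h : |c + Real.log r| < Real.log 2
    · rw [ind_of h, mul_one]
      have h' := abs_lt.1 h
      have hl := log2_le
      rw [if_pos]
      constructor <;> linarith [h'.1, h'.2]
    · rw [ind_not_of h, mul_zero]
      split_ifs
      · exact hL.nonneg i r
      · exact le_rfl
  refine h2.trans ((hL.dens i (-c - 1) 2 (by norm_num)).trans (le_of_eq ?_))
  ring

end VolC

theorem vol_mono {T T' : Set ℝ} (h : T ⊆ T') (hb : Bornology.IsBounded T') : vol T ≤ vol T' :=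
  ENNReal.toReal_mono hb.measure_lt_top.ne (MeasureTheory.measure_mono h)

theorem vb_nonneg (b f : ℕ) {ι : Type} [Fintype ι] (τ : ι → ℕ) : 0 ≤ vb b f τ := by
  unfold vb vol
  positivity

theorem vb_le (b f : ℕ) {ι : Type} [Fintype ι] [DecidableEq ι] (τ : ι → ℕ) :
    vb b f τ ≤ f.divisors.card * 2 ^ Fintype.card ι := by
  have h0 := VolC.TWs_vol b f τ
  have h1 : vol (TWs b f τ) ≤
      ((f.divisors.card * 2 ^ (univ.filter fun i => ¬ b < τ i).card : ℕ) : ℝ) * Real.log 2 := by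
    unfold vol
    refine ENNReal.toReal_le_of_le_ofReal (mul_nonneg (by positivity) VolC.log2_nn) ?_
    rw [ENNReal.ofReal_mul (by positivity), ENNReal.ofReal_natCast]
    exact h0
  have h2 : vol (TWs b f τ) ≤
      ((f.divisors.card * 2 ^ (univ.filter fun i => ¬ b < τ i).card : ℕ) : ℝ) := by
    refine h1.trans ?_
    have := VolC.log2_le
    have h3 : (0 : ℝ) ≤ ((f.divisors.card * 2 ^ (univ.filter fun i => ¬ b < τ i).card : ℕ) : ℝ) := by
      positivity
    nlinarith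
  unfold vb
  refine (mul_le_mul_of_nonneg_left h2 (by positivity)).trans (le_of_eq ?_)
  rw [← VolC.card_split b τ, pow_add]
  push_cast
  ring

theorem vol_TW_le (b f : ℕ) {ι : Type} [Fintype ι] [DecidableEq ι] (τ : ι → ℕ) :
    vol (TW f τ) ≤ vb b f τ := by
  have h1 : MeasureTheory.volume (TW f τ) ≤
      (2 : ENNReal) ^ ex b τ * MeasureTheory.volume (TWs b f τ) := by
    rw [VolC.TW_sub b f τ]
    refine (MeasureTheory.measure_biUnion_finset_le _ _).trans (le_of_eq ?_)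
    rw [Finset.sum_congr rfl fun J _ => VolC.Aj_vol b f τ J, Finset.sum_const,
      Finset.card_powerset, VolC.card_Xs, nsmul_eq_mul]
    push_cast
    rfl
  have h2 : vb b f τ = ((2 : ENNReal) ^ ex b τ * MeasureTheory.volume (TWs b f τ)).toReal := by
    unfold vb vol
    rw [ENNReal.toReal_mul, ENNReal.toReal_pow]
    simp
  rw [h2]
  unfold vol
  exact ENNReal.toReal_mono (ENNReal.mul_ne_top (ENNReal.pow_ne_top (by simp))
    (VolC.TWs_fin b f τ)) h1

theorem vb_low (b f : ℕ) {ι : Type} [Fintype ι] [DecidableEq ι] (τ : ι → ℕ) (A : Finset ι)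
    (hA : ∀ i, i ∉ A → τ i ≤ b) (w : ℝ) (hw : ∑ i ∈ univ.filter (fun i => i ∉ A), Real.log (τ i) ≤ w) :
    vb b f τ ≤ 2 ^ A.card * (f.divisors.card * (w + 1)) := by
  have hlog : ∀ i, 0 ≤ Real.log (τ i) := fun i => Real.log_natCast_nonneg _
  have hw0 : 0 ≤ w := (Finset.sum_nonneg fun i _ => hlog i).trans hw
  have hXA : VolC.Xs b τ ⊆ A := by
    intro i hi
    by_contra hc
    have := hA i hc
    have := VolC.mem_Xs.1 hi
    omega
  have hsub : TWs b f τ ⊆ ⋃ p ∈ f.divisors ×ˢ (A \ VolC.Xs b τ).powerset,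
      Set.Ico (VolC.lft τ p) (VolC.lft τ p + (w + 1)) := by
    rintro t ⟨d, hd, I, hI, h1, h2⟩
    simp only [Set.mem_iUnion, Set.mem_Ico, exists_prop]
    refine ⟨(d, I ∩ A), ?_, ?_, ?_⟩
    · rw [Finset.mem_product, Finset.mem_powerset]
      refine ⟨hd, fun i hi => ?_⟩
      obtain ⟨hiI, hiA⟩ := Finset.mem_inter.1 hi
      rw [Finset.mem_sdiff]
      refine ⟨hiA, fun hx => ?_⟩
      have := VolC.mem_Xs.1 hx
      have := hI i hiI
      omega
    all_goals
      unfold VolC.lft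
      simp only
      have e : sz τ I = sz τ (I ∩ A) + sz τ (I \ A) := by
        unfold sz
        exact (Finset.sum_inter_add_sum_sdiff I A _).symm
      have e1 : 0 ≤ sz τ (I \ A) := Finset.sum_nonneg fun i _ => hlog i
      have e2 : sz τ (I \ A) ≤ w := by
        refine le_trans ?_ hw
        refine Finset.sum_le_sum_of_subset_of_nonneg ?_ fun i _ _ => hlog i
        intro i hi
        rw [Finset.mem_filter]
        exact ⟨Finset.mem_univ _, (Finset.mem_sdiff.1 hi).2⟩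
      have := VolC.log2_le
      linarith
  have h1 : vol (TWs b f τ) ≤
      ((f.divisors.card * 2 ^ (A \ VolC.Xs b τ).card : ℕ) : ℝ) * (w + 1) := by
    unfold vol
    refine ENNReal.toReal_le_of_le_ofReal (by positivity) ?_
    refine (MeasureTheory.measure_mono hsub).trans ((VolC.vol_iUnion_le _ _ _).trans ?_)
    rw [ENNReal.ofReal_mul (by positivity), ENNReal.ofReal_natCast, Finset.card_product,
      Finset.card_powerset]
  unfold vb
  refine (mul_le_mul_of_nonneg_left h1 (by positivity)).trans (le_of_eq ?_)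
  have hc : A.card = ex b τ + (A \ VolC.Xs b τ).card := by
    rw [← VolC.card_Xs b τ, add_comm]
    exact (Finset.card_sdiff_add_card_eq_card hXA).symm
  rw [hc, pow_add]
  push_cast
  ring

theorem vb_diff {ι : Type} [Fintype ι] [DecidableEq ι] (P : Finset ℕ) (m : ι → ℕ → ℝ)
    (lev : ι → ℕ) (D : ℝ) (hD : 1 ≤ D) (hL : Laws P m lev D) (b f K0 : ℕ) (A : Finset ι)
    (h2 : ∀ i, i ∉ A → ∀ p, m i p ≠ 0 → p ≤ b) (h3 : ∀ i ∈ A, K0 ≤ lev i) :
    Ex P m (fun τ => vb b f τ - vol (TW f τ)) ≤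
      2 * D * (f.divisors.card : ℝ) ^ 2 * 4 ^ Fintype.card ι * A.card / 2 ^ K0 := by
  classical
  set E : Finset (ℕ × Finset ι) := f.divisors ×ˢ univ with hE
  set R : Finset (ι × ((ℕ × Finset ι) × (ℕ × Finset ι))) :=
    (A ×ˢ (E ×ˢ E)).filter (fun x => x.1 ∈ x.2.1.2 ∧ x.1 ∉ x.2.2.2) with hR
  have s1 : Ex P m (fun τ => vb b f τ - vol (TW f τ)) ≤
      Ex P m (fun τ => ∑ x ∈ R, ind (|VolC.lft τ x.2.1 - VolC.lft τ x.2.2| < Real.log 2)) := by
    refine Ex_mono P m hL.nonneg _ _ fun τ hτ => ?_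
    refine (VolC.diff_le b f τ).trans ?_
    refine Finset.sum_le_sum_of_subset_of_nonneg ?_ fun x _ _ => ind_nonneg _
    intro x hx
    unfold VolC.Rr at hx
    rw [Finset.mem_filter, Finset.mem_product] at hx
    rw [hR, Finset.mem_filter, Finset.mem_product]
    refine ⟨⟨?_, hx.1.2⟩, hx.2⟩
    by_contra hc
    have h4 := h2 x.1 hc (τ x.1) (hτ x.1).2
    have h5 := VolC.mem_Xs.1 hx.1.1
    omega
  have s2 : Ex P m (fun τ => ∑ x ∈ R, ind (|VolC.lft τ x.2.1 - VolC.lft τ x.2.2| < Real.log 2)) ≤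
      ∑ _x ∈ R, 2 * D / 2 ^ K0 := by
    rw [Ex_fsum P m R (fun x τ => ind (|VolC.lft τ x.2.1 - VolC.lft τ x.2.2| < Real.log 2))]
    refine Finset.sum_le_sum fun x hx => ?_
    rw [hR, Finset.mem_filter, Finset.mem_product] at hx
    refine (VolC.Ex_ind P m lev D hL x.1 x.2.1 x.2.2 hx.2.1 hx.2.2).trans ?_
    have h6 : (2 : ℝ) ^ K0 ≤ 2 ^ lev x.1 := pow_le_pow_right₀ (by norm_num) (h3 _ hx.1.1)
    exact div_le_div_of_nonneg_left (by linarith) (by positivity) h6
  refine s1.trans (s2.trans ?_)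
  rw [Finset.sum_const, nsmul_eq_mul]
  have hcard : R.card ≤ A.card * ((f.divisors.card * 2 ^ Fintype.card ι) *
      (f.divisors.card * 2 ^ Fintype.card ι)) := by
    refine (Finset.card_filter_le _ _).trans (le_of_eq ?_)
    rw [Finset.card_product, Finset.card_product, hE, Finset.card_product, Finset.card_univ,
      Fintype.card_finset]
  have hcard' : (R.card : ℝ) ≤ A.card * ((f.divisors.card * 2 ^ Fintype.card ι) *
      (f.divisors.card * 2 ^ Fintype.card ι)) := by exact_mod_cast hcard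
  have hpos : 0 ≤ 2 * D / 2 ^ K0 := div_nonneg (by linarith) (by positivity)
  refine (mul_le_mul_of_nonneg_right hcard' hpos).trans (le_of_eq ?_)
  have h4 : (4 : ℝ) ^ Fintype.card ι = 2 ^ Fintype.card ι * 2 ^ Fintype.card ι := by
    rw [← mul_pow]
    norm_num
  rw [h4]
  ring

end Pool.Agent.EN2
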