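import Mathlib
import Pool.Agent.Lib.MP_ec0ede_nt_EN2.Defs
import Pool.Agent.Lib.MP_ec0ede_nt_EN.ExB
import Pool.Agent.Lib.MP_ec0ede_nt_EN.LawA
import Pool.Agent.Lib.MP_ec0ede_nt_EN.ALim
import Pool.Agent.Lib.MP_ec0ede_nt_EN2.VolC

set_option autoImplicit false

noncomputable section

namespace Pool.Agent.EN2

open Real Filter Topology Finset Pool.Agent.EN

namespace DomP

theorem EX_mono {L K n : ℕ} (ν : Fin n → ℕ) {F F' : (Idx ν → ℕ) → ℝ}
    (h : ∀ τ : Idx ν → ℕ, (∀ i, mu (lv K ν i) (τ i) ≠ 0) → F τ ≤ F' τ) :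
    EX L K ν F ≤ EX L K ν F' :=
  Ex_mono _ _ (fun _ _ => mu_nonneg _ _) _ _ fun τ hτ => h τ fun i => (hτ i).2

theorem EX_nonneg {L K n : ℕ} (ν : Fin n → ℕ) {F : (Idx ν → ℕ) → ℝ}
    (h : ∀ τ : Idx ν → ℕ, (∀ i, mu (lv K ν i) (τ i) ≠ 0) → 0 ≤ F τ) :
    0 ≤ EX L K ν F :=
  Ex_nonneg _ _ (fun _ _ => mu_nonneg _ _) _ fun τ hτ => h τ fun i => (hτ i).2

theorem EX_const {L K n : ℕ} (hL : K + n ≤ L) (ν : Fin n → ℕ) (c : ℝ) :
    EX L K ν (fun _ => c) = c := by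
  refine Ex_const _ _ (fun i => ?_) c
  have h1 : (i.1 : ℕ) < n := i.1.2
  refine mu_mass ?_ ?_
  · unfold lv
    omega
  · unfold lv
    omega

theorem EX_mul {L K n : ℕ} (ν : Fin n → ℕ) (c : ℝ) (F : (Idx ν → ℕ) → ℝ) :
    EX L K ν (fun τ => c * F τ) = c * EX L K ν F := Ex_mul _ _ c F

end DomP

open DomP

theorem RB_nonneg (S : ℕ) (u : ℝ) {ι : Type} [Fintype ι] (τ : ι → ℕ) : 0 ≤ RB S u τ :=
  Finset.sum_nonneg fun _ _ => ind_nonneg _

theorem RB_le (S : ℕ) (u : ℝ) {ι : Type} [Fintype ι] (τ : ι → ℕ) :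
    RB S u τ ≤ 2 ^ Fintype.card ι := by
  unfold RB
  refine (Finset.sum_le_sum fun I _ => ind_le_one _).trans (le_of_eq ?_)
  rw [Finset.sum_const, Finset.card_univ, Fintype.card_finset, nsmul_eq_mul, mul_one]
  push_cast
  rfl

namespace DomP

/-- the exponent is nonnegative -/
theorem lam_nonneg (S N b f : ℕ) {u : ℝ} (hu : 0 < u) {ι ι' : Type} [Fintype ι] [Fintype ι']
    (τ : ι → ℕ) (τ' : ι' → ℕ) : 0 ≤ RB S u τ' / u * 2 ^ N * vb b f τ :=
  mul_nonneg (mul_nonneg (div_nonneg (RB_nonneg _ _ _) hu.le) (by positivity)) (vb_nonneg _ _ _)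

theorem one_sub_nonneg {x : ℝ} (hx : 0 ≤ x) : 0 ≤ 1 - Real.exp (-x) := by
  have : Real.exp (-x) ≤ 1 := Real.exp_le_one_iff.2 (by linarith)
  linarith

theorem one_sub_le_one (x : ℝ) : 1 - Real.exp (-x) ≤ 1 := by
  have := Real.exp_pos (-x)
  linarith

theorem one_sub_le (x : ℝ) : 1 - Real.exp (-x) ≤ x := by
  have := Real.add_one_le_exp (-x)
  linarith

end DomP

theorem PrD_nonneg (f K n s S b : ℕ) {u : ℝ} (hu : 0 < u) (νC : Fin K → ℕ) (N : ℕ)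
    (νA : Fin s → ℕ) : 0 ≤ PrD f K n s S b u νC N νA := by
  unfold PrD
  exact EX_nonneg νC fun τ _ => mul_nonneg (ind_nonneg _)
    (EX_nonneg νA fun τ' _ => one_sub_nonneg (lam_nonneg S N b f hu τ τ'))

theorem PrD_le_one (f K n s S b : ℕ) {u : ℝ} (hu : 0 < u) (νC : Fin K → ℕ) (N : ℕ)
    (νA : Fin s → ℕ) : PrD f K n s S b u νC N νA ≤ 1 := by
  unfold PrD
  have h1 : EX (K + (n + s)) 0 νC (fun _ => (1 : ℝ)) = 1 := EX_const (by omega) νC 1
  refine le_of_le_of_eq (EX_mono νC fun τ _ => ?_) h1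
  have h2 : EX (K + (n + s)) (K + n) νA (fun _ => (1 : ℝ)) = 1 := EX_const (by omega) νA 1
  have h3 : EX (K + (n + s)) (K + n) νA (fun τ' =>
      1 - Real.exp (-(RB S u τ' / u * 2 ^ N * vb b f τ))) ≤ 1 := by
    calc _ ≤ EX (K + (n + s)) (K + n) νA (fun _ => (1 : ℝ)) :=
          EX_mono νA fun τ' _ => one_sub_le_one _
      _ = 1 := h2
  calc ind (Inj f τ) * EX (K + (n + s)) (K + n) νA (fun τ' =>
        1 - Real.exp (-(RB S u τ' / u * 2 ^ N * vb b f τ)))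
      ≤ ind (Inj f τ) * 1 := mul_le_mul_of_nonneg_left h3 (ind_nonneg _)
    _ ≤ 1 := by
      rw [mul_one]
      exact ind_le_one _

theorem PrD_le_hit (f K n s S b : ℕ) {u : ℝ} (hu : 0 < u) (νC : Fin K → ℕ) (N : ℕ)
    (νA : Fin s → ℕ) : PrD f K n s S b u νC N νA ≤
    EX (K + (n + s)) (K + n) νA (fun τ' => ind (0 < RB S u τ')) := by
  unfold PrD
  set c : ℝ := EX (K + (n + s)) (K + n) νA (fun τ' => ind (0 < RB S u τ')) with hc
  have hc0 : 0 ≤ c := EX_nonneg νA fun τ' _ => ind_nonneg _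
  have h1 : EX (K + (n + s)) 0 νC (fun _ => c) = c := EX_const (by omega) νC c
  rw [← h1]
  refine EX_mono νC fun τ _ => ?_
  have h3 : EX (K + (n + s)) (K + n) νA (fun τ' =>
      1 - Real.exp (-(RB S u τ' / u * 2 ^ N * vb b f τ))) ≤ c := by
    refine EX_mono νA fun τ' _ => ?_
    by_cases h : 0 < RB S u τ'
    · rw [ind_of h]
      exact one_sub_le_one _
    · have h0 : RB S u τ' = 0 := le_antisymm (not_lt.1 h) (RB_nonneg _ _ _)
      rw [ind_not_of h, h0]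
      simp
  have h0 : 0 ≤ EX (K + (n + s)) (K + n) νA (fun τ' =>
      1 - Real.exp (-(RB S u τ' / u * 2 ^ N * vb b f τ))) :=
    EX_nonneg νA fun τ' _ => one_sub_nonneg (lam_nonneg S N b f hu τ τ')
  calc ind (Inj f τ) * EX (K + (n + s)) (K + n) νA (fun τ' =>
        1 - Real.exp (-(RB S u τ' / u * 2 ^ N * vb b f τ)))
      ≤ 1 * EX (K + (n + s)) (K + n) νA (fun τ' =>
        1 - Real.exp (-(RB S u τ' / u * 2 ^ N * vb b f τ))) :=
        mul_le_mul_of_nonneg_right (ind_le_one _) h0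
    _ ≤ c := by
      rw [one_mul]
      exact h3

theorem PrD_le_first (f K n s S b : ℕ) {u V : ℝ} (hu : 0 < u) (νC : Fin K → ℕ) (N : ℕ)
    (νA : Fin s → ℕ) (hV : 0 ≤ V)
    (h : ∀ τ : Idx νC → ℕ, (∀ i, mu (lv 0 νC i) (τ i) ≠ 0) → vb b f τ ≤ V) :
    PrD f K n s S b u νC N νA ≤
    2 ^ N * V * EX (K + (n + s)) (K + n) νA (fun τ' => RB S u τ' / u) := by
  unfold PrD
  set c : ℝ := 2 ^ N * V * EX (K + (n + s)) (K + n) νA (fun τ' => RB S u τ' / u) with hc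
  have h1 : EX (K + (n + s)) 0 νC (fun _ => c) = c := EX_const (by omega) νC c
  rw [← h1]
  refine EX_mono νC fun τ hτ => ?_
  have hv := h τ hτ
  have h3 : EX (K + (n + s)) (K + n) νA (fun τ' =>
      1 - Real.exp (-(RB S u τ' / u * 2 ^ N * vb b f τ))) ≤ c := by
    rw [hc, ← EX_mul]
    refine EX_mono νA fun τ' _ => (one_sub_le _).trans ?_
    have hR : 0 ≤ RB S u τ' / u := div_nonneg (RB_nonneg _ _ _) hu.le
    calc RB S u τ' / u * 2 ^ N * vb b f τ ≤ RB S u τ' / u * 2 ^ N * V :=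
          mul_le_mul_of_nonneg_left hv (mul_nonneg hR (by positivity))
      _ = 2 ^ N * V * (RB S u τ' / u) := by ring
  have h0 : 0 ≤ EX (K + (n + s)) (K + n) νA (fun τ' =>
      1 - Real.exp (-(RB S u τ' / u * 2 ^ N * vb b f τ))) :=
    EX_nonneg νA fun τ' _ => one_sub_nonneg (lam_nonneg S N b f hu τ τ')
  calc ind (Inj f τ) * EX (K + (n + s)) (K + n) νA (fun τ' =>
        1 - Real.exp (-(RB S u τ' / u * 2 ^ N * vb b f τ)))
      ≤ 1 * EX (K + (n + s)) (K + n) νA (fun τ' =>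
        1 - Real.exp (-(RB S u τ' / u * 2 ^ N * vb b f τ))) :=
        mul_le_mul_of_nonneg_right (ind_le_one _) h0
    _ ≤ c := by
      rw [one_mul]
      exact h3

end Pool.Agent.EN2
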