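import Mathlib
import Pool.Agent.Lib.MP_ec0ede_nt_EN2.Defs
import Pool.Agent.Lib.MP_ec0ede_nt_EN.ZBd
import Pool.Agent.Lib.MP_ec0ede_nt_EN.Ker
import Pool.Agent.Lib.MP_ec0ede_nt_EN.Spl
import Pool.Agent.Lib.MP_ec0ede_nt_EN.ExB
import Pool.Agent.Lib.MP_ec0ede_nt_EN.LawA
import Pool.Agent.Lib.MP_ec0ede_nt_EN.Path
import Pool.Agent.Lib.MP_ec0ede_nt_EN.MP
import Pool.Agent.Lib.MP_ec0ede_nt_EN2.VolC
import Pool.Agent.Lib.MP_ec0ede_nt_EN2.ALimB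
import Pool.Agent.Lib.MP_ec0ede_nt_EN2.Blk2
import Pool.Agent.Lib.MP_ec0ede_nt_EN2.DomP

set_option autoImplicit false

/-!
# MP_ec0ede_nt, project EN2, module MP2: the limit of the sum over the paths
-/

noncomputable section

namespace Pool.Agent.EN2

open Real Filter Topology Finset Pool.Agent.EN

namespace MP2

/-! ### Summability -/

theorem zz_pos : 0 < zz := MP.zz_pos

theorem zz_half_lt : zz / 2 < 1 := by
  have h := Real.log_two_gt_d9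
  have h0 : (0 : ℝ) < Real.log 2 := Real.log_pos one_lt_two
  unfold zz
  rw [div_lt_one two_pos, div_lt_iff₀ h0]
  linarith

/-- the weights of the counts with a factor for each prime are summable -/
theorem wt_pow_summable (s : ℕ) {a : ℝ} (ha : 0 ≤ a) :
    Summable (fun ν : Fin s → ℕ => wt ν * a ^ cnt ν s) := by
  have h1 : PW s (fun ν => ∏ i, ENNReal.ofReal (a ^ (ν i))) ≠ ⊤ := by
    rw [PW_prod s (fun _ k => ENNReal.ofReal (a ^ k))]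
    refine ENNReal.prod_ne_top (fun i _ => ?_)
    have h2 : Summable (fun k : ℕ => pw k * a ^ k) := by
      have := (Real.summable_pow_div_factorial a).mul_left (Real.exp (-1))
      refine this.congr (fun k => ?_)
      unfold pw
      ring
    have h3 : ∑' k, ENNReal.ofReal (pw k) * ENNReal.ofReal (a ^ k) =
        ∑' k, ENNReal.ofReal (pw k * a ^ k) := by
      refine tsum_congr (fun k => ?_)
      rw [ENNReal.ofReal_mul (MP.pw_nonneg k)]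
    rw [h3, ← ENNReal.ofReal_tsum_of_nonneg
      (fun k => mul_nonneg (MP.pw_nonneg k) (pow_nonneg ha k)) h2]
    exact ENNReal.ofReal_ne_top
  unfold PW at h1
  have h2 := ENNReal.summable_toReal h1
  refine h2.congr (fun ν => ?_)
  rw [ENNReal.toReal_mul, ENNReal.toReal_ofReal (MP.wt_nonneg ν), ENNReal.toReal_prod]
  congr 1
  have hc : cnt ν s = ∑ i, ν i := ZBd.cnt_full ν
  rw [hc, ← Finset.prod_pow_eq_pow_sum]
  exact Finset.prod_congr rfl (fun i _ => ENNReal.toReal_ofReal (pow_nonneg ha _))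

/-- the dominating terms -/
def dm (K s : ℕ) (i : Ic K s) : ℝ :=
  wt i.1 * ((((i.2.1 : ℝ) + 1) * (zz / 2) ^ i.2.1) * (zz ^ s * (wt i.2.2 * (2 / zz) ^ cnt i.2.2 s)))

theorem dm_nonneg (K s : ℕ) (i : Ic K s) : 0 ≤ dm K s i := by
  unfold dm
  have h1 := zz_pos
  have h2 := MP.wt_nonneg i.1
  have h3 := MP.wt_nonneg i.2.2
  positivity

theorem dm_summable (K s : ℕ) : Summable (dm K s) := by
  have hz := zz_pos
  have h1 : Summable (fun ν : Fin K → ℕ => wt ν) := by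
    refine (wt_pow_summable K (zero_le_one)).congr (fun ν => ?_)
    rw [one_pow, mul_one]
  have h2 : Summable (fun w : ℕ => ((w : ℝ) + 1) * (zz / 2) ^ w) := by
    have hn : ‖zz / 2‖ < 1 := by
      rw [Real.norm_of_nonneg (by positivity)]
      exact zz_half_lt
    have h3 := summable_pow_mul_geometric_of_norm_lt_one 1 hn
    have h4 := summable_geometric_of_norm_lt_one hn
    refine (h3.add h4).congr (fun w => ?_)
    ring
  have h3 : Summable (fun ν : Fin s → ℕ => zz ^ s * (wt ν * (2 / zz) ^ cnt ν s)) :=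
    (wt_pow_summable s (by positivity)).mul_left _
  have h4 : Summable (fun j : ℕ × (Fin s → ℕ) => (((j.1 : ℝ) + 1) * (zz / 2) ^ j.1) *
      (zz ^ s * (wt j.2 * (2 / zz) ^ cnt j.2 s))) :=
    Summable.mul_of_nonneg h2 h3 (fun w => by positivity)
      (fun ν => mul_nonneg (by positivity) (mul_nonneg (MP.wt_nonneg ν) (by positivity)))
  exact Summable.mul_of_nonneg h1 h4 (fun ν => MP.wt_nonneg ν)
    (fun j => mul_nonneg (by positivity) (mul_nonneg (by positivity)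
      (mul_nonneg (MP.wt_nonneg j.2) (by positivity))))

/-! ### The pieces -/

/-- the common factor of the terms -/
def cf (K s : ℕ) (φ : ℕ → ℕ → ℝ) (i : Ic K s) : ℝ :=
  wt i.1 * ind (1 ≤ X i.1 K ∧ 1 ≤ i.2.1) * φ (X i.1 K).toNat i.2.1 *
    (wt i.2.2 * zz ^ ((i.2.1 : ℤ) + X i.2.2 s))

/-- the rate -/
def rt (K b f : ℕ) (θ : ℝ) (w : ℕ) (νC : Fin K → ℕ) (τ : Idx νC → ℕ) : ℝ :=
  (2 : ℝ) ^ (-θ - w) * (vb b f τ / 2 ^ cnt νC K)

/-- the limit of the probabilities -/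
def E2 (K s S b f : ℕ) (θ : ℝ) (i : Ic K s) : ℝ :=
  EX K 0 i.1 (fun τ => ind (Inj f τ) * EB S θ i.2.2 (rt K b f θ i.2.1 i.1 τ))

/-- the bound for the probabilities -/
def bs (K s f : ℕ) (i : Ic K s) : ℝ :=
  (f.divisors.card : ℝ) * (2⁻¹ ^ i.2.1 * 2 ^ cnt i.2.2 s)

theorem bs_nonneg (K s f : ℕ) (i : Ic K s) : 0 ≤ bs K s f i := by
  unfold bs; positivity

theorem ul_eq (K s S b f : ℕ) (θ : ℝ) (φ : ℕ → ℕ → ℝ) (i : Ic K s) :
    ul K s S b θ φ f i = cf K s φ i * (((i.2.1 : ℝ) * hg (X i.1 K).toNat) *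
      E2 K s S b f θ i) := by
  unfold ul cf E2 rt
  ring

theorem cf_nonneg (K s : ℕ) (φ : ℕ → ℕ → ℝ) (hφ : ∀ x w, 0 ≤ φ x w ∧ φ x w ≤ 1) (i : Ic K s) :
    0 ≤ cf K s φ i := by
  unfold cf
  have h1 := zz_pos
  have h2 := MP.wt_nonneg i.1
  have h3 := MP.wt_nonneg i.2.2
  have h4 := (hφ (X i.1 K).toNat i.2.1).1
  have h5 := ind_nonneg (1 ≤ X i.1 K ∧ 1 ≤ i.2.1)
  positivity

/-- the common factor times the bound is dominated -/
theorem cf_bs (K s f : ℕ) (φ : ℕ → ℕ → ℝ) (hφ : ∀ x w, 0 ≤ φ x w ∧ φ x w ≤ 1) (i : Ic K s) :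
    cf K s φ i * (((i.2.1 : ℝ) + 1) * bs K s f i) ≤ (f.divisors.card : ℝ) * dm K s i := by
  have hz := zz_pos
  have h2 := MP.wt_nonneg i.1
  have h3 := MP.wt_nonneg i.2.2
  have h4 := hφ (X i.1 K).toNat i.2.1
  have h5 := ind_nonneg (1 ≤ X i.1 K ∧ 1 ≤ i.2.1)
  have h6 := ind_le_one (1 ≤ X i.1 K ∧ 1 ≤ i.2.1)
  have h7 : ind (1 ≤ X i.1 K ∧ 1 ≤ i.2.1) * φ (X i.1 K).toNat i.2.1 ≤ 1 :=
    mul_le_one₀ h6 h4.1 h4.2
  have h8 : zz ^ ((i.2.1 : ℤ) + X i.2.2 s) * (2⁻¹ ^ i.2.1 * 2 ^ cnt i.2.2 s) =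
      (zz / 2) ^ i.2.1 * (zz ^ s * (2 / zz) ^ cnt i.2.2 s) := by
    have e1 : (i.2.1 : ℤ) + X i.2.2 s = (i.2.1 : ℤ) + (s : ℤ) - (cnt i.2.2 s : ℤ) := by
      unfold X; ring
    rw [e1, zpow_sub₀ hz.ne', zpow_add₀ hz.ne', zpow_natCast, zpow_natCast, zpow_natCast,
      div_pow, div_pow, inv_pow]
    have := hz.ne'
    field_simp
  have h9 : cf K s φ i * (((i.2.1 : ℝ) + 1) * bs K s f i) =
      (ind (1 ≤ X i.1 K ∧ 1 ≤ i.2.1) * φ (X i.1 K).toNat i.2.1) *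
        ((f.divisors.card : ℝ) * dm K s i) := by
    unfold cf bs dm
    have : wt i.1 * ind (1 ≤ X i.1 K ∧ 1 ≤ i.2.1) * φ (X i.1 K).toNat i.2.1 *
        (wt i.2.2 * zz ^ ((i.2.1 : ℤ) + X i.2.2 s)) * (((i.2.1 : ℝ) + 1) *
        ((f.divisors.card : ℝ) * (2⁻¹ ^ i.2.1 * 2 ^ cnt i.2.2 s))) =
        (wt i.1 * ind (1 ≤ X i.1 K ∧ 1 ≤ i.2.1) * φ (X i.1 K).toNat i.2.1 *
        wt i.2.2 * ((i.2.1 : ℝ) + 1) * (f.divisors.card : ℝ)) *
        (zz ^ ((i.2.1 : ℤ) + X i.2.2 s) * (2⁻¹ ^ i.2.1 * 2 ^ cnt i.2.2 s)) := by ring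
    rw [this, h8]
    ring
  rw [h9]
  exact mul_le_of_le_one_left (mul_nonneg (Nat.cast_nonneg _) (dm_nonneg K s i)) h7

/-! ### Bounds for the probabilities -/

theorem card_Idx {K : ℕ} (νC : Fin K → ℕ) : Fintype.card (Idx νC) = cnt νC K := by
  rw [Fintype.card_sigma, show cnt νC K = ∑ i, νC i from ZBd.cnt_full νC]
  simp

theorem rt_nonneg (K b f : ℕ) (θ : ℝ) (w : ℕ) (νC : Fin K → ℕ) (τ : Idx νC → ℕ) :
    0 ≤ rt K b f θ w νC τ := by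
  unfold rt
  have := vb_nonneg b f τ
  positivity

theorem rt_le (K b f : ℕ) (θ : ℝ) (w : ℕ) (νC : Fin K → ℕ) (τ : Idx νC → ℕ) :
    rt K b f θ w νC τ ≤ (2 : ℝ) ^ (-θ) * ((f.divisors.card : ℝ) * 2⁻¹ ^ w) := by
  unfold rt
  have h1 := vb_le b f τ
  rw [card_Idx] at h1
  have h2 : vb b f τ / 2 ^ cnt νC K ≤ (f.divisors.card : ℝ) := by
    rw [div_le_iff₀ (by positivity)]
    exact h1
  have h3 : (2 : ℝ) ^ (-θ - w) = (2 : ℝ) ^ (-θ) * 2⁻¹ ^ w := by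
    rw [Real.rpow_sub two_pos, Real.rpow_natCast, inv_pow]
    rfl
  rw [h3]
  calc (2 : ℝ) ^ (-θ) * 2⁻¹ ^ w * (vb b f τ / 2 ^ cnt νC K)
      ≤ (2 : ℝ) ^ (-θ) * 2⁻¹ ^ w * (f.divisors.card : ℝ) :=
        mul_le_mul_of_nonneg_left h2 (by positivity)
    _ = _ := by ring

theorem E2_nonneg (K s S b f : ℕ) (θ : ℝ) (i : Ic K s) : 0 ≤ E2 K s S b f θ i :=
  MP.EX_nonneg _ _ _ _ (fun τ => mul_nonneg (ind_nonneg _)
    (EB_nonneg S θ i.2.2 (rt_nonneg K b f θ i.2.1 i.1 τ)))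

theorem E2_le (K s S b f : ℕ) (θ : ℝ) (i : Ic K s) :
    E2 K s S b f θ i ≤ (2 : ℝ) ^ (-θ) * bs K s f i := by
  unfold E2
  rw [← MP.EX_const (L := K) (K := 0) i.1 (by omega) ((2 : ℝ) ^ (-θ) * bs K s f i)]
  refine MP.EX_mono _ _ _ _ _ (fun τ => ?_)
  have h0 := rt_nonneg K b f θ i.2.1 i.1 τ
  have h1 := EB_le S θ i.2.2 h0
  have h2 := EB_nonneg S θ i.2.2 h0
  have h3 := rt_le K b f θ i.2.1 i.1 τ
  calc ind (Inj f τ) * EB S θ i.2.2 (rt K b f θ i.2.1 i.1 τ)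
      ≤ EB S θ i.2.2 (rt K b f θ i.2.1 i.1 τ) := mul_le_of_le_one_left h2 (ind_le_one _)
    _ ≤ rt K b f θ i.2.1 i.1 τ * 2 ^ cnt i.2.2 s := h1
    _ ≤ (2 : ℝ) ^ (-θ) * ((f.divisors.card : ℝ) * 2⁻¹ ^ i.2.1) * 2 ^ cnt i.2.2 s :=
        mul_le_mul_of_nonneg_right h3 (by positivity)
    _ = _ := by unfold bs; ring

theorem two_rpow_neg_le {θ : ℝ} (hθ : (mm : ℝ) + 1 ≤ θ) : (2 : ℝ) ^ (-θ) ≤ 1 := by
  refine Real.rpow_le_one_of_one_le_of_nonpos one_le_two ?_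
  have : (0 : ℝ) ≤ (mm : ℝ) := Nat.cast_nonneg _
  linarith

/-- the scale of the cut -/
def uu (K n : ℕ) (θ : ℝ) : ℝ := (2 : ℝ) ^ (((K + n : ℕ) : ℝ) + θ)

theorem uu_pos (K n : ℕ) (θ : ℝ) : 0 < uu K n θ := by unfold uu; positivity

theorem rate_eq {K n s b f w : ℕ} {θ : ℝ} {νC : Fin K → ℕ} (S : ℕ)
    (hN : (w : ℤ) ≤ n + X νC K) (τ : Idx νC → ℕ) {νA : Fin s → ℕ} (τ' : Idx νA → ℕ) :
    RB S (uu K n θ) τ' / uu K n θ * 2 ^ ((n : ℤ) + X νC K - w).toNat * vb b f τ =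
      rt K b f θ w νC τ * RB S (uu K n θ) τ' := by
  have h2 : (2 : ℝ) ≠ 0 := two_ne_zero
  have h1 : (2 : ℝ) ^ ((n : ℤ) + X νC K - w).toNat =
      uu K n θ * ((2 : ℝ) ^ (-θ - w) / 2 ^ cnt νC K) := by
    have h3 : ((((n : ℤ) + X νC K - w).toNat : ℕ) : ℤ) = (n : ℤ) + X νC K - w :=
      Int.toNat_of_nonneg (by linarith)
    have h4 : ((((n : ℤ) + X νC K - w).toNat : ℕ) : ℝ) =
        (n : ℝ) + ((K : ℝ) - (cnt νC K : ℝ)) - w := by
      have h5 : (((((n : ℤ) + X νC K - w).toNat : ℕ) : ℤ) : ℝ) =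
          (((n : ℤ) + X νC K - w : ℤ) : ℝ) := by rw [h3]
      rw [Int.cast_natCast] at h5
      rw [h5]
      unfold X
      push_cast
      ring
    unfold uu
    rw [← Real.rpow_natCast 2 (((n : ℤ) + X νC K - w).toNat), h4,
      ← Real.rpow_natCast 2 (cnt νC K), ← Real.rpow_sub two_pos, ← Real.rpow_add two_pos]
    congr 1
    push_cast
    ring
  rw [h1]
  unfold rt
  have h4 := (uu_pos K n θ).ne'
  have h5 : (2 : ℝ) ^ cnt νC K ≠ 0 := by positivity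
  field_simp

theorem PrD_eq {K n s b f : ℕ} {θ : ℝ} (S : ℕ) (i : Ic K s)
    (hN : (i.2.1 : ℤ) ≤ n + X i.1 K) :
    PrD f K n s S b (uu K n θ) i.1 ((n : ℤ) + X i.1 K - i.2.1).toNat i.2.2 =
    EX K 0 i.1 (fun τ => ind (Inj f τ) * EX (K + n + s) (K + n) i.2.2 (fun τ' =>
      1 - Real.exp (-(rt K b f θ i.2.1 i.1 τ * RB S (uu K n θ) τ')))) := by
  unfold PrD
  rw [EX_indep (L := K + (n + s)) (L' := K) i.1 (by omega) (by omega)]
  congr 1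
  funext τ
  congr 1
  rw [← Nat.add_assoc]
  congr 1
  funext τ'
  rw [rate_eq S hN τ τ']

theorem PrD_le {K n s b f : ℕ} {θ : ℝ} (S : ℕ) (i : Ic K s) (hθ : (mm : ℝ) + 1 ≤ θ)
    (hN : (i.2.1 : ℤ) ≤ n + X i.1 K) :
    PrD f K n s S b (uu K n θ) i.1 ((n : ℤ) + X i.1 K - i.2.1).toNat i.2.2 ≤ bs K s f i := by
  rw [PrD_eq S i hN, ← MP.EX_const (L := K) (K := 0) i.1 (by omega) (bs K s f i)]
  refine MP.EX_mono _ _ _ _ _ (fun τ => ?_)
  have h0 := rt_nonneg K b f θ i.2.1 i.1 τ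
  have hx : ∀ τ' : Idx i.2.2 → ℕ, 0 ≤ rt K b f θ i.2.1 i.1 τ * RB S (uu K n θ) τ' :=
    fun τ' => mul_nonneg h0 (RB_nonneg _ _ _)
  have h1 : EX (K + n + s) (K + n) i.2.2 (fun τ' =>
      1 - Real.exp (-(rt K b f θ i.2.1 i.1 τ * RB S (uu K n θ) τ'))) ≤ bs K s f i := by
    rw [← MP.EX_const (L := K + n + s) (K := K + n) i.2.2 le_rfl (bs K s f i)]
    refine MP.EX_mono _ _ _ _ _ (fun τ' => ?_)
    have h2 : 1 - Real.exp (-(rt K b f θ i.2.1 i.1 τ * RB S (uu K n θ) τ')) ≤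
        rt K b f θ i.2.1 i.1 τ * RB S (uu K n θ) τ' := by
      have := Real.add_one_le_exp (-(rt K b f θ i.2.1 i.1 τ * RB S (uu K n θ) τ'))
      linarith
    refine le_trans h2 ?_
    have h3 := RB_le S (uu K n θ) τ'
    rw [card_Idx] at h3
    have h4 := RB_nonneg S (uu K n θ) τ'
    calc rt K b f θ i.2.1 i.1 τ * RB S (uu K n θ) τ'
        ≤ ((2 : ℝ) ^ (-θ) * ((f.divisors.card : ℝ) * 2⁻¹ ^ i.2.1)) * 2 ^ cnt i.2.2 s :=
          mul_le_mul (rt_le K b f θ i.2.1 i.1 τ) h3 h4 (by positivity)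
      _ ≤ (1 * ((f.divisors.card : ℝ) * 2⁻¹ ^ i.2.1)) * 2 ^ cnt i.2.2 s := by
          refine mul_le_mul_of_nonneg_right ?_ (by positivity)
          exact mul_le_mul_of_nonneg_right (two_rpow_neg_le hθ) (by positivity)
      _ = _ := by unfold bs; ring
  have h5 : 0 ≤ EX (K + n + s) (K + n) i.2.2 (fun τ' =>
      1 - Real.exp (-(rt K b f θ i.2.1 i.1 τ * RB S (uu K n θ) τ'))) :=
    MP.EX_nonneg _ _ _ _ (fun τ' => (MP.one_sub_exp_mem (hx τ')).1)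
  exact le_trans (mul_le_of_le_one_left h5 (ind_le_one _)) h1

theorem PrD_dist {K n s b f : ℕ} {θ : ℝ} (S : ℕ) (i : Ic K s) (e : ℕ → ℝ)
    (he : ∀ (a : ℕ) (θ r : ℝ), (mm : ℝ) + 1 ≤ θ → θ ≤ mm + 2 → 0 ≤ r →
    |EX (a + s) a i.2.2 (fun τ => 1 - Real.exp (-(r * RB S ((2 : ℝ) ^ ((a : ℝ) + θ)) τ))) -
      EB S θ i.2.2 r| ≤ e a) (hθ : (mm : ℝ) + 1 ≤ θ) (hθ' : θ ≤ mm + 2)
    (hN : (i.2.1 : ℤ) ≤ n + X i.1 K) :
    |PrD f K n s S b (uu K n θ) i.1 ((n : ℤ) + X i.1 K - i.2.1).toNat i.2.2 -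
      E2 K s S b f θ i| ≤ e (K + n) := by
  rw [PrD_eq S i hN]
  unfold E2
  have h1 := MP.EX_dist K 0 i.1 (fun τ => ind (Inj f τ) * EX (K + n + s) (K + n) i.2.2 (fun τ' =>
      1 - Real.exp (-(rt K b f θ i.2.1 i.1 τ * RB S (uu K n θ) τ'))))
    (fun τ => ind (Inj f τ) * EB S θ i.2.2 (rt K b f θ i.2.1 i.1 τ)) (fun _ => e (K + n))
    (fun τ => by
      have h2 := he (K + n) θ (rt K b f θ i.2.1 i.1 τ) hθ hθ' (rt_nonneg K b f θ i.2.1 i.1 τ)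
      rw [← mul_sub, abs_mul, abs_of_nonneg (ind_nonneg _)]
      exact le_trans (mul_le_of_le_one_left (abs_nonneg _) (ind_le_one _)) h2)
  rwa [MP.EX_const (L := K) (K := 0) i.1 (by omega)] at h1

/-! ### Kernels -/

theorem cn_le (K s : ℕ) : ∃ C : ℝ, 0 ≤ C ∧ ∀ n w a : ℕ, a ≤ K →
    MP.sc K n s * kp n w a ≤ C * ((w : ℝ) + 1) := by
  obtain ⟨C, hC, h⟩ := kp_le
  refine ⟨((K : ℝ) + s + 1) ^ (3 / 2 : ℝ) * (C * ((K : ℝ) + 1) ^ 2), by positivity, ?_⟩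
  intro n w a haK
  have ha : (a : ℝ) ≤ (K : ℝ) := by exact_mod_cast haK
  have ha0 : (0 : ℝ) ≤ (a : ℝ) := Nat.cast_nonneg _
  have hn : (0 : ℝ) < ((n : ℝ) + 1) ^ (3 / 2 : ℝ) := by positivity
  have h2 : ((a : ℝ) + 1) ^ 2 ≤ ((K : ℝ) + 1) ^ 2 :=
    pow_le_pow_left₀ (by linarith) (by linarith) 2
  have h1 := h n w a
  have h3 : kp n w a * ((n : ℝ) + 1) ^ (3 / 2 : ℝ) ≤
      C * ((K : ℝ) + 1) ^ 2 * ((w : ℝ) + 1) := by
    rw [le_div_iff₀ hn] at h1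
    refine le_trans h1 ?_
    have hb : (0 : ℝ) ≤ C * ((w : ℝ) + 1) := by positivity
    nlinarith [mul_le_mul_of_nonneg_left h2 hb]
  have hk := kp_nonneg n w a
  have hs := MP.sc_le K n s
  calc MP.sc K n s * kp n w a
      ≤ ((K : ℝ) + s + 1) ^ (3 / 2 : ℝ) * ((n : ℝ) + 1) ^ (3 / 2 : ℝ) *
          kp n w a := mul_le_mul_of_nonneg_right hs hk
    _ = ((K : ℝ) + s + 1) ^ (3 / 2 : ℝ) *
          (kp n w a * ((n : ℝ) + 1) ^ (3 / 2 : ℝ)) := by ring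
    _ ≤ ((K : ℝ) + s + 1) ^ (3 / 2 : ℝ) * (C * ((K : ℝ) + 1) ^ 2 * ((w : ℝ) + 1)) :=
        mul_le_mul_of_nonneg_left h3 (by positivity)
    _ = _ := by ring

theorem pn_le (K : ℕ) : ∃ C : ℝ, 0 ≤ C ∧ ∀ w a : ℕ, a ≤ K →
    (w : ℝ) * hg a ≤ C * ((w : ℝ) + 1) := by
  obtain ⟨C, h⟩ := hg_le
  refine ⟨|C| * ((K : ℝ) + 1) ^ 2, by positivity, ?_⟩
  intro w a haK
  have ha : (a : ℝ) ≤ (K : ℝ) := by exact_mod_cast haK
  have ha0 : (0 : ℝ) ≤ (a : ℝ) := Nat.cast_nonneg _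
  have h2 : ((a : ℝ) + 1) ^ 2 ≤ ((K : ℝ) + 1) ^ 2 :=
    pow_le_pow_left₀ (by linarith) (by linarith) 2
  have h3 : hg a ≤ |C| * ((K : ℝ) + 1) ^ 2 := by
    refine le_trans (h _) ?_
    refine le_trans (mul_le_mul_of_nonneg_right (le_abs_self C) (by positivity)) ?_
    exact mul_le_mul_of_nonneg_left h2 (abs_nonneg C)
  have hb : (0 : ℝ) ≤ w := Nat.cast_nonneg _
  calc (w : ℝ) * hg a ≤ w * (|C| * ((K : ℝ) + 1) ^ 2) := mul_le_mul_of_nonneg_left h3 hb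
    _ ≤ _ := by
        have : 0 ≤ |C| * ((K : ℝ) + 1) ^ 2 := by positivity
        nlinarith

theorem X_toNat_le {K : ℕ} (νC : Fin K → ℕ) : (X νC K).toNat ≤ K := by
  have := MP.X_le νC K
  omega

/-! ### The sums as sums over one index -/

/-- the terms of the sum over the paths -/
def T2 (K n s S b f : ℕ) (φ : ℕ → ℕ → ℝ) (θ : ℝ) (i : Ic K s) : ℝ :=
  cf K s φ i * ((MP.sc K n s * kp n i.2.1 (X i.1 K).toNat) *
    PrD f K n s S b (uu K n θ) i.1 ((n : ℤ) + X i.1 K - i.2.1).toNat i.2.2)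

/-- if the middle block cannot reach the height then the kernel vanishes -/
theorem cf_kp (K n s : ℕ) (φ : ℕ → ℕ → ℝ) (i : Ic K s) (h : ¬ (i.2.1 : ℤ) ≤ n + X i.1 K) :
    cf K s φ i * (MP.sc K n s * kp n i.2.1 (X i.1 K).toNat) = 0 := by
  by_cases h1 : 1 ≤ X i.1 K ∧ 1 ≤ i.2.1
  · have h2 : kp n i.2.1 (X i.1 K).toNat = 0 := kpw_eq_zero 0 (by omega)
    rw [h2, mul_zero, mul_zero]
  · unfold cf
    rw [ind_not_of h1]
    ring

theorem T2_nonneg (K n s S b f : ℕ) (φ : ℕ → ℕ → ℝ) (hφ : ∀ x w, 0 ≤ φ x w ∧ φ x w ≤ 1)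
    (θ : ℝ) (i : Ic K s) : 0 ≤ T2 K n s S b f φ θ i :=
  mul_nonneg (cf_nonneg K s φ hφ i) (mul_nonneg (mul_nonneg (MP.sc_nonneg _ _ _)
    (kp_nonneg _ _ _)) (PrD_nonneg _ _ _ _ _ _ (uu_pos K n θ) _ _ _))

theorem T2_summable (K n s S b f : ℕ) (φ : ℕ → ℕ → ℝ) (hφ : ∀ x w, 0 ≤ φ x w ∧ φ x w ≤ 1)
    {θ : ℝ} (hθ : (mm : ℝ) + 1 ≤ θ) : Summable (T2 K n s S b f φ θ) := by
  obtain ⟨C, hC, h⟩ := cn_le K s
  refine Summable.of_nonneg_of_le (fun i => T2_nonneg K n s S b f φ hφ θ i) (fun i => ?_)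
    ((dm_summable K s).mul_left (C * (f.divisors.card : ℝ)))
  have h0 := cf_nonneg K s φ hφ i
  have h1 := h n i.2.1 _ (X_toNat_le i.1)
  have h2 := mul_nonneg (MP.sc_nonneg K n s) (kp_nonneg n i.2.1 (X i.1 K).toNat)
  have h3 := bs_nonneg K s f i
  by_cases hN : (i.2.1 : ℤ) ≤ n + X i.1 K
  · have h4 := PrD_le (b := b) (f := f) (θ := θ) S i hθ hN
    have h5 : 0 ≤ PrD f K n s S b (uu K n θ) i.1 ((n : ℤ) + X i.1 K - i.2.1).toNat i.2.2 :=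
      PrD_nonneg _ _ _ _ _ _ (uu_pos K n θ) _ _ _
    calc T2 K n s S b f φ θ i
        ≤ cf K s φ i * ((C * ((i.2.1 : ℝ) + 1)) * bs K s f i) :=
          mul_le_mul_of_nonneg_left (mul_le_mul h1 h4 h5 (by positivity)) h0
      _ = C * (cf K s φ i * (((i.2.1 : ℝ) + 1) * bs K s f i)) := by ring
      _ ≤ C * ((f.divisors.card : ℝ) * dm K s i) :=
          mul_le_mul_of_nonneg_left (cf_bs K s f φ hφ i) hC
      _ = _ := by ring
  · have h4 : T2 K n s S b f φ θ i = 0 := by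
      unfold T2
      rw [← mul_assoc, cf_kp K n s φ i hN, zero_mul]
    rw [h4]
    have := dm_nonneg K s i
    positivity

end MP2

theorem ul_nonneg (K s S b : ℕ) (θ : ℝ) (φ : ℕ → ℕ → ℝ) (hφ : ∀ x w, 0 ≤ φ x w ∧ φ x w ≤ 1)
    (f : ℕ) (i : Ic K s) : 0 ≤ ul K s S b θ φ f i := by
  rw [MP2.ul_eq]
  exact mul_nonneg (MP2.cf_nonneg K s φ hφ i) (mul_nonneg (mul_nonneg (Nat.cast_nonneg _)
    (hg_nonneg _)) (MP2.E2_nonneg K s S b f θ i))

theorem ul_summable (K s S b : ℕ) (θ : ℝ) (φ : ℕ → ℕ → ℝ)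
    (hφ : ∀ x w, 0 ≤ φ x w ∧ φ x w ≤ 1) (f : ℕ) : Summable (ul K s S b θ φ f) := by
  obtain ⟨C, hC, h⟩ := MP2.pn_le K
  refine Summable.of_nonneg_of_le (fun i => ul_nonneg K s S b θ φ hφ f i) (fun i => ?_)
    ((MP2.dm_summable K s).mul_left ((2 : ℝ) ^ (-θ) * C * (f.divisors.card : ℝ)))
  rw [MP2.ul_eq]
  have h0 := MP2.cf_nonneg K s φ hφ i
  have h1 := h i.2.1 _ (MP2.X_toNat_le i.1)
  have h2 : 0 ≤ (i.2.1 : ℝ) * hg (X i.1 K).toNat := mul_nonneg (Nat.cast_nonneg _) (hg_nonneg _)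
  have h4 := MP2.E2_le K s S b f θ i
  have h5 := MP2.E2_nonneg K s S b f θ i
  calc MP2.cf K s φ i * (((i.2.1 : ℝ) * hg (X i.1 K).toNat) * MP2.E2 K s S b f θ i)
      ≤ MP2.cf K s φ i * ((C * ((i.2.1 : ℝ) + 1)) * ((2 : ℝ) ^ (-θ) * MP2.bs K s f i)) :=
        mul_le_mul_of_nonneg_left (mul_le_mul h1 h4 h5 (by positivity)) h0
    _ = (2 : ℝ) ^ (-θ) * C * (MP2.cf K s φ i * (((i.2.1 : ℝ) + 1) * MP2.bs K s f i)) := by ring
    _ ≤ (2 : ℝ) ^ (-θ) * C * ((f.divisors.card : ℝ) * MP2.dm K s i) :=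
        mul_le_mul_of_nonneg_left (MP2.cf_bs K s f φ hφ i) (by positivity)
    _ = _ := by ring

namespace MP2

theorem main_A (K n s S b f : ℕ) (φ : ℕ → ℕ → ℝ) (hφ : ∀ x w, 0 ≤ φ x w ∧ φ x w ≤ 1) (θ : ℝ) :
    (((K + (n + s) : ℕ) : ℝ) + 1) ^ (3 / 2 : ℝ) *
      ZS (K + (n + s)) (fun ν => ind (md K n ν) * φ (X ν K).toNat (X ν (K + n)).toNat *
        PrD f K n s S b ((2 : ℝ) ^ (((K + n : ℕ) : ℝ) + θ)) (lo ν) (cnt (lo (hi ν)) n)
          (hi (hi ν))) = ∑' i, T2 K n s S b f φ θ i := by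
  rw [blk2 K n s φ hφ (PrD f K n s S b ((2 : ℝ) ^ (((K + n : ℕ) : ℝ) + θ)))
    (PrD_nonneg _ _ _ _ _ _ (uu_pos K n θ)) (PrD_le_one _ _ _ _ _ _ (uu_pos K n θ)),
    ← tsum_mul_left]
  refine tsum_congr (fun i => ?_)
  unfold T2 cf MP.sc uu
  ring

open Classical in
/-- the bound for the distance of the probabilities -/
def en (K s f : ℕ) (e : (Fin s → ℕ) → ℕ → ℝ) (n : ℕ) (i : Ic K s) : ℝ :=
  if (i.2.1 : ℤ) ≤ n + X i.1 K then min (e i.2.2 (K + n)) (bs K s f i) else bs K s f i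

/-- the dominating terms -/
def MM (K s f : ℕ) (φ : ℕ → ℕ → ℝ) (e : (Fin s → ℕ) → ℕ → ℝ) (n : ℕ) (i : Ic K s) : ℝ :=
  cf K s φ i *
    (|MP.sc K n s * kp n i.2.1 (X i.1 K).toNat - (i.2.1 : ℝ) * hg (X i.1 K).toNat| *
      bs K s f i + (i.2.1 : ℝ) * hg (X i.1 K).toNat * en K s f e n i)

end MP2

theorem mp2 (K s S b f : ℕ) (φ : ℕ → ℕ → ℝ) (hφ : ∀ x w, 0 ≤ φ x w ∧ φ x w ≤ 1)
    {ε : ℝ} (hε : 0 < ε) : ∃ n0 : ℕ, ∀ n ≥ n0, ∀ θ : ℝ, (mm : ℝ) + 1 ≤ θ → θ ≤ mm + 2 →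
    |(((K + (n + s) : ℕ) : ℝ) + 1) ^ (3 / 2 : ℝ) *
      ZS (K + (n + s)) (fun ν => ind (md K n ν) * φ (X ν K).toNat (X ν (K + n)).toNat *
        PrD f K n s S b ((2 : ℝ) ^ (((K + n : ℕ) : ℝ) + θ)) (lo ν) (cnt (lo (hi ν)) n)
          (hi (hi ν))) -
      UL K s S b θ φ f| ≤ ε := by
  choose e he0 hepos he using (fun ν : Fin s → ℕ => b_lim S ν)
  obtain ⟨C1, hC1, hc⟩ := MP2.cn_le K s
  obtain ⟨C2, hC2, hp⟩ := MP2.pn_le K
  have hen0 : ∀ n i, 0 ≤ MP2.en K s f e n i := by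
    intro n i
    unfold MP2.en
    split
    · exact le_min (hepos _ _) (MP2.bs_nonneg _ _ _ _)
    · exact MP2.bs_nonneg _ _ _ _
  have hen1 : ∀ n i, MP2.en K s f e n i ≤ MP2.bs K s f i := by
    intro n i
    unfold MP2.en
    split
    · exact min_le_right _ _
    · exact le_rfl
  have hM0 : ∀ n i, 0 ≤ MP2.MM K s f φ e n i := by
    intro n i
    unfold MP2.MM
    exact mul_nonneg (MP2.cf_nonneg K s φ hφ i) (add_nonneg (mul_nonneg (abs_nonneg _)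
      (MP2.bs_nonneg _ _ _ _)) (mul_nonneg (mul_nonneg (Nat.cast_nonneg _) (hg_nonneg _))
        (hen0 n i)))
  have hMle : ∀ n i, MP2.MM K s f φ e n i ≤
      ((C1 + C2 + C2) * (f.divisors.card : ℝ)) * MP2.dm K s i := by
    intro n i
    unfold MP2.MM
    have h1 := MP2.cf_nonneg K s φ hφ i
    have h2 := MP2.bs_nonneg K s f i
    have h3 := hc n i.2.1 _ (MP2.X_toNat_le i.1)
    have h4 := hp i.2.1 _ (MP2.X_toNat_le i.1)
    have h5 : 0 ≤ MP.sc K n s * kp n i.2.1 (X i.1 K).toNat :=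
      mul_nonneg (MP.sc_nonneg _ _ _) (kp_nonneg _ _ _)
    have h6 : 0 ≤ (i.2.1 : ℝ) * hg (X i.1 K).toNat :=
      mul_nonneg (Nat.cast_nonneg _) (hg_nonneg _)
    have h7 : |MP.sc K n s * kp n i.2.1 (X i.1 K).toNat -
        (i.2.1 : ℝ) * hg (X i.1 K).toNat| ≤ C1 * ((i.2.1 : ℝ) + 1) + C2 * ((i.2.1 : ℝ) + 1) := by
      rw [abs_le]
      constructor <;> nlinarith
    calc _ ≤ MP2.cf K s φ i * ((C1 * ((i.2.1 : ℝ) + 1) + C2 * ((i.2.1 : ℝ) + 1)) *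
          MP2.bs K s f i + C2 * ((i.2.1 : ℝ) + 1) * MP2.bs K s f i) := by
          refine mul_le_mul_of_nonneg_left (add_le_add ?_ ?_) h1
          · exact mul_le_mul_of_nonneg_right h7 h2
          · exact mul_le_mul h4 (hen1 n i) (hen0 n i) (by positivity)
      _ = (C1 + C2 + C2) * (MP2.cf K s φ i * (((i.2.1 : ℝ) + 1) * MP2.bs K s f i)) := by ring
      _ ≤ (C1 + C2 + C2) * ((f.divisors.card : ℝ) * MP2.dm K s i) :=
          mul_le_mul_of_nonneg_left (MP2.cf_bs K s f φ hφ i) (by positivity)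
      _ = _ := by ring
  have hMsum : ∀ n, Summable (MP2.MM K s f φ e n) := fun n =>
    Summable.of_nonneg_of_le (hM0 n) (hMle n) ((MP2.dm_summable K s).mul_left _)
  -- pointwise convergence
  have hpt : ∀ i, Tendsto (fun n => MP2.MM K s f φ e n i) atTop (𝓝 0) := by
    intro i
    by_cases hi : 1 ≤ X i.1 K ∧ 1 ≤ i.2.1
    · have h1 : Tendsto (fun n => |MP.sc K n s * kp n i.2.1 (X i.1 K).toNat -
          (i.2.1 : ℝ) * hg (X i.1 K).toNat|) atTop (𝓝 0) := by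
        have := (MP.cn_tendsto K s i.2.1 (X i.1 K).toNat hi.2 (by omega)).sub_const
          ((i.2.1 : ℝ) * hg (X i.1 K).toNat)
        rw [sub_self] at this
        simpa using this.abs
      have h2 : Tendsto (fun n => MP2.en K s f e n i) atTop (𝓝 0) := by
        have h4 : Tendsto (fun n => e i.2.2 (K + n)) atTop (𝓝 0) :=
          (he0 i.2.2).comp (tendsto_add_atTop_nat K |>.congr (fun n => Nat.add_comm n K))
        refine tendsto_of_tendsto_of_tendsto_of_le_of_le' tendsto_const_nhds h4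
          (Eventually.of_forall (fun n => hen0 n i)) ?_
        filter_upwards [eventually_ge_atTop ((i.2.1 : ℤ) - X i.1 K).toNat] with n hn
        unfold MP2.en
        rw [if_pos (by omega)]
        exact min_le_left _ _
      have h3 := ((h1.mul_const (MP2.bs K s f i)).add
        (h2.const_mul ((i.2.1 : ℝ) * hg (X i.1 K).toNat))).const_mul (MP2.cf K s φ i)
      simpa [MP2.MM] using h3
    · have h0 : MP2.cf K s φ i = 0 := by
        unfold MP2.cf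
        rw [ind_not_of hi]
        ring
      simp only [MP2.MM, h0, zero_mul]
      exact tendsto_const_nhds
  have hlim : Tendsto (fun n => ∑' i, MP2.MM K s f φ e n i) atTop (𝓝 0) := by
    have h := tendsto_tsum_of_dominated_convergence
      (f := fun n i => MP2.MM K s f φ e n i) (g := fun _ => (0 : ℝ))
      (bound := fun i => ((C1 + C2 + C2) * (f.divisors.card : ℝ)) * MP2.dm K s i) (𝓕 := atTop)
      ((MP2.dm_summable K s).mul_left _) hpt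
      (Eventually.of_forall (fun n i => by
        rw [Real.norm_of_nonneg (hM0 n i)]
        exact hMle n i))
    simpa using h
  obtain ⟨n0, hn0⟩ := (hlim.eventually (ge_mem_nhds hε)).exists_forall_of_atTop
  refine ⟨n0, fun n hn θ hθ hθ' => ?_⟩
  refine le_trans ?_ (hn0 n hn)
  unfold UL
  rw [MP2.main_A K n s S b f φ hφ θ, ← Summable.tsum_sub (MP2.T2_summable K n s S b f φ hφ hθ)
    (ul_summable K s S b θ φ hφ f), ← Real.norm_eq_abs]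
  have hterm : ∀ i, ‖MP2.T2 K n s S b f φ θ i - ul K s S b θ φ f i‖ ≤
      MP2.MM K s f φ e n i := by
    intro i
    have h1 := MP2.cf_nonneg K s φ hφ i
    have h2 := MP2.bs_nonneg K s f i
    have h6 : 0 ≤ (i.2.1 : ℝ) * hg (X i.1 K).toNat :=
      mul_nonneg (Nat.cast_nonneg _) (hg_nonneg _)
    have hE0 := MP2.E2_nonneg K s S b f θ i
    have hE1 : MP2.E2 K s S b f θ i ≤ MP2.bs K s f i :=
      le_trans (MP2.E2_le K s S b f θ i) (mul_le_of_le_one_left h2 (MP2.two_rpow_neg_le hθ))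
    by_cases hN : (i.2.1 : ℤ) ≤ n + X i.1 K
    · set H := PrD f K n s S b (MP2.uu K n θ) i.1 ((n : ℤ) + X i.1 K - i.2.1).toNat i.2.2 with hH
      have hH0 : 0 ≤ H := PrD_nonneg _ _ _ _ _ _ (MP2.uu_pos K n θ) _ _ _
      have hH1 : H ≤ MP2.bs K s f i := MP2.PrD_le S i hθ hN
      have hHE : |H - MP2.E2 K s S b f θ i| ≤ MP2.en K s f e n i := by
        unfold MP2.en
        rw [if_pos hN]
        refine le_min (MP2.PrD_dist S i (e i.2.2) (he i.2.2) hθ hθ' hN) ?_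
        rw [abs_le]
        constructor <;> linarith
      have heq : MP2.T2 K n s S b f φ θ i - ul K s S b θ φ f i =
          MP2.cf K s φ i *
            ((MP.sc K n s * kp n i.2.1 (X i.1 K).toNat - (i.2.1 : ℝ) * hg (X i.1 K).toNat) * H +
            (i.2.1 : ℝ) * hg (X i.1 K).toNat * (H - MP2.E2 K s S b f θ i)) := by
        rw [MP2.ul_eq]
        simp only [MP2.T2, ← hH]
        ring
      rw [heq, Real.norm_eq_abs, abs_mul, abs_of_nonneg h1]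
      unfold MP2.MM
      refine mul_le_mul_of_nonneg_left ?_ h1
      refine le_trans (abs_add_le _ _) (add_le_add ?_ ?_)
      · rw [abs_mul, abs_of_nonneg hH0]
        exact mul_le_mul_of_nonneg_left hH1 (abs_nonneg _)
      · rw [abs_mul, abs_of_nonneg h6]
        exact mul_le_mul_of_nonneg_left hHE h6
    · have h3 : MP2.T2 K n s S b f φ θ i = 0 := by
        unfold MP2.T2
        rw [← mul_assoc, MP2.cf_kp K n s φ i hN, zero_mul]
      rw [h3, zero_sub, norm_neg, Real.norm_of_nonneg (ul_nonneg K s S b θ φ hφ f i), MP2.ul_eq]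
      unfold MP2.MM
      refine mul_le_mul_of_nonneg_left ?_ h1
      have h4 : MP2.en K s f e n i = MP2.bs K s f i := by
        unfold MP2.en
        rw [if_neg hN]
      rw [h4]
      have h5 : (i.2.1 : ℝ) * hg (X i.1 K).toNat * MP2.E2 K s S b f θ i ≤
          (i.2.1 : ℝ) * hg (X i.1 K).toNat * MP2.bs K s f i := mul_le_mul_of_nonneg_left hE1 h6
      have h7 : 0 ≤ |MP.sc K n s * kp n i.2.1 (X i.1 K).toNat -
          (i.2.1 : ℝ) * hg (X i.1 K).toNat| * MP2.bs K s f i := mul_nonneg (abs_nonneg _) h2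
      linarith
  exact tsum_of_norm_bounded (hMsum n).hasSum hterm

end Pool.Agent.EN2
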