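import Mathlib
import Pool.Agent.Lib.MP_ec0ede_nt_EN2.Defs
import Pool.Agent.Lib.MP_ec0ede_nt_EN.Ker
import Pool.Agent.Lib.MP_ec0ede_nt_EN.KerW
import Pool.Agent.Lib.MP_ec0ede_nt_EN.Path
import Pool.Agent.Lib.MP_ec0ede_nt_EN.Good

set_option autoImplicit false

noncomputable section

namespace Pool.Agent.EN2

open Real Filter Topology Finset Pool.Agent.EN

open Classical in
theorem good_hiQ (c1 c2 : ℕ) : ∃ C : ℝ, 0 < C ∧ ∀ L j : ℕ, j ≤ L →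
    PW L (fun ν => if E0 c1 c2 ν then
      ENNReal.ofReal (Real.exp (Q ν j) * (2 : ℝ) ^ (-X ν j)) else 0) ≤
      ENNReal.ofReal (C / (((j : ℝ) + 1) ^ (3 / 2 : ℝ) * ((L : ℝ) - j + 1) ^ (3 / 2 : ℝ))) := by
  obtain ⟨C1, hC1, h1⟩ := Good.low c1
  obtain ⟨C2, hC2, h2⟩ := Good.R_le c1 c2
  obtain ⟨C3, hC3, h3⟩ := Good.geo_sum c1
  refine ⟨C1 * C2 * C3, by positivity, fun L j hj => ?_⟩
  obtain ⟨n, rfl⟩ : ∃ n, L = j + n := ⟨L - j, by omega⟩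
  have hn : (((j + n : ℕ) : ℝ) - j + 1) = (n : ℝ) + 1 := by push_cast; ring
  rw [hn]
  refine (Good.two_block c1 c2 j n _ (fun x => (2 : ℝ) ^ (-x))
    (fun x => by positivity) ?_).trans (ENNReal.ofReal_le_ofReal ?_)
  · intro ν ν' h4
    split_ifs at h4 ⊢ with h5
    · refine ⟨h5, ENNReal.ofReal_le_ofReal ?_⟩
      rw [Q_append_left ν ν' le_rfl, X_append_left ν ν' le_rfl]
    · exact absurd rfl h4
  · have hb : ∀ x ∈ Icc (-(c1:ℤ)) (j : ℤ),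
        kpw 1 j (x + c1 + 1).toNat (c1 + 1) * ((2 : ℝ) ^ (-x) * Good.R c1 c2 n x) ≤
        C1 * C2 / (((j : ℝ) + 1) ^ (3 / 2 : ℝ) * ((n : ℝ) + 1) ^ (3 / 2 : ℝ)) *
          (((x:ℝ) + c1 + 2) ^ 3 * (2:ℝ) ^ (-x)) := by
      intro x hx
      rw [Finset.mem_Icc] at hx
      have h4 := h1 j x hx.1
      have h5 := h2 n x hx.1
      have hx1 : -(c1:ℝ) ≤ x := by exact_mod_cast hx.1
      have h6 : (2 : ℝ) ^ (-x) * Good.R c1 c2 n x ≤
          (2 : ℝ) ^ (-x) * (C2 * ((x:ℝ) + c1 + 2) ^ 2 / ((n:ℝ) + 1) ^ (3 / 2 : ℝ)) :=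
        mul_le_mul_of_nonneg_left h5 (by positivity)
      have h7 : 0 ≤ C1 * ((x:ℝ) + c1 + 2) / ((j:ℝ) + 1) ^ (3 / 2 : ℝ) := by
        apply div_nonneg _ (by positivity)
        apply mul_nonneg hC1.le
        linarith
      refine (mul_le_mul h4 h6 (mul_nonneg (by positivity) (Good.R_nonneg _ _ _ _)) h7).trans
        (le_of_eq ?_)
      have hj0 : ((j : ℝ) + 1) ^ (3 / 2 : ℝ) ≠ 0 := by positivity
      have hn0 : ((n : ℝ) + 1) ^ (3 / 2 : ℝ) ≠ 0 := by positivity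
      field_simp
    refine (Finset.sum_le_sum hb).trans ?_
    rw [← Finset.mul_sum]
    refine (mul_le_mul_of_nonneg_left (h3 j) (by positivity)).trans (le_of_eq ?_)
    ring

end Pool.Agent.EN2
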