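import Mathlib
import Pool.Agent.Lib.MP_ec0ede_nt_EN2.Defs
import Pool.Agent.Lib.MP_ec0ede_nt_EN.Good
import Pool.Agent.Lib.MP_ec0ede_nt_EN.BadP
import Pool.Agent.Lib.MP_ec0ede_nt_EN.Path
import Pool.Agent.Lib.MP_ec0ede_nt_EN2.GoodQ

set_option autoImplicit false

/-!
# MP_ec0ede_nt, project EN2: the bad counts are rare
-/

noncomputable section

namespace Pool.Agent.EN2

open Real Filter Topology Finset Pool.Agent.EN

namespace BadQ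

theorem Q_nonneg {L : ℕ} (ν : Fin L → ℕ) (j : ℕ) : 0 ≤ Q ν j := by
  unfold Q
  refine Finset.sum_nonneg fun i _ => ?_
  split_ifs
  · positivity
  · exact le_rfl

theorem one_le_exp_Q {L : ℕ} (ν : Fin L → ℕ) (j : ℕ) : 1 ≤ Real.exp (Q ν j) :=
  Real.one_le_exp (Q_nonneg ν j)

open Classical in
/-- Markov's inequality for `exp (Q ν j) 2 ^ (- X ν j)` -/
theorem markov (c1 c2 : ℕ) : ∃ C : ℝ, 0 < C ∧ ∀ (L j : ℕ) (D : ℝ), j ≤ L → 0 < D →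
    PW L (fun ν => if E0 c1 c2 ν ∧ D ≤ Real.exp (Q ν j) * (2 : ℝ) ^ (-X ν j) then 1 else 0) ≤
      ENNReal.ofReal (C / D / (((j : ℝ) + 1) ^ (3 / 2 : ℝ) * ((L : ℝ) - j + 1) ^ (3 / 2 : ℝ))) := by
  obtain ⟨C, hC, h⟩ := good_hiQ c1 c2
  refine ⟨C, hC, ?_⟩
  intro L j D hj hD
  have h1 : PW L (fun ν => if E0 c1 c2 ν ∧ D ≤ Real.exp (Q ν j) * (2 : ℝ) ^ (-X ν j)
      then 1 else 0) ≤
      PW L (fun ν => ENNReal.ofReal (1 / D) *
        (if E0 c1 c2 ν then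
          ENNReal.ofReal (Real.exp (Q ν j) * (2 : ℝ) ^ (-X ν j)) else 0)) := by
    apply PW_mono
    intro ν
    split_ifs with h2 h3 h3
    · rw [← ENNReal.ofReal_mul (by positivity), ← ENNReal.ofReal_one]
      refine ENNReal.ofReal_le_ofReal ?_
      rw [one_div, inv_mul_eq_div, le_div_iff₀ hD, one_mul]
      exact h2.2
    · exact absurd h2.1 h3
    · exact zero_le
    · exact zero_le
  refine h1.trans ?_
  rw [Good.PW_const]
  refine (mul_le_mul_right (h L j hj) _).trans ?_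
  rw [← ENNReal.ofReal_mul (by positivity)]
  refine ENNReal.ofReal_le_ofReal (le_of_eq ?_)
  ring

/-- the numerical bound -/
theorem num {C D δ a m W : ℝ} (hC : 0 < C) (hD : 0 < D) (hδ : 0 < δ) (ha : 0 ≤ a) (hm : 0 ≤ m)
    (hW : 0 ≤ W) (h1 : 4 * C / (D * δ) ≤ a) (h2 : W + 1 ≤ 2 * (m + 1)) :
    C / D / ((a + 1) ^ (3 / 2 : ℝ) * (m + 1) ^ (3 / 2 : ℝ)) ≤ δ / (W + 1) ^ (3 / 2 : ℝ) := by
  have h3 := Good.rpow_half hm hW h2
  have h4 : a + 1 ≤ (a + 1) ^ (3 / 2 : ℝ) := by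
    have := Real.rpow_le_rpow_of_exponent_le (x := a + 1) (y := 1) (z := (3 / 2 : ℝ))
      (by linarith) (by norm_num)
    rwa [Real.rpow_one] at this
  have h5 : 4 * C / (D * δ) ≤ (a + 1) ^ (3 / 2 : ℝ) := by linarith
  have hp : 0 < (a + 1) ^ (3 / 2 : ℝ) := by positivity
  have h6 : 4 * C / D / (a + 1) ^ (3 / 2 : ℝ) ≤ δ := by
    rw [div_le_iff₀ hp]
    rw [div_le_iff₀ (by positivity)] at h5
    rw [div_le_iff₀ hD]
    linarith
  calc C / D / ((a + 1) ^ (3 / 2 : ℝ) * (m + 1) ^ (3 / 2 : ℝ))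
      = C / D / (a + 1) ^ (3 / 2 : ℝ) * (1 / (m + 1) ^ (3 / 2 : ℝ)) := by
        rw [div_mul_eq_div_div, mul_one_div]
    _ ≤ C / D / (a + 1) ^ (3 / 2 : ℝ) * (4 / (W + 1) ^ (3 / 2 : ℝ)) := by gcongr
    _ = 4 * C / D / (a + 1) ^ (3 / 2 : ℝ) / (W + 1) ^ (3 / 2 : ℝ) := by ring
    _ ≤ δ / (W + 1) ^ (3 / 2 : ℝ) := by gcongr

/-- each prime of the levels in `(b, b + t]` contributes at least `2 ^ (-t)` -/
theorem cnt_le_Q {L : ℕ} (ν : Fin L → ℕ) (b t : ℕ) :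
    ((cnt ν (b + t) - cnt ν b : ℕ) : ℝ) ≤ 2 ^ t * Q ν (b + t) := by
  have h1 : cnt ν (b + t) - cnt ν b ≤
      ∑ i : Fin L, if (i : ℕ) < b + t ∧ b ≤ (i : ℕ) then ν i else 0 := by
    rw [Nat.sub_le_iff_le_add']
    unfold cnt
    rw [← Finset.sum_add_distrib]
    refine Finset.sum_le_sum fun i _ => ?_
    by_cases h3 : (i : ℕ) < b
    · rw [if_pos (by omega), if_pos h3]
      exact Nat.le_add_right _ _
    · by_cases h4 : (i : ℕ) < b + t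
      · rw [if_pos h4, if_neg h3, if_pos (⟨h4, by omega⟩ : (i : ℕ) < b + t ∧ b ≤ (i : ℕ))]
        exact Nat.le_add_left _ _
      · rw [if_neg h4]
        exact Nat.zero_le _
  have h2 : ((cnt ν (b + t) - cnt ν b : ℕ) : ℝ) ≤
      ((∑ i : Fin L, if (i : ℕ) < b + t ∧ b ≤ (i : ℕ) then ν i else 0 : ℕ) : ℝ) := by
    exact_mod_cast h1
  refine h2.trans ?_
  push_cast
  unfold Q
  rw [Finset.mul_sum]
  refine Finset.sum_le_sum fun i _ => ?_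
  by_cases h3 : (i : ℕ) < b + t
  · by_cases h4 : b ≤ (i : ℕ)
    · rw [if_pos (⟨h3, h4⟩ : (i : ℕ) < b + t ∧ b ≤ (i : ℕ)), if_pos h3]
      have h5 : (2 : ℝ) ^ b ≤ 2 ^ ((i : ℕ) + 1) :=
        pow_le_pow_right₀ (by norm_num) (by omega)
      have h6 : (1 : ℝ) ≤ 2 ^ t * (2 ^ ((i : ℕ) + 1) / 2 ^ (b + t)) := by
        rw [pow_add 2 b t, ← mul_div_assoc, mul_comm ((2 : ℝ) ^ b), mul_div_mul_left _ _
          (by positivity), one_le_div (by positivity)]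
        exact h5
      have h7 : (0 : ℝ) ≤ (ν i : ℝ) := Nat.cast_nonneg _
      calc (ν i : ℝ) = ν i * 1 := (mul_one _).symm
        _ ≤ ν i * (2 ^ t * (2 ^ ((i : ℕ) + 1) / 2 ^ (b + t))) := by gcongr
        _ = _ := by ring
    · rw [if_neg (fun h => h4 h.2), if_pos h3]
      positivity
  · rw [if_neg (fun h => h3 h.1), if_neg h3]
    simp

theorem two_zpow_ge {A : ℕ} {x : ℤ} (h : x ≤ A) : (1 / 2 ^ A : ℝ) ≤ (2 : ℝ) ^ (-x) := by
  have h1 : (2 : ℝ) ^ (-(A : ℤ)) ≤ (2 : ℝ) ^ (-x) :=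
    zpow_le_zpow_right₀ (by norm_num) (by omega)
  rwa [zpow_neg, zpow_natCast, ← one_div] at h1

end BadQ

open Classical in
theorem bad_2 (c1 c2 : ℕ) {ε : ℝ} (hε : 0 < ε) : ∃ (D0 : ℝ) (E : ℕ), ∀ η1 : ℝ, 0 < η1 →
    ∃ K0 : ℕ, ∀ K s : ℕ, K0 ≤ K → K0 ≤ s → ∃ n0 : ℕ, ∀ n ≥ n0,
    PW (K + (n + s)) (fun ν => if E0 c1 c2 ν ∧ ¬ Nice2 D0 η1 E K n s ν then 1 else 0) ≤
      ENNReal.ofReal (ε / (((K + (n + s) : ℕ) : ℝ) + 1) ^ (3 / 2 : ℝ)) := by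
  obtain ⟨D0, C1, ha⟩ := bad_P c1 c2 (ε := ε / 3) (by positivity)
  obtain ⟨s1, ha⟩ := ha 0
  obtain ⟨Cb, hCb, hb⟩ := BadQ.markov c1 c2
  obtain ⟨Cc, hCc, hc⟩ := BadP.Q_markov c1 c2
  obtain ⟨E, hE⟩ : ∃ E : ℕ, Cc * Real.exp (-((E : ℝ) / 2 ^ (2 * mm + 2))) ≤ ε / 3 := by
    obtain ⟨E, hE⟩ := exists_nat_ge (2 ^ (2 * mm + 2) * Real.log (3 * Cc / ε))
    refine ⟨E, ?_⟩
    have h1 : Real.log (3 * Cc / ε) ≤ (E : ℝ) / 2 ^ (2 * mm + 2) := by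
      rw [le_div_iff₀ (by positivity)]
      linarith
    have h2 : Real.exp (-((E : ℝ) / 2 ^ (2 * mm + 2))) ≤ Real.exp (-Real.log (3 * Cc / ε)) :=
      Real.exp_le_exp.2 (by linarith)
    rw [Real.exp_neg (Real.log _), Real.exp_log (by positivity), inv_div] at h2
    calc Cc * Real.exp (-((E : ℝ) / 2 ^ (2 * mm + 2))) ≤ Cc * (ε / (3 * Cc)) := by gcongr
      _ = ε / 3 := by field_simp
  refine ⟨D0, E, ?_⟩
  intro η1 hη1
  obtain ⟨K0, ha⟩ := ha η1 hη1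
  obtain ⟨K1, hK1⟩ := exists_nat_ge (4 * Cb / (η1 * (ε / 3)))
  refine ⟨K0 + K1 + (2 * mm + 2), ?_⟩
  intro K s hK hs
  obtain ⟨n0, ha⟩ := ha K s (by omega) (by omega)
  refine ⟨n0 + K + s, ?_⟩
  intro n hn
  have ha := ha n (by omega)
  set L : ℕ := K + (n + s) with hL
  have b2 : PW L (fun ν => if E0 c1 c2 ν ∧ η1 ≤ Real.exp (Q ν K) * (2 : ℝ) ^ (-X ν K)
      then 1 else 0) ≤ ENNReal.ofReal (ε / 3 / ((L : ℝ) + 1) ^ (3 / 2 : ℝ)) := by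
    refine (hb L K η1 (by omega) hη1).trans (ENNReal.ofReal_le_ofReal ?_)
    have hLr : (L : ℝ) = K + (n + s) := by rw [hL]; push_cast; ring
    have hKr : ((K1 : ℕ) : ℝ) ≤ K := by exact_mod_cast (by omega : K1 ≤ K)
    have hnr : ((K : ℕ) : ℝ) ≤ n := by exact_mod_cast (by omega : K ≤ n)
    have hn0 : (0 : ℝ) ≤ n := Nat.cast_nonneg _
    have hs0 : (0 : ℝ) ≤ s := Nat.cast_nonneg _
    exact BadQ.num hCb hη1 (by positivity) (Nat.cast_nonneg _) (by linarith)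
      (Nat.cast_nonneg _) (hK1.trans hKr) (by linarith)
  have b3 : PW L (fun ν => if E0 c1 c2 ν ∧
      (E : ℝ) / 2 ^ (2 * mm + 2) < Q ν (K + n + (2 * mm + 2)) then 1 else 0) ≤
      ENNReal.ofReal (ε / 3 / ((L : ℝ) + 1) ^ (3 / 2 : ℝ)) := by
    refine (hc L (K + n + (2 * mm + 2)) ((E : ℝ) / 2 ^ (2 * mm + 2)) (by omega)
      (by omega)).trans (ENNReal.ofReal_le_ofReal ?_)
    gcongr
  have hu : PW L (fun ν => if E0 c1 c2 ν ∧ ¬ Nice2 D0 η1 E K n s ν then 1 else 0) ≤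
      PW L (fun ν => (if E0 c1 c2 ν ∧ ¬ Nice D0 C1 η1 0 s1 K n s ν then 1 else 0) +
        ((if E0 c1 c2 ν ∧ η1 ≤ Real.exp (Q ν K) * (2 : ℝ) ^ (-X ν K) then 1 else 0) +
        (if E0 c1 c2 ν ∧
      (E : ℝ) / 2 ^ (2 * mm + 2) < Q ν (K + n + (2 * mm + 2)) then 1 else 0))) := by
    apply PW_mono
    intro ν
    by_cases hN : E0 c1 c2 ν ∧ ¬ Nice2 D0 η1 E K n s ν
    · rw [if_pos hN]
      obtain ⟨hE1, hE2⟩ := hN
      by_cases g1 : Nice D0 C1 η1 0 s1 K n s ν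
      · by_cases g2 : η1 ≤ Real.exp (Q ν K) * (2 : ℝ) ^ (-X ν K)
        · rw [if_pos (⟨hE1, g2⟩ : E0 c1 c2 ν ∧ _)]
          exact le_add_left (le_add_right le_rfl)
        · have g3 : E < cnt ν (K + n + (2 * mm + 2)) - cnt ν (K + n) := by
            by_contra g3
            exact hE2 ⟨g1.1, g1.2.1, (not_le.1 g2).le, not_lt.1 g3⟩
          have g4 : (E : ℝ) / 2 ^ (2 * mm + 2) < Q ν (K + n + (2 * mm + 2)) := by
            rw [div_lt_iff₀ (by positivity), mul_comm]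
            have h5 := BadQ.cnt_le_Q ν (K + n) (2 * mm + 2)
            have h6 : (E : ℝ) < ((cnt ν (K + n + (2 * mm + 2)) - cnt ν (K + n) : ℕ) : ℝ) := by
              exact_mod_cast g3
            exact h6.trans_le h5
          have g5 : E0 c1 c2 ν ∧
              (E : ℝ) / 2 ^ (2 * mm + 2) < Q ν (K + n + (2 * mm + 2)) := ⟨hE1, g4⟩
          simp only [if_pos g5]
          exact le_add_left (le_add_left le_rfl)
      · rw [if_pos (⟨hE1, g1⟩ : E0 c1 c2 ν ∧ ¬ Nice D0 C1 η1 0 s1 K n s ν)]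
        exact le_add_right le_rfl
    · rw [if_neg hN]
      exact zero_le
  refine hu.trans ?_
  rw [BadP.PW_add, BadP.PW_add]
  refine (add_le_add ha (add_le_add b2 b3)).trans ?_
  rw [← ENNReal.ofReal_add (by positivity) (by positivity),
    ← ENNReal.ofReal_add (by positivity) (by positivity)]
  refine ENNReal.ofReal_le_ofReal (le_of_eq ?_)
  ring

theorem nice2_md {D0 η1 : ℝ} {E K n s : ℕ} {ν : Fin (K + (n + s)) → ℕ}
    (h : Nice2 D0 η1 E K n s ν) (h1 : η1 < 1) : md K n ν := by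
  obtain ⟨-, h2, h3, -⟩ := h
  intro j hj hj'
  by_contra hX
  have hX : X ν j ≤ ((0 : ℕ) : ℤ) := by push_cast; omega
  have h4 := BadQ.two_zpow_ge hX
  rw [pow_zero, div_one] at h4
  rcases hj.eq_or_lt with rfl | hlt
  · have h5 := BadQ.one_le_exp_Q ν K
    have h6 : (1 : ℝ) ≤ Real.exp (Q ν K) * (2 : ℝ) ^ (-X ν K) := by
      calc (1 : ℝ) = 1 * 1 := (mul_one _).symm
        _ ≤ _ := mul_le_mul h5 h4 zero_le_one (by positivity)
    linarith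
  · obtain ⟨l, rfl⟩ : ∃ l, j = l + 1 := ⟨j - 1, by omega⟩
    have hl : l < K + (n + s) := by omega
    have h7 : (if K ≤ l ∧ l + 1 ≤ K + n + (s - s / 2) then
        ((ν ⟨l, hl⟩ : ℝ) + 1) * (2 : ℝ) ^ (-X ν (l + 1)) else 0) ≤
        xi K (K + n + (s - s / 2)) ν := by
      unfold xi
      refine Finset.single_le_sum (f := fun l : Fin (K + (n + s)) =>
        if K ≤ (l : ℕ) ∧ (l : ℕ) + 1 ≤ K + n + (s - s / 2) then
        ((ν l : ℝ) + 1) * (2 : ℝ) ^ (-X ν (l + 1)) else 0) (fun i _ => ?_)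
        (Finset.mem_univ (⟨l, hl⟩ : Fin (K + (n + s))))
      split_ifs
      · positivity
      · exact le_rfl
    rw [if_pos (by omega)] at h7
    have h8 : (1 : ℝ) ≤ ((ν ⟨l, hl⟩ : ℝ) + 1) * (2 : ℝ) ^ (-X ν (l + 1)) := by
      have h9 : (0 : ℝ) ≤ (ν ⟨l, hl⟩ : ℝ) := Nat.cast_nonneg _
      calc (1 : ℝ) = 1 * 1 := (mul_one _).symm
        _ ≤ _ := mul_le_mul (by linarith) h4 zero_le_one (by positivity)
    linarith

open Classical in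
theorem small_x (c1 c2 A : ℕ) {ε : ℝ} (hε : 0 < ε) : ∃ K0 : ℕ, ∀ K s : ℕ, K0 ≤ K →
    ∃ n0 : ℕ, ∀ n ≥ n0,
    PW (K + (n + s)) (fun ν => if E0 c1 c2 ν ∧ X ν K ≤ A then 1 else 0) ≤
      ENNReal.ofReal (ε / (((K + (n + s) : ℕ) : ℝ) + 1) ^ (3 / 2 : ℝ)) := by
  obtain ⟨C, hC, h⟩ := BadQ.markov c1 c2
  obtain ⟨K0, hK0⟩ := exists_nat_ge (4 * C / (1 / 2 ^ A * ε))
  refine ⟨K0, fun K s hK => ⟨K, fun n hn => ?_⟩⟩
  refine le_trans ?_ ((h (K + (n + s)) K (1 / 2 ^ A) (by omega) (by positivity)).trans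
    (ENNReal.ofReal_le_ofReal ?_))
  · apply PW_mono
    intro ν
    by_cases h1 : E0 c1 c2 ν ∧ X ν K ≤ A
    · have h2 : E0 c1 c2 ν ∧ (1 / 2 ^ A : ℝ) ≤ Real.exp (Q ν K) * (2 : ℝ) ^ (-X ν K) := by
        refine ⟨h1.1, ?_⟩
        have h3 := BadQ.two_zpow_ge h1.2
        have h4 := BadQ.one_le_exp_Q ν K
        calc (1 / 2 ^ A : ℝ) = 1 * (1 / 2 ^ A) := (one_mul _).symm
          _ ≤ _ := mul_le_mul h4 h3 (by positivity) (by positivity)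
      rw [if_pos h1, if_pos h2]
    · rw [if_neg h1]
      exact zero_le
  · have hLr : ((K + (n + s) : ℕ) : ℝ) = K + (n + s) := by push_cast; ring
    have hKr : ((K0 : ℕ) : ℝ) ≤ K := by exact_mod_cast hK
    have hnr : ((K : ℕ) : ℝ) ≤ n := by exact_mod_cast hn
    have hn0 : (0 : ℝ) ≤ n := Nat.cast_nonneg _
    have hs0 : (0 : ℝ) ≤ s := Nat.cast_nonneg _
    exact BadQ.num hC (by positivity) hε (Nat.cast_nonneg _) (by linarith)
      (Nat.cast_nonneg _) (hK0.trans hKr) (by linarith)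

open Classical in
theorem small_w (c1 c2 A : ℕ) {ε : ℝ} (hε : 0 < ε) : ∃ s0 : ℕ, ∀ K s : ℕ, s0 ≤ s →
    ∃ n0 : ℕ, ∀ n ≥ n0,
    PW (K + (n + s)) (fun ν => if E0 c1 c2 ν ∧ X ν (K + n) ≤ A then 1 else 0) ≤
      ENNReal.ofReal (ε / (((K + (n + s) : ℕ) : ℝ) + 1) ^ (3 / 2 : ℝ)) := by
  obtain ⟨C, hC, h⟩ := BadQ.markov c1 c2
  obtain ⟨s0, hs0⟩ := exists_nat_ge (4 * C / (1 / 2 ^ A * ε))
  refine ⟨s0, fun K s hs => ⟨s, fun n hn => ?_⟩⟩
  refine le_trans ?_ ((h (K + (n + s)) (K + n) (1 / 2 ^ A) (by omega) (by positivity)).trans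
    (ENNReal.ofReal_le_ofReal ?_))
  · apply PW_mono
    intro ν
    by_cases h1 : E0 c1 c2 ν ∧ X ν (K + n) ≤ A
    · have h2 : E0 c1 c2 ν ∧
          (1 / 2 ^ A : ℝ) ≤ Real.exp (Q ν (K + n)) * (2 : ℝ) ^ (-X ν (K + n)) := by
        refine ⟨h1.1, ?_⟩
        have h3 := BadQ.two_zpow_ge h1.2
        have h4 := BadQ.one_le_exp_Q ν (K + n)
        calc (1 / 2 ^ A : ℝ) = 1 * (1 / 2 ^ A) := (one_mul _).symm
          _ ≤ _ := mul_le_mul h4 h3 (by positivity) (by positivity)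
      rw [if_pos h1, if_pos h2]
    · rw [if_neg h1]
      exact zero_le
  · have hLr : ((K + (n + s) : ℕ) : ℝ) - ((K + n : ℕ) : ℝ) + 1 = s + 1 := by push_cast; ring
    have hLr' : ((K + (n + s) : ℕ) : ℝ) = (K + n : ℕ) + s := by push_cast; ring
    have hsr : ((s0 : ℕ) : ℝ) ≤ s := by exact_mod_cast hs
    have hnr : ((s : ℕ) : ℝ) ≤ ((K + n : ℕ) : ℝ) := by exact_mod_cast (by omega : s ≤ K + n)
    rw [hLr, mul_comm ((((K + n : ℕ) : ℝ) + 1) ^ (3 / 2 : ℝ))]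
    refine BadQ.num hC (by positivity) hε (Nat.cast_nonneg _) (Nat.cast_nonneg _)
      (Nat.cast_nonneg _) (hs0.trans hsr) ?_
    rw [hLr']
    linarith

end Pool.Agent.EN2
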