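import Mathlib
import Pool.Agent.Lib.MP_ec0ede_nt_EN2.Defs
import Pool.Agent.Lib.MP_ec0ede_nt_EN.ExB
import Pool.Agent.Lib.MP_ec0ede_nt_EN.VarA

set_option autoImplicit false

/-!
# MP_ec0ede_nt, project EN2, module VarB: second moment of a sum over subsets, general form
-/

noncomputable section

namespace Pool.Agent.EN2

open Real Filter Topology Finset Pool.Agent.EN

namespace VarB

open VarA

variable {ι : Type} [Fintype ι] [DecidableEq ι]

theorem exists_support (P : Finset ℕ) (m : ι → ℕ → ℝ) (h1 : ∀ i, ∑ p ∈ P, m i p = 1) :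
    ∃ τ : ι → ℕ, ∀ i, m i (τ i) ≠ 0 := by
  have h : ∀ i, ∃ p : ℕ, m i p ≠ 0 := by
    intro i
    by_contra hc
    push Not at hc
    have h2 := h1 i
    rw [sum_eq_zero fun p _ => hc p] at h2
    exact zero_ne_one h2
  choose τ hτ using h
  exact ⟨τ, hτ⟩

theorem sum_top' (k : ι → ℕ) (hk : Function.Injective k) (f : Finset ι → ℝ) (c : ι → ℝ)
    (hc : ∀ i, 0 ≤ c i) (h : ∀ i S, i ∈ S → (∀ j ∈ S, k j ≤ k i) → f S ≤ c i) :
    ∑ S, f S ≤ f ∅ + ∑ i, (2 : ℝ) ^ (bel k i).card * c i := by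
  classical
  have h1 : ∀ S : Finset ι, f S ≤ (if S = ∅ then f ∅ else 0) +
      ∑ i, if i ∈ S ∧ ∀ j ∈ S, k j ≤ k i then c i else 0 := by
    intro S
    have h0 : ∀ i ∈ (univ : Finset ι), 0 ≤ if i ∈ S ∧ ∀ j ∈ S, k j ≤ k i then c i else 0 := by
      intro i _
      split_ifs
      · exact hc i
      · exact le_rfl
    by_cases hS : S = ∅
    · rw [if_pos hS, hS]
      rw [hS] at h0
      linarith [sum_nonneg h0]
    · rw [if_neg hS, zero_add]
      obtain ⟨i, hi, hmax⟩ := exists_max_image S k (nonempty_iff_ne_empty.mpr hS)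
      refine le_trans ?_ (single_le_sum h0 (mem_univ i))
      rw [if_pos ⟨hi, hmax⟩]
      exact h i S hi hmax
  refine (sum_le_sum fun S _ => h1 S).trans ?_
  rw [sum_add_distrib, sum_ite_eq' univ ∅ (fun _ => f ∅), if_pos (mem_univ _), sum_comm]
  refine add_le_add le_rfl (sum_le_sum fun i _ => ?_)
  rw [← sum_filter, sum_const, nsmul_eq_mul]
  exact mul_le_mul_of_nonneg_right (card_top k hk i) (hc i)

end VarB

open VarA VarB

theorem second_gen {ι : Type} [Fintype ι] [DecidableEq ι] (P : Finset ℕ) (m : ι → ℕ → ℝ)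
    (lev : ι → ℕ) (hm : ∀ i p, 0 ≤ m i p) (h1 : ∀ i, ∑ p ∈ P, m i p = 1)
    (Φ : Finset ι → (ι → ℕ) → ℝ) (D1 G0 : ℝ) (e : ι → ℝ)
    (hdep : ∀ (I : Finset ι) (τ τ' : ι → ℕ), (∀ i ∈ I, τ i = τ' i) → Φ I τ = Φ I τ')
    (h0 : ∀ τ, Φ ∅ τ = 0)
    (hG : ∀ (I : Finset ι) (τ : ι → ℕ), (∀ i, m i (τ i) ≠ 0) → |Φ I τ| ≤ G0)
    (hD : ∀ (I : Finset ι), ∀ i ∈ I, (∀ i' ∈ I, lev i' ≤ lev i) → ∀ τ : ι → ℕ,
      (∀ i, m i (τ i) ≠ 0) → ∑ p ∈ P, m i p * |Φ I (Function.update τ i p)| ≤ D1 / 2 ^ lev i)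
    (he : ∀ (I : Finset ι), ∀ d ∈ I, ∀ τ : ι → ℕ, (∀ i, m i (τ i) ≠ 0) →
      |∑ p ∈ P, m d p * Φ I (Function.update τ d p)| ≤ e d / 2 ^ lev d) :
    Ex P m (fun τ => (∑ I : Finset ι, Φ I τ) ^ 2) ≤
      2 * D1 * (∑ i, e i * th lev i) * (∑ i, th lev i) + G0 * D1 * ∑ i, th lev i := by
  classical
  obtain ⟨τ0, hτ0⟩ := exists_support P m h1
  obtain ⟨k, hk, hk2⟩ := exists_key lev
  have hG0 : 0 ≤ G0 := (abs_nonneg _).trans (hG ∅ τ0 hτ0)
  set A : Finset ι → ℝ := fun S => Ex P m fun τ => |Φ S τ| with hA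
  set B : Finset ι → Finset ι → ℝ :=
    fun S S' => Ex P m fun τ => Φ S τ * Φ S' τ with hB
  set K : ℝ := ∑ i, e i * th lev i with hK
  set R : Finset ι → Finset ι → ℝ :=
    fun S S' => ∑ d, if Hi k d S S' then e d / 2 ^ lev d else 0 with hR
  have hA0 : ∀ S, 0 ≤ A S := fun S => Ex_nonneg P m hm _ fun τ _ => abs_nonneg _
  have hb0 : ∀ d, 0 ≤ e d / 2 ^ lev d := fun d =>
    (abs_nonneg _).trans (he {d} d (mem_singleton_self d) τ0 hτ0)
  have hc0 : ∀ i, 0 ≤ D1 / 2 ^ lev i := fun i =>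
    (sum_nonneg fun p _ => mul_nonneg (hm i p) (abs_nonneg _)).trans
      (hD {i} i (mem_singleton_self i) (fun i' hi' => by rw [mem_singleton.mp hi']) τ0 hτ0)
  have hAsum : ∑ S, A S ≤ D1 * ∑ i, th lev i := by
    refine (sum_top' k hk A (fun i => D1 / 2 ^ lev i) hc0 fun i S hi hmax => ?_).trans ?_
    · rw [hA]
      simp only
      rw [Ex_pivot P m h1 i]
      refine (Ex_mono P m hm _ (fun _ => D1 / 2 ^ lev i) ?_).trans (Ex_const P m h1 _).le
      intro τ hτ
      exact hD S i hi (fun i' hi' => hk2 _ _ (hmax i' hi')) τ fun j => (hτ j).2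
    · have h2 : A ∅ = 0 := by
        rw [hA]
        simp only
        have h3 : (fun τ : ι → ℕ => |Φ ∅ τ|) = fun _ => (0 : ℝ) := by
          funext τ
          rw [h0, abs_zero]
        rw [h3, Ex_const P m h1]
      rw [h2, zero_add, mul_sum]
      refine sum_le_sum fun i _ => ?_
      calc (2 : ℝ) ^ (bel k i).card * (D1 / 2 ^ lev i)
          ≤ 2 ^ nb lev i * (D1 / 2 ^ lev i) :=
            mul_le_mul_of_nonneg_right (pow_bel lev k hk2 i) (hc0 i)
        _ = D1 * th lev i := by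
            unfold th
            ring
  have hdiag : ∀ S, B S S ≤ G0 * A S := by
    intro S
    rw [hA, hB]
    simp only
    rw [← Ex_mul P m G0]
    refine Ex_mono P m hm _ _ fun τ hτ => ?_
    rw [← abs_mul_abs_self]
    exact mul_le_mul_of_nonneg_right (hG S τ fun j => (hτ j).2) (abs_nonneg _)
  have hoff : ∀ d S S', Hi k d S S' → |B S S'| ≤ e d / 2 ^ lev d * A S' := by
    intro d S S' h
    rw [hA, hB]
    simp only
    rw [← Ex_mul P m (e d / 2 ^ lev d), Ex_pivot P m h1 d]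
    refine (Ex_abs_le P m hm _).trans (Ex_mono P m hm _ _ fun τ hτ => ?_)
    have h2 : ∑ p ∈ P, m d p * (Φ S (Function.update τ d p) * Φ S' (Function.update τ d p)) =
        (∑ p ∈ P, m d p * Φ S (Function.update τ d p)) * Φ S' τ := by
      rw [sum_mul]
      refine sum_congr rfl fun p _ => ?_
      rw [hdep S' (Function.update τ d p) τ (fun i hi => ?_)]
      · ring
      · refine Function.update_of_ne ?_ _ _
        rintro rfl
        exact h.2.1 hi
    rw [h2, abs_mul]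
    exact mul_le_mul_of_nonneg_right (he S d h.1 τ fun j => (hτ j).2) (abs_nonneg _)
  have hBsymm : ∀ S S', B S S' = B S' S := by
    intro S S'
    rw [hB]
    simp only
    congr 1
    funext τ
    ring
  have hR0 : ∀ S S', 0 ≤ R S S' := by
    intro S S'
    refine sum_nonneg fun d _ => ?_
    split_ifs
    · exact hb0 d
    · exact le_rfl
  have hRle : ∀ d S S', Hi k d S S' → e d / 2 ^ lev d ≤ R S S' := by
    intro d S S' h
    have h0 : ∀ d ∈ (univ : Finset ι), 0 ≤ if Hi k d S S' then e d / 2 ^ lev d else 0 := by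
      intro d _
      split_ifs
      · exact hb0 d
      · exact le_rfl
    refine le_trans ?_ (single_le_sum h0 (mem_univ d))
    rw [if_pos h]
  have hRsum : ∀ S', ∑ S, R S S' ≤ K := by
    intro S'
    rw [hR, hK]
    simp only
    rw [sum_comm]
    refine sum_le_sum fun d _ => ?_
    rw [← sum_filter, sum_const, nsmul_eq_mul]
    calc ((univ.filter fun S : Finset ι => Hi k d S S').card : ℝ) * (e d / 2 ^ lev d)
        ≤ 2 ^ nb lev d * (e d / 2 ^ lev d) :=
          mul_le_mul_of_nonneg_right ((card_hi k hk d S').trans (pow_bel lev k hk2 d)) (hb0 d)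
      _ = e d * th lev d := by
          unfold th
          ring
  have hK0 : 0 ≤ K := (sum_nonneg fun S _ => hR0 S ∅).trans (hRsum ∅)
  have hpair : ∀ S S', B S S' ≤ (if S = S' then G0 * A S else 0) + (R S S' * A S' +
      R S' S * A S) := by
    intro S S'
    have h5 := mul_nonneg (hR0 S S') (hA0 S')
    have h6 := mul_nonneg (hR0 S' S) (hA0 S)
    by_cases h : S = S'
    · rw [if_pos h, ← h]
      rw [← h] at h5 h6
      linarith [hdiag S]
    · rw [if_neg h, zero_add]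
      obtain ⟨d, hd | hd⟩ := exists_hi k S S' h
      · have h7 := mul_le_mul_of_nonneg_right (hRle d S S' hd) (hA0 S')
        linarith [le_abs_self (B S S'), hoff d S S' hd]
      · have h7 := mul_le_mul_of_nonneg_right (hRle d S' S hd) (hA0 S)
        rw [hBsymm]
        linarith [le_abs_self (B S' S), hoff d S' S hd]
  have hexp : Ex P m (fun τ => (∑ S : Finset ι, Φ S τ) ^ 2) = ∑ S, ∑ S', B S S' := by
    have h2 : (fun τ : ι → ℕ => (∑ S : Finset ι, Φ S τ) ^ 2) =
        fun τ => ∑ S : Finset ι, ∑ S' : Finset ι, Φ S τ * Φ S' τ := by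
      funext τ
      rw [sq, sum_mul_sum]
    rw [h2, Ex_fsum P m univ
      (fun (S : Finset ι) τ => ∑ S' : Finset ι, Φ S τ * Φ S' τ)]
    refine sum_congr rfl fun S _ => ?_
    rw [Ex_fsum P m univ (fun (S' : Finset ι) τ => Φ S τ * Φ S' τ)]
  have hsum1 : ∑ S, ∑ S', (if S = S' then G0 * A S else 0) = G0 * ∑ S, A S := by
    rw [mul_sum]
    refine sum_congr rfl fun S _ => ?_
    rw [sum_ite_eq univ S (fun _ => G0 * A S), if_pos (mem_univ _)]
  have hsum3 : ∑ S, ∑ S', R S' S * A S ≤ K * ∑ S, A S := by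
    rw [mul_sum]
    refine sum_le_sum fun S _ => ?_
    rw [← sum_mul]
    exact mul_le_mul_of_nonneg_right (hRsum S) (hA0 S)
  have hsum2 : ∑ S, ∑ S', R S S' * A S' ≤ K * ∑ S, A S := by
    rw [sum_comm]
    exact hsum3
  rw [hexp]
  calc ∑ S, ∑ S', B S S'
      ≤ ∑ S, ∑ S', ((if S = S' then G0 * A S else 0) + (R S S' * A S' + R S' S * A S)) :=
        sum_le_sum fun S _ => sum_le_sum fun S' _ => hpair S S'
    _ = G0 * ∑ S, A S + (∑ S, ∑ S', R S S' * A S' + ∑ S, ∑ S', R S' S * A S) := by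
        simp only [sum_add_distrib]
        rw [hsum1]
    _ ≤ G0 * (D1 * ∑ i, th lev i) + (K * (D1 * ∑ i, th lev i) + K * (D1 * ∑ i, th lev i)) :=
        add_le_add (mul_le_mul_of_nonneg_left hAsum hG0)
          (add_le_add (hsum2.trans (mul_le_mul_of_nonneg_left hAsum hK0))
            (hsum3.trans (mul_le_mul_of_nonneg_left hAsum hK0)))
    _ = 2 * D1 * K * (∑ i, th lev i) + G0 * D1 * ∑ i, th lev i := by ring

end Pool.Agent.EN2
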