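import Mathlib
import Pool.Agent.Lib.MP_ec0ede_nt_EN2.Defs
import Pool.Agent.Lib.MP_ec0ede_nt_EN.LawA
import Pool.Agent.Lib.MP_ec0ede_nt_EN.LawB
import Pool.Agent.Lib.MP_ec0ede_nt_EN.LawC
import Pool.Agent.Lib.MP_ec0ede_nt_EN.LawD
import Pool.Agent.Lib.MP_ec0ede_nt_EN.TentF
import Pool.Agent.Lib.MP_ec0ede_nt_EN.ExB
import Pool.Agent.Lib.MP_ec0ede_nt_EN2.Rng
import Pool.Agent.Lib.MP_ec0ede_nt_EN2.VarB

set_option autoImplicit false

noncomputable section

namespace Pool.Agent.EN2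

open Real Filter Topology Finset Pool.Agent.EN

namespace TopD

/-- the smoothed window -/
def g1 (a : ℕ) (x : ℝ) : ℝ := tent (x / 2 ^ a - 1) / 2 ^ a

/-- the sharp window -/
def g2 (u x : ℝ) : ℝ := ind (0 ≤ x ∧ x < u) / u

lemma g1_nonneg (a : ℕ) (x : ℝ) : 0 ≤ g1 a x := div_nonneg (tent_nonneg _) (by positivity)

lemma g1_le (a : ℕ) (x : ℝ) : g1 a x ≤ 1 / 2 ^ a :=
  div_le_div_of_nonneg_right (tent_le_one _) (by positivity)

lemma g1_zero (a : ℕ) {x : ℝ} (h : ¬ (0 ≤ x ∧ x ≤ 2 * 2 ^ a)) : g1 a x = 0 := by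
  have ha : (0 : ℝ) < 2 ^ a := by positivity
  unfold g1
  rw [tent_eq_zero, zero_div]
  by_contra hc
  push Not at hc
  rw [abs_lt] at hc
  apply h
  constructor
  · by_contra hx
    push Not at hx
    have : x / 2 ^ a < 0 := div_neg_of_neg_of_pos hx ha
    linarith [hc.1]
  · have h2 : x / 2 ^ a ≤ 2 := by linarith [hc.2]
    rwa [div_le_iff₀ ha] at h2

lemma g2_nonneg {u : ℝ} (hu : 0 < u) (x : ℝ) : 0 ≤ g2 u x := div_nonneg (ind_nonneg _) hu.le

lemma g2_le {u : ℝ} (hu : 0 < u) (x : ℝ) : g2 u x ≤ 1 / u :=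
  div_le_div_of_nonneg_right (ind_le_one _) hu.le

variable {ι : Type} [Fintype ι] [DecidableEq ι]

/-- the summands -/
def Ph (a : ℕ) (u y : ℝ) (I : Finset ι) (τ : ι → ℕ) : ℝ :=
  g1 a (y - sz τ I) - g2 u (y - sz τ (I.filter fun i => u < Real.log (τ i)))

omit [Fintype ι] in
lemma sz_update_of_notMem (τ : ι → ℕ) (I : Finset ι) {i : ι} (hi : i ∉ I) (p : ℕ) :
    sz (Function.update τ i p) I = sz τ I := by
  unfold sz
  refine Finset.sum_congr rfl fun j hj => ?_
  rw [Function.update_of_ne]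
  rintro rfl
  exact hi hj

omit [Fintype ι] in
lemma sz_update (τ : ι → ℕ) (I : Finset ι) {i : ι} (hi : i ∈ I) (p : ℕ) :
    sz (Function.update τ i p) I = Real.log p + sz τ (I.erase i) := by
  rw [← sz_update_of_notMem τ (I.erase i) (Finset.notMem_erase i I) p]
  unfold sz
  rw [← Finset.add_sum_erase I _ hi, Function.update_self]

omit [Fintype ι] in
lemma filter_update (u : ℝ) (τ : ι → ℕ) (I : Finset ι) {i : ι} (hi : i ∈ I) (p : ℕ) :
    sz (Function.update τ i p) (I.filter fun j => u < Real.log (Function.update τ i p j)) =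
      (if u < Real.log p then Real.log p else 0) +
        sz τ ((I.erase i).filter fun j => u < Real.log (τ j)) := by
  have h1 : I.filter (fun j => u < Real.log (Function.update τ i p j)) =
      (if u < Real.log p then insert i ((I.erase i).filter fun j => u < Real.log (τ j)) else
        (I.erase i).filter fun j => u < Real.log (τ j)) := by
    ext j
    by_cases hj : j = i
    · subst hj
      by_cases hp : u < Real.log p
      · simp [hp, hi]
      · simp [hp]
    · by_cases hp : u < Real.log p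
      · simp [hp, hj]
      · simp [hp, hj]
  have hn : i ∉ (I.erase i).filter (fun j => u < Real.log (τ j)) := by simp
  rw [h1]
  by_cases hp : u < Real.log p
  · rw [if_pos hp, if_pos hp]
    rw [← sz_update_of_notMem τ _ hn p]
    unfold sz
    rw [Finset.sum_insert hn, Function.update_self]
  · rw [if_neg hp, if_neg hp, zero_add]
    exact sz_update_of_notMem τ _ hn p

omit [Fintype ι] in
/-- one coordinate: the sum of the absolute values -/
lemma one_abs (P : Finset ℕ) (m : ι → ℕ → ℝ) (lev : ι → ℕ) (D : ℝ) (hL : Laws P m lev D)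
    (a : ℕ) (u y : ℝ) (hu : (2 : ℝ) ^ a ≤ u)
    (hlow : ∀ i p, m i p ≠ 0 → Real.log p ≤ u → lev i ≤ a + (2 * mm + 2))
    (I : Finset ι) (i : ι) (hi : i ∈ I) (τ : ι → ℕ) :
    ∑ p ∈ P, m i p * |Ph a u y I (Function.update τ i p)| ≤
      (3 * D + 2 ^ (2 * mm + 2)) / 2 ^ lev i := by
  have ha : (0 : ℝ) < 2 ^ a := by positivity
  have hu0 : 0 < u := lt_of_lt_of_le ha hu
  have ha1 : (1 : ℝ) ≤ 2 ^ a := one_le_pow₀ (by norm_num)
  have hl0 : (0 : ℝ) < 2 ^ lev i := by positivity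
  set v : ℝ := y - sz τ (I.erase i) with hv
  set v' : ℝ := y - sz τ ((I.erase i).filter fun j => u < Real.log (τ j)) with hv'
  -- pointwise bound
  have hpt : ∀ p ∈ P, m i p * |Ph a u y I (Function.update τ i p)| ≤
      (if (v - 2 * 2 ^ a ≤ Real.log p ∧ Real.log p ≤ v - 2 * 2 ^ a + 2 * 2 ^ a) then m i p else 0)
        * (1 / 2 ^ a) +
      ((if (v' - u ≤ Real.log p ∧ Real.log p ≤ v' - u + u) then m i p else 0) * (1 / u) +
      m i p * (2 ^ (2 * mm + 2) / 2 ^ lev i)) := by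
    intro p _
    have hm := hL.nonneg i p
    have h1 : |Ph a u y I (Function.update τ i p)| ≤
        g1 a (v - Real.log p) +
        g2 u (v' - (if u < Real.log p then Real.log p else 0)) := by
      unfold Ph
      rw [sz_update τ I hi p, filter_update u τ I hi p]
      have e1 : y - (Real.log p + sz τ (I.erase i)) = v - Real.log p := by rw [hv]; ring
      have e2 : y - ((if u < Real.log p then Real.log p else 0) +
          sz τ ((I.erase i).filter fun j => u < Real.log (τ j))) =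
          v' - (if u < Real.log p then Real.log p else 0) := by rw [hv']; ring
      rw [e1, e2]
      refine (abs_sub _ _).trans ?_
      rw [abs_of_nonneg (g1_nonneg _ _), abs_of_nonneg (g2_nonneg hu0 _)]
    have h2 : m i p * g1 a (v - Real.log p) ≤
        (if (v - 2 * 2 ^ a ≤ Real.log p ∧ Real.log p ≤ v - 2 * 2 ^ a + 2 * 2 ^ a) then m i p else 0)
        * (1 / 2 ^ a) := by
      split
      · exact mul_le_mul_of_nonneg_left (g1_le _ _) hm
      · rename_i hc
        rw [g1_zero]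
        · simp
        · intro hh
          exact hc ⟨by linarith [hh.2], by linarith [hh.1]⟩
    have h3 : m i p * g2 u (v' - (if u < Real.log p then Real.log p else 0)) ≤
        ((if (v' - u ≤ Real.log p ∧ Real.log p ≤ v' - u + u) then m i p else 0) * (1 / u) +
      m i p * (2 ^ (2 * mm + 2) / 2 ^ lev i)) := by
      by_cases hp : u < Real.log p
      · rw [if_pos hp]
        have : 0 ≤ m i p * (2 ^ (2 * mm + 2) / 2 ^ lev i) := by positivity
        refine le_trans ?_ (le_add_of_nonneg_right this)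
        split
        · exact mul_le_mul_of_nonneg_left (g2_le hu0 _) hm
        · rename_i hc
          have : ¬ (0 ≤ v' - Real.log p ∧ v' - Real.log p < u) := by
            intro hh
            exact hc ⟨by linarith [hh.2], by linarith [hh.1]⟩
          unfold g2
          rw [ind_not_of this]
          simp
      · rw [if_neg hp]
        have h0 : 0 ≤ (if (v' - u ≤ Real.log p ∧ Real.log p ≤ v' - u + u) then m i p else 0) *
            (1 / u) := by
          split <;> positivity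
        refine le_trans ?_ (le_add_of_nonneg_left h0)
        by_cases hm0 : m i p = 0
        · rw [hm0]; simp
        · apply mul_le_mul_of_nonneg_left _ hm
          refine (g2_le hu0 _).trans ?_
          have hle := hlow i p hm0 (not_lt.mp hp)
          rw [div_le_div_iff₀ hu0 hl0, one_mul]
          calc (2 : ℝ) ^ lev i ≤ 2 ^ (a + (2 * mm + 2)) := pow_le_pow_right₀ (by norm_num) hle
            _ = 2 ^ (2 * mm + 2) * 2 ^ a := by rw [pow_add]; ring
            _ ≤ 2 ^ (2 * mm + 2) * u := by gcongr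
    calc m i p * |Ph a u y I (Function.update τ i p)| ≤
        m i p * (g1 a (v - Real.log p) + g2 u (v' - (if u < Real.log p then Real.log p else 0))) :=
          mul_le_mul_of_nonneg_left h1 hm
      _ = m i p * g1 a (v - Real.log p) +
          m i p * g2 u (v' - (if u < Real.log p then Real.log p else 0)) := by ring
      _ ≤ _ := add_le_add h2 h3
  refine (Finset.sum_le_sum hpt).trans ?_
  rw [Finset.sum_add_distrib, Finset.sum_add_distrib, ← Finset.sum_mul, ← Finset.sum_mul,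
    ← Finset.sum_mul, hL.mass i, ← Finset.sum_filter, ← Finset.sum_filter]
  have d1 := hL.dens i (v - 2 * 2 ^ a) (2 * 2 ^ a) (by linarith)
  have d2 := hL.dens i (v' - u) u (by linarith)
  have f1 : (∑ p ∈ P.filter (fun p : ℕ => v - 2 * 2 ^ a ≤ Real.log p ∧
      Real.log p ≤ v - 2 * 2 ^ a + 2 * 2 ^ a), m i p) * (1 / 2 ^ a) ≤ 2 * D / 2 ^ lev i := by
    calc _ ≤ (D * (2 * 2 ^ a) / 2 ^ lev i) * (1 / 2 ^ a) :=
          mul_le_mul_of_nonneg_right d1 (by positivity)
      _ = 2 * D / 2 ^ lev i := by field_simp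
  have f2 : (∑ p ∈ P.filter (fun p : ℕ => v' - u ≤ Real.log p ∧ Real.log p ≤ v' - u + u), m i p) *
      (1 / u) ≤ D / 2 ^ lev i := by
    calc _ ≤ (D * u / 2 ^ lev i) * (1 / u) := mul_le_mul_of_nonneg_right d2 (by positivity)
      _ = D / 2 ^ lev i := by field_simp
  have e : (3 * D + 2 ^ (2 * mm + 2)) / 2 ^ lev i =
      2 * D / 2 ^ lev i + (D / 2 ^ lev i + 1 * (2 ^ (2 * mm + 2) / 2 ^ lev i)) := by ring
  rw [e]
  exact add_le_add f1 (add_le_add f2 le_rfl)

omit [Fintype ι] in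
/-- one coordinate of a high level: the two densities are close -/
lemma one_diff (L l a : ℕ) (C1 C2 C3 ε E : ℝ) (u y : ℝ) (hu : 0 < u) (hE : 0 ≤ E)
    (hC1 : 0 < C1) (hC2 : 0 < C2) (hC3 : 0 < C3)
    (hu2 : u ≤ (2 : ℝ) ^ (a + mm + 2))
    (hT : ∀ v : ℝ, |∑ p ∈ range (bd L), mu l p * tent ((v - Real.log p) / 2 ^ a - 1) -
      2 ^ a * psi (v / 2 ^ l) / 2 ^ l| ≤ 2 ^ a / 2 ^ l * (ε / 2 + C1 * 2 ^ a / 2 ^ l))
    (hM : ∀ b : ℝ, |mass l (b - u) b - u * psi ((b - u) / 2 ^ l) / 2 ^ l| ≤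
      u / 2 ^ l * (ε / 2 + C2 * u / 2 ^ l))
    (hlip : ∀ x y : ℝ, |psi x - psi y| ≤ C3 * |x - y|) (hlL : l ≤ L)
    (hlarge : ∀ p, mu l p ≠ 0 → u < Real.log p)
    (I : Finset ι) (d : ι) (hd : d ∈ I) (τ : ι → ℕ)
    (hsmall : 0 ≤ sz τ ((I.erase d).filter fun j => ¬ u < Real.log (τ j)) ∧
      sz τ ((I.erase d).filter fun j => ¬ u < Real.log (τ j)) ≤ E * u) :
    |∑ p ∈ range (bd L), mu l p * Ph a u y I (Function.update τ d p)| ≤
      (ε + (C1 + (C2 + C3) * 2 ^ (mm + 2)) * (1 + E) * (2 ^ a / 2 ^ l)) / 2 ^ l := by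
  have ha : (0 : ℝ) < 2 ^ a := by positivity
  have hl0 : (0 : ℝ) < 2 ^ l := by positivity
  set v : ℝ := y - sz τ (I.erase d) with hv
  set v' : ℝ := y - sz τ ((I.erase d).filter fun j => u < Real.log (τ j)) with hv'
  have hvv : v' - v = sz τ ((I.erase d).filter fun j => ¬ u < Real.log (τ j)) := by
    rw [hv, hv']
    unfold sz
    rw [← Finset.sum_filter_add_sum_filter_not (I.erase d) (fun j => u < Real.log (τ j))]
    ring
  have hsum : ∑ p ∈ range (bd L), mu l p * Ph a u y I (Function.update τ d p) =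
      (∑ p ∈ range (bd L), mu l p * tent ((v - Real.log p) / 2 ^ a - 1)) / 2 ^ a -
      mass l (v' - u) v' / u := by
    rw [mass_eq hlL, Finset.sum_div, Finset.sum_div, ← Finset.sum_sub_distrib]
    refine Finset.sum_congr rfl fun p _ => ?_
    by_cases hm : mu l p = 0
    · rw [hm]; simp
    · have hp := hlarge p hm
      unfold Ph
      rw [sz_update τ I hd p, filter_update u τ I hd p, if_pos hp]
      have e1 : y - (Real.log p + sz τ (I.erase d)) = v - Real.log p := by rw [hv]; ring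
      have e2 : y - (Real.log p + sz τ ((I.erase d).filter fun j => u < Real.log (τ j))) =
          v' - Real.log p := by rw [hv']; ring
      rw [e1, e2]
      unfold g1 g2
      have e3 : ind (0 ≤ v' - Real.log p ∧ v' - Real.log p < u) =
          ind (v' - u < Real.log p ∧ Real.log p ≤ v') := by
        apply ind_congr
        constructor
        · rintro ⟨h1, h2⟩; exact ⟨by linarith, by linarith⟩
        · rintro ⟨h1, h2⟩; exact ⟨by linarith, by linarith⟩
      rw [e3]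
      ring
  have k1 := hT v
  have k2 := hM v'
  have k3 := hlip (v / 2 ^ l) ((v' - u) / 2 ^ l)
  -- first estimate
  have m1 : |(∑ p ∈ range (bd L), mu l p * tent ((v - Real.log p) / 2 ^ a - 1)) / 2 ^ a -
      psi (v / 2 ^ l) / 2 ^ l| ≤ (ε / 2 + C1 * 2 ^ a / 2 ^ l) / 2 ^ l := by
    have e : (∑ p ∈ range (bd L), mu l p * tent ((v - Real.log p) / 2 ^ a - 1)) / 2 ^ a -
      psi (v / 2 ^ l) / 2 ^ l = (∑ p ∈ range (bd L), mu l p * tent ((v - Real.log p) / 2 ^ a - 1) -
      2 ^ a * psi (v / 2 ^ l) / 2 ^ l) / 2 ^ a := by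
      field_simp
    rw [e, abs_div, abs_of_pos ha, div_le_iff₀ ha]
    refine k1.trans (le_of_eq ?_)
    ring
  have m2 : |mass l (v' - u) v' / u - psi ((v' - u) / 2 ^ l) / 2 ^ l| ≤
      (ε / 2 + C2 * u / 2 ^ l) / 2 ^ l := by
    have e : mass l (v' - u) v' / u - psi ((v' - u) / 2 ^ l) / 2 ^ l =
        (mass l (v' - u) v' - u * psi ((v' - u) / 2 ^ l) / 2 ^ l) / u := by
      field_simp
    rw [e, abs_div, abs_of_pos hu, div_le_iff₀ hu]
    refine k2.trans (le_of_eq ?_)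
    ring
  have m3 : |psi (v / 2 ^ l) / 2 ^ l - psi ((v' - u) / 2 ^ l) / 2 ^ l| ≤
      (C3 * ((1 + E) * u) / 2 ^ l) / 2 ^ l := by
    rw [← sub_div, abs_div, abs_of_pos hl0]
    apply div_le_div_of_nonneg_right _ hl0.le
    refine k3.trans ?_
    rw [← sub_div, abs_div, abs_of_pos hl0, mul_div_assoc]
    apply mul_le_mul_of_nonneg_left _ hC3.le
    apply div_le_div_of_nonneg_right _ hl0.le
    rw [abs_le]
    constructor
    · nlinarith [hsmall.1, hsmall.2, hvv]
    · nlinarith [hsmall.1, hsmall.2, hvv, mul_nonneg hE hu.le]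
  rw [hsum]
  have tri : |(∑ p ∈ range (bd L), mu l p * tent ((v - Real.log p) / 2 ^ a - 1)) / 2 ^ a -
      mass l (v' - u) v' / u| ≤ (ε / 2 + C1 * 2 ^ a / 2 ^ l) / 2 ^ l +
        (C3 * ((1 + E) * u) / 2 ^ l) / 2 ^ l + (ε / 2 + C2 * u / 2 ^ l) / 2 ^ l := by
    have e : (∑ p ∈ range (bd L), mu l p * tent ((v - Real.log p) / 2 ^ a - 1)) / 2 ^ a -
      mass l (v' - u) v' / u =
      ((∑ p ∈ range (bd L), mu l p * tent ((v - Real.log p) / 2 ^ a - 1)) / 2 ^ a -
        psi (v / 2 ^ l) / 2 ^ l) +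
      (psi (v / 2 ^ l) / 2 ^ l - psi ((v' - u) / 2 ^ l) / 2 ^ l) +
      (psi ((v' - u) / 2 ^ l) / 2 ^ l - mass l (v' - u) v' / u) := by ring
    rw [e]
    refine (abs_add_three _ _ _).trans ?_
    refine add_le_add (add_le_add m1 m3) ?_
    rw [abs_sub_comm]
    exact m2
  refine tri.trans ?_
  have hu3 : u ≤ 2 ^ (mm + 2) * 2 ^ a := by
    refine hu2.trans (le_of_eq ?_)
    rw [← pow_add]
    congr 1
    omega
  have hC1' : C1 * 2 ^ a / 2 ^ l ≤ C1 * (1 + E) * (2 ^ a / 2 ^ l) := by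
    calc C1 * 2 ^ a / 2 ^ l = C1 * 1 * (2 ^ a / 2 ^ l) := by ring
      _ ≤ C1 * (1 + E) * (2 ^ a / 2 ^ l) := by
        gcongr
        linarith
  have hC2' : C2 * u / 2 ^ l ≤ C2 * 2 ^ (mm + 2) * (1 + E) * (2 ^ a / 2 ^ l) := by
    calc C2 * u / 2 ^ l ≤ C2 * (2 ^ (mm + 2) * 2 ^ a) / 2 ^ l := by gcongr
      _ = C2 * 2 ^ (mm + 2) * 1 * (2 ^ a / 2 ^ l) := by ring
      _ ≤ C2 * 2 ^ (mm + 2) * (1 + E) * (2 ^ a / 2 ^ l) := by
        gcongr
        linarith
  have hC3' : C3 * ((1 + E) * u) / 2 ^ l ≤ C3 * 2 ^ (mm + 2) * (1 + E) * (2 ^ a / 2 ^ l) := by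
    calc C3 * ((1 + E) * u) / 2 ^ l ≤ C3 * ((1 + E) * (2 ^ (mm + 2) * 2 ^ a)) / 2 ^ l := by gcongr
      _ = _ := by ring
  rw [← add_div, ← add_div]
  apply div_le_div_of_nonneg_right _ hl0.le
  calc ε / 2 + C1 * 2 ^ a / 2 ^ l + C3 * ((1 + E) * u) / 2 ^ l + (ε / 2 + C2 * u / 2 ^ l) ≤
      ε / 2 + C1 * (1 + E) * (2 ^ a / 2 ^ l) + C3 * 2 ^ (mm + 2) * (1 + E) * (2 ^ a / 2 ^ l) +
        (ε / 2 + C2 * 2 ^ (mm + 2) * (1 + E) * (2 ^ a / 2 ^ l)) :=
        add_le_add (add_le_add (add_le_add le_rfl hC1') hC3') (add_le_add le_rfl hC2')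
    _ = _ := by ring

lemma card_low {s : ℕ} (ν : Fin s → ℕ) (n : ℕ) :
    (univ.filter (fun j : Idx ν => (j.1 : ℕ) < n)).card = cnt ν n := by
  rw [Finset.card_filter]
  unfold cnt
  have h := Fintype.sum_sigma (fun j : Idx ν => if (j.1 : ℕ) < n then 1 else 0)
  rw [h]
  refine Finset.sum_congr rfl ?_
  intro l _
  by_cases hl : (l : ℕ) < n
  · simp [hl]
  · simp [hl]

end TopD

theorem top_sq : ∃ D1 : ℝ, 1 ≤ D1 ∧ ∀ ε : ℝ, 0 < ε → ∃ a00 : ℕ,
    ∀ (a0 s L S E : ℕ) (u : ℝ) (ν : Fin s → ℕ), a00 ≤ a0 → a0 + s ≤ L → 1 ≤ S →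
    (2 : ℝ) ^ (a0 + mm + 1) ≤ u → u ≤ 2 ^ (a0 + mm + 2) → cnt ν (2 * mm + 2) ≤ E →
    EX L a0 ν (fun τ => (RA a0 (2 ^ S * u) τ / 2 ^ a0 - RB S u τ / u) ^ 2) ≤
      2 * D1 * (∑ i, (if lv a0 ν i ≤ a0 + (2 * mm + 2) then D1 else
        ε + D1 * (1 + E) * (2 ^ a0 / 2 ^ lv a0 ν i)) * th (lv a0 ν) i) *
        (∑ i, th (lv a0 ν) i) +
      2 / 2 ^ a0 * D1 * ∑ i, th (lv a0 ν) i := by
  obtain ⟨D, hD1, hlaws⟩ := laws_mu
  obtain ⟨C1, hC1, htent⟩ := tent_flat
  obtain ⟨C2, hC2, hmass⟩ := mass_flat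
  obtain ⟨C3, hC3, hlip⟩ := psi_lip
  set D1 : ℝ := 3 * D + 2 ^ (2 * mm + 2) + (C1 + (C2 + C3) * 2 ^ (mm + 2)) with hD1def
  have hA : 0 ≤ C1 + (C2 + C3) * 2 ^ (mm + 2) := by positivity
  have hB : (0 : ℝ) ≤ 2 ^ (2 * mm + 2) := by positivity
  refine ⟨D1, by linarith, ?_⟩
  intro ε hε
  obtain ⟨b1, hb1⟩ := htent (ε / 2) (by positivity)
  obtain ⟨b2, hb2⟩ := hmass (ε / 2) 1 (by positivity) one_pos
  refine ⟨max b1 b2, ?_⟩
  intro a0 s L S E u ν ha0 hL hS hu1 hu2 hE
  have hb1' : b1 ≤ a0 := le_trans (le_max_left _ _) ha0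
  have hb2' : b2 ≤ a0 := le_trans (le_max_right _ _) ha0
  have ha : (0 : ℝ) < 2 ^ a0 := by positivity
  have ha1 : (1 : ℝ) ≤ 2 ^ a0 := one_le_pow₀ (by norm_num)
  have hua : (2 : ℝ) ^ a0 * 4 ≤ u := by
    refine le_trans ?_ hu1
    calc (2 : ℝ) ^ a0 * 4 = 2 ^ (a0 + 2) := by rw [pow_add]; norm_num
      _ ≤ 2 ^ (a0 + mm + 1) := pow_le_pow_right₀ (by norm_num) (by have := mm_pos; omega)
  have hua' : (2 : ℝ) ^ a0 ≤ u := by linarith
  have hu0 : 0 < u := by linarith
  have hlev : ∀ i : Idx ν, 1 ≤ lv a0 ν i ∧ lv a0 ν i ≤ L := by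
    intro i
    have := i.1.isLt
    unfold lv
    omega
  have laws := hlaws (Idx ν) L (lv a0 ν) hlev
  have hlow : ∀ (i : Idx ν) (p : ℕ), mu (lv a0 ν i) p ≠ 0 → Real.log p ≤ u →
      lv a0 ν i ≤ a0 + (2 * mm + 2) := by
    intro i p hm hp
    exact lab_low hu2 hp hm
  have hfun : (fun τ : Idx ν → ℕ => (RA a0 (2 ^ S * u) τ / 2 ^ a0 - RB S u τ / u) ^ 2) =
      fun τ => (∑ I : Finset (Idx ν), TopD.Ph a0 u (2 ^ S * u) I τ) ^ 2 := by
    funext τ
    congr 1
    unfold TopD.Ph TopD.g1 TopD.g2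
    rw [Finset.sum_sub_distrib]
    congr 1
    · unfold RA
      rw [Finset.sum_div]
    · unfold RB
      rw [Finset.sum_div]
  -- the number of coordinates which are not large
  have hcount : ∀ (τ : Idx ν → ℕ), (∀ i, mu (lv a0 ν i) (τ i) ≠ 0) →
      ∀ J : Finset (Idx ν), 0 ≤ sz τ (J.filter fun j => ¬ u < Real.log (τ j)) ∧
      sz τ (J.filter fun j => ¬ u < Real.log (τ j)) ≤ E * u := by
    intro τ hτ J
    constructor
    · unfold sz
      exact Finset.sum_nonneg fun i _ => (laws.supp i (τ i) (hτ i)).1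
    · have h1 : sz τ (J.filter fun j => ¬ u < Real.log (τ j)) ≤
          ((J.filter fun j => ¬ u < Real.log (τ j)).card : ℝ) * u := by
        unfold sz
        rw [← nsmul_eq_mul]
        apply Finset.sum_le_card_nsmul
        intro i hi
        exact not_lt.mp (Finset.mem_filter.mp hi).2
      refine h1.trans ?_
      apply mul_le_mul_of_nonneg_right _ hu0.le
      refine le_trans ?_ (Nat.cast_le.mpr hE)
      have h2 : (J.filter fun j => ¬ u < Real.log (τ j)) ⊆
          univ.filter (fun j : Idx ν => (j.1 : ℕ) < 2 * mm + 2) := by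
        intro j hj
        have h3 := hlow j (τ j) (hτ j) (not_lt.mp (Finset.mem_filter.mp hj).2)
        simp only [Finset.mem_filter, Finset.mem_univ, true_and]
        unfold lv at h3
        omega
      have h4 := TopD.card_low ν (2 * mm + 2)
      rw [← h4]
      exact_mod_cast Finset.card_le_card h2
  have hDa : ∀ (I : Finset (Idx ν)), ∀ i ∈ I, ∀ τ : Idx ν → ℕ,
      ∑ p ∈ range (bd L), mu (lv a0 ν i) p * |TopD.Ph a0 u (2 ^ S * u) I (Function.update τ i p)| ≤
        D1 / 2 ^ lv a0 ν i := by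
    intro I i hi τ
    refine (TopD.one_abs (range (bd L)) (fun i => mu (lv a0 ν i)) (lv a0 ν) D laws a0 u
      (2 ^ S * u) hua' hlow I i hi τ).trans ?_
    apply div_le_div_of_nonneg_right _ (by positivity)
    linarith
  unfold EX
  rw [hfun]
  refine (second_gen (range (bd L)) (fun i => mu (lv a0 ν i)) (lv a0 ν)
    (fun i p => mu_nonneg _ _) laws.mass (TopD.Ph a0 u (2 ^ S * u)) D1 (2 / 2 ^ a0)
    (fun i => if lv a0 ν i ≤ a0 + (2 * mm + 2) then D1 else
        ε + D1 * (1 + E) * (2 ^ a0 / 2 ^ lv a0 ν i)) ?_ ?_ ?_ ?_ ?_).trans le_rfl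
  · -- hdep
    intro I τ τ' h
    have e1 : sz τ I = sz τ' I := by
      unfold sz
      exact Finset.sum_congr rfl fun i hi => by rw [h i hi]
    have e2 : I.filter (fun i => u < Real.log (τ i)) = I.filter (fun i => u < Real.log (τ' i)) :=
      Finset.filter_congr fun i hi => by rw [h i hi]
    have e3 : sz τ (I.filter (fun i => u < Real.log (τ i))) =
        sz τ' (I.filter (fun i => u < Real.log (τ' i))) := by
      rw [e2]
      unfold sz
      exact Finset.sum_congr rfl fun i hi => by rw [h i (Finset.mem_filter.mp hi).1]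
    unfold TopD.Ph
    rw [e1, e3]
  · -- h0
    intro τ
    have h2S : (2 : ℝ) ≤ 2 ^ S := by
      calc (2 : ℝ) = 2 ^ 1 := by norm_num
        _ ≤ 2 ^ S := pow_le_pow_right₀ (by norm_num) hS
    have hy : 2 * u ≤ 2 ^ S * u := by gcongr
    unfold TopD.Ph
    have hs : sz τ (∅ : Finset (Idx ν)) = 0 := by simp [sz]
    rw [Finset.filter_empty, hs, sub_zero, TopD.g1_zero]
    · unfold TopD.g2
      rw [ind_not_of]
      · simp
      · intro h
        linarith [h.2]
    · intro h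
      linarith [h.2]
  · -- hG
    intro I τ _
    unfold TopD.Ph
    refine (abs_sub _ _).trans ?_
    rw [abs_of_nonneg (TopD.g1_nonneg _ _), abs_of_nonneg (TopD.g2_nonneg hu0 _)]
    have h1 := TopD.g1_le a0 (2 ^ S * u - sz τ I)
    have h2 := TopD.g2_le hu0 (2 ^ S * u - sz τ (I.filter fun i => u < Real.log (τ i)))
    have h3 : 1 / u ≤ 1 / (2 : ℝ) ^ a0 := one_div_le_one_div_of_le ha hua'
    have h4 : (2 : ℝ) / 2 ^ a0 = 1 / 2 ^ a0 + 1 / 2 ^ a0 := by ring
    rw [h4]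
    linarith
  · -- hD
    intro I i hi _ τ _
    exact hDa I i hi τ
  · -- he
    intro I d hd τ hτ
    by_cases hc : lv a0 ν d ≤ a0 + (2 * mm + 2)
    · simp only [if_pos hc]
      refine le_trans ?_ (hDa I d hd τ)
      refine (Finset.abs_sum_le_sum_abs _ _).trans (le_of_eq ?_)
      refine Finset.sum_congr rfl fun p _ => ?_
      rw [abs_mul, abs_of_nonneg (mu_nonneg _ _)]
    · simp only [if_neg hc]
      have hlL := (hlev d).2
      have hal : a0 ≤ lv a0 ν d := by unfold lv; omega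
      have hu1' : 1 ≤ u := le_trans ha1 hua'
      refine (TopD.one_diff L (lv a0 ν d) a0 C1 C2 C3 ε E u (2 ^ S * u) hu0 (Nat.cast_nonneg _)
        hC1 hC2 hC3 hu2 (fun v => hb1 a0 (lv a0 ν d) L hb1' hal hlL v) ?_ hlip hlL ?_ I d hd τ
        (hcount τ hτ (I.erase d))).trans ?_
      · intro b
        have := hb2 (lv a0 ν d) (le_trans hb2' hal) (b - u) b (by linarith)
        have e : b - (b - u) = u := by ring
        rw [e] at this
        exact this
      · intro p hp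
        by_contra hcon
        exact hc (hlow d p hp (not_lt.mp hcon))
      · apply div_le_div_of_nonneg_right _ (by positivity)
        have h0 : (0 : ℝ) ≤ (1 + E) * (2 ^ a0 / 2 ^ lv a0 ν d) := by positivity
        have h1 : C1 + (C2 + C3) * 2 ^ (mm + 2) ≤ D1 := by linarith
        nlinarith [mul_le_mul_of_nonneg_right h1 h0]

end Pool.Agent.EN2
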