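import Mathlib
import Pool.Agent.Lib.MP_ec0ede_nt_EN2.Defs
import Pool.Agent.Lib.MP_ec0ede_nt_EN.LawA
import Pool.Agent.Lib.MP_ec0ede_nt_EN.LawB
import Pool.Agent.Lib.MP_ec0ede_nt_EN.LawC
import Pool.Agent.Lib.MP_ec0ede_nt_EN.VarA
import Pool.Agent.Lib.MP_ec0ede_nt_EN.ExB
import Pool.Agent.Lib.MP_ec0ede_nt_EN.ThS
import Pool.Agent.Lib.MP_ec0ede_nt_EN.Spl
import Pool.Agent.Lib.MP_ec0ede_nt_EN.Path
import Pool.Agent.Lib.MP_ec0ede_nt_EN.Comp
import Pool.Agent.Lib.MP_ec0ede_nt_EN.KeyC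
import Pool.Agent.Lib.MP_ec0ede_nt_EN2.Rng
import Pool.Agent.Lib.MP_ec0ede_nt_EN2.VolC
import Pool.Agent.Lib.MP_ec0ede_nt_EN2.TopD
import Pool.Agent.Lib.MP_ec0ede_nt_EN2.DomP

set_option autoImplicit false

/-!
# MP_ec0ede_nt, project EN2, module CmpD: the smooth and the sharp main terms
-/

noncomputable section

namespace Pool.Agent.EN2

open Real Filter Topology Finset Pool.Agent.EN

namespace CmpD

theorem exp_diff {a b : ℝ} (ha : 0 ≤ a) (hb : 0 ≤ b) :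
    |Real.exp (-a) - Real.exp (-b)| ≤ |a - b| := by
  have key : ∀ x y : ℝ, 0 ≤ x → x ≤ y → |Real.exp (-x) - Real.exp (-y)| ≤ |x - y| := by
    intro x y hx hxy
    have h1 : Real.exp (-y) ≤ Real.exp (-x) := Real.exp_le_exp.2 (by linarith)
    rw [abs_of_nonneg (by linarith), abs_of_nonpos (by linarith : x - y ≤ 0)]
    have h2 : Real.exp (-y) = Real.exp (-x) * Real.exp (x - y) := by
      rw [← Real.exp_add]; congr 1; ring
    have h3 : x - y + 1 ≤ Real.exp (x - y) := Real.add_one_le_exp _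
    have h4 : Real.exp (-x) ≤ 1 := Real.exp_le_one_iff.2 (by linarith)
    have h5 := Real.exp_pos (-x)
    nlinarith [mul_nonneg h5.le (sub_nonneg.2 h3),
      mul_nonneg (sub_nonneg.2 h4) (sub_nonneg.2 hxy)]
  rcases le_total a b with h | h
  · exact key a b ha h
  · rw [abs_sub_comm, abs_sub_comm a b]
    exact key b a hb h

/-- the difference of the two main terms -/
theorem core (f K n s S b N : ℕ) {y u : ℝ} (hu : 0 < u) (νC : Fin K → ℕ) (νA : Fin s → ℕ) :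
    |PrC f K n s y νC N νA - PrD f K n s S b u νC N νA| ≤
      2 ^ N * (EX (K + (n + s)) 0 νC (fun τ => vb b f τ - vol (TW f τ)) *
          EX (K + (n + s)) (K + n) νA (fun τ' => RA (K + n) y τ' / 2 ^ (K + n)) +
        (f.divisors.card * 2 ^ cnt νC K) *
          EX (K + (n + s)) (K + n) νA (fun τ' =>
            |RA (K + n) y τ' / 2 ^ (K + n) - RB S u τ' / u|)) := by
  classical
  have hp : (0 : ℝ) < 2 ^ (K + n) := by positivity
  have hp0 : (0 : ℝ) < 2 ^ N := by positivity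
  have hC0 : ∀ (i : Idx νC) (p : ℕ), 0 ≤ mu (lv 0 νC i) p := fun _ _ => mu_nonneg _ _
  have hA0 : ∀ (i : Idx νA) (p : ℕ), 0 ≤ mu (lv (K + n) νA i) p := fun _ _ => mu_nonneg _ _
  have hC1 : ∀ i : Idx νC, ∑ p ∈ range (bd (K + (n + s))), mu (lv 0 νC i) p = 1 := fun i =>
    KeyC.EX_mass νC (by omega) i
  set R : ℝ := EX (K + (n + s)) (K + n) νA (fun τ' => RA (K + n) y τ' / 2 ^ (K + n)) with hR
  set W : ℝ := EX (K + (n + s)) (K + n) νA (fun τ' =>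
            |RA (K + n) y τ' / 2 ^ (K + n) - RB S u τ' / u|) with hW
  have hW0 : 0 ≤ W := Ex_nonneg _ _ hA0 _ fun _ _ => abs_nonneg _
  have hρ0 : ∀ τ' : Idx νA → ℕ, 0 ≤ RA (K + n) y τ' / 2 ^ (K + n) := fun τ' =>
    div_nonneg (Key.RA_nonneg _ _ _) hp.le
  have hσ0 : ∀ τ' : Idx νA → ℕ, 0 ≤ RB S u τ' / u := fun τ' =>
    div_nonneg (RB_nonneg _ _ _) hu.le
  have hV0 : ∀ τ : Idx νC → ℕ, 0 ≤ vb b f τ := fun τ => vb_nonneg _ _ _
  have hVV : ∀ τ : Idx νC → ℕ, vol (TW f τ) ≤ vb b f τ := fun τ => vol_TW_le _ _ _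
  have hU0 : ∀ τ : Idx νC → ℕ, 0 ≤ vol (TW f τ) := fun τ => Key.vol_nonneg _
  -- the inequality for a fixed tuple
  have h1 : ∀ τ : Idx νC → ℕ,
      |ind (Inj f τ) * EX (K + (n + s)) (K + n) νA (fun τ' =>
          1 - Real.exp (-(RA (K + n) y τ' / 2 ^ (K + n) * 2 ^ N * vol (TW f τ)))) -
        ind (Inj f τ) * EX (K + (n + s)) (K + n) νA (fun τ' =>
          1 - Real.exp (-(RB S u τ' / u * 2 ^ N * vb b f τ)))| ≤
      2 ^ N * R * (vb b f τ - vol (TW f τ)) + 2 ^ N * W * (f.divisors.card * 2 ^ cnt νC K) := by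
    intro τ
    have hcard : vb b f τ ≤ f.divisors.card * 2 ^ cnt νC K := by
      have := vb_le b f τ
      rwa [card_Idx] at this
    rw [← mul_sub, abs_mul, abs_of_nonneg (ind_nonneg _)]
    have e1 : |EX (K + (n + s)) (K + n) νA (fun τ' =>
          1 - Real.exp (-(RA (K + n) y τ' / 2 ^ (K + n) * 2 ^ N * vol (TW f τ)))) -
        EX (K + (n + s)) (K + n) νA (fun τ' =>
          1 - Real.exp (-(RB S u τ' / u * 2 ^ N * vb b f τ)))| ≤
        2 ^ N * (vb b f τ - vol (TW f τ)) * R + 2 ^ N * vb b f τ * W := by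
      rw [hR, hW]
      unfold EX
      rw [← Ex_sub, ← Ex_mul, ← Ex_mul, ← Ex_add]
      refine (Ex_abs_le _ _ hA0 _).trans (Ex_mono _ _ hA0 _ _ fun τ' _ => ?_)
      have h2 : 1 - Real.exp (-(RA (K + n) y τ' / 2 ^ (K + n) * 2 ^ N * vol (TW f τ))) -
          (1 - Real.exp (-(RB S u τ' / u * 2 ^ N * vb b f τ))) =
          Real.exp (-(RB S u τ' / u * 2 ^ N * vb b f τ)) -
          Real.exp (-(RA (K + n) y τ' / 2 ^ (K + n) * 2 ^ N * vol (TW f τ))) := by ring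
      rw [h2]
      refine (exp_diff (mul_nonneg (mul_nonneg (hσ0 τ') hp0.le) (hV0 τ))
        (mul_nonneg (mul_nonneg (hρ0 τ') hp0.le) (hU0 τ))).trans ?_
      set ρ := RA (K + n) y τ' / 2 ^ (K + n)
      set σ := RB S u τ' / u
      have h3 : σ * 2 ^ N * vb b f τ - ρ * 2 ^ N * vol (TW f τ) =
          2 ^ N * (vb b f τ - vol (TW f τ)) * ρ + 2 ^ N * vb b f τ * (σ - ρ) := by ring
      rw [h3]
      refine (abs_add_le _ _).trans ?_
      have h4 : |2 ^ N * (vb b f τ - vol (TW f τ)) * ρ| =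
          2 ^ N * (vb b f τ - vol (TW f τ)) * ρ :=
        abs_of_nonneg (mul_nonneg (mul_nonneg hp0.le (sub_nonneg.2 (hVV τ))) (hρ0 τ'))
      have h5 : |2 ^ N * vb b f τ * (σ - ρ)| = 2 ^ N * vb b f τ * |ρ - σ| := by
        rw [abs_mul, abs_of_nonneg (mul_nonneg hp0.le (hV0 τ)), abs_sub_comm]
      rw [h4, h5]
    have e2 := abs_nonneg (EX (K + (n + s)) (K + n) νA (fun τ' =>
          1 - Real.exp (-(RA (K + n) y τ' / 2 ^ (K + n) * 2 ^ N * vol (TW f τ)))) -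
        EX (K + (n + s)) (K + n) νA (fun τ' =>
          1 - Real.exp (-(RB S u τ' / u * 2 ^ N * vb b f τ))))
    calc ind (Inj f τ) * _ ≤ 1 * _ := mul_le_mul_of_nonneg_right (ind_le_one _) e2
      _ = _ := one_mul _
      _ ≤ _ := e1
      _ ≤ 2 ^ N * (vb b f τ - vol (TW f τ)) * R +
          2 ^ N * (f.divisors.card * 2 ^ cnt νC K) * W := by
          have : 2 ^ N * vb b f τ * W ≤ 2 ^ N * (f.divisors.card * 2 ^ cnt νC K) * W :=
            mul_le_mul_of_nonneg_right (mul_le_mul_of_nonneg_left hcard hp0.le) hW0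
          linarith
      _ = _ := by ring
  unfold PrC PrD
  have h6 : |EX (K + (n + s)) 0 νC (fun τ => ind (Inj f τ) *
        EX (K + (n + s)) (K + n) νA (fun τ' =>
          1 - Real.exp (-(RA (K + n) y τ' / 2 ^ (K + n) * 2 ^ N * vol (TW f τ))))) -
      EX (K + (n + s)) 0 νC (fun τ => ind (Inj f τ) *
        EX (K + (n + s)) (K + n) νA (fun τ' =>
          1 - Real.exp (-(RB S u τ' / u * 2 ^ N * vb b f τ))))| ≤
      EX (K + (n + s)) 0 νC (fun τ => 2 ^ N * R * (vb b f τ - vol (TW f τ)) +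
        2 ^ N * W * (f.divisors.card * 2 ^ cnt νC K)) := by
    have h7 : EX (K + (n + s)) 0 νC (fun τ => ind (Inj f τ) *
        EX (K + (n + s)) (K + n) νA (fun τ' =>
          1 - Real.exp (-(RA (K + n) y τ' / 2 ^ (K + n) * 2 ^ N * vol (TW f τ))))) -
      EX (K + (n + s)) 0 νC (fun τ => ind (Inj f τ) *
        EX (K + (n + s)) (K + n) νA (fun τ' =>
          1 - Real.exp (-(RB S u τ' / u * 2 ^ N * vb b f τ)))) =
      EX (K + (n + s)) 0 νC (fun τ => ind (Inj f τ) *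
        EX (K + (n + s)) (K + n) νA (fun τ' =>
          1 - Real.exp (-(RA (K + n) y τ' / 2 ^ (K + n) * 2 ^ N * vol (TW f τ)))) -
        ind (Inj f τ) * EX (K + (n + s)) (K + n) νA (fun τ' =>
          1 - Real.exp (-(RB S u τ' / u * 2 ^ N * vb b f τ)))) := by
      rw [EX, EX, ← Ex_sub]
      rfl
    rw [h7]
    unfold EX
    refine (Ex_abs_le _ _ hC0 _).trans (Ex_mono _ _ hC0 _ _ fun τ _ => ?_)
    exact h1 τ
  refine h6.trans (le_of_eq ?_)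
  have h8 : EX (K + (n + s)) 0 νC (fun τ => 2 ^ N * R * (vb b f τ - vol (TW f τ)) +
        2 ^ N * W * (f.divisors.card * 2 ^ cnt νC K)) =
      2 ^ N * R * EX (K + (n + s)) 0 νC (fun τ => vb b f τ - vol (TW f τ)) +
        2 ^ N * W * (f.divisors.card * 2 ^ cnt νC K) := by
    unfold EX
    rw [Ex_add, Ex_mul, Ex_const _ _ hC1]
  rw [h8]
  ring

/-- the number of the indices near the end of the bottom block -/
theorem card_A (k : ℕ) (νC : Fin (k + mm) → ℕ) :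
    ((univ.filter fun i : Idx νC => k ≤ lv 0 νC i + mm).card : ℝ) ≤
      2 ^ (2 * mm) * Q νC (k + mm) := by
  classical
  rw [Finset.card_filter]
  push_cast
  rw [Fintype.sum_sigma]
  unfold Q
  rw [Finset.mul_sum]
  refine Finset.sum_le_sum fun l _ => ?_
  rw [if_pos l.2]
  have h1 : ∀ a : Fin (νC l), (if k ≤ lv 0 νC (⟨l, a⟩ : Idx νC) + mm then (1 : ℝ) else 0) =
      if k ≤ 0 + (l : ℕ) + 1 + mm then (1 : ℝ) else 0 := fun a => rfl
  rw [Finset.sum_congr rfl fun a _ => h1 a, Finset.sum_const, Finset.card_univ, Fintype.card_fin,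
    nsmul_eq_mul]
  have h0 : (0 : ℝ) ≤ νC l := Nat.cast_nonneg _
  have h2 : (if k ≤ 0 + (l : ℕ) + 1 + mm then (1 : ℝ) else 0) ≤
      2 ^ (2 * mm) * (2 ^ ((l : ℕ) + 1) / 2 ^ (k + mm)) := by
    split_ifs with h
    · rw [← mul_div_assoc, le_div_iff₀ (by positivity), one_mul, ← pow_add]
      exact pow_le_pow_right₀ (by norm_num) (by omega)
    · positivity
  calc (νC l : ℝ) * _ ≤ (νC l : ℝ) * (2 ^ (2 * mm) * (2 ^ ((l : ℕ) + 1) / 2 ^ (k + mm))) :=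
        mul_le_mul_of_nonneg_left h2 h0
    _ = _ := by ring

/-- the weighted sum over the top block -/
theorem wsum {s : ℕ} (a0 cB E t : ℕ) {D1 ε : ℝ} (hD1 : 0 ≤ D1) (hε : 0 ≤ ε) (νA : Fin s → ℕ)
    (ht : 2 * mm + 2 ≤ t) :
    2 ^ cB * ∑ i : Idx νA, (if lv a0 νA i ≤ a0 + (2 * mm + 2) then D1 else
        ε + D1 * (1 + E) * (2 ^ a0 / 2 ^ lv a0 νA i)) * th (lv a0 νA) i ≤
      (D1 + D1 * (1 + E)) *
        (∑ l : Fin s, if (l : ℕ) + 1 ≤ t then KeyC.tB a0 cB νA l else 0) +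
      (ε + D1 * (1 + E) * (1 / 2) ^ t) * ∑ l : Fin s, KeyC.tB a0 cB νA l := by
  have hE : (0 : ℝ) ≤ E := Nat.cast_nonneg _
  have hDE : 0 ≤ D1 * (1 + E) := by positivity
  have h := sum_lv a0 νA (fun a b => (if b ≤ a0 + (2 * mm + 2) then D1 else
        ε + D1 * (1 + E) * ((2 : ℝ) ^ a0 / 2 ^ b)) * (2 ^ a / 2 ^ b))
  have e : ∑ i : Idx νA, (if lv a0 νA i ≤ a0 + (2 * mm + 2) then D1 else
        ε + D1 * (1 + E) * (2 ^ a0 / 2 ^ lv a0 νA i)) * th (lv a0 νA) i =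
      ∑ i : Idx νA, (if lv a0 νA i ≤ a0 + (2 * mm + 2) then D1 else
        ε + D1 * (1 + E) * ((2 : ℝ) ^ a0 / 2 ^ lv a0 νA i)) *
        (2 ^ (nb (lv a0 νA) i) / 2 ^ (lv a0 νA i)) := rfl
  rw [e, h, Finset.mul_sum, Finset.mul_sum, Finset.mul_sum, ← Finset.sum_add_distrib]
  refine Finset.sum_le_sum fun l _ => ?_
  have h0 := KeyC.tB_nonneg a0 cB νA l
  have h2 : (2 : ℝ) ^ a0 / 2 ^ (a0 + (l : ℕ) + 1) = (1 / 2) ^ ((l : ℕ) + 1) := by
    rw [one_div, inv_pow, add_assoc, pow_add]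
    field_simp
  rw [h2]
  -- the factor
  have h3 : (if a0 + (l : ℕ) + 1 ≤ a0 + (2 * mm + 2) then D1 else
      ε + D1 * (1 + E) * (1 / 2) ^ ((l : ℕ) + 1)) ≤
      (if (l : ℕ) + 1 ≤ t then D1 + D1 * (1 + E) else 0) + (ε + D1 * (1 + E) * (1 / 2) ^ t) := by
    have hq : 0 ≤ D1 * (1 + E) * (1 / 2) ^ t := by positivity
    have hq1 : ((1 : ℝ) / 2) ^ ((l : ℕ) + 1) ≤ 1 := pow_le_one₀ (by norm_num) (by norm_num)
    split_ifs with h4 h5 h5
    · nlinarith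
    · omega
    · have : D1 * (1 + E) * (1 / 2) ^ ((l : ℕ) + 1) ≤ D1 * (1 + E) * 1 :=
        mul_le_mul_of_nonneg_left hq1 hDE
      linarith
    · have h6 : ((1 : ℝ) / 2) ^ ((l : ℕ) + 1) ≤ (1 / 2) ^ t :=
        pow_le_pow_of_le_one (by norm_num) (by norm_num) (by omega)
      have : D1 * (1 + E) * (1 / 2) ^ ((l : ℕ) + 1) ≤ D1 * (1 + E) * (1 / 2) ^ t :=
        mul_le_mul_of_nonneg_left h6 hDE
      linarith
  have h4 : 2 ^ cB * ((νA l : ℝ) * (2 ^ cnt νA ((l : ℕ) + 1) / 2 ^ (a0 + (l : ℕ) + 1))) ≤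
      KeyC.tB a0 cB νA l := by
    unfold KeyC.tB
    rw [pow_add 2 cB]
    have h5 : (0 : ℝ) ≤ 2 ^ cB * 2 ^ cnt νA ((l : ℕ) + 1) / 2 ^ (a0 + (l : ℕ) + 1) := by positivity
    have e3 : 2 ^ cB * ((νA l : ℝ) * (2 ^ cnt νA ((l : ℕ) + 1) / 2 ^ (a0 + (l : ℕ) + 1))) =
        (νA l : ℝ) * (2 ^ cB * 2 ^ cnt νA ((l : ℕ) + 1) / 2 ^ (a0 + (l : ℕ) + 1)) := by ring
    rw [e3]
    nlinarith
  have h5 : (0 : ℝ) ≤ 2 ^ cB * ((νA l : ℝ) *
      (2 ^ cnt νA ((l : ℕ) + 1) / 2 ^ (a0 + (l : ℕ) + 1))) := by positivity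
  have h6 : 0 ≤ (if (l : ℕ) + 1 ≤ t then D1 + D1 * (1 + E) else 0) +
      (ε + D1 * (1 + E) * (1 / 2) ^ t) := by
    have : 0 ≤ (if (l : ℕ) + 1 ≤ t then D1 + D1 * (1 + (E : ℝ)) else 0) := by
      split_ifs <;> positivity
    positivity
  calc 2 ^ cB * ((νA l : ℝ) * ((if a0 + (l : ℕ) + 1 ≤ a0 + (2 * mm + 2) then D1 else
        ε + D1 * (1 + E) * (1 / 2) ^ ((l : ℕ) + 1)) *
        (2 ^ cnt νA ((l : ℕ) + 1) / 2 ^ (a0 + (l : ℕ) + 1))))
      = (if a0 + (l : ℕ) + 1 ≤ a0 + (2 * mm + 2) then D1 else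
        ε + D1 * (1 + E) * (1 / 2) ^ ((l : ℕ) + 1)) * (2 ^ cB * ((νA l : ℝ) *
        (2 ^ cnt νA ((l : ℕ) + 1) / 2 ^ (a0 + (l : ℕ) + 1)))) := by ring
    _ ≤ ((if (l : ℕ) + 1 ≤ t then D1 + D1 * (1 + E) else 0) +
        (ε + D1 * (1 + E) * (1 / 2) ^ t)) * (2 ^ cB * ((νA l : ℝ) *
        (2 ^ cnt νA ((l : ℕ) + 1) / 2 ^ (a0 + (l : ℕ) + 1)))) :=
        mul_le_mul_of_nonneg_right h3 h5
    _ ≤ ((if (l : ℕ) + 1 ≤ t then D1 + D1 * (1 + E) else 0) +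
        (ε + D1 * (1 + E) * (1 / 2) ^ t)) * KeyC.tB a0 cB νA l :=
        mul_le_mul_of_nonneg_left h4 h6
    _ = _ := by split_ifs <;> ring

/-- the first moment from the second moment -/
theorem first_of_second {ι : Type} [Fintype ι] [DecidableEq ι] (P : Finset ℕ) (m : ι → ℕ → ℝ)
    (hm : ∀ i p, 0 ≤ m i p) (h1 : ∀ i, ∑ p ∈ P, m i p = 1) (x : (ι → ℕ) → ℝ) {M δ : ℝ}
    (hδ : 0 < δ) (h : M ^ 2 * Ex P m (fun τ => x τ ^ 2) ≤ δ ^ 2) :
    M * Ex P m (fun τ => |x τ|) ≤ δ := by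
  have h2 : M * Ex P m (fun τ => |x τ|) ≤ δ / 2 + M ^ 2 / (2 * δ) * Ex P m (fun τ => x τ ^ 2) := by
    rw [← Ex_mul, ← Ex_mul, ← Ex_const P m h1 (δ / 2), ← Ex_add]
    refine Ex_mono P m hm _ _ fun τ _ => ?_
    rw [← sq_abs (x τ)]
    have h3 : δ / 2 + M ^ 2 / (2 * δ) * |x τ| ^ 2 - M * |x τ| = (M * |x τ| - δ) ^ 2 / (2 * δ) := by
      field_simp
      ring
    have h4 : 0 ≤ (M * |x τ| - δ) ^ 2 / (2 * δ) := by positivity
    linarith
  have h5 : M ^ 2 / (2 * δ) * Ex P m (fun τ => x τ ^ 2) ≤ δ / 2 := by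
    rw [div_mul_eq_mul_div, div_le_iff₀ (by positivity)]
    calc _ ≤ δ ^ 2 := h
      _ = δ / 2 * (2 * δ) := by ring
  linarith

/-- the second part of the difference -/
theorem second_num {D1 B0 ε E q η1 δ M We T X2 p SA S1 : ℝ} (hD1 : 0 < D1) (hE : 0 ≤ E)
    (hB0 : 0 ≤ B0) (hq : 0 ≤ q) (hε : 0 ≤ ε) (hM : 0 ≤ M) (hp : 0 < p) (hT : 0 ≤ T)
    (hη1 : 0 ≤ η1)
    (hMT : M * T ≤ B0) (hSA : SA ≤ B0) (hS1 : S1 ≤ η1) (hMp : M / p ≤ η1)
    (hWe : M * We ≤ (D1 + D1 * (1 + E)) * S1 + (ε + D1 * (1 + E) * q) * SA)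
    (hX : X2 ≤ 2 * D1 * We * T + 2 / p * D1 * T)
    (h3 : 2 * D1 * B0 * (D1 + D1 * (1 + E) + 1) * η1 ≤ δ ^ 2 / 3)
    (h4 : 2 * D1 * B0 * (ε * B0) ≤ δ ^ 2 / 3)
    (h5 : 2 * D1 * B0 * (D1 * (1 + E) * q * B0) ≤ δ ^ 2 / 3) :
    M ^ 2 * X2 ≤ δ ^ 2 := by
  have hMT0 : 0 ≤ M * T := mul_nonneg hM hT
  have h6 : M * We ≤ (D1 + D1 * (1 + E)) * η1 + (ε + D1 * (1 + E) * q) * B0 := by
    refine hWe.trans (add_le_add ?_ ?_)
    · exact mul_le_mul_of_nonneg_left hS1 (by positivity)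
    · exact mul_le_mul_of_nonneg_left hSA (by positivity)
  have h7 : 0 ≤ (D1 + D1 * (1 + E)) * η1 + (ε + D1 * (1 + E) * q) * B0 := by positivity
  have h8 : (M * We) * (M * T) ≤
      ((D1 + D1 * (1 + E)) * η1 + (ε + D1 * (1 + E) * q) * B0) * B0 :=
    (mul_le_mul_of_nonneg_right h6 hMT0).trans (mul_le_mul_of_nonneg_left hMT h7)
  have h9 : (M / p) * (M * T) ≤ η1 * B0 :=
    (mul_le_mul_of_nonneg_right hMp hMT0).trans (mul_le_mul_of_nonneg_left hMT hη1)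
  calc M ^ 2 * X2 ≤ M ^ 2 * (2 * D1 * We * T + 2 / p * D1 * T) :=
        mul_le_mul_of_nonneg_left hX (by positivity)
    _ = 2 * D1 * ((M * We) * (M * T)) + 2 * D1 * ((M / p) * (M * T)) := by
        field_simp
    _ ≤ 2 * D1 * (((D1 + D1 * (1 + E)) * η1 + (ε + D1 * (1 + E) * q) * B0) * B0) +
        2 * D1 * (η1 * B0) :=
        add_le_add (mul_le_mul_of_nonneg_left h8 (by positivity))
          (mul_le_mul_of_nonneg_left h9 (by positivity))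
    _ = 2 * D1 * B0 * (D1 + D1 * (1 + E) + 1) * η1 + 2 * D1 * B0 * (ε * B0) +
        2 * D1 * B0 * (D1 * (1 + E) * q * B0) := by ring
    _ ≤ δ ^ 2 := by linarith

/-- the first part of the difference -/
theorem first_num {D d F0 B0 η1 η EC R T Qv cA : ℝ} {cC cB k : ℕ} (hD : 1 ≤ D) (hd : 0 ≤ d)
    (hdF : d ≤ F0) (hB0 : 0 ≤ B0) (hR0 : 0 ≤ R) (hT : 0 ≤ T) (hQ0 : 0 ≤ Qv)
    (hEC : EC ≤ 2 * D * d ^ 2 * 4 ^ cC * cA / 2 ^ (k - mm)) (hR : R ≤ 2 * D * T)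
    (hcA0 : 0 ≤ cA) (hcA : cA ≤ 2 ^ (2 * mm) * Qv) (hMT : 2 ^ (cC + cB) * T ≤ B0)
    (h3 : Real.exp Qv * (2 ^ cC / 2 ^ (k + mm)) ≤ η1)
    (h4 : 4 * D ^ 2 * F0 ^ 2 * 2 ^ (4 * mm) * B0 * η1 ≤ η / 2) :
    2 ^ cB * (EC * R) ≤ η / 2 := by
  have hD0 : 0 < D := by linarith
  have hF : 0 ≤ F0 := hd.trans hdF
  have h5 : Qv * (2 ^ cC / 2 ^ (k + mm)) ≤ η1 := by
    refine le_trans (mul_le_mul_of_nonneg_right ?_ (by positivity)) h3
    have := Real.add_one_le_exp Qv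
    linarith
  have hη1 : 0 ≤ η1 := le_trans (by positivity) h5
  have h6 : cA / 2 ^ (k - mm) ≤ 2 ^ (4 * mm) * (Qv / 2 ^ (k + mm)) := by
    rw [div_le_iff₀ (by positivity)]
    have h7 : (2 : ℝ) ^ (k + mm) ≤ 2 ^ (2 * mm) * 2 ^ (k - mm) := by
      rw [← pow_add]
      exact pow_le_pow_right₀ (by norm_num) (by omega)
    have h8 : 2 ^ (4 * mm) * (Qv / 2 ^ (k + mm)) * 2 ^ (k - mm) =
        2 ^ (2 * mm) * Qv * ((2 ^ (2 * mm) * 2 ^ (k - mm)) / 2 ^ (k + mm)) := by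
      have : (2 : ℝ) ^ (4 * mm) = 2 ^ (2 * mm) * 2 ^ (2 * mm) := by
        rw [← pow_add]; congr 1; omega
      rw [this]
      ring
    have h9 : 1 ≤ ((2 : ℝ) ^ (2 * mm) * 2 ^ (k - mm)) / 2 ^ (k + mm) := by
      rw [le_div_iff₀ (by positivity), one_mul]
      exact h7
    rw [h8]
    calc cA ≤ 2 ^ (2 * mm) * Qv := hcA
      _ = 2 ^ (2 * mm) * Qv * 1 := (mul_one _).symm
      _ ≤ _ := mul_le_mul_of_nonneg_left h9 (by positivity)
  have h10 : 0 ≤ 2 * D * d ^ 2 * 4 ^ cC * cA / 2 ^ (k - mm) := by positivity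
  have h11 : (4 : ℝ) ^ cC = 2 ^ cC * 2 ^ cC := by
    rw [← mul_pow]; norm_num
  calc 2 ^ cB * (EC * R)
      ≤ 2 ^ cB * ((2 * D * d ^ 2 * 4 ^ cC * cA / 2 ^ (k - mm)) * (2 * D * T)) := by
        refine mul_le_mul_of_nonneg_left ?_ (by positivity)
        exact (mul_le_mul_of_nonneg_right hEC hR0).trans (mul_le_mul_of_nonneg_left hR h10)
    _ = 4 * D ^ 2 * d ^ 2 * 2 ^ cC * (2 ^ (cC + cB) * T) * (cA / 2 ^ (k - mm)) := by
        rw [h11, pow_add]; ring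
    _ ≤ 4 * D ^ 2 * d ^ 2 * 2 ^ cC * (2 ^ (cC + cB) * T) *
          (2 ^ (4 * mm) * (Qv / 2 ^ (k + mm))) :=
        mul_le_mul_of_nonneg_left h6 (by positivity)
    _ = 4 * D ^ 2 * d ^ 2 * 2 ^ (4 * mm) * ((2 ^ (cC + cB) * T) *
          (Qv * (2 ^ cC / 2 ^ (k + mm)))) := by ring
    _ ≤ 4 * D ^ 2 * F0 ^ 2 * 2 ^ (4 * mm) * (B0 * η1) := by
        refine mul_le_mul ?_ ?_ (by positivity) (by positivity)
        · have : d ^ 2 ≤ F0 ^ 2 := pow_le_pow_left₀ hd hdF 2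
          gcongr
        · exact mul_le_mul hMT h5 (by positivity) hB0
    _ ≤ η / 2 := by linarith

open KeyC in
/-- the theorem for the three blocks of counts -/
theorem main (F0 E : ℕ) (D0 : ℝ) {η : ℝ} (hη : 0 < η) : ∃ η1 : ℝ, 0 < η1 ∧ η1 < 1 ∧
    ∃ s0 : ℕ, ∀ s, s0 ≤ s → ∃ a00 : ℕ, ∀ k n : ℕ, a00 ≤ k + mm + n → 1 ≤ n → ∀ f ∈ Icc 1 F0,
    ∀ (S : ℕ) (u : ℝ), 1 ≤ S →
    (2 : ℝ) ^ (k + mm + n + mm + 1) ≤ u → u ≤ 2 ^ (k + mm + n + mm + 2) →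
    ∀ (νC : Fin (k + mm) → ℕ) (νB : Fin n → ℕ) (νA : Fin s → ℕ),
    Nice2 D0 η1 E (k + mm) n s (Fin.append νC (Fin.append νB νA)) →
    |PrC f (k + mm) n s (2 ^ S * u) νC (cnt νB n) νA -
      PrD f (k + mm) n s S (bb k) u νC (cnt νB n) νA| ≤ η := by
  classical
  obtain ⟨D, hD, hlaws⟩ := laws_mu
  obtain ⟨D1, hD1, htop⟩ := top_sq
  have hD10 : 0 < D1 := by linarith
  have hD0' : 0 < D := by linarith
  have hE : (0 : ℝ) ≤ E := Nat.cast_nonneg _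
  obtain ⟨B0, hB1, hB0⟩ : ∃ B0 : ℝ, D0 ≤ B0 ∧ 0 ≤ B0 :=
    ⟨max D0 0, le_max_left _ _, le_max_right _ _⟩
  have hF0 : (0 : ℝ) ≤ F0 := Nat.cast_nonneg _
  set δ : ℝ := η / (2 * (F0 + 1)) with hδdef
  have hδ : 0 < δ := by positivity
  have hFδ : (F0 : ℝ) * δ ≤ η / 2 := by
    have h1 : (F0 : ℝ) * δ = η / 2 * (F0 / (F0 + 1)) := by
      rw [hδdef]; field_simp
    have h2 : (F0 : ℝ) / (F0 + 1) ≤ 1 := by
      rw [div_le_one (by positivity)]
      linarith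
    rw [h1]
    have h3 : 0 ≤ η / 2 := by positivity
    nlinarith
  have small : ∀ c x : ℝ, 0 ≤ c → 0 ≤ x → x ≤ δ ^ 2 / (3 * (c + 1)) → c * x ≤ δ ^ 2 / 3 := by
    intro c x hc hx0 hx
    rw [le_div_iff₀ (by positivity)] at hx
    nlinarith
  set c0 : ℝ := 2 * D1 * B0 with hc0def
  have hc0 : 0 ≤ c0 := by positivity
  set ε : ℝ := δ ^ 2 / (3 * (c0 * B0 + 1)) with hεdef
  have hε : 0 < ε := by positivity
  have hε1 : c0 * (ε * B0) ≤ δ ^ 2 / 3 := by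
    have := small (c0 * B0) ε (by positivity) hε.le le_rfl
    calc c0 * (ε * B0) = c0 * B0 * ε := by ring
      _ ≤ _ := this
  obtain ⟨m, hm⟩ := exists_pow_lt_of_lt_one
    (show (0 : ℝ) < δ ^ 2 / (3 * (c0 * (D1 * (1 + E) * B0) + 1)) by positivity)
    (show (1 / 2 : ℝ) < 1 by norm_num)
  obtain ⟨η1, hη1, hη1', h3, h4⟩ : ∃ η1 : ℝ, 0 < η1 ∧ η1 < 1 ∧
      c0 * (D1 + D1 * (1 + E) + 1) * η1 ≤ δ ^ 2 / 3 ∧
      4 * D ^ 2 * (F0 : ℝ) ^ 2 * 2 ^ (4 * mm) * B0 * η1 ≤ η / 2 := by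
    set C3 : ℝ := c0 * (D1 + D1 * (1 + E) + 1) with hC3
    set C4 : ℝ := 4 * D ^ 2 * (F0 : ℝ) ^ 2 * 2 ^ (4 * mm) * B0 with hC4
    have hC3' : 0 ≤ C3 := by positivity
    have hC4' : 0 ≤ C4 := by positivity
    refine ⟨min (1 / 2) (min (δ ^ 2 / (3 * (C3 + 1))) (η / (2 * (C4 + 1)))), ?_, ?_, ?_, ?_⟩
    · exact lt_min (by norm_num) (lt_min (by positivity) (by positivity))
    · exact lt_of_le_of_lt (min_le_left _ _) (by norm_num)
    · refine small C3 _ hC3' (le_min (by norm_num) (le_min (by positivity) (by positivity))) ?_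
      exact (min_le_right _ _).trans (min_le_left _ _)
    · calc C4 * _ ≤ C4 * (η / (2 * (C4 + 1))) :=
            mul_le_mul_of_nonneg_left ((min_le_right _ _).trans (min_le_right _ _)) hC4'
        _ ≤ (C4 + 1) * (η / (2 * (C4 + 1))) :=
            mul_le_mul_of_nonneg_right (by linarith) (by positivity)
        _ = η / 2 := by field_simp
  obtain ⟨a00, ha00⟩ := htop ε hε
  refine ⟨η1, hη1, hη1', 2 * m + (4 * mm + 8), fun s hs => ⟨a00, ?_⟩⟩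
  intro k n ha hn f hf S u hS hu1 hu2 νC νB νA hN
  obtain ⟨hf1, hfF⟩ := Finset.mem_Icc.mp hf
  obtain ⟨hN1, hN2, hN3, hN4⟩ := hN
  have hu : 0 < u := lt_of_lt_of_le (by positivity) hu1
  set cC := cnt νC (k + mm) with hcCdef
  set cB := cnt νB n with hcBdef
  have hdF : (f.divisors.card : ℝ) ≤ F0 := by
    have : f.divisors.card ≤ F0 := le_trans (Nat.card_divisors_le_self f) hfF
    exact_mod_cast this
  -- the sums over the levels
  have hSA : ∑ l : Fin s, tB (k + mm + n) (cC + cB) νA l ≤ D0 := by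
    refine le_trans ?_ hN1
    refine le_trans ?_ (xi_split (k + mm) n s 0 (k + mm + (n + s)) νC νB νA)
    have h1 : 0 ≤ ∑ l : Fin n, (if 0 ≤ k + mm + (l : ℕ) ∧ k + mm + (l : ℕ) + 1 ≤
        k + mm + (n + s) then tB (k + mm) (cnt νC (k + mm)) νB l else 0) :=
      Finset.sum_nonneg fun l _ => by
        split_ifs
        · exact tB_nonneg _ _ _ _
        · exact le_rfl
    refine le_trans (le_of_eq ?_) (le_add_of_nonneg_left h1)
    refine Finset.sum_congr rfl fun l _ => ?_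
    have hl := l.2
    rw [if_pos ⟨Nat.zero_le _, by omega⟩]
  have hSB : (∑ l : Fin n, tB (k + mm) cC νB l) +
      (∑ l : Fin s, if (l : ℕ) + 1 ≤ s - s / 2 then tB (k + mm + n) (cC + cB) νA l else 0) ≤
      η1 := by
    refine le_trans (le_of_eq ?_)
      (le_trans (xi_split (k + mm) n s (k + mm) (k + mm + n + (s - s / 2)) νC νB νA) hN2)
    congr 1
    · refine Finset.sum_congr rfl fun l _ => ?_
      have hl := l.2
      rw [if_pos ⟨Nat.le_add_right _ _, by omega⟩]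
    · refine Finset.sum_congr rfl fun l _ => ?_
      refine if_congr ?_ rfl rfl
      constructor
      · intro h
        exact ⟨by omega, by omega⟩
      · rintro ⟨_, h⟩
        omega
  have hS10 : 0 ≤ ∑ l : Fin s, (if (l : ℕ) + 1 ≤ s - s / 2 then
      tB (k + mm + n) (cC + cB) νA l else 0) :=
    Finset.sum_nonneg fun l _ => by
      split_ifs
      · exact tB_nonneg _ _ _ _
      · exact le_rfl
  have hSB0 : 0 ≤ ∑ l : Fin n, tB (k + mm) cC νB l := Finset.sum_nonneg fun l _ => tB_nonneg _ _ _ _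
  have hMp : (2 : ℝ) ^ (cC + cB) / 2 ^ (k + mm + n) ≤ η1 := by
    have h1 : (2 : ℝ) ^ (cC + cB) / 2 ^ (k + mm + n) ≤ ∑ l : Fin n, tB (k + mm) cC νB l := by
      have h2 : tB (k + mm) cC νB ⟨n - 1, by omega⟩ ≤ ∑ l : Fin n, tB (k + mm) cC νB l :=
        Finset.single_le_sum (f := fun l => tB (k + mm) cC νB l) (fun l _ => tB_nonneg _ _ _ _)
          (Finset.mem_univ _)
      refine le_trans ?_ h2
      unfold tB
      have e1 : n - 1 + 1 = n := by omega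
      have e2 : k + mm + (n - 1) + 1 = k + mm + n := by omega
      simp only [e1, e2]
      have h3 : (0 : ℝ) ≤ 2 ^ (cC + cB) / 2 ^ (k + mm + n) := by positivity
      have h4 : (0 : ℝ) ≤ νB ⟨n - 1, by omega⟩ := Nat.cast_nonneg _
      nlinarith
    linarith
  have hEle : cnt νA (2 * mm + 2) ≤ E := by
    have e1 : cnt (Fin.append νC (Fin.append νB νA)) (k + mm + n + (2 * mm + 2)) =
        cC + (cB + cnt νA (2 * mm + 2)) := by
      rw [show k + mm + n + (2 * mm + 2) = k + mm + (n + (2 * mm + 2)) by omega,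
        cnt_append_right, cnt_append_right]
    have e2 : cnt (Fin.append νC (Fin.append νB νA)) (k + mm + n) = cC + cB := by
      rw [cnt_append_right, cnt_append_left _ _ le_rfl]
    rw [e1, e2] at hN4
    omega
  -- the laws
  have hLC : Laws (range (bd (k + mm + (n + s)))) (fun i => mu (lv 0 νC i)) (lv 0 νC) D :=
    hlaws (Idx νC) (k + mm + (n + s)) (lv 0 νC) fun i => by
      have hi := i.1.2
      unfold lv
      constructor <;> omega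
  have hLA : Laws (range (bd (k + mm + (n + s)))) (fun i => mu (lv (k + mm + n) νA i))
      (lv (k + mm + n) νA) D :=
    hlaws (Idx νA) (k + mm + (n + s)) (lv (k + mm + n) νA) fun i => by
      have hi := i.1.2
      unfold lv
      constructor <;> omega
  set T : ℝ := ∑ i : Idx νA, th (lv (k + mm + n) νA) i with hTdef
  have hT0 : 0 ≤ T := Finset.sum_nonneg fun i _ => by unfold th; positivity
  have hMT : 2 ^ (cC + cB) * T ≤ B0 := (th_le (k + mm + n) (cC + cB) νA).trans (hSA.trans hB1)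
  have hMC0 : (0 : ℝ) ≤ 2 ^ (cC + cB) := by positivity
  -- the second part
  have hsq := ha00 (k + mm + n) s (k + mm + (n + s)) S E u νA ha (by omega) hS hu1 hu2 hEle
  have ht : 2 * mm + 2 ≤ s - s / 2 := by omega
  have hq : ((1 : ℝ) / 2) ^ (s - s / 2) ≤ (1 / 2) ^ m :=
    pow_le_pow_of_le_one (by norm_num) (by norm_num) (by omega)
  have hm1 : c0 * (D1 * (1 + E) * (1 / 2) ^ (s - s / 2) * B0) ≤ δ ^ 2 / 3 := by
    have := small (c0 * (D1 * (1 + E) * B0)) ((1 / 2) ^ (s - s / 2)) (by positivity)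
      (by positivity) (hq.trans hm.le)
    calc c0 * (D1 * (1 + E) * (1 / 2) ^ (s - s / 2) * B0) =
        c0 * (D1 * (1 + E) * B0) * (1 / 2) ^ (s - s / 2) := by ring
      _ ≤ _ := this
  have hV := second_num (M := 2 ^ (cC + cB)) (p := 2 ^ (k + mm + n)) (T := T) (δ := δ) hD10 hE hB0
    (by positivity : (0 : ℝ) ≤ (1 / 2) ^ (s - s / 2)) hε.le hMC0 (by positivity) hT0 hη1.le hMT
    (hSA.trans hB1) (by linarith) hMp
    (wsum (k + mm + n) (cC + cB) E (s - s / 2) hD10.le hε.le νA ht) hsq h3 hε1 hm1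
  have hA0 : ∀ (i : Idx νA) (p : ℕ), 0 ≤ mu (lv (k + mm + n) νA i) p := fun _ _ => mu_nonneg _ _
  have hA1 : ∀ i : Idx νA, ∑ p ∈ range (bd (k + mm + (n + s))), mu (lv (k + mm + n) νA i) p = 1 :=
    fun i => EX_mass νA (by omega) i
  have hW : 2 ^ (cC + cB) * EX (k + mm + (n + s)) (k + mm + n) νA (fun τ' =>
      |RA (k + mm + n) (2 ^ S * u) τ' / 2 ^ (k + mm + n) - RB S u τ' / u|) ≤ δ :=
    first_of_second _ _ hA0 hA1 _ hδ hV
  -- the first part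
  have hR : EX (k + mm + (n + s)) (k + mm + n) νA
      (fun τ' => RA (k + mm + n) (2 ^ S * u) τ' / 2 ^ (k + mm + n)) ≤ 2 * D * T := by
    refine Key.RA_mean hLA (k + mm + n) (2 ^ S * u) ?_
    have h1 : (2 : ℝ) ^ (k + mm + n) ≤ u :=
      le_trans (pow_le_pow_right₀ (by norm_num) (by omega)) hu1
    have h2 : (2 : ℝ) ≤ 2 ^ S := by
      calc (2 : ℝ) = 2 ^ 1 := (pow_one _).symm
        _ ≤ 2 ^ S := pow_le_pow_right₀ (by norm_num) hS
    exact mul_le_mul h2 h1 (by positivity) (by positivity)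
  have hR0 : 0 ≤ EX (k + mm + (n + s)) (k + mm + n) νA
      (fun τ' => RA (k + mm + n) (2 ^ S * u) τ' / 2 ^ (k + mm + n)) :=
    Ex_nonneg _ _ hA0 _ fun _ _ => div_nonneg (Key.RA_nonneg _ _ _) (by positivity)
  have hEC := vb_diff (range (bd (k + mm + (n + s)))) (fun i : Idx νC => mu (lv 0 νC i))
    (lv 0 νC) D hD hLC (bb k) f (k - mm) (univ.filter fun i : Idx νC => k ≤ lv 0 νC i + mm)
    (by
      intro i hi p hp
      by_contra hc
      exact hi (Finset.mem_filter.2 ⟨Finset.mem_univ _, lab_extra (not_le.1 hc) hp⟩))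
    (by
      intro i hi
      have := (Finset.mem_filter.1 hi).2
      omega)
  rw [card_Idx] at hEC
  have hQ : Q (Fin.append νC (Fin.append νB νA)) (k + mm) = Q νC (k + mm) :=
    Q_append_left _ _ le_rfl
  have hQ0 : 0 ≤ Q νC (k + mm) := by
    unfold Q
    exact Finset.sum_nonneg fun i _ => by split_ifs <;> positivity
  have hN3' : Real.exp (Q νC (k + mm)) * (2 ^ cC / 2 ^ (k + mm)) ≤ η1 := by
    rw [hQ, zpow_X, cnt_append_left _ _ le_rfl] at hN3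
    exact hN3
  have hfirst := first_num (cB := cB) (d := f.divisors.card) (F0 := F0) hD (Nat.cast_nonneg _) hdF
    hB0 hR0 hT0 hQ0 hEC hR (Nat.cast_nonneg _) (card_A k νC) hMT hN3' h4
  -- the end
  have hcore := core f (k + mm) n s S (bb k) cB (y := 2 ^ S * u) hu νC νA
  refine hcore.trans ?_
  rw [mul_add]
  have hsec : 2 ^ cB * ((f.divisors.card : ℝ) * 2 ^ cnt νC (k + mm) *
      EX (k + mm + (n + s)) (k + mm + n) νA (fun τ' =>
      |RA (k + mm + n) (2 ^ S * u) τ' / 2 ^ (k + mm + n) - RB S u τ' / u|)) ≤ η / 2 := by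
    calc _ = (f.divisors.card : ℝ) * (2 ^ (cC + cB) *
        EX (k + mm + (n + s)) (k + mm + n) νA (fun τ' =>
        |RA (k + mm + n) (2 ^ S * u) τ' / 2 ^ (k + mm + n) - RB S u τ' / u|)) := by
          rw [pow_add]; ring
      _ ≤ (f.divisors.card : ℝ) * δ := mul_le_mul_of_nonneg_left hW (Nat.cast_nonneg _)
      _ ≤ F0 * δ := mul_le_mul_of_nonneg_right hdF hδ.le
      _ ≤ η / 2 := hFδ
  have := add_le_add hfirst hsec
  calc _ ≤ η / 2 + η / 2 := this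
    _ = η := by ring

end CmpD

theorem cmp_D (F0 E : ℕ) (D0 : ℝ) {η : ℝ} (hη : 0 < η) : ∃ η1 : ℝ, 0 < η1 ∧ η1 < 1 ∧
    ∃ s0 : ℕ, ∀ s, s0 ≤ s → ∃ a00 : ℕ, ∀ k n : ℕ, a00 ≤ k + mm + n → 1 ≤ n → ∀ f ∈ Icc 1 F0,
    ∀ (S : ℕ) (u : ℝ), 1 ≤ S →
    (2 : ℝ) ^ (k + mm + n + mm + 1) ≤ u → u ≤ 2 ^ (k + mm + n + mm + 2) →
    ∀ ν : Fin (k + mm + (n + s)) → ℕ, Nice2 D0 η1 E (k + mm) n s ν →
    |PrC f (k + mm) n s (2 ^ S * u) (lo ν) (cnt (lo (hi ν)) n) (hi (hi ν)) -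
      PrD f (k + mm) n s S (bb k) u (lo ν) (cnt (lo (hi ν)) n) (hi (hi ν))| ≤ η := by
  obtain ⟨η1, hη1, hη1', s0, h⟩ := CmpD.main F0 E D0 hη
  refine ⟨η1, hη1, hη1', s0, fun s hs => ?_⟩
  obtain ⟨a00, h2⟩ := h s hs
  refine ⟨a00, fun k n ha hn f hf S u hS hu1 hu2 ν hN => ?_⟩
  refine h2 k n ha hn f hf S u hS hu1 hu2 (lo ν) (lo (hi ν)) (hi (hi ν)) ?_
  rw [append_lo_hi, append_lo_hi]
  exact hN

end Pool.Agent.EN2
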