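import Mathlib
import Pool.Agent.Lib.MP_ec0ede_nt_EN2.Defs
import Pool.Agent.Lib.MP_ec0ede_nt_EN.ZBd
import Pool.Agent.Lib.MP_ec0ede_nt_EN.Good
import Pool.Agent.Lib.MP_ec0ede_nt_EN.LawA
import Pool.Agent.Lib.MP_ec0ede_nt_EN.ExB
import Pool.Agent.Lib.MP_ec0ede_nt_EN2.BadQ
import Pool.Agent.Lib.MP_ec0ede_nt_EN2.CmpD
import Pool.Agent.Lib.MP_ec0ede_nt_EN2.DomP

set_option autoImplicit false

/-!
# MP_ec0ede_nt, project EN2, module StD: from the smoothed to the sharp main term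

On the good counts the two main terms differ by at most `η` (module CmpD), and both lie in `[0, 1]`.
-/

noncomputable section

namespace Pool.Agent.EN2

open Real Filter Topology Finset Pool.Agent.EN

namespace StD

theorem EX_Icc {L K n : ℕ} (ν : Fin n → ℕ) (h : K + n ≤ L) (F : (Idx ν → ℕ) → ℝ)
    (h0 : ∀ τ, 0 ≤ F τ) (h1 : ∀ τ, F τ ≤ 1) : 0 ≤ EX L K ν F ∧ EX L K ν F ≤ 1 := by
  unfold EX
  constructor
  · exact Ex_nonneg _ _ (fun i p => mu_nonneg _ _) F fun τ _ => h0 τ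
  · refine (Ex_mono _ _ (fun i p => mu_nonneg _ _) F (fun _ => 1) fun τ _ => h1 τ).trans ?_
    refine (Ex_const _ _ (fun i => ?_) 1).le
    refine mu_mass ?_ ?_
    · unfold lv; omega
    · have := i.1.isLt
      unfold lv; omega

theorem PrC_Icc (f K n s : ℕ) (y : ℝ) (νC : Fin K → ℕ) (N : ℕ) (νA : Fin s → ℕ) :
    0 ≤ PrC f K n s y νC N νA ∧ PrC f K n s y νC N νA ≤ 1 := by
  unfold PrC
  have h : ∀ τ : Idx νC → ℕ, 0 ≤ EX (K + (n + s)) (K + n) νA (fun τ' =>
      1 - Real.exp (-(RA (K + n) y τ' / 2 ^ (K + n) * 2 ^ N * vol (TW f τ)))) ∧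
      EX (K + (n + s)) (K + n) νA (fun τ' =>
      1 - Real.exp (-(RA (K + n) y τ' / 2 ^ (K + n) * 2 ^ N * vol (TW f τ)))) ≤ 1 := fun τ => by
    refine EX_Icc νA (by omega) _ (fun τ' => ?_) (fun τ' => ?_)
    · have h0 : 0 ≤ RA (K + n) y τ' := Finset.sum_nonneg fun _ _ => le_max_left _ _
      have h1 : 0 ≤ RA (K + n) y τ' / 2 ^ (K + n) * 2 ^ N * vol (TW f τ) :=
        mul_nonneg (mul_nonneg (div_nonneg h0 (by positivity)) (by positivity))
          ENNReal.toReal_nonneg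
      have h2 := Real.exp_le_one_iff.mpr (neg_nonpos.mpr h1)
      linarith
    · have := Real.exp_pos (-(RA (K + n) y τ' / 2 ^ (K + n) * 2 ^ N * vol (TW f τ)))
      linarith
  refine EX_Icc νC (by omega) _ (fun τ => mul_nonneg (ind_nonneg _) (h τ).1) (fun τ => ?_)
  exact mul_le_one₀ (ind_le_one _) (h τ).1 (h τ).2

theorem one_le_zz : 1 ≤ zz := by
  unfold zz
  rw [le_div_iff₀ (Real.log_pos (by norm_num))]
  have := Real.log_two_lt_d9
  linarith

theorem PW_add {L : ℕ} (F G : (Fin L → ℕ) → ENNReal) :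
    PW L (fun ν => F ν + G ν) = PW L F + PW L G := by
  unfold PW
  rw [← ENNReal.tsum_add]
  exact tsum_congr fun ν => by ring

theorem PW_cmul {L : ℕ} (c : ENNReal) (F : (Fin L → ℕ) → ENNReal) :
    PW L (fun ν => c * F ν) = c * PW L F := by
  unfold PW
  rw [← ENNReal.tsum_mul_left]
  exact tsum_congr fun ν => by ring

end StD

open StD in
theorem st_D (c1 c2 F0 : ℕ) {ε : ℝ} (hε : 0 < ε) : ∃ K0 : ℕ, ∀ k s : ℕ, K0 ≤ k → K0 ≤ s →
    ∃ n0 : ℕ, ∀ n ≥ n0, ∀ f ∈ Icc 1 F0, ∀ (S : ℕ) (u : ℝ), 1 ≤ S →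
    (2 : ℝ) ^ (k + mm + n + mm + 1) ≤ u → u ≤ 2 ^ (k + mm + n + mm + 2) →
    |ZS (k + mm + (n + s)) (fun ν => ind (E0 c1 c2 ν) *
        PrC f (k + mm) n s (2 ^ S * u) (lo ν) (cnt (lo (hi ν)) n) (hi (hi ν))) -
      ZS (k + mm + (n + s)) (fun ν => ind (E0 c1 c2 ν) *
        PrD f (k + mm) n s S (bb k) u (lo ν) (cnt (lo (hi ν)) n) (hi (hi ν)))| ≤
      ε / (((k + mm + (n + s) : ℕ) : ℝ) + 1) ^ (3 / 2 : ℝ) := by
  classical
  obtain ⟨C, hC, hgood⟩ := good_all c1 c2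
  have hz1 := one_le_zz
  have hz0 : 0 < zz := lt_of_lt_of_le one_pos hz1
  set A : ℝ := zz ^ c2 with hA
  have hA0 : 0 < A := by positivity
  obtain ⟨D0, E, hbad⟩ := bad_2 c1 c2 (ε := ε / (2 * A)) (by positivity)
  set η : ℝ := ε / (2 * C * A) with hη
  have hη0 : 0 < η := by positivity
  obtain ⟨η1, hη1, hη1', s0, hkey⟩ := cmp_D F0 E D0 hη0
  obtain ⟨K0, hbad⟩ := hbad η1 hη1
  refine ⟨max K0 s0, fun k s hk hs => ?_⟩
  obtain ⟨nb, hbad⟩ := hbad (k + mm) s
    (le_trans (le_trans (le_max_left _ _) hk) (Nat.le_add_right _ _))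
    (le_trans (le_max_left _ _) hs)
  obtain ⟨nk, hkey⟩ := hkey s (le_trans (le_max_right _ _) hs)
  refine ⟨max 1 (max nb nk), fun n hn f hf S u hS hu1 hu2 => ?_⟩
  have hn1 : 1 ≤ n := le_trans (le_max_left _ _) hn
  have hnb : nb ≤ n := le_trans (le_trans (le_max_left _ _) (le_max_right _ _)) hn
  have hnk : nk ≤ k + mm + n :=
    le_trans (le_trans (le_trans (le_max_right _ _) (le_max_right _ _)) hn) (Nat.le_add_left _ _)
  have hbad := hbad n hnb
  have hkey := hkey k n hnk hn1 f hf S u hS hu1 hu2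
  have hu0 : 0 < u := lt_of_lt_of_le (by positivity) hu1
  have hgood := hgood (k + mm + (n + s))
  set K : ℕ := k + mm with hK
  set L : ℕ := K + (n + s) with hL
  have hD : 0 < ((L : ℝ) + 1) ^ (3 / 2 : ℝ) := by positivity
  set D : ℝ := ((L : ℝ) + 1) ^ (3 / 2 : ℝ) with hDdef
  have hPD : ∀ ν : Fin L → ℕ,
      0 ≤ PrD f K n s S (bb k) u (lo ν) (cnt (lo (hi ν)) n) (hi (hi ν)) ∧
      PrD f K n s S (bb k) u (lo ν) (cnt (lo (hi ν)) n) (hi (hi ν)) ≤ 1 := fun ν =>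
    ⟨PrD_nonneg f K n s S (bb k) hu0 _ _ _, PrD_le_one f K n s S (bb k) hu0 _ _ _⟩
  let H : (Fin L → ℕ) → ℝ := fun ν =>
    ind (E0 c1 c2 ν) * (η + ind (¬ Nice2 D0 η1 E K n s ν))
  have hH0 : ∀ ν, 0 ≤ H ν := fun ν =>
    mul_nonneg (ind_nonneg _) (add_nonneg hη0.le (ind_nonneg _))
  have hH1 : ∀ ν, H ν ≤ 1 + η := fun ν => by
    have h1 := ind_le_one (E0 c1 c2 ν)
    have h2 := ind_nonneg (E0 c1 c2 ν)
    have h3 := ind_le_one (¬ Nice2 D0 η1 E K n s ν)
    have h4 := ind_nonneg (¬ Nice2 D0 η1 E K n s ν)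
    calc H ν ≤ 1 * (η + 1) := mul_le_mul h1 (by linarith) (by linarith) zero_le_one
      _ = 1 + η := by ring
  refine (ZS_dist _ _ H (1 + η) (fun ν => ?_) (fun ν => ?_) (fun ν => ?_) (fun ν => ?_)).trans ?_
  · have h1 := PrC_Icc f K n s (2 ^ S * u) (lo ν) (cnt (lo (hi ν)) n) (hi (hi ν))
    rw [abs_of_nonneg (mul_nonneg (ind_nonneg _) h1.1)]
    have := mul_le_one₀ (ind_le_one (E0 c1 c2 ν)) h1.1 h1.2
    linarith
  · have h1 := hPD ν
    rw [abs_of_nonneg (mul_nonneg (ind_nonneg _) h1.1)]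
    have := mul_le_one₀ (ind_le_one (E0 c1 c2 ν)) h1.1 h1.2
    linarith
  · rw [abs_of_nonneg (hH0 ν)]
    exact hH1 ν
  · rw [← mul_sub, abs_mul, abs_of_nonneg (ind_nonneg _)]
    by_cases h0 : E0 c1 c2 ν
    swap
    · simp only [H, ind_not_of h0, zero_mul, le_refl]
    refine mul_le_mul_of_nonneg_left ?_ (ind_nonneg _)
    by_cases h1 : Nice2 D0 η1 E K n s ν
    · rw [ind_not_of (not_not.mpr h1), add_zero]
      exact hkey ν h1
    · rw [ind_of h1]
      have h2 := hPD ν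
      have h3 := PrC_Icc f K n s (2 ^ S * u) (lo ν) (cnt (lo (hi ν)) n) (hi (hi ν))
      rw [abs_le]
      constructor <;> linarith [h2.1, h2.2, h3.1, h3.2]
  · refine ZS_le H (1 + η) _ hH0 hH1 (by positivity) ?_
    have hpt : ∀ ν : Fin L → ℕ, ENNReal.ofReal (zz ^ (X ν L) * H ν) ≤
        ENNReal.ofReal (A * η) * (if E0 c1 c2 ν then 1 else 0) +
        ENNReal.ofReal A *
          (if E0 c1 c2 ν ∧ ¬ Nice2 D0 η1 E K n s ν then 1 else 0) := fun ν => by
      by_cases h0 : E0 c1 c2 ν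
      swap
      · simp only [H, ind_not_of h0, zero_mul, mul_zero, ENNReal.ofReal_zero]
        exact zero_le
      have hX : zz ^ (X ν L) ≤ A := by
        rw [hA, ← zpow_natCast]
        exact zpow_le_zpow_right₀ hz1 h0.2
      rw [if_pos h0, mul_one]
      by_cases h1 : Nice2 D0 η1 E K n s ν
      · rw [if_neg (fun h => h.2 h1), mul_zero, add_zero]
        refine ENNReal.ofReal_le_ofReal ?_
        simp only [H, ind_of h0, ind_not_of (not_not.mpr h1), one_mul, add_zero]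
        exact mul_le_mul_of_nonneg_right hX hη0.le
      · rw [if_pos ⟨h0, h1⟩, mul_one, ← ENNReal.ofReal_add (by positivity) hA0.le]
        refine ENNReal.ofReal_le_ofReal ?_
        simp only [H, ind_of h0, ind_of h1, one_mul]
        calc zz ^ (X ν L) * (η + 1) ≤ A * (η + 1) :=
              mul_le_mul_of_nonneg_right hX (by linarith)
          _ = A * η + A := by ring
    calc PW L (fun ν => ENNReal.ofReal (zz ^ (X ν L) * H ν))
        ≤ PW L (fun ν => ENNReal.ofReal (A * η) * (if E0 c1 c2 ν then 1 else 0) +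
          ENNReal.ofReal A *
            (if E0 c1 c2 ν ∧ ¬ Nice2 D0 η1 E K n s ν then 1 else 0)) := PW_mono hpt
      _ = ENNReal.ofReal (A * η) * PW L (fun ν => if E0 c1 c2 ν then 1 else 0) +
          ENNReal.ofReal A * PW L (fun ν =>
            if E0 c1 c2 ν ∧ ¬ Nice2 D0 η1 E K n s ν then 1 else 0) := by
          rw [PW_add, PW_cmul, PW_cmul]
      _ ≤ ENNReal.ofReal (A * η) * ENNReal.ofReal (C / D) +
          ENNReal.ofReal A * ENNReal.ofReal (ε / (2 * A) / D) := by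
          gcongr
      _ = ENNReal.ofReal (ε / D) := by
          rw [← ENNReal.ofReal_mul (by positivity), ← ENNReal.ofReal_mul hA0.le,
            ← ENNReal.ofReal_add (by positivity) (by positivity)]
          congr 1
          rw [hη]
          field_simp
          ring

end Pool.Agent.EN2
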