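import Mathlib
import Pool.Agent.Lib.MP_ec0ede_nt_EN2.Defs
import Pool.Agent.Lib.MP_ec0ede_nt_EN.LawA
import Pool.Agent.Lib.MP_ec0ede_nt_EN.LawB
import Pool.Agent.Lib.MP_ec0ede_nt_EN.LawC
import Pool.Agent.Lib.MP_ec0ede_nt_EN.ExB
import Pool.Agent.Lib.MP_ec0ede_nt_EN.ThS
import Pool.Agent.Lib.MP_ec0ede_nt_EN.Spl
import Pool.Agent.Lib.MP_ec0ede_nt_EN.HitB
import Pool.Agent.Lib.MP_ec0ede_nt_EN.VarA
import Pool.Agent.Lib.MP_ec0ede_nt_EN2.Rng

set_option autoImplicit false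

/-!
# MP_ec0ede_nt, project EN2, module HitD: first moment and hitting bound for the sharp top sum
-/

noncomputable section

namespace Pool.Agent.EN2

open Real Filter Topology Finset Pool.Agent.EN

namespace HitD

open HitB

theorem lv_eq (a0 : ℕ) {s : ℕ} (ν : Fin s → ℕ) (i : Idx ν) : lv a0 ν i = a0 + lv 0 ν i := by
  simp only [lv]
  omega

theorem lv_one (a0 : ℕ) {s : ℕ} (ν : Fin s → ℕ) (i : Idx ν) : 1 ≤ lv a0 ν i := by
  simp only [lv]
  omega

/-- the sizes on the support -/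
theorem sz_le' {s : ℕ} (a0 : ℕ) (ν : Fin s → ℕ) (τ : Idx ν → ℕ)
    (hτ : ∀ i : Idx ν, mu (lv a0 ν i) (τ i) ≠ 0) (j : ℕ) (S : Finset (Idx ν))
    (hS : ∀ i ∈ S, lv 0 ν i ≤ j) : sz τ S ≤ 2 ^ mm * 2 ^ a0 * WW ν j := by
  unfold sz WW
  rw [Finset.mul_sum]
  calc ∑ i ∈ S, Real.log (τ i) ≤ ∑ i ∈ S, (2 : ℝ) ^ mm * 2 ^ a0 * (2 : ℝ) ^ lv 0 ν i := by
        apply Finset.sum_le_sum
        intro i _
        have h := mm_hi (hτ i)
        rw [lv_eq, pow_add] at h
        calc Real.log (τ i) ≤ _ := h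
          _ = _ := by ring
    _ ≤ ∑ i ∈ univ.filter (fun i : Idx ν => lv 0 ν i ≤ j),
          (2 : ℝ) ^ mm * 2 ^ a0 * (2 : ℝ) ^ lv 0 ν i := by
        apply Finset.sum_le_sum_of_subset_of_nonneg
        · intro i hi
          simp [hS i hi]
        · intro i _ _
          positivity

theorem sz_nonneg' {ι : Type} (τ : ι → ℕ) (S : Finset ι) : 0 ≤ sz τ S :=
  Finset.sum_nonneg fun _ _ => Real.log_natCast_nonneg _

/-- the large indices of `I` -/
def lg (u : ℝ) {ι : Type} (τ : ι → ℕ) (I : Finset ι) : Finset ι :=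
  I.filter fun i => u < Real.log (τ i)

/-- the event of `RB` -/
def ev (S : ℕ) (u : ℝ) {ι : Type} (τ : ι → ℕ) (I : Finset ι) : Prop :=
  0 ≤ 2 ^ S * u - sz τ (lg u τ I) ∧ 2 ^ S * u - sz τ (lg u τ I) < u

theorem RB_eq (S : ℕ) (u : ℝ) {ι : Type} [Fintype ι] (τ : ι → ℕ) :
    RB S u τ = ∑ I : Finset ι, ind (ev S u τ I) := by
  unfold RB ev lg
  refine Finset.sum_congr rfl fun I _ => ?_
  congr

theorem lg_subset (u : ℝ) {ι : Type} (τ : ι → ℕ) (I : Finset ι) : lg u τ I ⊆ I :=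
  Finset.filter_subset _ _

theorem sum_top' {ι : Type} [Fintype ι] [DecidableEq ι] (k : ι → ℕ)
    (hk : Function.Injective k) (f : Finset ι → ℝ) (c : ι → ℝ)
    (hc : ∀ i, 0 ≤ c i)
    (h : ∀ i T, i ∉ T → (∀ j ∈ T, k j ≤ k i) → f (insert i T) ≤ c i) :
    ∑ S, f S ≤ f ∅ + ∑ i, (2 : ℝ) ^ (VarA.bel k i).card * c i := by
  classical
  have h1 : ∀ S : Finset ι, f S ≤ (if S = ∅ then f ∅ else 0) +
      ∑ i, if i ∈ S ∧ ∀ j ∈ S, k j ≤ k i then c i else 0 := by
    intro S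
    have h0 : ∀ i ∈ (univ : Finset ι), 0 ≤ if i ∈ S ∧ ∀ j ∈ S, k j ≤ k i then c i else 0 := by
      intro i _
      split_ifs
      · exact hc i
      · exact le_rfl
    by_cases hS : S = ∅
    · rw [if_pos hS, hS]
      rw [hS] at h0
      linarith [sum_nonneg h0]
    · rw [if_neg hS, zero_add]
      obtain ⟨i, hi, hmax⟩ := exists_max_image S k (nonempty_iff_ne_empty.mpr hS)
      refine le_trans ?_ (single_le_sum h0 (mem_univ i))
      rw [if_pos ⟨hi, hmax⟩]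
      have := h i (S.erase i) (notMem_erase i S) (fun j hj => hmax j (mem_of_mem_erase hj))
      rwa [insert_erase hi] at this
  refine (sum_le_sum fun S _ => h1 S).trans ?_
  rw [sum_add_distrib, sum_ite_eq' univ ∅ (fun _ => f ∅), if_pos (mem_univ _), sum_comm]
  refine add_le_add le_rfl (sum_le_sum fun i _ => ?_)
  rw [← sum_filter, sum_const, nsmul_eq_mul]
  exact mul_le_mul_of_nonneg_right (VarA.card_top k hk i) (hc i)

theorem lg_update (u : ℝ) {ι : Type} [DecidableEq ι] (τ : ι → ℕ) (i : ι) (p : ℕ) (T : Finset ι)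
    (hi : i ∉ T) : lg u (Function.update τ i p) T = lg u τ T := by
  unfold lg
  refine Finset.filter_congr fun j hj => ?_
  have hne : j ≠ i := by
    rintro rfl
    exact hi hj
  rw [Function.update_of_ne hne]

theorem lg_update_insert (u : ℝ) {ι : Type} [DecidableEq ι] (τ : ι → ℕ) (i : ι) (p : ℕ)
    (T : Finset ι) (hi : i ∉ T) (hp : u < Real.log p) :
    lg u (Function.update τ i p) (insert i T) = insert i (lg u τ T) := by
  have h1 := lg_update u τ i p T hi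
  unfold lg at h1 ⊢
  rw [Finset.filter_insert, if_pos, h1]
  rw [Function.update_self]
  exact hp

theorem size_bd {s : ℕ} (a0 S : ℕ) (u c : ℝ) (ν : Fin s → ℕ)
    (hy : c * 2 ^ (a0 + s) + u ≤ 2 ^ S * u) (j : ℕ) (τ : Idx ν → ℕ)
    (hτ : ∀ i : Idx ν, mu (lv a0 ν i) (τ i) ≠ 0) (I : Finset (Idx ν))
    (hI : ∀ i ∈ I, lv 0 ν i ≤ j) (h : 2 ^ S * u - sz τ I < u) :
    c / 2 ^ mm * 2 ^ s ≤ WW ν j := by
  have h1 := sz_le' a0 ν τ hτ j I hI
  have h2 : (0 : ℝ) < 2 ^ a0 := by positivity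
  have h3 : (0 : ℝ) < 2 ^ mm := by positivity
  rw [div_mul_eq_mul_div, div_le_iff₀ h3]
  rw [pow_add] at hy
  have h4 : 2 ^ a0 * (c * 2 ^ s) ≤ 2 ^ a0 * (WW ν j * 2 ^ mm) := by
    linarith
  exact le_of_mul_le_mul_left h4 h2

theorem first_one {s : ℕ} (D C : ℝ) (hD : 1 ≤ D) (hC : C = D * 2 ^ (2 * mm + 2)) (a0 L S : ℕ)
    (u c : ℝ) (ν : Fin s → ℕ)
    (hL : Laws (range (bd L)) (fun i : Idx ν => mu (lv a0 ν i)) (lv a0 ν) D)
    (hc : 0 < c) (hu1 : (2 : ℝ) ^ (a0 + mm + 1) ≤ u) (hu2 : u ≤ 2 ^ (a0 + mm + 2))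
    (hy : c * 2 ^ (a0 + s) + u ≤ 2 ^ S * u) (i : Idx ν) (T : Finset (Idx ν)) (hi : i ∉ T)
    (hT : ∀ j ∈ T, lv 0 ν j ≤ lv 0 ν i) :
    EX L a0 ν (fun τ => ind (ev S u τ (insert i T)) / u) ≤
      if c / C * 2 ^ s ≤ WW ν (lv 0 ν i) then C / 2 ^ lv a0 ν i else 0 := by
  have hD0 : 0 < D := by linarith
  have hu0 : (0 : ℝ) < u := lt_of_lt_of_le (by positivity) hu1
  have hC0 : 0 < C := by rw [hC]; positivity
  have hCm : (2 : ℝ) ^ mm ≤ C := by
    rw [hC]
    calc (2 : ℝ) ^ mm ≤ 2 ^ (2 * mm + 2) := pow_le_pow_right₀ (by norm_num) (by omega)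
      _ ≤ D * 2 ^ (2 * mm + 2) := le_mul_of_one_le_left (by positivity) hD
  have hu3 : (2 : ℝ) ^ a0 ≤ u := le_trans (pow_le_pow_right₀ (by norm_num) (by omega)) hu1
  unfold EX
  by_cases hW : c / C * 2 ^ s ≤ WW ν (lv 0 ν i)
  · rw [if_pos hW]
    by_cases hl : lv 0 ν i ≤ 2 * mm + 2
    · refine (Ex_mono _ _ hL.nonneg _ (fun _ => 1 / u) ?_).trans ?_
      · intro τ _
        exact div_le_div_of_nonneg_right (ind_le_one _) hu0.le
      · rw [Ex_const _ _ hL.mass, lv_eq, pow_add, div_le_div_iff₀ hu0 (by positivity), one_mul,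
          hC]
        have h1 : (2 : ℝ) ^ lv 0 ν i ≤ 2 ^ (2 * mm + 2) := pow_le_pow_right₀ (by norm_num) hl
        calc (2 : ℝ) ^ a0 * 2 ^ lv 0 ν i ≤ u * 2 ^ (2 * mm + 2) :=
              mul_le_mul hu3 h1 (by positivity) hu0.le
          _ ≤ D * (u * 2 ^ (2 * mm + 2)) := le_mul_of_one_le_left (by positivity) hD
          _ = D * 2 ^ (2 * mm + 2) * u := by ring
    · rw [Ex_pivot _ _ hL.mass i]
      have hDC : D ≤ C := by
        rw [hC]
        exact le_mul_of_one_le_right hD0.le (one_le_pow₀ (by norm_num))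
      refine (Ex_mono _ _ hL.nonneg _ (fun _ => D / 2 ^ lv a0 ν i) ?_).trans ?_
      · intro τ _
        have h1u : 1 ≤ u := le_trans (one_le_pow₀ (by norm_num)) hu3
        set v : ℝ := 2 ^ S * u - sz τ (lg u τ T) with hv
        have hd := hL.dens i (v - u) u h1u
        have h2 : ∑ p ∈ range (bd L), mu (lv a0 ν i) p *
            (ind (ev S u (Function.update τ i p) (insert i T)) / u) ≤
            (∑ p ∈ (range (bd L)).filter (fun p : ℕ => v - u ≤ Real.log p ∧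
              Real.log p ≤ v - u + u), mu (lv a0 ν i) p) / u := by
          rw [Finset.sum_filter, Finset.sum_div]
          apply Finset.sum_le_sum
          intro p _
          by_cases h0 : mu (lv a0 ν i) p = 0
          · rw [h0, zero_mul]
            split_ifs <;> simp
          have hp : u < Real.log p := by
            by_contra hcon
            push Not at hcon
            have h3 := lab_low (a := a0) hu2 hcon h0
            rw [lv_eq] at h3
            omega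
          by_cases he : ev S u (Function.update τ i p) (insert i T)
          · have he' := he
            unfold ev at he'
            rw [lg_update_insert u τ i p T hi hp, VarA.sz_update_insert τ i p _
              (fun hm => hi (lg_subset u τ T hm))] at he'
            rw [if_pos ⟨by linarith [he'.2], by linarith [he'.1]⟩, ind_of he]
            rw [mul_one_div]
          · rw [ind_not_of he]
            simp only [zero_div, mul_zero]
            split_ifs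
            · exact div_nonneg (mu_nonneg _ _) hu0.le
            · simp
        refine h2.trans ?_
        rw [div_le_iff₀ hu0]
        refine hd.trans (le_of_eq ?_)
        ring
      · rw [Ex_const _ _ hL.mass]
        exact div_le_div_of_nonneg_right hDC (by positivity)
  · rw [if_neg hW]
    refine (Ex_mono _ _ hL.nonneg _ (fun _ => 0) ?_).trans ?_
    · intro τ hτ
      have hn : ¬ ev S u τ (insert i T) := by
        intro he
        apply hW
        have h1 := size_bd a0 S u c ν hy (lv 0 ν i) τ (fun i => (hτ i).2) (lg u τ (insert i T))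
          (by
            intro j hj
            have h2 := lg_subset u τ _ hj
            rw [Finset.mem_insert] at h2
            rcases h2 with rfl | h2
            · exact le_rfl
            · exact hT j h2) he.2
        refine le_trans ?_ h1
        apply mul_le_mul_of_nonneg_right _ (by positivity)
        exact div_le_div_of_nonneg_left hc.le (by positivity) hCm
      rw [ind_not_of hn]
      simp
    · rw [Ex_const _ _ hL.mass]

theorem EV_le' {s : ℕ} (a0 : ℕ) (ν : Fin s → ℕ) (P : Finset ℕ) (D : ℝ)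
    (hL : Laws P (fun i : Idx ν => mu (lv a0 ν i)) (lv a0 ν) D) (y h : ℝ) (hh : 1 ≤ h)
    (i0 : Idx ν) (S1 : Finset (Idx ν)) (hS : i0 ∉ S1) :
    Ex P (fun i : Idx ν => mu (lv a0 ν i)) (EV ν y h i0 S1) ≤ D * h / 2 ^ lv a0 ν i0 := by
  rw [Ex_pivot P _ hL.mass i0]
  calc Ex P (fun i : Idx ν => mu (lv a0 ν i)) (fun τ => ∑ p ∈ P, mu (lv a0 ν i0) p *
        EV ν y h i0 S1 (Function.update τ i0 p))
      ≤ Ex P (fun i : Idx ν => mu (lv a0 ν i)) (fun _ => D * h / 2 ^ lv a0 ν i0) := by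
        apply Ex_mono _ _ hL.nonneg
        intro τ _
        refine le_trans (le_of_eq ?_) (hL.dens i0 (y - sz τ S1 - h) h hh)
        rw [Finset.sum_filter]
        apply Finset.sum_congr rfl
        intro p _
        unfold EV
        rw [HitB.sz_update τ S1 i0 p hS, Function.update_self]
        split_ifs with hc
        · rw [ind_of hc, mul_one]
        · rw [ind_not_of hc, mul_zero]
    _ = D * h / 2 ^ lv a0 ν i0 := Ex_const P _ hL.mass _

/-- the pointwise bound -/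
theorem point' {s : ℕ} (a0 S : ℕ) (u c : ℝ) (ν : Fin s → ℕ) (hc : 0 < c)
    (hy : c * 2 ^ (a0 + s) + u ≤ 2 ^ S * u) (j : ℕ) (τ : Idx ν → ℕ)
    (hτ : ∀ i : Idx ν, mu (lv a0 ν i) (τ i) ≠ 0) :
    ind (0 < RB S u τ) ≤
      (if c / 2 ^ mm * 2 ^ s ≤ WW ν j then 1 else 0) +
      ∑ i0 : Idx ν, ∑ S1 ∈ (HitB.AA ν j i0).powerset,
        if j < lv 0 ν i0 ∧ c / 2 ^ mm * 2 ^ s ≤ WW ν (lv 0 ν i0) then
          EV ν (2 ^ S * u) (u + 2 ^ mm * 2 ^ a0 * WW ν j) i0 S1 τ else 0 := by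
  set y : ℝ := 2 ^ S * u with hydef
  set h : ℝ := u + 2 ^ mm * 2 ^ a0 * WW ν j with hh
  have hn : ∀ (i0 : Idx ν) (S1 : Finset (Idx ν)), (0 : ℝ) ≤
      if j < lv 0 ν i0 ∧ c / 2 ^ mm * 2 ^ s ≤ WW ν (lv 0 ν i0) then
      EV ν y h i0 S1 τ else 0 := by
    intro i0 S1
    split_ifs
    · exact EV_nonneg _ _ _ _ _ _
    · exact le_refl _
  have hnn : 0 ≤ ∑ i0 : Idx ν, ∑ S1 ∈ (HitB.AA ν j i0).powerset,
        if j < lv 0 ν i0 ∧ c / 2 ^ mm * 2 ^ s ≤ WW ν (lv 0 ν i0) then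
          EV ν y h i0 S1 τ else 0 :=
    Finset.sum_nonneg fun i0 _ => Finset.sum_nonneg fun S1 _ => hn i0 S1
  have hnn2 : (0 : ℝ) ≤ (if c / 2 ^ mm * 2 ^ s ≤ WW ν j then 1 else 0) := by
    split_ifs <;> norm_num
  by_cases hex : 0 < RB S u τ
  swap
  · rw [ind_not_of hex]
    linarith
  rw [ind_of hex]
  have hex2 : ∃ I : Finset (Idx ν), ev S u τ I := by
    by_contra hcon
    push Not at hcon
    rw [RB_eq, Finset.sum_eq_zero (fun I _ => ind_not_of (hcon I))] at hex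
    exact lt_irrefl _ hex
  obtain ⟨I, hS0, hS1⟩ := hex2
  set J : Finset (Idx ν) := lg u τ I with hJ
  have hJne : J.Nonempty := by
    rw [Finset.nonempty_iff_ne_empty]
    intro h0
    rw [h0] at hS1
    have h1 : sz τ (∅ : Finset (Idx ν)) = 0 := by simp [sz]
    rw [h1] at hS1
    have h2 : 0 < c * 2 ^ (a0 + s) := by positivity
    linarith
  by_cases hall : ∀ i ∈ J, lv 0 ν i ≤ j
  · rw [if_pos (size_bd a0 S u c ν hy j τ hτ J hall hS1)]
    linarith
  · push Not at hall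
    obtain ⟨i1, hi1, hj1⟩ := hall
    obtain ⟨i0, hi0, hmax⟩ := Finset.exists_max_image J (lv 0 ν) ⟨i1, hi1⟩
    have hj0 : j < lv 0 ν i0 := lt_of_lt_of_le hj1 (hmax i1 hi1)
    have h2 := size_bd a0 S u c ν hy (lv 0 ν i0) τ hτ J hmax hS1
    set S2 := J.filter (fun i => lv 0 ν i ≤ j) with hS2
    set S1 := (J.filter (fun i => ¬ lv 0 ν i ≤ j)).erase i0 with hS1'
    have hi0' : i0 ∈ J.filter (fun i => ¬ lv 0 ν i ≤ j) := by
      simp [hi0, hj0]
    have hsz : sz τ J = sz τ S2 + (Real.log (τ i0) + sz τ S1) := by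
      unfold sz
      rw [← Finset.sum_filter_add_sum_filter_not J (fun i => lv 0 ν i ≤ j)]
      rw [hS1', Finset.add_sum_erase _ (fun i => Real.log (τ i)) hi0']
    have hS2a := sz_nonneg' τ S2
    have hS2b : sz τ S2 ≤ 2 ^ mm * 2 ^ a0 * WW ν j :=
      sz_le' a0 ν τ hτ j S2 (fun i hi => (Finset.mem_filter.mp hi).2)
    have hS1A : S1 ∈ (HitB.AA ν j i0).powerset := by
      rw [Finset.mem_powerset]
      unfold HitB.AA
      apply Finset.erase_subset_erase
      intro i hi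
      rw [Finset.mem_filter] at hi
      simp only [mem_filter, mem_univ, true_and]
      exact ⟨by omega, hmax i hi.1⟩
    have hev : EV ν y h i0 S1 τ = 1 := by
      apply ind_of
      constructor
      · linarith
      · linarith
    have hterm : (1 : ℝ) ≤ ∑ i0 : Idx ν, ∑ S1 ∈ (HitB.AA ν j i0).powerset,
        if j < lv 0 ν i0 ∧ c / 2 ^ mm * 2 ^ s ≤ WW ν (lv 0 ν i0) then
          EV ν y h i0 S1 τ else 0 := by
      calc (1 : ℝ) = if j < lv 0 ν i0 ∧ c / 2 ^ mm * 2 ^ s ≤ WW ν (lv 0 ν i0) then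
          EV ν y h i0 S1 τ else 0 := by rw [if_pos ⟨hj0, h2⟩, hev]
        _ ≤ ∑ S1 ∈ (HitB.AA ν j i0).powerset,
            if j < lv 0 ν i0 ∧ c / 2 ^ mm * 2 ^ s ≤ WW ν (lv 0 ν i0) then
            EV ν y h i0 S1 τ else 0 :=
          Finset.single_le_sum (fun S _ => hn i0 S) hS1A
        _ ≤ _ := Finset.single_le_sum
          (f := fun i0 : Idx ν => ∑ S1 ∈ (HitB.AA ν j i0).powerset,
            if j < lv 0 ν i0 ∧ c / 2 ^ mm * 2 ^ s ≤ WW ν (lv 0 ν i0) then
            EV ν y h i0 S1 τ else 0)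
          (fun i _ => Finset.sum_nonneg fun S _ => hn i S) (Finset.mem_univ i0)
    linarith

theorem laws_lv {D : ℝ} (hlaws : ∀ (ι : Type) [Fintype ι] [DecidableEq ι] (L : ℕ)
    (lev : ι → ℕ), (∀ i, 1 ≤ lev i ∧ lev i ≤ L) →
    Laws (range (bd L)) (fun i => mu (lev i)) lev D) (a0 s L : ℕ) (ν : Fin s → ℕ)
    (h : a0 + s ≤ L) :
    Laws (range (bd L)) (fun i : Idx ν => mu (lv a0 ν i)) (lv a0 ν) D := by
  apply hlaws
  intro i
  simp only [lv]
  have := i.1.2
  omega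

end HitD

open HitD HitB

theorem rb_first : ∃ C : ℝ, 1 ≤ C ∧ ∀ (a0 s L S : ℕ) (u c : ℝ) (ν : Fin s → ℕ), a0 + s ≤ L →
    0 < c → (2 : ℝ) ^ (a0 + mm + 1) ≤ u → u ≤ 2 ^ (a0 + mm + 2) →
    c * 2 ^ (a0 + s) + u ≤ 2 ^ S * u →
    EX L a0 ν (fun τ => RB S u τ / u) ≤ C / 2 ^ a0 * Hj (c / C) ν 0 := by
  obtain ⟨D, hD, hlaws⟩ := laws_mu
  have hD0 : 0 < D := by linarith
  set C : ℝ := D * 2 ^ (2 * mm + 2) with hC
  have hC1 : 1 ≤ C := by
    rw [hC]
    exact one_le_mul_of_one_le_of_one_le hD (one_le_pow₀ (by norm_num))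
  refine ⟨C, hC1, ?_⟩
  intro a0 s L S u c ν hLs hc hu1 hu2 hy
  have hL := laws_lv hlaws a0 s L ν hLs
  have hu0 : (0 : ℝ) < u := lt_of_lt_of_le (by positivity) hu1
  obtain ⟨k, hk, hk2⟩ := VarA.exists_key (lv a0 ν)
  have hk3 : ∀ i j, k i ≤ k j → lv 0 ν i ≤ lv 0 ν j := by
    intro i j hij
    have := hk2 i j hij
    rw [lv_eq, lv_eq a0 ν j] at this
    omega
  set F : ℕ → ℕ → ℝ := fun n l =>
    if c / C * 2 ^ s ≤ WW ν (l - a0) then 2 ^ n * (C / 2 ^ l) else 0 with hF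
  have step1 : EX L a0 ν (fun τ => RB S u τ / u) =
      ∑ I : Finset (Idx ν), EX L a0 ν (fun τ => ind (ev S u τ I) / u) := by
    have h1 : (fun τ : Idx ν → ℕ => RB S u τ / u) =
        fun τ => ∑ I : Finset (Idx ν), ind (ev S u τ I) / u := by
      funext τ
      rw [RB_eq, Finset.sum_div]
    rw [h1]
    unfold EX
    rw [Ex_fsum]
  have step2 := sum_top' k hk (fun I => EX L a0 ν (fun τ => ind (ev S u τ I) / u))
    (fun i => if c / C * 2 ^ s ≤ WW ν (lv 0 ν i) then C / 2 ^ lv a0 ν i else 0)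
    (by
      intro i
      split_ifs
      · positivity
      · exact le_rfl)
    (by
      intro i T hi hT
      exact first_one D C hD hC a0 L S u c ν hL hc hu1 hu2 hy i T hi
        (fun j hj => hk3 j i (hT j hj)))
  have hempty : EX L a0 ν (fun τ => ind (ev S u τ ∅) / u) = 0 := by
    have h1 : (fun τ : Idx ν → ℕ => ind (ev S u τ ∅) / u) = fun _ => 0 := by
      funext τ
      have hn : ¬ ev S u τ ∅ := by
        intro he
        have h2 := he.2
        have h3 : sz τ (lg u τ (∅ : Finset (Idx ν))) = 0 := by simp [sz, lg]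
        rw [h3] at h2
        have h4 : 0 < c * 2 ^ (a0 + s) := by positivity
        linarith
      rw [ind_not_of hn, zero_div]
    rw [h1]
    unfold EX
    exact Ex_const _ _ hL.mass 0
  rw [step1]
  refine step2.trans ?_
  rw [hempty, zero_add]
  have step3 : ∑ i : Idx ν, (2 : ℝ) ^ (VarA.bel k i).card *
      (if c / C * 2 ^ s ≤ WW ν (lv 0 ν i) then C / 2 ^ lv a0 ν i else 0) ≤
      ∑ i : Idx ν, F (nb (lv a0 ν) i) (lv a0 ν i) := by
    apply Finset.sum_le_sum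
    intro i _
    have h1 : lv a0 ν i - a0 = lv 0 ν i := by
      rw [lv_eq]
      omega
    rw [hF]
    simp only
    rw [h1]
    split_ifs
    · exact mul_le_mul_of_nonneg_right (VarA.pow_bel (lv a0 ν) k hk2 i) (by positivity)
    · simp
  refine step3.trans ?_
  rw [sum_lv a0 ν F]
  have hHj : ∑ l : Fin s, (if 0 ≤ (l : ℕ) ∧ c / C * 2 ^ s ≤ 2 ^ ((l : ℕ) + 1) * Q ν (l + 1) then
      (ν l : ℝ) * (2 : ℝ) ^ (X ν 0 - X ν (l + 1)) else 0) ≤ Hj (c / C) ν 0 := by
    unfold Hj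
    have h1 : (0 : ℝ) ≤ (if c / C * 2 ^ s ≤ 2 ^ 0 * Q ν 0 then (1 : ℝ) else 0) := by
      split_ifs <;> norm_num
    have h2 : 0 ≤ Q ν 0 := Q_nonneg ν 0
    have h3 : 0 ≤ ∑ l : Fin s, (if 0 ≤ (l : ℕ) ∧ c / C * 2 ^ s ≤ 2 ^ ((l : ℕ) + 1) *
        Q ν (l + 1) then (ν l : ℝ) * (2 : ℝ) ^ (X ν 0 - X ν (l + 1)) else 0) := by
      apply Finset.sum_nonneg
      intro l _
      split_ifs
      · positivity
      · exact le_rfl
    nlinarith
  refine le_trans ?_ (mul_le_mul_of_nonneg_left hHj (by positivity))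
  rw [Finset.mul_sum]
  apply Finset.sum_le_sum
  intro l _
  rw [hF]
  simp only
  have h1 : a0 + (l : ℕ) + 1 - a0 = (l : ℕ) + 1 := by omega
  rw [h1, ← Q_eq]
  have h0 : 0 ≤ (l : ℕ) := Nat.zero_le _
  simp only [h0, true_and]
  split_ifs with hcond
  · have h2 : (2 : ℝ) ^ (X ν 0 - X ν ((l : ℕ) + 1)) = 2 ^ cnt ν ((l : ℕ) + 1) / 2 ^ ((l : ℕ) + 1) := by
      have h3 : cnt ν 0 = 0 := by simp [cnt]
      have h4 : X ν 0 - X ν ((l : ℕ) + 1) = (cnt ν ((l : ℕ) + 1) : ℤ) - (((l : ℕ) + 1 : ℕ) : ℤ) := by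
        unfold X
        rw [h3]
        push_cast
        ring
      rw [h4, zpow_sub₀ (by norm_num), zpow_natCast, zpow_natCast]
    rw [h2]
    apply le_of_eq
    rw [add_assoc, pow_add 2 a0]
    field_simp
  · simp

theorem rb_hit : ∃ C : ℝ, 1 ≤ C ∧ ∀ (a0 s L S : ℕ) (u c : ℝ) (ν : Fin s → ℕ), a0 + s ≤ L →
    0 < c → (2 : ℝ) ^ (a0 + mm + 1) ≤ u → u ≤ 2 ^ (a0 + mm + 2) →
    c * 2 ^ (a0 + s) + u ≤ 2 ^ S * u → ∀ j ≤ s,
    EX L a0 ν (fun τ => ind (0 < RB S u τ)) ≤ C * Hj (c / C) ν j := by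
  obtain ⟨D, hD, hlaws⟩ := laws_mu
  have hD0 : 0 < D := by linarith
  set C : ℝ := D * 2 ^ (mm + 2) with hC
  have hC1 : 1 ≤ C := by
    rw [hC]
    exact one_le_mul_of_one_le_of_one_le hD (one_le_pow₀ (by norm_num))
  have hC0 : 0 < C := by linarith
  have hCm : (2 : ℝ) ^ mm ≤ C := by
    rw [hC]
    calc (2 : ℝ) ^ mm ≤ 2 ^ (mm + 2) := pow_le_pow_right₀ (by norm_num) (by omega)
      _ ≤ D * 2 ^ (mm + 2) := le_mul_of_one_le_left (by positivity) hD
  refine ⟨C, hC1, ?_⟩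
  intro a0 s L S u c ν hLs hc hu1 hu2 hy j hj
  have hL := laws_lv hlaws a0 s L ν hLs
  have hu0 : (0 : ℝ) < u := lt_of_lt_of_le (by positivity) hu1
  have h1u : 1 ≤ u := le_trans (one_le_pow₀ (by norm_num)) hu1
  set P := range (bd L) with hP
  set m : Idx ν → ℕ → ℝ := fun i : Idx ν => mu (lv a0 ν i) with hm
  set h : ℝ := u + 2 ^ mm * 2 ^ a0 * WW ν j with hh
  have hW := WW_nonneg ν j
  have hh1 : 1 ≤ h := by
    have : 0 ≤ (2 : ℝ) ^ mm * 2 ^ a0 * WW ν j := by positivity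
    linarith
  -- expectation of the pointwise bound
  have step1 : EX L a0 ν (fun τ => ind (0 < RB S u τ)) ≤
      (if c / 2 ^ mm * 2 ^ s ≤ WW ν j then 1 else 0) +
      ∑ i0 : Idx ν, ∑ S1 ∈ (HitB.AA ν j i0).powerset,
        if j < lv 0 ν i0 ∧ c / 2 ^ mm * 2 ^ s ≤ WW ν (lv 0 ν i0) then
          D * h / 2 ^ lv a0 ν i0 else 0 := by
    calc EX L a0 ν (fun τ => ind (0 < RB S u τ))
        ≤ Ex P m (fun τ => (if c / 2 ^ mm * 2 ^ s ≤ WW ν j then 1 else 0) +
          ∑ i0 : Idx ν, ∑ S1 ∈ (HitB.AA ν j i0).powerset,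
            if j < lv 0 ν i0 ∧ c / 2 ^ mm * 2 ^ s ≤ WW ν (lv 0 ν i0) then
            EV ν (2 ^ S * u) h i0 S1 τ else 0) := by
          apply Ex_mono _ _ hL.nonneg
          intro τ hτ
          exact point' a0 S u c ν hc hy j τ (fun i => (hτ i).2)
      _ = (if c / 2 ^ mm * 2 ^ s ≤ WW ν j then 1 else 0) +
          ∑ i0 : Idx ν, ∑ S1 ∈ (HitB.AA ν j i0).powerset,
            Ex P m (fun τ => if j < lv 0 ν i0 ∧ c / 2 ^ mm * 2 ^ s ≤ WW ν (lv 0 ν i0) then
            EV ν (2 ^ S * u) h i0 S1 τ else 0) := by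
          rw [Ex_add, Ex_const P m hL.mass, Ex_fsum]
          congr 1
          apply Finset.sum_congr rfl
          intro i0 _
          rw [Ex_fsum]
      _ ≤ _ := by
          apply add_le_add (le_refl _)
          apply Finset.sum_le_sum
          intro i0 _
          apply Finset.sum_le_sum
          intro S1 hS1
          split_ifs with hcnd
          · apply EV_le' a0 ν P D hL (2 ^ S * u) h hh1 i0 S1
            rw [Finset.mem_powerset] at hS1
            intro hmem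
            have := hS1 hmem
            unfold HitB.AA at this
            simp at this
          · rw [Ex_const P m hL.mass]
  refine step1.trans ?_
  unfold Hj
  rw [mul_add C]
  have hcD : ∀ t : ℝ, c / 2 ^ mm * 2 ^ s ≤ t → c / C * 2 ^ s ≤ t := by
    intro t ht
    refine le_trans ?_ ht
    apply mul_le_mul_of_nonneg_right _ (by positivity)
    exact div_le_div_of_nonneg_left hc.le (by positivity) hCm
  apply add_le_add
  · rw [Q_eq]
    split_ifs with h1 h2 h2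
    · linarith
    · exact absurd (hcD _ h1) h2
    · positivity
    · simp
  · rw [← mul_assoc, Finset.mul_sum, Fintype.sum_sigma]
    apply Finset.sum_le_sum
    intro l _
    have hQ := Q_nonneg ν j
    have hCQ : 0 ≤ C * (Q ν j + 1) := by positivity
    have hhQ : h ≤ 2 ^ (mm + 2) * 2 ^ a0 * 2 ^ j * (Q ν j + 1) := by
      rw [hh, ← Q_eq]
      have e1 : (1 : ℝ) ≤ 2 ^ j := one_le_pow₀ (by norm_num)
      have e2 : u ≤ 2 ^ (mm + 2) * 2 ^ a0 * 2 ^ j := by
        calc u ≤ 2 ^ (a0 + mm + 2) := hu2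
          _ = 2 ^ (mm + 2) * 2 ^ a0 * 1 := by rw [mul_one, ← pow_add]; congr 1; omega
          _ ≤ 2 ^ (mm + 2) * 2 ^ a0 * 2 ^ j :=
            mul_le_mul_of_nonneg_left e1 (by positivity)
      have e3 : (2 : ℝ) ^ mm * 2 ^ a0 * (2 ^ j * Q ν j) ≤
          2 ^ (mm + 2) * 2 ^ a0 * 2 ^ j * Q ν j := by
        have e4 : (2 : ℝ) ^ mm ≤ 2 ^ (mm + 2) := pow_le_pow_right₀ (by norm_num) (by omega)
        calc (2 : ℝ) ^ mm * 2 ^ a0 * (2 ^ j * Q ν j) = 2 ^ mm * (2 ^ a0 * (2 ^ j * Q ν j)) := by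
              ring
          _ ≤ 2 ^ (mm + 2) * (2 ^ a0 * (2 ^ j * Q ν j)) :=
              mul_le_mul_of_nonneg_right e4 (by positivity)
          _ = _ := by ring
      linarith
    have key : ∀ k : Fin (ν l), (∑ S1 ∈ (HitB.AA ν j ⟨l, k⟩).powerset,
        if j < lv 0 ν ⟨l, k⟩ ∧ c / 2 ^ mm * 2 ^ s ≤ WW ν (lv 0 ν ⟨l, k⟩) then
          D * h / 2 ^ lv a0 ν ⟨l, k⟩ else 0) ≤
        C * (Q ν j + 1) *
        (if j ≤ (l : ℕ) ∧ c / C * 2 ^ s ≤ 2 ^ ((l : ℕ) + 1) * Q ν (l + 1) then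
          (2 : ℝ) ^ (X ν j - X ν (l + 1)) else 0) := by
      intro k
      have hlv : lv 0 ν ⟨l, k⟩ = (l : ℕ) + 1 := lev_eq ν ⟨l, k⟩
      rw [Finset.sum_const, Finset.card_powerset, nsmul_eq_mul, lv_eq a0 ν ⟨l, k⟩, hlv]
      split_ifs with h1 h2 h2
      · have hcard := card_AA ν j ⟨l, k⟩ (by rw [hlv]; exact h1.1)
        rw [hlv] at hcard
        rw [pow_id ν j ((l : ℕ) + 1) _ hcard]
        set a := (HitB.AA ν j ⟨l, k⟩).card with ha
        push_cast
        have e1 : (2 : ℝ) ^ a * (D * h / 2 ^ (a0 + ((l : ℕ) + 1))) =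
            (2 ^ a * D / 2 ^ (a0 + ((l : ℕ) + 1))) * h := by ring
        rw [e1]
        calc (2 ^ a * D / 2 ^ (a0 + ((l : ℕ) + 1))) * h
            ≤ (2 ^ a * D / 2 ^ (a0 + ((l : ℕ) + 1))) *
              (2 ^ (mm + 2) * 2 ^ a0 * 2 ^ j * (Q ν j + 1)) :=
              mul_le_mul_of_nonneg_left hhQ (by positivity)
          _ ≤ 2 * ((2 ^ a * D / 2 ^ (a0 + ((l : ℕ) + 1))) *
              (2 ^ (mm + 2) * 2 ^ a0 * 2 ^ j * (Q ν j + 1))) := by
              have : 0 ≤ (2 ^ a * D / 2 ^ (a0 + ((l : ℕ) + 1))) *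
                (2 ^ (mm + 2) * 2 ^ a0 * 2 ^ j * (Q ν j + 1)) := by
                positivity
              linarith
          _ = C * (Q ν j + 1) * (2 * 2 ^ a * 2 ^ j / 2 ^ ((l : ℕ) + 1)) := by
              rw [hC, pow_add 2 a0]
              field_simp
      · exfalso
        apply h2
        refine ⟨by omega, ?_⟩
        rw [Q_eq]
        exact hcD _ h1.2
      · simp only [mul_zero]
        have : (0 : ℝ) < (2 : ℝ) ^ (X ν j - X ν ((l : ℕ) + 1)) := by positivity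
        positivity
      · simp
    calc ∑ k : Fin (ν l), (∑ S1 ∈ (HitB.AA ν j ⟨l, k⟩).powerset,
        if j < lv 0 ν ⟨l, k⟩ ∧ c / 2 ^ mm * 2 ^ s ≤ WW ν (lv 0 ν ⟨l, k⟩) then
          D * h / 2 ^ lv a0 ν ⟨l, k⟩ else 0)
        ≤ ∑ _k : Fin (ν l), C * (Q ν j + 1) *
        (if j ≤ (l : ℕ) ∧ c / C * 2 ^ s ≤ 2 ^ ((l : ℕ) + 1) * Q ν (l + 1) then
          (2 : ℝ) ^ (X ν j - X ν (l + 1)) else 0) := Finset.sum_le_sum fun k _ => key k
      _ = _ := by
        rw [Finset.sum_const, Finset.card_univ, Fintype.card_fin, nsmul_eq_mul]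
        split_ifs
        · ring
        · ring

end Pool.Agent.EN2
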