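import Mathlib
import Pool.Agent.Lib.MP_ec0ede_nt_EN2.Defs
import Pool.Agent.Lib.MP_ec0ede_nt_EN.Path
import Pool.Agent.Lib.MP_ec0ede_nt_EN.LawA
import Pool.Agent.Lib.MP_ec0ede_nt_EN.LawC
import Pool.Agent.Lib.MP_ec0ede_nt_EN.ExB
import Pool.Agent.Lib.MP_ec0ede_nt_EN.Spl
import Pool.Agent.Lib.MP_ec0ede_nt_EN.HitB
import Pool.Agent.Lib.MP_ec0ede_nt_EN2.Rng
import Pool.Agent.Lib.MP_ec0ede_nt_EN2.VolC
import Pool.Agent.Lib.MP_ec0ede_nt_EN2.HitD
import Pool.Agent.Lib.MP_ec0ede_nt_EN2.DomP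

set_option autoImplicit false

/-!
# MP_ec0ede_nt, project EN2, module DomD: the domination of the sharp main term

The sum in `Hj`, without the factor depending on `j`, is `TT`; it is monotone in `j` and compatible
with the splitting of the counts into blocks.
-/

noncomputable section

namespace Pool.Agent.EN2

open Real Filter Topology Finset Pool.Agent.EN

namespace DomD

/-- the sum in `Hj`, without the factor depending on `j` -/
def TT (c : ℝ) {L : ℕ} (ν : Fin L → ℕ) (j : ℕ) : ℝ :=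
  ∑ l : Fin L, if j ≤ (l : ℕ) ∧ c * 2 ^ L ≤ 2 ^ ((l : ℕ) + 1) * Q ν (l + 1) then
    (ν l : ℝ) * (2 : ℝ) ^ (-X ν (l + 1)) else 0

theorem Hj_eq (c : ℝ) {L : ℕ} (ν : Fin L → ℕ) (j : ℕ) : Hj c ν j =
    (if c * 2 ^ L ≤ 2 ^ j * Q ν j then 1 else 0) +
      (Q ν j + 1) * ((2 : ℝ) ^ (X ν j) * TT c ν j) := by
  unfold Hj TT
  rw [Finset.mul_sum (Finset.univ : Finset (Fin L)) _ ((2 : ℝ) ^ (X ν j))]
  congr 2
  apply Finset.sum_congr rfl
  intro l _
  split_ifs
  · rw [sub_eq_add_neg, zpow_add₀ (by norm_num)]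
    ring
  · simp

theorem Q_nonneg {L : ℕ} (ν : Fin L → ℕ) (j : ℕ) : 0 ≤ Q ν j := by
  unfold Q
  exact Finset.sum_nonneg fun i _ => by split_ifs <;> positivity

theorem TT_nonneg (c : ℝ) {L : ℕ} (ν : Fin L → ℕ) (j : ℕ) : 0 ≤ TT c ν j := by
  unfold TT
  exact Finset.sum_nonneg fun i _ => by split_ifs <;> positivity

theorem Hj_nonneg (c : ℝ) {L : ℕ} (ν : Fin L → ℕ) (j : ℕ) : 0 ≤ Hj c ν j := by
  rw [Hj_eq]
  have h1 := Q_nonneg ν j
  have h2 := TT_nonneg c ν j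
  have h3 : (0 : ℝ) ≤ (if c * 2 ^ L ≤ 2 ^ j * Q ν j then 1 else 0) := by
    split_ifs <;> norm_num
  positivity

theorem TT_mono {c c' : ℝ} (hc : c' ≤ c) {L : ℕ} (ν : Fin L → ℕ) {j j' : ℕ} (hj : j ≤ j') :
    TT c ν j' ≤ TT c' ν j := by
  unfold TT
  apply Finset.sum_le_sum
  intro l _
  have h2 : (0 : ℝ) < 2 ^ L := by positivity
  by_cases h : j' ≤ (l : ℕ) ∧ c * 2 ^ L ≤ 2 ^ ((l : ℕ) + 1) * Q ν (l + 1)
  · rw [if_pos h, if_pos ⟨hj.trans h.1, le_trans (mul_le_mul_of_nonneg_right hc h2.le) h.2⟩]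
  · rw [if_neg h]
    split_ifs <;> positivity

theorem Hj_mono {c c' : ℝ} (hc : c' ≤ c) {L : ℕ} (ν : Fin L → ℕ) (j : ℕ) :
    Hj c ν j ≤ Hj c' ν j := by
  rw [Hj_eq, Hj_eq]
  have h1 := Q_nonneg ν j
  have h2 := TT_mono hc ν (le_refl j)
  have h3 : (0 : ℝ) < 2 ^ L := by positivity
  have h4 : (if c * 2 ^ L ≤ 2 ^ j * Q ν j then 1 else 0) ≤
      (if c' * 2 ^ L ≤ 2 ^ j * Q ν j then (1 : ℝ) else 0) := by
    by_cases h : c * 2 ^ L ≤ 2 ^ j * Q ν j
    · rw [if_pos h, if_pos (le_trans (mul_le_mul_of_nonneg_right hc h3.le) h)]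
    · rw [if_neg h]
      split_ifs <;> norm_num
  have h5 : (Q ν j + 1) * ((2 : ℝ) ^ (X ν j) * TT c ν j) ≤
      (Q ν j + 1) * ((2 : ℝ) ^ (X ν j) * TT c' ν j) := by
    apply mul_le_mul_of_nonneg_left _ (by linarith)
    exact mul_le_mul_of_nonneg_left h2 (by positivity)
  linarith

theorem Hj_zero {c : ℝ} (hc : 0 < c) {L : ℕ} (ν : Fin L → ℕ) : Hj c ν 0 = TT c ν 0 := by
  rw [Hj_eq]
  have h1 : Q ν 0 = 0 := by
    unfold Q
    exact Finset.sum_eq_zero fun i _ => if_neg (by omega)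
  have h2 : ¬ (c * 2 ^ L ≤ 2 ^ 0 * Q ν 0) := by
    rw [h1, mul_zero, not_le]
    positivity
  have h3 : X ν 0 = 0 := by simp [X, cnt]
  rw [if_neg h2, h1, h3]
  simp

theorem X_lo {m n : ℕ} (ν : Fin (m + n) → ℕ) {j : ℕ} (hj : j ≤ m) : X ν j = X (lo ν) j := by
  conv_lhs => rw [← append_lo_hi ν]
  exact X_append_left _ _ hj

theorem X_hi {m n : ℕ} (ν : Fin (m + n) → ℕ) (j : ℕ) : X ν (m + j) = X ν m + X (hi ν) j := by
  rw [X_lo ν (le_refl m)]
  conv_lhs => rw [← append_lo_hi ν]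
  exact X_append_right _ _ j

theorem Q_lo {m n : ℕ} (ν : Fin (m + n) → ℕ) {j : ℕ} (hj : j ≤ m) : Q ν j = Q (lo ν) j := by
  conv_lhs => rw [← append_lo_hi ν]
  exact Q_append_left _ _ hj

theorem Q_hi {m n : ℕ} (ν : Fin (m + n) → ℕ) (j : ℕ) : Q (hi ν) j ≤ Q ν (m + j) := by
  conv_rhs => rw [← append_lo_hi ν]
  rw [Q_append_right]
  have := Q_nonneg (lo ν) m
  have h2 : 0 ≤ Q (lo ν) m / 2 ^ j := by positivity
  linarith

theorem TT_hi (c : ℝ) {m n : ℕ} (ν : Fin (m + n) → ℕ) (j : ℕ) :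
    (2 : ℝ) ^ (-X ν m) * TT c (hi ν) j ≤ TT c ν (m + j) := by
  unfold TT
  rw [Fin.sum_univ_add, Finset.mul_sum]
  have h0 : (0 : ℝ) ≤ ∑ l : Fin m, (if m + j ≤ ((Fin.castAdd n l : Fin (m + n)) : ℕ) ∧
      c * 2 ^ (m + n) ≤ 2 ^ (((Fin.castAdd n l : Fin (m + n)) : ℕ) + 1) *
        Q ν (((Fin.castAdd n l : Fin (m + n)) : ℕ) + 1) then
      (ν (Fin.castAdd n l) : ℝ) * (2 : ℝ) ^ (-X ν (((Fin.castAdd n l : Fin (m + n)) : ℕ) + 1))
      else 0) :=
    Finset.sum_nonneg fun i _ => by split_ifs <;> positivity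
  refine le_trans ?_ (le_add_of_nonneg_left h0)
  apply Finset.sum_le_sum
  intro l _
  have hv : ((Fin.natAdd m l : Fin (m + n)) : ℕ) = m + (l : ℕ) := by simp
  rw [hv, add_assoc m (l : ℕ) 1]
  by_cases h : j ≤ (l : ℕ) ∧ c * 2 ^ n ≤ 2 ^ ((l : ℕ) + 1) * Q (hi ν) (l + 1)
  · have h1 : c * 2 ^ (m + n) ≤ 2 ^ (m + ((l : ℕ) + 1)) * Q ν (m + ((l : ℕ) + 1)) := by
      have e1 : c * 2 ^ (m + n) = 2 ^ m * (c * 2 ^ n) := by rw [pow_add]; ring
      have e2 : (2 : ℝ) ^ (m + ((l : ℕ) + 1)) * Q ν (m + ((l : ℕ) + 1)) =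
        2 ^ m * (2 ^ ((l : ℕ) + 1) * Q ν (m + ((l : ℕ) + 1))) := by rw [pow_add]; ring
      rw [e1, e2]
      apply mul_le_mul_of_nonneg_left _ (by positivity)
      refine h.2.trans ?_
      exact mul_le_mul_of_nonneg_left (Q_hi ν _) (by positivity)
    rw [if_pos h, if_pos ⟨by omega, h1⟩, X_hi, neg_add, zpow_add₀ (by norm_num)]
    unfold hi
    exact le_of_eq (by ring)
  · rw [if_neg h, mul_zero]
    split_ifs <;> positivity

theorem Hj_hi (c : ℝ) {m n : ℕ} (ν : Fin (m + n) → ℕ) (j : ℕ) :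
    Hj c (hi ν) j ≤ Hj c ν (m + j) := by
  rw [Hj_eq, Hj_eq]
  have hQ := Q_hi ν j
  have hQ0 := Q_nonneg (hi ν) j
  apply add_le_add
  · by_cases h : c * 2 ^ n ≤ 2 ^ j * Q (hi ν) j
    · have h1 : c * 2 ^ (m + n) ≤ 2 ^ (m + j) * Q ν (m + j) := by
        have e1 : c * 2 ^ (m + n) = 2 ^ m * (c * 2 ^ n) := by rw [pow_add]; ring
        have e2 : (2 : ℝ) ^ (m + j) * Q ν (m + j) = 2 ^ m * (2 ^ j * Q ν (m + j)) := by
          rw [pow_add]; ring
        rw [e1, e2]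
        apply mul_le_mul_of_nonneg_left _ (by positivity)
        exact h.trans (mul_le_mul_of_nonneg_left hQ (by positivity))
      rw [if_pos h, if_pos h1]
    · rw [if_neg h]
      split_ifs <;> norm_num
  · have hT := TT_hi c ν j
    have hT0 := TT_nonneg c (hi ν) j
    apply mul_le_mul (by linarith) _ (by positivity) (by linarith)
    rw [X_hi, zpow_add₀ (by norm_num : (2 : ℝ) ≠ 0)]
    have h2 : (2 : ℝ) ^ (X (hi ν) j) * TT c (hi ν) j =
        (2 : ℝ) ^ (X ν m) * (2 : ℝ) ^ (X (hi ν) j) * ((2 : ℝ) ^ (-X ν m) * TT c (hi ν) j) := by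
      rw [zpow_neg]
      have h3 : (2 : ℝ) ^ (X ν m) ≠ 0 := by positivity
      field_simp
    rw [h2]
    exact mul_le_mul_of_nonneg_left hT (by positivity)

theorem TT_hi2 (c : ℝ) {m n s : ℕ} (ν : Fin (m + (n + s)) → ℕ) :
    TT c (hi (hi ν)) 0 ≤ (2 : ℝ) ^ (X ν (m + n)) * TT c ν (m + n) := by
  have h1 := TT_hi c (hi ν) 0
  have h2 := TT_hi c ν (n + 0)
  rw [add_zero] at h1 h2
  rw [X_hi ν n, zpow_add₀ (by norm_num : (2 : ℝ) ≠ 0)]
  have h3 : (0 : ℝ) < (2 : ℝ) ^ (X ν m) := by positivity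
  have h4 : (0 : ℝ) < (2 : ℝ) ^ (X (hi ν) n) := by positivity
  rw [zpow_neg] at h1 h2
  have h5 : TT c (hi (hi ν)) 0 ≤ (2 : ℝ) ^ (X (hi ν) n) * TT c (hi ν) n := by
    rwa [inv_mul_le_iff₀ h4] at h1
  have h6 : TT c (hi ν) n ≤ (2 : ℝ) ^ (X ν m) * TT c ν (m + n) := by
    rwa [inv_mul_le_iff₀ h3] at h2
  calc TT c (hi (hi ν)) 0 ≤ (2 : ℝ) ^ (X (hi ν) n) * TT c (hi ν) n := h5
    _ ≤ (2 : ℝ) ^ (X (hi ν) n) * ((2 : ℝ) ^ (X ν m) * TT c ν (m + n)) :=
      mul_le_mul_of_nonneg_left h6 h4.le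
    _ = _ := by ring

theorem zpow_X {L : ℕ} (ν : Fin L → ℕ) (j : ℕ) : (2 : ℝ) ^ (X ν j) = 2 ^ j / 2 ^ cnt ν j := by
  unfold X
  rw [zpow_sub₀ (by norm_num), zpow_natCast, zpow_natCast]

/-- the bound from the first moment -/
theorem step {C1 : ℝ} (hC1 : 1 ≤ C1) {K n s S f b : ℕ} {u c : ℝ} (hu : 0 < u) (hc : 0 < c)
    (ν : Fin (K + (n + s)) → ℕ)
    (hfirst : EX (K + (n + s)) (K + n) (hi (hi ν)) (fun τ => RB S u τ / u) ≤
      C1 / 2 ^ (K + n) * Hj (c / C1) (hi (hi ν)) 0)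
    {V : ℝ} (hV : 0 ≤ V)
    (hvb : ∀ τ : Idx (lo ν) → ℕ, (∀ i, mu (lv 0 (lo ν) i) (τ i) ≠ 0) → vb b f τ ≤ V)
    {j : ℕ} (hj : j ≤ K + n) :
    PrD f K n s S b u (lo ν) (cnt (lo (hi ν)) n) (hi (hi ν)) ≤
      C1 * (V / 2 ^ cnt (lo ν) K) * TT (c / C1) ν j := by
  have h1 := PrD_le_first f K n s S b hu (lo ν) (cnt (lo (hi ν)) n) (hi (hi ν)) hV hvb
  rw [Hj_zero (by positivity)] at hfirst
  have h2 := TT_hi2 (c / C1) ν
  have h3 := TT_mono (le_refl (c / C1)) ν hj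
  have h4 : X ν (K + n) = X (lo ν) K + X (lo (hi ν)) n := by
    rw [X_hi, X_lo ν le_rfl, X_lo (hi ν) le_rfl]
  rw [h4, zpow_add₀ (by norm_num), zpow_X, zpow_X] at h2
  set N := cnt (lo (hi ν)) n
  set M := cnt (lo ν) K
  have h0 : 0 ≤ TT (c / C1) ν (K + n) := TT_nonneg _ _ _
  calc PrD f K n s S b u (lo ν) N (hi (hi ν))
      ≤ 2 ^ N * V * EX (K + (n + s)) (K + n) (hi (hi ν)) (fun τ' => RB S u τ' / u) := h1
    _ ≤ 2 ^ N * V * (C1 / 2 ^ (K + n) * TT (c / C1) (hi (hi ν)) 0) :=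
      mul_le_mul_of_nonneg_left hfirst (by positivity)
    _ ≤ 2 ^ N * V * (C1 / 2 ^ (K + n) *
        (2 ^ K / 2 ^ M * (2 ^ n / 2 ^ N) * TT (c / C1) ν (K + n))) := by
      apply mul_le_mul_of_nonneg_left _ (by positivity)
      exact mul_le_mul_of_nonneg_left h2 (by positivity)
    _ = C1 * (V / 2 ^ M) * TT (c / C1) ν (K + n) := by
      rw [pow_add]
      field_simp
    _ ≤ _ := mul_le_mul_of_nonneg_left h3 (by positivity)

theorem card_A {K : ℕ} (ν : Fin K → ℕ) (j : ℕ) :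
    (univ.filter (fun i : Idx ν => j < lv 0 ν i)).card + cnt ν j = cnt ν K := by
  rw [← HitB.card_lev, ← card_Idx ν, ← Finset.card_univ, add_comm]
  rw [← Finset.card_filter_add_card_filter_not (s := (univ : Finset (Idx ν)))
    (fun i => lv 0 ν i ≤ j)]
  congr 2
  ext i
  simp

/-- the bound for the bottom part, from the levels at most `j` -/
theorem vb_case {k f j : ℕ} (hj : j + mm < k) (ν : Fin (k + mm) → ℕ) (τ : Idx ν → ℕ)
    (hτ : ∀ i, mu (lv 0 ν i) (τ i) ≠ 0) :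
    vb (bb k) f τ ≤ 2 ^ (univ.filter (fun i : Idx ν => j < lv 0 ν i)).card *
      (f.divisors.card * (2 ^ mm * (2 ^ j * Q ν j) + 1)) := by
  apply vb_low
  · intro i hi
    by_contra hcon
    push Not at hcon
    have h1 := lab_extra hcon (hτ i)
    simp only [mem_filter, mem_univ, true_and, not_lt] at hi
    omega
  · rw [HitB.Q_eq]
    unfold HitB.WW
    rw [Finset.mul_sum]
    have h1 : univ.filter (fun i : Idx ν => i ∉ univ.filter (fun i : Idx ν => j < lv 0 ν i)) =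
        univ.filter (fun i : Idx ν => lv 0 ν i ≤ j) := by
      ext i
      simp
    rw [h1]
    apply Finset.sum_le_sum
    intro i _
    exact mm_hi (hτ i)

end DomD

open DomD in
theorem dom_D : ∃ C : ℝ, 1 ≤ C ∧ ∀ (k n s S f : ℕ) (u c : ℝ) (ν : Fin (k + mm + (n + s)) → ℕ),
    1 ≤ f → 0 < c → (2 : ℝ) ^ (k + mm + n + mm + 1) ≤ u → u ≤ 2 ^ (k + mm + n + mm + 2) →
    c * 2 ^ (k + mm + (n + s)) + u ≤ 2 ^ S * u → ∀ j ≤ k + mm + (n + s),
    ind (md (k + mm) n ν) * PrD f (k + mm) n s S (bb k) u (lo ν) (cnt (lo (hi ν)) n)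
      (hi (hi ν)) ≤ C * f.divisors.card * Hj (c / C) ν j := by
  obtain ⟨C1, hC1, hfirst⟩ := rb_first
  obtain ⟨C2, hC2, hhit⟩ := rb_hit
  set M : ℝ := 2 ^ (2 * mm) with hM
  have hM1 : 1 ≤ M := one_le_pow₀ (by norm_num)
  have hC12 : C1 ≤ C1 * C2 * M := by
    have : C1 * 1 ≤ C1 * (C2 * M) := mul_le_mul_of_nonneg_left (by nlinarith) (by linarith)
    linarith
  have hC1M : C1 * M ≤ C1 * C2 * M := by nlinarith
  have hC22 : C2 ≤ C1 * C2 * M := by
    have : C2 * 1 ≤ C2 * (C1 * M) := mul_le_mul_of_nonneg_left (by nlinarith) (by linarith)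
    linarith
  refine ⟨C1 * C2 * M, by linarith, ?_⟩
  set C := C1 * C2 * M with hC
  intro k n s S f u c ν hf hc hu1 hu2 hy j hj
  have hu : 0 < u := lt_of_lt_of_le (by positivity) hu1
  have hC0 : 0 < C := by linarith
  have hH0 := Hj_nonneg (c / C) ν j
  have hdiv : (1 : ℝ) ≤ f.divisors.card := by
    have : 0 < f.divisors.card := Finset.card_pos.mpr ⟨1, by simp; omega⟩
    exact_mod_cast this
  by_cases hmd : md (k + mm) n ν
  swap
  · rw [ind_not_of hmd, zero_mul]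
    positivity
  rw [ind_of hmd, one_mul]
  have hy' : c * 2 ^ (k + mm + n + s) + u ≤ 2 ^ S * u := by
    rw [add_assoc (k + mm) n s]
    exact hy
  have hL : k + mm + n + s ≤ k + mm + (n + s) := by omega
  rcases le_or_gt (k + mm + n) j with hja | hja
  · -- the top block
    obtain ⟨j', rfl⟩ := Nat.exists_eq_add_of_le hja
    have h1 := PrD_le_hit f (k + mm) n s S (bb k) hu (lo ν) (cnt (lo (hi ν)) n) (hi (hi ν))
    have h2 := hhit (k + mm + n) s (k + mm + (n + s)) S u c (hi (hi ν)) hL hc hu1 hu2 hy' j'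
      (by omega)
    have h3 := Hj_hi (c / C2) (hi ν) j'
    have h4 := Hj_hi (c / C2) ν (n + j')
    rw [← add_assoc (k + mm) n j'] at h4
    have h5 : c / C ≤ c / C2 := div_le_div_of_nonneg_left hc.le (by linarith) hC22
    have h6 := Hj_mono h5 ν (k + mm + n + j')
    calc PrD f (k + mm) n s S (bb k) u (lo ν) (cnt (lo (hi ν)) n) (hi (hi ν))
        ≤ C2 * Hj (c / C2) (hi (hi ν)) j' := h1.trans h2
      _ ≤ C2 * Hj (c / C) ν (k + mm + n + j') :=
        mul_le_mul_of_nonneg_left (h3.trans (h4.trans h6)) (by linarith)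
      _ ≤ (C * f.divisors.card) * Hj (c / C) ν (k + mm + n + j') := by
        apply mul_le_mul_of_nonneg_right _ hH0
        nlinarith
  have h1 := hfirst (k + mm + n) s (k + mm + (n + s)) S u c (hi (hi ν)) hL hc hu1 hu2 hy'
  have h5 : c / C ≤ c / C1 := div_le_div_of_nonneg_left hc.le (by linarith) hC12
  have hT := TT_mono h5 ν (le_refl j)
  have hT0 := TT_nonneg (c / C1) ν j
  have hQ0 := Q_nonneg ν j
  have hHT : (Q ν j + 1) * ((2 : ℝ) ^ (X ν j) * TT (c / C1) ν j) ≤ Hj (c / C) ν j := by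
    rw [Hj_eq]
    have h6 : (0 : ℝ) ≤ (if c / C * 2 ^ (k + mm + (n + s)) ≤ 2 ^ j * Q ν j then 1 else 0) := by
      split_ifs <;> norm_num
    have h7 : (Q ν j + 1) * ((2 : ℝ) ^ (X ν j) * TT (c / C1) ν j) ≤
        (Q ν j + 1) * ((2 : ℝ) ^ (X ν j) * TT (c / C) ν j) := by
      apply mul_le_mul_of_nonneg_left _ (by linarith)
      exact mul_le_mul_of_nonneg_left hT (by positivity)
    linarith
  rcases le_or_gt k (j + mm) with hjk | hjk
  · -- the levels near the middle block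
    have hXj : -((2 * mm : ℕ) : ℤ) ≤ X ν j := by
      rcases le_or_gt (k + mm) j with h6 | h6
      · have := hmd j h6 hja.le
        omega
      · have h7 := hmd (k + mm) le_rfl (by omega)
        have h8 : X ν (k + mm) ≤ X ν j + ((k + mm : ℕ) - j : ℕ) := by
          have h9 : cnt ν j ≤ cnt ν (k + mm) := by
            unfold cnt
            apply Finset.sum_le_sum
            intro i _
            split_ifs with ha hb
            · exact le_rfl
            · omega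
            · exact Nat.zero_le _
            · exact le_rfl
          unfold X
          push_cast [Nat.cast_sub h6.le]
          omega
        omega
    have hzX : 1 ≤ M * (2 : ℝ) ^ (X ν j) := by
      have h6 : (2 : ℝ) ^ (-((2 * mm : ℕ) : ℤ)) ≤ (2 : ℝ) ^ (X ν j) :=
        zpow_le_zpow_right₀ (by norm_num) hXj
      rw [zpow_neg, zpow_natCast] at h6
      calc (1 : ℝ) = M * (2 ^ (2 * mm))⁻¹ := by rw [hM]; field_simp
        _ ≤ _ := mul_le_mul_of_nonneg_left h6 (by positivity)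
    have h2 := step hC1 hu hc ν h1 (b := bb k) (f := f)
      (V := f.divisors.card * 2 ^ cnt (lo ν) (k + mm)) (by positivity)
      (fun τ _ => by rw [← card_Idx (lo ν)]; exact vb_le (bb k) f τ) hja.le
    have h3 : (f.divisors.card : ℝ) * 2 ^ cnt (lo ν) (k + mm) / 2 ^ cnt (lo ν) (k + mm) =
        f.divisors.card := by field_simp
    rw [h3] at h2
    refine h2.trans ?_
    calc C1 * (f.divisors.card : ℝ) * TT (c / C1) ν j
        ≤ C1 * (f.divisors.card : ℝ) * ((M * (2 : ℝ) ^ (X ν j)) * TT (c / C1) ν j) := by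
          apply mul_le_mul_of_nonneg_left _ (by positivity)
          exact le_mul_of_one_le_left hT0 hzX
      _ ≤ C1 * (f.divisors.card : ℝ) * (M *
          ((Q ν j + 1) * ((2 : ℝ) ^ (X ν j) * TT (c / C1) ν j))) := by
          apply mul_le_mul_of_nonneg_left _ (by positivity)
          rw [mul_assoc]
          apply mul_le_mul_of_nonneg_left _ (by positivity)
          exact le_mul_of_one_le_left (by positivity) (by linarith)
      _ = (C1 * M * f.divisors.card) * ((Q ν j + 1) * ((2 : ℝ) ^ (X ν j) * TT (c / C1) ν j)) := by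
          ring
      _ ≤ (C1 * M * f.divisors.card) * Hj (c / C) ν j :=
          mul_le_mul_of_nonneg_left hHT (by positivity)
      _ ≤ C * f.divisors.card * Hj (c / C) ν j := by
          apply mul_le_mul_of_nonneg_right _ hH0
          exact mul_le_mul_of_nonneg_right hC1M (by positivity)
  · -- the levels in the bottom block
    have hjK : j ≤ k + mm := by omega
    have hQlo : Q ν j = Q (lo ν) j := Q_lo ν hjK
    have hQ0' := Q_nonneg (lo ν) j
    have h2 := step hC1 hu hc ν h1 (b := bb k) (f := f)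
      (V := 2 ^ (univ.filter (fun i : Idx (lo ν) => j < lv 0 (lo ν) i)).card *
        (f.divisors.card * (2 ^ mm * (2 ^ j * Q (lo ν) j) + 1))) (by positivity)
      (fun τ hτ => vb_case hjk (lo ν) τ hτ) hja.le
    have hcard := card_A (lo ν) j
    set a := (univ.filter (fun i : Idx (lo ν) => j < lv 0 (lo ν) i)).card with ha
    have h3 : (2 : ℝ) ^ a * (f.divisors.card * (2 ^ mm * (2 ^ j * Q (lo ν) j) + 1)) /
        2 ^ cnt (lo ν) (k + mm) ≤ M * f.divisors.card * ((Q ν j + 1) * (2 : ℝ) ^ (X ν j)) := by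
      have h4 : (2 : ℝ) ^ (X ν j) = 2 ^ j / 2 ^ cnt (lo ν) j := by
        rw [X_lo ν hjK, zpow_X]
      rw [h4, ← hcard, pow_add, ← hQlo]
      have e1 : (2 : ℝ) ^ a * (f.divisors.card * (2 ^ mm * (2 ^ j * Q ν j) + 1)) /
          (2 ^ a * 2 ^ cnt (lo ν) j) =
          f.divisors.card * (2 ^ mm * (2 ^ j * Q ν j) + 1) / 2 ^ cnt (lo ν) j := by
        field_simp
      have e2 : M * f.divisors.card * ((Q ν j + 1) * (2 ^ j / 2 ^ cnt (lo ν) j)) =
          f.divisors.card * (M * (2 ^ j * (Q ν j + 1))) / 2 ^ cnt (lo ν) j := by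
        ring
      rw [e1, e2]
      apply div_le_div_of_nonneg_right _ (by positivity)
      apply mul_le_mul_of_nonneg_left _ (by positivity)
      have e3 : (2 : ℝ) ^ mm ≤ M := pow_le_pow_right₀ (by norm_num) (by omega)
      have e4 : (1 : ℝ) ≤ 2 ^ mm := one_le_pow₀ (by norm_num)
      have e5 : (1 : ℝ) ≤ 2 ^ j := one_le_pow₀ (by norm_num)
      have e6 : (2 : ℝ) ^ mm * (2 ^ j * Q ν j) + 1 ≤ 2 ^ mm * (2 ^ j * (Q ν j + 1)) := by
        have : (1 : ℝ) ≤ 2 ^ mm * 2 ^ j := by nlinarith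
        nlinarith
      refine e6.trans ?_
      exact mul_le_mul_of_nonneg_right e3 (by positivity)
    refine h2.trans ?_
    calc C1 * ((2 : ℝ) ^ a * (f.divisors.card * (2 ^ mm * (2 ^ j * Q (lo ν) j) + 1)) /
          2 ^ cnt (lo ν) (k + mm)) * TT (c / C1) ν j
        ≤ C1 * (M * f.divisors.card * ((Q ν j + 1) * (2 : ℝ) ^ (X ν j))) * TT (c / C1) ν j := by
          apply mul_le_mul_of_nonneg_right _ hT0
          exact mul_le_mul_of_nonneg_left h3 (by linarith)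
      _ = (C1 * M * f.divisors.card) * ((Q ν j + 1) * ((2 : ℝ) ^ (X ν j) * TT (c / C1) ν j)) := by
          ring
      _ ≤ (C1 * M * f.divisors.card) * Hj (c / C) ν j :=
          mul_le_mul_of_nonneg_left hHT (by positivity)
      _ ≤ C * f.divisors.card * Hj (c / C) ν j := by
          apply mul_le_mul_of_nonneg_right _ hH0
          exact mul_le_mul_of_nonneg_right hC1M (by positivity)

end Pool.Agent.EN2
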