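import Mathlib
import Pool.Agent.Lib.MP_ec0ede_nt_EN2.Defs
import Pool.Agent.Lib.MP_ec0ede_nt_EN.ZBd
import Pool.Agent.Lib.MP_ec0ede_nt_EN.Dom
import Pool.Agent.Lib.MP_ec0ede_nt_EN.Good
import Pool.Agent.Lib.MP_ec0ede_nt_EN2.Rng
import Pool.Agent.Lib.MP_ec0ede_nt_EN2.BadQ
import Pool.Agent.Lib.MP_ec0ede_nt_EN2.DomD
import Pool.Agent.Lib.MP_ec0ede_nt_EN2.DomP

set_option autoImplicit false

/-!
# MP_ec0ede_nt, project EN2, module StE: removing the bad paths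
-/

noncomputable section

namespace Pool.Agent.EN2

open Real Filter Topology Finset Pool.Agent.EN

namespace StE

/-- the function under study -/
abbrev DD (k n S f : ℕ) (u : ℝ) (ν : Fin (k + mm + (n + (S + ss))) → ℕ) : ℝ :=
  ind (md (k + mm) n ν) *
    PrD f (k + mm) n (S + ss) S (bb k) u (lo ν) (cnt (lo (hi ν)) n) (hi (hi ν))

theorem zz_gt : (1 : ℝ) < zz := by
  have h := Dom.zz_bounds.1
  linarith

theorem zs_ind {L c1 c2 : ℕ} (P : (Fin L → ℕ) → Prop) (inst : ∀ ν, Decidable (P ν))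
    (hP : ∀ ν, P ν → E0 c1 c2 ν) {B : ℝ} (hB : 0 ≤ B)
    (h : PW L (fun ν => @ite _ (P ν) (inst ν) 1 0) ≤ ENNReal.ofReal B) :
    ZS L (fun ν => ind (P ν)) ≤ zz ^ c2 * B := by
  have hz := zz_gt
  have hz0 : (0 : ℝ) < zz := by linarith
  refine ZS_le _ 1 _ (fun ν => ind_nonneg _) (fun ν => ind_le_one _) (by positivity) ?_
  rw [ENNReal.ofReal_mul (by positivity)]
  refine le_trans ?_ (mul_le_mul_right h _)
  rw [← Path.PW_const_mul]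
  refine PW_mono fun ν => ?_
  by_cases hν : P ν
  · rw [ind_of hν, if_pos hν, mul_one, mul_one]
    apply ENNReal.ofReal_le_ofReal
    have h1 := (hP ν hν).2
    rw [← zpow_natCast zz c2]
    exact zpow_le_zpow_right₀ hz.le h1
  · rw [ind_not_of hν, mul_zero, ENNReal.ofReal_zero]
    exact zero_le

theorem split {L c1 c2 A : ℕ} (hA : 1 ≤ A) (m p : (Fin L → ℕ) → ℝ) (Y : (Fin L → ℕ) → ℤ)
    (hm0 : ∀ ν, 0 ≤ m ν) (hm1 : ∀ ν, m ν ≤ 1) (hp0 : ∀ ν, 0 ≤ p ν) (hp1 : ∀ ν, p ν ≤ 1) :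
    ZS L (fun ν => m ν * (1 / ((Y ν).toNat : ℝ)) * p ν) ≤
      ZS L (fun ν => ind (¬ E0 c1 c2 ν) * (m ν * p ν)) +
      1 / (A : ℝ) * ZS L (fun ν => ind (E0 c1 c2 ν)) +
      ZS L (fun ν => ind (E0 c1 c2 ν ∧ Y ν ≤ A)) := by
  have hA' : (1 : ℝ) ≤ A := by exact_mod_cast hA
  have hA1 : 1 / (A : ℝ) ≤ 1 := by
    rw [div_le_one (by linarith)]
    exact hA'
  have hA0 : 0 ≤ 1 / (A : ℝ) := by positivity
  have hφ0 : ∀ ν, 0 ≤ 1 / ((Y ν).toNat : ℝ) := fun ν => by positivity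
  have hφ1 : ∀ ν, 1 / ((Y ν).toNat : ℝ) ≤ 1 := by
    intro ν
    rcases Nat.eq_zero_or_pos (Y ν).toNat with h | h
    · rw [h]
      norm_num
    · have : (1 : ℝ) ≤ (Y ν).toNat := by exact_mod_cast h
      rw [div_le_one (by linarith)]
      exact this
  have hmp0 : ∀ ν, 0 ≤ m ν * p ν := fun ν => mul_nonneg (hm0 ν) (hp0 ν)
  have hmp1 : ∀ ν, m ν * p ν ≤ 1 := fun ν => mul_le_one₀ (hm1 ν) (hp0 ν) (hp1 ν)
  have hF0 : ∀ ν, 0 ≤ m ν * (1 / ((Y ν).toNat : ℝ)) * p ν := fun ν =>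
    mul_nonneg (mul_nonneg (hm0 ν) (hφ0 ν)) (hp0 ν)
  have hFle : ∀ ν, m ν * (1 / ((Y ν).toNat : ℝ)) * p ν ≤ m ν * p ν := by
    intro ν
    have h := mul_le_of_le_one_left (hmp0 ν) (hφ1 ν)
    calc m ν * (1 / ((Y ν).toNat : ℝ)) * p ν = 1 / ((Y ν).toNat : ℝ) * (m ν * p ν) := by ring
      _ ≤ _ := h
  have hFφ : ∀ ν, m ν * (1 / ((Y ν).toNat : ℝ)) * p ν ≤ 1 / ((Y ν).toNat : ℝ) := by
    intro ν
    have h := mul_le_of_le_one_left (hφ0 ν) (hmp1 ν)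
    calc m ν * (1 / ((Y ν).toNat : ℝ)) * p ν = m ν * p ν * (1 / ((Y ν).toNat : ℝ)) := by ring
      _ ≤ _ := h
  have a1 : ∀ ν, |ind (¬ E0 c1 c2 ν) * (m ν * p ν)| ≤ 3 := by
    intro ν
    rw [abs_of_nonneg (mul_nonneg (ind_nonneg _) (hmp0 ν))]
    have := mul_le_one₀ (ind_le_one (¬ E0 c1 c2 ν)) (hmp0 ν) (hmp1 ν)
    linarith
  have a2 : ∀ ν : Fin L → ℕ, |1 / (A : ℝ) * ind (E0 c1 c2 ν)| ≤ 3 := by
    intro ν
    rw [abs_of_nonneg (mul_nonneg hA0 (ind_nonneg _))]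
    have := mul_le_one₀ hA1 (ind_nonneg _) (ind_le_one (E0 c1 c2 ν))
    linarith
  have a3 : ∀ ν, |ind (E0 c1 c2 ν ∧ Y ν ≤ A)| ≤ 3 := by
    intro ν
    rw [abs_of_nonneg (ind_nonneg _)]
    linarith [ind_le_one (E0 c1 c2 ν ∧ Y ν ≤ A)]
  have a12 : ∀ ν, |ind (¬ E0 c1 c2 ν) * (m ν * p ν) + 1 / (A : ℝ) * ind (E0 c1 c2 ν)| ≤ 3 := by
    intro ν
    rw [abs_of_nonneg (add_nonneg (mul_nonneg (ind_nonneg _) (hmp0 ν))
      (mul_nonneg hA0 (ind_nonneg _)))]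
    have h1 := mul_le_one₀ (ind_le_one (¬ E0 c1 c2 ν)) (hmp0 ν) (hmp1 ν)
    have h2 := mul_le_one₀ hA1 (ind_nonneg _) (ind_le_one (E0 c1 c2 ν))
    linarith
  rw [← ZS_mul, ← ZS_add _ _ 3 a1 a2, ← ZS_add _ _ 3 a12 a3]
  apply ZS_mono _ _ 3
  · intro ν
    rw [abs_of_nonneg (hF0 ν)]
    linarith [hFle ν, hmp1 ν]
  · intro ν
    rw [abs_of_nonneg (add_nonneg (add_nonneg (mul_nonneg (ind_nonneg _) (hmp0 ν))
      (mul_nonneg hA0 (ind_nonneg _))) (ind_nonneg _))]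
    have h1 := mul_le_one₀ (ind_le_one (¬ E0 c1 c2 ν)) (hmp0 ν) (hmp1 ν)
    have h2 := mul_le_one₀ hA1 (ind_nonneg _) (ind_le_one (E0 c1 c2 ν))
    have h3 := ind_le_one (E0 c1 c2 ν ∧ Y ν ≤ A)
    linarith
  · intro ν
    by_cases hE : E0 c1 c2 ν
    · have e1 : ind (¬ E0 c1 c2 ν) = 0 := ind_not_of (fun h => h hE)
      rw [e1, ind_of hE, zero_mul, zero_add, mul_one]
      by_cases hY : Y ν ≤ A
      · rw [ind_of ⟨hE, hY⟩]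
        have h1 := hFle ν
        have h2 := hmp1 ν
        linarith
      · have e2 : ind (E0 c1 c2 ν ∧ Y ν ≤ A) = 0 := ind_not_of (fun h => hY h.2)
        rw [e2, add_zero]
        refine (hFφ ν).trans ?_
        apply one_div_le_one_div_of_le (by linarith)
        have h3 : A ≤ (Y ν).toNat := by omega
        exact_mod_cast h3
    · have e1 : ind (¬ E0 c1 c2 ν) = 1 := ind_of hE
      have e2 : ind (E0 c1 c2 ν ∧ Y ν ≤ A) = 0 := ind_not_of (fun h => hE h.1)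
      rw [e1, e2, ind_not_of hE, one_mul, mul_zero, add_zero, add_zero]
      exact hFle ν

theorem u_pos {k n : ℕ} {u : ℝ} (hu : (2 : ℝ) ^ (k + mm + n + mm + 1) ≤ u) : 0 < u :=
  lt_of_lt_of_le (by positivity) hu

theorem dd_nonneg {k n S f : ℕ} {u : ℝ} (hu : (2 : ℝ) ^ (k + mm + n + mm + 1) ≤ u)
    (ν : Fin (k + mm + (n + (S + ss))) → ℕ) : 0 ≤ DD k n S f u ν :=
  mul_nonneg (ind_nonneg _) (PrD_nonneg _ _ _ _ _ _ (u_pos hu) _ _ _)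

theorem dd_le {k n S f : ℕ} {u : ℝ} (hu : (2 : ℝ) ^ (k + mm + n + mm + 1) ≤ u)
    (ν : Fin (k + mm + (n + (S + ss))) → ℕ) : DD k n S f u ν ≤ 1 :=
  mul_le_one₀ (ind_le_one _) (PrD_nonneg _ _ _ _ _ _ (u_pos hu) _ _ _)
    (PrD_le_one _ _ _ _ _ _ (u_pos hu) _ _ _)

theorem core : ∃ C0 c : ℝ, 1 ≤ C0 ∧ 0 < c ∧ ∀ (k n S f : ℕ) (u : ℝ), 1 ≤ f → 1 ≤ S →
    (2 : ℝ) ^ (k + mm + n + mm + 1) ≤ u → u ≤ 2 ^ (k + mm + n + mm + 2) →
    (∀ ν, 0 ≤ DD k n S f u ν / (C0 * f.divisors.card)) ∧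
    (∀ ν, DD k n S f u ν / (C0 * f.divisors.card) ≤ 1) ∧
    (∀ ν, ∀ j ≤ k + mm + (n + (S + ss)),
      DD k n S f u ν / (C0 * f.divisors.card) ≤ Hj (c / C0) ν j) ∧
    0 < C0 * f.divisors.card := by
  obtain ⟨C0, hC0, h⟩ := dom_D
  refine ⟨C0, 2 ^ mm / 2 ^ ss, hC0, by positivity, ?_⟩
  intro k n S f u hf hS hu1 hu2
  have hd1 : 1 ≤ f.divisors.card :=
    Finset.card_pos.mpr ⟨1, Nat.one_mem_divisors.mpr (by omega)⟩
  have hd1' : (1 : ℝ) ≤ f.divisors.card := by exact_mod_cast hd1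
  have hCd : 0 < C0 * (f.divisors.card : ℝ) := by
    have : (0 : ℝ) < C0 := by linarith
    positivity
  have hCd1 : 1 ≤ C0 * (f.divisors.card : ℝ) := by nlinarith
  refine ⟨fun ν => div_nonneg (dd_nonneg hu1 ν) hCd.le, fun ν => ?_, fun ν j hj => ?_, hCd⟩
  · rw [div_le_one hCd]
    exact (dd_le hu1 ν).trans hCd1
  · rw [div_le_iff₀ hCd]
    have hcu : 2 ^ mm / 2 ^ ss * 2 ^ (k + mm + (n + (S + ss))) + u ≤ 2 ^ S * u := by
      obtain ⟨S', rfl⟩ : ∃ S', S = S' + 1 := ⟨S - 1, by omega⟩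
      have hu0 := u_pos hu1
      have e1 : (2 : ℝ) ^ mm / 2 ^ ss * 2 ^ (k + mm + (n + (S' + 1 + ss))) =
          2 ^ S' * 2 ^ (k + mm + n + mm + 1) := by
        rw [div_mul_eq_mul_div, div_eq_iff (by positivity)]
        simp only [pow_add, pow_one]
        ring
      rw [e1]
      have h2 : (1 : ℝ) ≤ 2 ^ S' := one_le_pow₀ (by norm_num)
      have h3 : (2 : ℝ) ^ S' * 2 ^ (k + mm + n + mm + 1) ≤ 2 ^ S' * u :=
        mul_le_mul_of_nonneg_left hu1 (by positivity)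
      have h4 : u ≤ 2 ^ S' * u := by nlinarith
      have h5 : (2 : ℝ) ^ (S' + 1) * u = 2 ^ S' * u + 2 ^ S' * u := by
        rw [pow_succ]
        ring
      rw [h5]
      linarith
    refine (h k n (S + ss) S f u (2 ^ mm / 2 ^ ss) ν hf (by positivity) hu1 hu2 hcu j hj).trans
      (le_of_eq ?_)
    ring

/-- the choice of the constants for the two last theorems -/
theorem consts {C ρ ε : ℝ} (hρ0 : 0 < ρ) (hρ1 : ρ < 1) (F0 : ℕ) (hε : 0 < ε) :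
    ∃ c : ℕ, C * F0 * (ρ ^ c + ρ ^ c) ≤ ε / 3 := by
  have h1 : Tendsto (fun c : ℕ => C * F0 * (ρ ^ c + ρ ^ c)) atTop (𝓝 (C * F0 * (0 + 0))) := by
    have h2 := tendsto_pow_atTop_nhds_zero_of_lt_one hρ0.le hρ1
    exact (h2.add h2).const_mul _
  rw [add_zero, mul_zero] at h1
  have h3 := h1.eventually (gt_mem_nhds (show (0 : ℝ) < ε / 3 by positivity))
  obtain ⟨c, hc⟩ := h3.exists
  exact ⟨c, hc.le⟩

end StE

theorem st_T : ∃ C : ℝ, 0 < C ∧ ∀ (k n S f : ℕ) (u : ℝ), 1 ≤ f → 1 ≤ S →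
    (2 : ℝ) ^ (k + mm + n + mm + 1) ≤ u → u ≤ 2 ^ (k + mm + n + mm + 2) →
    ZS (k + mm + (n + (S + ss))) (fun ν => ind (md (k + mm) n ν) *
        PrD f (k + mm) n (S + ss) S (bb k) u (lo ν) (cnt (lo (hi ν)) n) (hi (hi ν))) ≤
      C * f.divisors.card / (((k + mm + (n + (S + ss)) : ℕ) : ℝ) + 1) ^ (3 / 2 : ℝ) := by
  obtain ⟨C0, c, hC0, hc, hcore⟩ := StE.core
  have hC0' : 0 < C0 := by linarith
  obtain ⟨C1, hC1, hall⟩ := dom_all (c := c / C0) (by positivity)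
  refine ⟨C0 * C1, by positivity, ?_⟩
  intro k n S f u hf hS hu1 hu2
  obtain ⟨h0, h1, hj, hCd⟩ := hcore k n S f u hf hS hu1 hu2
  have hZ := ZS_le (fun ν => StE.DD k n S f u ν / (C0 * f.divisors.card)) 1
    (C1 / (((k + mm + (n + (S + ss)) : ℕ) : ℝ) + 1) ^ (3 / 2 : ℝ)) h0 h1 (by positivity)
    (hall _ _ h1 hj)
  have e : (fun ν => StE.DD k n S f u ν) =
      fun ν => (C0 * f.divisors.card) * (StE.DD k n S f u ν / (C0 * f.divisors.card)) := by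
    funext ν
    rw [mul_div_cancel₀ _ hCd.ne']
  change ZS _ (fun ν => StE.DD k n S f u ν) ≤ _
  rw [e, ZS_mul]
  refine (mul_le_mul_of_nonneg_left hZ hCd.le).trans (le_of_eq ?_)
  ring

theorem st_O : ∃ C ρ : ℝ, 0 < C ∧ 0 < ρ ∧ ρ < 1 ∧ ∀ (c1 c2 k n S f : ℕ) (u : ℝ), 1 ≤ f → 1 ≤ S →
    (2 : ℝ) ^ (k + mm + n + mm + 1) ≤ u → u ≤ 2 ^ (k + mm + n + mm + 2) →
    ZS (k + mm + (n + (S + ss))) (fun ν => ind (¬ E0 c1 c2 ν) * (ind (md (k + mm) n ν) *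
        PrD f (k + mm) n (S + ss) S (bb k) u (lo ν) (cnt (lo (hi ν)) n) (hi (hi ν)))) ≤
      C * f.divisors.card * (ρ ^ c1 + ρ ^ c2) /
        (((k + mm + (n + (S + ss)) : ℕ) : ℝ) + 1) ^ (3 / 2 : ℝ) := by
  obtain ⟨C0, c, hC0, hc, hcore⟩ := StE.core
  have hC0' : 0 < C0 := by linarith
  obtain ⟨C1, ρ, hC1, hρ0, hρ1, hbad⟩ := dom_bad (c := c / C0) (by positivity)
  refine ⟨C0 * C1, ρ, by positivity, hρ0, hρ1, ?_⟩
  intro c1 c2 k n S f u hf hS hu1 hu2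
  obtain ⟨h0, h1, hj, hCd⟩ := hcore k n S f u hf hS hu1 hu2
  have hlaw : ∀ ν, ind (¬ E0 c1 c2 ν) * (StE.DD k n S f u ν / (C0 * f.divisors.card)) ≤
      StE.DD k n S f u ν / (C0 * f.divisors.card) := fun ν =>
    mul_le_of_le_one_left (h0 ν) (ind_le_one _)
  have hZ := ZS_le (fun ν => ind (¬ E0 c1 c2 ν) *
      (StE.DD k n S f u ν / (C0 * f.divisors.card))) 1
    (C1 * (ρ ^ c1 + ρ ^ c2) / (((k + mm + (n + (S + ss)) : ℕ) : ℝ) + 1) ^ (3 / 2 : ℝ))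
    (fun ν => mul_nonneg (ind_nonneg _) (h0 ν)) (fun ν => (hlaw ν).trans (h1 ν)) (by positivity)
    (hbad _ c1 c2 _ (fun ν => (hlaw ν).trans (h1 ν)) (fun ν j hjj => (hlaw ν).trans (hj ν j hjj))
      (fun ν hE => by
        have h5 : ind (¬ E0 c1 c2 ν) = 0 := ind_not_of (fun h => h hE)
        rw [h5, zero_mul]))
  have e : (fun ν => ind (¬ E0 c1 c2 ν) * StE.DD k n S f u ν) =
      fun ν => (C0 * f.divisors.card) * (ind (¬ E0 c1 c2 ν) *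
        (StE.DD k n S f u ν / (C0 * f.divisors.card))) := by
    funext ν
    have h6 : C0 * (f.divisors.card : ℝ) * (StE.DD k n S f u ν / (C0 * f.divisors.card)) =
        StE.DD k n S f u ν := mul_div_cancel₀ _ hCd.ne'
    calc ind (¬ E0 c1 c2 ν) * StE.DD k n S f u ν = ind (¬ E0 c1 c2 ν) *
          (C0 * (f.divisors.card : ℝ) * (StE.DD k n S f u ν / (C0 * f.divisors.card))) := by
          rw [h6]
      _ = _ := by ring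
  change ZS _ (fun ν => ind (¬ E0 c1 c2 ν) * StE.DD k n S f u ν) ≤ _
  rw [e, ZS_mul]
  refine (mul_le_mul_of_nonneg_left hZ hCd.le).trans (le_of_eq ?_)
  ring

theorem st_E : ∃ C ρ : ℝ, 0 < C ∧ 0 < ρ ∧ ρ < 1 ∧ ∀ (c1 c2 : ℕ) (ε : ℝ), 0 < ε → ∃ K0 : ℕ,
    ∀ k S : ℕ, K0 ≤ k → K0 ≤ S → ∃ n0 : ℕ, ∀ n ≥ n0, ∀ (f : ℕ) (u : ℝ), 1 ≤ f →
    (2 : ℝ) ^ (k + mm + n + mm + 1) ≤ u → u ≤ 2 ^ (k + mm + n + mm + 2) →
    |ZS (k + mm + (n + (S + ss))) (fun ν => ind (E0 c1 c2 ν) *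
        PrD f (k + mm) n (S + ss) S (bb k) u (lo ν) (cnt (lo (hi ν)) n) (hi (hi ν))) -
      ZS (k + mm + (n + (S + ss))) (fun ν => ind (md (k + mm) n ν) *
        PrD f (k + mm) n (S + ss) S (bb k) u (lo ν) (cnt (lo (hi ν)) n) (hi (hi ν)))| ≤
      (C * f.divisors.card * (ρ ^ c1 + ρ ^ c2) + ε) /
        (((k + mm + (n + (S + ss)) : ℕ) : ℝ) + 1) ^ (3 / 2 : ℝ) := by
  obtain ⟨C, ρ, hC, hρ0, hρ1, hO⟩ := st_O
  refine ⟨C, ρ, hC, hρ0, hρ1, ?_⟩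
  intro c1 c2 ε hε
  have hz := StE.zz_gt
  have hz0 : (0 : ℝ) < zz := by linarith
  have hzc : (0 : ℝ) < zz ^ c2 := by positivity
  obtain ⟨D0, E, hbad⟩ := bad_2 c1 c2 (ε := ε / zz ^ c2) (by positivity)
  obtain ⟨K0, hK0⟩ := hbad (1 / 2) (by norm_num)
  refine ⟨max K0 1, ?_⟩
  intro k S hk hS
  obtain ⟨n0, hn0⟩ := hK0 (k + mm) (S + ss) (by omega) (by omega)
  refine ⟨n0, ?_⟩
  intro n hn f u hf hu1 hu2
  have hu0 := StE.u_pos hu1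
  have hS1 : 1 ≤ S := by omega
  set L := k + mm + (n + (S + ss)) with hL
  have hpos : 0 < ((L : ℝ) + 1) ^ (3 / 2 : ℝ) := by positivity
  have hO1 := hO c1 c2 k n S f u hf hS1 hu1 hu2
  have hN := hn0 n hn
  have hp0 : ∀ ν : Fin L → ℕ, 0 ≤ PrD f (k + mm) n (S + ss) S (bb k) u (lo ν)
      (cnt (lo (hi ν)) n) (hi (hi ν)) := fun ν => PrD_nonneg _ _ _ _ _ _ hu0 _ _ _
  have hp1 : ∀ ν : Fin L → ℕ, PrD f (k + mm) n (S + ss) S (bb k) u (lo ν)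
      (cnt (lo (hi ν)) n) (hi (hi ν)) ≤ 1 := fun ν => PrD_le_one _ _ _ _ _ _ hu0 _ _ _
  have hind : ZS L (fun ν => ind (E0 c1 c2 ν ∧ ¬ md (k + mm) n ν)) ≤
      zz ^ c2 * (ε / zz ^ c2 / ((L : ℝ) + 1) ^ (3 / 2 : ℝ)) := by
    classical
    apply StE.zs_ind (c1 := c1) (c2 := c2) _ (fun ν => inferInstance) (fun ν h => h.1)
      (by positivity)
    refine (PW_mono fun ν => ?_).trans hN
    by_cases h1 : E0 c1 c2 ν ∧ ¬ md (k + mm) n ν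
    · rw [if_pos h1, if_pos ⟨h1.1, fun h2 => h1.2 (nice2_md h2 (by norm_num))⟩]
    · rw [if_neg h1]
      exact zero_le
  have hsum : zz ^ c2 * (ε / zz ^ c2 / ((L : ℝ) + 1) ^ (3 / 2 : ℝ)) =
      ε / ((L : ℝ) + 1) ^ (3 / 2 : ℝ) := by
    field_simp
  rw [hsum] at hind
  have b1 : ∀ ν : Fin L → ℕ, |ind (E0 c1 c2 ν) *
      PrD f (k + mm) n (S + ss) S (bb k) u (lo ν) (cnt (lo (hi ν)) n) (hi (hi ν))| ≤ 2 := by
    intro ν
    rw [abs_of_nonneg (mul_nonneg (ind_nonneg _) (hp0 ν))]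
    have := mul_le_one₀ (ind_le_one (E0 c1 c2 ν)) (hp0 ν) (hp1 ν)
    linarith
  have b2 : ∀ ν : Fin L → ℕ, |ind (md (k + mm) n ν) *
      PrD f (k + mm) n (S + ss) S (bb k) u (lo ν) (cnt (lo (hi ν)) n) (hi (hi ν))| ≤ 2 := by
    intro ν
    rw [abs_of_nonneg (mul_nonneg (ind_nonneg _) (hp0 ν))]
    have := mul_le_one₀ (ind_le_one (md (k + mm) n ν)) (hp0 ν) (hp1 ν)
    linarith
  have b3 : ∀ ν : Fin L → ℕ, |ind (E0 c1 c2 ν ∧ ¬ md (k + mm) n ν)| ≤ 2 := by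
    intro ν
    rw [abs_of_nonneg (ind_nonneg _)]
    linarith [ind_le_one (E0 c1 c2 ν ∧ ¬ md (k + mm) n ν)]
  have b4' : ∀ ν : Fin L → ℕ, 0 ≤ ind (¬ E0 c1 c2 ν) * (ind (md (k + mm) n ν) *
      PrD f (k + mm) n (S + ss) S (bb k) u (lo ν) (cnt (lo (hi ν)) n) (hi (hi ν))) ∧
      ind (¬ E0 c1 c2 ν) * (ind (md (k + mm) n ν) *
      PrD f (k + mm) n (S + ss) S (bb k) u (lo ν) (cnt (lo (hi ν)) n) (hi (hi ν))) ≤ 1 := by
    intro ν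
    have h1 := mul_nonneg (ind_nonneg (md (k + mm) n ν)) (hp0 ν)
    have h2 := mul_le_one₀ (ind_le_one (md (k + mm) n ν)) (hp0 ν) (hp1 ν)
    exact ⟨mul_nonneg (ind_nonneg _) h1, mul_le_one₀ (ind_le_one _) h1 h2⟩
  have b4 : ∀ ν : Fin L → ℕ, |ind (¬ E0 c1 c2 ν) * (ind (md (k + mm) n ν) *
      PrD f (k + mm) n (S + ss) S (bb k) u (lo ν) (cnt (lo (hi ν)) n) (hi (hi ν)))| ≤ 2 := by
    intro ν
    rw [abs_of_nonneg (b4' ν).1]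
    linarith [(b4' ν).2]
  have b34 : ∀ ν : Fin L → ℕ, |ind (E0 c1 c2 ν ∧ ¬ md (k + mm) n ν) +
      ind (¬ E0 c1 c2 ν) * (ind (md (k + mm) n ν) *
      PrD f (k + mm) n (S + ss) S (bb k) u (lo ν) (cnt (lo (hi ν)) n) (hi (hi ν)))| ≤ 2 := by
    intro ν
    rw [abs_of_nonneg (add_nonneg (ind_nonneg _) (b4' ν).1)]
    linarith [(b4' ν).2, ind_le_one (E0 c1 c2 ν ∧ ¬ md (k + mm) n ν)]
  have hD := ZS_dist (fun ν : Fin L → ℕ => ind (E0 c1 c2 ν) *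
        PrD f (k + mm) n (S + ss) S (bb k) u (lo ν) (cnt (lo (hi ν)) n) (hi (hi ν)))
    (fun ν => ind (md (k + mm) n ν) *
        PrD f (k + mm) n (S + ss) S (bb k) u (lo ν) (cnt (lo (hi ν)) n) (hi (hi ν)))
    (fun ν => ind (E0 c1 c2 ν ∧ ¬ md (k + mm) n ν) +
      ind (¬ E0 c1 c2 ν) * (ind (md (k + mm) n ν) *
      PrD f (k + mm) n (S + ss) S (bb k) u (lo ν) (cnt (lo (hi ν)) n) (hi (hi ν)))) 2 b1 b2 b34
    (by
      intro ν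
      by_cases h1 : E0 c1 c2 ν
      · have e1 : ind (¬ E0 c1 c2 ν) = 0 := ind_not_of (fun h => h h1)
        by_cases h2 : md (k + mm) n ν
        · have e2 : ind (E0 c1 c2 ν ∧ ¬ md (k + mm) n ν) = 0 := ind_not_of (fun h => h.2 h2)
          rw [e1, e2, ind_of h1, ind_of h2, sub_self, abs_zero, zero_mul, add_zero]
        · have e2 : ind (E0 c1 c2 ν ∧ ¬ md (k + mm) n ν) = 1 := ind_of ⟨h1, h2⟩
          rw [e1, e2, ind_of h1, ind_not_of h2, one_mul, zero_mul, sub_zero, zero_mul, add_zero,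
            abs_of_nonneg (hp0 ν)]
          exact hp1 ν
      · have e1 : ind (¬ E0 c1 c2 ν) = 1 := ind_of h1
        have e2 : ind (E0 c1 c2 ν ∧ ¬ md (k + mm) n ν) = 0 := ind_not_of (fun h => h1 h.1)
        rw [e1, e2, ind_not_of h1, zero_mul, zero_sub, abs_neg, one_mul, zero_add,
          abs_of_nonneg (mul_nonneg (ind_nonneg _) (hp0 ν))])
  rw [ZS_add _ _ 2 b3 b4] at hD
  refine hD.trans ?_
  rw [add_div, add_comm]
  exact add_le_add hO1 hind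

namespace StE

/-- the common part of the two last theorems -/
theorem tail (F0 : ℕ) {ε : ℝ} (hε : 0 < ε) : ∃ c A : ℕ, ∀ (k S n f : ℕ) (u : ℝ)
    (Y : (Fin (k + mm + (n + (S + ss))) → ℕ) → ℤ), 1 ≤ S → f ∈ Icc 1 F0 →
    (2 : ℝ) ^ (k + mm + n + mm + 1) ≤ u → u ≤ 2 ^ (k + mm + n + mm + 2) →
    (∀ inst : (∀ ν, Decidable (E0 c c ν ∧ Y ν ≤ A)),
      PW (k + mm + (n + (S + ss))) (fun ν => @ite _ (E0 c c ν ∧ Y ν ≤ A) (inst ν) 1 0) ≤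
      ENNReal.ofReal ((ε / 3 / zz ^ c) /
        (((k + mm + (n + (S + ss)) : ℕ) : ℝ) + 1) ^ (3 / 2 : ℝ))) →
    ZS (k + mm + (n + (S + ss))) (fun ν => ind (md (k + mm) n ν) *
        (1 / ((Y ν).toNat : ℝ)) *
        PrD f (k + mm) n (S + ss) S (bb k) u (lo ν) (cnt (lo (hi ν)) n) (hi (hi ν))) ≤
      ε / (((k + mm + (n + (S + ss)) : ℕ) : ℝ) + 1) ^ (3 / 2 : ℝ) := by
  have hz := StE.zz_gt
  have hz0 : (0 : ℝ) < zz := by linarith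
  obtain ⟨C, ρ, hC, hρ0, hρ1, hO⟩ := st_O
  obtain ⟨c, hc⟩ := consts (C := C) hρ0 hρ1 F0 hε
  have hzc : (0 : ℝ) < zz ^ c := by positivity
  obtain ⟨C', hC', hgood⟩ := good_all c c
  obtain ⟨A0, hA0⟩ : ∃ A0 : ℕ, 3 * zz ^ c * C' / ε ≤ (A0 : ℝ) := exists_nat_ge _
  refine ⟨c, A0 + 1, ?_⟩
  intro k S n f u Y hS hf hu1 hu2 hsm
  rw [mem_Icc] at hf
  have hu0 := u_pos hu1
  have hpos : 0 < (((k + mm + (n + (S + ss)) : ℕ) : ℝ) + 1) ^ (3 / 2 : ℝ) := by positivity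
  have hp0 : ∀ ν : Fin (k + mm + (n + (S + ss))) → ℕ,
      0 ≤ PrD f (k + mm) n (S + ss) S (bb k) u (lo ν)
      (cnt (lo (hi ν)) n) (hi (hi ν)) := fun ν => PrD_nonneg _ _ _ _ _ _ hu0 _ _ _
  have hp1 : ∀ ν : Fin (k + mm + (n + (S + ss))) → ℕ,
      PrD f (k + mm) n (S + ss) S (bb k) u (lo ν)
      (cnt (lo (hi ν)) n) (hi (hi ν)) ≤ 1 := fun ν => PrD_le_one _ _ _ _ _ _ hu0 _ _ _
  have hsplit := split (c1 := c) (c2 := c) (A := A0 + 1) (by omega)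
    (fun ν : Fin (k + mm + (n + (S + ss))) → ℕ => ind (md (k + mm) n ν))
    (fun ν => PrD f (k + mm) n (S + ss) S (bb k) u (lo ν)
      (cnt (lo (hi ν)) n) (hi (hi ν))) Y (fun ν => ind_nonneg _) (fun ν => ind_le_one _) hp0 hp1
  refine hsplit.trans ?_
  have t1 : ZS (k + mm + (n + (S + ss))) (fun ν => ind (¬ E0 c c ν) * (ind (md (k + mm) n ν) *
        PrD f (k + mm) n (S + ss) S (bb k) u (lo ν) (cnt (lo (hi ν)) n) (hi (hi ν)))) ≤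
      (ε / 3) / (((k + mm + (n + (S + ss)) : ℕ) : ℝ) + 1) ^ (3 / 2 : ℝ) := by
    refine (hO c c k n S f u hf.1 hS hu1 hu2).trans ?_
    apply div_le_div_of_nonneg_right _ hpos.le
    refine le_trans ?_ hc
    have h1 : f.divisors.card ≤ F0 := (Nat.card_divisors_le_self f).trans hf.2
    have h2 : (f.divisors.card : ℝ) ≤ F0 := by exact_mod_cast h1
    exact mul_le_mul_of_nonneg_right (mul_le_mul_of_nonneg_left h2 hC.le) (by positivity)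
  have t2 : 1 / ((A0 + 1 : ℕ) : ℝ) * ZS (k + mm + (n + (S + ss))) (fun ν => ind (E0 c c ν)) ≤
      (ε / 3) / (((k + mm + (n + (S + ss)) : ℕ) : ℝ) + 1) ^ (3 / 2 : ℝ) := by
    have h1 := zs_ind (c1 := c) (c2 := c) (fun ν : Fin (k + mm + (n + (S + ss))) → ℕ => E0 c c ν)
      _ (fun ν h => h) (by positivity) (hgood (k + mm + (n + (S + ss))))
    have hA1 : (0 : ℝ) < ((A0 + 1 : ℕ) : ℝ) := by positivity
    refine (mul_le_mul_of_nonneg_left h1 (by positivity)).trans ?_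
    have h2 : 1 / ((A0 + 1 : ℕ) : ℝ) * (zz ^ c * (C' /
        (((k + mm + (n + (S + ss)) : ℕ) : ℝ) + 1) ^ (3 / 2 : ℝ))) =
        (zz ^ c * C' / ((A0 + 1 : ℕ) : ℝ)) /
        (((k + mm + (n + (S + ss)) : ℕ) : ℝ) + 1) ^ (3 / 2 : ℝ) := by
      ring
    rw [h2]
    apply div_le_div_of_nonneg_right _ hpos.le
    rw [div_le_iff₀ hA1]
    rw [div_le_iff₀ hε] at hA0
    push_cast
    nlinarith
  have t3 : ZS (k + mm + (n + (S + ss))) (fun ν => ind (E0 c c ν ∧ Y ν ≤ ((A0 + 1 : ℕ) : ℤ))) ≤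
      (ε / 3) / (((k + mm + (n + (S + ss)) : ℕ) : ℝ) + 1) ^ (3 / 2 : ℝ) := by
    classical
    have h1 := zs_ind (c1 := c) (c2 := c) (fun ν : Fin (k + mm + (n + (S + ss))) → ℕ =>
      E0 c c ν ∧ Y ν ≤ ((A0 + 1 : ℕ) : ℤ)) (fun ν => inferInstance) (fun ν h => h.1)
      (by positivity) (hsm _)
    refine h1.trans (le_of_eq ?_)
    field_simp
  have e3 : ε / (((k + mm + (n + (S + ss)) : ℕ) : ℝ) + 1) ^ (3 / 2 : ℝ) =
      (ε / 3) / (((k + mm + (n + (S + ss)) : ℕ) : ℝ) + 1) ^ (3 / 2 : ℝ) +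
      (ε / 3) / (((k + mm + (n + (S + ss)) : ℕ) : ℝ) + 1) ^ (3 / 2 : ℝ) +
      (ε / 3) / (((k + mm + (n + (S + ss)) : ℕ) : ℝ) + 1) ^ (3 / 2 : ℝ) := by
    ring
  rw [e3]
  exact add_le_add (add_le_add t1 t2) t3

end StE

theorem st_S1 (F0 : ℕ) {ε : ℝ} (hε : 0 < ε) : ∃ K0 : ℕ, ∀ k S : ℕ, K0 ≤ k → 1 ≤ S →
    ∃ n0 : ℕ, ∀ n ≥ n0, ∀ f ∈ Icc 1 F0, ∀ u : ℝ,
    (2 : ℝ) ^ (k + mm + n + mm + 1) ≤ u → u ≤ 2 ^ (k + mm + n + mm + 2) →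
    ZS (k + mm + (n + (S + ss))) (fun ν => ind (md (k + mm) n ν) *
        (1 / ((X ν (k + mm)).toNat : ℝ)) *
        PrD f (k + mm) n (S + ss) S (bb k) u (lo ν) (cnt (lo (hi ν)) n) (hi (hi ν))) ≤
      ε / (((k + mm + (n + (S + ss)) : ℕ) : ℝ) + 1) ^ (3 / 2 : ℝ) := by
  have hz := StE.zz_gt
  have hz0 : (0 : ℝ) < zz := by linarith
  obtain ⟨c, A, h⟩ := StE.tail F0 hε
  obtain ⟨K0, hK0⟩ := small_x c c A (ε := ε / 3 / zz ^ c) (by positivity)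
  refine ⟨K0, fun k S hk hS => ?_⟩
  obtain ⟨n0, hn0⟩ := hK0 (k + mm) (S + ss) (by omega)
  refine ⟨n0, fun n hn f hf u hu1 hu2 => ?_⟩
  apply h k S n f u (fun ν => X ν (k + mm)) hS hf hu1 hu2
  intro inst
  refine le_trans (PW_mono fun ν => ?_) (hn0 n hn)
  split_ifs
  · exact le_rfl
  · exact le_rfl

theorem st_S2 (F0 : ℕ) {ε : ℝ} (hε : 0 < ε) : ∃ S0 : ℕ, ∀ k S : ℕ, S0 ≤ S → 1 ≤ S →
    ∃ n0 : ℕ, ∀ n ≥ n0, ∀ f ∈ Icc 1 F0, ∀ u : ℝ,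
    (2 : ℝ) ^ (k + mm + n + mm + 1) ≤ u → u ≤ 2 ^ (k + mm + n + mm + 2) →
    ZS (k + mm + (n + (S + ss))) (fun ν => ind (md (k + mm) n ν) *
        (1 / ((X ν (k + mm + n)).toNat : ℝ)) *
        PrD f (k + mm) n (S + ss) S (bb k) u (lo ν) (cnt (lo (hi ν)) n) (hi (hi ν))) ≤
      ε / (((k + mm + (n + (S + ss)) : ℕ) : ℝ) + 1) ^ (3 / 2 : ℝ) := by
  have hz := StE.zz_gt
  have hz0 : (0 : ℝ) < zz := by linarith
  obtain ⟨c, A, h⟩ := StE.tail F0 hε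
  obtain ⟨S0, hS0⟩ := small_w c c A (ε := ε / 3 / zz ^ c) (by positivity)
  refine ⟨S0, fun k S hS hS1 => ?_⟩
  obtain ⟨n0, hn0⟩ := hS0 (k + mm) (S + ss) (by omega)
  refine ⟨n0, fun n hn f hf u hu1 hu2 => ?_⟩
  apply h k S n f u (fun ν => X ν (k + mm + n)) hS1 hf hu1 hu2
  intro inst
  refine le_trans (PW_mono fun ν => ?_) (hn0 n hn)
  split_ifs
  · exact le_rfl
  · exact le_rfl

end Pool.Agent.EN2
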