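import Mathlib
import Pool.Agent.Lib.MP_ec0ede_nt_EN2.Defs
import Pool.Agent.Lib.MP_ec0ede_nt_EN.MertB
import Pool.Agent.Lib.MP_ec0ede_nt_EN.LawA
import Pool.Agent.Lib.MP_ec0ede_nt_EN.LawB
import Pool.Agent.Lib.MP_ec0ede_nt_EN.WfT
import Pool.Agent.Lib.MP_ec0ede_nt_EN.EpsA
import Pool.Agent.Lib.MP_ec0ede_nt_EN.EpsC
import Pool.Agent.Lib.MP_ec0ede_nt_EN.CnL
import Pool.Agent.Lib.MP_ec0ede_nt_EN.ZBd
import Pool.Agent.Lib.MP_ec0ede_nt_EN.StA
import Pool.Agent.Lib.MP_ec0ede_nt_EN.StB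
import Pool.Agent.Lib.MP_ec0ede_nt_EN.StC
import Pool.Agent.Lib.MP_ec0ede_nt_EN.App
import Pool.Agent.Lib.MP_ec0ede_nt_EN2.Rng
import Pool.Agent.Lib.MP_ec0ede_nt_EN2.StD
import Pool.Agent.Lib.MP_ec0ede_nt_EN2.StE
import Pool.Agent.Lib.MP_ec0ede_nt_EN2.MP2

set_option autoImplicit false

/-!
# MP_ec0ede_nt, project EN2, module App2: the normalised densities against the explicit sums `UL`
-/

noncomputable section

namespace Pool.Agent.EN2

open Real Filter Topology Finset Pool.Agent.EN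

namespace App2

/-- combination of the five steps for each `f` -/
theorem comb5 {ι : Type} (s : Finset ι) (w ZA ZB ZC ZD ZE Ps : ι → ℝ) (Sig T C R e e4 : ℝ)
    (hT : 0 < T) (hw0 : ∀ f, 0 ≤ w f) (hw1 : ∀ f, w f ≤ 1)
    (h1 : |Sig - ∑ f ∈ s, w f * ZA f| ≤ C / T * R)
    (h2 : ∀ f ∈ s, |ZA f - ZB f| ≤ e / T)
    (h3 : ∀ f ∈ s, |ZB f - ZC f| ≤ e / T)
    (h4 : ∀ f ∈ s, |ZC f - ZD f| ≤ e / T)
    (h5 : ∀ f ∈ s, |ZD f - ZE f| ≤ e4 / T)
    (h6 : ∀ f ∈ s, |T * ZE f - Ps f| ≤ e) :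
    |T * Sig - ∑ f ∈ s, w f * Ps f| ≤ C * R + s.card * ((e + e) + (e + e4) + e) := by
  refine App.comb s w ZA ZC ZE Ps Sig T C R (e + e) (e + e4) e hT hw0 hw1 h1 ?_ ?_ h6
  · intro f hf
    rw [add_div]
    exact (abs_sub_le _ (ZB f) _).trans (add_le_add (h2 f hf) (h3 f hf))
  · intro f hf
    rw [add_div]
    exact (abs_sub_le _ (ZD f) _).trans (add_le_add (h4 f hf) (h5 f hf))

theorem mp_unif2 (K s S b F0 : ℕ) {ε : ℝ} (hε : 0 < ε) : ∃ n1 : ℕ, ∀ n ≥ n1,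
    ∀ f ∈ Icc 1 F0, ∀ θ : ℝ, (mm : ℝ) + 1 ≤ θ → θ ≤ mm + 2 →
    |(((K + (n + s) : ℕ) : ℝ) + 1) ^ (3 / 2 : ℝ) *
      ZS (K + (n + s)) (fun ν => ind (md K n ν) *
        PrD f K n s S b ((2 : ℝ) ^ (((K + n : ℕ) : ℝ) + θ)) (lo ν) (cnt (lo (hi ν)) n)
          (hi (hi ν))) -
      UL K s S b θ (fun _ _ => 1) f| ≤ ε := by
  choose nf hnf using fun f : ℕ => mp2 K s S b f (fun _ _ => (1 : ℝ))
    (fun _ _ => ⟨zero_le_one, le_rfl⟩) hε
  refine ⟨(Icc 1 F0).sup nf, fun n hn f hf θ h1 h2 => ?_⟩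
  have h := hnf f n ((Finset.le_sup hf).trans hn) θ h1 h2
  simp only [mul_one] at h
  exact h

theorem UL_nonneg (K s S b : ℕ) (θ : ℝ) (f : ℕ) : 0 ≤ UL K s S b θ (fun _ _ => 1) f :=
  tsum_nonneg fun i => ul_nonneg K s S b θ _ (fun _ _ => ⟨zero_le_one, le_rfl⟩) f i

/-- the parameter `u` -/
theorem u_bounds {a : ℕ} {θ : ℝ} (h1 : (mm : ℝ) + 1 ≤ θ) (h2 : θ ≤ mm + 2) :
    (2 : ℝ) ^ (a + mm + 1) ≤ (2 : ℝ) ^ ((a : ℝ) + θ) ∧
      (2 : ℝ) ^ ((a : ℝ) + θ) ≤ (2 : ℝ) ^ (a + mm + 2) := by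
  constructor
  · rw [← Real.rpow_natCast]
    refine Real.rpow_le_rpow_of_exponent_le (by norm_num) ?_
    push_cast
    linarith
  · rw [← Real.rpow_natCast (2 : ℝ) (a + mm + 2)]
    refine Real.rpow_le_rpow_of_exponent_le (by norm_num) ?_
    push_cast
    linarith

theorem log_u {N S a : ℕ} {θ : ℝ} (hN : 3 ≤ N) (hx : xx N - S = a + θ) :
    Real.log N = 2 ^ S * (2 : ℝ) ^ ((a : ℝ) + θ) := by
  rw [App.log_eq hN, ← Real.rpow_natCast, ← Real.rpow_add (by norm_num)]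
  congr 1
  linarith

end App2

open App2 in
theorem app2 {ε : ℝ} (hε : 0 < ε) : ∃ F00 : ℕ, ∀ F0 ≥ F00, ∃ K0 : ℕ, ∀ k ≥ K0, ∀ S ≥ K0,
    ∃ N0 : ℕ, ∀ N ≥ N0, ∀ (a : ℕ) (θ : ℝ), xx N - S = a + θ → (mm : ℝ) + 1 ≤ θ → θ ≤ mm + 2 →
    |AA N - cinf * (Real.log 2) ^ (3 / 2 : ℝ) * (2 : ℝ) ^ (dl * (θ - ss)) *
      ∑ f ∈ Icc 1 F0, wf f * UL (k + mm) (S + ss) S (bb k) θ (fun _ _ => 1) f| ≤ ε := by
  have hci := cinf_pos
  have hl2 := App.log_two_pos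
  -- the factor `m`
  have hmc : Continuous (fun t : ℝ => (2 : ℝ) ^ (dl * t) * (Real.log 2) ^ (3 / 2 : ℝ)) := by
    have h2 : Continuous (fun t : ℝ => (2 : ℝ) ^ t) := Real.continuous_const_rpow (by norm_num)
    exact (h2.comp (continuous_const.mul continuous_id)).mul continuous_const
  obtain ⟨M1, hM1, hm⟩ := App.bound_on hmc
  have hy1 : (0 : ℝ) < (2 : ℝ) ^ al := Real.rpow_pos_of_pos (by norm_num) _
  obtain ⟨C, ρ, hC, hρ0, hρ1, L0, hA⟩ := st_A hy1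
  obtain ⟨CT, hCT, hTT⟩ := st_T
  obtain ⟨CE, ρE, hCE, hρE0, hρE1, hE⟩ := st_E
  obtain ⟨e0, he0⟩ : ∃ e0 : ℝ, e0 = ε / (2 * M1 * (cinf + 1)) := ⟨_, rfl⟩
  have he00 : 0 < e0 := by
    rw [he0]
    positivity
  have E2 : ∀ᶠ F : ℕ in atTop, C * ((F : ℝ) + 1) ^ (-1 / 8 : ℝ) ≤ e0 / 8 := by
    have h1 : Tendsto (fun F : ℕ => (F : ℝ) + 1) atTop atTop :=
      tendsto_atTop_add_const_right _ _ tendsto_natCast_atTop_atTop
    have h := ((tendsto_rpow_neg_atTop (show (0 : ℝ) < 1 / 8 by norm_num)).comp h1).const_mul C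
    rw [mul_zero] at h
    have h2 := h.eventually_le_const (show (0 : ℝ) < e0 / 8 by positivity)
    refine h2.mono fun F hF => ?_
    have e : (-1 / 8 : ℝ) = -(1 / 8) := by norm_num
    rw [e]
    exact hF
  obtain ⟨F00, hF00⟩ := eventually_atTop.mp E2
  refine ⟨F00, fun F0 hF => ?_⟩
  obtain ⟨e', he'⟩ : ∃ e' : ℝ, e' = e0 / (16 * ((F0 : ℝ) + 1)) := ⟨_, rfl⟩
  have he'0 : 0 < e' := by
    rw [he']
    positivity
  have hF3 : (F0 : ℝ) * e' ≤ e0 / 16 := by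
    have h4 : ((F0 : ℝ) + 1) * e' = e0 / 16 := by
      rw [he']
      field_simp
    linarith
  have E1 : ∀ᶠ c : ℕ in atTop, C * ρ ^ c ≤ e0 / 8 := by
    have h := (tendsto_pow_atTop_nhds_zero_of_lt_one hρ0.le hρ1).const_mul C
    rw [mul_zero] at h
    exact h.eventually_le_const (by positivity)
  have E3 : ∀ᶠ c : ℕ in atTop, CE * F0 * (ρE ^ c + ρE ^ c) ≤ e' := by
    have h0 := tendsto_pow_atTop_nhds_zero_of_lt_one hρE0.le hρE1
    have h := (h0.add h0).const_mul (CE * F0)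
    rw [add_zero, mul_zero] at h
    exact h.eventually_le_const he'0
  obtain ⟨c, hc0⟩ := eventually_atTop.mp (E1.and E3)
  obtain ⟨KB, hB⟩ := st_B c c F0 he'0
  obtain ⟨KC, hCC⟩ := st_C c c F0 hy1 he'0
  obtain ⟨KD, hDD⟩ := st_D c c F0 he'0
  obtain ⟨KE, hEE⟩ := hE c c e' he'0
  refine ⟨KB + KC + KD + KE + 1, fun k hk S hS => ?_⟩
  obtain ⟨nC, hnC⟩ := hCC (k + mm) (S + ss) (by omega) (by omega)
  obtain ⟨nD, hnD⟩ := hDD k (S + ss) (by omega) (by omega)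
  obtain ⟨nE, hnE⟩ := hEE k S (by omega) (by omega)
  obtain ⟨nM, hnM⟩ := mp_unif2 (k + mm) (S + ss) S (bb k) F0 he'0
  obtain ⟨B, hBB⟩ : ∃ B : ℝ, B = (F0 : ℝ) * (CT * F0 + e') + 1 := ⟨_, rfl⟩
  have hB0 : 0 < B := by
    rw [hBB]
    positivity
  obtain ⟨d2, hd2⟩ : ∃ d2 : ℝ, d2 = min 1 (ε / (2 * M1 * B)) := ⟨_, rfl⟩
  have hd20 : 0 < d2 := by
    rw [hd2]
    exact lt_min one_pos (by positivity)
  obtain ⟨δ, hδ⟩ : ∃ δ : ℝ, δ = min 1 (d2 / (2 + cinf)) := ⟨_, rfl⟩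
  have hδ0 : 0 < δ := by
    rw [hδ]
    exact lt_min one_pos (by positivity)
  obtain ⟨Na, ha⟩ := cN_lim hδ0
  obtain ⟨Nb, hb⟩ := App.r_lim hδ0
  obtain ⟨Nc, hc⟩ := App.G_le
  obtain ⟨Nd, hd⟩ := App.L_large ((k + mm + (S + ss) + nC + nD + nE + nM + L0 + c : ℕ) : ℝ)
  obtain ⟨Ne, hNe⟩ := eventually_atTop.mp (App.xx_tendsto.eventually_ge_atTop 0)
  refine ⟨Na + Nb + Nc + Nd + Ne + 3 + F0, fun N hN a θ hx hθ1 hθ2 => ?_⟩
  have hN3 : 3 ≤ N := by omega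
  have hts : xx N - ((a + (S + ss) : ℕ) : ℝ) = θ - ss := by
    push_cast
    linarith
  have hL1' : al ≤ xx N - ((a + (S + ss) : ℕ) : ℝ) := by
    rw [hts]
    linarith [ss_lo]
  have hL2' : xx N - ((a + (S + ss) : ℕ) : ℝ) ≤ al + 2 := by
    rw [hts]
    linarith [ss_hi]
  have hLl : k + mm + (S + ss) + nC + nD + nE + nM + L0 + c ≤ a + (S + ss) := by
    have := hd N (by omega) (a + (S + ss)) hL2'
    exact_mod_cast this
  obtain ⟨n, rfl⟩ : ∃ n : ℕ, a = k + mm + n := ⟨a - (k + mm), by omega⟩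
  have hassoc : k + mm + n + (S + ss) = k + mm + (n + (S + ss)) := by ring
  rw [hassoc] at hts hL1' hL2' hLl
  have hGL := hc N (by omega) _ hL2'
  have hxx : 0 ≤ xx N := hNe N (by omega)
  have hcN := ha N (by omega) _ hGL
  have hr := hb N (by omega) _ hL1' hL2'
  obtain ⟨u, hu⟩ : ∃ u : ℝ, u = (2 : ℝ) ^ (((k + mm + n : ℕ) : ℝ) + θ) := ⟨_, rfl⟩
  obtain ⟨hu1, hu2⟩ := u_bounds (a := k + mm + n) hθ1 hθ2
  rw [← hu] at hu1 hu2
  have hyu : Real.log N = 2 ^ S * u := by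
    rw [hu]
    exact log_u hN3 hx
  have hy2 : (2 : ℝ) ^ al * 2 ^ (k + mm + (n + (S + ss))) ≤ Real.log N := by
    rw [App.log_split hN3 (k + mm + (n + (S + ss)))]
    refine mul_le_mul_of_nonneg_right ?_ (by positivity)
    exact Real.rpow_le_rpow_of_exponent_le (by norm_num) hL1'
  have hT : (0 : ℝ) < (((k + mm + (n + (S + ss)) : ℕ) : ℝ) + 1) ^ (3 / 2 : ℝ) := by positivity
  -- the number of divisors
  have hdiv : ∀ f ∈ Icc 1 F0, (f.divisors.card : ℝ) ≤ F0 := by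
    intro f hf
    have h1 := Nat.card_divisors_le_self f
    have h2 := (Finset.mem_Icc.mp hf).2
    exact_mod_cast h1.trans h2
  have hM : ∀ f ∈ Icc 1 F0, |(((k + mm + (n + (S + ss)) : ℕ) : ℝ) + 1) ^ (3 / 2 : ℝ) *
      ZS (k + mm + (n + (S + ss))) (fun ν => ind (md (k + mm) n ν) *
        PrD f (k + mm) n (S + ss) S (bb k) u (lo ν) (cnt (lo (hi ν)) n) (hi (hi ν))) -
      UL (k + mm) (S + ss) S (bb k) θ (fun _ _ => 1) f| ≤ e' := by
    intro f hf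
    have := hnM n (by omega) f hf θ hθ1 hθ2
    rw [← hu] at this
    exact this
  have hUL : ∀ f ∈ Icc 1 F0, UL (k + mm) (S + ss) S (bb k) θ (fun _ _ => 1) f ≤
      CT * F0 + e' := by
    intro f hf
    have h1 := (abs_le.mp (hM f hf)).1
    have h2 := hTT k n S f u (Finset.mem_Icc.mp hf).1 (by omega) hu1 hu2
    have h3 := mul_le_mul_of_nonneg_left h2 hT.le
    rw [mul_div_cancel₀ _ hT.ne'] at h3
    have h4 := mul_le_mul_of_nonneg_left (hdiv f hf) hCT.le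
    linarith
  have hP : |∑ f ∈ Icc 1 F0, wf f * UL (k + mm) (S + ss) S (bb k) θ (fun _ _ => 1) f| ≤ B := by
    refine (Finset.abs_sum_le_sum_abs _ _).trans ?_
    calc ∑ f ∈ Icc 1 F0, |wf f * UL (k + mm) (S + ss) S (bb k) θ (fun _ _ => 1) f|
        ≤ ∑ f ∈ Icc 1 F0, (CT * F0 + e') := by
          refine Finset.sum_le_sum fun f hf => ?_
          rw [abs_mul, abs_of_nonneg (wf_nonneg f), abs_of_nonneg (UL_nonneg _ _ _ _ _ _)]
          calc wf f * UL (k + mm) (S + ss) S (bb k) θ (fun _ _ => 1) f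
              ≤ 1 * (CT * F0 + e') :=
                mul_le_mul (wf_le_one f) (hUL f hf) (UL_nonneg _ _ _ _ _ _) zero_le_one
            _ = CT * F0 + e' := one_mul _
      _ = (F0 : ℝ) * (CT * F0 + e') := by
          rw [Finset.sum_const, nsmul_eq_mul, Nat.card_Icc, Nat.add_sub_cancel]
      _ ≤ B := by rw [hBB]; linarith
  have hS : |(((k + mm + (n + (S + ss)) : ℕ) : ℝ) + 1) ^ (3 / 2 : ℝ) *
        ∑' f : ℕ, ind (Sm N f) * wf f * Z f (k + mm + (n + (S + ss))) (Real.log N) -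
      ∑ f ∈ Icc 1 F0, wf f * UL (k + mm) (S + ss) S (bb k) θ (fun _ _ => 1) f| ≤ e0 := by
    have h := comb5 (Icc 1 F0) wf
      (fun f => ZS (k + mm + (n + (S + ss))) (fun ν => ind (E0 c c ν) *
        PrA f (k + mm + (n + (S + ss))) (Real.log N) ν))
      (fun f => ZS (k + mm + (n + (S + ss))) (fun ν => ind (E0 c c ν) *
        PrB f (k + mm) (n + (S + ss)) (Real.log N) (lo ν) (hi ν)))
      (fun f => ZS (k + mm + (n + (S + ss))) (fun ν => ind (E0 c c ν) *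
        PrC f (k + mm) n (S + ss) (Real.log N) (lo ν) (cnt (lo (hi ν)) n) (hi (hi ν))))
      (fun f => ZS (k + mm + (n + (S + ss))) (fun ν => ind (E0 c c ν) *
        PrD f (k + mm) n (S + ss) S (bb k) u (lo ν) (cnt (lo (hi ν)) n) (hi (hi ν))))
      (fun f => ZS (k + mm + (n + (S + ss))) (fun ν => ind (md (k + mm) n ν) *
        PrD f (k + mm) n (S + ss) S (bb k) u (lo ν) (cnt (lo (hi ν)) n) (hi (hi ν))))
      (fun f => UL (k + mm) (S + ss) S (bb k) θ (fun _ _ => 1) f)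
      (∑' f : ℕ, ind (Sm N f) * wf f * Z f (k + mm + (n + (S + ss))) (Real.log N))
      _ C (ρ ^ c + ρ ^ c + ((F0 : ℝ) + 1) ^ (-1 / 8 : ℝ) + ρ ^ (k + mm + (n + (S + ss))))
      e' (e' + e') hT wf_nonneg wf_le_one
      (hA (k + mm + (n + (S + ss))) N c c F0 (Real.log N) (by omega) hy2 (by omega))
      (fun f hf => hB (k + mm) (by omega) (n + (S + ss)) f hf (Real.log N))
      (fun f hf => hnC n (by omega) f hf (Real.log N) hy2)
      (fun f hf => by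
        have := hnD n (by omega) f hf S u (by omega) hu1 hu2
        rw [← hyu] at this
        exact this)
      (fun f hf => by
        have h1 := hnE n (by omega) f u (Finset.mem_Icc.mp hf).1 hu1 hu2
        refine h1.trans (div_le_div_of_nonneg_right ?_ hT.le)
        have h2 : CE * f.divisors.card * (ρE ^ c + ρE ^ c) ≤ CE * F0 * (ρE ^ c + ρE ^ c) :=
          mul_le_mul_of_nonneg_right (mul_le_mul_of_nonneg_left (hdiv f hf) hCE.le)
            (by positivity)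
        have h3 := (hc0 c le_rfl).2
        linarith)
      hM
    refine h.trans ?_
    rw [Nat.card_Icc, Nat.add_sub_cancel]
    have e1 : C * (ρ ^ c + ρ ^ c + ((F0 : ℝ) + 1) ^ (-1 / 8 : ℝ) +
        ρ ^ (k + mm + (n + (S + ss)))) = C * ρ ^ c + C * ρ ^ c +
        C * ((F0 : ℝ) + 1) ^ (-1 / 8 : ℝ) + C * ρ ^ (k + mm + (n + (S + ss))) := by ring
    have e2 : (F0 : ℝ) * (e' + e' + (e' + (e' + e')) + e') = 6 * ((F0 : ℝ) * e') := by ring
    rw [e1, e2]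
    have g1 := (hc0 c le_rfl).1
    have g2 := hF00 F0 hF
    have g3 := (hc0 (k + mm + (n + (S + ss))) (by omega)).1
    linarith
  rw [App.AA_eq hN3 hGL hxx, hts]
  have htI : θ - ss ∈ Set.Icc al (al + 2) := by
    rw [← hts]
    exact ⟨hL1', hL2'⟩
  have hm0 : 0 ≤ (2 : ℝ) ^ (dl * (θ - ss)) * (Real.log 2) ^ (3 / 2 : ℝ) := by positivity
  have hm1 : (2 : ℝ) ^ (dl * (θ - ss)) * (Real.log 2) ^ (3 / 2 : ℝ) ≤ M1 :=
    (le_abs_self _).trans (hm _ htI)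
  have hcr : |cN N (k + mm + (n + (S + ss))) *
      (xx N / (((k + mm + (n + (S + ss)) : ℕ) : ℝ) + 1)) ^ (3 / 2 : ℝ) - cinf| ≤ d2 := by
    obtain ⟨c, hcc⟩ : ∃ c : ℝ, c = cN N (k + mm + (n + (S + ss))) := ⟨_, rfl⟩
    obtain ⟨r, hrr⟩ : ∃ r : ℝ,
      r = (xx N / (((k + mm + (n + (S + ss)) : ℕ) : ℝ) + 1)) ^ (3 / 2 : ℝ) := ⟨_, rfl⟩
    rw [← hrr] at hr ⊢
    rw [← hcc] at hcN ⊢
    have hδ1 : δ ≤ 1 := by
      rw [hδ]
      exact min_le_left _ _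
    have e : c * r - cinf = (c - cinf) * r + cinf * (r - 1) := by ring
    rw [e]
    have hr2 : |r| ≤ 2 := by
      rw [abs_le] at hr ⊢
      constructor <;> linarith [hr.1, hr.2]
    calc |(c - cinf) * r + cinf * (r - 1)| ≤ |(c - cinf) * r| + |cinf * (r - 1)| := abs_add_le _ _
      _ = |c - cinf| * |r| + cinf * |r - 1| := by
          rw [abs_mul, abs_mul, abs_of_pos hci]
      _ ≤ δ * 2 + cinf * δ := add_le_add (mul_le_mul hcN hr2 (abs_nonneg _) hδ0.le)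
          (mul_le_mul_of_nonneg_left hr hci.le)
      _ = (2 + cinf) * δ := by ring
      _ ≤ (2 + cinf) * (d2 / (2 + cinf)) := by
          refine mul_le_mul_of_nonneg_left ?_ (by positivity)
          rw [hδ]
          exact min_le_right _ _
      _ = d2 := by field_simp
  have hd21 : d2 ≤ 1 := by
    rw [hd2]
    exact min_le_left _ _
  have hcr1 : |cN N (k + mm + (n + (S + ss))) *
      (xx N / (((k + mm + (n + (S + ss)) : ℕ) : ℝ) + 1)) ^ (3 / 2 : ℝ)| ≤ cinf + 1 := by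
    have h3 := abs_le.mp (hcr.trans hd21)
    rw [abs_le]
    constructor <;> linarith [h3.1, h3.2]
  have hfin := App.fin_comb _ _ _ _ _ _ M1 (cinf + 1) e0 d2 B hm0 hm1 hS hcr hcr1 hP
  have hcomm : cinf * (Real.log 2) ^ (3 / 2 : ℝ) * (2 : ℝ) ^ (dl * (θ - ss)) *
      ∑ f ∈ Icc 1 F0, wf f * UL (k + mm) (S + ss) S (bb k) θ (fun _ _ => 1) f =
      cinf * (∑ f ∈ Icc 1 F0, wf f * UL (k + mm) (S + ss) S (bb k) θ (fun _ _ => 1) f) *
      ((2 : ℝ) ^ (dl * (θ - ss)) * (Real.log 2) ^ (3 / 2 : ℝ)) := by ring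
  rw [hcomm]
  refine hfin.trans ?_
  have g1 : M1 * ((cinf + 1) * e0) = ε / 2 := by
    rw [he0]
    field_simp
  have g2 : M1 * (d2 * B) ≤ ε / 2 := by
    have g3 : d2 ≤ ε / (2 * M1 * B) := by
      rw [hd2]
      exact min_le_right _ _
    calc M1 * (d2 * B) ≤ M1 * (ε / (2 * M1 * B) * B) :=
          mul_le_mul_of_nonneg_left (mul_le_mul_of_nonneg_right g3 hB0.le) hM1.le
      _ = ε / 2 := by field_simp
  linarith

end Pool.Agent.EN2
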