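import Mathlib
import Pool.Agent.Lib.MP_ec0ede_nt_EN2.Defs
import Pool.Agent.Lib.MP_ec0ede_nt_EN2.Rng

set_option autoImplicit false

noncomputable section

namespace Pool.Agent.EN2

open Real Filter Topology Finset Pool.Agent.EN

theorem mA_bounds {θ : ℝ} (h1 : (mm : ℝ) + 1 ≤ θ) (h2 : θ ≤ mm + 2) :
    3 / 2 ≤ mA θ ∧ mA θ ≤ 2 * mm + 2 := by
  have hl : 0 < Real.log 2 := Real.log_pos (by norm_num)
  have h := abs_le.1 mm_mer
  have h3 : Mer / Real.log 2 ≤ (mm : ℝ) - 1 := by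
    rw [div_le_iff₀ hl]; exact h.2
  have h4 : -((mm : ℝ) - 1) ≤ Mer / Real.log 2 := by
    rw [le_div_iff₀ hl]; linarith [h.1]
  unfold mA
  constructor <;> linarith

private theorem EaA_hasSum (A : ℝ) :
    HasSum (fun e : ℕ => A ^ e / (e.factorial : ℝ)) (Real.exp A) := by
  rw [Real.exp_eq_exp_ℝ]
  exact NormedSpace.expSeries_div_hasSum_exp A

private theorem EaA_hasSum2 (A : ℝ) :
    HasSum (fun e : ℕ => A ^ e / (e.factorial : ℝ) * e) (A * Real.exp A) := by
  rw [← hasSum_nat_add_iff' 1]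
  have h := (EaA_hasSum A).mul_left A
  have e1 : (fun n : ℕ => A ^ (n + 1) / ((n + 1).factorial : ℝ) * ((n + 1 : ℕ) : ℝ)) =
      fun e : ℕ => A * (A ^ e / (e.factorial : ℝ)) := by
    funext n
    have h1 : ((n.factorial : ℕ) : ℝ) ≠ 0 := by exact_mod_cast n.factorial_ne_zero
    have h2 : ((n : ℝ) + 1) ≠ 0 := by positivity
    rw [Nat.factorial_succ]
    push_cast
    field_simp
    ring
  rw [e1]
  simpa using h

private theorem EaA_hasSum3 (A c : ℝ) :
    HasSum (fun e : ℕ => A ^ e / (e.factorial : ℝ) * (c + e)) (Real.exp A * (c + A)) := by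
  have h := ((EaA_hasSum A).mul_right c).add (EaA_hasSum2 A)
  have e1 : (fun e : ℕ => A ^ e / (e.factorial : ℝ) * (c + e)) =
      fun e : ℕ => A ^ e / (e.factorial : ℝ) * c + A ^ e / (e.factorial : ℝ) * e := by
    funext e; ring
  have e2 : Real.exp A * (c + A) = Real.exp A * c + A * Real.exp A := by ring
  rw [e1, e2]
  exact h

private theorem EaA_pos {A : ℝ} (hA : 0 ≤ A) (e : ℕ) : 0 ≤ A ^ e / (e.factorial : ℝ) := by
  positivity

private theorem EaA_bd {A : ℝ} (hA : 0 ≤ A) (ψ : ℕ → ℝ)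
    (hb : ∀ w : ℕ, 1 ≤ w → ψ w ≤ w + 1) (W : ℤ) (e : ℕ) :
    A ^ e / (e.factorial : ℝ) * (if 1 ≤ W + e then ψ (W + e).toNat else 0) ≤
      A ^ e / (e.factorial : ℝ) * ((|(W : ℝ)| + 1) + e) := by
  apply mul_le_mul_of_nonneg_left _ (EaA_pos hA e)
  split_ifs with h
  · have h1 : ((W + e).toNat : ℤ) = W + e := Int.toNat_of_nonneg (by omega)
    have h2 : ((W + e).toNat : ℝ) = (W : ℝ) + e := by exact_mod_cast h1
    have h3 := hb (W + e).toNat (by omega)
    rw [h2] at h3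
    have := le_abs_self (W : ℝ)
    linarith
  · positivity

private theorem EaA_summable {A : ℝ} (hA : 0 ≤ A) (ψ : ℕ → ℝ) (h0 : ∀ w, 0 ≤ ψ w)
    (hb : ∀ w : ℕ, 1 ≤ w → ψ w ≤ w + 1) (W : ℤ) :
    Summable (fun e : ℕ => A ^ e / (e.factorial : ℝ) *
      (if 1 ≤ W + e then ψ (W + e).toNat else 0)) := by
  apply Summable.of_nonneg_of_le _ (EaA_bd hA ψ hb W) (EaA_hasSum3 A _).summable
  intro e
  apply mul_nonneg (EaA_pos hA e)
  split_ifs
  · exact h0 _
  · exact le_rfl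

theorem EA_nonneg {θ : ℝ} (h : 0 ≤ mA θ) (ψ : ℕ → ℝ) (hψ : ∀ w, 0 ≤ ψ w) (W : ℤ) :
    0 ≤ EA θ ψ W := by
  apply tsum_nonneg
  intro e
  apply mul_nonneg (EaA_pos h e)
  split_ifs
  · exact hψ _
  · exact le_rfl

theorem EA_mono {θ : ℝ} (h : 0 ≤ mA θ) (ψ ψ' : ℕ → ℝ) (h0 : ∀ w, 0 ≤ ψ w)
    (hψ : ∀ w, 1 ≤ w → ψ w ≤ ψ' w) (hb : ∀ w : ℕ, ψ' w ≤ w + 1) (W : ℤ) :
    EA θ ψ W ≤ EA θ ψ' W := by
  have hle : ∀ e : ℕ, mA θ ^ e / (e.factorial : ℝ) * (if 1 ≤ W + e then ψ (W + e).toNat else 0) ≤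
      mA θ ^ e / (e.factorial : ℝ) * (if 1 ≤ W + e then ψ' (W + e).toNat else 0) := by
    intro e
    apply mul_le_mul_of_nonneg_left _ (EaA_pos h e)
    split_ifs with h1
    · exact hψ _ (by omega)
    · exact le_rfl
  have hs := EaA_summable h ψ h0 (fun w hw => (hψ w hw).trans (hb w)) W
  have hs' : Summable (fun e : ℕ => mA θ ^ e / (e.factorial : ℝ) *
      (if 1 ≤ W + e then ψ' (W + e).toNat else 0)) := by
    apply Summable.of_nonneg_of_le (fun e => ?_) (fun e => ?_) (EaA_hasSum3 (mA θ) (|(W : ℝ)| + 1)).summable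
    · apply mul_nonneg (EaA_pos h e)
      split_ifs with h1
      · exact (h0 _).trans (hψ _ (by omega))
      · exact le_rfl
    · apply mul_le_mul_of_nonneg_left _ (EaA_pos h e)
      split_ifs with h1
      · have h1 : ((W + e).toNat : ℤ) = W + e := Int.toNat_of_nonneg (by omega)
        have h2 : ((W + e).toNat : ℝ) = (W : ℝ) + e := by exact_mod_cast h1
        have h3 := hb (W + e).toNat
        rw [h2] at h3
        have := le_abs_self (W : ℝ)
        linarith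
      · positivity
  exact hs.tsum_le_tsum hle hs'

private theorem EaA_id_bound : ∀ w : ℕ, 1 ≤ w → (fun w : ℕ => (w : ℝ)) w ≤ w + 1 := by
  intro w _
  show (w : ℝ) ≤ w + 1
  linarith

private theorem EaA_one_bound : ∀ w : ℕ, 1 ≤ w → (fun _ : ℕ => (1 : ℝ)) w ≤ w + 1 := by
  intro w _
  show (1 : ℝ) ≤ w + 1
  have : (0 : ℝ) ≤ w := Nat.cast_nonneg w
  linarith

/-- a single term -/
private theorem EaA_term {θ : ℝ} (h : 0 ≤ mA θ) (ψ : ℕ → ℝ) (h0 : ∀ w, 0 ≤ ψ w)
    (hb : ∀ w : ℕ, 1 ≤ w → ψ w ≤ w + 1) (W : ℤ) (e : ℕ) (he : 1 ≤ W + e) :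
    mA θ ^ e / (e.factorial : ℝ) * ψ (W + e).toNat ≤ EA θ ψ W := by
  have h1 := (EaA_summable h ψ h0 hb W).le_tsum e (by
    intro i _
    apply mul_nonneg (EaA_pos h i)
    split_ifs
    · exact h0 _
    · exact le_rfl)
  rw [if_pos he] at h1
  exact h1

private theorem EaA_pos_id {θ : ℝ} {W : ℤ} (hW : 1 ≤ W) :
    EA θ (fun w => (w : ℝ)) W = Real.exp (mA θ) * (W + mA θ) := by
  rw [EA, ← (EaA_hasSum3 (mA θ) (W : ℝ)).tsum_eq]
  apply tsum_congr
  intro e
  rw [if_pos (by omega)]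
  have h1 : ((W + e).toNat : ℤ) = W + e := Int.toNat_of_nonneg (by omega)
  have h2 : ((W + e).toNat : ℝ) = (W : ℝ) + e := by exact_mod_cast h1
  simp only [h2]

private theorem EaA_pos_one {θ : ℝ} {W : ℤ} (hW : 1 ≤ W) :
    EA θ (fun _ => (1 : ℝ)) W = Real.exp (mA θ) := by
  rw [EA, ← (EaA_hasSum (mA θ)).tsum_eq]
  apply tsum_congr
  intro e
  rw [if_pos (by omega), mul_one]

private theorem EaA_fac (n i : ℕ) {A : ℝ} (hA : 0 ≤ A) :
    A ^ (i + n) / ((i + n).factorial : ℝ) ≤ A ^ n / (n.factorial : ℝ) *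
      (A ^ i / (i.factorial : ℝ)) := by
  rw [div_mul_div_comm, ← pow_add, add_comm n i]
  have h1 : (n.factorial : ℝ) * (i.factorial : ℝ) ≤ ((i + n).factorial : ℝ) := by
    have := Nat.factorial_mul_factorial_dvd_factorial_add i n
    have h2 := Nat.le_of_dvd (Nat.factorial_pos _) this
    rw [mul_comm]
    exact_mod_cast h2
  apply div_le_div_of_nonneg_left (by positivity) (by positivity) h1

private theorem EaA_neg_id {θ : ℝ} (h : 0 ≤ mA θ) {W : ℤ} (hW : W ≤ 0) :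
    EA θ (fun w => (w : ℝ)) W ≤ Real.exp (mA θ) * (1 + mA θ) * EA θ (fun _ => (1 : ℝ)) W := by
  obtain ⟨n, hn⟩ : ∃ n : ℕ, (n : ℤ) = 1 - W := ⟨(1 - W).toNat, Int.toNat_of_nonneg (by omega)⟩
  have hT1 : mA θ ^ n / (n.factorial : ℝ) ≤ EA θ (fun _ => (1 : ℝ)) W := by
    have := EaA_term h (fun _ => (1 : ℝ)) (fun _ => zero_le_one) EaA_one_bound W n (by omega)
    simpa using this
  have hsum := EaA_summable h (fun w => (w : ℝ)) (fun w => Nat.cast_nonneg w) EaA_id_bound W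
  have hshift : EA θ (fun w => (w : ℝ)) W = ∑' i : ℕ, mA θ ^ (i + n) / ((i + n).factorial : ℝ) *
      (1 + i) := by
    rw [EA, ← hsum.sum_add_tsum_nat_add n]
    have h1 : ∑ e ∈ range n, mA θ ^ e / (e.factorial : ℝ) *
        (if 1 ≤ W + (e : ℤ) then (((W + e).toNat : ℕ) : ℝ) else 0) = 0 := by
      apply Finset.sum_eq_zero
      intro e he
      rw [Finset.mem_range] at he
      rw [if_neg (by omega), mul_zero]
    rw [h1, zero_add]
    apply tsum_congr
    intro i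
    rw [if_pos (by push_cast; omega)]
    have h2 : ((W + ((i + n : ℕ) : ℤ)).toNat : ℤ) = 1 + i := by
      rw [Int.toNat_of_nonneg (by push_cast; omega)]
      push_cast
      omega
    have h3 : ((W + ((i + n : ℕ) : ℤ)).toNat : ℝ) = 1 + (i : ℝ) := by exact_mod_cast h2
    rw [h3]
  have h3 := (EaA_hasSum3 (mA θ) 1).mul_left (mA θ ^ n / (n.factorial : ℝ))
  have hle : EA θ (fun w => (w : ℝ)) W ≤
      mA θ ^ n / (n.factorial : ℝ) * (Real.exp (mA θ) * (1 + mA θ)) := by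
    rw [hshift, ← h3.tsum_eq]
    have hpt : ∀ i : ℕ, mA θ ^ (i + n) / ((i + n).factorial : ℝ) * (1 + i) ≤
        mA θ ^ n / (n.factorial : ℝ) * (mA θ ^ i / (i.factorial : ℝ) * (1 + (i : ℝ))) := by
      intro i
      rw [← mul_assoc]
      exact mul_le_mul_of_nonneg_right (EaA_fac n i h) (by positivity)
    have hs : Summable (fun i : ℕ => mA θ ^ (i + n) / ((i + n).factorial : ℝ) * (1 + (i : ℝ))) :=
      Summable.of_nonneg_of_le (fun i => by positivity) hpt h3.summable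
    exact hs.tsum_le_tsum hpt h3.summable
  calc EA θ (fun w => (w : ℝ)) W ≤
      mA θ ^ n / (n.factorial : ℝ) * (Real.exp (mA θ) * (1 + mA θ)) := hle
    _ ≤ EA θ (fun _ => (1 : ℝ)) W * (Real.exp (mA θ) * (1 + mA θ)) :=
        mul_le_mul_of_nonneg_right hT1 (by positivity)
    _ = _ := by ring

theorem EA_asymp : ∃ C : ℝ, 0 < C ∧ ∀ (θ : ℝ) (m : ℤ) (j : ℕ), (mm : ℝ) + 1 ≤ θ → θ ≤ mm + 2 →
    |EA θ (fun w => (w : ℝ)) (m + j) - Real.exp (mA θ) * max 0 (m + θ)| ≤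
      C * (1 + j) * EA θ (fun _ => 1) (m + j) := by
  obtain ⟨B, hB⟩ : ∃ B : ℝ, B = 2 * mm + 2 := ⟨_, rfl⟩
  have hB0 : 0 < B := by rw [hB]; positivity
  obtain ⟨D, hD⟩ : ∃ D : ℝ, D = Real.exp B * (mm + 2) * ((mm + 2).factorial : ℝ) := ⟨_, rfl⟩
  have hD0 : 0 < D := by rw [hD]; positivity
  refine ⟨Real.exp B * (1 + B) + D + (B + (mm + 2)), by positivity, ?_⟩
  intro θ m j h1 h2
  obtain ⟨hA1, hA2⟩ := mA_bounds h1 h2
  rw [← hB] at hA2
  have hA0 : 0 ≤ mA θ := by linarith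
  have hmm : (0 : ℝ) ≤ mm := Nat.cast_nonneg _
  have hθ0 : 0 ≤ θ := by linarith
  have hj : (0 : ℝ) ≤ j := Nat.cast_nonneg _
  have hE0 : 0 ≤ EA θ (fun _ => (1 : ℝ)) (m + j) :=
    EA_nonneg hA0 _ (fun _ => zero_le_one) _
  have heB : Real.exp (mA θ) ≤ Real.exp B := Real.exp_le_exp.2 hA2
  by_cases hW : 1 ≤ m + (j : ℤ)
  · rw [EaA_pos_id hW, EaA_pos_one hW]
    have hWr : (1 : ℝ) ≤ m + j := by exact_mod_cast hW
    rw [← mul_sub, abs_mul, abs_of_pos (Real.exp_pos _)]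
    have key : |((m + (j : ℤ) : ℤ) : ℝ) + mA θ - max 0 (m + θ)| ≤ (B + (mm + 2)) * (1 + j) := by
      push_cast
      rcases le_total 0 ((m : ℝ) + θ) with h | h
      · rw [max_eq_right h, abs_le]
        constructor <;> nlinarith
      · rw [max_eq_left h, abs_le]
        constructor <;> nlinarith
    calc Real.exp (mA θ) * |((m + (j : ℤ) : ℤ) : ℝ) + mA θ - max 0 (m + θ)|
        ≤ Real.exp (mA θ) * ((B + (mm + 2)) * (1 + j)) :=
          mul_le_mul_of_nonneg_left key (Real.exp_pos _).le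
      _ = (B + (mm + 2)) * (1 + j) * Real.exp (mA θ) := by ring
      _ ≤ (Real.exp B * (1 + B) + D + (B + (mm + 2))) * (1 + j) * Real.exp (mA θ) := by
          apply mul_le_mul_of_nonneg_right _ (Real.exp_pos _).le
          apply mul_le_mul_of_nonneg_right _ (by positivity)
          have : 0 < Real.exp B * (1 + B) := by positivity
          linarith
  · have hW' : m + (j : ℤ) ≤ 0 := by omega
    have hid0 : 0 ≤ EA θ (fun w => (w : ℝ)) (m + j) :=
      EA_nonneg hA0 _ (fun w => Nat.cast_nonneg w) _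
    have hx0 : 0 ≤ Real.exp (mA θ) * max 0 (m + θ) :=
      mul_nonneg (Real.exp_pos _).le (le_max_left _ _)
    have hid : EA θ (fun w => (w : ℝ)) (m + j) ≤
        Real.exp B * (1 + B) * EA θ (fun _ => (1 : ℝ)) (m + j) := by
      refine (EaA_neg_id hA0 hW').trans ?_
      apply mul_le_mul_of_nonneg_right _ hE0
      exact mul_le_mul heB (by linarith) (by linarith) (Real.exp_pos _).le
    have hx : Real.exp (mA θ) * max 0 (m + θ) ≤ D * EA θ (fun _ => (1 : ℝ)) (m + j) := by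
      rcases le_or_gt ((m : ℝ) + θ) 0 with h | h
      · rw [max_eq_left h, mul_zero]
        positivity
      · rw [max_eq_right h.le]
        obtain ⟨n, hn⟩ : ∃ n : ℕ, (n : ℤ) = 1 - (m + j) :=
          ⟨(1 - (m + j)).toNat, Int.toNat_of_nonneg (by omega)⟩
        have hn2 : n ≤ mm + 2 := by
          have e1 : (n : ℝ) = 1 - (m + j) := by exact_mod_cast hn
          have e2 : (n : ℝ) < (mm + 2 : ℕ) + 1 := by
            push_cast
            linarith
          have e3 : n < (mm + 2) + 1 := by exact_mod_cast e2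
          omega
        have hT1 : mA θ ^ n / (n.factorial : ℝ) ≤ EA θ (fun _ => (1 : ℝ)) (m + j) := by
          have := EaA_term hA0 (fun _ => (1 : ℝ)) (fun _ => zero_le_one) EaA_one_bound
            (m + j) n (by omega)
          simpa using this
        have hT2 : 1 / ((mm + 2).factorial : ℝ) ≤ mA θ ^ n / (n.factorial : ℝ) := by
          have e1 : (1 : ℝ) ≤ mA θ ^ n := one_le_pow₀ (by linarith)
          have e2 : (n.factorial : ℝ) ≤ ((mm + 2).factorial : ℝ) := by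
            exact_mod_cast Nat.factorial_le hn2
          exact div_le_div₀ (by linarith) e1 (by positivity) e2
        have hT3 := hT2.trans hT1
        rw [div_le_iff₀ (by positivity)] at hT3
        have hmθ : (m : ℝ) + θ ≤ mm + 2 := by
          have : ((m + (j : ℤ) : ℤ) : ℝ) ≤ 0 := by exact_mod_cast hW'
          push_cast at this
          linarith
        calc Real.exp (mA θ) * (m + θ) ≤ Real.exp B * (mm + 2) :=
              mul_le_mul heB hmθ h.le (Real.exp_pos _).le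
          _ = Real.exp B * (mm + 2) * 1 := by ring
          _ ≤ Real.exp B * (mm + 2) * (EA θ (fun _ => (1 : ℝ)) (m + j) *
              ((mm + 2).factorial : ℝ)) := by
              apply mul_le_mul_of_nonneg_left hT3 (by positivity)
          _ = D * EA θ (fun _ => (1 : ℝ)) (m + j) := by rw [hD]; ring
    have habs : |EA θ (fun w => (w : ℝ)) (m + j) - Real.exp (mA θ) * max 0 (m + θ)| ≤
        EA θ (fun w => (w : ℝ)) (m + j) + Real.exp (mA θ) * max 0 (m + θ) := by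
      rw [abs_le]
      constructor <;> linarith
    have hC : 0 ≤ Real.exp B * (1 + B) + D + (B + (mm + 2)) := by positivity
    calc _ ≤ _ := habs
      _ ≤ Real.exp B * (1 + B) * EA θ (fun _ => (1 : ℝ)) (m + j) +
          D * EA θ (fun _ => (1 : ℝ)) (m + j) := add_le_add hid hx
      _ ≤ (Real.exp B * (1 + B) + D + (B + (mm + 2))) * EA θ (fun _ => (1 : ℝ)) (m + j) := by
          nlinarith
      _ ≤ (Real.exp B * (1 + B) + D + (B + (mm + 2))) * (1 + j) *
          EA θ (fun _ => (1 : ℝ)) (m + j) := by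
          apply mul_le_mul_of_nonneg_right _ hE0
          nlinarith

theorem EA_lower : ∃ c : ℝ, 0 < c ∧ ∀ (θ : ℝ) (m : ℤ) (j : ℕ), (mm : ℝ) + 1 ≤ θ → θ ≤ mm + 2 →
    c * max 0 (m + θ) ≤ EA θ (fun w => (w : ℝ)) (m + j) := by
  refine ⟨1 / ((mm + 2).factorial : ℝ), by positivity, ?_⟩
  intro θ m j h1 h2
  obtain ⟨hA1, hA2⟩ := mA_bounds h1 h2
  have hA0 : 0 ≤ mA θ := by linarith
  rcases le_or_gt ((m : ℝ) + θ) 0 with h | h
  · rw [max_eq_left h, mul_zero]
    exact EA_nonneg hA0 _ (fun w => Nat.cast_nonneg w) _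
  · rw [max_eq_right h.le]
    have hj : (0 : ℝ) ≤ j := Nat.cast_nonneg _
    have h3 : (0 : ℝ) < ((m + j + ((mm + 2 : ℕ) : ℤ) : ℤ) : ℝ) := by
      push_cast
      linarith
    have h4 : 0 < m + j + ((mm + 2 : ℕ) : ℤ) := by exact_mod_cast h3
    have h5 := EaA_term hA0 (fun w => (w : ℝ)) (fun w => Nat.cast_nonneg w) EaA_id_bound
      (m + j) (mm + 2) (by omega)
    have h6 : ((m + (j : ℤ) + ((mm + 2 : ℕ) : ℤ)).toNat : ℤ) = m + j + ((mm + 2 : ℕ) : ℤ) :=
      Int.toNat_of_nonneg (by omega)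
    have h7 : ((m + (j : ℤ) + ((mm + 2 : ℕ) : ℤ)).toNat : ℝ) = (m : ℝ) + j + (mm + 2) := by
      exact_mod_cast h6
    refine le_trans ?_ h5
    show 1 / ((mm + 2).factorial : ℝ) * (m + θ) ≤ mA θ ^ (mm + 2) / ((mm + 2).factorial : ℝ) *
      ((m + (j : ℤ) + ((mm + 2 : ℕ) : ℤ)).toNat : ℝ)
    rw [h7]
    apply mul_le_mul _ (by linarith) h.le (by positivity)
    apply div_le_div_of_nonneg_right _ (by positivity)
    exact one_le_pow₀ (by linarith)

end Pool.Agent.EN2
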