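import Mathlib
import Pool.Agent.Lib.MP_ec0ede_nt_EN2.Defs
import Pool.Agent.Lib.MP_ec0ede_nt_EN.MertB
import Pool.Agent.Lib.MP_ec0ede_nt_EN.LawA
import Pool.Agent.Lib.MP_ec0ede_nt_EN.LawB
import Pool.Agent.Lib.MP_ec0ede_nt_EN.CnL
import Pool.Agent.Lib.MP_ec0ede_nt_EN2.Rng

set_option autoImplicit false

/-!
# MP_ec0ede_nt, project EN2: module ConP, the limits of the constants of the bottom cut
-/

noncomputable section

namespace Pool.Agent.EN2

open Real Filter Topology Finset Pool.Agent.EN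

namespace ConP

theorem bb_le (k : ℕ) : (bb k : ℝ) ≤ Real.exp (2 ^ k) := by
  unfold bb
  exact Nat.floor_le (Real.exp_pos _).le

theorem bb_ge (k : ℕ) : Real.exp (2 ^ k - 1) ≤ (bb k : ℝ) := by
  have h1 : Real.exp (2 ^ k) < (bb k : ℝ) + 1 := by
    unfold bb
    exact Nat.lt_floor_add_one _
  have h2 : (1 : ℝ) ≤ 2 ^ k := one_le_pow₀ (by norm_num)
  have h3 : Real.exp (2 ^ k) = Real.exp (2 ^ k - 1) * Real.exp 1 := by
    rw [← Real.exp_add]
    congr 1
    ring
  have h4 : (2 : ℝ) ≤ Real.exp 1 := by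
    have := Real.add_one_le_exp (1 : ℝ)
    linarith
  have h5 : 1 ≤ Real.exp (2 ^ k - 1) := Real.one_le_exp (by linarith)
  nlinarith

theorem log_bb_le (k : ℕ) : Real.log (bb k) ≤ 2 ^ k := by
  have h0 : (0 : ℝ) < bb k := (Real.exp_pos _).trans_le (bb_ge k)
  have := Real.log_le_log h0 (bb_le k)
  rwa [Real.log_exp] at this

theorem log_bb_ge (k : ℕ) : 2 ^ k - 1 ≤ Real.log (bb k) := by
  have := Real.log_le_log (Real.exp_pos _) (bb_ge k)
  rwa [Real.log_exp] at this

theorem ratio_tendsto : Tendsto (fun k : ℕ => Real.log (bb k) / 2 ^ k) atTop (𝓝 1) := by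
  have h1 : Tendsto (fun k : ℕ => (1 : ℝ) - (1 / 2) ^ k) atTop (𝓝 1) := by
    have := (tendsto_pow_atTop_nhds_zero_of_lt_one (r := (1 / 2 : ℝ)) (by norm_num)
      (by norm_num)).const_sub 1
    simpa using this
  refine tendsto_of_tendsto_of_tendsto_of_le_of_le h1 tendsto_const_nhds (fun k => ?_)
    (fun k => ?_)
  · have h2 : (0 : ℝ) < 2 ^ k := by positivity
    show (1 : ℝ) - (1 / 2) ^ k ≤ Real.log (bb k) / 2 ^ k
    rw [le_div_iff₀ h2, sub_mul, one_mul, ← mul_pow]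
    have := log_bb_ge k
    norm_num at this ⊢
    linarith
  · have h2 : (0 : ℝ) < 2 ^ k := by positivity
    show Real.log (bb k) / 2 ^ k ≤ 1
    rw [div_le_one h2]
    exact log_bb_le k

theorem loglog_tendsto : Tendsto (fun k : ℕ => Real.log (Real.log (bb k)) - k * Real.log 2)
    atTop (𝓝 0) := by
  have h1 := ratio_tendsto.log one_ne_zero
  rw [Real.log_one] at h1
  refine h1.congr' ?_
  filter_upwards [eventually_ge_atTop 1] with k hk
  have h2 : (2 : ℝ) ≤ 2 ^ k := by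
    calc (2 : ℝ) = 2 ^ 1 := (pow_one 2).symm
      _ ≤ 2 ^ k := pow_le_pow_right₀ (by norm_num) hk
  have h3 := log_bb_ge k
  have h4 : Real.log (bb k) ≠ 0 := by linarith
  rw [Real.log_div h4 (by positivity), Real.log_pow]

/-- the key limit -/
theorem G_tendsto : Tendsto (fun k : ℕ => G (bb k) - k * Real.log 2) atTop (𝓝 Mer) := by
  have h1 : Tendsto (fun k : ℕ => G (bb k) - Real.log (Real.log (bb k))) atTop (𝓝 Mer) :=
    mer_tendsto.comp bb_tendsto
  have h2 := h1.add loglog_tendsto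
  rw [add_zero] at h2
  refine h2.congr fun k => ?_
  ring

theorem prod_eq (N : ℕ) : ∏ p ∈ Nat.primesLE N, (1 - 1 / (p : ℝ)) =
    Real.exp (∑ n ∈ range (N + 1), CnL.t n - G N) := by
  have hpos : 0 < ∏ p ∈ Nat.primesLE N, (1 - 1 / (p : ℝ)) :=
    Finset.prod_pos fun p hp => CnL.one_sub_pos (Nat.mem_primesLE.1 hp).2
  have e1 : Real.log (∏ p ∈ Nat.primesLE N, (1 - 1 / (p : ℝ))) =
      ∑ n ∈ range (N + 1), CnL.t n - G N := by
    rw [Real.log_prod (fun p hp => (CnL.one_sub_pos (Nat.mem_primesLE.1 hp).2).ne')]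
    rw [CnL.sum_primes N CnL.t (fun p hp => by unfold CnL.t; rw [if_neg hp])]
    unfold G
    rw [← Finset.sum_sub_distrib]
    apply Finset.sum_congr rfl
    intro p hp
    unfold CnL.t
    rw [if_pos (Nat.mem_primesLE.1 hp).2]
    ring
  rw [← e1, Real.exp_log hpos]

theorem cinf_mul : cinf * √2 * Real.exp (-Mer) = Real.exp (∑' n, CnL.t n - Mer) := by
  rw [CnL.cinf_eq, Real.sqrt_eq_rpow, Real.rpow_def_of_pos (by norm_num), ← Real.exp_add,
    ← Real.exp_add]
  congr 1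
  ring

theorem w_eq (L p : ℕ) : CnL.w L p = Real.log 2 * wz L p := rfl

theorem wz_nonneg (L p : ℕ) : 0 ≤ wz L p := Finset.sum_nonneg fun j _ => mu_nonneg j p

theorem wz_le (L p : ℕ) : wz L p ≤ 1 / Real.log 2 * (1 / (p : ℝ)) := by
  have h1 := CnL.w_le L p
  rw [w_eq] at h1
  have h2 := CnL.log2_pos
  rw [one_div_mul_eq_div, le_div_iff₀ h2]
  linarith

theorem bd_le : ∀ᶠ k : ℕ in atTop, bd 0 ≤ bb k := bb_tendsto.eventually_ge_atTop (bd 0)

theorem one_le : ∀ᶠ k : ℕ in atTop, 1 ≤ bb k := bb_tendsto.eventually_ge_atTop 1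

/-- the sum of the differences tends to zero -/
theorem diff_tendsto : Tendsto (fun k : ℕ =>
    ∑ p ∈ (range (bd (k + mm))).filter (fun p => bb k < p),
      (wz (k + mm) p - Real.log (1 + wz (k + mm) p))) atTop (𝓝 0) := by
  have h1 : Tendsto (fun k : ℕ => (1 / Real.log 2) ^ 2 * (1 / (bb k : ℝ))) atTop (𝓝 0) := by
    have h2 : Tendsto (fun N : ℕ => 1 / (N : ℝ)) atTop (𝓝 0) :=
      tendsto_one_div_atTop_nhds_zero_nat
    have := (h2.comp bb_tendsto).const_mul ((1 / Real.log 2) ^ 2)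
    rw [mul_zero] at this
    exact this
  refine squeeze_zero' (Eventually.of_forall fun k => ?_) ?_ h1
  · exact Finset.sum_nonneg fun p _ => (CnL.log_one_add (wz_nonneg _ p)).1
  · filter_upwards [one_le] with k hk
    calc ∑ p ∈ (range (bd (k + mm))).filter (fun p => bb k < p),
        (wz (k + mm) p - Real.log (1 + wz (k + mm) p))
        ≤ ∑ p ∈ (range (bd (k + mm))).filter (fun p => bb k < p),
          (1 / Real.log 2) ^ 2 * (1 / (p : ℝ) ^ 2) := by
          refine Finset.sum_le_sum fun p _ => (CnL.log_one_add (wz_nonneg _ p)).2.trans ?_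
          have h3 := wz_le (k + mm) p
          have h4 := wz_nonneg (k + mm) p
          calc wz (k + mm) p ^ 2 ≤ (1 / Real.log 2 * (1 / (p : ℝ))) ^ 2 := by gcongr
            _ = (1 / Real.log 2) ^ 2 * (1 / (p : ℝ) ^ 2) := by
              rw [mul_pow, one_div_pow (p : ℝ)]
      _ ≤ (1 / Real.log 2) ^ 2 * (1 / (bb k : ℝ)) := by
          rw [← Finset.mul_sum]
          exact mul_le_mul_of_nonneg_left (CnL.sq_tail _ _ hk) (sq_nonneg _)

end ConP

theorem pk_lim : Tendsto (fun k : ℕ => (∏ p ∈ Nat.primesLE (bb k), (1 - 1 / (p : ℝ))) * 2 ^ k)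
    atTop (𝓝 (cinf * √2 * Real.exp (-Mer))) := by
  rw [ConP.cinf_mul]
  have ht : Tendsto (fun N : ℕ => ∑ n ∈ range (N + 1), CnL.t n) atTop (𝓝 (∑' n, CnL.t n)) :=
    (CnL.t_summable.hasSum.tendsto_sum_nat).comp (tendsto_add_atTop_nat 1)
  have h1 := (ht.comp bb_tendsto).sub ConP.G_tendsto
  have h2 := (Real.continuous_exp.tendsto _).comp h1
  refine h2.congr fun k => ?_
  show Real.exp (∑ n ∈ range (bb k + 1), CnL.t n - (G (bb k) - k * Real.log 2)) = _
  rw [ConP.prod_eq, ← LawB.two_pow_eq, ← Real.exp_add]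
  congr 1
  ring

theorem wz_mass : Tendsto (fun k : ℕ => ∑ p ∈ (range (bd (k + mm))).filter (fun p => bb k < p),
    wz (k + mm) p) atTop (𝓝 ((mm : ℝ) + 1 / 2 - Mer / Real.log 2)) := by
  have h1 := (ConP.G_tendsto.div_const (Real.log 2)).const_sub ((mm : ℝ) + 1 / 2)
  refine h1.congr' ?_
  filter_upwards [ConP.bd_le] with k hk
  have h2 := CnL.w_tail hk (G_bb k)
  have h3 := CnL.log2_pos
  simp only [ConP.w_eq] at h2
  rw [← Finset.mul_sum] at h2
  have h4 : ∑ p ∈ (range (bd (k + mm))).filter (fun p => bb k < p), wz (k + mm) p =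
      (((k + mm : ℕ) : ℝ) * Real.log 2 - G (bb k) + Real.log 2 / 2) / Real.log 2 := by
    rw [← h2]
    field_simp
  rw [h4]
  push_cast
  field_simp
  ring

theorem qk_lim : Tendsto (fun k : ℕ => ∏ p ∈ (range (bd (k + mm))).filter (fun p => bb k < p),
    (1 + wz (k + mm) p)) atTop (𝓝 (Real.exp ((mm : ℝ) + 1 / 2 - Mer / Real.log 2))) := by
  have h1 := wz_mass.sub ConP.diff_tendsto
  rw [sub_zero] at h1
  have h2 := (Real.continuous_exp.tendsto _).comp h1
  refine h2.congr fun k => ?_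
  show Real.exp (∑ p ∈ (range (bd (k + mm))).filter (fun p => bb k < p), wz (k + mm) p -
    ∑ p ∈ (range (bd (k + mm))).filter (fun p => bb k < p),
      (wz (k + mm) p - Real.log (1 + wz (k + mm) p))) = _
  rw [← Finset.sum_sub_distrib, Real.exp_sum]
  refine Finset.prod_congr rfl fun p _ => ?_
  rw [sub_sub_cancel, Real.exp_log]
  have := ConP.wz_nonneg (k + mm) p
  linarith

end Pool.Agent.EN2
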