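import Mathlib
import Pool.Agent.Lib.MP_ec0ede_nt_EN2.Defs
import Pool.Agent.Lib.MP_ec0ede_nt_EN.Bal
import Pool.Agent.Lib.MP_ec0ede_nt_EN.Ker

set_option autoImplicit false

/-!
# MP_ec0ede_nt, project EN2, module HgL: the harmonic function of the killed walk is linear

`hg` satisfies the harmonic equation for the last step, hence a renewal equation with the tails
`T m` of the Poisson law. The tails have explicit sums over an initial range of order one and two.
-/

noncomputable section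

namespace Pool.Agent.EN2

open Real Filter Topology Finset Pool.Agent.EN

namespace HgL

/-- the tail of the Poisson law with mean one -/
def T (m : ℕ) : ℝ := 1 - ∑ k ∈ range (m + 1), pw k

theorem pw_pos (k : ℕ) : 0 < pw k := by
  unfold pw
  positivity

theorem pw_succ (k : ℕ) : ((k : ℝ) + 1) * pw (k + 1) = pw k := by
  unfold pw
  rw [Nat.factorial_succ]
  push_cast
  field_simp

theorem T_zero : T 0 = 1 - pw 0 := by
  unfold T
  simp

theorem T_succ (m : ℕ) : T (m + 1) = T m - pw (m + 1) := by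
  unfold T
  rw [sum_range_succ _ (m + 1)]
  ring

theorem T_nonneg (m : ℕ) : 0 ≤ T m := by
  unfold T
  linarith [Ker.sum_pw (m + 1)]

theorem T_le (n : ℕ) : T n * ((n : ℝ) + 1) ^ 2 ≤ pw n * (n + 2) := by
  have h := Real.exp_bound' (x := 1) zero_le_one le_rfl (n := n + 1) (Nat.succ_pos n)
  have h2 : ∑ k ∈ range (n + 1), pw k =
      Real.exp (-1) * ∑ i ∈ range (n + 1), (1 : ℝ) ^ i / (i.factorial : ℝ) := by
    rw [mul_sum]
    refine sum_congr rfl fun k _ => ?_
    unfold pw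
    rw [one_pow]
    ring
  have h3 : Real.exp (-1) * Real.exp 1 = 1 := by rw [← Real.exp_add]; simp
  have h4 := mul_le_mul_of_nonneg_left h (Real.exp_pos (-1)).le
  rw [h3, mul_add, ← h2] at h4
  have h5 : T n ≤ Real.exp (-1) * ((1 : ℝ) ^ (n + 1) * (((n + 1 : ℕ) : ℝ) + 1) /
      (((n + 1).factorial : ℝ) * ((n + 1 : ℕ) : ℝ))) := by
    unfold T
    linarith
  have h6 : Real.exp (-1) * ((1 : ℝ) ^ (n + 1) * (((n + 1 : ℕ) : ℝ) + 1) /
      (((n + 1).factorial : ℝ) * ((n + 1 : ℕ) : ℝ))) * ((n : ℝ) + 1) ^ 2 = pw n * (n + 2) := by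
    unfold pw
    rw [one_pow, Nat.factorial_succ]
    have hn : (0 : ℝ) < (n : ℝ) + 1 := by positivity
    have hf : (0 : ℝ) < (n.factorial : ℝ) := by positivity
    push_cast
    field_simp
    ring
  rw [← h6]
  exact mul_le_mul_of_nonneg_right h5 (by positivity)

/-- the first order sums over an initial range of the tails -/
theorem sum_T (n : ℕ) : ∑ m ∈ range n, T m = 1 - ((1 - (n : ℝ)) * T n + pw n) := by
  induction n with
  | zero =>
    rw [T_zero]
    simp
  | succ n ih =>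
    rw [sum_range_succ, ih, T_succ]
    have h := pw_succ n
    push_cast
    linear_combination h

/-- the second order sums over an initial range, one step -/
theorem sum_sub_T_succ (n : ℕ) : ∑ m ∈ range (n + 1), (((n + 1 : ℕ) : ℝ) - m) * T m =
    ∑ m ∈ range n, ((n : ℝ) - m) * T m + ∑ m ∈ range (n + 1), T m := by
  rw [sum_range_succ, sum_range_succ _ n, ← add_assoc, ← sum_add_distrib]
  have h : ∀ m ∈ range n, (((n + 1 : ℕ) : ℝ) - m) * T m = ((n : ℝ) - m) * T m + T m := by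
    intro m _
    push_cast
    ring
  rw [sum_congr rfl h]
  push_cast
  ring

/-- the second order sums over an initial range of the tails -/
theorem sum_sub_T (n : ℕ) : ∑ m ∈ range n, ((n : ℝ) - m) * T m =
    (n : ℝ) - 1 / 2 + (((n : ℝ) ^ 2 - n + 1) * T n - ((n : ℝ) - 1) * pw n) / 2 := by
  induction n with
  | zero =>
    rw [T_zero]
    simp
  | succ n ih =>
    rw [sum_sub_T_succ, ih, sum_T, T_succ]
    have h := pw_succ n
    push_cast
    linear_combination (((n : ℝ) - 1) / 2) * h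

/-- the tail of the second order -/
def D (n : ℕ) : ℝ := ((n : ℝ) ^ 2 - n + 1) * T n - ((n : ℝ) - 1) * pw n

theorem D_succ (n : ℕ) : D (n + 1) ≤ D n := by
  have h1 : D (n + 1) - D n = 2 * ((n : ℝ) * T n - pw n) := by
    unfold D
    rw [T_succ]
    have h := pw_succ n
    push_cast
    linear_combination (-(n : ℝ) - 1) * h
  have h2 : (n : ℝ) * T n ≤ pw n := by
    have h := T_le n
    have hn : (0 : ℝ) ≤ n := Nat.cast_nonneg n
    have hp := pw_pos n
    have h3 : ((n : ℝ) * T n) * ((n : ℝ) + 1) ^ 2 ≤ pw n * ((n : ℝ) + 1) ^ 2 := by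
      have h4 := mul_le_mul_of_nonneg_left h hn
      have h5 : (n : ℝ) * (pw n * (n + 2)) ≤ pw n * ((n : ℝ) + 1) ^ 2 := by nlinarith
      calc ((n : ℝ) * T n) * ((n : ℝ) + 1) ^ 2 = (n : ℝ) * (T n * ((n : ℝ) + 1) ^ 2) := by ring
        _ ≤ (n : ℝ) * (pw n * (n + 2)) := h4
        _ ≤ _ := h5
    exact le_of_mul_le_mul_right h3 (by positivity)
  linarith

theorem T_le_pw (n : ℕ) : T n ≤ 2 * pw n := by
  have h := T_le n
  have hn : (0 : ℝ) ≤ n := Nat.cast_nonneg n
  have hp := pw_pos n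
  have h3 : T n * ((n : ℝ) + 1) ^ 2 ≤ (2 * pw n) * ((n : ℝ) + 1) ^ 2 := by
    refine h.trans ?_
    nlinarith [mul_nonneg hp.le hn, mul_nonneg hp.le (mul_nonneg hn hn)]
  exact le_of_mul_le_mul_right h3 (by positivity)

theorem tendsto_sq_pw : Tendsto (fun n : ℕ => ((n : ℝ) ^ 2 + 1) * pw n) atTop (𝓝 0) := by
  have h1 : Tendsto (fun n : ℕ => 2 * Real.exp (-1) * ((4 : ℝ) ^ n / (n.factorial : ℝ)))
      atTop (𝓝 0) := by
    have h := FloorSemiring.tendsto_pow_div_factorial_atTop (4 : ℝ)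
    simpa using h.const_mul (2 * Real.exp (-1))
  refine squeeze_zero (fun n => mul_nonneg (by positivity) (pw_pos n).le) (fun n => ?_) h1
  have h2 : (n : ℝ) ^ 2 ≤ 4 ^ n := by
    have h3 : (n : ℝ) ≤ 2 ^ n := by exact_mod_cast (Nat.lt_two_pow_self (n := n)).le
    calc (n : ℝ) ^ 2 ≤ ((2 : ℝ) ^ n) ^ 2 := pow_le_pow_left₀ (Nat.cast_nonneg n) h3 2
      _ = 4 ^ n := by
        rw [← pow_mul, mul_comm, pow_mul]
        norm_num
  have h3 : (1 : ℝ) ≤ 4 ^ n := one_le_pow₀ (by norm_num)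
  unfold pw
  have h4 : ((n : ℝ) ^ 2 + 1) * (Real.exp (-1) / (n.factorial : ℝ)) ≤
      (2 * 4 ^ n) * (Real.exp (-1) / (n.factorial : ℝ)) :=
    mul_le_mul_of_nonneg_right (by linarith) (by positivity)
  refine h4.trans (le_of_eq ?_)
  ring

theorem tendsto_D : Tendsto D atTop (𝓝 0) := by
  have h := tendsto_sq_pw.const_mul (4 : ℝ)
  rw [mul_zero] at h
  refine squeeze_zero_norm (fun n => ?_) h
  rw [Real.norm_eq_abs]
  unfold D
  have hn : (0 : ℝ) ≤ n := Nat.cast_nonneg n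
  have hp := pw_pos n
  have hT := T_le_pw n
  have hT0 := T_nonneg n
  have hq : 0 ≤ (n : ℝ) ^ 2 - n + 1 := by nlinarith [sq_nonneg ((n : ℝ) - 1)]
  have h1 : ((n : ℝ) ^ 2 - n + 1) * T n ≤ ((n : ℝ) ^ 2 - n + 1) * (2 * pw n) :=
    mul_le_mul_of_nonneg_left hT hq
  have h2 : 0 ≤ ((n : ℝ) ^ 2 - n + 1) * T n := mul_nonneg hq hT0
  rw [abs_le]
  constructor
  · have h3 : 0 ≤ (4 * ((n : ℝ) ^ 2 + 1) - (n - 1)) * pw n :=
      mul_nonneg (by nlinarith [sq_nonneg ((n : ℝ) - 1)]) hp.le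
    linarith
  · have h3 : 0 ≤ (4 * ((n : ℝ) ^ 2 + 1) + (n - 1) - 2 * ((n : ℝ) ^ 2 - n + 1)) * pw n :=
      mul_nonneg (by nlinarith [sq_nonneg ((n : ℝ) - 1)]) hp.le
    linarith

theorem D_nonneg (n : ℕ) : 0 ≤ D n :=
  (antitone_nat_of_succ_le D_succ).le_of_tendsto tendsto_D n

/-- the renewal equation -/
theorem renewal (hh : ∀ a : ℕ, 1 ≤ a → hg a = ∑ k ∈ range (a + 1), pw k * hg (a + 1 - k)) (n : ℕ) :
    hg (n + 1) = ∑ m ∈ range (n + 1), T m * hg (n + 1 - m) + 1 / √(2 * π) := by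
  induction n with
  | zero =>
    have h : hg 1 = Real.exp 1 * (1 / √(2 * π)) := by
      rw [Ker.hg_eq]
      simp only [sum_range_one, Ker.fp_zero, mul_zero, sub_zero, Nat.cast_one]
    have h2 : pw 0 * hg 1 = 1 / √(2 * π) := by
      rw [h]
      unfold pw
      rw [Nat.factorial_zero, Nat.cast_one, div_one, ← mul_assoc, ← Real.exp_add]
      simp
    simp only [zero_add, sum_range_one, Nat.sub_zero, T_zero]
    linarith
  | succ n ih =>
    have h1 := hh (n + 1) (by omega)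
    rw [sum_range_succ'] at h1
    rw [sum_range_succ']
    simp only [Nat.sub_zero] at h1 ⊢
    have h2 : ∀ m ∈ range (n + 1), T (m + 1) * hg (n + 1 + 1 - (m + 1)) =
        T m * hg (n + 1 - m) - pw (m + 1) * hg (n + 1 + 1 - (m + 1)) := by
      intro m _
      rw [T_succ, Nat.add_sub_add_right]
      ring
    rw [sum_congr rfl h2, sum_sub_distrib, T_zero]
    linarith

/-- the renewal equation, solved for the value -/
theorem renewal' (hh : ∀ a : ℕ, 1 ≤ a → hg a = ∑ k ∈ range (a + 1), pw k * hg (a + 1 - k)) (n : ℕ) :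
    pw 0 * hg (n + 1) = ∑ m ∈ range n, T (m + 1) * hg (n - m) + 1 / √(2 * π) := by
  have h := renewal hh n
  rw [sum_range_succ'] at h
  simp only [Nat.sub_zero, T_zero] at h
  have h2 : ∀ m ∈ range n, T (m + 1) * hg (n + 1 - (m + 1)) = T (m + 1) * hg (n - m) := by
    intro m _
    rw [Nat.add_sub_add_right]
  rw [sum_congr rfl h2] at h
  linarith

/-- the sums over an initial range of a linear function against the tails -/
theorem sum_lin (n : ℕ) (r : ℝ) : ∑ m ∈ range n, T (m + 1) * (((n - m : ℕ) : ℝ) + r) =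
    pw 0 * ((n : ℝ) + 1 + r) - 1 / 2 + D (n + 1) / 2 - r * (pw (n + 1) - n * T (n + 1)) := by
  have h1 := sum_sub_T (n + 1)
  have h2 := sum_T (n + 1)
  rw [sum_range_succ'] at h1 h2
  have h3 : ∑ m ∈ range n, T (m + 1) * (((n - m : ℕ) : ℝ) + r) =
      ∑ m ∈ range n, (((n + 1 : ℕ) : ℝ) - ((m + 1 : ℕ) : ℝ)) * T (m + 1) +
      r * ∑ m ∈ range n, T (m + 1) := by
    rw [mul_sum, ← sum_add_distrib]
    refine sum_congr rfl fun m hm => ?_
    rw [mem_range] at hm
    rw [Nat.cast_sub hm.le]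
    push_cast
    ring
  rw [h3]
  unfold D
  rw [T_zero] at h1 h2
  push_cast at h1 h2 ⊢
  linear_combination h1 + r * h2

theorem two_c0 : √(2 / π) = 2 * (1 / √(2 * π)) := by
  have hpi := Real.pi_pos
  have h1 : (0 : ℝ) < √(2 * π) := by positivity
  rw [Real.sqrt_eq_iff_mul_self_eq (by positivity) (by positivity)]
  have h2 : √(2 * π) * √(2 * π) = 2 * π := Real.mul_self_sqrt (by positivity)
  have h3 : 2 * (1 / √(2 * π)) * (2 * (1 / √(2 * π))) = 4 / (√(2 * π) * √(2 * π)) := by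
    field_simp
    norm_num
  rw [h3, h2]
  field_simp
  norm_num

end HgL

theorem kp_last (n b a : ℕ) (hb : 1 ≤ b) (ha : 1 ≤ a) :
    kp (n + 1) b a = ∑ k ∈ range (a + 1), pw k * kp n b (a + 1 - k) := by
  induction n generalizing b with
  | zero =>
    rw [Ker.kp_succ 0 b a (a + b + 2) (by omega)]
    by_cases hba : b ≤ a + 1
    · rw [sum_eq_single_of_mem (a + 1 - b) (by rw [mem_range]; omega),
        sum_eq_single_of_mem (a + 1 - b) (by rw [mem_range]; omega)]
      · rw [if_pos (by omega), Ker.kp_zero, Ker.kp_zero, if_pos (by omega), if_pos (by omega)]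
      · intro k hk hk2
        rw [mem_range] at hk
        rw [Ker.kp_zero, if_neg (by omega), mul_zero]
      · intro k hk hk2
        split_ifs with h
        · rw [Ker.kp_zero, if_neg (by omega), mul_zero]
        · rw [mul_zero]
    · rw [sum_eq_zero, sum_eq_zero]
      · intro k hk
        rw [Ker.kp_zero, if_neg (by omega), mul_zero]
      · intro k hk
        split_ifs with h
        · rw [Ker.kp_zero, if_neg (by omega), mul_zero]
        · rw [mul_zero]
  | succ n ih =>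
    rw [Ker.kp_succ (n + 1) b a (a + n + 5) (by omega)]
    have h1 : ∀ k ∈ range (a + n + 5), pw k * (if 2 ≤ b + k then kp (n + 1) (b + k - 1) a else 0) =
        ∑ j ∈ range (a + 1), pw j *
          (pw k * (if 2 ≤ b + k then kp n (b + k - 1) (a + 1 - j) else 0)) := by
      intro k _
      split_ifs with h
      · rw [ih (b + k - 1) (by omega), mul_sum]
        refine sum_congr rfl fun j _ => ?_
        ring
      · simp
    rw [sum_congr rfl h1, sum_comm]
    refine sum_congr rfl fun j _ => ?_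
    rw [← mul_sum, ← Ker.kp_succ n b (a + 1 - j) (a + n + 5) (by omega)]

theorem hg_harm (a : ℕ) (ha : 1 ≤ a) : hg a = ∑ k ∈ range (a + 1), pw k * hg (a + 1 - k) := by
  -- the left side
  have h1 : Tendsto (fun n : ℕ => (((n + 1 : ℕ) : ℝ)) ^ (3 / 2 : ℝ) * kp (n + 1) 1 a) atTop
      (𝓝 (hg a)) := by
    have h := (kp_tendsto 1 a le_rfl ha).comp (tendsto_add_atTop_nat 1)
    simp only [Nat.cast_one, one_mul] at h
    exact h
  have h2 : Tendsto (fun n : ℕ => ((n : ℝ) / ((n : ℝ) + 1)) ^ (3 / 2 : ℝ)) atTop (𝓝 1) := by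
    have h := (tendsto_natCast_div_add_atTop (𝕜 := ℝ) (1 : ℝ)).rpow_const (p := (3 / 2 : ℝ))
      (Or.inl one_ne_zero)
    rw [Real.one_rpow] at h
    exact h
  have h3 : Tendsto (fun n : ℕ => (n : ℝ) ^ (3 / 2 : ℝ) * kp (n + 1) 1 a) atTop (𝓝 (hg a)) := by
    have h := h2.mul h1
    rw [one_mul] at h
    refine h.congr fun n => ?_
    have hn : (0 : ℝ) < (n : ℝ) + 1 := by positivity
    rw [Real.div_rpow (Nat.cast_nonneg n) hn.le]
    have hn2 : (0 : ℝ) < ((n : ℝ) + 1) ^ (3 / 2 : ℝ) := by positivity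
    push_cast
    field_simp
  -- the right side
  have h4 : Tendsto (fun n : ℕ => ∑ k ∈ range (a + 1),
      pw k * ((n : ℝ) ^ (3 / 2 : ℝ) * kp n 1 (a + 1 - k))) atTop
      (𝓝 (∑ k ∈ range (a + 1), pw k * hg (a + 1 - k))) := by
    refine tendsto_finsetSum _ fun k hk => ?_
    rw [mem_range] at hk
    have h := kp_tendsto 1 (a + 1 - k) le_rfl (by omega)
    simp only [Nat.cast_one, one_mul] at h
    exact h.const_mul _
  refine tendsto_nhds_unique h3 (h4.congr fun n => ?_)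
  rw [kp_last n 1 a le_rfl ha, mul_sum]
  exact sum_congr rfl fun k _ => by ring

theorem hg_lower (a : ℕ) (ha : 1 ≤ a) : √(2 / π) * a ≤ hg a := by
  induction a using Nat.strong_induction_on with
  | _ a ih =>
    obtain ⟨n, rfl⟩ : ∃ n, a = n + 1 := ⟨a - 1, by omega⟩
    have h1 := HgL.renewal' hg_harm n
    have hs : (0 : ℝ) ≤ √(2 / π) := Real.sqrt_nonneg _
    have h2 : √(2 / π) * ∑ m ∈ range n, HgL.T (m + 1) * (((n - m : ℕ) : ℝ) + 0) ≤
        ∑ m ∈ range n, HgL.T (m + 1) * hg (n - m) := by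
      rw [mul_sum]
      refine sum_le_sum fun m hm => ?_
      rw [mem_range] at hm
      have h3 := ih (n - m) (by omega) (by omega)
      have h4 := mul_le_mul_of_nonneg_left h3 (HgL.T_nonneg (m + 1))
      calc √(2 / π) * (HgL.T (m + 1) * (((n - m : ℕ) : ℝ) + 0)) =
          HgL.T (m + 1) * (√(2 / π) * ((n - m : ℕ) : ℝ)) := by ring
        _ ≤ _ := h4
    rw [HgL.sum_lin n 0] at h2
    have h5 : 1 / √(2 * π) = √(2 / π) / 2 := by
      rw [HgL.two_c0]
      ring
    rw [h5] at h1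
    have h6 := mul_nonneg hs (HgL.D_nonneg (n + 1))
    have h7 : pw 0 * (√(2 / π) * ((n + 1 : ℕ) : ℝ)) ≤ pw 0 * hg (n + 1) := by
      push_cast
      linarith
    exact le_of_mul_le_mul_left h7 (HgL.pw_pos 0)

theorem hg_upper (a : ℕ) (ha : 1 ≤ a) : hg a ≤ √(2 / π) * (a + 2) := by
  induction a using Nat.strong_induction_on with
  | _ a ih =>
    obtain ⟨n, rfl⟩ : ∃ n, a = n + 1 := ⟨a - 1, by omega⟩
    have h1 := HgL.renewal' hg_harm n
    have hs : (0 : ℝ) ≤ √(2 / π) := Real.sqrt_nonneg _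
    have h2 : ∑ m ∈ range n, HgL.T (m + 1) * hg (n - m) ≤
        √(2 / π) * ∑ m ∈ range n, HgL.T (m + 1) * (((n - m : ℕ) : ℝ) + 2) := by
      rw [mul_sum]
      refine sum_le_sum fun m hm => ?_
      rw [mem_range] at hm
      have h3 := ih (n - m) (by omega) (by omega)
      have h4 := mul_le_mul_of_nonneg_left h3 (HgL.T_nonneg (m + 1))
      calc HgL.T (m + 1) * hg (n - m) ≤ HgL.T (m + 1) * (√(2 / π) * (((n - m : ℕ) : ℝ) + 2)) := h4
        _ = _ := by ring
    rw [HgL.sum_lin n 2] at h2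
    have h5 : 1 / √(2 * π) = √(2 / π) / 2 := by
      rw [HgL.two_c0]
      ring
    rw [h5] at h1
    have h8 : HgL.D (n + 1) ≤ 4 * (pw (n + 1) - n * HgL.T (n + 1)) := by
      have h9 := HgL.T_le (n + 1)
      unfold HgL.D
      push_cast at h9 ⊢
      have hn : (0 : ℝ) ≤ n := Nat.cast_nonneg n
      have hp := HgL.pw_pos (n + 1)
      have h10 : (((n : ℝ) ^ 2 + 5 * n + 1) * HgL.T (n + 1)) * ((n : ℝ) + 1 + 1) ^ 2 ≤
          (((n : ℝ) + 4) * pw (n + 1)) * ((n : ℝ) + 1 + 1) ^ 2 := by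
        have h11 := mul_le_mul_of_nonneg_left h9 (by positivity : (0 : ℝ) ≤ (n : ℝ) ^ 2 + 5 * n + 1)
        have h12 : ((n : ℝ) ^ 2 + 5 * n + 1) * (pw (n + 1) * ((n : ℝ) + 1 + 2)) ≤
            (((n : ℝ) + 4) * pw (n + 1)) * ((n : ℝ) + 1 + 1) ^ 2 := by
          have h13 : ((n : ℝ) ^ 2 + 5 * n + 1) * ((n : ℝ) + 1 + 2) ≤
              ((n : ℝ) + 4) * ((n : ℝ) + 1 + 1) ^ 2 := by nlinarith
          have h14 := mul_le_mul_of_nonneg_left h13 hp.le
          calc _ = pw (n + 1) * (((n : ℝ) ^ 2 + 5 * n + 1) * ((n : ℝ) + 1 + 2)) := by ring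
            _ ≤ pw (n + 1) * (((n : ℝ) + 4) * ((n : ℝ) + 1 + 1) ^ 2) := h14
            _ = _ := by ring
        calc _ = ((n : ℝ) ^ 2 + 5 * n + 1) * (HgL.T (n + 1) * ((n : ℝ) + 1 + 1) ^ 2) := by ring
          _ ≤ _ := h11
          _ ≤ _ := h12
      have h15 : ((n : ℝ) ^ 2 + 5 * n + 1) * HgL.T (n + 1) ≤ ((n : ℝ) + 4) * pw (n + 1) :=
        le_of_mul_le_mul_right h10 (by positivity)
      linarith
    have h6 := mul_le_mul_of_nonneg_left h8 hs
    have h7 : pw 0 * hg (n + 1) ≤ pw 0 * (√(2 / π) * (((n + 1 : ℕ) : ℝ) + 2)) := by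
      push_cast
      linarith
    exact le_of_mul_le_mul_left h7 (HgL.pw_pos 0)

end Pool.Agent.EN2
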