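import Mathlib
import Pool.Agent.Lib.MP_ec0ede_nt_EN2.Defs
import Pool.Agent.Lib.MP_ec0ede_nt_EN.Ker
import Pool.Agent.Lib.MP_ec0ede_nt_EN.LawA
import Pool.Agent.Lib.MP_ec0ede_nt_EN2.HgL
import Pool.Agent.Lib.MP_ec0ede_nt_EN2.ConP

set_option autoImplicit false

noncomputable section

namespace Pool.Agent.EN2

open Real Filter Topology Finset Pool.Agent.EN

def cK : ℝ := Real.exp ((mm : ℝ) + 1 / 2 - Mer / Real.log 2) * √(2 / π)

namespace EcA

theorem wz_nonneg (K p : ℕ) : 0 ≤ wz K p := Finset.sum_nonneg fun j _ => mu_nonneg j p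

/-- the set of primes above the cut -/
def PP (K b : ℕ) : Finset ℕ := (range (bd K)).filter (fun p => b < p)

/-- the weight of a set -/
def ww (K : ℕ) (B : Finset ℕ) : ℝ := ∏ p ∈ B, wz K p

theorem ww_nonneg (K : ℕ) (B : Finset ℕ) : 0 ≤ ww K B :=
  Finset.prod_nonneg fun p _ => wz_nonneg K p

theorem EC_def (K b : ℕ) (ψ : ℕ → ℝ) (Z : ℤ) : EC K b ψ Z =
    ∑ B ∈ (PP K b).powerset, ww K B * (if 1 ≤ Z - B.card then ψ (Z - B.card).toNat else 0) := rfl

end EcA

open EcA

theorem EC_nonneg (K b : ℕ) (ψ : ℕ → ℝ) (h : ∀ x, 0 ≤ ψ x) (Z : ℤ) : 0 ≤ EC K b ψ Z := by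
  rw [EC_def]
  refine Finset.sum_nonneg fun B _ => mul_nonneg (ww_nonneg K B) ?_
  split_ifs
  · exact h _
  · exact le_refl _

theorem EC_mono (K b : ℕ) (ψ ψ' : ℕ → ℝ) (c : ℝ) (h : ∀ x, 1 ≤ x → ψ x ≤ c * ψ' x) (Z : ℤ) :
    EC K b ψ Z ≤ c * EC K b ψ' Z := by
  rw [EC_def, EC_def, Finset.mul_sum]
  refine Finset.sum_le_sum fun B _ => ?_
  split_ifs with h1
  · have h2 : 1 ≤ (Z - B.card).toNat := by omega
    have h3 := mul_le_mul_of_nonneg_left (h _ h2) (ww_nonneg K B)
    calc ww K B * ψ (Z - B.card).toNat ≤ ww K B * (c * ψ' (Z - B.card).toNat) := h3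
      _ = c * (ww K B * ψ' (Z - B.card).toNat) := by ring
  · simp

namespace EcA

theorem s_pos : 0 < √(2 / π) := Real.sqrt_pos.2 (by positivity)

/-- the term of the empty set -/
theorem EC_ge (K b : ℕ) (ψ : ℕ → ℝ) (h : ∀ x, 0 ≤ ψ x) (Z : ℤ) (hZ : 1 ≤ Z) :
    ψ Z.toNat ≤ EC K b ψ Z := by
  rw [EC_def]
  have h1 := Finset.single_le_sum (f := fun B : Finset ℕ => ww K B *
    (if 1 ≤ Z - B.card then ψ (Z - B.card).toNat else 0)) (s := (PP K b).powerset)
    (fun B _ => mul_nonneg (ww_nonneg K B) (by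
      split_ifs
      · exact h _
      · exact le_refl _)) (Finset.empty_mem_powerset _)
  refine le_trans (le_of_eq ?_) h1
  simp [ww, hZ]

theorem EC_hg_ge (K b : ℕ) (Z : ℤ) (hZ : 1 ≤ Z) : √(2 / π) * Z ≤ EC K b hg Z := by
  refine le_trans ?_ (EC_ge K b hg hg_nonneg Z hZ)
  have h1 := hg_lower Z.toNat (by omega)
  have h2 : ((Z.toNat : ℕ) : ℝ) = (Z : ℝ) := by
    have : ((Z.toNat : ℕ) : ℤ) = Z := by omega
    exact_mod_cast this
  rwa [h2] at h1

theorem EC_zero (K b : ℕ) (ψ : ℕ → ℝ) (Z : ℤ) (hZ : Z ≤ 0) : EC K b ψ Z = 0 := by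
  rw [EC_def]
  refine Finset.sum_eq_zero fun B _ => ?_
  rw [if_neg (by omega), mul_zero]

/-- comparison of `hg` with a linear function -/
theorem step1 (K b : ℕ) (Z : ℤ) :
    |EC K b hg Z - √(2 / π) * ∑ B ∈ (PP K b).powerset, ww K B * max 0 ((Z : ℝ) - B.card)| ≤
      2 * √(2 / π) * EC K b (fun _ => 1) Z := by
  rw [EC_def, EC_def, Finset.mul_sum, Finset.mul_sum, ← Finset.sum_sub_distrib]
  refine (Finset.abs_sum_le_sum_abs _ _).trans (Finset.sum_le_sum fun B _ => ?_)
  have hs := s_pos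
  split_ifs with h1
  · have h2 : 1 ≤ (Z - B.card).toNat := by omega
    have h3 : (((Z - B.card).toNat : ℕ) : ℝ) = (Z : ℝ) - B.card := by
      have : (((Z - B.card).toNat : ℕ) : ℤ) = Z - B.card := by omega
      exact_mod_cast this
    have h4 : (0:ℝ) ≤ (Z : ℝ) - B.card := by
      rw [← h3]
      positivity
    rw [max_eq_right h4]
    have h5 := hg_lower _ h2
    have h6 := hg_upper _ h2
    rw [h3] at h5 h6
    have h7 : |hg (Z - B.card).toNat - √(2 / π) * ((Z : ℝ) - B.card)| ≤ 2 * √(2 / π) := by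
      rw [abs_le]
      constructor <;> nlinarith
    calc |ww K B * hg (Z - B.card).toNat - √(2 / π) * (ww K B * ((Z : ℝ) - B.card))|
        = ww K B * |hg (Z - B.card).toNat - √(2 / π) * ((Z : ℝ) - B.card)| := by
          rw [← abs_of_nonneg (ww_nonneg K B), ← abs_mul, abs_of_nonneg (ww_nonneg K B)]
          congr 1
          ring
      _ ≤ ww K B * (2 * √(2 / π)) := mul_le_mul_of_nonneg_left h7 (ww_nonneg K B)
      _ = 2 * √(2 / π) * (ww K B * 1) := by ring
  · have h4 : (Z : ℝ) - B.card ≤ 0 := by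
      have : Z - B.card ≤ 0 := by omega
      exact_mod_cast this
    rw [max_eq_left h4]
    simp

/-- the sum with the cardinality -/
theorem rk_le (K b : ℕ) : ∑ B ∈ (PP K b).powerset, ww K B * (B.card : ℝ) ≤
    Real.exp (2 * ∑ p ∈ PP K b, wz K p) := by
  calc ∑ B ∈ (PP K b).powerset, ww K B * (B.card : ℝ)
      ≤ ∑ B ∈ (PP K b).powerset, ∏ p ∈ B, (2 * wz K p) := by
        refine Finset.sum_le_sum fun B _ => ?_
        rw [Finset.prod_mul_distrib, Finset.prod_const, mul_comm]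
        refine mul_le_mul_of_nonneg_right ?_ (ww_nonneg K B)
        exact_mod_cast (Nat.lt_two_pow_self (n := B.card)).le
    _ = ∏ p ∈ PP K b, (1 + 2 * wz K p) := (Finset.prod_one_add _).symm
    _ ≤ ∏ p ∈ PP K b, Real.exp (2 * wz K p) := by
        refine Finset.prod_le_prod (fun p _ => ?_) fun p _ => ?_
        · have := wz_nonneg K p
          positivity
        · have := Real.add_one_le_exp (2 * wz K p)
          linarith
    _ = Real.exp (2 * ∑ p ∈ PP K b, wz K p) := by rw [← Real.exp_sum, Finset.mul_sum]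

/-- comparison with the product -/
theorem step2 (K b : ℕ) (Z : ℤ) (hZ : 0 ≤ Z) :
    |∑ B ∈ (PP K b).powerset, ww K B * max 0 ((Z : ℝ) - B.card) -
      (∏ p ∈ PP K b, (1 + wz K p)) * Z| ≤ Real.exp (2 * ∑ p ∈ PP K b, wz K p) := by
  rw [Finset.prod_one_add, Finset.sum_mul, ← Finset.sum_sub_distrib]
  refine (Finset.abs_sum_le_sum_abs _ _).trans (le_trans (Finset.sum_le_sum fun B _ => ?_)
    (rk_le K b))
  have hZ' : (0:ℝ) ≤ Z := by exact_mod_cast hZ
  have hB : (0:ℝ) ≤ B.card := by positivity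
  have h1 : |max 0 ((Z : ℝ) - B.card) - Z| ≤ B.card := by
    rw [abs_le]
    rcases le_total 0 ((Z : ℝ) - B.card) with h | h
    · rw [max_eq_right h]
      constructor <;> linarith
    · rw [max_eq_left h]
      constructor <;> linarith
  calc |ww K B * max 0 ((Z : ℝ) - B.card) - (∏ p ∈ B, wz K p) * Z|
      = ww K B * |max 0 ((Z : ℝ) - B.card) - Z| := by
        rw [← abs_of_nonneg (ww_nonneg K B), ← abs_mul, abs_of_nonneg (ww_nonneg K B)]
        congr 1
        unfold ww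
        ring
    _ ≤ ww K B * B.card := mul_le_mul_of_nonneg_left h1 (ww_nonneg K B)

end EcA

theorem EC_asymp {ε : ℝ} (hε : 0 < ε) : ∃ C : ℝ, 0 < C ∧ ∃ k0 : ℕ, ∀ k ≥ k0,
    ∀ (h : ℤ) (j : ℕ),
    |EC (k + mm) (bb k) hg (h + mm + j) - cK * max 0 (h : ℝ)| ≤
      ε * EC (k + mm) (bb k) hg (h + mm + j) +
      C * (1 + j) * EC (k + mm) (bb k) (fun _ => 1) (h + mm + j) := by
  have hs := s_pos
  set s : ℝ := √(2 / π) with hsdef
  set Qc : ℝ := Real.exp ((mm : ℝ) + 1 / 2 - Mer / Real.log 2) with hQ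
  have hQ0 : 0 < Qc := Real.exp_pos _
  set M : ℝ := (mm : ℝ) + 1 / 2 - Mer / Real.log 2 with hM
  set R : ℝ := Real.exp (2 * (M + 1)) with hR
  have hR0 : 0 < R := Real.exp_pos _
  have h1 : ∀ᶠ k : ℕ in atTop, |∏ p ∈ PP (k + mm) (bb k), (1 + wz (k + mm) p) - Qc| < ε := by
    have := (Metric.tendsto_nhds.1 qk_lim) ε hε
    filter_upwards [this] with k hk
    rw [Real.dist_eq] at hk
    exact hk
  have h2 : ∀ᶠ k : ℕ in atTop, ∑ p ∈ PP (k + mm) (bb k), wz (k + mm) p < M + 1 := by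
    exact wz_mass.eventually_lt_const (by linarith)
  obtain ⟨k0, hk0⟩ := eventually_atTop.1 (h1.and h2)
  have hmm : (0:ℝ) ≤ mm := by positivity
  refine ⟨2 * s + s * R + s * Qc * (mm + 1), by positivity, k0, ?_⟩
  intro k hk h j
  obtain ⟨hq, hw⟩ := hk0 k hk
  have hj : (0:ℝ) ≤ j := by positivity
  set Z : ℤ := h + mm + j with hZdef
  rcases le_or_gt Z 0 with hZ | hZ
  · rw [EC_zero _ _ _ _ hZ, EC_zero _ _ _ _ hZ]
    have hh : (h : ℝ) ≤ 0 := by
      have : h ≤ 0 := by omega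
      exact_mod_cast this
    rw [max_eq_left hh]
    simp
  · have hZ1 : 1 ≤ Z := hZ
    have hZr : (1:ℝ) ≤ Z := by exact_mod_cast hZ1
    have hO : (1:ℝ) ≤ EC (k + mm) (bb k) (fun _ => 1) Z :=
      EC_ge (k + mm) (bb k) (fun _ => 1) (fun _ => zero_le_one) Z hZ1
    set O : ℝ := EC (k + mm) (bb k) (fun _ => 1) Z with hOdef
    have hT := EC_hg_ge (k + mm) (bb k) Z hZ1
    rw [← hsdef] at hT
    set T : ℝ := EC (k + mm) (bb k) hg Z with hTdef
    have e1 := step1 (k + mm) (bb k) Z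
    rw [← hsdef, ← hOdef, ← hTdef] at e1
    set A : ℝ := ∑ B ∈ (PP (k + mm) (bb k)).powerset, ww (k + mm) B * max 0 ((Z : ℝ) - B.card)
      with hA
    have e2 := step2 (k + mm) (bb k) Z (by omega)
    rw [← hA] at e2
    set q : ℝ := ∏ p ∈ PP (k + mm) (bb k), (1 + wz (k + mm) p) with hqdef
    have e3 : Real.exp (2 * ∑ p ∈ PP (k + mm) (bb k), wz (k + mm) p) ≤ R := by
      rw [hR]
      apply Real.exp_le_exp.2
      linarith
    have e4 : |Qc * Z - Qc * max 0 (h : ℝ)| ≤ Qc * (mm + j) := by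
      rw [← mul_sub, abs_mul, abs_of_pos hQ0]
      refine mul_le_mul_of_nonneg_left ?_ hQ0.le
      have hZh : (Z : ℝ) = h + mm + j := by
        rw [hZdef]
        push_cast
        ring
      rw [abs_le]
      rcases le_total 0 (h : ℝ) with h0 | h0
      · rw [max_eq_right h0]
        constructor <;> linarith
      · rw [max_eq_left h0]
        constructor <;> linarith
    have e5 : |q * Z - Qc * Z| ≤ ε * Z := by
      rw [← sub_mul, abs_mul, abs_of_pos (show (0:ℝ) < Z by linarith)]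
      exact mul_le_mul_of_nonneg_right hq.le (by linarith)
    have e6 : |T - cK * max 0 (h : ℝ)| ≤ 2 * s * O + s * R + s * (ε * Z) + s * (Qc * (mm + j)) := by
      have hdec : T - cK * max 0 (h : ℝ) = (T - s * A) + s * (A - q * Z) + s * (q * Z - Qc * Z) +
          s * (Qc * Z - Qc * max 0 (h : ℝ)) := by
        have : cK = Qc * s := rfl
        rw [this]
        ring
      rw [hdec]
      have t1 := abs_add_le ((T - s * A) + s * (A - q * Z) + s * (q * Z - Qc * Z))
        (s * (Qc * Z - Qc * max 0 (h : ℝ)))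
      have t2 := abs_add_le ((T - s * A) + s * (A - q * Z)) (s * (q * Z - Qc * Z))
      have t3 := abs_add_le (T - s * A) (s * (A - q * Z))
      rw [abs_mul, abs_of_pos hs] at t1 t2 t3
      have u1 := mul_le_mul_of_nonneg_left (e2.trans e3) hs.le
      have u2 := mul_le_mul_of_nonneg_left e5 hs.le
      have u3 := mul_le_mul_of_nonneg_left e4 hs.le
      linarith
    have e7 : s * (ε * Z) ≤ ε * T := by
      have := mul_le_mul_of_nonneg_left hT hε.le
      linarith
    have e8 : 2 * s * O + s * R + s * (Qc * (mm + j)) ≤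
        (2 * s + s * R + s * Qc * (mm + 1)) * (1 + j) * O := by
      have v1 : 2 * s * O ≤ 2 * s * (1 + j) * O := by
        have : 0 ≤ 2 * s * (j : ℝ) * O := by positivity
        linarith
      have v2 : s * R ≤ s * R * (1 + j) * O := by
        have : (1:ℝ) ≤ (1 + j) * O := by nlinarith
        calc s * R = s * R * 1 := by ring
          _ ≤ s * R * ((1 + j) * O) := mul_le_mul_of_nonneg_left this (by positivity)
          _ = s * R * (1 + j) * O := by ring
      have v3 : s * (Qc * (mm + j)) ≤ s * Qc * (mm + 1) * (1 + j) * O := by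
        have w1 : (mm : ℝ) + j ≤ (mm + 1) * (1 + j) := by nlinarith
        have w2 : (mm + 1 : ℝ) * (1 + j) ≤ (mm + 1) * (1 + j) * O := by
          have : 0 ≤ (mm + 1 : ℝ) * (1 + j) := by positivity
          nlinarith
        calc s * (Qc * (mm + j)) = s * Qc * (mm + j) := by ring
          _ ≤ s * Qc * ((mm + 1) * (1 + j) * O) :=
            mul_le_mul_of_nonneg_left (w1.trans w2) (by positivity)
          _ = s * Qc * (mm + 1) * (1 + j) * O := by ring
      calc 2 * s * O + s * R + s * (Qc * (mm + j)) ≤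
          2 * s * (1 + j) * O + s * R * (1 + j) * O + s * Qc * (mm + 1) * (1 + j) * O := by linarith
        _ = (2 * s + s * R + s * Qc * (mm + 1)) * (1 + j) * O := by ring
    linarith

theorem EC_lower : ∃ c : ℝ, 0 < c ∧ ∀ (k : ℕ) (h : ℤ) (j : ℕ),
    c * max 0 (h : ℝ) ≤ EC (k + mm) (bb k) hg (h + mm + j) := by
  refine ⟨√(2 / π), s_pos, ?_⟩
  intro k h j
  rcases le_or_gt h 0 with h0 | h0
  · have hh : (h : ℝ) ≤ 0 := by exact_mod_cast h0
    rw [max_eq_left hh, mul_zero]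
    exact EC_nonneg _ _ _ hg_nonneg _
  · have hh : (0 : ℝ) ≤ h := by exact_mod_cast h0.le
    rw [max_eq_right hh]
    refine le_trans ?_ (EC_hg_ge (k + mm) (bb k) (h + mm + j) (by omega))
    refine mul_le_mul_of_nonneg_left ?_ s_pos.le
    have : h ≤ h + mm + j := by omega
    exact_mod_cast this

end Pool.Agent.EN2
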