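import Mathlib
import Pool.Agent.Lib.MP_ec0ede_nt_EN2.Defs

set_option autoImplicit false

noncomputable section

namespace Pool.Agent.EN2

open Real Filter Topology Finset Pool.Agent.EN

theorem RR_nonneg (S : ℕ) {k : ℕ} (v : Fin k → ℝ) : 0 ≤ RR S v := by
  unfold RR
  exact Finset.sum_nonneg fun _ _ => ind_nonneg _

theorem RR_le (S : ℕ) {k : ℕ} (v : Fin k → ℝ) : RR S v ≤ 2 ^ k := by
  classical
  unfold RR
  refine (Finset.sum_le_card_nsmul _ _ 1 fun I _ => ind_le_one _).trans (le_of_eq ?_)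
  rw [Finset.card_univ, Fintype.card_finset, Fintype.card_fin, nsmul_eq_mul, mul_one]
  push_cast
  rfl

theorem RR_measurable (S k : ℕ) : Measurable (fun v : Fin k → ℝ => RR S v) := by
  unfold RR
  refine Finset.measurable_fun_sum _ fun I _ => ?_
  have hm : Measurable (fun v : Fin k → ℝ => ∑ i ∈ I, (2 : ℝ) ^ v i) := by
    refine Finset.measurable_fun_sum _ fun i _ => ?_
    exact Measurable.pow measurable_const (measurable_pi_apply i)
  refine Measurable.ite ?_ measurable_const measurable_const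
  exact (measurableSet_lt measurable_const hm).inter (measurableSet_le hm measurable_const)

namespace FFp

theorem exp_lip {x y : ℝ} (hx : 0 ≤ x) (hy : 0 ≤ y) :
    |Real.exp (-x) - Real.exp (-y)| ≤ |x - y| := by
  have key : ∀ a b : ℝ, 0 ≤ a → a ≤ b → |Real.exp (-a) - Real.exp (-b)| ≤ b - a := by
    intro a b ha hab
    have h1 : Real.exp (-b) = Real.exp (-a) * Real.exp (-(b - a)) := by
      rw [← Real.exp_add]; congr 1; ring
    have h2 : 0 ≤ Real.exp (-a) - Real.exp (-b) := by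
      have : Real.exp (-b) ≤ Real.exp (-a) := Real.exp_le_exp.2 (by linarith)
      linarith
    rw [abs_of_nonneg h2, h1]
    have h3 : Real.exp (-a) ≤ 1 := Real.exp_le_one_iff.2 (by linarith)
    have h4 := Real.add_one_le_exp (-(b - a))
    have h5 := Real.exp_pos (-a)
    nlinarith
  rcases le_total x y with h | h
  · rw [abs_sub_comm x y, abs_of_nonneg (sub_nonneg.2 h)]
    exact key x y hx h
  · rw [abs_sub_comm, abs_of_nonneg (sub_nonneg.2 h)]
    exact key y x hy h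

/-- the integrand -/
def g (S : ℕ) (l : ℝ) {k : ℕ} (v : Fin k → ℝ) : ℝ := 1 - Real.exp (-(l * RR S v))

theorem g_nonneg (S : ℕ) {l : ℝ} (hl : 0 ≤ l) {k : ℕ} (v : Fin k → ℝ) : 0 ≤ g S l v := by
  unfold g
  have h1 : Real.exp (-(l * RR S v)) ≤ 1 :=
    Real.exp_le_one_iff.2 (by have := mul_nonneg hl (RR_nonneg S v); linarith)
  linarith

theorem g_le_one (S : ℕ) (l : ℝ) {k : ℕ} (v : Fin k → ℝ) : g S l v ≤ 1 := by
  unfold g
  have := Real.exp_pos (-(l * RR S v))
  linarith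

theorem g_measurable (S : ℕ) (l : ℝ) (k : ℕ) : Measurable (fun v : Fin k → ℝ => g S l v) := by
  unfold g
  exact measurable_const.sub ((((RR_measurable S k).const_mul l).neg).exp)

theorem g_mono (S : ℕ) {l l' : ℝ} (h : l ≤ l') {k : ℕ} (v : Fin k → ℝ) : g S l v ≤ g S l' v := by
  unfold g
  have h1 : l * RR S v ≤ l' * RR S v := mul_le_mul_of_nonneg_right h (RR_nonneg S v)
  have h2 : Real.exp (-(l' * RR S v)) ≤ Real.exp (-(l * RR S v)) :=
    Real.exp_le_exp.2 (by linarith)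
  linarith

theorem g_lip (S : ℕ) {l l' : ℝ} (hl : 0 ≤ l) (hl' : 0 ≤ l') {k : ℕ} (v : Fin k → ℝ) :
    |g S l v - g S l' v| ≤ 2 ^ k * |l - l'| := by
  have h1 : g S l v - g S l' v = Real.exp (-(l' * RR S v)) - Real.exp (-(l * RR S v)) := by
    unfold g; ring
  rw [h1]
  refine (exp_lip (mul_nonneg hl' (RR_nonneg S v)) (mul_nonneg hl (RR_nonneg S v))).trans ?_
  rw [← sub_mul, abs_mul, abs_of_nonneg (RR_nonneg S v), abs_sub_comm l' l, mul_comm]
  exact mul_le_mul_of_nonneg_right (RR_le S v) (abs_nonneg _)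

/-- the box -/
def box (S k : ℕ) : Set (Fin k → ℝ) := Set.Icc (0 : Fin k → ℝ) (fun _ => (S : ℝ))

theorem box_lt_top (S k : ℕ) : MeasureTheory.volume (box S k) < ⊤ :=
  isCompact_Icc.measure_lt_top

theorem box_real (S k : ℕ) : MeasureTheory.volume.real (box S k) = (S : ℝ) ^ k := by
  unfold MeasureTheory.Measure.real box
  have h0 : (0 : Fin k → ℝ) ≤ (fun _ => (S : ℝ)) := fun _ => Nat.cast_nonneg S
  rw [Real.volume_Icc_pi_toReal h0]
  simp

theorem g_int (S : ℕ) {l : ℝ} (hl : 0 ≤ l) (k : ℕ) :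
    MeasureTheory.IntegrableOn (fun v : Fin k → ℝ => g S l v) (box S k) := by
  refine MeasureTheory.Measure.integrableOn_of_bounded (M := 1) (box_lt_top S k).ne
    (g_measurable S l k).aestronglyMeasurable ?_
  refine Eventually.of_forall fun v => ?_
  rw [Real.norm_eq_abs, abs_of_nonneg (g_nonneg S hl v)]
  exact g_le_one S l v

/-- the terms -/
def T (S : ℕ) (l : ℝ) (k : ℕ) : ℝ :=
  (Real.log 2) ^ k / (k.factorial : ℝ) * ∫ v in box S k, g S l v

theorem coef_nonneg (k : ℕ) : 0 ≤ (Real.log 2) ^ k / (k.factorial : ℝ) := by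
  have := Real.log_nonneg (one_le_two : (1 : ℝ) ≤ 2)
  positivity

theorem T_nonneg (S : ℕ) {l : ℝ} (hl : 0 ≤ l) (k : ℕ) : 0 ≤ T S l k :=
  mul_nonneg (coef_nonneg k)
    (MeasureTheory.setIntegral_nonneg measurableSet_Icc fun v _ => g_nonneg S hl v)

theorem T_le (S : ℕ) {l : ℝ} (hl : 0 ≤ l) (k : ℕ) :
    T S l k ≤ (S * Real.log 2) ^ k / (k.factorial : ℝ) := by
  have h1 : (∫ v in box S k, g S l v) ≤ (S : ℝ) ^ k := by
    have h2 := MeasureTheory.norm_setIntegral_le_of_norm_le_const (C := 1) (box_lt_top S k)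
      (f := fun v : Fin k → ℝ => g S l v) (fun v _ => by
        rw [Real.norm_eq_abs, abs_of_nonneg (g_nonneg S hl v)]
        exact g_le_one S l v)
    rw [box_real, one_mul] at h2
    exact (le_abs_self _).trans h2
  have h3 := mul_le_mul_of_nonneg_left h1 (coef_nonneg k)
  refine h3.trans (le_of_eq ?_)
  rw [mul_pow]
  ring

theorem hasSum_exp (x : ℝ) : HasSum (fun k : ℕ => x ^ k / (k.factorial : ℝ)) (Real.exp x) := by
  rw [Real.exp_eq_exp_ℝ]
  exact NormedSpace.expSeries_div_hasSum_exp x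

theorem exp_S (S : ℕ) : Real.exp (S * Real.log 2) = 2 ^ S := by
  rw [Real.exp_nat_mul, Real.exp_log two_pos]

theorem T_summable (S : ℕ) {l : ℝ} (hl : 0 ≤ l) : Summable (T S l) :=
  Summable.of_nonneg_of_le (T_nonneg S hl) (T_le S hl) (hasSum_exp _).summable

theorem FF_eq (S : ℕ) (l : ℝ) : FF S l = ∑' k : ℕ, T S l k := rfl

end FFp

open FFp

theorem FF_summable (S : ℕ) {l : ℝ} (hl : 0 ≤ l) : Summable (fun k : ℕ =>
    (Real.log 2) ^ k / (k.factorial : ℝ) *
    ∫ v in Set.Icc (0 : Fin k → ℝ) (fun _ => (S : ℝ)), (1 - Real.exp (-(l * RR S v)))) :=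
  T_summable S hl

theorem FF_nonneg (S : ℕ) {l : ℝ} (hl : 0 ≤ l) : 0 ≤ FF S l := by
  rw [FF_eq]
  exact tsum_nonneg (T_nonneg S hl)

theorem FF_le (S : ℕ) {l : ℝ} (hl : 0 ≤ l) : FF S l ≤ 2 ^ S := by
  rw [FF_eq, ← exp_S, ← (hasSum_exp (S * Real.log 2)).tsum_eq]
  exact (T_summable S hl).tsum_le_tsum (T_le S hl) (hasSum_exp _).summable

theorem FF_mono (S : ℕ) {l l' : ℝ} (hl : 0 ≤ l) (h : l ≤ l') : FF S l ≤ FF S l' := by
  rw [FF_eq, FF_eq]
  refine (T_summable S hl).tsum_le_tsum (fun k => ?_) (T_summable S (hl.trans h))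
  refine mul_le_mul_of_nonneg_left ?_ (coef_nonneg k)
  exact MeasureTheory.setIntegral_mono (g_int S hl k) (g_int S (hl.trans h) k)
    fun v => g_mono S h v

theorem FF_lip (S : ℕ) {l l' : ℝ} (hl : 0 ≤ l) (hl' : 0 ≤ l') :
    |FF S l - FF S l'| ≤ 4 ^ S * |l - l'| := by
  rw [FF_eq, FF_eq, ← (T_summable S hl).tsum_sub (T_summable S hl')]
  have hterm : ∀ k, ‖T S l k - T S l' k‖ ≤
      (S * Real.log 2 * 2) ^ k / (k.factorial : ℝ) * |l - l'| := by
    intro k
    have h1 : T S l k - T S l' k = (Real.log 2) ^ k / (k.factorial : ℝ) *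
        ∫ v in box S k, (g S l v - g S l' v) := by
      rw [MeasureTheory.integral_sub (g_int S hl k) (g_int S hl' k)]
      unfold T
      ring
    have h2 := MeasureTheory.norm_setIntegral_le_of_norm_le_const (C := 2 ^ k * |l - l'|)
      (box_lt_top S k) (f := fun v : Fin k → ℝ => g S l v - g S l' v) (fun v _ => by
        rw [Real.norm_eq_abs]
        exact g_lip S hl hl' v)
    rw [box_real] at h2
    rw [h1, norm_mul, Real.norm_eq_abs ((Real.log 2) ^ k / (k.factorial : ℝ)),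
      abs_of_nonneg (coef_nonneg k)]
    refine (mul_le_mul_of_nonneg_left h2 (coef_nonneg k)).trans (le_of_eq ?_)
    rw [mul_pow, mul_pow]
    ring
  have hs : HasSum (fun k : ℕ => (S * Real.log 2 * 2) ^ k / (k.factorial : ℝ) * |l - l'|)
      (4 ^ S * |l - l'|) := by
    have h1 := (hasSum_exp (S * Real.log 2 * 2)).mul_right |l - l'|
    have h2 : Real.exp (S * Real.log 2 * 2) = 4 ^ S := by
      rw [mul_comm _ (2 : ℝ), two_mul, Real.exp_add, exp_S, ← mul_pow]
      norm_num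
    rwa [h2] at h1
  exact tsum_of_norm_bounded hs hterm

theorem FF_zero (S : ℕ) : FF S 0 = 0 := by
  unfold FF
  simp

end Pool.Agent.EN2
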