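import Mathlib
import Pool.Agent.Lib.MP_ec0ede_nt_EN2.Defs
import Pool.Agent.Lib.MP_ec0ede_nt_EN.LabT
import Pool.Agent.Lib.MP_ec0ede_nt_EN.LawA
import Pool.Agent.Lib.MP_ec0ede_nt_EN.ExB
import Pool.Agent.Lib.MP_ec0ede_nt_EN.Ker
import Pool.Agent.Lib.MP_ec0ede_nt_EN2.MP2

set_option autoImplicit false

/-!
# MP_ec0ede_nt, project EN2, module LabB: the labels of the bottom block are removed
-/

noncomputable section

namespace Pool.Agent.EN2

open Real Filter Topology Finset Pool.Agent.EN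

namespace LabB

/-- the windows of the divisors of `f` times the product of the primes `≤ b` -/
lemma TWs_eq {ι : Type} [Fintype ι] [DecidableEq ι] (b f : ℕ) (hf : 1 ≤ f) (τ : ι → ℕ)
    (hp : ∀ i, (τ i).Prime) (hi : Inj f τ) :
    TWs b f τ = {t : ℝ | ∃ d ∈ (f * ∏ p ∈ (univ.image τ).filter (· ≤ b), p).divisors,
      Real.log d ≤ t ∧ t < Real.log d + Real.log 2} := by
  classical
  obtain ⟨hinj, hdvd⟩ := hi
  set P1 : ℕ := ∏ p ∈ (univ.image τ).filter (· ≤ b), p with hP1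
  have hpr : ∀ p ∈ (univ.image τ).filter (· ≤ b), p.Prime := by
    intro p hp'
    rw [Finset.mem_filter, Finset.mem_image] at hp'
    obtain ⟨⟨i, _, rfl⟩, _⟩ := hp'
    exact hp i
  have hP1pos : P1 ≠ 0 := Finset.prod_ne_zero_iff.2 fun p hp' => (hpr p hp').ne_zero
  have hsq : Squarefree P1 := by
    refine Finset.squarefree_prod_of_pairwise_isCoprime (fun p h1 q h2 hpq => ?_)
      fun p h1 => (hpr p h1).squarefree
    show IsRelPrime p q
    rw [← Nat.coprime_iff_isRelPrime]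
    exact (Nat.coprime_primes (hpr p h1) (hpr q h2)).2 hpq
  ext t
  constructor
  · rintro ⟨d, hd, I, hI, h1, h2⟩
    have hd0 : d ≠ 0 := (Nat.pos_of_mem_divisors hd).ne'
    have he0 : ∏ i ∈ I, τ i ≠ 0 := Finset.prod_ne_zero_iff.2 fun i _ => (hp i).ne_zero
    have hlog : Real.log ((d * ∏ i ∈ I, τ i : ℕ) : ℝ) = Real.log d + sz τ I := by
      unfold sz
      push_cast
      rw [Real.log_mul (by exact_mod_cast hd0) (by exact_mod_cast he0), Real.log_prod]
      intro i _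
      exact_mod_cast (hp i).ne_zero
    refine ⟨d * ∏ i ∈ I, τ i, ?_, ?_, ?_⟩
    · rw [Nat.mem_divisors]
      refine ⟨mul_dvd_mul (Nat.dvd_of_mem_divisors hd) ?_, mul_ne_zero (by omega) hP1pos⟩
      rw [← Finset.prod_image (g := τ) (f := fun p => p) (fun i _ j _ hij => hinj hij)]
      refine Finset.prod_dvd_prod_of_subset _ _ _ ?_
      intro p hp'
      rw [Finset.mem_image] at hp'
      obtain ⟨i, hi', rfl⟩ := hp'
      exact Finset.mem_filter.2 ⟨Finset.mem_image_of_mem _ (Finset.mem_univ i), hI i hi'⟩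
    · rw [hlog]; exact h1
    · rw [hlog]; exact h2
  · rintro ⟨D, hD, h1, h2⟩
    rw [Nat.mem_divisors] at hD
    obtain ⟨hD, hD0⟩ := hD
    obtain ⟨d, e, hd, he, rfl⟩ := (Nat.dvd_mul).1 hD
    have hd0 : d ≠ 0 := fun h => by rw [h, zero_dvd_iff] at hd; omega
    have he0 : e ≠ 0 := fun h => by rw [h, zero_dvd_iff] at he; exact hP1pos he
    have hesq : Squarefree e := hsq.squarefree_of_dvd he
    have hsub : e.primeFactors ⊆ (univ.image τ).filter (· ≤ b) := by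
      intro q hq
      have hq1 := Nat.prime_of_mem_primeFactors hq
      have hq2 : q ∣ P1 := (Nat.dvd_of_mem_primeFactors hq).trans he
      obtain ⟨p, hp1, hp2⟩ := (hq1.prime.dvd_finsetProd_iff _).1 hq2
      have := (Nat.prime_dvd_prime_iff_eq hq1 (hpr p hp1)).1 hp2
      rw [this]
      exact hp1
    have hlog : Real.log e = sz τ (univ.filter fun i => τ i ∈ e.primeFactors) := by
      unfold sz
      have h3 : (univ.filter fun i => τ i ∈ e.primeFactors).image τ = e.primeFactors := by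
        ext q
        rw [Finset.mem_image]
        constructor
        · rintro ⟨i, hi', rfl⟩
          exact (Finset.mem_filter.1 hi').2
        · intro hq
          have h4 := hsub hq
          rw [Finset.mem_filter, Finset.mem_image] at h4
          obtain ⟨⟨i, _, rfl⟩, _⟩ := h4
          exact ⟨i, Finset.mem_filter.2 ⟨Finset.mem_univ i, hq⟩, rfl⟩
      have h5 : ∑ i ∈ univ.filter (fun i => τ i ∈ e.primeFactors), Real.log (τ i) =
          ∑ q ∈ e.primeFactors, Real.log (q : ℝ) := by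
        rw [← h3, Finset.sum_image (fun i _ j _ hij => hinj hij)]
        rw [h3]
      rw [h5, ← Real.log_prod]
      · congr 1
        rw [← Nat.cast_prod, Nat.prod_primeFactors_of_squarefree hesq]
      · intro q hq
        exact_mod_cast (Nat.prime_of_mem_primeFactors hq).ne_zero
    have hlog2 : Real.log ((d * e : ℕ) : ℝ) = Real.log d +
        sz τ (univ.filter fun i => τ i ∈ e.primeFactors) := by
      push_cast
      rw [Real.log_mul (by exact_mod_cast hd0) (by exact_mod_cast he0), hlog]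
    rw [hlog2] at h1 h2
    refine ⟨d, Nat.mem_divisors.2 ⟨hd, by omega⟩, _, ?_, h1, h2⟩
    intro i hi'
    exact (Finset.mem_filter.1 (hsub (Finset.mem_filter.1 hi').2)).2

lemma cnt_card {K : ℕ} (ν : Fin K → ℕ) : cnt ν K = Fintype.card (Idx ν) := by
  unfold cnt
  rw [Fintype.card_sigma]
  refine Finset.sum_congr rfl fun i _ => ?_
  rw [if_pos i.2, Fintype.card_fin]

lemma vb_eq {K : ℕ} (ν : Fin K → ℕ) (b f : ℕ) (hf : 1 ≤ f) (τ : Idx ν → ℕ)
    (hp : ∀ i, (τ i).Prime) (hi : Inj f τ) (x : ℝ) :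
    (2 : ℝ) ^ x * (vb b f τ / 2 ^ cnt ν K) =
      (2 : ℝ) ^ (x - ((univ.image τ).filter (· ≤ b)).card) *
        LL (f * ∏ p ∈ (univ.image τ).filter (· ≤ b), p) := by
  classical
  have h1 : ((univ.image τ).filter (· ≤ b)).card + ex b τ = cnt ν K := by
    rw [cnt_card]
    unfold ex
    have h2 : ((univ.image τ).filter (· ≤ b)).card = (univ.filter fun i => τ i ≤ b).card := by
      rw [← Finset.card_image_of_injective (univ.filter fun i => τ i ≤ b) hi.1]
      congr 1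
      ext q
      simp only [Finset.mem_filter, Finset.mem_image, Finset.mem_univ, true_and]
      constructor
      · rintro ⟨⟨i, rfl⟩, h⟩
        exact ⟨i, h, rfl⟩
      · rintro ⟨i, h, rfl⟩
        exact ⟨⟨i, rfl⟩, h⟩
    rw [h2]
    have h3 : (univ.filter fun i => b < τ i) = (univ.filter fun i => ¬ τ i ≤ b) :=
      Finset.filter_congr fun i _ => not_le.symm
    rw [h3, Finset.card_filter_add_card_filter_not, Finset.card_univ]
  unfold vb LL
  rw [TWs_eq b f hf τ hp hi, Real.rpow_sub (by norm_num), Real.rpow_natCast, ← h1, pow_add]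
  have h5 : (2 : ℝ) ^ ((univ.image τ).filter (· ≤ b)).card ≠ 0 := by positivity
  have h6 : (2 : ℝ) ^ ex b τ ≠ 0 := by positivity
  field_simp

lemma LL_nonneg (a : ℕ) : 0 ≤ LL a := ENNReal.toReal_nonneg

lemma Rv_nonneg (S : ℕ) (θ : ℝ) {ι : Type} [Fintype ι] (v : ι → ℝ) : 0 ≤ Rv S θ v :=
  Finset.sum_nonneg fun _ _ => ind_nonneg _

lemma EB_nonneg (S : ℕ) (θ : ℝ) {s : ℕ} (ν : Fin s → ℕ) {r : ℝ} (hr : 0 ≤ r) :
    0 ≤ EB S θ ν r := by
  unfold EB
  refine MeasureTheory.integral_nonneg fun t => ?_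
  refine mul_nonneg (Finset.prod_nonneg fun i _ => tent_nonneg _) ?_
  have h1 : Real.exp (-(r * Rv S θ (fun i : Idx ν => (i.1 : ℝ) + 1 + t i))) ≤ 1 :=
    Real.exp_le_one_iff.2 (by
      have := mul_nonneg hr (Rv_nonneg S θ (fun i : Idx ν => (i.1 : ℝ) + 1 + t i))
      linarith)
  linarith

lemma zz_pos : 0 < zz := by
  unfold zz
  have := Real.log_pos (show (1 : ℝ) < 2 by norm_num)
  positivity

lemma pw_nonneg (k : ℕ) : 0 ≤ pw k := by
  unfold pw
  positivity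

lemma wt_nonneg {L : ℕ} (ν : Fin L → ℕ) : 0 ≤ wt ν := Finset.prod_nonneg fun _ _ => pw_nonneg _

lemma wz_nonneg (K p : ℕ) : 0 ≤ wz K p := Finset.sum_nonneg fun _ _ => mu_nonneg _ _

lemma wz_eq (K p : ℕ) : wz K p = ∑ l : Fin K, mu ((l : ℕ) + 1) p := by
  unfold wz
  rw [Fin.sum_univ_eq_sum_range (fun l => mu (l + 1) p) K]
  rw [Finset.range_eq_Ico, Finset.sum_Ico_add' (fun l => mu l p) 0 K 1]
  rfl

lemma wt_eq {K : ℕ} (ν : Fin K → ℕ) :
    wt ν = Real.exp (-(K : ℝ)) * ∏ l, 1 / ((ν l).factorial : ℝ) := by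
  unfold wt pw
  have h1 : ∀ l : Fin K, Real.exp (-1) / ((ν l).factorial : ℝ) =
      Real.exp (-1) * (1 / ((ν l).factorial : ℝ)) := fun l => by ring
  simp only [h1]
  rw [Finset.prod_mul_distrib, Finset.prod_const, Finset.card_univ, Fintype.card_fin,
    ← Real.exp_nat_mul]
  congr 2
  ring

/-- the weight of the set `B` -/
def wB (K f : ℕ) (φ1 : ℕ → ℝ) (B : Finset ℕ) : ℝ := ind (∀ p ∈ B, ¬ p ∣ f) *
  (if 1 ≤ (K : ℤ) - B.card then φ1 (K - B.card) * hg (K - B.card) else 0)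

/-- the weight of the height `w` -/
def cW (φ2 : ℕ → ℝ) (w : ℕ) : ℝ := if 1 ≤ w then φ2 w * w * zz ^ w else 0

/-- the weight of the top block -/
def dB (s S b f : ℕ) (θ : ℝ) (B : Finset ℕ) (w : ℕ) (ν : Fin s → ℕ) : ℝ :=
  wt ν * zz ^ (X ν s) *
          EB S θ ν ((2 : ℝ) ^ (-θ - w - (B.filter (· ≤ b)).card) *
            LL (f * ∏ p ∈ B.filter (· ≤ b), p))

lemma wB_nonneg (K f : ℕ) (φ1 : ℕ → ℝ) (h1 : ∀ x, 0 ≤ φ1 x ∧ φ1 x ≤ 1) (B : Finset ℕ) :
    0 ≤ wB K f φ1 B := by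
  unfold wB
  refine mul_nonneg (ind_nonneg _) ?_
  split_ifs
  · exact mul_nonneg (h1 _).1 (hg_nonneg _)
  · exact le_rfl

lemma cW_nonneg (φ2 : ℕ → ℝ) (h2 : ∀ w, 0 ≤ φ2 w ∧ φ2 w ≤ 1) (w : ℕ) : 0 ≤ cW φ2 w := by
  unfold cW
  have := zz_pos
  split_ifs
  · exact mul_nonneg (mul_nonneg (h2 w).1 (Nat.cast_nonneg w)) (by positivity)
  · exact le_rfl

lemma dB_nonneg (s S b f : ℕ) (θ : ℝ) (B : Finset ℕ) (w : ℕ) (ν : Fin s → ℕ) :
    0 ≤ dB s S b f θ B w ν := by
  unfold dB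
  have := zz_pos
  refine mul_nonneg (mul_nonneg (wt_nonneg ν) (by positivity)) (EB_nonneg _ _ _ ?_)
  exact mul_nonneg (by positivity) (LL_nonneg _)

/-- the terms as sums over tuples -/
lemma ul_eq (K s S b : ℕ) (θ : ℝ) (φ1 φ2 : ℕ → ℝ) (f : ℕ) (hf : 1 ≤ f)
    (νC : Fin K → ℕ) (w : ℕ) (νA : Fin s → ℕ) :
    ul K s S b θ (fun x w => φ1 x * φ2 w) f (νC, (w, νA)) =
    Real.exp (-(K : ℝ)) * ((∏ l, 1 / ((νC l).factorial : ℝ)) *
      ∑ τ ∈ Fintype.piFinset (fun _ : Idx νC => range (bd K)),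
        (∏ i, mu ((i.1 : ℕ) + 1) (τ i)) * (ind (Function.Injective τ) *
          (wB K f φ1 (univ.image τ) * cW φ2 w * dB s S b f θ (univ.image τ) w νA))) := by
  classical
  unfold ul EX Ex
  simp only
  rw [wt_eq νC, Finset.mul_sum, Finset.mul_sum, Finset.mul_sum]
  refine Finset.sum_congr rfl fun τ _ => ?_
  have hlv : ∀ i : Idx νC, lv 0 νC i = (i.1 : ℕ) + 1 := fun i => by unfold lv; omega
  simp only [hlv]
  by_cases hne : ∀ i : Idx νC, mu ((i.1 : ℕ) + 1) (τ i) ≠ 0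
  swap
  · push Not at hne
    obtain ⟨i, hi⟩ := hne
    rw [Finset.prod_eq_zero (Finset.mem_univ i) hi]
    ring
  have hp : ∀ i, (τ i).Prime := fun i => (mu_supp (hne i)).1
  by_cases hinj : Function.Injective τ
  swap
  · rw [ind_not_of hinj, ind_not_of (show ¬ Inj f τ from fun h => hinj h.1)]
    ring
  by_cases hd : ∀ i, ¬ τ i ∣ f
  swap
  · have h3 : wB K f φ1 (univ.image τ) = 0 := by
      unfold wB
      rw [ind_not_of, zero_mul]
      intro h
      exact hd fun i => h _ (Finset.mem_image_of_mem _ (Finset.mem_univ i))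
    rw [h3, ind_not_of (show ¬ Inj f τ from fun h => hd h.2)]
    ring
  have hI : Inj f τ := ⟨hinj, hd⟩
  have hcard : (univ.image τ).card = cnt νC K := by
    rw [cnt_card, Finset.card_image_of_injective _ hinj, Finset.card_univ]
  rw [ind_of hinj, ind_of hI, one_mul, one_mul, vb_eq νC b f hf τ hp hI]
  unfold wB dB cW
  rw [ind_of (show ∀ p ∈ univ.image τ, ¬ p ∣ f by
    intro p hp'
    rw [Finset.mem_image] at hp'
    obtain ⟨i, _, rfl⟩ := hp'
    exact hd i), hcard]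
  have hX : X νC K = (K : ℤ) - cnt νC K := rfl
  rw [hX, ind_and]
  have hz := zz_pos
  by_cases hx1 : 1 ≤ (K : ℤ) - cnt νC K
  · rw [if_pos hx1, ind_of hx1]
    by_cases hw : 1 ≤ w
    · rw [if_pos hw, ind_of hw]
      have h4 : ((K : ℤ) - cnt νC K).toNat = K - cnt νC K := by omega
      rw [h4, zpow_add₀ hz.ne', zpow_natCast]
      ring
    · rw [if_neg hw, ind_not_of hw]
      ring
  · rw [if_neg hx1, ind_not_of hx1]
    ring

end LabB

open LabB in
theorem lab_bot (K s S b : ℕ) (θ : ℝ) (φ1 φ2 : ℕ → ℝ) (h1 : ∀ x, 0 ≤ φ1 x ∧ φ1 x ≤ 1)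
    (h2 : ∀ w, 0 ≤ φ2 w ∧ φ2 w ≤ 1) (f : ℕ) (hf : 1 ≤ f) :
    ENNReal.ofReal (UL K s S b θ (fun x w => φ1 x * φ2 w) f) =
    ENNReal.ofReal (Real.exp (-(K : ℝ))) *
      ∑ B ∈ (range (bd K)).powerset, ENNReal.ofReal ((∏ p ∈ B, wz K p) *
        ind (∀ p ∈ B, ¬ p ∣ f) *
        (if 1 ≤ (K : ℤ) - B.card then φ1 (K - B.card) * hg (K - B.card) else 0)) *
      ∑' w : ℕ, ENNReal.ofReal (if 1 ≤ w then φ2 w * w * zz ^ w else 0) *
        ∑' ν : Fin s → ℕ, ENNReal.ofReal (wt ν * zz ^ (X ν s) *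
          EB S θ ν ((2 : ℝ) ^ (-θ - w - (B.filter (· ≤ b)).card) *
            LL (f * ∏ p ∈ B.filter (· ≤ b), p))) := by
  classical
  have hφ : ∀ x w, 0 ≤ φ1 x * φ2 w ∧ φ1 x * φ2 w ≤ 1 := fun x w =>
    ⟨mul_nonneg (h1 x).1 (h2 w).1, mul_le_one₀ (h1 x).2 (h2 w).1 (h2 w).2⟩
  have hn := ul_nonneg K s S b θ (fun x w => φ1 x * φ2 w) hφ f
  have hs := ul_summable K s S b θ (fun x w => φ1 x * φ2 w) hφ f
  unfold UL
  rw [ENNReal.ofReal_tsum_of_nonneg hn hs, ENNReal.tsum_prod', ENNReal.tsum_comm]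
  have hkey : ∀ j : ℕ × (Fin s → ℕ), ∑' νC : Fin K → ℕ,
      ENNReal.ofReal (ul K s S b θ (fun x w => φ1 x * φ2 w) f (νC, j)) =
      ENNReal.ofReal (Real.exp (-(K : ℝ))) * ∑ B ∈ (range (bd K)).powerset,
        ENNReal.ofReal ((∏ p ∈ B, wz K p) * wB K f φ1 B) *
          (ENNReal.ofReal (cW φ2 j.1) * ENNReal.ofReal (dB s S b f θ B j.1 j.2)) := by
    rintro ⟨w, νA⟩
    have hs1 : Summable fun νC : Fin K → ℕ =>
        ul K s S b θ (fun x w => φ1 x * φ2 w) f (νC, (w, νA)) :=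
      hs.comp_injective (i := fun νC : Fin K → ℕ => ((νC, (w, νA)) : Ic K s))
        (fun a c h => (Prod.mk.inj h).1)
    rw [← ENNReal.ofReal_tsum_of_nonneg (fun _ => hn _) hs1]
    simp only [ul_eq K s S b θ φ1 φ2 f hf]
    rw [tsum_mul_left, ← lab_tuples K (range (bd K)) (fun l p => mu ((l : ℕ) + 1) p)
      (fun B => wB K f φ1 B * cW φ2 w * dB s S b f θ B w νA)]
    rw [ENNReal.ofReal_mul (Real.exp_pos _).le, ENNReal.ofReal_sum_of_nonneg]
    · congr 1
      refine Finset.sum_congr rfl fun B _ => ?_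
      simp only [← wz_eq]
      rw [← ENNReal.ofReal_mul (cW_nonneg φ2 h2 w), ← ENNReal.ofReal_mul]
      · congr 1
        ring
      · exact mul_nonneg (Finset.prod_nonneg fun p _ => wz_nonneg K p) (wB_nonneg K f φ1 h1 B)
    · intro B _
      simp only [← wz_eq]
      exact mul_nonneg (Finset.prod_nonneg fun p _ => wz_nonneg K p)
        (mul_nonneg (mul_nonneg (wB_nonneg K f φ1 h1 B) (cW_nonneg φ2 h2 w))
          (dB_nonneg s S b f θ B w νA))
  rw [tsum_congr hkey, ENNReal.tsum_mul_left]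
  congr 1
  rw [Summable.tsum_finsetSum (fun _ _ => ENNReal.summable)]
  refine Finset.sum_congr rfl fun B _ => ?_
  rw [ENNReal.tsum_mul_left, ENNReal.tsum_prod']
  have e1 : (∏ p ∈ B, wz K p) * ind (∀ p ∈ B, ¬ p ∣ f) *
        (if 1 ≤ (K : ℤ) - B.card then φ1 (K - B.card) * hg (K - B.card) else 0) =
      (∏ p ∈ B, wz K p) * wB K f φ1 B := by
    unfold wB
    ring
  rw [e1]
  congr 1
  refine tsum_congr fun w => ?_
  simp only
  rw [ENNReal.tsum_mul_left]
  rfl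

end Pool.Agent.EN2
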