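import Mathlib
import Pool.Agent.Lib.MP_ec0ede_nt_EN2.Defs

set_option autoImplicit false

/-!
# MP_ec0ede_nt, project EN2, module LabC: removal of the labels
-/

noncomputable section

namespace Pool.Agent.EN2

open Real Filter Topology Finset Pool.Agent.EN

namespace LabC

variable {s : ℕ}

/-- the number of elements of each label -/
def cts {k : ℕ} (g : Fin k → Fin s) (l : Fin s) : ℕ := Fintype.card {p // g p = l}

/-- an enumeration compatible with the labels -/
theorem exists_enum {k : ℕ} (ν : Fin s → ℕ) (g : Fin k → Fin s) (h : cts g = ν) :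
    ∃ τ : Idx ν ≃ Fin k, ∀ i, g (τ i) = i.1 := by
  let e : ∀ l : Fin s, Fin (ν l) ≃ {p // g p = l} := fun l =>
    (Fintype.equivFinOfCardEq (congrFun h l)).symm
  refine ⟨(Equiv.sigmaCongrRight e).trans (Equiv.sigmaFiberEquiv g), ?_⟩
  rintro ⟨l, a⟩
  exact (e l a).2

/-- the number of ways to enumerate a labelled set -/
theorem card_enum {k : ℕ} (ν : Fin s → ℕ) (g : Fin k → Fin s) :
    Fintype.card {τ : Idx ν ≃ Fin k // ∀ i, g (τ i) = i.1} =
      if cts g = ν then ∏ l, (ν l).factorial else 0 := by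
  classical
  split_ifs with h
  · obtain ⟨τ₀, hτ₀⟩ := exists_enum ν g h
    let E : {τ : Idx ν ≃ Fin k // ∀ i, g (τ i) = i.1} ≃
        {σ : Equiv.Perm (Idx ν) // (Sigma.fst : Idx ν → Fin s) ∘ σ = Sigma.fst} :=
      { toFun := fun τ => ⟨τ.1.trans τ₀.symm, by
          funext i
          have h1 := hτ₀ (τ₀.symm (τ.1 i))
          rw [Equiv.apply_symm_apply, τ.2 i] at h1
          exact h1.symm⟩
        invFun := fun σ => ⟨σ.1.trans τ₀, by
          intro i
          have h1 := hτ₀ (σ.1 i)
          have h2 : (σ.1 i).1 = i.1 := congrFun σ.2 i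
          rw [h2] at h1
          exact h1⟩
        left_inv := fun τ => by
          apply Subtype.ext
          refine Equiv.ext fun i => ?_
          exact Equiv.apply_symm_apply τ₀ (τ.1 i)
        right_inv := fun σ => by
          apply Subtype.ext
          refine Equiv.ext fun i => ?_
          exact Equiv.symm_apply_apply τ₀ (σ.1 i) }
    rw [Fintype.card_congr E, DomMulAct.stabilizer_card]
    refine Finset.prod_congr rfl fun l _ => ?_
    congr 1
    rw [Fintype.card_congr (Equiv.sigmaSubtype (β := fun l => Fin (ν l)) l), Fintype.card_fin]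
  · rw [Fintype.card_eq_zero_iff]
    refine ⟨fun τ => h ?_⟩
    funext l
    have e : {i : Idx ν // i.1 = l} ≃ {p : Fin k // g p = l} :=
      τ.1.subtypeEquiv fun i => by rw [τ.2 i]
    unfold cts
    rw [← Fintype.card_congr e,
      Fintype.card_congr (Equiv.sigmaSubtype (β := fun l => Fin (ν l)) l), Fintype.card_fin]

/-- the sum of the counts -/
theorem sum_cts {k : ℕ} (g : Fin k → Fin s) : ∑ l, cts g l = k := by
  unfold cts
  rw [← Fintype.card_sigma, Fintype.card_congr (Equiv.sigmaFiberEquiv g), Fintype.card_fin]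

/-- the number of label assignments with given counts -/
theorem card_assign (ν : Fin s → ℕ) :
    (∏ l, (ν l).factorial) * (univ.filter fun g : Fin (∑ l, ν l) → Fin s => cts g = ν).card =
      (∑ l, ν l).factorial := by
  classical
  set k := ∑ l, ν l with hk
  have hc : Fintype.card (Idx ν) = Fintype.card (Fin k) := by
    rw [Fintype.card_sigma, Fintype.card_fin]
    simp only [Fintype.card_fin]
    exact hk.symm
  have h1 : Fintype.card (Idx ν ≃ Fin k) = k.factorial := by
    rw [Fintype.card_equiv (Fintype.equivOfCardEq hc), hc, Fintype.card_fin]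
  rw [← h1]
  have h2 : Fintype.card (Idx ν ≃ Fin k) =
      ∑ g : Fin k → Fin s, Fintype.card {τ : Idx ν ≃ Fin k // ∀ i, g (τ i) = i.1} := by
    rw [← Fintype.card_sigma]
    refine Fintype.card_congr ?_
    exact
      { toFun := fun τ => ⟨fun p => (τ.symm p).1, ⟨τ, fun i => by
          change (τ.symm (τ i)).fst = i.fst
          rw [Equiv.symm_apply_apply]⟩⟩
        invFun := fun x => x.2.1
        left_inv := fun τ => rfl
        right_inv := fun x => by
          obtain ⟨g, τ, hτ⟩ := x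
          have : (fun p => (τ.symm p).1) = g := by
            funext p
            have := hτ (τ.symm p)
            rw [Equiv.apply_symm_apply] at this
            exact this.symm
          subst this
          rfl }
  rw [h2]
  simp only [card_enum]
  rw [← Finset.sum_filter, Finset.sum_const, smul_eq_mul, mul_comm]

end LabC

open LabC in
theorem lab_cont {s : ℕ} (ρ : Fin s → ℝ → ℝ) (h0 : ∀ l v, 0 ≤ ρ l v)
    (hi : ∀ l, MeasureTheory.Integrable (ρ l))
    (G : ∀ (ι : Type) [Fintype ι], (ι → ℝ) → ℝ)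
    (hinv : ∀ (ι κ : Type) [Fintype ι] [Fintype κ] (e : ι ≃ κ) (v : κ → ℝ),
      G ι (fun i => v (e i)) = G κ v)
    (hmeas : ∀ k : ℕ, Measurable (G (Fin k)))
    (hG : ∀ (ι : Type) [Fintype ι] (v : ι → ℝ), 0 ≤ G ι v ∧ G ι v ≤ 1) :
    (∑' ν : Fin s → ℕ, ENNReal.ofReal ((∏ l, 1 / ((ν l).factorial : ℝ)) *
      ∫ v : Idx ν → ℝ, (∏ i, ρ i.1 (v i)) * G (Idx ν) v)) =
    ∑' k : ℕ, ENNReal.ofReal (1 / (k.factorial : ℝ) *
      ∫ v : Fin k → ℝ, (∏ i, ∑ l, ρ l (v i)) * G (Fin k) v) := by
  classical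
  -- the integral for a label assignment
  let J : ∀ {k : ℕ}, (Fin k → Fin s) → ℝ := fun {k} g =>
    ∫ v : Fin k → ℝ, (∏ i, ρ (g i) (v i)) * G (Fin k) v
  have hJ0 : ∀ {k : ℕ} (g : Fin k → Fin s), 0 ≤ J g := fun {k} g =>
    MeasureTheory.integral_nonneg fun v =>
      mul_nonneg (Finset.prod_nonneg fun i _ => h0 _ _) (hG _ v).1
  have hJi : ∀ {k : ℕ} (g : Fin k → Fin s),
      MeasureTheory.Integrable (fun v : Fin k → ℝ => (∏ i, ρ (g i) (v i)) * G (Fin k) v) := by
    intro k g
    have h1 : MeasureTheory.Integrable (fun v : Fin k → ℝ => ∏ i, ρ (g i) (v i)) :=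
      MeasureTheory.Integrable.fintype_prod (f := fun i => ρ (g i)) (fun i => hi (g i))
    refine h1.mul_bdd (c := 1) (hmeas k).aestronglyMeasurable ?_
    refine Filter.Eventually.of_forall fun v => ?_
    rw [Real.norm_eq_abs, abs_le]
    exact ⟨by linarith [(hG (Fin k) v).1], (hG (Fin k) v).2⟩
  have hJν : ∀ {k : ℕ} (ν : Fin s → ℕ) (g : Fin k → Fin s), cts g = ν →
      J g = ∫ v : Idx ν → ℝ, (∏ i, ρ i.1 (v i)) * G (Idx ν) v := by
    intro k ν g h
    obtain ⟨e, he⟩ := exists_enum ν g h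
    have hmp := MeasureTheory.volume_measurePreserving_piCongrLeft (fun _ : Fin k => ℝ) e
    change ∫ v : Fin k → ℝ, (∏ i, ρ (g i) (v i)) * G (Fin k) v = _
    rw [← hmp.integral_comp' (fun v : Fin k → ℝ => (∏ i, ρ (g i) (v i)) * G (Fin k) v)]
    refine MeasureTheory.integral_congr_ae (Filter.Eventually.of_forall fun w => ?_)
    have hw : ∀ i, (MeasurableEquiv.piCongrLeft (fun _ : Fin k => ℝ) e w) (e i) = w i := fun i =>
      Equiv.piCongrLeft_apply_apply (fun _ : Fin k => ℝ) e w i
    dsimp only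
    congr 1
    · rw [← Equiv.prod_comp e]
      refine Finset.prod_congr rfl fun i _ => ?_
      rw [hw, he]
    · rw [← hinv (Idx ν) (Fin k) e]
      simp only [hw]
  -- the common refinement
  let a : (Fin s → ℕ) → ℕ → ENNReal := fun ν k =>
    ∑ g : Fin k → Fin s, if cts g = ν then ENNReal.ofReal (1 / (k.factorial : ℝ) * J g) else 0
  have hL : ∀ ν : Fin s → ℕ, ENNReal.ofReal ((∏ l, 1 / ((ν l).factorial : ℝ)) *
      ∫ v : Idx ν → ℝ, (∏ i, ρ i.1 (v i)) * G (Idx ν) v) = ∑' k, a ν k := by
    intro ν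
    rw [tsum_eq_single (∑ l, ν l)]
    · have h1 : a ν (∑ l, ν l) = ∑ g ∈ univ.filter (fun g : Fin (∑ l, ν l) → Fin s => cts g = ν),
          ENNReal.ofReal (1 / ((∑ l, ν l).factorial : ℝ) *
            ∫ v : Idx ν → ℝ, (∏ i, ρ i.1 (v i)) * G (Idx ν) v) := by
        change ∑ g : Fin (∑ l, ν l) → Fin s, (if cts g = ν then
          ENNReal.ofReal (1 / ((∑ l, ν l).factorial : ℝ) * J g) else 0) = _
        rw [← Finset.sum_filter]
        refine Finset.sum_congr rfl fun g hg => ?_
        rw [hJν ν g (Finset.mem_filter.1 hg).2]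
      rw [h1, Finset.sum_const, nsmul_eq_mul, ← ENNReal.ofReal_natCast,
        ← ENNReal.ofReal_mul (Nat.cast_nonneg _)]
      congr 1
      rw [← mul_assoc]
      congr 1
      have h2 := card_assign ν
      have h3 : ((∑ l, ν l).factorial : ℝ) = (∏ l, ((ν l).factorial : ℝ)) *
          ((univ.filter fun g : Fin (∑ l, ν l) → Fin s => cts g = ν).card : ℝ) := by
        rw [← h2]
        push_cast
        rfl
      have h4 : ((∑ l, ν l).factorial : ℝ) ≠ 0 := Nat.cast_ne_zero.2 (Nat.factorial_ne_zero _)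
      have h5 : (∏ l, ((ν l).factorial : ℝ)) ≠ 0 :=
        Finset.prod_ne_zero_iff.2 fun l _ => Nat.cast_ne_zero.2 (Nat.factorial_ne_zero _)
      rw [Finset.prod_div_distrib, Finset.prod_const_one]
      have h6 : ((univ.filter fun g : Fin (∑ l, ν l) → Fin s => cts g = ν).card : ℝ) ≠ 0 :=
        fun h => h4 (by rw [h3, h, mul_zero])
      rw [h3]
      field_simp
    · intro k hk
      refine Finset.sum_eq_zero fun g _ => if_neg fun h => hk ?_
      rw [← sum_cts g, h]
  have hR : ∀ k : ℕ, ENNReal.ofReal (1 / (k.factorial : ℝ) *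
      ∫ v : Fin k → ℝ, (∏ i, ∑ l, ρ l (v i)) * G (Fin k) v) = ∑' ν, a ν k := by
    intro k
    have h1 : ∑' ν, a ν k = ∑ g : Fin k → Fin s, ENNReal.ofReal (1 / (k.factorial : ℝ) * J g) := by
      change ∑' ν : Fin s → ℕ, ∑ g : Fin k → Fin s, (if cts g = ν then
          ENNReal.ofReal (1 / (k.factorial : ℝ) * J g) else 0) = _
      rw [Summable.tsum_finsetSum (fun _ _ => ENNReal.summable)]
      refine Finset.sum_congr rfl fun g _ => ?_
      rw [tsum_eq_single (cts g)]
      · rw [if_pos rfl]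
      · intro ν hν
        rw [if_neg (fun h => hν h.symm)]
    rw [h1, ← ENNReal.ofReal_sum_of_nonneg (fun g _ => mul_nonneg (by positivity) (hJ0 g))]
    congr 1
    rw [← Finset.mul_sum]
    congr 1
    change _ = ∑ g : Fin k → Fin s, ∫ v : Fin k → ℝ, (∏ i, ρ (g i) (v i)) * G (Fin k) v
    rw [← MeasureTheory.integral_finsetSum _ (fun g _ => hJi g)]
    refine MeasureTheory.integral_congr_ae (Filter.Eventually.of_forall fun v => ?_)
    dsimp only
    rw [Finset.prod_univ_sum, Fintype.piFinset_univ, Finset.sum_mul]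
  simp only [hL, hR]
  exact ENNReal.tsum_comm

end Pool.Agent.EN2
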