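import Mathlib
import Pool.Agent.Lib.MP_ec0ede_nt_EN2.Defs
import Pool.Agent.Lib.MP_ec0ede_nt_EN.ALim
import Pool.Agent.Lib.MP_ec0ede_nt_EN.LawA
import Pool.Agent.Lib.MP_ec0ede_nt_EN2.Rng
import Pool.Agent.Lib.MP_ec0ede_nt_EN2.LabC
import Pool.Agent.Lib.MP_ec0ede_nt_EN2.FFp

set_option autoImplicit false

/-!
# MP_ec0ede_nt, project EN2: the top block without labels

The labels of the top block are removed by `lab_cont`; the points are sorted into three classes
(positions at most one, middle positions, positions above `2 ^ S`), again by `lab_cont`.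
-/

noncomputable section

namespace Pool.Agent.EN2

open Real Filter Topology Finset Pool.Agent.EN

namespace TopR

/-! ### The functional `Rv` -/

open Classical in
/-- the position if it is larger than one -/
def yp (θ v : ℝ) : ℝ := if 1 < xp θ v then xp θ v else 0

lemma Rv_eq (S : ℕ) (θ : ℝ) {ι : Type} [Fintype ι] (v : ι → ℝ) :
    Rv S θ v = ∑ I : Finset ι, ind (0 ≤ 2 ^ S - ∑ i ∈ I, yp θ (v i) ∧
      2 ^ S - ∑ i ∈ I, yp θ (v i) < 1) := by
  unfold Rv yp
  simp_rw [Finset.sum_filter]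

lemma Rv_inv (S : ℕ) (θ : ℝ) {ι κ : Type} [Fintype ι] [Fintype κ] (e : ι ≃ κ) (v : κ → ℝ) :
    Rv S θ (fun i => v (e i)) = Rv S θ v := by
  rw [Rv_eq, Rv_eq]
  rw [← Equiv.sum_comp e.finsetCongr]
  refine Finset.sum_congr rfl fun I _ => ?_
  have h : ∑ i ∈ e.finsetCongr I, yp θ (v i) = ∑ i ∈ I, yp θ (v (e i)) := by
    rw [Equiv.finsetCongr_apply, Finset.sum_map]
    rfl
  rw [h]

lemma Rv_nonneg (S : ℕ) (θ : ℝ) {ι : Type} [Fintype ι] (v : ι → ℝ) : 0 ≤ Rv S θ v :=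
  Finset.sum_nonneg fun _ _ => ind_nonneg _

lemma xp_continuous (θ : ℝ) : Continuous (xp θ) := by
  unfold xp
  refine continuous_const.mul ?_
  exact Continuous.rpow continuous_const (continuous_id.sub continuous_const)
    (fun _ => Or.inl two_ne_zero)

lemma yp_measurable (θ : ℝ) : Measurable (yp θ) := by
  unfold yp
  refine Measurable.ite ?_ (xp_continuous θ).measurable measurable_const
  exact measurableSet_lt measurable_const (xp_continuous θ).measurable

lemma ind_measurable {α : Type} [MeasurableSpace α] {p : α → Prop}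
    (h : MeasurableSet {x | p x}) : Measurable (fun x => ind (p x)) := by
  classical
  have : (fun x => ind (p x)) = Set.indicator {x | p x} (fun _ => (1 : ℝ)) := by
    funext x
    by_cases hx : p x
    · rw [ind_of hx, Set.indicator_of_mem (by exact hx)]
    · rw [ind_not_of hx, Set.indicator_of_notMem (by exact hx)]
  rw [this]
  exact measurable_const.indicator h

lemma Rv_measurable (S : ℕ) (θ : ℝ) {ι : Type} [Fintype ι] :
    Measurable (fun v : ι → ℝ => Rv S θ v) := by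
  simp_rw [Rv_eq]
  refine Finset.measurable_sum _ fun I _ => ?_
  have h : Measurable (fun v : ι → ℝ => 2 ^ S - ∑ i ∈ I, yp θ (v i)) :=
    measurable_const.sub (Finset.measurable_sum _ fun i _ =>
      (yp_measurable θ).comp (measurable_pi_apply i))
  refine ind_measurable ?_
  exact (measurableSet_le measurable_const h).inter (measurableSet_lt h measurable_const)

/-- the value of `Rv` if the positions are sorted into three classes -/
lemma Rv_sum (S : ℕ) (θ : ℝ) {α β γ : Type} [Fintype α] [Fintype β] [Fintype γ]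
    (v : α ⊕ (β ⊕ γ) → ℝ) (h0 : ∀ a, xp θ (v (Sum.inl a)) ≤ 1)
    (h1 : ∀ b, 1 < xp θ (v (Sum.inr (Sum.inl b))))
    (h2 : ∀ c, (2 : ℝ) ^ S < xp θ (v (Sum.inr (Sum.inr c)))) :
    Rv S θ v = 2 ^ Fintype.card α * ∑ B : Finset β,
      ind ((2 : ℝ) ^ S - 1 < ∑ b ∈ B, xp θ (v (Sum.inr (Sum.inl b))) ∧
        ∑ b ∈ B, xp θ (v (Sum.inr (Sum.inl b))) ≤ (2 : ℝ) ^ S) := by
  classical
  have hS : (1 : ℝ) ≤ 2 ^ S := one_le_pow₀ (by norm_num)
  have e0 : ∀ a, yp θ (v (Sum.inl a)) = 0 := fun a => if_neg (not_lt.2 (h0 a))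
  have e1 : ∀ b, yp θ (v (Sum.inr (Sum.inl b))) = xp θ (v (Sum.inr (Sum.inl b))) :=
    fun b => if_pos (h1 b)
  have e2 : ∀ c, yp θ (v (Sum.inr (Sum.inr c))) = xp θ (v (Sum.inr (Sum.inr c))) :=
    fun c => if_pos (hS.trans_lt (h2 c))
  rw [Rv_eq, ← Equiv.sum_comp (Finset.sumEquiv (α := α) (β := β ⊕ γ)).symm.toEquiv,
    Fintype.sum_prod_type]
  have key : ∀ A : Finset α, ∑ D : Finset (β ⊕ γ),
      ind (0 ≤ 2 ^ S - ∑ i ∈ (Finset.sumEquiv (α := α) (β := β ⊕ γ)).symm.toEquiv (A, D),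
        yp θ (v i) ∧
      2 ^ S - ∑ i ∈ (Finset.sumEquiv (α := α) (β := β ⊕ γ)).symm.toEquiv (A, D),
        yp θ (v i) < 1) =
      ∑ B : Finset β,
      ind ((2 : ℝ) ^ S - 1 < ∑ b ∈ B, xp θ (v (Sum.inr (Sum.inl b))) ∧
        ∑ b ∈ B, xp θ (v (Sum.inr (Sum.inl b))) ≤ (2 : ℝ) ^ S) := by
    intro A
    rw [← Equiv.sum_comp (Finset.sumEquiv (α := β) (β := γ)).symm.toEquiv,
      Fintype.sum_prod_type]
    refine Finset.sum_congr rfl fun B _ => ?_
    rw [Finset.sum_eq_single (∅ : Finset γ)]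
    · refine ind_congr ?_
      have hs : ∑ i ∈ (Finset.sumEquiv (α := α) (β := β ⊕ γ)).symm.toEquiv
          (A, (Finset.sumEquiv (α := β) (β := γ)).symm.toEquiv (B, ∅)), yp θ (v i) =
          ∑ b ∈ B, xp θ (v (Sum.inr (Sum.inl b))) := by
        show ∑ i ∈ A.disjSum (B.disjSum ∅), yp θ (v i) = _
        rw [Finset.sum_disjSum, Finset.sum_disjSum]
        simp [e0, e1]
      rw [hs]
      constructor
      · rintro ⟨a, b⟩
        exact ⟨by linarith, by linarith⟩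
      · rintro ⟨a, b⟩
        exact ⟨by linarith, by linarith⟩
    · intro C _ hC
      refine ind_not_of ?_
      rintro ⟨a, -⟩
      have hs : ∑ i ∈ (Finset.sumEquiv (α := α) (β := β ⊕ γ)).symm.toEquiv
          (A, (Finset.sumEquiv (α := β) (β := γ)).symm.toEquiv (B, C)), yp θ (v i) =
          ∑ b ∈ B, xp θ (v (Sum.inr (Sum.inl b))) +
          ∑ c ∈ C, xp θ (v (Sum.inr (Sum.inr c))) := by
        show ∑ i ∈ A.disjSum (B.disjSum C), yp θ (v i) = _
        rw [Finset.sum_disjSum, Finset.sum_disjSum]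
        simp [e0, e1, e2]
      rw [hs] at a
      obtain ⟨c, hc⟩ := Finset.nonempty_iff_ne_empty.2 hC
      have p1 : 0 ≤ ∑ b ∈ B, xp θ (v (Sum.inr (Sum.inl b))) :=
        Finset.sum_nonneg fun b _ => zero_le_one.trans (h1 b).le
      have p2 : xp θ (v (Sum.inr (Sum.inr c))) ≤ ∑ c ∈ C, xp θ (v (Sum.inr (Sum.inr c))) :=
        Finset.single_le_sum
          (f := fun c => xp θ (v (Sum.inr (Sum.inr c))))
          (fun c _ => (zero_le_one.trans hS).trans (h2 c).le) hc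
      have p3 := h2 c
      linarith
    · intro h
      exact absurd (Finset.mem_univ _) h
  rw [Finset.sum_congr rfl fun A _ => key A, Finset.sum_const, Finset.card_univ,
    Fintype.card_finset, nsmul_eq_mul]
  push_cast
  rfl


/-! ### Integrals over products -/

lemma int_equiv {ι κ : Type} [Fintype ι] [Fintype κ] (e : κ ≃ ι) (F : (κ → ℝ) → ℝ) :
    ∫ w : ι → ℝ, F (fun j => w (e j)) = ∫ v : κ → ℝ, F v := by
  have mp := MeasureTheory.volume_measurePreserving_piCongrLeft (fun _ : ι => ℝ) e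
  rw [← mp.integral_comp' (fun w => F (fun j => w (e j)))]
  refine MeasureTheory.integral_congr_ae (Filter.Eventually.of_forall fun v => ?_)
  show F _ = F v
  congr 1
  funext j
  rw [MeasurableEquiv.coe_piCongrLeft]
  exact Equiv.piCongrLeft_apply_apply (fun _ : ι => ℝ) e v j

lemma int_sum {α β : Type} [Fintype α] [Fintype β] (f : (α → ℝ) → ℝ) (g : (β → ℝ) → ℝ) :
    ∫ w : α ⊕ β → ℝ, f (fun a => w (Sum.inl a)) * g (fun b => w (Sum.inr b)) =
    (∫ v, f v) * ∫ v, g v := by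
  have mp := MeasureTheory.volume_measurePreserving_sumPiEquivProdPi (fun _ : α ⊕ β => ℝ)
  rw [← MeasureTheory.integral_prod_mul f g]
  rw [← MeasureTheory.Measure.volume_eq_prod]
  rw [← mp.integral_comp' (fun z => f z.1 * g z.2)]
  rfl

/-! ### The sum of the tents -/

/-- the sum of the tents -/
def T (s : ℕ) (v : ℝ) : ℝ := ∑ l : Fin s, tent (v - ((l : ℝ) + 1))

lemma T_one {s : ℕ} {v : ℝ} (h1 : 1 ≤ v) (h2 : v ≤ s) : T s v = 1 := by
  have h := LawA.tents s (x := v) (by linarith)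
  rw [Finset.sum_range_succ', max_eq_right (le_min zero_le_one (by linarith)),
    min_eq_left (by linarith), Nat.cast_zero, sub_zero,
    tent_eq_zero (by rw [abs_of_nonneg (by linarith)]; exact h1), add_zero,
    Finset.sum_range] at h
  rw [← h]
  unfold T
  refine Finset.sum_congr rfl fun l _ => ?_
  push_cast
  rfl

lemma tent_shift_integrable (c : ℝ) : MeasureTheory.Integrable (fun v => tent (v - c)) :=
  ALim.tent_integrable.comp_sub_right c

lemma T_integrable (s : ℕ) : MeasureTheory.Integrable (T s) := by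
  unfold T
  exact MeasureTheory.integrable_finsetSum _ fun l _ => tent_shift_integrable _

lemma T_int (s : ℕ) : ∫ v, T s v = s := by
  unfold T
  rw [MeasureTheory.integral_finsetSum _ fun l _ => tent_shift_integrable _]
  have : ∀ l : Fin s, ∫ v, tent (v - ((l : ℝ) + 1)) = 1 := fun l => by
    rw [MeasureTheory.integral_sub_right_eq_self tent ((l : ℝ) + 1)]
    exact ALim.tent_int
  simp [this]

lemma T_nonneg (s : ℕ) (v : ℝ) : 0 ≤ T s v := Finset.sum_nonneg fun _ _ => tent_nonneg _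

lemma tent_left : ∫ v in Set.Iic (1 : ℝ), tent (v - 1) = 1 / 2 := by
  have h1 : Set.Iic (1 : ℝ) = Set.Iic 0 ∪ Set.Ioc 0 1 := by
    rw [Set.Iic_union_Ioc_eq_Iic zero_le_one]
  have hi := tent_shift_integrable 1
  rw [h1, MeasureTheory.setIntegral_union (Set.Iic_disjoint_Ioc le_rfl) measurableSet_Ioc
    hi.integrableOn hi.integrableOn]
  rw [MeasureTheory.setIntegral_eq_zero_of_forall_eq_zero, zero_add,
    ← intervalIntegral.integral_of_le zero_le_one,
    intervalIntegral.integral_comp_sub_right (fun x => tent x) 1, zero_sub, sub_self]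
  · exact LawA.int_left
  · intro x hx
    refine tent_eq_zero ?_
    have hx' : x ≤ 0 := hx
    rw [abs_of_nonpos (by linarith)]
    linarith

lemma T_left {s : ℕ} (hs : 1 ≤ s) : ∫ v in Set.Iic (1 : ℝ), T s v = 1 / 2 := by
  obtain ⟨m, rfl⟩ : ∃ m, s = m + 1 := ⟨s - 1, by omega⟩
  unfold T
  rw [MeasureTheory.integral_finsetSum _ fun l _ => (tent_shift_integrable _).integrableOn]
  rw [Fin.sum_univ_succ]
  have h0 : ∫ v in Set.Iic (1 : ℝ), tent (v - (((0 : Fin (m + 1)) : ℕ) + 1)) = 1 / 2 := by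
    simp only [Fin.val_zero, Nat.cast_zero, zero_add]
    exact tent_left
  have h1 : ∀ l : Fin m, ∫ v in Set.Iic (1 : ℝ), tent (v - (((l.succ : Fin (m + 1)) : ℕ) + 1)) = 0 := by
    intro l
    refine MeasureTheory.setIntegral_eq_zero_of_forall_eq_zero fun x hx => ?_
    refine tent_eq_zero ?_
    have hx' : x ≤ 1 := hx
    have hl : (0 : ℝ) ≤ (l : ℕ) := Nat.cast_nonneg _
    rw [Fin.val_succ, Nat.cast_add, Nat.cast_one]
    rw [abs_of_nonpos (by linarith)]
    linarith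
  rw [h0, Finset.sum_congr rfl fun l _ => h1 l]
  simp

lemma T_iic {s : ℕ} {w : ℝ} (h1 : 1 ≤ w) (h2 : w ≤ s) :
    ∫ v in Set.Iic w, T s v = w - 1 / 2 := by
  have hs : 1 ≤ s := by exact_mod_cast h1.trans h2
  rw [← Set.Iic_union_Ioc_eq_Iic h1, MeasureTheory.setIntegral_union
    (Set.Iic_disjoint_Ioc le_rfl) measurableSet_Ioc (T_integrable s).integrableOn
    (T_integrable s).integrableOn, T_left hs]
  have : ∫ v in Set.Ioc 1 w, T s v = ∫ v in Set.Ioc 1 w, (1 : ℝ) :=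
    MeasureTheory.setIntegral_congr_fun measurableSet_Ioc fun v hv =>
      T_one hv.1.le (hv.2.trans h2)
  rw [this, ← intervalIntegral.integral_of_le h1, intervalIntegral.integral_const]
  simp
  ring

lemma T_ioi {s : ℕ} {w : ℝ} (h1 : 1 ≤ w) (h2 : w ≤ s) :
    ∫ v in Set.Ioi w, T s v = s + 1 / 2 - w := by
  have h := MeasureTheory.integral_add_compl (μ := MeasureTheory.volume)
    (measurableSet_Iic (a := w)) (T_integrable s)
  rw [T_iic h1 h2, Set.compl_Iic, T_int] at h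
  linarith

/-! ### The positions -/

/-- the label of the position one -/
def v1 (θ : ℝ) : ℝ := θ + Mer / Real.log 2

lemma xp_eq (θ v : ℝ) : xp θ v = (2 : ℝ) ^ (v - v1 θ) := by
  have hl : 0 < Real.log 2 := Real.log_pos (by norm_num)
  unfold xp v1
  rw [show v - (θ + Mer / Real.log 2) = (v - θ) + (-(Mer / Real.log 2)) by ring,
    Real.rpow_add two_pos, mul_comm]
  congr 1
  rw [Real.rpow_def_of_pos two_pos]
  congr 1
  field_simp

lemma xp_le_one {θ v : ℝ} (h : v ≤ v1 θ) : xp θ v ≤ 1 := by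
  rw [xp_eq]
  exact Real.rpow_le_one_of_one_le_of_nonpos one_le_two (by linarith)

lemma one_lt_xp {θ v : ℝ} (h : v1 θ < v) : 1 < xp θ v := by
  rw [xp_eq]
  exact Real.one_lt_rpow one_lt_two (by linarith)

lemma pow_lt_xp {θ v : ℝ} {S : ℕ} (h : v1 θ + S < v) : (2 : ℝ) ^ S < xp θ v := by
  rw [xp_eq, ← Real.rpow_natCast]
  exact Real.rpow_lt_rpow_of_exponent_lt one_lt_two (by linarith)

lemma v1_lo {θ : ℝ} (h1 : (mm : ℝ) + 1 ≤ θ) : 2 ≤ v1 θ := by
  have hl : 0 < Real.log 2 := Real.log_pos (by norm_num)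
  have h := (abs_le.1 mm_mer).1
  have h3 : -((mm : ℝ) - 1) ≤ Mer / Real.log 2 := by
    rw [le_div_iff₀ hl]
    linarith
  unfold v1
  linarith

lemma v1_hi {θ : ℝ} (h2 : θ ≤ mm + 2) : v1 θ ≤ (ss : ℝ) - 1 / 2 := by
  have h := ss_hi
  unfold al at h
  unfold v1
  have : -Mer / Real.log 2 = -(Mer / Real.log 2) := by ring
  rw [this] at h
  linarith

/-! ### The three classes -/

/-- the three classes -/
def Bs (S : ℕ) (θ : ℝ) : Fin 3 → Set ℝ :=
  ![Set.Iic (v1 θ), Set.Ioc (v1 θ) (v1 θ + S), Set.Ioi (v1 θ + S)]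

lemma Bs_measurable (S : ℕ) (θ : ℝ) (c : Fin 3) : MeasurableSet (Bs S θ c) := by
  fin_cases c
  · exact measurableSet_Iic
  · exact measurableSet_Ioc
  · exact measurableSet_Ioi

/-- the densities of the three classes -/
def rh (S : ℕ) (θ : ℝ) (s : ℕ) (c : Fin 3) : ℝ → ℝ :=
  (Bs S θ c).indicator (fun v => Real.log 2 * T s v)

lemma rh_nonneg (S : ℕ) (θ : ℝ) (s : ℕ) (c : Fin 3) (v : ℝ) : 0 ≤ rh S θ s c v :=
  Set.indicator_nonneg (fun _ _ => mul_nonneg (Real.log_nonneg one_le_two) (T_nonneg _ _)) _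

lemma rh_integrable (S : ℕ) (θ : ℝ) (s : ℕ) (c : Fin 3) :
    MeasureTheory.Integrable (rh S θ s c) :=
  ((T_integrable s).const_mul _).indicator (Bs_measurable S θ c)

lemma rh_sum (S : ℕ) (θ : ℝ) (s : ℕ) (v : ℝ) :
    ∑ c, rh S θ s c v = Real.log 2 * T s v := by
  have hS : (0 : ℝ) ≤ S := Nat.cast_nonneg _
  rw [Fin.sum_univ_three]
  unfold rh Bs
  simp only [Matrix.cons_val_zero, Matrix.cons_val_one, Matrix.cons_val]
  rcases le_or_gt v (v1 θ) with h | h
  · rw [Set.indicator_of_mem (by exact h), Set.indicator_of_notMem, Set.indicator_of_notMem]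
    · ring
    · intro h'
      have : v1 θ + S < v := h'
      linarith
    · intro h'
      exact absurd h'.1 (not_lt.2 h)
  · rcases le_or_gt v (v1 θ + S) with h3 | h3
    · rw [Set.indicator_of_notMem, Set.indicator_of_mem (by exact ⟨h, h3⟩),
        Set.indicator_of_notMem]
      · ring
      · intro h'
        exact absurd h3 (not_le.2 h')
      · intro h'
        exact absurd h' (not_le.2 h)
    · rw [Set.indicator_of_notMem, Set.indicator_of_notMem, Set.indicator_of_mem (by exact h3)]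
      · ring
      · intro h'
        exact absurd h'.2 (not_le.2 h3)
      · intro h'
        exact absurd h' (not_le.2 h)

/-- sorting the indices of the three classes -/
def srt (ν : Fin 3 → ℕ) : Fin (ν 0) ⊕ (Fin (ν 1) ⊕ Fin (ν 2)) ≃ Idx ν where
  toFun
    | Sum.inl a => ⟨0, a⟩
    | Sum.inr (Sum.inl b) => ⟨1, b⟩
    | Sum.inr (Sum.inr c) => ⟨2, c⟩
  invFun
    | ⟨0, a⟩ => Sum.inl a
    | ⟨1, b⟩ => Sum.inr (Sum.inl b)
    | ⟨2, c⟩ => Sum.inr (Sum.inr c)
  left_inv := by rintro (a | b | c) <;> rfl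
  right_inv := by rintro ⟨l, a⟩; fin_cases l <;> rfl

lemma int_rh0 {S s : ℕ} {θ : ℝ} (h1 : 1 ≤ v1 θ) (h2 : v1 θ ≤ s) :
    ∫ v, rh S θ s 0 v = Real.log 2 * mA θ := by
  unfold rh
  rw [MeasureTheory.integral_indicator (Bs_measurable S θ 0)]
  show ∫ v in Set.Iic (v1 θ), Real.log 2 * T s v = _
  rw [MeasureTheory.integral_const_mul, T_iic h1 h2]
  rfl

lemma int_rh2 {S s : ℕ} {θ : ℝ} (h1 : 1 ≤ v1 θ) (h2 : v1 θ + S ≤ s) :
    ∫ v, rh S θ s 2 v = Real.log 2 * (s + 1 / 2 - (v1 θ + S)) := by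
  have hS : (0 : ℝ) ≤ S := Nat.cast_nonneg _
  unfold rh
  rw [MeasureTheory.integral_indicator (Bs_measurable S θ 2)]
  show ∫ v in Set.Ioi (v1 θ + S), Real.log 2 * T s v = _
  rw [MeasureTheory.integral_const_mul, T_ioi (by linarith) h2]

/-- the middle block -/
lemma int_mid {S s k : ℕ} {θ : ℝ} (h1 : 1 ≤ v1 θ) (h2 : v1 θ + S ≤ s) (Φ : (Fin k → ℝ) → ℝ) :
    ∫ u : Fin k → ℝ, (∏ b, rh S θ s 1 (u b)) * Φ (fun b => u b - v1 θ) =
    Real.log 2 ^ k * ∫ v in Set.Icc (0 : Fin k → ℝ) (fun _ => (S : ℝ)), Φ v := by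
  have hS : (0 : ℝ) ≤ S := Nat.cast_nonneg _
  set c : Fin k → ℝ := fun _ => v1 θ with hc
  have e1 : ∀ u : Fin k → ℝ, (∏ b, rh S θ s 1 (u b)) * Φ (fun b => u b - v1 θ) =
      Real.log 2 ^ k * (Set.univ.pi fun b => Set.Ioc (c b) (c b + S)).indicator
        (fun u => Φ (fun b => u b - v1 θ)) u := by
    intro u
    by_cases hu : u ∈ Set.univ.pi fun b => Set.Ioc (c b) (c b + (S : ℝ))
    · rw [Set.indicator_of_mem hu]
      congr 1
      rw [Finset.prod_congr rfl (g := fun _ => Real.log 2)]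
      · simp
      · intro b _
        have hb : v1 θ < u b ∧ u b ≤ v1 θ + S := hu b (Set.mem_univ _)
        have : u b ∈ Bs S θ 1 := hb
        unfold rh
        rw [Set.indicator_of_mem this, T_one (by linarith [hb.1]) (by linarith [hb.2]), mul_one]
    · rw [Set.indicator_of_notMem hu, mul_zero]
      have : ∃ b, u b ∉ Set.Ioc (c b) (c b + (S : ℝ)) := by
        by_contra hcon
        push Not at hcon
        exact hu fun b _ => hcon b
      obtain ⟨b, hb⟩ := this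
      have hb' : u b ∉ Bs S θ 1 := hb
      rw [Finset.prod_eq_zero (Finset.mem_univ b) (Set.indicator_of_notMem hb' _), zero_mul]
  simp_rw [e1]
  rw [MeasureTheory.integral_const_mul]
  congr 1
  rw [MeasureTheory.integral_indicator (MeasurableSet.univ_pi fun _ => measurableSet_Ioc)]
  rw [MeasureTheory.volume_pi, MeasureTheory.setIntegral_congr_set
    (MeasureTheory.Measure.univ_pi_Ioc_ae_eq_Icc (f := c) (g := fun b => c b + S)),
    ← MeasureTheory.volume_pi]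
  rw [← MeasureTheory.integral_indicator measurableSet_Icc,
    ← MeasureTheory.integral_indicator measurableSet_Icc,
    ← MeasureTheory.integral_sub_right_eq_self
      ((Set.Icc (0 : Fin k → ℝ) (fun _ => (S : ℝ))).indicator Φ) c]
  refine MeasureTheory.integral_congr_ae (Filter.Eventually.of_forall fun u => ?_)
  show (Set.Icc c fun b => c b + S).indicator (fun u => Φ fun b => u b - v1 θ) u =
    (Set.Icc (0 : Fin k → ℝ) (fun _ => (S : ℝ))).indicator Φ (u - c)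
  by_cases hu : u ∈ Set.Icc c fun b => c b + (S : ℝ)
  · have hu' : u - c ∈ Set.Icc (0 : Fin k → ℝ) (fun _ => (S : ℝ)) := by
      refine ⟨fun b => ?_, fun b => ?_⟩
      · have := hu.1 b
        simp only [Pi.zero_apply, Pi.sub_apply]
        linarith
      · have := hu.2 b
        simp only [Pi.sub_apply]
        linarith
    rw [Set.indicator_of_mem hu, Set.indicator_of_mem hu']
    rfl
  · have hu' : u - c ∉ Set.Icc (0 : Fin k → ℝ) (fun _ => (S : ℝ)) := by
      intro h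
      refine hu ⟨fun b => ?_, fun b => ?_⟩
      · have := h.1 b
        simp only [Pi.zero_apply, Pi.sub_apply] at this
        linarith
      · have := h.2 b
        simp only [Pi.sub_apply] at this
        linarith
    rw [Set.indicator_of_notMem hu, Set.indicator_of_notMem hu']

/-- the terms of the sum over the three classes -/
lemma term (S s : ℕ) {θ r : ℝ} (h1 : 1 ≤ v1 θ) (h2 : v1 θ + S ≤ s) (ν : Fin 3 → ℕ) :
    ∫ v : Idx ν → ℝ, (∏ i, rh S θ s i.1 (v i)) * (1 - Real.exp (-(r * Rv S θ v))) =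
    (Real.log 2 * mA θ) ^ ν 0 *
      ((Real.log 2 ^ ν 1 * ∫ v in Set.Icc (0 : Fin (ν 1) → ℝ) (fun _ => (S : ℝ)),
        (1 - Real.exp (-(2 ^ ν 0 * r * RR S v)))) *
      (Real.log 2 * (s + 1 / 2 - (v1 θ + S))) ^ ν 2) := by
  have hS : (0 : ℝ) ≤ S := Nat.cast_nonneg _
  set F : (Fin (ν 0) ⊕ (Fin (ν 1) ⊕ Fin (ν 2)) → ℝ) → ℝ := fun v =>
    ((∏ a, rh S θ s 0 (v (Sum.inl a))) * ((∏ b, rh S θ s 1 (v (Sum.inr (Sum.inl b)))) *
      ∏ c, rh S θ s 2 (v (Sum.inr (Sum.inr c))))) * (1 - Real.exp (-(r * Rv S θ v))) with hF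
  have e1 : ∀ w : Idx ν → ℝ, (∏ i, rh S θ s i.1 (w i)) * (1 - Real.exp (-(r * Rv S θ w))) =
      F (fun j => w (srt ν j)) := by
    intro w
    rw [hF]
    simp only
    rw [Rv_inv S θ (srt ν) w]
    congr 1
    rw [← Equiv.prod_comp (srt ν), Fintype.prod_sum_type, Fintype.prod_sum_type]
    rfl
  simp_rw [e1]
  rw [int_equiv (srt ν) F]
  have e2 : ∀ v, F v = (fun x : Fin (ν 0) → ℝ => ∏ a, rh S θ s 0 (x a))
        (fun a => v (Sum.inl a)) *
      (fun y : Fin (ν 1) ⊕ Fin (ν 2) → ℝ => ((∏ b, rh S θ s 1 (y (Sum.inl b))) *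
          (1 - Real.exp (-(2 ^ ν 0 * r * RR S (fun b => y (Sum.inl b) - v1 θ))))) *
        ∏ c, rh S θ s 2 (y (Sum.inr c))) (fun b => v (Sum.inr b)) := by
    intro v
    rw [hF]
    simp only
    by_cases h0 : ∀ a, v (Sum.inl a) ∈ Bs S θ 0
    swap
    · push Not at h0
      obtain ⟨a, ha⟩ := h0
      rw [Finset.prod_eq_zero (Finset.mem_univ a) (Set.indicator_of_notMem ha _)]
      ring
    by_cases h3 : ∀ b, v (Sum.inr (Sum.inl b)) ∈ Bs S θ 1
    swap
    · push Not at h3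
      obtain ⟨b, hb⟩ := h3
      rw [Finset.prod_eq_zero (Finset.mem_univ b) (Set.indicator_of_notMem hb _)]
      ring
    by_cases h4 : ∀ c, v (Sum.inr (Sum.inr c)) ∈ Bs S θ 2
    swap
    · push Not at h4
      obtain ⟨c, hc⟩ := h4
      rw [Finset.prod_eq_zero (Finset.mem_univ c) (Set.indicator_of_notMem hc _)]
      ring
    have hR : Rv S θ v = 2 ^ ν 0 * RR S (fun b => v (Sum.inr (Sum.inl b)) - v1 θ) := by
      rw [Rv_sum S θ v (fun a => xp_le_one (h0 a)) (fun b => one_lt_xp (h3 b).1)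
        (fun c => pow_lt_xp (h4 c)), Fintype.card_fin]
      unfold RR
      simp_rw [xp_eq]
    rw [hR, show r * (2 ^ ν 0 * RR S (fun b => v (Sum.inr (Sum.inl b)) - v1 θ)) =
      2 ^ ν 0 * r * RR S (fun b => v (Sum.inr (Sum.inl b)) - v1 θ) by ring]
    ring
  simp_rw [e2]
  rw [int_sum (fun x : Fin (ν 0) → ℝ => ∏ a, rh S θ s 0 (x a))
    (fun y : Fin (ν 1) ⊕ Fin (ν 2) → ℝ => ((∏ b, rh S θ s 1 (y (Sum.inl b))) *
      (1 - Real.exp (-(2 ^ ν 0 * r * RR S (fun b => y (Sum.inl b) - v1 θ))))) *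
      ∏ c, rh S θ s 2 (y (Sum.inr c)))]
  have e3 := int_sum (fun u : Fin (ν 1) → ℝ => (∏ b, rh S θ s 1 (u b)) *
      (1 - Real.exp (-(2 ^ ν 0 * r * RR S (fun b => u b - v1 θ)))))
    (fun z : Fin (ν 2) → ℝ => ∏ c, rh S θ s 2 (z c))
  simp only at e3
  rw [e3]
  rw [MeasureTheory.integral_fintype_prod_volume_eq_prod (fun _ : Fin (ν 0) => rh S θ s 0),
    MeasureTheory.integral_fintype_prod_volume_eq_prod (fun _ : Fin (ν 2) => rh S θ s 2)]
  rw [int_mid h1 h2 (fun v => 1 - Real.exp (-(2 ^ ν 0 * r * RR S v)))]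
  rw [int_rh0 h1 (by linarith), int_rh2 h1 h2]
  simp only [Finset.prod_const, Finset.card_univ, Fintype.card_fin]

/-! ### The labels -/

/-- the density of a label -/
def rl {s : ℕ} (l : Fin s) (v : ℝ) : ℝ := Real.log 2 * tent (v - ((l : ℝ) + 1))

lemma cnt_eq {s : ℕ} (ν : Fin s → ℕ) : cnt ν s = ∑ i, ν i := by
  unfold cnt
  exact Finset.sum_congr rfl fun i _ => if_pos i.2

lemma wt_eq {s : ℕ} (ν : Fin s → ℕ) : wt ν * zz ^ (X ν s) =
    (zz / Real.exp 1) ^ s * ((∏ l, 1 / ((ν l).factorial : ℝ)) * Real.log 2 ^ (∑ i, ν i)) := by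
  have hl : 0 < Real.log 2 := Real.log_pos (by norm_num)
  have hz : zz ≠ 0 := by unfold zz; positivity
  unfold wt pw X
  rw [cnt_eq, zpow_sub₀ hz, zpow_natCast, zpow_natCast]
  have h1 : ∏ i, Real.exp (-1) / ((ν i).factorial : ℝ) =
      Real.exp (-1) ^ s * ∏ l, 1 / ((ν l).factorial : ℝ) := by
    rw [show (fun i => Real.exp (-1) / ((ν i).factorial : ℝ)) =
      fun i => Real.exp (-1) * (1 / ((ν i).factorial : ℝ)) from funext fun i => by ring,
      Finset.prod_mul_distrib, Finset.prod_const, Finset.card_univ, Fintype.card_fin]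
  rw [h1, div_pow, Real.exp_neg]
  have h2 : zz ^ (∑ i, ν i) = (Real.log 2 ^ (∑ i, ν i))⁻¹ := by
    unfold zz
    rw [one_div, inv_pow]
  rw [h2, div_inv_eq_mul, inv_pow]
  ring

lemma EB_eq (S : ℕ) (θ r : ℝ) {s : ℕ} (ν : Fin s → ℕ) :
    Real.log 2 ^ (∑ i, ν i) * EB S θ ν r =
    ∫ v : Idx ν → ℝ, (∏ i, rl i.1 (v i)) * (1 - Real.exp (-(r * Rv S θ v))) := by
  rw [← MeasureTheory.integral_add_right_eq_self
    (fun v : Idx ν → ℝ => (∏ i, rl i.1 (v i)) * (1 - Real.exp (-(r * Rv S θ v))))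
    (fun i : Idx ν => (i.1 : ℝ) + 1)]
  unfold EB
  rw [← MeasureTheory.integral_const_mul]
  refine MeasureTheory.integral_congr_ae (Filter.Eventually.of_forall fun t => ?_)
  show Real.log 2 ^ (∑ i, ν i) * ((∏ i, tent (t i)) *
    (1 - Real.exp (-(r * Rv S θ (fun i : Idx ν => (i.1 : ℝ) + 1 + t i))))) =
    (∏ i : Idx ν, rl i.1 (t i + ((i.1 : ℝ) + 1))) *
      (1 - Real.exp (-(r * Rv S θ (fun i : Idx ν => t i + ((i.1 : ℝ) + 1)))))
  have h1 : (fun i : Idx ν => (i.1 : ℝ) + 1 + t i) = fun i => t i + ((i.1 : ℝ) + 1) :=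
    funext fun i => add_comm _ _
  rw [h1]
  have h2 : (∏ i : Idx ν, rl i.1 (t i + ((i.1 : ℝ) + 1))) =
      Real.log 2 ^ (∑ i, ν i) * ∏ i, tent (t i) := by
    unfold rl
    simp_rw [add_sub_cancel_right]
    rw [Finset.prod_mul_distrib, Finset.prod_const, Finset.card_univ, Fintype.card_sigma]
    simp
  rw [h2]
  ring

lemma meas (S : ℕ) (θ r : ℝ) (k : ℕ) :
    Measurable (fun v : Fin k → ℝ => 1 - Real.exp (-(r * Rv S θ v))) :=
  measurable_const.sub (Real.measurable_exp.comp ((Rv_measurable S θ).const_mul r).neg)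

lemma bds (S : ℕ) (θ : ℝ) {r : ℝ} (hr : 0 ≤ r) {ι : Type} [Fintype ι] (v : ι → ℝ) :
    0 ≤ 1 - Real.exp (-(r * Rv S θ v)) ∧ 1 - Real.exp (-(r * Rv S θ v)) ≤ 1 :=
  ⟨ALim.phi_nonneg (mul_nonneg hr (Rv_nonneg S θ v)), ALim.phi_le_one _⟩

/-- removing the labels -/
lemma relabel (S s : ℕ) {θ r : ℝ} (hr : 0 ≤ r) :
    (∑' ν : Fin s → ℕ, ENNReal.ofReal ((∏ l, 1 / ((ν l).factorial : ℝ)) *
      ∫ v : Idx ν → ℝ, (∏ i, rl i.1 (v i)) * (1 - Real.exp (-(r * Rv S θ v))))) =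
    ∑' ν : Fin 3 → ℕ, ENNReal.ofReal ((∏ l, 1 / ((ν l).factorial : ℝ)) *
      ∫ v : Idx ν → ℝ, (∏ i, rh S θ s i.1 (v i)) * (1 - Real.exp (-(r * Rv S θ v)))) := by
  have hl : 0 < Real.log 2 := Real.log_pos (by norm_num)
  have a1 := lab_cont (s := s) (fun l v => rl l v)
    (fun l v => mul_nonneg hl.le (tent_nonneg _))
    (fun l => (tent_shift_integrable _).const_mul _)
    (fun ι _ v => 1 - Real.exp (-(r * Rv S θ v)))
    (fun ι κ _ _ e v => by simp only [Rv_inv])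
    (fun k => meas S θ r k)
    (fun ι _ v => bds S θ hr v)
  have a2 := lab_cont (s := 3) (fun l v => rh S θ s l v)
    (fun l v => rh_nonneg S θ s l v)
    (fun l => rh_integrable S θ s l)
    (fun ι _ v => 1 - Real.exp (-(r * Rv S θ v)))
    (fun ι κ _ _ e v => by simp only [Rv_inv])
    (fun k => meas S θ r k)
    (fun ι _ v => bds S θ hr v)
  rw [a1, a2]
  refine tsum_congr fun k => ?_
  simp_rw [rh_sum]
  simp only [rl, T, Finset.mul_sum]

/-- the triples of counts -/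
def tri : ℕ × (ℕ × ℕ) ≃ (Fin 3 → ℕ) where
  toFun p := ![p.1, p.2.2, p.2.1]
  invFun ν := (ν 0, (ν 2, ν 1))
  left_inv p := rfl
  right_inv ν := by
    funext i
    fin_cases i <;> rfl

lemma exp_tsum {x : ℝ} (hx : 0 ≤ x) :
    ∑' b : ℕ, ENNReal.ofReal (x ^ b / (b.factorial : ℝ)) = ENNReal.ofReal (Real.exp x) := by
  rw [← ENNReal.ofReal_tsum_of_nonneg (fun b => by positivity) (Real.summable_pow_div_factorial x)]
  rw [Real.exp_eq_exp_ℝ, NormedSpace.exp_eq_tsum_div]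

lemma exp_m2 {S : ℕ} {θ : ℝ} :
    Real.exp (Real.log 2 * (((S + ss : ℕ) : ℝ) + 1 / 2 - (v1 θ + S))) =
    (2 : ℝ) ^ ((ss : ℝ) - θ + 1 / 2) * Real.exp (-Mer) := by
  have hl : 0 < Real.log 2 := Real.log_pos (by norm_num)
  rw [Real.rpow_def_of_pos two_pos, ← Real.exp_add]
  congr 1
  unfold v1
  push_cast
  field_simp
  ring

lemma mA_nonneg {θ : ℝ} (h1 : (mm : ℝ) + 1 ≤ θ) : 0 ≤ mA θ := by
  have := v1_lo h1
  unfold v1 at this
  unfold mA
  linarith

end TopR

open TopR in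
theorem top_red (S : ℕ) {θ r : ℝ} (h1 : (mm : ℝ) + 1 ≤ θ) (h2 : θ ≤ mm + 2) (hr : 0 ≤ r) :
    (∑' ν : Fin (S + ss) → ℕ, ENNReal.ofReal (wt ν * zz ^ (X ν (S + ss)) * EB S θ ν r)) =
    ENNReal.ofReal ((zz / Real.exp 1) ^ (S + ss) *
      ((2 : ℝ) ^ ((ss : ℝ) - θ + 1 / 2) * Real.exp (-Mer))) *
      ∑' e : ℕ, ENNReal.ofReal ((Real.log 2 * mA θ) ^ e / (e.factorial : ℝ) *
        FF S (2 ^ e * r)) := by
  have hl : 0 < Real.log 2 := Real.log_pos (by norm_num)
  have hz : 0 ≤ zz / Real.exp 1 := by unfold zz; positivity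
  have b1 := v1_lo h1
  have b2 := v1_hi h2
  have hm := mA_nonneg h1
  set s := S + ss with hs
  have hsr : (s : ℝ) = S + ss := by rw [hs]; push_cast; rfl
  have e0 : ∀ ν : Fin s → ℕ, ENNReal.ofReal (wt ν * zz ^ (X ν s) * EB S θ ν r) =
      ENNReal.ofReal ((zz / Real.exp 1) ^ s) * ENNReal.ofReal ((∏ l, 1 / ((ν l).factorial : ℝ)) *
      ∫ v : Idx ν → ℝ, (∏ i, rl i.1 (v i)) * (1 - Real.exp (-(r * Rv S θ v)))) := by
    intro ν
    rw [← ENNReal.ofReal_mul (pow_nonneg hz _), wt_eq, ← EB_eq]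
    congr 1
    ring
  rw [tsum_congr e0, ENNReal.tsum_mul_left, relabel S s hr, ← tri.tsum_eq]
  have e1 : ∀ p : ℕ × (ℕ × ℕ), ENNReal.ofReal ((∏ l, 1 / ((tri p l).factorial : ℝ)) *
      ∫ v : Idx (tri p) → ℝ, (∏ i, rh S θ s i.1 (v i)) * (1 - Real.exp (-(r * Rv S θ v)))) =
      ENNReal.ofReal ((Real.log 2 * mA θ) ^ p.1 / (p.1.factorial : ℝ)) *
      (ENNReal.ofReal ((Real.log 2 * (s + 1 / 2 - (v1 θ + S))) ^ p.2.1 /
        (p.2.1.factorial : ℝ)) *
      ENNReal.ofReal (Real.log 2 ^ p.2.2 / (p.2.2.factorial : ℝ) *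
        ∫ v in Set.Icc (0 : Fin p.2.2 → ℝ) (fun _ => (S : ℝ)),
          (1 - Real.exp (-(2 ^ p.1 * r * RR S v))))) := by
    intro p
    have hm2 : 0 ≤ Real.log 2 * ((s : ℝ) + 1 / 2 - (v1 θ + S)) :=
      mul_nonneg hl.le (by rw [hsr]; linarith)
    rw [← ENNReal.ofReal_mul (by positivity), ← ENNReal.ofReal_mul (by positivity)]
    congr 1
    rw [term S s (by linarith) (by rw [hsr]; linarith) (tri p), Fin.prod_univ_three]
    show 1 / ((p.1).factorial : ℝ) * (1 / ((p.2.2).factorial : ℝ)) *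
      (1 / ((p.2.1).factorial : ℝ)) * ((Real.log 2 * mA θ) ^ p.1 *
      ((Real.log 2 ^ p.2.2 * ∫ v in Set.Icc (0 : Fin p.2.2 → ℝ) (fun _ => (S : ℝ)),
        (1 - Real.exp (-(2 ^ p.1 * r * RR S v)))) *
      (Real.log 2 * (s + 1 / 2 - (v1 θ + S))) ^ p.2.1)) = _
    ring
  rw [tsum_congr e1, ENNReal.tsum_prod' ]
  have hm2 : 0 ≤ Real.log 2 * ((s : ℝ) + 1 / 2 - (v1 θ + S)) :=
    mul_nonneg hl.le (by rw [hsr]; linarith)
  have e2 : ∀ e : ℕ, ∑' q : ℕ × ℕ, ENNReal.ofReal ((Real.log 2 * mA θ) ^ e / (e.factorial : ℝ)) *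
      (ENNReal.ofReal ((Real.log 2 * (s + 1 / 2 - (v1 θ + S))) ^ q.1 /
        (q.1.factorial : ℝ)) *
      ENNReal.ofReal (Real.log 2 ^ q.2 / (q.2.factorial : ℝ) *
        ∫ v in Set.Icc (0 : Fin q.2 → ℝ) (fun _ => (S : ℝ)),
          (1 - Real.exp (-(2 ^ e * r * RR S v))))) =
      ENNReal.ofReal ((2 : ℝ) ^ ((ss : ℝ) - θ + 1 / 2) * Real.exp (-Mer)) *
      ENNReal.ofReal ((Real.log 2 * mA θ) ^ e / (e.factorial : ℝ) * FF S (2 ^ e * r)) := by
    intro e
    have hl2 : 0 ≤ 2 ^ e * r := by positivity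
    rw [ENNReal.tsum_mul_left, ENNReal.tsum_prod']
    simp_rw [ENNReal.tsum_mul_left]
    have e3 : ∑' k : ℕ, ENNReal.ofReal (Real.log 2 ^ k / (k.factorial : ℝ) *
        ∫ v in Set.Icc (0 : Fin k → ℝ) (fun _ => (S : ℝ)),
          (1 - Real.exp (-(2 ^ e * r * RR S v)))) = ENNReal.ofReal (FF S (2 ^ e * r)) := by
      rw [← ENNReal.ofReal_tsum_of_nonneg _ (FF_summable S hl2)]
      · rfl
      · intro k
        refine mul_nonneg (by positivity) (MeasureTheory.integral_nonneg fun v => ?_)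
        exact ALim.phi_nonneg (mul_nonneg hl2 (RR_nonneg S v))
    refine (congrArg _ (tsum_congr fun a => congrArg _ e3)).trans ?_
    rw [ENNReal.tsum_mul_right, exp_tsum hm2, hs, exp_m2,
      ENNReal.ofReal_mul (by positivity : 0 ≤ (Real.log 2 * mA θ) ^ e / (e.factorial : ℝ))]
    ring
  rw [tsum_congr e2, ENNReal.tsum_mul_left, ← mul_assoc, ← ENNReal.ofReal_mul (pow_nonneg hz _)]

end Pool.Agent.EN2
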