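import Mathlib
import Pool.Agent.Lib.MP_ec0ede_nt_EN2.Defs
import Pool.Agent.Lib.MP_ec0ede_nt_EN.LawA
import Pool.Agent.Lib.MP_ec0ede_nt_EN.Blk
import Pool.Agent.Lib.MP_ec0ede_nt_EN2.Rng
import Pool.Agent.Lib.MP_ec0ede_nt_EN2.LabB
import Pool.Agent.Lib.MP_ec0ede_nt_EN2.TopR
import Pool.Agent.Lib.MP_ec0ede_nt_EN2.FFp
import Pool.Agent.Lib.MP_ec0ede_nt_EN2.MP2

set_option autoImplicit false

noncomputable section

namespace Pool.Agent.EN2

open Real Filter Topology Finset Pool.Agent.EN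

def kU (k S : ℕ) (θ : ℝ) : ℝ := Real.exp (-((k + mm : ℕ) : ℝ)) *
  ((zz / Real.exp 1) ^ (S + ss) * ((2 : ℝ) ^ ((ss : ℝ) - θ + 1 / 2) * Real.exp (-Mer)))
def tb (k S : ℕ) (θ : ℝ) (f : ℕ) (B : Finset ℕ) (m : ℤ) : ℝ :=
  (∏ p ∈ B, (Real.log 2 * wz (k + mm) p)) * ind (∀ p ∈ B, ¬ p ∣ f) *
    zz ^ ((f.primeFactors.card : ℤ) + B.card + m) *
    FF S ((2 : ℝ) ^ (-(m + θ) - (f.primeFactors.card + B.card)) * LL (f * ∏ p ∈ B, p))

namespace Red

theorem wz_nonneg (K p : ℕ) : 0 ≤ wz K p := Finset.sum_nonneg fun j _ => mu_nonneg j p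

theorem wz_not_prime (K : ℕ) {p : ℕ} (h : ¬ p.Prime) : wz K p = 0 :=
  Finset.sum_eq_zero fun j _ => mu_not_prime j h

theorem wz_bd {K p : ℕ} (h : bd K ≤ p) : wz K p = 0 :=
  Finset.sum_eq_zero fun _ hj => mu_bd (Finset.mem_Icc.1 hj).2 h

theorem zz_pos : 0 < zz := by
  unfold zz
  exact div_pos one_pos (Real.log_pos (by norm_num))

theorem log_zz : Real.log 2 * zz = 1 := by
  unfold zz
  have : Real.log 2 ≠ 0 := (Real.log_pos (by norm_num : (1 : ℝ) < 2)).ne'
  field_simp

theorem mA_nonneg {θ : ℝ} (ht1 : (mm : ℝ) + 1 ≤ θ) : 0 ≤ mA θ := by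
  have h := mm_mer
  have hl : 0 < Real.log 2 := Real.log_pos (by norm_num)
  have h1 : -(((mm : ℝ) - 1) * Real.log 2) ≤ Mer := by
    have := neg_abs_le Mer
    linarith
  have h2 : -((mm : ℝ) - 1) ≤ Mer / Real.log 2 := by
    rw [le_div_iff₀ hl]
    linarith
  unfold mA
  linarith

theorem LL_nonneg (a : ℕ) : 0 ≤ LL a := ENNReal.toReal_nonneg

/-- a sum over the subsets of a set is a double sum over the small part and the large part -/
theorem sum_split {M : Type*} [AddCommMonoid M] (A : Finset ℕ) (b : ℕ) (F : Finset ℕ → M) :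
    ∑ B ∈ A.powerset, F B = ∑ B1 ∈ (A.filter (· ≤ b)).powerset,
      ∑ B2 ∈ (A.filter (fun p => b < p)).powerset, F (B1 ∪ B2) := by
  rw [← Finset.sum_product']
  refine Finset.sum_nbij' (fun B => (B.filter (· ≤ b), B.filter (fun p => b < p)))
    (fun q => q.1 ∪ q.2) ?_ ?_ ?_ ?_ ?_
  · intro B hB
    rw [Finset.mem_powerset] at hB
    simp only [Finset.mem_product, Finset.mem_powerset]
    exact ⟨Finset.filter_subset_filter _ hB, Finset.filter_subset_filter _ hB⟩
  · intro q hq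
    simp only [Finset.mem_product, Finset.mem_powerset] at hq
    rw [Finset.mem_powerset]
    exact Finset.union_subset (hq.1.trans (Finset.filter_subset _ _))
      (hq.2.trans (Finset.filter_subset _ _))
  · intro B _
    ext x
    simp only [Finset.mem_union, Finset.mem_filter]
    constructor
    · rintro (h | h) <;> exact h.1
    · intro h
      rcases le_or_gt x b with h1 | h1
      · exact Or.inl ⟨h, h1⟩
      · exact Or.inr ⟨h, h1⟩
  · intro q hq
    simp only [Finset.mem_product, Finset.mem_powerset] at hq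
    obtain ⟨q1, q2⟩ := q
    simp only [Prod.mk.injEq]
    constructor
    · ext x
      simp only [Finset.mem_union, Finset.mem_filter]
      constructor
      · rintro ⟨h | h, h'⟩
        · exact h
        · have := (Finset.mem_filter.1 (hq.2 h)).2
          omega
      · intro h
        exact ⟨Or.inl h, (Finset.mem_filter.1 (hq.1 h)).2⟩
    · ext x
      simp only [Finset.mem_union, Finset.mem_filter]
      constructor
      · rintro ⟨h | h, h'⟩
        · have := (Finset.mem_filter.1 (hq.1 h)).2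
          omega
        · exact h
      · intro h
        exact ⟨Or.inr h, (Finset.mem_filter.1 (hq.2 h)).2⟩
  · intro B _
    congr 1
    ext x
    simp only [Finset.mem_union, Finset.mem_filter]
    constructor
    · intro h
      rcases le_or_gt x b with h1 | h1
      · exact Or.inl ⟨h, h1⟩
      · exact Or.inr ⟨h, h1⟩
    · rintro (h | h) <;> exact h.1

theorem filter_union_le {b : ℕ} {B1 B2 : Finset ℕ} (h1 : ∀ p ∈ B1, p ≤ b) (h2 : ∀ p ∈ B2, b < p) :
    (B1 ∪ B2).filter (· ≤ b) = B1 := by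
  ext x
  simp only [Finset.mem_union, Finset.mem_filter]
  constructor
  · rintro ⟨h | h, h'⟩
    · exact h
    · have := h2 x h
      omega
  · intro h
    exact ⟨Or.inl h, h1 x h⟩

theorem disj {b : ℕ} {B1 B2 : Finset ℕ} (h1 : ∀ p ∈ B1, p ≤ b) (h2 : ∀ p ∈ B2, b < p) :
    Disjoint B1 B2 := by
  rw [Finset.disjoint_left]
  intro x hx hx'
  have := h1 x hx
  have := h2 x hx'
  omega

theorem shift (j e : ℕ) (g : ℕ → ENNReal) (h0 : g 0 = 0) :
    ∑' w : ℕ, g w = ∑' m : ℤ, g ((m + j + e).toNat) := by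
  have hinj : Function.Injective (fun w : ℕ => (w : ℤ) - j - e) := fun a b h => by
    simp only at h
    omega
  have key := hinj.tsum_eq (f := fun m : ℤ => g ((m + j + e).toNat)) ?_
  · rw [← key]
    congr 1
    funext w
    congr 1
    omega
  · intro m hm
    rw [Function.mem_support] at hm
    have h1 : 0 ≤ m + j + e := by
      by_contra hneg
      apply hm
      rw [Int.toNat_of_nonpos (by omega)]
      exact h0
    refine ⟨(m + j + e).toNat, ?_⟩
    simp only
    omega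

theorem EA_summable {θ : ℝ} (hA : 0 ≤ mA θ) (φ2 : ℕ → ℝ) (h2 : ∀ w, 0 ≤ φ2 w ∧ φ2 w ≤ 1)
    (W : ℤ) : Summable (fun e : ℕ => mA θ ^ e / (e.factorial : ℝ) *
      (if 1 ≤ W + e then φ2 (W + e).toNat * (W + e).toNat else 0)) := by
  have hs : Summable (fun e : ℕ => (|(W : ℝ)| + 1) * ((2 * mA θ) ^ e / (e.factorial : ℝ))) :=
    (Real.summable_pow_div_factorial _).mul_left _
  refine Summable.of_nonneg_of_le (fun e => ?_) (fun e => ?_) hs
  · refine mul_nonneg (by positivity) ?_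
    split
    · exact mul_nonneg (h2 _).1 (by positivity)
    · exact le_rfl
  · have hb : (if 1 ≤ W + e then φ2 (W + e).toNat * ((W + e).toNat : ℝ) else 0) ≤
        (|(W : ℝ)| + 1) * 2 ^ e := by
      split
      · rename_i h
        have h3 : ((W + e).toNat : ℝ) = W + e := by
          have : (((W + e).toNat : ℤ) : ℝ) = ((W + e : ℤ) : ℝ) := by
            rw [Int.toNat_of_nonneg (by omega)]
          push_cast at this
          exact this
        have h4 : (e : ℝ) + 1 ≤ 2 ^ e := by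
          have := Nat.lt_two_pow_self (n := e)
          have h5 : e + 1 ≤ 2 ^ e := this
          exact_mod_cast h5
        have h6 : φ2 (W + e).toNat * ((W + e).toNat : ℝ) ≤ 1 * ((W + e).toNat : ℝ) :=
          mul_le_mul_of_nonneg_right (h2 _).2 (by positivity)
        have h7 : (W : ℝ) ≤ |(W : ℝ)| := le_abs_self _
        have h8 : 0 ≤ |(W : ℝ)| := abs_nonneg _
        have h9 : (0 : ℝ) ≤ e := Nat.cast_nonneg e
        rw [one_mul, h3] at h6
        rw [h3]
        have h10 : |(W : ℝ)| * 1 ≤ |(W : ℝ)| * 2 ^ e :=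
          mul_le_mul_of_nonneg_left (by linarith) h8
        linarith
      · positivity
    calc _ ≤ mA θ ^ e / (e.factorial : ℝ) * ((|(W : ℝ)| + 1) * 2 ^ e) :=
          mul_le_mul_of_nonneg_left hb (by positivity)
      _ = _ := by rw [mul_pow]; ring

theorem EA_nonneg' {θ : ℝ} (hA : 0 ≤ mA θ) (φ2 : ℕ → ℝ) (h2 : ∀ w, 0 ≤ φ2 w ∧ φ2 w ≤ 1)
    (W : ℤ) : 0 ≤ EA θ (fun w => φ2 w * w) W := by
  unfold EA
  refine tsum_nonneg fun e => mul_nonneg (by positivity) ?_
  split
  · exact mul_nonneg (h2 _).1 (by positivity)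
  · exact le_rfl

theorem inner_sum {θ : ℝ} (hA : 0 ≤ mA θ) (φ2 : ℕ → ℝ) (h2 : ∀ w, 0 ≤ φ2 w ∧ φ2 w ≤ 1)
    (S j c : ℕ) {l : ℝ} (hl : 0 ≤ l) :
    ∑' w : ℕ, ENNReal.ofReal (if 1 ≤ w then φ2 w * w * zz ^ w else 0) *
      ∑' e : ℕ, ENNReal.ofReal ((Real.log 2 * mA θ) ^ e / (e.factorial : ℝ) *
        FF S (2 ^ e * ((2 : ℝ) ^ (-θ - w - c) * l))) =
    ∑' m : ℤ, ENNReal.ofReal (zz ^ ((j : ℤ) + m) *
      FF S ((2 : ℝ) ^ (-(m + θ) - (j + c)) * l) * EA θ (fun w => φ2 w * w) (m + j)) := by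
  have hz := zz_pos
  simp_rw [← ENNReal.tsum_mul_left]
  rw [ENNReal.tsum_comm]
  have step : ∀ e : ℕ, ∑' w : ℕ, ENNReal.ofReal (if 1 ≤ w then φ2 w * w * zz ^ w else 0) *
      ENNReal.ofReal ((Real.log 2 * mA θ) ^ e / (e.factorial : ℝ) *
        FF S (2 ^ e * ((2 : ℝ) ^ (-θ - w - c) * l))) =
      ∑' m : ℤ, ENNReal.ofReal (zz ^ ((j : ℤ) + m) *
        FF S ((2 : ℝ) ^ (-(m + θ) - (j + c)) * l) * (mA θ ^ e / (e.factorial : ℝ) *
        (if 1 ≤ m + j + e then φ2 (m + j + e).toNat * (m + j + e).toNat else 0))) := by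
    intro e
    rw [shift j e (fun w : ℕ => ENNReal.ofReal (if 1 ≤ w then φ2 w * w * zz ^ w else 0) *
      ENNReal.ofReal ((Real.log 2 * mA θ) ^ e / (e.factorial : ℝ) *
        FF S (2 ^ e * ((2 : ℝ) ^ (-θ - w - c) * l)))) (by simp)]
    congr 1
    funext m
    by_cases h : 1 ≤ m + j + e
    · have h1 : 1 ≤ (m + j + e).toNat := by omega
      have hw : ((m + j + e).toNat : ℤ) = m + j + e := Int.toNat_of_nonneg (by omega)
      have hwR : ((m + j + e).toNat : ℝ) = m + j + e := by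
        have : (((m + j + e).toNat : ℤ) : ℝ) = ((m + j + e : ℤ) : ℝ) := by rw [hw]
        push_cast at this
        exact this
      rw [if_pos h, if_pos h1, ← ENNReal.ofReal_mul
        (mul_nonneg (mul_nonneg (h2 _).1 (by positivity)) (by positivity))]
      congr 1
      have e1 : (2 : ℝ) ^ e * ((2 : ℝ) ^ (-θ - ((m + j + e).toNat : ℝ) - c) * l) =
          (2 : ℝ) ^ (-(m + θ) - (j + c)) * l := by
        rw [← mul_assoc]
        congr 1
        rw [← Real.rpow_natCast (2 : ℝ) e, ← Real.rpow_add (by norm_num : (0 : ℝ) < 2), hwR]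
        congr 1
        ring
      have e2 : zz ^ ((m + j + e).toNat) = zz ^ ((j : ℤ) + m) * zz ^ e := by
        rw [← zpow_natCast zz, hw, ← zpow_natCast zz e, ← zpow_add₀ hz.ne']
        congr 1
        ring
      have e3 : (Real.log 2 * mA θ) ^ e * zz ^ e = mA θ ^ e := by
        rw [← mul_pow]
        congr 1
        have := log_zz
        linear_combination (mA θ) * this
      rw [e1, e2]
      calc _ = φ2 (m + j + e).toNat * ((m + j + e).toNat : ℝ) * zz ^ ((j : ℤ) + m) *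
          (((Real.log 2 * mA θ) ^ e * zz ^ e) / (e.factorial : ℝ)) *
          FF S ((2 : ℝ) ^ (-(m + θ) - (j + c)) * l) := by ring
        _ = _ := by rw [e3]; ring
    · have h1 : ¬ 1 ≤ (m + j + e).toNat := by omega
      rw [if_neg h, if_neg h1]
      simp
  rw [tsum_congr step, ENNReal.tsum_comm]
  congr 1
  funext m
  have hF : 0 ≤ zz ^ ((j : ℤ) + m) * FF S ((2 : ℝ) ^ (-(m + θ) - (j + c)) * l) :=
    mul_nonneg (by positivity) (FF_nonneg S (by positivity))
  rw [← ENNReal.ofReal_tsum_of_nonneg]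
  · rw [tsum_mul_left]
    rfl
  · intro e
    refine mul_nonneg hF (mul_nonneg (by positivity) ?_)
    split
    · exact mul_nonneg (h2 _).1 (by positivity)
    · exact le_rfl
  · exact (EA_summable hA φ2 h2 (m + j)).mul_left _

theorem EC_nonneg' (K b : ℕ) (ψ : ℕ → ℝ) (h : ∀ x, 0 ≤ ψ x) (Z : ℤ) : 0 ≤ EC K b ψ Z := by
  unfold EC
  refine Finset.sum_nonneg fun B _ => mul_nonneg (Finset.prod_nonneg fun p _ => wz_nonneg K p) ?_
  split
  · exact h _
  · exact le_rfl

end Red

open Red in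
theorem red (k S : ℕ) {θ : ℝ} (ht1 : (mm : ℝ) + 1 ≤ θ) (ht2 : θ ≤ mm + 2) (φ1 φ2 : ℕ → ℝ)
    (h1 : ∀ x, 0 ≤ φ1 x ∧ φ1 x ≤ 1) (h2 : ∀ w, 0 ≤ φ2 w ∧ φ2 w ≤ 1) (f : ℕ)
    (hf : Sm (bb k) f) :
    ENNReal.ofReal (UL (k + mm) (S + ss) S (bb k) θ (fun x w => φ1 x * φ2 w) f) =
    ENNReal.ofReal (kU k S θ) * ∑ B ∈ (Nat.primesLE (bb k)).powerset, ∑' m : ℤ,
      ENNReal.ofReal (tb k S θ f B m *
        EC (k + mm) (bb k) (fun x => φ1 x * hg x) (((k + mm : ℕ) : ℤ) - B.card) *
        EA θ (fun w => φ2 w * w) (m + f.primeFactors.card)) := by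
  have hz := zz_pos
  have hA := mA_nonneg ht1
  have hf1 : 1 ≤ f := Nat.one_le_iff_ne_zero.2 hf.1
  rw [lab_bot (k + mm) (S + ss) S (bb k) θ φ1 φ2 h1 h2 f hf1]
  set K := k + mm with hK
  set b := bb k with hb
  set j := f.primeFactors.card with hj
  set c0 : ℝ := (zz / Real.exp 1) ^ (S + ss) *
      ((2 : ℝ) ^ ((ss : ℝ) - θ + 1 / 2) * Real.exp (-Mer)) with hc0
  have hc0n : 0 ≤ c0 := by positivity
  -- the sum over the heights and the top block
  have hin : ∀ B : Finset ℕ,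
      (∑' w : ℕ, ENNReal.ofReal (if 1 ≤ w then φ2 w * w * zz ^ w else 0) *
        ∑' ν : Fin (S + ss) → ℕ, ENNReal.ofReal (wt ν * zz ^ (X ν (S + ss)) *
          EB S θ ν ((2 : ℝ) ^ (-θ - w - B.card) * LL (f * ∏ p ∈ B, p)))) =
      ENNReal.ofReal c0 * ∑' m : ℤ, ENNReal.ofReal (zz ^ ((j : ℤ) + m) *
        FF S ((2 : ℝ) ^ (-(m + θ) - (j + B.card)) * LL (f * ∏ p ∈ B, p)) *
        EA θ (fun w => φ2 w * w) (m + j)) := by
    intro B
    rw [← inner_sum hA φ2 h2 S j B.card (LL_nonneg _), ← ENNReal.tsum_mul_left]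
    congr 1
    funext w
    rw [top_red S ht1 ht2 (mul_nonneg (by positivity) (LL_nonneg _))]
    exact mul_left_comm _ _ _
  set I : Finset ℕ → ENNReal := fun B => ∑' m : ℤ, ENNReal.ofReal (zz ^ ((j : ℤ) + m) *
        FF S ((2 : ℝ) ^ (-(m + θ) - (j + B.card)) * LL (f * ∏ p ∈ B, p)) *
        EA θ (fun w => φ2 w * w) (m + j)) with hI
  have hkU : ENNReal.ofReal (kU k S θ) =
      ENNReal.ofReal (Real.exp (-(K : ℝ))) * ENNReal.ofReal c0 := by
    rw [← ENNReal.ofReal_mul (Real.exp_pos _).le]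
    rfl
  set a : Finset ℕ → ℝ := fun B => (∏ p ∈ B, wz K p) * ind (∀ p ∈ B, ¬ p ∣ f) *
    EC K b (fun x => φ1 x * hg x) ((K : ℤ) - B.card) with ha
  have hψ : ∀ x, 0 ≤ φ1 x * hg x := fun x => mul_nonneg (h1 x).1 (hg_nonneg x)
  -- the sum over the large primes of the bottom block
  have hsplit : ∀ B1 ∈ ((range (bd K)).filter (· ≤ b)).powerset,
      ∑ B2 ∈ ((range (bd K)).filter (fun p => b < p)).powerset,
        ENNReal.ofReal ((∏ p ∈ B1 ∪ B2, wz K p) *
        ind (∀ p ∈ B1 ∪ B2, ¬ p ∣ f) *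
        (if 1 ≤ (K : ℤ) - (B1 ∪ B2).card then
          φ1 (K - (B1 ∪ B2).card) * hg (K - (B1 ∪ B2).card) else 0)) =
      ENNReal.ofReal (a B1) := by
    intro B1 hB1
    rw [Finset.mem_powerset] at hB1
    have hB1' : ∀ p ∈ B1, p ≤ b := fun p hp => (Finset.mem_filter.1 (hB1 hp)).2
    have hterm : ∀ B2 ∈ ((range (bd K)).filter (fun p => b < p)).powerset,
        ENNReal.ofReal ((∏ p ∈ B1 ∪ B2, wz K p) *
        ind (∀ p ∈ B1 ∪ B2, ¬ p ∣ f) *
        (if 1 ≤ (K : ℤ) - (B1 ∪ B2).card then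
          φ1 (K - (B1 ∪ B2).card) * hg (K - (B1 ∪ B2).card) else 0)) =
        ENNReal.ofReal (((∏ p ∈ B1, wz K p) * ind (∀ p ∈ B1, ¬ p ∣ f)) *
          ((∏ p ∈ B2, wz K p) *
          (if 1 ≤ (K : ℤ) - B1.card - B2.card then
            φ1 ((K : ℤ) - B1.card - B2.card).toNat *
              hg ((K : ℤ) - B1.card - B2.card).toNat else 0))) := by
      intro B2 hB2
      rw [Finset.mem_powerset] at hB2
      have hB2' : ∀ p ∈ B2, b < p := fun p hp => (Finset.mem_filter.1 (hB2 hp)).2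
      have hd := disj hB1' hB2'
      congr 1
      rw [Finset.prod_union hd, Finset.card_union_of_disjoint hd]
      by_cases hp : ∃ p ∈ B2, ¬ p.Prime
      · obtain ⟨p, hp, hp'⟩ := hp
        rw [Finset.prod_eq_zero hp (wz_not_prime K hp')]
        ring
      · push Not at hp
        have hind : ind (∀ p ∈ B1 ∪ B2, ¬ p ∣ f) = ind (∀ p ∈ B1, ¬ p ∣ f) := by
          refine ind_congr ⟨fun h p hp1 => h p (Finset.mem_union_left _ hp1), fun h p hp1 => ?_⟩
          rcases Finset.mem_union.1 hp1 with h3 | h3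
          · exact h p h3
          · intro hdvd
            have h4 := hf.2 p (hp p h3) hdvd
            have h5 := hB2' p h3
            omega
        rw [hind]
        have hc : ((K : ℤ) - ((B1.card + B2.card : ℕ) : ℤ)) = (K : ℤ) - B1.card - B2.card := by
          push_cast
          ring
        rw [hc]
        split
        · have hn : ((K : ℤ) - B1.card - B2.card).toNat = K - (B1.card + B2.card) := by omega
          rw [hn]
          ring
        · ring
    rw [Finset.sum_congr rfl hterm, ← ENNReal.ofReal_sum_of_nonneg, ← Finset.mul_sum]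
    · rfl
    · intro B2 _
      refine mul_nonneg (mul_nonneg (Finset.prod_nonneg fun p _ => wz_nonneg K p)
        (ind_nonneg _)) (mul_nonneg (Finset.prod_nonneg fun p _ => wz_nonneg K p) ?_)
      split
      · exact hψ _
      · exact le_rfl
  -- restriction to the primes
  have ha0 : ∀ B : Finset ℕ, (∃ p ∈ B, ¬ (p.Prime ∧ p < bd K)) → a B = 0 := by
    rintro B ⟨p, hp, hp'⟩
    have hw : wz K p = 0 := by
      by_cases hpp : p.Prime
      · exact wz_bd (not_lt.1 fun h => hp' ⟨hpp, h⟩)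
      · exact wz_not_prime K hpp
    simp only [ha]
    rw [Finset.prod_eq_zero hp hw]
    ring
  set C : Finset ℕ := (Nat.primesLE b).filter (· < bd K) with hC
  have hs1 : ∑ B1 ∈ ((range (bd K)).filter (· ≤ b)).powerset, ENNReal.ofReal (a B1) * I B1 =
      ∑ B1 ∈ C.powerset, ENNReal.ofReal (a B1) * I B1 := by
    symm
    refine Finset.sum_subset ?_ ?_
    · rw [Finset.powerset_mono]
      intro p hp
      rw [hC, Finset.mem_filter, Nat.mem_primesLE] at hp
      rw [Finset.mem_filter, Finset.mem_range]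
      exact ⟨hp.2, hp.1.1⟩
    · intro B hB hB'
      rw [Finset.mem_powerset] at hB hB'
      rw [Finset.not_subset] at hB'
      obtain ⟨p, hp, hpC⟩ := hB'
      rw [ha0 B ⟨p, hp, fun h => hpC ?_⟩]
      · simp
      · rw [hC, Finset.mem_filter, Nat.mem_primesLE]
        exact ⟨⟨(Finset.mem_filter.1 (hB hp)).2, h.1⟩, h.2⟩
  have hs2 : ∑ B1 ∈ (Nat.primesLE b).powerset, ENNReal.ofReal (a B1) * I B1 =
      ∑ B1 ∈ C.powerset, ENNReal.ofReal (a B1) * I B1 := by
    symm
    refine Finset.sum_subset ?_ ?_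
    · rw [Finset.powerset_mono]
      exact Finset.filter_subset _ _
    · intro B hB hB'
      rw [Finset.mem_powerset] at hB hB'
      rw [Finset.not_subset] at hB'
      obtain ⟨p, hp, hpC⟩ := hB'
      rw [ha0 B ⟨p, hp, fun h => hpC ?_⟩]
      · simp
      · rw [hC, Finset.mem_filter]
        exact ⟨hB hp, h.2⟩
  -- the final form of one term
  have hfin : ∀ B : Finset ℕ, ENNReal.ofReal (a B) * I B =
      ∑' m : ℤ, ENNReal.ofReal (tb k S θ f B m *
        EC K b (fun x => φ1 x * hg x) ((K : ℤ) - B.card) *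
        EA θ (fun w => φ2 w * w) (m + j)) := by
    intro B
    have haB : 0 ≤ a B := mul_nonneg (mul_nonneg (Finset.prod_nonneg fun p _ => wz_nonneg K p)
      (ind_nonneg _)) (EC_nonneg' K b _ hψ _)
    simp only [hI]
    rw [← ENNReal.tsum_mul_left]
    congr 1
    funext m
    rw [← ENNReal.ofReal_mul haB]
    congr 1
    simp only [ha, tb]
    rw [Finset.prod_mul_distrib, Finset.prod_const]
    have e1 : zz ^ ((j : ℤ) + B.card + m) = zz ^ ((j : ℤ) + m) * zz ^ B.card := by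
      rw [← zpow_natCast zz B.card, ← zpow_add₀ hz.ne']
      congr 1
      ring
    have e2 : Real.log 2 ^ B.card * zz ^ B.card = 1 := by
      rw [← mul_pow, log_zz, one_pow]
    rw [e1]
    linear_combination (-(∏ p ∈ B, wz K p) * ind (∀ p ∈ B, ¬ p ∣ f) *
      EC K b (fun x => φ1 x * hg x) ((K : ℤ) - B.card) * zz ^ ((j : ℤ) + m) *
      FF S ((2 : ℝ) ^ (-(m + θ) - (j + B.card)) * LL (f * ∏ p ∈ B, p)) *
      EA θ (fun w => φ2 w * w) (m + j)) * e2
  rw [hkU, mul_assoc]
  congr 1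
  calc _ = ∑ B ∈ (range (bd K)).powerset, ENNReal.ofReal ((∏ p ∈ B, wz K p) *
        ind (∀ p ∈ B, ¬ p ∣ f) *
        (if 1 ≤ (K : ℤ) - B.card then φ1 (K - B.card) * hg (K - B.card) else 0)) *
        (ENNReal.ofReal c0 * I (B.filter (· ≤ b))) := by
        refine Finset.sum_congr rfl fun B _ => ?_
        rw [hin (B.filter (· ≤ b))]
    _ = ENNReal.ofReal c0 * ∑ B ∈ (range (bd K)).powerset, ENNReal.ofReal ((∏ p ∈ B, wz K p) *
        ind (∀ p ∈ B, ¬ p ∣ f) *
        (if 1 ≤ (K : ℤ) - B.card then φ1 (K - B.card) * hg (K - B.card) else 0)) *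
        I (B.filter (· ≤ b)) := by
        rw [Finset.mul_sum]
        refine Finset.sum_congr rfl fun B _ => ?_
        ring
    _ = ENNReal.ofReal c0 * ∑ B1 ∈ ((range (bd K)).filter (· ≤ b)).powerset,
        ENNReal.ofReal (a B1) * I B1 := by
        rw [sum_split (range (bd K)) b]
        congr 1
        refine Finset.sum_congr rfl fun B1 hB1 => ?_
        rw [← hsplit B1 hB1, Finset.sum_mul]
        refine Finset.sum_congr rfl fun B2 hB2 => ?_
        rw [Finset.mem_powerset] at hB1 hB2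
        rw [filter_union_le (fun p hp => (Finset.mem_filter.1 (hB1 hp)).2)
          (fun p hp => (Finset.mem_filter.1 (hB2 hp)).2)]
    _ = _ := by
        rw [hs1, ← hs2]
        congr 1
        exact Finset.sum_congr rfl fun B _ => hfin B

end Pool.Agent.EN2
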