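import Mathlib
import Pool.Agent.Lib.MP_ec0ede_nt_EN2.Defs
import Pool.Agent.Lib.MP_ec0ede_nt_EN.EpsB
import Pool.Agent.Lib.MP_ec0ede_nt_EN.WfT
import Pool.Agent.Lib.MP_ec0ede_nt_EN.LawA
import Pool.Agent.Lib.MP_ec0ede_nt_EN2.Rng

set_option autoImplicit false

noncomputable section

namespace Pool.Agent.EN2

open Real Filter Topology Finset Pool.Agent.EN

namespace SplE

theorem wz_nonneg (K p : ℕ) : 0 ≤ wz K p := Finset.sum_nonneg fun j _ => mu_nonneg j p

theorem part {k p : ℕ} (hp : p.Prime) (h : p ≤ bb k) :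
    Real.log 2 * wz (k + mm) p + Real.log 2 * mu 0 p = 1 / p := by
  have h1 : G p ≤ ((k + mm : ℕ) : ℝ) * Real.log 2 := (G_mono h).trans (G_bb k)
  have h2 := mu_part hp h1
  have h3 : ∑ j ∈ range (k + mm + 1), mu j p = mu 0 p + wz (k + mm) p := by
    rw [Finset.sum_range_eq_add_Ico _ (Nat.succ_pos _)]
    unfold wz
    congr 1
  rw [h3, mul_add] at h2
  linarith

/-- the sum over the multiples of the product of `B` -/
theorem tsum_B (N : ℕ) (w1 : ℕ → ℝ) (B : Finset ℕ) (hB : B ⊆ Nat.primesLE N) (F : ℕ → ENNReal) :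
    ∑' n, ENNReal.ofReal (EpsB.term N w1 (fun _ => 1) B n) * F n =
      ∑' f, ENNReal.ofReal (ind (Sm N f) * wf f * (∏ p ∈ B, w1 p) *
        ind (∀ p ∈ B, ¬ p ∣ f)) * F (f * ∏ p ∈ B, p) := by
  have hBp : ∀ p ∈ B, p.Prime := fun p hp => (Nat.mem_primesLE.1 (hB hp)).2
  have hb := EpsB.prod_pos' B hBp
  have hinj : Function.Injective fun f : ℕ => f * ∏ q ∈ B, q :=
    mul_left_injective₀ hb
  rw [← hinj.tsum_eq (f := fun n => ENNReal.ofReal (EpsB.term N w1 (fun _ => 1) B n) * F n)]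
  · refine tsum_congr fun f => ?_
    rw [EpsB.term_mul N w1 (fun _ => 1) B hB f]
    congr 2
    ring
  · intro n hn
    rw [Function.mem_support] at hn
    have hn2 : ∀ p ∈ B, n.factorization p = 1 := by
      by_contra hcon
      apply hn
      have h1 : EpsB.term N w1 (fun _ => 1) B n = 0 := by
        unfold EpsB.term
        rw [ind_not_of hcon]
        simp
      rw [h1, ENNReal.ofReal_zero, zero_mul]
    have hdvd : (∏ q ∈ B, q) ∣ n := by
      apply Finset.prod_primes_dvd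
      · exact fun p hp => (hBp p hp).prime
      · intro p hp
        apply Nat.dvd_of_factorization_pos
        rw [hn2 p hp]
        exact one_ne_zero
    obtain ⟨f, rfl⟩ := hdvd
    exact ⟨f, mul_comm _ _⟩

end SplE

theorem smooth_splitE (k : ℕ) (F : ℕ → ENNReal) :
    ∑' n : ℕ, ENNReal.ofReal (ind (Sm (bb k) n) / n) * F n =
      ∑' f : ℕ, ∑ B ∈ (Nat.primesLE (bb k)).powerset,
        ENNReal.ofReal (ind (Sm (bb k) f) * wf f * (∏ p ∈ B, (Real.log 2 * wz (k + mm) p)) *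
          ind (∀ p ∈ B, ¬ p ∣ f)) * F (f * ∏ p ∈ B, p) := by
  have hl : 0 < Real.log 2 := Real.log_pos (by norm_num)
  set w1 : ℕ → ℝ := fun p => Real.log 2 * wz (k + mm) p with hw1
  have h0 : ∀ p, 0 ≤ w1 p := fun p => mul_nonneg hl.le (SplE.wz_nonneg _ _)
  have h : ∀ p, p.Prime → p ≤ bb k → w1 p + Real.log 2 * mu 0 p = 1 / p :=
    fun p hp hpk => SplE.part hp hpk
  calc ∑' n : ℕ, ENNReal.ofReal (ind (Sm (bb k) n) / n) * F n
      = ∑' n : ℕ, ∑ B ∈ (Nat.primesLE (bb k)).powerset,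
          ENNReal.ofReal (EpsB.term (bb k) w1 (fun _ => 1) B n) * F n := by
        refine tsum_congr fun n => ?_
        rw [← Finset.sum_mul, ← ENNReal.ofReal_sum_of_nonneg fun B _ =>
          EpsB.term_nonneg (bb k) w1 (fun _ => 1) h0 (fun _ => zero_le_one) B n,
          EpsB.sum_term (bb k) w1 (fun _ => 1) h n, mul_one]
    _ = ∑ B ∈ (Nat.primesLE (bb k)).powerset, ∑' n : ℕ,
          ENNReal.ofReal (EpsB.term (bb k) w1 (fun _ => 1) B n) * F n :=
        Summable.tsum_finsetSum fun _ _ => ENNReal.summable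
    _ = ∑ B ∈ (Nat.primesLE (bb k)).powerset, ∑' f, ENNReal.ofReal (ind (Sm (bb k) f) * wf f *
          (∏ p ∈ B, w1 p) * ind (∀ p ∈ B, ¬ p ∣ f)) * F (f * ∏ p ∈ B, p) :=
        Finset.sum_congr rfl fun B hB => SplE.tsum_B (bb k) w1 B (Finset.mem_powerset.1 hB) F
    _ = _ := (Summable.tsum_finsetSum fun _ _ => ENNReal.summable).symm

end Pool.Agent.EN2
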