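import Mathlib
import Pool.Agent.Lib.MP_ec0ede_nt_EN2.Defs
import Pool.Agent.Lib.MP_ec0ede_nt_EN.WfT
import Pool.Agent.Lib.MP_ec0ede_nt_EN.ZBd
import Pool.Agent.Lib.MP_ec0ede_nt_EN2.StE
import Pool.Agent.Lib.MP_ec0ede_nt_EN2.MP2

set_option autoImplicit false

/-!
# MP_ec0ede_nt, project EN2: bounds for `UL` (module ULb)
-/

noncomputable section

namespace Pool.Agent.EN2

open Real Filter Topology Finset Pool.Agent.EN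

namespace ULb

/-- the bounds for `ZS` pass to the limit -/
theorem lim_le (K s S b f : ℕ) (φ : ℕ → ℕ → ℝ) (hφ : ∀ x w, 0 ≤ φ x w ∧ φ x w ≤ 1)
    (θ B : ℝ) (h1 : (mm : ℝ) + 1 ≤ θ) (h2 : θ ≤ mm + 2)
    (h : ∃ n0 : ℕ, ∀ n ≥ n0,
      ZS (K + (n + s)) (fun ν => ind (md K n ν) * φ (X ν K).toNat (X ν (K + n)).toNat *
        PrD f K n s S b ((2 : ℝ) ^ (((K + n : ℕ) : ℝ) + θ)) (lo ν) (cnt (lo (hi ν)) n)
          (hi (hi ν))) ≤ B / (((K + (n + s) : ℕ) : ℝ) + 1) ^ (3 / 2 : ℝ)) :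
    UL K s S b θ φ f ≤ B := by
  refine le_of_forall_pos_le_add fun ε hε => ?_
  obtain ⟨n0, hn0⟩ := h
  obtain ⟨n1, hn1⟩ := mp2 K s S b f φ hφ hε
  have h3 := hn0 (max n0 n1) (le_max_left _ _)
  have h4 := hn1 (max n0 n1) (le_max_right _ _) θ h1 h2
  have h5 : (0 : ℝ) < (((K + (max n0 n1 + s) : ℕ) : ℝ) + 1) ^ (3 / 2 : ℝ) := by positivity
  rw [le_div_iff₀ h5] at h3
  rw [abs_le] at h4
  have h6 := h4.1
  rw [mul_comm] at h3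
  linarith

theorem one_div_bd (x : ℕ) : 0 ≤ 1 / (x : ℝ) ∧ 1 / (x : ℝ) ≤ 1 :=
  ⟨by positivity, WfT.inv_le_one x⟩

theorem u_lo (k n : ℕ) {θ : ℝ} (h1 : (mm : ℝ) + 1 ≤ θ) :
    (2 : ℝ) ^ (k + mm + n + mm + 1) ≤ (2 : ℝ) ^ (((k + mm + n : ℕ) : ℝ) + θ) := by
  rw [← Real.rpow_natCast]
  apply Real.rpow_le_rpow_of_exponent_le one_le_two
  push_cast
  linarith

theorem u_hi (k n : ℕ) {θ : ℝ} (h2 : θ ≤ (mm : ℝ) + 2) :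
    (2 : ℝ) ^ (((k + mm + n : ℕ) : ℝ) + θ) ≤ (2 : ℝ) ^ (k + mm + n + mm + 2) := by
  rw [← Real.rpow_natCast]
  apply Real.rpow_le_rpow_of_exponent_le one_le_two
  push_cast
  linarith

end ULb

theorem UL_nonneg (K s S b : ℕ) (θ : ℝ) (φ : ℕ → ℕ → ℝ) (hφ : ∀ x w, 0 ≤ φ x w ∧ φ x w ≤ 1)
    (f : ℕ) : 0 ≤ UL K s S b θ φ f :=
  tsum_nonneg fun i => ul_nonneg K s S b θ φ hφ f i

theorem UL_le : ∃ C : ℝ, 0 < C ∧ ∀ (k S f : ℕ) (θ : ℝ), 1 ≤ f → 1 ≤ S → (mm : ℝ) + 1 ≤ θ →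
    θ ≤ mm + 2 → UL (k + mm) (S + ss) S (bb k) θ (fun _ _ => 1) f ≤ C * f.divisors.card := by
  obtain ⟨C, hC, h⟩ := st_T
  refine ⟨C, hC, fun k S f θ hf hS h1 h2 => ?_⟩
  refine ULb.lim_le _ _ _ _ _ _ (fun _ _ => ⟨zero_le_one, le_refl _⟩) θ _ h1 h2 ⟨0, fun n _ => ?_⟩
  have h3 := h k n S f _ hf hS (ULb.u_lo k n h1) (ULb.u_hi k n h2)
  simpa only [mul_one] using h3

theorem UL_small1 (F0 : ℕ) {ε : ℝ} (hε : 0 < ε) : ∃ K0 : ℕ, ∀ k S : ℕ, K0 ≤ k → 1 ≤ S →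
    ∀ f ∈ Icc 1 F0, ∀ θ : ℝ, (mm : ℝ) + 1 ≤ θ → θ ≤ mm + 2 →
    UL (k + mm) (S + ss) S (bb k) θ (fun x _ => 1 / (x : ℝ)) f ≤ ε := by
  obtain ⟨K0, h⟩ := st_S1 F0 hε
  refine ⟨K0, fun k S hk hS f hf θ h1 h2 => ?_⟩
  obtain ⟨n0, h0⟩ := h k S hk hS
  exact ULb.lim_le _ _ _ _ _ _ (fun x _ => ULb.one_div_bd x) θ _ h1 h2 ⟨n0, fun n hn =>
    h0 n hn f hf _ (ULb.u_lo k n h1) (ULb.u_hi k n h2)⟩

theorem UL_small2 (F0 : ℕ) {ε : ℝ} (hε : 0 < ε) : ∃ S0 : ℕ, ∀ k S : ℕ, S0 ≤ S → 1 ≤ S →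
    ∀ f ∈ Icc 1 F0, ∀ θ : ℝ, (mm : ℝ) + 1 ≤ θ → θ ≤ mm + 2 →
    UL (k + mm) (S + ss) S (bb k) θ (fun _ w => 1 / (w : ℝ)) f ≤ ε := by
  obtain ⟨S0, h⟩ := st_S2 F0 hε
  refine ⟨S0, fun k S hk hS f hf θ h1 h2 => ?_⟩
  obtain ⟨n0, h0⟩ := h k S hk hS
  exact ULb.lim_le _ _ _ _ _ _ (fun _ w => ULb.one_div_bd w) θ _ h1 h2 ⟨n0, fun n hn =>
    h0 n hn f hf _ (ULb.u_lo k n h1) (ULb.u_hi k n h2)⟩

theorem tail_wf {ε : ℝ} (hε : 0 < ε) : ∃ F00 : ℕ, ∀ F0 ≥ F00,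
    ∑' f : ℕ, (if F0 < f then wf f * f.divisors.card else 0) ≤ ε := by
  set T : ℝ := ∑' f : ℕ, wf f * f.divisors.card * (f : ℝ) ^ (1 / 8 : ℝ) with hT
  have hT0 : 0 ≤ T := tsum_nonneg fun f => WfT.F_nonneg f
  have h1 : Tendsto (fun F0 : ℕ => T * ((F0 : ℝ) + 1) ^ (-(1 / 8) : ℝ)) atTop (𝓝 (T * 0)) := by
    apply Tendsto.const_mul
    have h2 : Tendsto (fun F0 : ℕ => (F0 : ℝ) + 1) atTop atTop :=
      tendsto_atTop_add_const_right _ _ tendsto_natCast_atTop_atTop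
    exact (tendsto_rpow_neg_atTop (by norm_num : (0 : ℝ) < 1 / 8)).comp h2
  rw [mul_zero] at h1
  obtain ⟨F00, h2⟩ := eventually_atTop.1 (h1.eventually (ge_mem_nhds hε))
  refine ⟨F00, fun F0 hF0 => le_trans ?_ (h2 F0 hF0)⟩
  rw [hT, mul_comm, ← tsum_mul_left]
  have hs : Summable (fun f : ℕ => ((F0 : ℝ) + 1) ^ (-(1 / 8) : ℝ) *
      (wf f * f.divisors.card * (f : ℝ) ^ (1 / 8 : ℝ))) := wf_sum.mul_left _
  have hle : ∀ f : ℕ, (if F0 < f then wf f * f.divisors.card else 0) ≤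
      ((F0 : ℝ) + 1) ^ (-(1 / 8) : ℝ) * (wf f * f.divisors.card * (f : ℝ) ^ (1 / 8 : ℝ)) := by
    intro f
    have hw := wf_nonneg f
    split_ifs with hf
    · have h3 : (0 : ℝ) < (F0 : ℝ) + 1 := by positivity
      have h4 : ((F0 : ℝ) + 1) ≤ f := by exact_mod_cast hf
      have h5 : ((F0 : ℝ) + 1) ^ (1 / 8 : ℝ) ≤ (f : ℝ) ^ (1 / 8 : ℝ) :=
        Real.rpow_le_rpow h3.le h4 (by norm_num)
      have h6 : (1 : ℝ) ≤ ((F0 : ℝ) + 1) ^ (-(1 / 8) : ℝ) * (f : ℝ) ^ (1 / 8 : ℝ) := by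
        rw [Real.rpow_neg h3.le, inv_mul_eq_div, one_le_div (Real.rpow_pos_of_pos h3 _)]
        exact h5
      have h7 : 0 ≤ wf f * (f.divisors.card : ℝ) := by positivity
      calc wf f * (f.divisors.card : ℝ) = (wf f * (f.divisors.card : ℝ)) * 1 := (mul_one _).symm
        _ ≤ (wf f * (f.divisors.card : ℝ)) *
            (((F0 : ℝ) + 1) ^ (-(1 / 8) : ℝ) * (f : ℝ) ^ (1 / 8 : ℝ)) :=
            mul_le_mul_of_nonneg_left h6 h7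
        _ = _ := by ring
    · positivity
  refine Summable.tsum_le_tsum hle ?_ hs
  refine Summable.of_nonneg_of_le (fun f => ?_) hle hs
  have hw := wf_nonneg f
  split_ifs
  · positivity
  · exact le_refl _

end Pool.Agent.EN2
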