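import Mathlib
import Pool.Agent.Lib.MP_ec0ede_nt_EN2.Defs
import Pool.Agent.Lib.MP_ec0ede_nt_EN.EpsA
import Pool.Agent.Lib.MP_ec0ede_nt_EN.EpsB
import Pool.Agent.Lib.MP_ec0ede_nt_EN.WfT
import Pool.Agent.Lib.MP_ec0ede_nt_EN2.FFp
import Pool.Agent.Lib.MP_ec0ede_nt_EN2.Rng

set_option autoImplicit false

noncomputable section

namespace Pool.Agent.EN2

open Real Filter Topology Finset Pool.Agent.EN

/-- the inner sum of `Xi` -/
def xin (S a : ℕ) (t : ℝ) : ℝ := ∑' m : ℤ, max 0 (t + m) * zz ^ (t + m) *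
        FF S ((2 : ℝ) ^ (-(t + m) - a.primeFactors.card) * LL a)
theorem LL_nonneg (a : ℕ) : 0 ≤ LL a := ENNReal.toReal_nonneg

theorem LL_le (a : ℕ) : LL a ≤ a.divisors.card := by
  have hset : {t : ℝ | ∃ d ∈ a.divisors, Real.log d ≤ t ∧ t < Real.log d + Real.log 2} =
      ⋃ d ∈ a.divisors, Set.Ico (Real.log d) (Real.log d + Real.log 2) := by
    ext t
    simp only [Set.mem_ofPred_eq, Set.mem_iUnion, Set.mem_Ico, exists_prop]
  have h1 : MeasureTheory.volume
      (⋃ d ∈ a.divisors, Set.Ico (Real.log (d : ℝ)) (Real.log d + Real.log 2)) ≤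
      ∑ d ∈ a.divisors, MeasureTheory.volume
        (Set.Ico (Real.log (d : ℝ)) (Real.log d + Real.log 2)) :=
    MeasureTheory.measure_biUnion_finset_le _ _
  have h2 : ∑ d ∈ a.divisors, MeasureTheory.volume
      (Set.Ico (Real.log (d : ℝ)) (Real.log d + Real.log 2)) =
      ENNReal.ofReal (a.divisors.card * Real.log 2) := by
    simp only [Real.volume_Ico, add_sub_cancel_left, Finset.sum_const, nsmul_eq_mul]
    rw [ENNReal.ofReal_mul (by positivity), ENNReal.ofReal_natCast]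
  unfold LL vol
  rw [hset]
  have h3 := h1.trans (le_of_eq h2)
  have h4 := ENNReal.toReal_mono ENNReal.ofReal_ne_top h3
  rw [ENNReal.toReal_ofReal (by positivity)] at h4
  refine h4.trans ?_
  have h5 : Real.log 2 ≤ 1 := by
    have := Real.log_two_lt_d9
    linarith
  have h6 : (0 : ℝ) ≤ a.divisors.card := by positivity
  nlinarith

namespace XiF

/-- half of the exponential rate -/
def cc : ℝ := (Real.log 2 + Real.log (Real.log 2)) / 2

theorem cc_pos : 0 < cc := by
  unfold cc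
  have h0 := Real.log_two_gt_d9
  have h1 : Real.log 2 + Real.log (Real.log 2) = Real.log (2 * Real.log 2) := by
    rw [Real.log_mul (by norm_num) (by linarith)]
  rw [h1]
  have h2 : 0 < Real.log (2 * Real.log 2) := Real.log_pos (by linarith)
  linarith

theorem zz_pos : 0 < zz := by
  unfold zz
  have h0 := Real.log_two_gt_d9
  positivity

theorem one_le_zz : 1 ≤ zz := by
  unfold zz
  have h0 := Real.log_two_gt_d9
  have h1 := Real.log_two_lt_d9
  rw [le_div_iff₀ (by linarith)]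
  linarith

theorem zz_rpow (x : ℝ) : zz ^ x * (2 : ℝ) ^ (-x) = Real.exp (-(2 * cc * x)) := by
  have h0 := Real.log_two_gt_d9
  rw [Real.rpow_def_of_pos zz_pos, Real.rpow_def_of_pos (by norm_num : (0:ℝ) < 2),
    ← Real.exp_add]
  congr 1
  unfold zz cc
  rw [Real.log_div one_ne_zero (by linarith), Real.log_one]
  ring

/-- the function whose values at `t + m` are summed -/
def TT (S a : ℕ) (x : ℝ) : ℝ := max 0 x * zz ^ x *
  FF S ((2 : ℝ) ^ (-x - a.primeFactors.card) * LL a)

theorem arg_nonneg (a : ℕ) (x : ℝ) : 0 ≤ (2 : ℝ) ^ (-x - a.primeFactors.card) * LL a :=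
  mul_nonneg (by positivity) (LL_nonneg a)

theorem TT_nonneg (S a : ℕ) (x : ℝ) : 0 ≤ TT S a x := by
  unfold TT
  exact mul_nonneg (mul_nonneg (le_max_left _ _) (Real.rpow_nonneg zz_pos.le _))
    (FF_nonneg S (arg_nonneg a x))

theorem FF_le_lin (S : ℕ) {l : ℝ} (hl : 0 ≤ l) : FF S l ≤ 4 ^ S * l := by
  have h1 := FF_lip S hl (le_refl 0)
  rw [FF_zero, sub_zero, sub_zero, abs_of_nonneg hl] at h1
  exact (le_abs_self _).trans h1

theorem TT_le (S a : ℕ) (x : ℝ) :
    TT S a x ≤ 1 / cc * 4 ^ S * LL a * Real.exp (-(cc * |x|)) := by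
  have hc := cc_pos
  have hL := LL_nonneg a
  rcases le_or_gt x 0 with hx | hx
  · unfold TT
    rw [max_eq_left hx, zero_mul, zero_mul]
    positivity
  · have h1 : FF S ((2 : ℝ) ^ (-x - a.primeFactors.card) * LL a) ≤
        4 ^ S * ((2 : ℝ) ^ (-x) * LL a) := by
      refine (FF_le_lin S (arg_nonneg a x)).trans ?_
      have : (2 : ℝ) ^ (-x - a.primeFactors.card) ≤ (2 : ℝ) ^ (-x) :=
        Real.rpow_le_rpow_of_exponent_le (by norm_num) (by
          have : (0 : ℝ) ≤ a.primeFactors.card := by positivity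
          linarith)
      gcongr
    have h2 : TT S a x ≤ x * zz ^ x * (4 ^ S * ((2 : ℝ) ^ (-x) * LL a)) := by
      unfold TT
      rw [max_eq_right hx.le]
      have := Real.rpow_nonneg zz_pos.le x
      gcongr
    have h3 : x * zz ^ x * (4 ^ S * ((2 : ℝ) ^ (-x) * LL a)) =
        x * Real.exp (-(2 * cc * x)) * (4 ^ S * LL a) := by
      rw [← zz_rpow]
      ring
    have h4 : x * Real.exp (-(2 * cc * x)) ≤ 1 / cc * Real.exp (-(cc * x)) := by
      have h5 : Real.exp (-(2 * cc * x)) = Real.exp (-(cc * x)) * Real.exp (-(cc * x)) := by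
        rw [← Real.exp_add]
        congr 1
        ring
      have h6 : cc * x * Real.exp (-(cc * x)) ≤ 1 := by
        have h7 := Real.add_one_le_exp (cc * x)
        have h8 : Real.exp (cc * x) * Real.exp (-(cc * x)) = 1 := by
          rw [← Real.exp_add, add_neg_cancel, Real.exp_zero]
        have h9 := Real.exp_pos (-(cc * x))
        nlinarith
      have h10 : x * Real.exp (-(cc * x)) ≤ 1 / cc := by
        rw [le_div_iff₀ hc]
        linarith
      rw [h5, ← mul_assoc]
      exact mul_le_mul_of_nonneg_right h10 (Real.exp_pos _).le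
    rw [abs_of_pos hx]
    calc TT S a x ≤ x * Real.exp (-(2 * cc * x)) * (4 ^ S * LL a) := by rw [← h3]; exact h2
      _ ≤ 1 / cc * Real.exp (-(cc * x)) * (4 ^ S * LL a) := by gcongr
      _ = _ := by ring

theorem exp_lt_one' {x : ℝ} (h : x < 0) : Real.exp x < 1 := by
  rw [← Real.exp_zero]
  exact Real.exp_lt_exp.mpr h

theorem summable_E : Summable (fun m : ℤ => Real.exp (-(cc * |(m : ℝ)|))) := by
  have hc := cc_pos
  have h1 : Summable (fun n : ℕ => Real.exp (-(cc * |((n : ℤ) : ℝ)|))) := by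
    have h2 : (fun n : ℕ => Real.exp (-(cc * |((n : ℤ) : ℝ)|))) =
        fun n : ℕ => (Real.exp (-cc)) ^ n := by
      funext n
      rw [← Real.exp_nat_mul]
      congr 1
      rw [Int.cast_natCast, Nat.abs_cast]
      ring
    rw [h2]
    exact summable_geometric_of_lt_one (Real.exp_pos _).le (XiF.exp_lt_one' (by linarith))
  refine Summable.of_nat_of_neg h1 ?_
  have h3 : (fun n : ℕ => Real.exp (-(cc * |((-(n : ℤ) : ℤ) : ℝ)|))) =
      fun n : ℕ => Real.exp (-(cc * |((n : ℤ) : ℝ)|)) := by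
    funext n
    rw [Int.cast_neg, abs_neg]
  rw [h3]
  exact h1

theorem summable_E_shift (n : ℤ) :
    Summable (fun m : ℤ => Real.exp (-(cc * |((m + n : ℤ) : ℝ)|))) :=
  (Equiv.addRight n).summable_iff.mpr summable_E

theorem tsum_E_shift (n : ℤ) :
    ∑' m : ℤ, Real.exp (-(cc * |((m + n : ℤ) : ℝ)|)) =
      ∑' m : ℤ, Real.exp (-(cc * |(m : ℝ)|)) :=
  (Equiv.addRight n).tsum_eq (fun m : ℤ => Real.exp (-(cc * |(m : ℝ)|)))

theorem E_le (t δ : ℝ) (n : ℤ) (h : |t - n| ≤ δ) (m : ℤ) :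
    Real.exp (-(cc * |t + m|)) ≤ Real.exp (cc * δ) * Real.exp (-(cc * |((m + n : ℤ) : ℝ)|)) := by
  have hc := cc_pos
  rw [← Real.exp_add]
  refine Real.exp_le_exp.mpr ?_
  have h1 : |((m + n : ℤ) : ℝ)| ≤ |t + m| + |t - n| := by
    have : ((m + n : ℤ) : ℝ) = (t + m) - (t - n) := by push_cast; ring
    rw [this]
    exact abs_sub _ _
  nlinarith

theorem TT_le2 (S a : ℕ) (t δ : ℝ) (n : ℤ) (h : |t - n| ≤ δ) (m : ℤ) :
    TT S a (t + m) ≤ 1 / cc * 4 ^ S * LL a *
      (Real.exp (cc * δ) * Real.exp (-(cc * |((m + n : ℤ) : ℝ)|))) := by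
  have hc := cc_pos
  have hL := LL_nonneg a
  refine (TT_le S a (t + m)).trans ?_
  exact mul_le_mul_of_nonneg_left (E_le t δ n h m) (by positivity)

theorem summable_bd (S a : ℕ) (δ : ℝ) (n : ℤ) : Summable (fun m : ℤ => 1 / cc * 4 ^ S * LL a *
      (Real.exp (cc * δ) * Real.exp (-(cc * |((m + n : ℤ) : ℝ)|)))) :=
  ((summable_E_shift n).mul_left _).mul_left _

theorem abs_sub_floor (t : ℝ) : |t - (⌊t⌋ : ℤ)| ≤ 1 := by
  have h1 := Int.floor_le t
  have h2 := Int.lt_floor_add_one t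
  rw [abs_of_nonneg (by linarith)]
  linarith

theorem xin_eq (S a : ℕ) (t : ℝ) : xin S a t = ∑' m : ℤ, TT S a (t + m) := rfl

theorem summable_TT (S a : ℕ) (t : ℝ) : Summable (fun m : ℤ => TT S a (t + m)) :=
  Summable.of_nonneg_of_le (fun _ => TT_nonneg S a _)
    (fun m => TT_le2 S a t 1 ⌊t⌋ (abs_sub_floor t) m) (summable_bd S a 1 ⌊t⌋)

theorem FF_continuousOn (S : ℕ) : ContinuousOn (FF S) (Set.Ici 0) := by
  have h : LipschitzOnWith (4 ^ S) (FF S) (Set.Ici 0) := by
    refine LipschitzOnWith.of_dist_le_mul fun x hx y hy => ?_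
    rw [Real.dist_eq, Real.dist_eq]
    have := FF_lip S (l := x) (l' := y) hx hy
    push_cast
    exact this
  exact h.continuousOn

theorem TT_continuous (S a : ℕ) : Continuous (TT S a) := by
  unfold TT
  refine Continuous.mul (Continuous.mul (continuous_const.max continuous_id) ?_) ?_
  · exact Real.continuous_const_rpow zz_pos.ne'
  · have h1 : Continuous fun x : ℝ => (2 : ℝ) ^ (-x - a.primeFactors.card) * LL a :=
      ((Real.continuous_const_rpow (by norm_num)).comp
        (continuous_neg.sub continuous_const)).mul continuous_const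
    exact (FF_continuousOn S).comp_continuous h1 (fun x => arg_nonneg a x)

theorem Sm_mul {N d e : ℕ} : Sm N (d * e) ↔ Sm N d ∧ Sm N e := by
  unfold Sm
  constructor
  · rintro ⟨h0, h⟩
    have hd : d ≠ 0 := fun h' => h0 (by rw [h', zero_mul])
    have he : e ≠ 0 := fun h' => h0 (by rw [h', mul_zero])
    exact ⟨⟨hd, fun p hp hpd => h p hp (hpd.mul_right e)⟩,
      ⟨he, fun p hp hpe => h p hp (hpe.mul_left d)⟩⟩
  · rintro ⟨⟨hd, h1⟩, ⟨he, h2⟩⟩
    refine ⟨mul_ne_zero hd he, fun p hp hpd => ?_⟩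
    rcases (hp.dvd_mul).mp hpd with h | h
    · exact h1 p hp h
    · exact h2 p hp h

end XiF

open XiF

theorem sum_div_sm (N : ℕ) : Summable (fun a : ℕ => ind (Sm N a) / (a : ℝ) * a.divisors.card) := by
  classical
  set g : ℕ → ℝ := fun d => ind (Sm N d) / (d : ℝ) with hg
  have hg0 : ∀ d, 0 ≤ g d := fun d => div_nonneg (ind_nonneg _) (Nat.cast_nonneg d)
  have hs : Summable g := summable_sm N
  have hs2 : Summable (fun x : ℕ × ℕ => g x.1 * g x.2) :=
    hs.mul_of_nonneg hs hg0 hg0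
  have hterm : ∀ a : ℕ, ind (Sm N a) / (a : ℝ) * a.divisors.card =
      ∑ x ∈ a.divisorsAntidiagonal, g x.1 * g x.2 := by
    intro a
    have h1 : ∀ x ∈ a.divisorsAntidiagonal, g x.1 * g x.2 = ind (Sm N a) / (a : ℝ) := by
      intro x hx
      rw [Nat.mem_divisorsAntidiagonal] at hx
      have hx1 : ((x.1 : ℝ)) * x.2 = a := by exact_mod_cast hx.1
      have hx2 : ind (Sm N x.1) * ind (Sm N x.2) = ind (Sm N a) := by
        rw [← hx.1]
        unfold ind
        by_cases hd : Sm N x.1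
        · by_cases he : Sm N x.2
          · rw [if_pos hd, if_pos he, if_pos (Sm_mul.mpr ⟨hd, he⟩), mul_one]
          · rw [if_pos hd, if_neg he, if_neg (fun h => he (Sm_mul.mp h).2), mul_zero]
        · rw [if_neg hd, if_neg (fun h => hd (Sm_mul.mp h).1), zero_mul]
      rw [hg]
      change ind (Sm N x.1) / (x.1 : ℝ) * (ind (Sm N x.2) / (x.2 : ℝ)) = _
      rw [div_mul_div_comm, hx2, hx1]
    rw [Finset.sum_congr rfl h1, Finset.sum_const, nsmul_eq_mul, mul_comm]
    congr 2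
    rw [← Nat.map_div_right_divisors, Finset.card_map]
  refine summable_of_sum_le (c := ∑' x : ℕ × ℕ, g x.1 * g x.2) ?_ ?_
  · intro a
    change 0 ≤ ind (Sm N a) / (a : ℝ) * a.divisors.card
    rw [hterm a]
    exact Finset.sum_nonneg fun x _ => mul_nonneg (hg0 _) (hg0 _)
  · intro s
    have h1 : ∑ a ∈ s, ind (Sm N a) / (a : ℝ) * a.divisors.card =
        ∑ x ∈ s.sigma (fun a => a.divisorsAntidiagonal), g x.2.1 * g x.2.2 := by
      rw [Finset.sum_sigma]
      exact Finset.sum_congr rfl fun a _ => hterm a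
    have hinj : Set.InjOn (fun x : (_ : ℕ) × (ℕ × ℕ) => x.2)
        (s.sigma (fun a => a.divisorsAntidiagonal) : Finset _) := by
      rintro ⟨a, x⟩ hx ⟨b, y⟩ hy hxy
      rw [Finset.mem_coe, Finset.mem_sigma, Nat.mem_divisorsAntidiagonal] at hx hy
      have hxy' : x = y := hxy
      have h3 : a = b := by
        have e1 : x.1 * x.2 = a := hx.2.1
        have e2 : y.1 * y.2 = b := hy.2.1
        rw [← e1, ← e2, hxy']
      subst h3
      subst hxy'
      rfl
    have h2 : ∑ x ∈ s.sigma (fun a => a.divisorsAntidiagonal), g x.2.1 * g x.2.2 =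
        ∑ y ∈ (s.sigma (fun a => a.divisorsAntidiagonal)).image (fun x => x.2),
          g y.1 * g y.2 := by
      rw [Finset.sum_image hinj]
    rw [h1, h2]
    exact hs2.sum_le_tsum _ (fun x _ => mul_nonneg (hg0 _) (hg0 _))

theorem xin_summable (S a : ℕ) (t : ℝ) : Summable (fun m : ℤ => max 0 (t + m) * zz ^ (t + m) *
        FF S ((2 : ℝ) ^ (-(t + m) - a.primeFactors.card) * LL a)) := summable_TT S a t

theorem xin_le (S : ℕ) : ∃ C : ℝ, ∀ (a : ℕ) (t : ℝ), 0 ≤ xin S a t ∧
    xin S a t ≤ C * a.divisors.card := by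
  have hc := cc_pos
  refine ⟨1 / cc * 4 ^ S * (Real.exp (cc * 1) * ∑' m : ℤ, Real.exp (-(cc * |(m : ℝ)|))),
    fun a t => ⟨tsum_nonneg fun m => TT_nonneg S a _, ?_⟩⟩
  have h0 : 0 ≤ ∑' m : ℤ, Real.exp (-(cc * |(m : ℝ)|)) :=
    tsum_nonneg fun m => (Real.exp_pos _).le
  have h1 : xin S a t ≤ ∑' m : ℤ, 1 / cc * 4 ^ S * LL a *
      (Real.exp (cc * 1) * Real.exp (-(cc * |((m + ⌊t⌋ : ℤ) : ℝ)|))) :=
    (summable_TT S a t).tsum_le_tsum (fun m => TT_le2 S a t 1 ⌊t⌋ (abs_sub_floor t) m)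
      (summable_bd S a 1 ⌊t⌋)
  rw [tsum_mul_left, tsum_mul_left, tsum_E_shift] at h1
  refine h1.trans ?_
  have h2 := LL_le a
  calc 1 / cc * 4 ^ S * LL a * (Real.exp (cc * 1) * ∑' m : ℤ, Real.exp (-(cc * |(m : ℝ)|)))
      = 1 / cc * 4 ^ S * (Real.exp (cc * 1) * ∑' m : ℤ, Real.exp (-(cc * |(m : ℝ)|))) *
        LL a := by ring
    _ ≤ _ := mul_le_mul_of_nonneg_left h2 (by positivity)

theorem xin_period (S a : ℕ) (t : ℝ) : xin S a (t + 1) = xin S a t := by
  rw [xin_eq, xin_eq]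
  have h := (Equiv.addRight (1 : ℤ)).tsum_eq (fun m : ℤ => TT S a (t + m))
  rw [← h]
  refine tsum_congr fun m => ?_
  congr 1
  rw [Equiv.coe_addRight]
  push_cast
  ring

theorem xin_continuous (S a : ℕ) : Continuous (xin S a) := by
  rw [continuous_iff_continuousAt]
  intro t0
  have h1 : ContinuousOn (fun t => ∑' m : ℤ, TT S a (t + m)) (Set.Ioo (t0 - 1) (t0 + 1)) := by
    refine continuousOn_tsum (fun m => ?_) (summable_bd S a 2 ⌊t0⌋) ?_
    · exact ((TT_continuous S a).comp (continuous_id.add continuous_const)).continuousOn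
    · intro m t ht
      rw [Real.norm_eq_abs, abs_of_nonneg (TT_nonneg S a _)]
      refine TT_le2 S a t 2 ⌊t0⌋ ?_ m
      have h1 := Int.floor_le t0
      have h2 := Int.lt_floor_add_one t0
      rw [abs_le]
      constructor <;> linarith [ht.1, ht.2]
  exact h1.continuousAt (Ioo_mem_nhds (by linarith) (by linarith))

namespace XiF

/-- the terms of the outer sum -/
theorem term_bd (k S : ℕ) {C : ℝ} (hC : ∀ (a : ℕ) (t : ℝ), 0 ≤ xin S a t ∧
    xin S a t ≤ C * a.divisors.card) (a : ℕ) (t : ℝ) :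
    0 ≤ ind (Sm (bb k) a) / (a : ℝ) *
      zz ^ a.primeFactors.card * max 0 ((k : ℝ) - a.primeFactors.card) * xin S a t ∧
    ind (Sm (bb k) a) / (a : ℝ) *
      zz ^ a.primeFactors.card * max 0 ((k : ℝ) - a.primeFactors.card) * xin S a t ≤
      zz ^ k * k * C * (ind (Sm (bb k) a) / (a : ℝ) * a.divisors.card) := by
  have hz := zz_pos
  have hz1 := one_le_zz
  have h1 : 0 ≤ ind (Sm (bb k) a) / (a : ℝ) := div_nonneg (ind_nonneg _) (Nat.cast_nonneg a)
  obtain ⟨h2, h3⟩ := hC a t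
  have h4 : 0 ≤ max 0 ((k : ℝ) - a.primeFactors.card) := le_max_left _ _
  constructor
  · positivity
  · have h5 : zz ^ a.primeFactors.card * max 0 ((k : ℝ) - a.primeFactors.card) ≤ zz ^ k * k := by
      rcases le_total a.primeFactors.card k with h | h
      · have h6 : zz ^ a.primeFactors.card ≤ zz ^ k := pow_le_pow_right₀ hz1 h
        have h7 : max 0 ((k : ℝ) - a.primeFactors.card) ≤ k :=
          max_le (by positivity) (by
            have : (0 : ℝ) ≤ a.primeFactors.card := by positivity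
            linarith)
        exact mul_le_mul h6 h7 h4 (by positivity)
      · have h6 : max 0 ((k : ℝ) - a.primeFactors.card) = 0 := by
          refine max_eq_left ?_
          have : (k : ℝ) ≤ a.primeFactors.card := by exact_mod_cast h
          linarith
        rw [h6, mul_zero]
        positivity
    calc ind (Sm (bb k) a) / (a : ℝ) *
        zz ^ a.primeFactors.card * max 0 ((k : ℝ) - a.primeFactors.card) * xin S a t
        = ind (Sm (bb k) a) / (a : ℝ) *
          ((zz ^ a.primeFactors.card * max 0 ((k : ℝ) - a.primeFactors.card)) *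
          xin S a t) := by ring
      _ ≤ ind (Sm (bb k) a) / (a : ℝ) * ((zz ^ k * k) * (C * a.divisors.card)) := by
          refine mul_le_mul_of_nonneg_left ?_ h1
          exact mul_le_mul h5 h3 h2 (by positivity)
      _ = _ := by ring

end XiF

theorem xs_summable (k S : ℕ) (t : ℝ) : Summable (fun a : ℕ => ind (Sm (bb k) a) / (a : ℝ) *
    zz ^ a.primeFactors.card * max 0 ((k : ℝ) - a.primeFactors.card) * xin S a t) := by
  obtain ⟨C, hC⟩ := xin_le S
  exact Summable.of_nonneg_of_le (fun a => (term_bd k S hC a t).1)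
    (fun a => (term_bd k S hC a t).2) ((sum_div_sm (bb k)).mul_left _)

namespace XiF

/-- the constant factor of `Xi` -/
def cst (K S : ℕ) : ℝ := (Real.log 2) ^ (3 / 2 : ℝ) * √(2 / π) * (2 / Real.exp 1) ^ K *
    (∏ p ∈ Nat.primesLE (bb K), (1 - 1 / (p : ℝ))) * (zz / Real.exp 1) ^ S

theorem Xi_eq (K S : ℕ) (t : ℝ) : Xi K S t = cst K S *
    ∑' a : ℕ, ind (Sm (bb K) a) / (a : ℝ) * zz ^ a.primeFactors.card *
      max 0 ((K : ℝ) - a.primeFactors.card) * xin S a t := rfl

end XiF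

theorem Xi_period (K S : ℕ) (t : ℝ) : Xi K S (t + 1) = Xi K S t := by
  rw [Xi_eq, Xi_eq]
  simp only [xin_period]

theorem Xi_continuous (K S : ℕ) : Continuous (Xi K S) := by
  obtain ⟨C, hC⟩ := xin_le S
  have h : Continuous fun t => ∑' a : ℕ, ind (Sm (bb K) a) / (a : ℝ) *
      zz ^ a.primeFactors.card * max 0 ((K : ℝ) - a.primeFactors.card) * xin S a t := by
    refine continuous_tsum (fun a => continuous_const.mul (xin_continuous S a))
      ((sum_div_sm (bb K)).mul_left (zz ^ K * K * C)) ?_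
    intro a t
    rw [Real.norm_eq_abs, abs_of_nonneg (term_bd K S hC a t).1]
    exact (term_bd K S hC a t).2
  exact continuous_const.mul h

theorem Xi_nonneg (K S : ℕ) (t : ℝ) : 0 ≤ Xi K S t := by
  obtain ⟨C, hC⟩ := xin_le S
  rw [Xi_eq]
  refine mul_nonneg ?_ (tsum_nonneg fun a => (term_bd K S hC a t).1)
  unfold cst
  have h0 := Real.log_two_gt_d9
  have h1 : 0 ≤ ∏ p ∈ Nat.primesLE (bb K), (1 - 1 / (p : ℝ)) := (EpsA.ph_pos (bb K)).le
  have h2 := zz_pos
  positivity

end Pool.Agent.EN2
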