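import Mathlib
import Pool.Agent.Lib.MP_ec0ede_nt_EN2.Defs
import Pool.Agent.Lib.MP_ec0ede_nt_EN.WfT
import Pool.Agent.Lib.MP_ec0ede_nt_EN.EpsB
import Pool.Agent.Lib.MP_ec0ede_nt_EN.Ker
import Pool.Agent.Lib.MP_ec0ede_nt_EN2.Rng
import Pool.Agent.Lib.MP_ec0ede_nt_EN2.Red
import Pool.Agent.Lib.MP_ec0ede_nt_EN2.SplE
import Pool.Agent.Lib.MP_ec0ede_nt_EN2.EcA
import Pool.Agent.Lib.MP_ec0ede_nt_EN2.EaA
import Pool.Agent.Lib.MP_ec0ede_nt_EN2.ULb
import Pool.Agent.Lib.MP_ec0ede_nt_EN2.HgL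
import Pool.Agent.Lib.MP_ec0ede_nt_EN2.FFp
import Pool.Agent.Lib.MP_ec0ede_nt_EN2.XiF

set_option autoImplicit false

noncomputable section

namespace Pool.Agent.EN2

open Real Filter Topology Finset Pool.Agent.EN

/-- the double sum in `Xi` -/
def XS (k S : ℕ) (θ : ℝ) : ℝ :=
  ∑' a : ℕ, ind (Sm (bb k) a) / (a : ℝ) * zz ^ a.primeFactors.card *
      max 0 ((k : ℝ) - a.primeFactors.card) *
      ∑' m : ℤ, max 0 (θ + m) * zz ^ (θ + m) *
        FF S ((2 : ℝ) ^ (-(θ + m) - a.primeFactors.card) * LL a)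

namespace CmpX

/-! ### Sums in the extended nonnegative reals -/

/-- the sum over the sets of small primes and the shifts -/
def SE (k : ℕ) (g : Finset ℕ → ℤ → ℝ) : ENNReal :=
  ∑ B ∈ (Nat.primesLE (bb k)).powerset, ∑' m : ℤ, ENNReal.ofReal (g B m)

theorem SE_mono (k : ℕ) (g g' : Finset ℕ → ℤ → ℝ) (h : ∀ B m, g B m ≤ g' B m) :
    SE k g ≤ SE k g' :=
  Finset.sum_le_sum fun B _ => ENNReal.tsum_le_tsum fun m => ENNReal.ofReal_le_ofReal (h B m)

theorem SE_add (k : ℕ) (g g' : Finset ℕ → ℤ → ℝ) (h : ∀ B m, 0 ≤ g B m)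
    (h' : ∀ B m, 0 ≤ g' B m) : SE k (fun B m => g B m + g' B m) = SE k g + SE k g' := by
  unfold SE
  rw [← Finset.sum_add_distrib]
  refine Finset.sum_congr rfl fun B _ => ?_
  rw [← ENNReal.tsum_add]
  exact tsum_congr fun m => ENNReal.ofReal_add (h B m) (h' B m)

theorem SE_mul (k : ℕ) (c : ℝ) (hc : 0 ≤ c) (g : Finset ℕ → ℤ → ℝ) :
    SE k (fun B m => c * g B m) = ENNReal.ofReal c * SE k g := by
  unfold SE
  rw [Finset.mul_sum]
  refine Finset.sum_congr rfl fun B _ => ?_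
  rw [← ENNReal.tsum_mul_left]
  exact tsum_congr fun m => ENNReal.ofReal_mul hc

theorem SE_four (k : ℕ) (κ : ENNReal) {c2 c3 : ℝ} (h2 : 0 ≤ c2) (h3 : 0 ≤ c3)
    (g g1 g2 g3 g4 : Finset ℕ → ℤ → ℝ) (p1 : ∀ B m, 0 ≤ g1 B m) (p2 : ∀ B m, 0 ≤ g2 B m)
    (p3 : ∀ B m, 0 ≤ g3 B m) (p4 : ∀ B m, 0 ≤ g4 B m)
    (h : ∀ B m, g B m ≤ g1 B m + c2 * g2 B m + c3 * (g3 B m + g4 B m)) :
    κ * SE k g ≤ κ * SE k g1 + ENNReal.ofReal c2 * (κ * SE k g2) +
      ENNReal.ofReal c3 * (κ * SE k g3 + κ * SE k g4) := by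
  have e1 : SE k (fun B m => g1 B m + c2 * g2 B m + c3 * (g3 B m + g4 B m)) =
      SE k g1 + ENNReal.ofReal c2 * SE k g2 + ENNReal.ofReal c3 * (SE k g3 + SE k g4) := by
    rw [SE_add k (fun B m => g1 B m + c2 * g2 B m) (fun B m => c3 * (g3 B m + g4 B m))
        (fun B m => add_nonneg (p1 B m) (mul_nonneg h2 (p2 B m)))
        (fun B m => mul_nonneg h3 (add_nonneg (p3 B m) (p4 B m))),
      SE_add k g1 (fun B m => c2 * g2 B m) p1 (fun B m => mul_nonneg h2 (p2 B m)),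
      SE_mul k c2 h2, SE_mul k c3 h3 (fun B m => g3 B m + g4 B m), SE_add k g3 g4 p3 p4]
  calc κ * SE k g ≤ κ * SE k (fun B m => g1 B m + c2 * g2 B m + c3 * (g3 B m + g4 B m)) :=
        mul_le_mul_right (SE_mono k _ _ h) κ
    _ = _ := by rw [e1]; ring

/-! ### Signs -/

theorem zz_pos : 0 < zz := by
  unfold zz
  have := Real.log_pos (one_lt_two)
  positivity

theorem wz_nonneg (K p : ℕ) : 0 ≤ wz K p := Finset.sum_nonneg fun j _ => mu_nonneg j p

theorem tb_nonneg (k S : ℕ) (θ : ℝ) (f : ℕ) (B : Finset ℕ) (m : ℤ) : 0 ≤ tb k S θ f B m := by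
  unfold tb
  refine mul_nonneg (mul_nonneg (mul_nonneg ?_ (ind_nonneg _)) (zpow_nonneg zz_pos.le _)) ?_
  · exact Finset.prod_nonneg fun p _ => mul_nonneg (Real.log_nonneg (by norm_num)) (wz_nonneg _ _)
  · exact FF_nonneg S (mul_nonneg (by positivity) (LL_nonneg _))

theorem kU_nonneg (k S : ℕ) (θ : ℝ) : 0 ≤ kU k S θ := by
  unfold kU
  have := zz_pos
  positivity

theorem cK_pos : 0 < cK := by
  unfold cK
  positivity

theorem hg_nonneg (x : ℕ) : 0 ≤ hg x ∨ x = 0 := by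
  rcases Nat.eq_zero_or_pos x with h | h
  · exact Or.inr h
  · exact Or.inl ((by positivity : (0 : ℝ) ≤ √(2 / π) * x).trans (hg_lower x h))

theorem hg_zero : 0 ≤ hg 0 := by
  rw [hg]
  simp

theorem hg_nn (x : ℕ) : 0 ≤ hg x := by
  rcases hg_nonneg x with h | h
  · exact h
  · rw [h]; exact hg_zero

/-! ### The four factors -/

/-- the bottom factor -/
def Pg (k : ℕ) (B : Finset ℕ) : ℝ := EC (k + mm) (bb k) hg (((k + mm : ℕ) : ℤ) - B.card)
/-- the bottom factor with one height less -/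
def P1 (k : ℕ) (B : Finset ℕ) : ℝ := EC (k + mm) (bb k) (fun _ => 1) (((k + mm : ℕ) : ℤ) - B.card)
/-- the top factor -/
def Ag (θ : ℝ) (f : ℕ) (m : ℤ) : ℝ := EA θ (fun w => (w : ℝ)) (m + f.primeFactors.card)
/-- the top factor with one height less -/
def A1 (θ : ℝ) (f : ℕ) (m : ℤ) : ℝ := EA θ (fun _ => 1) (m + f.primeFactors.card)
/-- the limit of the bottom factor -/
def P0 (k f : ℕ) (B : Finset ℕ) : ℝ := cK * max 0 ((k : ℝ) - f.primeFactors.card - B.card)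
/-- the limit of the top factor -/
def A0 (θ : ℝ) (m : ℤ) : ℝ := Real.exp (mA θ) * max 0 (m + θ)

theorem Pg_nonneg (k : ℕ) (B : Finset ℕ) : 0 ≤ Pg k B := EC_nonneg _ _ _ hg_nn _
theorem P1_nonneg (k : ℕ) (B : Finset ℕ) : 0 ≤ P1 k B := EC_nonneg _ _ _ (fun _ => zero_le_one) _
theorem mA_nonneg {θ : ℝ} (h1 : (mm : ℝ) + 1 ≤ θ) (h2 : θ ≤ mm + 2) : 0 ≤ mA θ :=
  (by norm_num : (0 : ℝ) ≤ 3 / 2).trans (mA_bounds h1 h2).1
theorem Ag_nonneg {θ : ℝ} (h1 : (mm : ℝ) + 1 ≤ θ) (h2 : θ ≤ mm + 2) (f : ℕ) (m : ℤ) :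
    0 ≤ Ag θ f m := EA_nonneg (mA_nonneg h1 h2) _ (fun w => Nat.cast_nonneg w) _
theorem A1_nonneg {θ : ℝ} (h1 : (mm : ℝ) + 1 ≤ θ) (h2 : θ ≤ mm + 2) (f : ℕ) (m : ℤ) :
    0 ≤ A1 θ f m := EA_nonneg (mA_nonneg h1 h2) _ (fun _ => zero_le_one) _
theorem P0_nonneg (k f : ℕ) (B : Finset ℕ) : 0 ≤ P0 k f B :=
  mul_nonneg cK_pos.le (le_max_left _ _)
theorem A0_nonneg (θ : ℝ) (m : ℤ) : 0 ≤ A0 θ m := mul_nonneg (Real.exp_pos _).le (le_max_left _ _)

theorem arg_eq (k : ℕ) (f : ℕ) (B : Finset ℕ) : (((k + mm : ℕ) : ℤ) - B.card) =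
    ((k : ℤ) - f.primeFactors.card - B.card) + mm + f.primeFactors.card := by
  push_cast
  ring

theorem P_asymp {ε : ℝ} (hε : 0 < ε) : ∃ C : ℝ, 0 < C ∧ ∃ k0 : ℕ, ∀ k ≥ k0,
    ∀ (f : ℕ) (B : Finset ℕ), |Pg k B - P0 k f B| ≤
      ε * Pg k B + C * (1 + f.primeFactors.card) * P1 k B := by
  obtain ⟨C, hC, k0, h⟩ := EC_asymp hε
  refine ⟨C, hC, k0, fun k hk f B => ?_⟩
  have h1 := h k hk ((k : ℤ) - f.primeFactors.card - B.card) f.primeFactors.card
  rw [← arg_eq k f B] at h1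
  push_cast at h1
  unfold Pg P0 P1
  push_cast
  exact h1

theorem P_lower : ∃ c : ℝ, 0 < c ∧ ∀ (k f : ℕ) (B : Finset ℕ), c * P0 k f B ≤ Pg k B := by
  obtain ⟨c, hc, h⟩ := EC_lower
  have hK := cK_pos
  refine ⟨c / cK, by positivity, fun k f B => ?_⟩
  have h1 := h k ((k : ℤ) - f.primeFactors.card - B.card) f.primeFactors.card
  rw [← arg_eq k f B] at h1
  push_cast at h1
  unfold Pg P0
  push_cast
  calc c / cK * (cK * max 0 ((k : ℝ) - f.primeFactors.card - B.card))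
      = c * max 0 ((k : ℝ) - f.primeFactors.card - B.card) := by
        field_simp
    _ ≤ _ := h1

theorem A_asymp : ∃ C : ℝ, 0 < C ∧ ∀ (θ : ℝ) (m : ℤ) (f : ℕ), (mm : ℝ) + 1 ≤ θ → θ ≤ mm + 2 →
    |Ag θ f m - A0 θ m| ≤ C * (1 + f.primeFactors.card) * A1 θ f m := by
  obtain ⟨C, hC, h⟩ := EA_asymp
  exact ⟨C, hC, fun θ m f h1 h2 => h θ m f.primeFactors.card h1 h2⟩

theorem A_lower : ∃ c : ℝ, 0 < c ∧ ∀ (θ : ℝ) (m : ℤ) (f : ℕ), (mm : ℝ) + 1 ≤ θ → θ ≤ mm + 2 →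
    c * A0 θ m ≤ Ag θ f m := by
  obtain ⟨c, hc, h⟩ := EA_lower
  refine ⟨c / Real.exp (2 * mm + 2), by positivity, fun θ m f h1 h2 => ?_⟩
  have h3 := h θ m f.primeFactors.card h1 h2
  have h4 : Real.exp (mA θ) ≤ Real.exp (2 * mm + 2) := Real.exp_le_exp.2 (mA_bounds h1 h2).2
  have h5 : (0 : ℝ) ≤ max 0 (m + θ) := le_max_left _ _
  unfold A0 Ag
  calc c / Real.exp (2 * mm + 2) * (Real.exp (mA θ) * max 0 (m + θ))
      ≤ c / Real.exp (2 * mm + 2) * (Real.exp (2 * mm + 2) * max 0 (m + θ)) := by gcongr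
    _ = c * max 0 (m + θ) := by field_simp
    _ ≤ _ := h3

theorem P1_le (k : ℕ) (B : Finset ℕ) : P1 k B ≤ √(π / 2) * Pg k B := by
  refine EC_mono _ _ _ _ _ (fun x hx => ?_) _
  have h1 := hg_lower x hx
  have h2 : √(π / 2) * √(2 / π) = 1 := by
    rw [← Real.sqrt_mul (by positivity)]
    have : π / 2 * (2 / π) = 1 := by field_simp
    rw [this, Real.sqrt_one]
  have h3 : (1 : ℝ) ≤ x := by exact_mod_cast hx
  calc (1 : ℝ) ≤ x := h3
    _ = √(π / 2) * (√(2 / π) * x) := by rw [← mul_assoc, h2, one_mul]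
    _ ≤ √(π / 2) * hg x := mul_le_mul_of_nonneg_left h1 (Real.sqrt_nonneg _)

theorem pt_low : ∃ C : ℝ, 0 < C ∧ ∀ (k : ℕ) (θ : ℝ) (f : ℕ) (B : Finset ℕ) (m : ℤ),
    (mm : ℝ) + 1 ≤ θ → θ ≤ mm + 2 → P0 k f B * A0 θ m ≤ C * (Pg k B * Ag θ f m) := by
  obtain ⟨c, hc, h⟩ := P_lower
  obtain ⟨c', hc', h'⟩ := A_lower
  refine ⟨1 / (c * c'), by positivity, fun k θ f B m h1 h2 => ?_⟩
  have h3 := h k f B
  have h4 := h' θ m f h1 h2
  have h5 : (c * P0 k f B) * (c' * A0 θ m) ≤ Pg k B * Ag θ f m :=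
    mul_le_mul h3 h4 (mul_nonneg hc'.le (A0_nonneg _ _)) (Pg_nonneg _ _)
  rw [div_mul_eq_mul_div, one_mul, le_div_iff₀ (by positivity)]
  calc P0 k f B * A0 θ m * (c * c') = (c * P0 k f B) * (c' * A0 θ m) := by ring
    _ ≤ _ := h5

theorem pt_asymp {ε : ℝ} (hε : 0 < ε) (hε1 : ε ≤ 1) : ∃ C : ℝ, 0 < C ∧ ∃ k0 : ℕ, ∀ k ≥ k0,
    ∀ (θ : ℝ) (f : ℕ) (B : Finset ℕ) (m : ℤ), (mm : ℝ) + 1 ≤ θ → θ ≤ mm + 2 →
    |Pg k B * Ag θ f m - P0 k f B * A0 θ m| ≤ ε * (Pg k B * Ag θ f m) +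
      C * (1 + f.primeFactors.card) ^ 2 * (P1 k B * Ag θ f m + Pg k B * A1 θ f m) := by
  obtain ⟨C1, hC1, k0, h1⟩ := P_asymp hε
  obtain ⟨C2, hC2, h2⟩ := A_asymp
  refine ⟨C1 + (2 + 2 * C1) * C2, by positivity, k0, fun k hk θ f B m t1 t2 => ?_⟩
  have a1 := h1 k hk f B
  have a2 := h2 θ m f t1 t2
  have nP := Pg_nonneg k B
  have nP1 := P1_nonneg k B
  have nA := Ag_nonneg t1 t2 f m
  have nA1 := A1_nonneg t1 t2 f m
  have nP0 := P0_nonneg k f B
  have nj : (0 : ℝ) ≤ (f.primeFactors.card : ℝ) := Nat.cast_nonneg _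
  set j : ℝ := (f.primeFactors.card : ℝ)
  have hs2 : √(π / 2) ≤ 2 := by
    rw [Real.sqrt_le_left (by norm_num)]
    have := Real.pi_lt_four
    linarith
  have a3 : P1 k B ≤ 2 * Pg k B := (P1_le k B).trans (mul_le_mul_of_nonneg_right hs2 nP)
  -- the bound for the limit
  have a4 : P0 k f B ≤ (2 + 2 * C1) * (1 + j) * Pg k B := by
    have b1 : P0 k f B ≤ Pg k B + (ε * Pg k B + C1 * (1 + j) * P1 k B) := by
      have := (abs_le.1 a1).1
      linarith
    have b2 : ε * Pg k B ≤ Pg k B := by nlinarith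
    have b3 : C1 * (1 + j) * P1 k B ≤ C1 * (1 + j) * (2 * Pg k B) :=
      mul_le_mul_of_nonneg_left a3 (by positivity)
    have b4 : 0 ≤ j * Pg k B := by positivity
    nlinarith
  have a5 : |P0 k f B * (Ag θ f m - A0 θ m)| ≤
      (2 + 2 * C1) * C2 * (1 + j) ^ 2 * (Pg k B * A1 θ f m) := by
    rw [abs_mul, abs_of_nonneg nP0]
    calc P0 k f B * |Ag θ f m - A0 θ m|
        ≤ ((2 + 2 * C1) * (1 + j) * Pg k B) * (C2 * (1 + j) * A1 θ f m) :=
          mul_le_mul a4 a2 (abs_nonneg _) (by positivity)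
      _ = _ := by ring
  have a6 : |(Pg k B - P0 k f B) * Ag θ f m| ≤
      ε * (Pg k B * Ag θ f m) + C1 * (1 + j) * (P1 k B * Ag θ f m) := by
    rw [abs_mul, abs_of_nonneg nA]
    calc |Pg k B - P0 k f B| * Ag θ f m
        ≤ (ε * Pg k B + C1 * (1 + j) * P1 k B) * Ag θ f m := mul_le_mul_of_nonneg_right a1 nA
      _ = _ := by ring
  have a7 : C1 * (1 + j) * (P1 k B * Ag θ f m) ≤ C1 * (1 + j) ^ 2 * (P1 k B * Ag θ f m) := by
    have b1 : (1 + j) ≤ (1 + j) ^ 2 := by nlinarith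
    have b2 : 0 ≤ P1 k B * Ag θ f m := by positivity
    exact mul_le_mul_of_nonneg_right (mul_le_mul_of_nonneg_left b1 hC1.le) b2
  have e1 : Pg k B * Ag θ f m - P0 k f B * A0 θ m =
      (Pg k B - P0 k f B) * Ag θ f m + P0 k f B * (Ag θ f m - A0 θ m) := by ring
  have a8 : 0 ≤ (1 + j) ^ 2 * (P1 k B * Ag θ f m) := by positivity
  have a9 : 0 ≤ (1 + j) ^ 2 * (Pg k B * A1 θ f m) := by positivity
  rw [e1]
  refine (abs_add_le _ _).trans ?_
  have e2 : (C1 + (2 + 2 * C1) * C2) * (1 + j) ^ 2 * (P1 k B * Ag θ f m + Pg k B * A1 θ f m) =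
      C1 * (1 + j) ^ 2 * (P1 k B * Ag θ f m) +
      (2 + 2 * C1) * C2 * (1 + j) ^ 2 * (Pg k B * A1 θ f m) +
      ((2 + 2 * C1) * C2) * ((1 + j) ^ 2 * (P1 k B * Ag θ f m)) +
      C1 * ((1 + j) ^ 2 * (Pg k B * A1 θ f m)) := by ring
  have a10 : 0 ≤ ((2 + 2 * C1) * C2) * ((1 + j) ^ 2 * (P1 k B * Ag θ f m)) :=
    mul_nonneg (by positivity) a8
  have a11 : 0 ≤ C1 * ((1 + j) ^ 2 * (Pg k B * A1 θ f m)) := mul_nonneg hC1.le a9
  linarith

/-! ### The three sums -/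

theorem U_one (k S : ℕ) {θ : ℝ} (h1 : (mm : ℝ) + 1 ≤ θ) (h2 : θ ≤ mm + 2) {f : ℕ}
    (hf : Sm (bb k) f) :
    ENNReal.ofReal (UL (k + mm) (S + ss) S (bb k) θ (fun _ _ => 1) f) =
      ENNReal.ofReal (kU k S θ) * SE k (fun B m => tb k S θ f B m * (Pg k B * Ag θ f m)) := by
  have h := red k S h1 h2 (fun _ => 1) (fun _ => 1) (fun _ => ⟨zero_le_one, le_rfl⟩)
    (fun _ => ⟨zero_le_one, le_rfl⟩) f hf
  simp only [one_mul, mul_one] at h
  rw [h]
  unfold SE Pg Ag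
  simp only [mul_assoc]

theorem U_x (k S : ℕ) {θ : ℝ} (h1 : (mm : ℝ) + 1 ≤ θ) (h2 : θ ≤ mm + 2) {f : ℕ}
    (hf : Sm (bb k) f) :
    ENNReal.ofReal (kU k S θ) * SE k (fun B m => tb k S θ f B m * (P1 k B * Ag θ f m)) ≤
      ENNReal.ofReal (√(π / 2) *
        UL (k + mm) (S + ss) S (bb k) θ (fun x _ => 1 / (x : ℝ)) f) := by
  have hb : ∀ x : ℕ, 0 ≤ 1 / (x : ℝ) ∧ 1 / (x : ℝ) ≤ 1 := fun x =>
    ⟨by positivity, EN.WfT.inv_le_one x⟩
  have h := red k S h1 h2 (fun x => 1 / (x : ℝ)) (fun _ => 1) hb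
    (fun _ => ⟨zero_le_one, le_rfl⟩) f hf
  simp only [one_mul, mul_one] at h
  rw [ENNReal.ofReal_mul (Real.sqrt_nonneg _), h, mul_left_comm]
  refine mul_le_mul_right ?_ _
  have e1 := SE_mul k √(π / 2) (Real.sqrt_nonneg _) (fun B m => tb k S θ f B m *
    EC (k + mm) (bb k) (fun x => 1 / (x : ℝ) * hg x) (((k + mm : ℕ) : ℤ) - B.card) *
    EA θ (fun w => (w : ℝ)) (m + f.primeFactors.card))
  have e2 : SE k (fun B m => tb k S θ f B m *
    EC (k + mm) (bb k) (fun x => 1 / (x : ℝ) * hg x) (((k + mm : ℕ) : ℤ) - B.card) *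
    EA θ (fun w => (w : ℝ)) (m + f.primeFactors.card)) = ∑ B ∈ (Nat.primesLE (bb k)).powerset,
      ∑' m : ℤ, ENNReal.ofReal (tb k S θ f B m *
        EC (k + mm) (bb k) (fun x => 1 / (x : ℝ) * hg x) (((k + mm : ℕ) : ℤ) - B.card) *
        EA θ (fun w => (w : ℝ)) (m + f.primeFactors.card)) := rfl
  rw [← e2, ← e1]
  refine SE_mono k _ _ fun B m => ?_
  have a1 : P1 k B ≤ √(π / 2) *
      EC (k + mm) (bb k) (fun x => 1 / (x : ℝ) * hg x) (((k + mm : ℕ) : ℤ) - B.card) := by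
    refine EC_mono _ _ _ _ _ (fun x hx => ?_) _
    have b1 := hg_lower x hx
    have b2 : √(π / 2) * √(2 / π) = 1 := by
      rw [← Real.sqrt_mul (by positivity)]
      have : π / 2 * (2 / π) = 1 := by field_simp
      rw [this, Real.sqrt_one]
    have b3 : (0 : ℝ) < x := by exact_mod_cast hx
    have b4 : √(π / 2) * (1 / (x : ℝ) * (√(2 / π) * x)) = 1 := by
      have : √(π / 2) * (1 / (x : ℝ) * (√(2 / π) * x)) =
        (√(π / 2) * √(2 / π)) * (1 / x * x) := by ring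
      rw [this, b2, one_div, inv_mul_cancel₀ b3.ne', one_mul]
    have b5 := mul_le_mul_of_nonneg_left (mul_le_mul_of_nonneg_left b1
      (by positivity : 0 ≤ 1 / (x : ℝ))) (Real.sqrt_nonneg (π / 2))
    linarith
  have a2 := Ag_nonneg h1 h2 f m
  have a3 := tb_nonneg k S θ f B m
  calc tb k S θ f B m * (P1 k B * Ag θ f m) ≤ tb k S θ f B m * ((√(π / 2) *
      EC (k + mm) (bb k) (fun x => 1 / (x : ℝ) * hg x) (((k + mm : ℕ) : ℤ) - B.card)) *
        Ag θ f m) := by gcongr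
    _ = _ := by unfold Ag; ring

theorem U_w (k S : ℕ) {θ : ℝ} (h1 : (mm : ℝ) + 1 ≤ θ) (h2 : θ ≤ mm + 2) {f : ℕ}
    (hf : Sm (bb k) f) :
    ENNReal.ofReal (kU k S θ) * SE k (fun B m => tb k S θ f B m * (Pg k B * A1 θ f m)) ≤
      ENNReal.ofReal (UL (k + mm) (S + ss) S (bb k) θ (fun _ w => 1 / (w : ℝ)) f) := by
  have hb : ∀ x : ℕ, 0 ≤ 1 / (x : ℝ) ∧ 1 / (x : ℝ) ≤ 1 := fun x =>
    ⟨by positivity, EN.WfT.inv_le_one x⟩
  have h := red k S h1 h2 (fun _ => 1) (fun x => 1 / (x : ℝ))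
    (fun _ => ⟨zero_le_one, le_rfl⟩) hb f hf
  simp only [one_mul] at h
  rw [h]
  refine mul_le_mul_right ?_ _
  refine Finset.sum_le_sum fun B _ => ENNReal.tsum_le_tsum fun m => ENNReal.ofReal_le_ofReal ?_
  have a1 : A1 θ f m ≤ EA θ (fun w => 1 / (w : ℝ) * w) (m + f.primeFactors.card) := by
    refine EA_mono (mA_nonneg h1 h2) _ _ (fun _ => zero_le_one) (fun w hw => ?_) (fun w => ?_) _
    · have b3 : (0 : ℝ) < w := by exact_mod_cast hw
      rw [one_div, inv_mul_cancel₀ b3.ne']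
    · have b1 := (hb w).2
      have b2 : (0 : ℝ) ≤ w := Nat.cast_nonneg _
      nlinarith
  have a2 := Pg_nonneg k B
  have a3 := tb_nonneg k S θ f B m
  calc tb k S θ f B m * (Pg k B * A1 θ f m) ≤ tb k S θ f B m *
      (Pg k B * EA θ (fun w => 1 / (w : ℝ) * w) (m + f.primeFactors.card)) := by gcongr
    _ = _ := by unfold Pg; ring

/-! ### One value of `f` -/

/-- the limit of the sum for one `f` -/
def nu (k S : ℕ) (θ : ℝ) (f : ℕ) : ENNReal :=
  ENNReal.ofReal (kU k S θ) * SE k (fun B m => tb k S θ f B m * (P0 k f B * A0 θ m))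

theorem nu_le : ∃ C : ℝ, 0 < C ∧ ∀ (k S : ℕ) (θ : ℝ) (f : ℕ), (mm : ℝ) + 1 ≤ θ → θ ≤ mm + 2 →
    Sm (bb k) f →
    nu k S θ f ≤ ENNReal.ofReal (C * UL (k + mm) (S + ss) S (bb k) θ (fun _ _ => 1) f) := by
  obtain ⟨C, hC, h⟩ := pt_low
  refine ⟨C, hC, fun k S θ f h1 h2 hf => ?_⟩
  rw [ENNReal.ofReal_mul hC.le, U_one k S h1 h2 hf, mul_left_comm, ← SE_mul k C hC.le]
  unfold nu
  refine mul_le_mul_right (SE_mono k _ _ fun B m => ?_) _
  calc tb k S θ f B m * (P0 k f B * A0 θ m) ≤ tb k S θ f B m * (C * (Pg k B * Ag θ f m)) :=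
        mul_le_mul_of_nonneg_left (h k θ f B m h1 h2) (tb_nonneg _ _ _ _ _ _)
    _ = _ := by ring

theorem per_f {ε : ℝ} (hε : 0 < ε) (hε1 : ε ≤ 1) : ∃ C : ℝ, 0 < C ∧ ∃ k0 : ℕ, ∀ k ≥ k0,
    ∀ (S : ℕ) (θ : ℝ) (f : ℕ), (mm : ℝ) + 1 ≤ θ → θ ≤ mm + 2 → Sm (bb k) f →
    |UL (k + mm) (S + ss) S (bb k) θ (fun _ _ => 1) f - (nu k S θ f).toReal| ≤
      ε * UL (k + mm) (S + ss) S (bb k) θ (fun _ _ => 1) f +
      C * (1 + f.primeFactors.card) ^ 2 *
        (√(π / 2) * UL (k + mm) (S + ss) S (bb k) θ (fun x _ => 1 / (x : ℝ)) f +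
          UL (k + mm) (S + ss) S (bb k) θ (fun _ w => 1 / (w : ℝ)) f) := by
  obtain ⟨C, hC, k0, h⟩ := pt_asymp hε hε1
  obtain ⟨C', hC', h'⟩ := nu_le
  refine ⟨C, hC, k0, fun k hk S θ f h1 h2 hf => ?_⟩
  have hb : ∀ x : ℕ, 0 ≤ 1 / (x : ℝ) ∧ 1 / (x : ℝ) ≤ 1 := fun x =>
    ⟨by positivity, EN.WfT.inv_le_one x⟩
  have n1 : 0 ≤ UL (k + mm) (S + ss) S (bb k) θ (fun _ _ => 1) f :=
    UL_nonneg _ _ _ _ _ _ (fun _ _ => ⟨zero_le_one, le_rfl⟩) _
  have n2 : 0 ≤ UL (k + mm) (S + ss) S (bb k) θ (fun x _ => 1 / (x : ℝ)) f :=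
    UL_nonneg _ _ _ _ _ _ (fun x _ => hb x) _
  have n3 : 0 ≤ UL (k + mm) (S + ss) S (bb k) θ (fun _ w => 1 / (w : ℝ)) f :=
    UL_nonneg _ _ _ _ _ _ (fun _ w => hb w) _
  have e0 : nu k S θ f = ENNReal.ofReal (nu k S θ f).toReal :=
    (ENNReal.ofReal_toReal (ne_top_of_le_ne_top ENNReal.ofReal_ne_top
      (h' k S θ f h1 h2 hf))).symm
  have n0 : 0 ≤ (nu k S θ f).toReal := ENNReal.toReal_nonneg
  have hU := U_one k S h1 h2 hf
  have hx := U_x k S h1 h2 hf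
  have hw := U_w k S h1 h2 hf
  set u := UL (k + mm) (S + ss) S (bb k) θ (fun _ _ => 1) f
  set x := UL (k + mm) (S + ss) S (bb k) θ (fun x _ => 1 / (x : ℝ)) f
  set w := UL (k + mm) (S + ss) S (bb k) θ (fun _ w => 1 / (w : ℝ)) f
  set v := (nu k S θ f).toReal
  set D : ℝ := C * (1 + f.primeFactors.card) ^ 2 with hD
  have nD : 0 ≤ D := mul_nonneg hC.le (sq_nonneg _)
  have t0 : ∀ B m, 0 ≤ tb k S θ f B m := fun B m => tb_nonneg _ _ _ _ _ _
  have q1 : ∀ B m, 0 ≤ tb k S θ f B m * (Pg k B * Ag θ f m) := fun B m =>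
    mul_nonneg (t0 B m) (mul_nonneg (Pg_nonneg _ _) (Ag_nonneg h1 h2 _ _))
  have q2 : ∀ B m, 0 ≤ tb k S θ f B m * (P1 k B * Ag θ f m) := fun B m =>
    mul_nonneg (t0 B m) (mul_nonneg (P1_nonneg _ _) (Ag_nonneg h1 h2 _ _))
  have q3 : ∀ B m, 0 ≤ tb k S θ f B m * (Pg k B * A1 θ f m) := fun B m =>
    mul_nonneg (t0 B m) (mul_nonneg (Pg_nonneg _ _) (A1_nonneg h1 h2 _ _))
  have q4 : ∀ B m, 0 ≤ tb k S θ f B m * (P0 k f B * A0 θ m) := fun B m =>
    mul_nonneg (t0 B m) (mul_nonneg (P0_nonneg _ _ _) (A0_nonneg _ _))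
  have m1 : 0 ≤ ε * u := mul_nonneg hε.le n1
  have m2 : 0 ≤ √(π / 2) * x := mul_nonneg (Real.sqrt_nonneg _) n2
  have m3 : 0 ≤ √(π / 2) * x + w := add_nonneg m2 n3
  have m4 : 0 ≤ D * (√(π / 2) * x + w) := mul_nonneg nD m3
  have m5 : 0 ≤ ε * u + D * (√(π / 2) * x + w) := add_nonneg m1 m4
  have fin : ENNReal.ofReal ε * ENNReal.ofReal u +
      ENNReal.ofReal D * (ENNReal.ofReal (√(π / 2) * x) + ENNReal.ofReal w) =
      ENNReal.ofReal (ε * u + D * (√(π / 2) * x + w)) := by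
    rw [← ENNReal.ofReal_mul hε.le, ← ENNReal.ofReal_add m2 n3,
      ← ENNReal.ofReal_mul nD, ← ENNReal.ofReal_add m1 m4]
  -- the upper bound for the limit
  have r1 : ENNReal.ofReal v ≤ ENNReal.ofReal (u + (ε * u + D * (√(π / 2) * x + w))) := by
    rw [ENNReal.ofReal_add n1 m5, ← fin, ← e0, ← add_assoc]
    refine (SE_four k (ENNReal.ofReal (kU k S θ)) hε.le nD _ _ _ _ _ q1 q1 q2 q3
      fun B m => ?_).trans ?_
    · have a1 := (abs_le.1 (h k hk θ f B m h1 h2)).1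
      have a2 := mul_le_mul_of_nonneg_left (show P0 k f B * A0 θ m ≤ Pg k B * Ag θ f m +
        ε * (Pg k B * Ag θ f m) + D * (P1 k B * Ag θ f m + Pg k B * A1 θ f m) by
          rw [hD]; linarith) (t0 B m)
      refine a2.trans (le_of_eq ?_)
      ring
    · rw [← hU]
      gcongr
  have r2 : ENNReal.ofReal u ≤ ENNReal.ofReal (v + (ε * u + D * (√(π / 2) * x + w))) := by
    rw [ENNReal.ofReal_add n0 m5, ← fin, ← e0, ← add_assoc, hU]
    refine (SE_four k (ENNReal.ofReal (kU k S θ)) hε.le nD _ _ _ _ _ q4 q1 q2 q3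
      fun B m => ?_).trans ?_
    · have a1 := (abs_le.1 (h k hk θ f B m h1 h2)).2
      have a2 := mul_le_mul_of_nonneg_left (show Pg k B * Ag θ f m ≤ P0 k f B * A0 θ m +
        ε * (Pg k B * Ag θ f m) + D * (P1 k B * Ag θ f m + Pg k B * A1 θ f m) by
          rw [hD]; linarith) (t0 B m)
      refine a2.trans (le_of_eq ?_)
      ring
    · unfold nu
      gcongr
  have r3 := (ENNReal.ofReal_le_ofReal_iff (add_nonneg n1 m5)).1 r1
  have r4 := (ENNReal.ofReal_le_ofReal_iff (add_nonneg n0 m5)).1 r2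
  rw [abs_le]
  constructor <;> linarith

/-! ### The double sum of `Xi` -/

theorem card_mul (f : ℕ) (B : Finset ℕ) (hf : f ≠ 0) (hB : ∀ p ∈ B, p.Prime)
    (hc : ∀ p ∈ B, ¬ p ∣ f) :
    (f * ∏ p ∈ B, p).primeFactors.card = f.primeFactors.card + B.card := by
  have hb : (∏ p ∈ B, p) ≠ 0 := Finset.prod_ne_zero_iff.2 fun q hq => (hB q hq).ne_zero
  rw [Nat.primeFactors_mul hf hb, Nat.primeFactors_prod hB, Finset.card_union_of_disjoint]
  rw [Finset.disjoint_left]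
  intro p hp hpB
  exact hc p hpB (Nat.dvd_of_mem_primeFactors hp)

/-- the constant -/
def Cst (k S : ℕ) (θ : ℝ) : ℝ :=
  √(2 / π) * (√2 * Real.exp (-Mer)) * Real.exp (-(k : ℝ)) * (zz / Real.exp 1) ^ S *
        (2 : ℝ) ^ (dl * (ss - θ))

theorem Cst_nonneg (k S : ℕ) (θ : ℝ) : 0 ≤ Cst k S θ := by
  unfold Cst
  have := zz_pos
  positivity

theorem const_eq (k S : ℕ) (θ : ℝ) :
    Cst k S θ * zz ^ θ = kU k S θ * (cK * Real.exp (mA θ)) := by
  have hl : 0 < Real.log 2 := Real.log_pos one_lt_two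
  have e1 : zz ^ θ = Real.exp (-(θ * Real.log (Real.log 2))) := by
    unfold zz
    rw [one_div, Real.inv_rpow hl.le, Real.rpow_def_of_pos hl, ← Real.exp_neg]
    congr 1
    ring
  have e2 : (2 : ℝ) ^ (dl * (ss - θ)) =
      Real.exp ((Real.log 2 - 1 - Real.log (Real.log 2)) * (ss - θ)) := by
    rw [Real.rpow_def_of_pos two_pos]
    congr 1
    unfold dl
    field_simp
    ring
  have e3 : (zz / Real.exp 1) ^ (S + ss) =
      (zz / Real.exp 1) ^ S * Real.exp (-(ss * (1 + Real.log (Real.log 2)))) := by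
    rw [pow_add]
    congr 1
    have : zz / Real.exp 1 = Real.exp (-(1 + Real.log (Real.log 2))) := by
      unfold zz
      rw [neg_add, Real.exp_add, Real.exp_neg, Real.exp_neg, Real.exp_log hl]
      field_simp
    rw [this, ← Real.exp_nat_mul]
    congr 1
    ring
  have e4 : (2 : ℝ) ^ ((ss : ℝ) - θ + 1 / 2) = Real.exp ((ss - θ) * Real.log 2) * √2 := by
    rw [Real.rpow_add two_pos, Real.sqrt_eq_rpow, Real.rpow_def_of_pos two_pos ((ss : ℝ) - θ)]
    congr 2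
    ring
  unfold Cst kU cK mA
  rw [e1, e2, e3, e4]
  have e5 : Real.exp (-Mer) * Real.exp (-(k : ℝ)) *
      Real.exp ((Real.log 2 - 1 - Real.log (Real.log 2)) * (ss - θ)) *
      Real.exp (-(θ * Real.log (Real.log 2))) =
      Real.exp (-((k + mm : ℕ) : ℝ)) * Real.exp (-(ss * (1 + Real.log (Real.log 2)))) *
      Real.exp ((ss - θ) * Real.log 2) * Real.exp (-Mer) *
      Real.exp ((mm : ℝ) + 1 / 2 - Mer / Real.log 2) *
      Real.exp (θ + Mer / Real.log 2 - 1 / 2) := by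
    simp only [← Real.exp_add]
    congr 1
    push_cast
    ring
  calc √(2 / π) * (√2 * Real.exp (-Mer)) * Real.exp (-(k : ℝ)) * (zz / Real.exp 1) ^ S *
      Real.exp ((Real.log 2 - 1 - Real.log (Real.log 2)) * (ss - θ)) *
      Real.exp (-(θ * Real.log (Real.log 2)))
      = √(2 / π) * √2 * (zz / Real.exp 1) ^ S * (Real.exp (-Mer) * Real.exp (-(k : ℝ)) *
      Real.exp ((Real.log 2 - 1 - Real.log (Real.log 2)) * (ss - θ)) *
      Real.exp (-(θ * Real.log (Real.log 2)))) := by ring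
    _ = _ := by
      rw [e5]
      ring

/-- the terms of the double sum -/
def gx (k S : ℕ) (θ : ℝ) (a : ℕ) (m : ℤ) : ℝ :=
  zz ^ a.primeFactors.card * max 0 ((k : ℝ) - a.primeFactors.card) *
    (max 0 (θ + m) * zz ^ (θ + m) *
        FF S ((2 : ℝ) ^ (-(θ + m) - a.primeFactors.card) * LL a))

theorem gx_nonneg (k S : ℕ) (θ : ℝ) (a : ℕ) (m : ℤ) : 0 ≤ gx k S θ a m := by
  unfold gx
  have h1 := zz_pos
  have h2 : 0 ≤ FF S ((2 : ℝ) ^ (-(θ + m) - a.primeFactors.card) * LL a) :=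
    FF_nonneg S (mul_nonneg (by positivity) (LL_nonneg _))
  have h3 : 0 ≤ max 0 (θ + m) := le_max_left _ _
  have h4 : 0 ≤ max 0 ((k : ℝ) - a.primeFactors.card) := le_max_left _ _
  positivity

theorem gx_summable (k S : ℕ) (θ : ℝ) (a : ℕ) : Summable (gx k S θ a) :=
  (xin_summable S a θ).mul_left _

theorem gx_tsum (k S : ℕ) (θ : ℝ) (a : ℕ) : ∑' m, gx k S θ a m =
    zz ^ a.primeFactors.card * max 0 ((k : ℝ) - a.primeFactors.card) * xin S a θ := by
  unfold gx xin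
  rw [tsum_mul_left]

theorem XS_term (k S : ℕ) (θ : ℝ) (a : ℕ) : ind (Sm (bb k) a) / (a : ℝ) *
      zz ^ a.primeFactors.card * max 0 ((k : ℝ) - a.primeFactors.card) * xin S a θ =
      ind (Sm (bb k) a) / a * ∑' m, gx k S θ a m := by
  rw [gx_tsum]
  ring

theorem XS_term_nonneg (k S : ℕ) (θ : ℝ) (a : ℕ) : 0 ≤ ind (Sm (bb k) a) / (a : ℝ) *
      zz ^ a.primeFactors.card * max 0 ((k : ℝ) - a.primeFactors.card) * xin S a θ := by
  rw [XS_term]
  exact mul_nonneg (div_nonneg (ind_nonneg _) (Nat.cast_nonneg _))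
    (tsum_nonneg fun m => gx_nonneg _ _ _ _ _)

theorem XS_nonneg (k S : ℕ) (θ : ℝ) : 0 ≤ XS k S θ :=
  tsum_nonneg fun a => XS_term_nonneg k S θ a

theorem XS_ofReal (k S : ℕ) (θ : ℝ) : ENNReal.ofReal (XS k S θ) =
    ∑' n : ℕ, ENNReal.ofReal (ind (Sm (bb k) n) / n) *
      ∑' m : ℤ, ENNReal.ofReal (gx k S θ n m) := by
  have h1 : ENNReal.ofReal (XS k S θ) = ∑' n : ℕ, ENNReal.ofReal (ind (Sm (bb k) n) / (n : ℝ) *
      zz ^ n.primeFactors.card * max 0 ((k : ℝ) - n.primeFactors.card) * xin S n θ) :=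
    ENNReal.ofReal_tsum_of_nonneg (XS_term_nonneg k S θ) (xs_summable k S θ)
  rw [h1]
  refine tsum_congr fun n => ?_
  rw [XS_term, ENNReal.ofReal_mul (div_nonneg (ind_nonneg _) (Nat.cast_nonneg _)),
    ENNReal.ofReal_tsum_of_nonneg (gx_nonneg k S θ n) (gx_summable k S θ n)]

theorem gx_eq (k S : ℕ) (θ : ℝ) (f : ℕ) (B : Finset ℕ) (hB : ∀ p ∈ B, p.Prime) (m : ℤ) :
    Cst k S θ * (ind (Sm (bb k) f) * wf f * (∏ p ∈ B, (Real.log 2 * wz (k + mm) p)) *
      ind (∀ p ∈ B, ¬ p ∣ f) * gx k S θ (f * ∏ p ∈ B, p) m) =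
    ind (Sm (bb k) f) * wf f * (kU k S θ * (tb k S θ f B m * (P0 k f B * A0 θ m))) := by
  by_cases hf : Sm (bb k) f
  swap
  · rw [ind_not_of hf]
    ring
  by_cases hc : ∀ p ∈ B, ¬ p ∣ f
  swap
  · unfold tb
    rw [ind_not_of hc]
    ring
  have h0 := zz_pos
  have hcard := card_mul f B hf.1 hB hc
  have e1 : zz ^ (θ + m) = zz ^ θ * zz ^ m := by
    rw [Real.rpow_add h0, Real.rpow_intCast]
  have e2 : zz ^ ((f.primeFactors.card : ℤ) + B.card + m) =
      zz ^ (f.primeFactors.card + B.card) * zz ^ m := by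
    rw [zpow_add₀ h0.ne']
    congr 1
  have e3 : -(θ + (m : ℝ)) - ((f.primeFactors.card + B.card : ℕ) : ℝ) =
      -(m + θ) - (f.primeFactors.card + B.card) := by
    push_cast
    ring
  have e4 : (k : ℝ) - ((f.primeFactors.card + B.card : ℕ) : ℝ) =
      (k : ℝ) - f.primeFactors.card - B.card := by
    push_cast
    ring
  unfold gx tb P0 A0
  rw [hcard, e1, e2, e3, e4, add_comm θ (m : ℝ)]
  have h := const_eq k S θ
  calc _ = Cst k S θ * zz ^ θ * (ind (Sm (bb k) f) * wf f *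
      (∏ p ∈ B, (Real.log 2 * wz (k + mm) p)) *
      ind (∀ p ∈ B, ¬ p ∣ f) * (zz ^ (f.primeFactors.card + B.card) *
        max 0 ((k : ℝ) - f.primeFactors.card - B.card) * (max 0 (m + θ) * zz ^ m *
        FF S ((2 : ℝ) ^ (-((m : ℝ) + θ) - (f.primeFactors.card + B.card)) *
          LL (f * ∏ p ∈ B, p))))) := by ring
    _ = _ := by
      rw [h]
      ring

theorem XS_eq (k S : ℕ) (θ : ℝ) : ENNReal.ofReal (Cst k S θ * XS k S θ) =
    ∑' f : ℕ, ENNReal.ofReal (ind (Sm (bb k) f) * wf f) * nu k S θ f := by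
  rw [ENNReal.ofReal_mul (Cst_nonneg _ _ _), XS_ofReal,
    smooth_splitE k (fun n => ∑' m : ℤ, ENNReal.ofReal (gx k S θ n m)), ← ENNReal.tsum_mul_left]
  refine tsum_congr fun f => ?_
  unfold nu SE
  rw [Finset.mul_sum, Finset.mul_sum, Finset.mul_sum]
  refine Finset.sum_congr rfl fun B hB => ?_
  have hBp : ∀ p ∈ B, p.Prime := fun p hp =>
    (Nat.mem_primesLE.1 (Finset.mem_powerset.1 hB hp)).2
  rw [← ENNReal.tsum_mul_left, ← ENNReal.tsum_mul_left, ← ENNReal.tsum_mul_left,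
    ← ENNReal.tsum_mul_left]
  refine tsum_congr fun m => ?_
  have n1 : 0 ≤ ind (Sm (bb k) f) * wf f := mul_nonneg (ind_nonneg _) (wf_nonneg f)
  have n2 : 0 ≤ ind (Sm (bb k) f) * wf f * (∏ p ∈ B, (Real.log 2 * wz (k + mm) p)) *
      ind (∀ p ∈ B, ¬ p ∣ f) := mul_nonneg (mul_nonneg n1 (Finset.prod_nonneg fun p _ =>
        mul_nonneg (Real.log_nonneg (by norm_num)) (wz_nonneg _ _))) (ind_nonneg _)
  rw [← ENNReal.ofReal_mul n2, ← ENNReal.ofReal_mul (Cst_nonneg _ _ _),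
    ← ENNReal.ofReal_mul (kU_nonneg _ _ _), ← ENNReal.ofReal_mul n1,
    gx_eq k S θ f B hBp m]

theorem wd_summable : Summable (fun f : ℕ => wf f * f.divisors.card) := by
  refine Summable.of_nonneg_of_le (fun f => mul_nonneg (wf_nonneg f) (Nat.cast_nonneg _))
    (fun f => ?_) wf_sum
  rcases Nat.eq_zero_or_pos f with h | h
  · subst h
    simp
  · have h1 : (1 : ℝ) ≤ (f : ℝ) ^ (1 / 8 : ℝ) :=
      Real.one_le_rpow (by exact_mod_cast h) (by norm_num)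
    have h2 : 0 ≤ wf f * f.divisors.card := mul_nonneg (wf_nonneg f) (Nat.cast_nonneg _)
    nlinarith

end CmpX

theorem cmp_XS {ε : ℝ} (hε : 0 < ε) : ∃ F00 : ℕ, ∀ F0 ≥ F00, ∃ K0 : ℕ, ∀ k ≥ K0, ∀ S ≥ K0,
    ∀ θ : ℝ, (mm : ℝ) + 1 ≤ θ → θ ≤ mm + 2 →
    |∑ f ∈ Icc 1 F0, wf f * UL (k + mm) (S + ss) S (bb k) θ (fun _ _ => 1) f -
      √(2 / π) * (√2 * Real.exp (-Mer)) * Real.exp (-(k : ℝ)) * (zz / Real.exp 1) ^ S *
        (2 : ℝ) ^ (dl * (ss - θ)) * XS k S θ| ≤ ε := by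
  obtain ⟨CU, hCU, hUL⟩ := UL_le
  obtain ⟨Cn, hCn, hnu⟩ := CmpX.nu_le
  have hWs := CmpX.wd_summable
  set W : ℝ := ∑' f : ℕ, wf f * f.divisors.card with hW
  have hW0 : 0 ≤ W := tsum_nonneg fun f => mul_nonneg (wf_nonneg f) (Nat.cast_nonneg _)
  set e1 : ℝ := min 1 (ε / (3 * (CU * W + 1))) with he1
  have he1p : 0 < e1 := lt_min one_pos (by positivity)
  have he1l : e1 ≤ 1 := min_le_left _ _
  have he1r : e1 * (CU * W) ≤ ε / 3 := by
    have h1 : e1 ≤ ε / (3 * (CU * W + 1)) := min_le_right _ _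
    have h2 : 0 ≤ CU * W := by positivity
    calc e1 * (CU * W) ≤ ε / (3 * (CU * W + 1)) * (CU * W + 1) :=
          mul_le_mul h1 (by linarith) h2 (by positivity)
      _ = ε / 3 := by field_simp
  obtain ⟨F00, hF00⟩ := tail_wf (ε := ε / (3 * (Cn * CU))) (by positivity)
  refine ⟨F00, fun F0 hF0 => ?_⟩
  have htail := hF00 F0 hF0
  obtain ⟨C, hC, k0, hper⟩ := CmpX.per_f he1p he1l
  set η : ℝ := ε / (9 * C * (1 + F0) ^ 3) with hη
  have hη0 : 0 < η := by positivity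
  obtain ⟨K1, hK1⟩ := UL_small1 F0 hη0
  obtain ⟨S1, hS1⟩ := UL_small2 F0 hη0
  obtain ⟨K2, hK2⟩ := (tendsto_atTop.1 bb_tendsto F0).exists_forall_of_atTop
  refine ⟨max (max k0 K1) (max (max S1 1) K2), fun k hk S hS θ h1 h2 => ?_⟩
  have hk0 : k0 ≤ k := le_trans (le_trans (le_max_left _ _) (le_max_left _ _)) hk
  have hk1 : K1 ≤ k := le_trans (le_trans (le_max_right _ _) (le_max_left _ _)) hk
  have hk2 : K2 ≤ k := le_trans (le_trans (le_max_right _ _) (le_max_right _ _)) hk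
  have hs1 : S1 ≤ S :=
    le_trans (le_trans (le_trans (le_max_left _ _) (le_max_left _ _)) (le_max_right _ _)) hS
  have hs2 : 1 ≤ S :=
    le_trans (le_trans (le_trans (le_max_right _ _) (le_max_left _ _)) (le_max_right _ _)) hS
  have hbb : F0 ≤ bb k := hK2 k hk2
  have hSm : ∀ f ∈ Icc 1 F0, Sm (bb k) f := by
    intro f hf
    rw [Finset.mem_Icc] at hf
    exact ⟨by omega, fun p hp hpf => (Nat.le_of_dvd (by omega) hpf).trans (hf.2.trans hbb)⟩
  have hU0 : ∀ f, 0 ≤ UL (k + mm) (S + ss) S (bb k) θ (fun _ _ => 1) f := fun f =>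
    UL_nonneg _ _ _ _ _ _ (fun _ _ => ⟨zero_le_one, le_rfl⟩) _
  set U : ℕ → ℝ := fun f => UL (k + mm) (S + ss) S (bb k) θ (fun _ _ => 1) f with hU
  set v : ℕ → ℝ := fun f => (CmpX.nu k S θ f).toReal with hv
  have hv0 : ∀ f, 0 ≤ v f := fun f => ENNReal.toReal_nonneg
  have hnf : ∀ f, Sm (bb k) f → CmpX.nu k S θ f ≤ ENNReal.ofReal (Cn * U f) := fun f hf =>
    hnu k S θ f h1 h2 hf
  have hvU : ∀ f, Sm (bb k) f → v f ≤ Cn * (CU * f.divisors.card) := by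
    intro f hf
    have a1 : v f ≤ Cn * U f := by
      have := ENNReal.toReal_mono ENNReal.ofReal_ne_top (hnf f hf)
      rwa [ENNReal.toReal_ofReal (mul_nonneg hCn.le (hU0 f))] at this
    exact a1.trans (mul_le_mul_of_nonneg_left
      (hUL k S f θ (Nat.pos_of_ne_zero hf.1) hs2 h1 h2) hCn.le)
  set a : ℕ → ℝ := fun f => ind (Sm (bb k) f) * wf f * v f with ha
  have ha0 : ∀ f, 0 ≤ a f := fun f =>
    mul_nonneg (mul_nonneg (ind_nonneg _) (wf_nonneg f)) (hv0 f)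
  have hale : ∀ f, a f ≤ Cn * CU * (wf f * f.divisors.card) := by
    intro f
    by_cases hf : Sm (bb k) f
    · have b1 := hvU f hf
      have b2 := wf_nonneg f
      simp only [ha]
      rw [ind_of hf, one_mul]
      calc wf f * v f ≤ wf f * (Cn * (CU * f.divisors.card)) := mul_le_mul_of_nonneg_left b1 b2
        _ = _ := by ring
    · simp only [ha]
      rw [ind_not_of hf, zero_mul, zero_mul]
      have b2 := wf_nonneg f
      positivity
  have hasum : Summable a := Summable.of_nonneg_of_le ha0 hale (hWs.mul_left _)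
  have hX : CmpX.Cst k S θ * XS k S θ = ∑' f, a f := by
    have b1 := CmpX.XS_eq k S θ
    have b2 : ∀ f, ENNReal.ofReal (ind (Sm (bb k) f) * wf f) * CmpX.nu k S θ f =
        ENNReal.ofReal (a f) := by
      intro f
      by_cases hf : Sm (bb k) f
      · simp only [ha, hv]
        rw [ENNReal.ofReal_mul (mul_nonneg (ind_nonneg _) (wf_nonneg f)),
          ENNReal.ofReal_toReal (ne_top_of_le_ne_top ENNReal.ofReal_ne_top (hnf f hf))]
      · simp only [ha]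
        rw [ind_not_of hf]
        simp
    rw [tsum_congr b2, ← ENNReal.ofReal_tsum_of_nonneg ha0 hasum] at b1
    exact (ENNReal.ofReal_eq_ofReal_iff (mul_nonneg (CmpX.Cst_nonneg _ _ _)
      (CmpX.XS_nonneg _ _ _)) (tsum_nonneg ha0)).1 b1
  -- the splitting of the sum
  have hsplit : ∑' f, a f = ∑ f ∈ Icc 1 F0, a f + ∑' f, (if F0 < f then a f else 0) := by
    have c1 : ∀ f, a f = (if f ∈ Icc 1 F0 then a f else 0) + (if F0 < f then a f else 0) := by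
      intro f
      rcases Nat.eq_zero_or_pos f with h | h
      · subst h
        have : a 0 = 0 := by
          simp only [ha]
          rw [ind_not_of (fun h : Sm (bb k) 0 => h.1 rfl)]
          ring
        simp [this]
      · by_cases h3 : F0 < f
        · rw [if_neg (by rw [Finset.mem_Icc]; omega), if_pos h3, zero_add]
        · rw [if_pos (by rw [Finset.mem_Icc]; omega), if_neg h3, add_zero]
    have c2 : Summable (fun f => if f ∈ Icc 1 F0 then a f else 0) :=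
      summable_of_ne_finset_zero (s := Icc 1 F0) fun f hf => if_neg hf
    have c3 : Summable (fun f => if F0 < f then a f else 0) := by
      refine Summable.of_nonneg_of_le (fun f => ?_) (fun f => ?_) hasum
      · split_ifs
        · exact ha0 f
        · exact le_rfl
      · split_ifs
        · exact le_rfl
        · exact ha0 f
    rw [tsum_congr c1, c2.tsum_add c3]
    congr 1
    rw [tsum_eq_sum (s := Icc 1 F0) fun f hf => if_neg hf]
    exact Finset.sum_congr rfl fun f hf => if_pos hf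
  have htl0 : 0 ≤ ∑' f, (if F0 < f then a f else 0) := tsum_nonneg fun f => by
    split_ifs
    · exact ha0 f
    · exact le_rfl
  have htl : ∑' f, (if F0 < f then a f else 0) ≤ ε / 3 := by
    have c3 : Summable (fun f : ℕ => if F0 < f then wf f * f.divisors.card else 0) := by
      refine Summable.of_nonneg_of_le (fun f => ?_) (fun f => ?_) hWs
      · split_ifs
        · exact mul_nonneg (wf_nonneg f) (Nat.cast_nonneg _)
        · exact le_rfl
      · split_ifs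
        · exact le_rfl
        · exact mul_nonneg (wf_nonneg f) (Nat.cast_nonneg _)
    have c4 : ∀ f : ℕ, (if F0 < f then a f else 0) ≤
        Cn * CU * (if F0 < f then wf f * f.divisors.card else 0) := by
      intro f
      split_ifs
      · exact hale f
      · simp
    calc ∑' f, (if F0 < f then a f else 0)
        ≤ ∑' f : ℕ, Cn * CU * (if F0 < f then wf f * f.divisors.card else 0) :=
          Summable.tsum_le_tsum c4 (Summable.of_nonneg_of_le (fun f => by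
            split_ifs
            · exact ha0 f
            · exact le_rfl) c4 (c3.mul_left _)) (c3.mul_left _)
      _ = Cn * CU * ∑' f : ℕ, (if F0 < f then wf f * f.divisors.card else 0) := tsum_mul_left
      _ ≤ Cn * CU * (ε / (3 * (Cn * CU))) := mul_le_mul_of_nonneg_left htail (by positivity)
      _ = ε / 3 := by field_simp
  -- the finite sum
  have hfin : |∑ f ∈ Icc 1 F0, wf f * U f - ∑ f ∈ Icc 1 F0, a f| ≤ ε / 3 + ε / 3 := by
    rw [← Finset.sum_sub_distrib]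
    refine (Finset.abs_sum_le_sum_abs _ _).trans ?_
    have d1 : ∀ f ∈ Icc 1 F0, |wf f * U f - a f| ≤
        e1 * CU * (wf f * f.divisors.card) + C * (1 + (F0 : ℝ)) ^ 2 * (3 * η) := by
      intro f hf
      have hf' := Finset.mem_Icc.1 hf
      have g1 := hper k hk0 S θ f h1 h2 (hSm f hf)
      have g2 := hK1 k S hk1 hs2 f hf θ h1 h2
      have g3 := hS1 k S hs1 hs2 f hf θ h1 h2
      have g4 := hUL k S f θ hf'.1 hs2 h1 h2
      have g5 : (f.primeFactors.card : ℝ) ≤ F0 := by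
        have : f.primeFactors.card ≤ f := by
          have h3 : f.primeFactors ⊆ Icc 1 f := fun p hp => by
            rw [Finset.mem_Icc]
            exact ⟨(Nat.prime_of_mem_primeFactors hp).one_lt.le,
              Nat.le_of_mem_primeFactors hp⟩
          have h4 := Finset.card_le_card h3
          rwa [Nat.card_Icc, Nat.add_sub_cancel] at h4
        exact_mod_cast this.trans hf'.2
      have g6 : √(π / 2) ≤ 2 := by
        rw [Real.sqrt_le_left (by norm_num)]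
        have := Real.pi_lt_four
        linarith
      have g7 : ind (Sm (bb k) f) = 1 := ind_of (hSm f hf)
      have g8 : wf f * U f - a f = wf f * (U f - v f) := by
        simp only [ha]
        rw [g7]
        ring
      have w0 := wf_nonneg f
      have w1 := wf_le_one f
      have x0 : 0 ≤ UL (k + mm) (S + ss) S (bb k) θ (fun x _ => 1 / (x : ℝ)) f :=
        UL_nonneg _ _ _ _ _ _ (fun x _ => ⟨by positivity, EN.WfT.inv_le_one x⟩) _
      have g9 : √(π / 2) * UL (k + mm) (S + ss) S (bb k) θ (fun x _ => 1 / (x : ℝ)) f +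
          UL (k + mm) (S + ss) S (bb k) θ (fun _ w => 1 / (w : ℝ)) f ≤ 3 * η := by
        have : √(π / 2) * UL (k + mm) (S + ss) S (bb k) θ (fun x _ => 1 / (x : ℝ)) f ≤ 2 * η :=
          mul_le_mul g6 g2 x0 (by norm_num)
        linarith
      have g10 : C * (1 + (f.primeFactors.card : ℝ)) ^ 2 *
          (√(π / 2) * UL (k + mm) (S + ss) S (bb k) θ (fun x _ => 1 / (x : ℝ)) f +
          UL (k + mm) (S + ss) S (bb k) θ (fun _ w => 1 / (w : ℝ)) f) ≤
          C * (1 + (F0 : ℝ)) ^ 2 * (3 * η) := by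
        have q1 : C * (1 + (f.primeFactors.card : ℝ)) ^ 2 ≤ C * (1 + (F0 : ℝ)) ^ 2 := by
          gcongr
        refine (mul_le_mul_of_nonneg_left g9 (by positivity)).trans
          (mul_le_mul_of_nonneg_right q1 (by positivity))
      have g11 : |U f - v f| ≤ e1 * (CU * f.divisors.card) + C * (1 + (F0 : ℝ)) ^ 2 * (3 * η) := by
        refine g1.trans (add_le_add (mul_le_mul_of_nonneg_left g4 he1p.le) g10)
      rw [g8, abs_mul, abs_of_nonneg w0]
      calc wf f * |U f - v f|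
          ≤ wf f * (e1 * (CU * f.divisors.card) + C * (1 + (F0 : ℝ)) ^ 2 * (3 * η)) :=
            mul_le_mul_of_nonneg_left g11 w0
        _ = e1 * CU * (wf f * f.divisors.card) + wf f * (C * (1 + (F0 : ℝ)) ^ 2 * (3 * η)) := by
            ring
        _ ≤ _ := by
            have q2 : wf f * (C * (1 + (F0 : ℝ)) ^ 2 * (3 * η)) ≤
                1 * (C * (1 + (F0 : ℝ)) ^ 2 * (3 * η)) :=
              mul_le_mul_of_nonneg_right w1 (by positivity)
            linarith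
    refine (Finset.sum_le_sum d1).trans ?_
    rw [Finset.sum_add_distrib, ← Finset.mul_sum, Finset.sum_const, Nat.card_Icc,
      Nat.add_sub_cancel, nsmul_eq_mul]
    have d2 : ∑ f ∈ Icc 1 F0, wf f * f.divisors.card ≤ W :=
      hWs.sum_le_tsum _ fun f _ => mul_nonneg (wf_nonneg f) (Nat.cast_nonneg _)
    have d3 : e1 * CU * ∑ f ∈ Icc 1 F0, wf f * f.divisors.card ≤ ε / 3 := by
      refine (mul_le_mul_of_nonneg_left d2 (by positivity)).trans ?_
      rw [mul_assoc]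
      exact he1r
    have d4 : (F0 : ℝ) * (C * (1 + (F0 : ℝ)) ^ 2 * (3 * η)) ≤ ε / 3 := by
      have q3 : (F0 : ℝ) ≤ 1 + F0 := by linarith
      calc (F0 : ℝ) * (C * (1 + (F0 : ℝ)) ^ 2 * (3 * η))
          ≤ (1 + F0 : ℝ) * (C * (1 + (F0 : ℝ)) ^ 2 * (3 * η)) :=
            mul_le_mul_of_nonneg_right q3 (by positivity)
        _ = ε / 3 := by
            rw [hη]
            have : (1 + (F0 : ℝ)) ≠ 0 := by positivity
            field_simp
            ring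
    linarith
  have hcst : √(2 / π) * (√2 * Real.exp (-Mer)) * Real.exp (-(k : ℝ)) * (zz / Real.exp 1) ^ S *
        (2 : ℝ) ^ (dl * (ss - θ)) * XS k S θ = CmpX.Cst k S θ * XS k S θ := rfl
  rw [hcst, hX, hsplit]
  rw [abs_le] at hfin ⊢
  constructor <;> linarith [hfin.1, hfin.2]

end Pool.Agent.EN2
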