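import Mathlib
import Pool.Agent.Lib.MP_ec0ede_nt_EN2.Defs

set_option autoImplicit false

/-!
# MP_ec0ede_nt, project EN2, module GamB: a bound for the gamma function and numerical bounds
-/

noncomputable section

namespace Pool.Agent.EN2

open Real Filter Topology Finset Pool.Agent.EN

namespace GamB

open MeasureTheory

lemma integrable_bound {x δ : ℝ} (hx : 0 < x) (hδ : 0 < δ) :
    IntegrableOn (fun t : ℝ => t ^ (x - 1) * Real.exp (-(δ * t))) (Set.Ioi 0) := by
  have h := integrableOn_rpow_mul_exp_neg_mul_rpow (p := 1) (s := x - 1) (b := δ) (by linarith)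
    one_pos hδ
  refine h.congr_fun (fun t _ => ?_) measurableSet_Ioi
  simp only [Real.rpow_one, neg_mul]

/-- the integrand -/
def F (a : ℂ) (r : ℂ) (t : ℝ) : ℂ := (t : ℂ) ^ (a - 1) * Complex.exp (-(r * t))

lemma F_meas (a r : ℂ) : Measurable (F a r) := by
  unfold F
  refine Measurable.mul ?_ ?_
  · exact Complex.measurable_ofReal.pow_const _
  · exact Complex.measurable_exp.comp ((Complex.measurable_ofReal.const_mul r).neg)

lemma norm_F (a r : ℂ) {t : ℝ} (ht : 0 < t) :
    ‖F a r t‖ = t ^ (a.re - 1) * Real.exp (-(r.re * t)) := by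
  unfold F
  rw [norm_mul, Complex.norm_cpow_eq_rpow_re_of_pos ht, Complex.norm_exp]
  simp

lemma F_int {a r : ℂ} (ha : 0 < a.re) (hr : 0 < r.re) : IntegrableOn (F a r) (Set.Ioi 0) := by
  refine (integrable_bound ha hr).mono' (F_meas a r).aestronglyMeasurable ?_
  filter_upwards [ae_restrict_mem measurableSet_Ioi] with t ht
  rw [norm_F a r ht]

lemma F_diff {a r : ℂ} (ha : 0 < a.re) (hr : 0 < r.re) :
    DifferentiableAt ℂ (fun r => ∫ t in Set.Ioi (0 : ℝ), F a r t) r := by
  have hδ : 0 < r.re / 2 := by linarith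
  have h := hasDerivAt_integral_of_dominated_loc_of_deriv_le (𝕜 := ℂ)
    (μ := volume.restrict (Set.Ioi (0 : ℝ))) (F := fun r t => F a r t)
    (F' := fun r t => -(t : ℂ) * F a r t) (x₀ := r) (s := Metric.ball r (r.re / 2))
    (bound := fun t => t ^ (a.re + 1 - 1) * Real.exp (-(r.re / 2 * t)))
    (Metric.ball_mem_nhds r hδ)
    (Eventually.of_forall fun r => (F_meas a r).aestronglyMeasurable)
    (F_int ha hr)
    ((Complex.measurable_ofReal.neg.mul (F_meas a r)).aestronglyMeasurable)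
    ?_ (integrable_bound (by linarith) hδ) ?_
  · exact h.2.differentiableAt
  · filter_upwards [ae_restrict_mem measurableSet_Ioi] with t ht
    intro z hz
    have ht0 : (0 : ℝ) < t := ht
    rw [norm_mul, norm_F a z ht, norm_neg, Complex.norm_real, Real.norm_of_nonneg ht0.le,
      ← mul_assoc]
    have h1 : t * t ^ (a.re - 1) = t ^ (a.re + 1 - 1) := by
      rw [add_sub_right_comm, Real.rpow_add_one ht0.ne', mul_comm]
    rw [h1]
    refine mul_le_mul_of_nonneg_left (Real.exp_le_exp.2 (neg_le_neg ?_)) (by positivity)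
    refine mul_le_mul_of_nonneg_right ?_ ht0.le
    have h2 : |(z - r).re| ≤ ‖z - r‖ := Complex.abs_re_le_norm _
    have h3 : ‖z - r‖ < r.re / 2 := by rwa [← dist_eq_norm]
    rw [Complex.sub_re] at h2
    have h4 := (abs_le.1 (h2.trans h3.le)).1
    linarith
  · filter_upwards with t
    intro z _
    unfold F
    have h1 : HasDerivAt (fun z : ℂ => -(z * (t : ℂ))) (-(t : ℂ)) z := by
      have h0 := (hasDerivAt_id' z).mul_const (t : ℂ)
      rw [one_mul] at h0
      exact h0.fun_neg
    have h2 := (h1.cexp).const_mul ((t : ℂ) ^ (a - 1))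
    refine h2.congr_deriv ?_
    ring

/-- the right half plane -/
def U : Set ℂ := {r : ℂ | 0 < r.re}

lemma U_open : IsOpen U := isOpen_lt continuous_const Complex.continuous_re

lemma U_conn : IsPreconnected U := (convex_halfSpace_re_gt 0).isPreconnected

lemma inv_slit {r : ℂ} (hr : 0 < r.re) : 1 / r ∈ Complex.slitPlane := by
  left
  have hr0 : r ≠ 0 := by
    rintro rfl
    simp at hr
  rw [one_div, Complex.inv_re]
  exact div_pos hr (Complex.normSq_pos.2 hr0)

lemma main_eq {a r : ℂ} (ha : 0 < a.re) (hr : 0 < r.re) :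
    ∫ t in Set.Ioi (0 : ℝ), F a r t = (1 / r) ^ a * Complex.Gamma a := by
  have h1 : AnalyticOnNhd ℂ (fun r => ∫ t in Set.Ioi (0 : ℝ), F a r t) U :=
    DifferentiableOn.analyticOnNhd
      (fun z hz => (F_diff ha hz).differentiableWithinAt) U_open
  have h2 : AnalyticOnNhd ℂ (fun r : ℂ => (1 / r) ^ a * Complex.Gamma a) U := by
    refine DifferentiableOn.analyticOnNhd (fun z hz => ?_) U_open
    have hz0 : z ≠ 0 := by
      rintro rfl
      simp [U] at hz
    refine DifferentiableAt.differentiableWithinAt ?_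
    refine DifferentiableAt.mul_const ?_ _
    refine DifferentiableAt.cpow ?_ (differentiableAt_const a) (inv_slit hz)
    exact (differentiableAt_const _).div differentiableAt_id hz0
  have h3 : ∃ᶠ z in 𝓝[≠] (1 : ℂ), (fun r => ∫ t in Set.Ioi (0 : ℝ), F a r t) z =
      (fun r : ℂ => (1 / r) ^ a * Complex.Gamma a) z := by
    have ht : Tendsto (fun n : ℕ => (((1 : ℝ) + 1 / ((n : ℝ) + 1) : ℝ) : ℂ)) atTop
        (𝓝[≠] (1 : ℂ)) := by
      rw [tendsto_nhdsWithin_iff]
      constructor
      · have h4 : Tendsto (fun n : ℕ => (1 : ℝ) + 1 / ((n : ℝ) + 1)) atTop (𝓝 (1 + 0)) :=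
          tendsto_const_nhds.add tendsto_one_div_add_atTop_nhds_zero_nat
        rw [add_zero] at h4
        have h5 := (Complex.continuous_ofReal.tendsto 1).comp h4
        rw [Complex.ofReal_one] at h5
        exact h5
      · filter_upwards with n
        intro h
        have h6 : ((1 : ℝ) + 1 / ((n : ℝ) + 1) : ℝ) = 1 := by
          have h7 : ((((1 : ℝ) + 1 / ((n : ℝ) + 1) : ℝ)) : ℂ) = ((1 : ℝ) : ℂ) := by
            simpa using h
          exact Complex.ofReal_injective h7
        have h8 : (0 : ℝ) < 1 / ((n : ℝ) + 1) := by positivity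
        linarith
    refine ht.frequently (Frequently.of_forall fun n => ?_)
    have hpos : (0 : ℝ) < 1 + 1 / ((n : ℝ) + 1) := by positivity
    exact Complex.integral_cpow_mul_exp_neg_mul_Ioi ha hpos
  have h4 : (1 : ℂ) ∈ U := by simp [U]
  exact h1.eqOn_of_preconnected_of_frequently_eq h2 U_conn h4 h3 hr

lemma rot {a : ℂ} (ha : 0 < a.re) {θ : ℝ} (h0 : -(π / 2) < θ) (h1 : θ < π / 2) :
    Real.exp (θ * a.im) * ‖Complex.Gamma a‖ ≤ (Real.cos θ) ^ (-a.re) * Real.Gamma a.re := by
  have hpi := Real.pi_pos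
  have hcos : 0 < Real.cos θ := Real.cos_pos_of_mem_Ioo ⟨h0, h1⟩
  have hr : (Complex.exp (θ * Complex.I)).re = Real.cos θ := by
    rw [Complex.exp_ofReal_mul_I_re]
  have h2 := main_eq (r := Complex.exp (θ * Complex.I)) ha (by rw [hr]; exact hcos)
  have h3 : ‖(1 / Complex.exp (θ * Complex.I)) ^ a‖ = Real.exp (θ * a.im) := by
    rw [one_div, ← Complex.exp_neg, Complex.cpow_def_of_ne_zero (Complex.exp_ne_zero _),
      Complex.log_exp, Complex.norm_exp]
    · simp
    · simp
      linarith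
    · simp
      linarith
  calc Real.exp (θ * a.im) * ‖Complex.Gamma a‖
      = ‖(1 / Complex.exp (θ * Complex.I)) ^ a * Complex.Gamma a‖ := by rw [norm_mul, h3]
    _ = ‖∫ t in Set.Ioi (0 : ℝ), F a (Complex.exp (θ * Complex.I)) t‖ := by rw [h2]
    _ ≤ ∫ t in Set.Ioi (0 : ℝ), ‖F a (Complex.exp (θ * Complex.I)) t‖ :=
        norm_integral_le_integral_norm _
    _ = ∫ t in Set.Ioi (0 : ℝ), t ^ (a.re - 1) * Real.exp (-(Real.cos θ * t)) := by
        refine setIntegral_congr_fun measurableSet_Ioi fun t ht => ?_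
        rw [norm_F _ _ ht, hr]
    _ = (Real.cos θ) ^ (-a.re) * Real.Gamma a.re := by
        rw [Real.integral_rpow_mul_exp_neg_mul_Ioi ha hcos, one_div, Real.inv_rpow hcos.le,
          Real.rpow_neg hcos.le]

end GamB

theorem gam_bound {a : ℂ} (ha : 0 < a.re) {φ : ℝ} (h0 : 0 ≤ φ) (h1 : φ < π / 2) :
    ‖Complex.Gamma a‖ ≤
      Real.exp (-(φ * |a.im|)) * (Real.cos φ) ^ (-a.re) * Real.Gamma a.re := by
  have key : Real.exp (φ * |a.im|) * ‖Complex.Gamma a‖ ≤
      (Real.cos φ) ^ (-a.re) * Real.Gamma a.re := by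
    rcases le_total 0 a.im with h | h
    · rw [abs_of_nonneg h]
      exact GamB.rot ha (by linarith) h1
    · rw [abs_of_nonpos h]
      have := GamB.rot ha (θ := -φ) (by linarith) (by linarith [Real.pi_pos])
      rwa [Real.cos_neg, neg_mul_comm] at this
  rw [Real.exp_neg, mul_assoc, inv_mul_eq_div, le_div_iff₀ (Real.exp_pos _), mul_comm]
  exact key

theorem log2_b : 0.6931 < Real.log 2 ∧ Real.log 2 < 0.6932 := by
  have h1 := Real.log_two_gt_d9
  have h2 := Real.log_two_lt_d9
  constructor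
  · norm_num at h1 ⊢
    linarith
  · norm_num at h2 ⊢
    linarith

theorem kap_b : 1 / 2 < Real.log zz / Real.log 2 ∧ Real.log zz / Real.log 2 < 0.53 := by
  have h1 := Real.log_two_gt_d9
  have h2 := Real.log_two_lt_d9
  have hl : 0 < Real.log 2 := Real.log_pos (by norm_num)
  have hz : 0 < zz := by unfold zz; positivity
  have hz1 : 1.44 < zz := by
    unfold zz
    rw [lt_div_iff₀ hl]
    norm_num at h2 ⊢
    linarith
  have hz2 : zz < 1.4427 := by
    unfold zz
    rw [div_lt_iff₀ hl]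
    norm_num at h1 ⊢
    linarith
  constructor
  · rw [lt_div_iff₀ hl]
    have h3 : Real.log 2 < Real.log (zz ^ 2) := by
      refine Real.log_lt_log (by norm_num) ?_
      norm_num at hz1 ⊢
      nlinarith
    rw [Real.log_pow] at h3
    push_cast at h3
    linarith
  · rw [div_lt_iff₀ hl]
    have h3 : Real.log (zz ^ 100) < Real.log (2 ^ 53) := by
      refine Real.log_lt_log (by positivity) ?_
      calc zz ^ 100 ≤ 1.4427 ^ 100 := by gcongr
        _ < 2 ^ 53 := by norm_num
    rw [Real.log_pow, Real.log_pow] at h3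
    push_cast at h3
    norm_num at h3 ⊢
    linarith

theorem exp_b : Real.exp (-(3 / 2 * (2 * π / Real.log 2))) < 1.26 / 1000000 := by
  have h2 := Real.log_two_lt_d9
  have hl : 0 < Real.log 2 := Real.log_pos (by norm_num)
  have hpi := Real.pi_gt_d4
  have h3 : (13.59 : ℝ) ≤ 3 / 2 * (2 * π / Real.log 2) := by
    rw [mul_div_assoc', le_div_iff₀ hl]
    norm_num at h2 hpi ⊢
    linarith
  have h4 : Real.exp (0.59) ≥ 1.798 := by
    have h5 := Real.sum_le_exp_of_nonneg (x := 0.59) (by norm_num) 4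
    refine le_trans ?_ h5
    simp [Finset.sum_range_succ, Nat.factorial]
    norm_num
  have h5 : Real.exp 13.59 = (Real.exp 1) ^ 13 * Real.exp 0.59 := by
    rw [← Real.exp_nat_mul, ← Real.exp_add]
    norm_num
  have h6 : (793651 : ℝ) < Real.exp 13.59 := by
    rw [h5]
    have h7 : (2.7182818283 : ℝ) ^ 13 ≤ (Real.exp 1) ^ 13 :=
      pow_le_pow_left₀ (by norm_num) Real.exp_one_gt_d9.le 13
    calc (793651 : ℝ) < 2.7182818283 ^ 13 * 1.798 := by norm_num
      _ ≤ (Real.exp 1) ^ 13 * Real.exp 0.59 := mul_le_mul h7 h4 (by norm_num) (by positivity)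
  calc Real.exp (-(3 / 2 * (2 * π / Real.log 2))) ≤ Real.exp (-13.59) :=
        Real.exp_le_exp.2 (neg_le_neg h3)
    _ = 1 / Real.exp 13.59 := by rw [Real.exp_neg, one_div]
    _ < 1 / 793651 := one_div_lt_one_div_of_lt (by norm_num) h6
    _ < 1.26 / 1000000 := by norm_num

theorem cos_b : 0.07 < Real.cos (3 / 2) := by
  have h1 := Real.pi_gt_d4
  have h2 := Real.pi_lt_d4
  have h3 : Real.cos (3 / 2) = Real.sin (π / 2 - 3 / 2) := by rw [Real.sin_pi_div_two_sub]
  rw [h3]
  have hx : 0.0707 < π / 2 - 3 / 2 := by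
    norm_num at h1 ⊢
    linarith
  have hx2 : π / 2 - 3 / 2 < 0.0709 := by
    norm_num at h2 ⊢
    linarith
  have h4 := Real.sin_gt_sub_cube (x := π / 2 - 3 / 2) (lt_trans (by norm_num) hx)
  have h5 : (π / 2 - 3 / 2) ^ 3 ≤ 0.0709 ^ 3 :=
    pow_le_pow_left₀ (lt_trans (by norm_num) hx).le hx2.le 3
  norm_num at h5 hx ⊢
  linarith

end Pool.Agent.EN2
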