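import Mathlib
import Pool.Agent.Lib.MP_ec0ede_nt_EN2.Defs
import Pool.Agent.Lib.MP_ec0ede_nt_EN2.GamB

set_option autoImplicit false

noncomputable section

namespace Pool.Agent.EN2

open Real Filter Topology Finset Pool.Agent.EN

/-- the exponent `κ = log zz / log 2 = 0.5287...` -/
def kap : ℝ := Real.log zz / Real.log 2
/-- `zz ^ v * (1 - exp (- 2 ^ (- v)))` -/
def qf (v : ℝ) : ℝ := zz ^ v * (1 - Real.exp (-(2 : ℝ) ^ (-v)))

namespace FouQ

open MeasureTheory

lemma l2_pos : 0 < Real.log 2 := Real.log_pos one_lt_two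

lemma zz_pos : 0 < zz := by
  unfold zz
  exact one_div_pos.2 l2_pos

lemma one_lt_zz : 1 < zz := by
  unfold zz
  rw [lt_div_iff₀ l2_pos]
  linarith [Real.log_two_lt_d9]

lemma zz_lt_two : zz < 2 := by
  unfold zz
  rw [div_lt_iff₀ l2_pos]
  linarith [Real.log_two_gt_d9]

lemma lz_pos : 0 < Real.log zz := Real.log_pos one_lt_zz

lemma lz_lt : Real.log zz < Real.log 2 := Real.log_lt_log zz_pos zz_lt_two

lemma two_rpow (v : ℝ) : (2 : ℝ) ^ (-v) = Real.exp (-(v * Real.log 2)) := by
  rw [Real.rpow_def_of_pos two_pos]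
  ring_nf

lemma zz_rpow (v : ℝ) : zz ^ v = Real.exp (v * Real.log zz) := by
  rw [Real.rpow_def_of_pos zz_pos]
  ring_nf

/-- the constant `c = log zz - 2 π i k` -/
def cc (k : ℤ) : ℂ := (Real.log zz : ℂ) - 2 * π * k * Complex.I

lemma cc_re (k : ℤ) : (cc k).re = Real.log zz := by
  unfold cc
  simp

lemma cc_ne (k : ℤ) : cc k ≠ 0 := by
  intro h
  have := cc_re k
  rw [h, Complex.zero_re] at this
  exact lz_pos.ne this

/-- exponential decay implies integrability -/
lemma integrable_exp_abs {c : ℝ} (hc : 0 < c) :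
    Integrable (fun v : ℝ => Real.exp (-(c * |v|))) := by
  rw [← integrableOn_univ, ← Set.Iic_union_Ioi (a := (0 : ℝ)), integrableOn_union]
  constructor
  · refine (integrableOn_exp_mul_Iic hc 0).congr_fun (fun v hv => ?_) measurableSet_Iic
    have hv' : v ≤ 0 := hv
    show Real.exp (c * v) = Real.exp (-(c * |v|))
    rw [abs_of_nonpos hv']
    ring_nf
  · refine (integrableOn_exp_mul_Ioi (neg_neg_of_pos hc) 0).congr_fun (fun v hv => ?_)
      measurableSet_Ioi
    have hv' : 0 < v := hv
    show Real.exp (-c * v) = Real.exp (-(c * |v|))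
    rw [abs_of_pos hv']
    ring_nf

lemma one_sub_exp_le (x : ℝ) : 1 - Real.exp (-x) ≤ x := by
  linarith [Real.add_one_le_exp (-x)]

lemma mul_exp_le {x : ℝ} : x * Real.exp (-x) ≤ 1 - Real.exp (-x) := by
  have h1 : (x + 1) * Real.exp (-x) ≤ Real.exp x * Real.exp (-x) :=
    mul_le_mul_of_nonneg_right (Real.add_one_le_exp x) (Real.exp_pos _).le
  rw [← Real.exp_add, add_neg_cancel, Real.exp_zero] at h1
  linarith

end FouQ

open FouQ in
theorem qf_cont : Continuous qf := by
  have : qf = fun v => Real.exp (v * Real.log zz) *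
      (1 - Real.exp (-Real.exp (-(v * Real.log 2)))) := by
    funext v
    unfold qf
    rw [two_rpow, zz_rpow]
  rw [this]
  fun_prop

open FouQ in
theorem qf_bound : ∃ C c : ℝ, 0 < C ∧ 0 < c ∧ ∀ v : ℝ, 0 ≤ qf v ∧ qf v ≤ C * Real.exp (-(c * |v|)) := by
  refine ⟨1, min (Real.log zz) (Real.log 2 - Real.log zz), one_pos,
    lt_min lz_pos (by linarith [lz_lt]), fun v => ?_⟩
  have hx : 0 < Real.exp (-(v * Real.log 2)) := Real.exp_pos _
  have h0 : 0 ≤ 1 - Real.exp (-Real.exp (-(v * Real.log 2))) := by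
    rw [sub_nonneg, Real.exp_le_one_iff]
    linarith
  unfold qf
  rw [two_rpow, zz_rpow, one_mul]
  refine ⟨mul_nonneg (Real.exp_pos _).le h0, ?_⟩
  rcases le_total v 0 with hv | hv
  · have h1 : 1 - Real.exp (-Real.exp (-(v * Real.log 2))) ≤ 1 := by
      linarith [Real.exp_pos (-Real.exp (-(v * Real.log 2)))]
    calc Real.exp (v * Real.log zz) * (1 - Real.exp (-Real.exp (-(v * Real.log 2))))
        ≤ Real.exp (v * Real.log zz) * 1 := mul_le_mul_of_nonneg_left h1 (Real.exp_pos _).le
      _ = Real.exp (v * Real.log zz) := mul_one _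
      _ ≤ _ := by
        apply Real.exp_le_exp.2
        rw [abs_of_nonpos hv]
        have := min_le_left (Real.log zz) (Real.log 2 - Real.log zz)
        nlinarith
  · have h1 := one_sub_exp_le (Real.exp (-(v * Real.log 2)))
    calc Real.exp (v * Real.log zz) * (1 - Real.exp (-Real.exp (-(v * Real.log 2))))
        ≤ Real.exp (v * Real.log zz) * Real.exp (-(v * Real.log 2)) :=
          mul_le_mul_of_nonneg_left h1 (Real.exp_pos _).le
      _ = Real.exp (v * Real.log zz + -(v * Real.log 2)) := (Real.exp_add _ _).symm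
      _ ≤ _ := by
        apply Real.exp_le_exp.2
        rw [abs_of_nonneg hv]
        have := min_le_right (Real.log zz) (Real.log 2 - Real.log zz)
        nlinarith

namespace FouQ

open MeasureTheory

lemma qf_integrable : Integrable qf := by
  obtain ⟨C, c, hC, hc, h⟩ := qf_bound
  refine ((integrable_exp_abs hc).const_mul C).mono' qf_cont.aestronglyMeasurable
    (Eventually.of_forall fun v => ?_)
  rw [Real.norm_of_nonneg (h v).1]
  exact (h v).2

/-- `exp (c v)` -/
def ex1 (k : ℤ) (v : ℝ) : ℂ := Complex.exp (cc k * v)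

lemma norm_ex1 (k : ℤ) (v : ℝ) : ‖ex1 k v‖ = zz ^ v := by
  unfold ex1
  rw [Complex.norm_exp, zz_rpow]
  simp [cc_re, mul_comm]

lemma ex1_cont (k : ℤ) : Continuous (ex1 k) := by
  unfold ex1
  fun_prop

lemma ex1_deriv (k : ℤ) (v : ℝ) : HasDerivAt (fun v => ex1 k v / cc k) (ex1 k v) v := by
  have h1 : HasDerivAt (fun v : ℝ => cc k * (v : ℂ)) (cc k * 1) v :=
    (Complex.ofRealCLM.hasDerivAt (x := v)).const_mul (cc k)
  have h2 := (h1.cexp).div_const (cc k)
  refine HasDerivAt.congr_deriv h2 ?_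
  unfold ex1
  rw [mul_one, mul_div_assoc, div_self (cc_ne k), mul_one]

/-- `1 - exp (- 2 ^ (- v))` -/
def w1 (v : ℝ) : ℝ := 1 - Real.exp (-Real.exp (-(v * Real.log 2)))

/-- the derivative of `w1` -/
def w1' (v : ℝ) : ℝ :=
  -(Real.log 2 * (Real.exp (-(v * Real.log 2)) * Real.exp (-Real.exp (-(v * Real.log 2)))))

lemma w1_deriv (v : ℝ) : HasDerivAt w1 (w1' v) v := by
  have h1 : HasDerivAt (fun v : ℝ => -(v * Real.log 2)) (-(1 * Real.log 2)) v :=
    ((hasDerivAt_id v).mul_const _).neg
  have h3 : HasDerivAt (fun v : ℝ => -Real.exp (-(v * Real.log 2)))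
      (-(Real.exp (-(v * Real.log 2)) * -(1 * Real.log 2))) v := (h1.exp).neg
  have h2 := (h3.exp).const_sub 1
  refine HasDerivAt.congr_deriv h2 ?_
  unfold w1'
  ring

lemma w1_cont : Continuous w1 := by
  unfold w1
  fun_prop

lemma w1'_cont : Continuous w1' := by
  unfold w1'
  fun_prop

lemma qf_eq (v : ℝ) : qf v = zz ^ v * w1 v := by
  unfold qf w1
  rw [two_rpow]

lemma int_a (k : ℤ) : Integrable (fun v => ex1 k v * (w1 v : ℂ)) := by
  refine qf_integrable.mono' ((ex1_cont k).mul
    (Complex.continuous_ofReal.comp w1_cont)).aestronglyMeasurable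
    (Eventually.of_forall fun v => ?_)
  have h0 : 0 ≤ w1 v := by
    unfold w1
    rw [sub_nonneg, Real.exp_le_one_iff]
    linarith [Real.exp_pos (-(v * Real.log 2))]
  rw [norm_mul, norm_ex1, Complex.norm_real, Real.norm_of_nonneg h0, qf_eq]

lemma int_b (k : ℤ) : Integrable (fun v => ex1 k v * (w1' v : ℂ)) := by
  refine (qf_integrable.const_mul (Real.log 2)).mono' ((ex1_cont k).mul
    (Complex.continuous_ofReal.comp w1'_cont)).aestronglyMeasurable
    (Eventually.of_forall fun v => ?_)
  have hx := Real.exp_pos (-(v * Real.log 2))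
  have h1 : ‖w1' v‖ ≤ Real.log 2 * w1 v := by
    unfold w1'
    rw [norm_neg, Real.norm_of_nonneg (by
      have := l2_pos
      positivity)]
    exact mul_le_mul_of_nonneg_left mul_exp_le l2_pos.le
  rw [norm_mul, norm_ex1, Complex.norm_real, qf_eq]
  have hz : 0 < zz ^ v := Real.rpow_pos_of_pos zz_pos v
  calc zz ^ v * ‖w1' v‖ ≤ zz ^ v * (Real.log 2 * w1 v) := mul_le_mul_of_nonneg_left h1 hz.le
    _ = Real.log 2 * (zz ^ v * w1 v) := by ring

lemma parts (k : ℤ) : ∫ v : ℝ, ex1 k v * (w1 v : ℂ) =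
    -(1 / cc k) * ∫ v : ℝ, ex1 k v * (w1' v : ℂ) := by
  have h := integral_mul_deriv_eq_deriv_mul_of_integrable
    (u := fun v => (w1 v : ℂ)) (v := fun v => ex1 k v / cc k) (u' := fun v => (w1' v : ℂ))
    (v' := fun v => ex1 k v) (fun v _ => (w1_deriv v).ofReal_comp) (fun v _ => ex1_deriv k v)
    (by
      refine (int_a k).congr (Eventually.of_forall fun v => ?_)
      show ex1 k v * (w1 v : ℂ) = (w1 v : ℂ) * ex1 k v
      ring)
    (by
      have := (int_b k).const_mul (1 / cc k)
      refine this.congr (Eventually.of_forall fun v => ?_)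
      show 1 / cc k * (ex1 k v * (w1' v : ℂ)) = (w1' v : ℂ) * (ex1 k v / cc k)
      ring)
    (by
      have := (int_a k).const_mul (1 / cc k)
      refine this.congr (Eventually.of_forall fun v => ?_)
      show 1 / cc k * (ex1 k v * (w1 v : ℂ)) = (w1 v : ℂ) * (ex1 k v / cc k)
      ring)
  calc ∫ v : ℝ, ex1 k v * (w1 v : ℂ) = ∫ v : ℝ, (w1 v : ℂ) * ex1 k v := by
        congr 1
        funext v
        ring
    _ = -∫ v : ℝ, (w1' v : ℂ) * (ex1 k v / cc k) := h
    _ = -∫ v : ℝ, (1 / cc k) * (ex1 k v * (w1' v : ℂ)) := by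
        congr 2
        funext v
        ring
    _ = _ := by
        rw [integral_const_mul]
        ring

/-- the exponential change of variables in the gamma integral -/
lemma gam (s : ℂ) (hs : 0 < s.re) : Complex.Gamma s =
    Real.log 2 * ∫ v : ℝ, Complex.exp (-(s * Real.log 2 * v)) *
      (Real.exp (-Real.exp (-(v * Real.log 2))) : ℂ) := by
  rw [Complex.Gamma_eq_integral hs, Complex.GammaIntegral]
  have himg : (fun v : ℝ => Real.exp (-(v * Real.log 2))) '' Set.univ = Set.Ioi 0 := by
    ext x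
    constructor
    · rintro ⟨v, _, rfl⟩
      exact Real.exp_pos _
    · intro hx
      have hx' : 0 < x := hx
      refine ⟨-(Real.log x / Real.log 2), Set.mem_univ _, ?_⟩
      show Real.exp (-(-(Real.log x / Real.log 2) * Real.log 2)) = x
      rw [neg_mul, neg_neg, div_mul_cancel₀ _ l2_pos.ne', Real.exp_log hx']
  have hder : ∀ v ∈ (Set.univ : Set ℝ), HasDerivWithinAt
      (fun v : ℝ => Real.exp (-(v * Real.log 2)))
      (Real.exp (-(v * Real.log 2)) * -(1 * Real.log 2)) Set.univ v := by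
    intro v _
    have h1 : HasDerivAt (fun v : ℝ => -(v * Real.log 2)) (-(1 * Real.log 2)) v :=
      ((hasDerivAt_id v).mul_const _).neg
    exact h1.exp.hasDerivWithinAt
  have hinj : Set.InjOn (fun v : ℝ => Real.exp (-(v * Real.log 2))) Set.univ := by
    intro a _ b _ hab
    have h1 := Real.exp_injective hab
    have h2 : a * Real.log 2 = b * Real.log 2 := by linarith
    exact mul_right_cancel₀ l2_pos.ne' h2
  rw [← himg, integral_image_eq_integral_abs_deriv_smul MeasurableSet.univ hder hinj]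
  rw [Measure.restrict_univ, ← integral_const_mul]
  congr 1
  funext v
  have hE := Real.exp_pos (-(v * Real.log 2))
  have h3 : |Real.exp (-(v * Real.log 2)) * -(1 * Real.log 2)| =
      Real.log 2 * Real.exp (-(v * Real.log 2)) := by
    rw [one_mul, abs_mul, abs_neg, abs_of_pos hE, abs_of_pos l2_pos, mul_comm]
  rw [h3]
  have h4 : ((Real.exp (-(v * Real.log 2)) : ℝ) : ℂ) ^ (s - 1) =
      Complex.exp (-(v * Real.log 2) * (s - 1)) := by
    rw [Complex.cpow_def_of_ne_zero (by exact_mod_cast hE.ne'), ← Complex.ofReal_log hE.le,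
      Real.log_exp]
    push_cast
    rfl
  rw [h4, Complex.real_smul]
  push_cast
  have h5 : Complex.exp (-(s * Real.log 2 * v)) =
      Complex.exp (-(v * Real.log 2)) * Complex.exp (-(v * Real.log 2) * (s - 1)) := by
    rw [← Complex.exp_add]
    congr 1
    ring
  rw [h5]
  ring

end FouQ

open FouQ MeasureTheory in
theorem fou_q (k : ℤ) : ∫ v : ℝ, (qf v : ℂ) * Complex.exp (-(2 * π * k * v) * Complex.I) =
    Complex.Gamma (1 - kap + 2 * π * k / Real.log 2 * Complex.I) /
      ((kap - 2 * π * k / Real.log 2 * Complex.I) * Real.log 2) := by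
  have hl2 : (Real.log 2 : ℂ) ≠ 0 := by exact_mod_cast l2_pos.ne'
  have h1 : ∫ v : ℝ, (qf v : ℂ) * Complex.exp (-(2 * π * k * v) * Complex.I) =
      ∫ v : ℝ, ex1 k v * (w1 v : ℂ) := by
    congr 1
    funext v
    rw [qf_eq, zz_rpow]
    unfold ex1 cc
    push_cast
    rw [show ((Real.log zz : ℂ) - 2 * π * k * Complex.I) * v =
      v * Real.log zz + -(2 * π * k * v) * Complex.I by ring, Complex.exp_add]
    ring
  set s : ℂ := 1 - kap + 2 * π * k / Real.log 2 * Complex.I with hs
  have hsc : s * Real.log 2 = Real.log 2 - cc k := by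
    rw [hs]
    unfold cc kap
    push_cast
    field_simp
    ring
  have hsre : 0 < s.re := by
    have h2 : s.re = 1 - kap := by
      rw [hs]
      have : (1 - kap + 2 * π * k / Real.log 2 * Complex.I : ℂ) =
          ((1 - kap : ℝ) : ℂ) + ((2 * π * k / Real.log 2 : ℝ) : ℂ) * Complex.I := by
        push_cast
        rfl
      rw [this, Complex.add_re, Complex.ofReal_re, Complex.re_ofReal_mul, Complex.I_re, mul_zero,
        add_zero]
    rw [h2]
    unfold kap
    rw [sub_pos, div_lt_one l2_pos]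
    exact lz_lt
  have h3 : ∫ v : ℝ, ex1 k v * (w1' v : ℂ) = -Complex.Gamma s := by
    rw [gam s hsre, ← integral_const_mul, ← integral_neg]
    congr 1
    funext v
    unfold ex1 w1'
    push_cast
    rw [hsc]
    have h4 : Complex.exp (-((Real.log 2 - cc k) * v)) =
        Complex.exp (cc k * v) * Complex.exp (-(v * Real.log 2)) := by
      rw [← Complex.exp_add]
      congr 1
      ring
    rw [h4]
    ring
  rw [h1, parts, h3]
  have h5 : (kap - 2 * π * k / Real.log 2 * Complex.I) * Real.log 2 = cc k := by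
    unfold cc kap
    push_cast
    field_simp
  rw [h5]
  ring

end Pool.Agent.EN2
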