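import Mathlib
import Pool.Agent.Lib.MP_ec0ede_nt_EN2.Defs
import Pool.Agent.Lib.MP_ec0ede_nt_EN2.GamB
import Pool.Agent.Lib.MP_ec0ede_nt_EN2.FouQ

set_option autoImplicit false

noncomputable section

namespace Pool.Agent.EN2

open Real Filter Topology Finset Pool.Agent.EN

/-- the periodic function `∑ m, zz ^ (x + m) * (1 - exp (- 2 ^ (- (x + m))))` -/
def pq (x : ℝ) : ℝ := ∑' m : ℤ, qf (x + m)

theorem pq_period (x : ℝ) : pq (x + 1) = pq x := by
  unfold pq
  rw [← (Equiv.addRight (1 : ℤ)).tsum_eq (fun m : ℤ => qf (x + m))]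
  refine tsum_congr fun m => ?_
  simp only [Equiv.coe_addRight, Int.cast_add, Int.cast_one]
  congr 1
  ring

namespace PoiQ

theorem summable_geom_int {r : ℝ} (h0 : 0 ≤ r) (h1 : r < 1) :
    Summable (fun k : ℤ => r ^ k.natAbs) := by
  refine Summable.of_nat_of_neg ?_ ?_
  · simpa using summable_geometric_of_lt_one h0 h1
  · simpa using summable_geometric_of_lt_one h0 h1

theorem summable_exp_int {c : ℝ} (hc : 0 < c) :
    Summable (fun k : ℤ => Real.exp (-(c * |(k : ℝ)|))) := by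
  have h := summable_geom_int (r := Real.exp (-c)) (Real.exp_pos _).le
    (by rw [Real.exp_lt_one_iff]; linarith)
  refine h.congr fun k => ?_
  rw [← Real.exp_nat_mul]
  congr 1
  have : ((k.natAbs : ℕ) : ℝ) = |(k : ℝ)| := by
    rw [Nat.cast_natAbs, Int.cast_abs]
  rw [this]; ring

theorem hasSum_geom {r : ℝ} (h0 : 0 ≤ r) (h1 : r < 1) :
    HasSum (fun k : ℤ => if k = 0 then (0 : ℝ) else r ^ k.natAbs) (2 * (r / (1 - r))) := by
  have hg : HasSum (fun n : ℕ => r ^ (n + 1)) (r / (1 - r)) := by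
    have := (hasSum_geometric_of_lt_one h0 h1).mul_left r
    simpa [pow_succ', div_eq_mul_inv] using this
  rw [two_mul]
  refine HasSum.of_nat_of_neg_add_one ?_ ?_
  · rw [← hasSum_nat_add_iff' 1]
    simp only [Finset.range_one, Finset.sum_singleton, Nat.cast_zero, if_true, sub_zero]
    have e : (fun n : ℕ => if ((n + 1 : ℕ) : ℤ) = 0 then (0 : ℝ)
        else r ^ ((n + 1 : ℕ) : ℤ).natAbs) = fun n : ℕ => r ^ (n + 1) := by
      funext n
      rw [if_neg (by omega)]
      simp only [Int.natAbs_natCast]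
    rw [e]
    exact hg
  · have e : (fun n : ℕ => if -((n : ℤ) + 1) = 0 then (0 : ℝ)
        else r ^ (-((n : ℤ) + 1)).natAbs) = fun n : ℕ => r ^ (n + 1) := by
      funext n
      rw [if_neg (by omega)]
      congr 1
    rw [e]
    exact hg

/-- the factor -/
def e0 : ℝ := Real.exp (-(3 / 2 * (2 * π / Real.log 2)))

theorem log2_pos : 0 < Real.log 2 := Real.log_pos (by norm_num)

theorem kap_lo : 1 / 2 < kap := kap_b.1
theorem kap_hi : kap < 0.53 := kap_b.2

/-- the mean -/
def p0 : ℝ := Real.Gamma (1 - kap) / (kap * Real.log 2)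

theorem p0_pos : 0 < p0 := by
  have h1 := kap_lo
  have h2 := kap_hi
  have h3 := log2_pos
  have h4 : 0 < Real.Gamma (1 - kap) := Real.Gamma_pos_of_pos (by linarith)
  unfold p0
  have : 0 < kap := by linarith
  positivity

/-- the Fourier coefficients -/
def fh (k : ℤ) : ℂ := Complex.Gamma (1 - kap + 2 * π * k / Real.log 2 * Complex.I) /
      ((kap - 2 * π * k / Real.log 2 * Complex.I) * Real.log 2)

theorem fh_zero : fh 0 = (p0 : ℂ) := by
  unfold fh p0
  have : (1 : ℂ) - (kap : ℂ) = ((1 - kap : ℝ) : ℂ) := by push_cast; ring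
  simp only [Int.cast_zero, mul_zero, zero_div, zero_mul, add_zero, sub_zero]
  rw [this, Complex.Gamma_ofReal]
  push_cast
  ring

theorem re_ab (x y : ℝ) : ((x : ℂ) + (y : ℂ) * Complex.I).re = x := by
  simp only [Complex.add_re, Complex.ofReal_re, Complex.re_ofReal_mul, Complex.I_re, mul_zero,
    add_zero]

theorem im_ab (x y : ℝ) : ((x : ℂ) + (y : ℂ) * Complex.I).im = y := by
  simp only [Complex.add_im, Complex.ofReal_im, Complex.im_ofReal_mul, Complex.I_im, mul_one,
    zero_add]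

theorem fh_bound (k : ℤ) (hk : k ≠ 0) : ‖fh k‖ ≤ p0 * (0.2212 * e0 ^ k.natAbs) := by
  have h1 := kap_lo
  have h2 := kap_hi
  have h3 := log2_pos
  have hl := log2_b
  have h4 : 0 < Real.Gamma (1 - kap) := Real.Gamma_pos_of_pos (by linarith)
  have hkk : (1 : ℝ) ≤ |(k : ℝ)| := by
    rw [← Int.cast_abs]
    exact_mod_cast Int.one_le_abs hk
  set a : ℂ := 1 - kap + 2 * π * k / Real.log 2 * Complex.I with ha
  have haa : a = ((1 - kap : ℝ) : ℂ) + ((2 * π * k / Real.log 2 : ℝ) : ℂ) * Complex.I := by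
    rw [ha]; push_cast; ring
  have hre : a.re = 1 - kap := by
    rw [haa, re_ab]
  have him : a.im = 2 * π * k / Real.log 2 := by
    rw [haa, im_ab]
  have hpi : (3 / 2 : ℝ) < π / 2 := by linarith [Real.pi_gt_three]
  have hg := gam_bound (a := a) (by rw [hre]; linarith) (φ := 3 / 2) (by norm_num) hpi
  rw [hre, him] at hg
  have habs : |2 * π * (k : ℝ) / Real.log 2| = 2 * π / Real.log 2 * |(k : ℝ)| := by
    rw [abs_div, abs_mul, abs_of_pos (by positivity : (0 : ℝ) < 2 * π), abs_of_pos h3]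
    ring
  have hexp : Real.exp (-(3 / 2 * |2 * π * (k : ℝ) / Real.log 2|)) = e0 ^ k.natAbs := by
    unfold e0
    rw [← Real.exp_nat_mul, habs, Nat.cast_natAbs, Int.cast_abs]
    congr 1; ring
  have hcos0 := cos_b
  have hcos1 : Real.cos (3 / 2) ≤ 1 := Real.cos_le_one _
  have hcos : Real.cos (3 / 2) ^ (-(1 - kap)) ≤ 3.78 := by
    calc Real.cos (3 / 2) ^ (-(1 - kap)) ≤ (0.07 : ℝ) ^ (-(1 - kap)) :=
          Real.rpow_le_rpow_of_nonpos (by norm_num) hcos0.le (by linarith)
      _ ≤ (0.07 : ℝ) ^ (-(1 / 2) : ℝ) :=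
          Real.rpow_le_rpow_of_exponent_ge (by norm_num) (by norm_num) (by linarith)
      _ ≤ 3.78 := by
          rw [Real.rpow_neg (by norm_num), ← Real.sqrt_eq_rpow]
          rw [inv_le_comm₀ (Real.sqrt_pos.2 (by norm_num)) (by norm_num)]
          apply Real.le_sqrt_of_sq_le
          norm_num
  have hden : 2 * π * |(k : ℝ)| ≤
      ‖((kap - 2 * π * k / Real.log 2 * Complex.I) * Real.log 2 : ℂ)‖ := by
    have e : ((kap - 2 * π * k / Real.log 2 * Complex.I) * Real.log 2 : ℂ) =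
        ((kap * Real.log 2 : ℝ) : ℂ) + ((-(2 * π * k) : ℝ) : ℂ) * Complex.I := by
      have h5 : (Real.log 2 : ℂ) ≠ 0 := by exact_mod_cast h3.ne'
      push_cast
      field_simp
      ring
    rw [e]
    have := Complex.abs_im_le_norm
      (((kap * Real.log 2 : ℝ) : ℂ) + ((-(2 * π * k) : ℝ) : ℂ) * Complex.I)
    refine le_trans (le_of_eq ?_) this
    rw [im_ab, abs_neg, abs_mul, abs_of_pos (by positivity : (0 : ℝ) < 2 * π)]
  have hpik : 0 < 2 * π * |(k : ℝ)| := by positivity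
  have he0 : 0 ≤ e0 ^ k.natAbs := pow_nonneg (Real.exp_pos _).le _
  have hnum : ‖Complex.Gamma a‖ ≤ e0 ^ k.natAbs * 3.78 * Real.Gamma (1 - kap) := by
    refine hg.trans ?_
    rw [hexp]
    gcongr
  calc ‖fh k‖ = ‖Complex.Gamma a‖ /
        ‖((kap - 2 * π * k / Real.log 2 * Complex.I) * Real.log 2 : ℂ)‖ := by
        unfold fh; rw [norm_div]
    _ ≤ (e0 ^ k.natAbs * 3.78 * Real.Gamma (1 - kap)) / (2 * π * |(k : ℝ)|) := by
        gcongr
    _ ≤ (e0 ^ k.natAbs * 3.78 * Real.Gamma (1 - kap)) / (2 * π) := by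
        refine div_le_div_of_nonneg_left (by positivity) (by positivity) ?_
        nlinarith [Real.pi_pos]
    _ ≤ p0 * (0.2212 * e0 ^ k.natAbs) := by
        unfold p0
        have hk0 : 0 < kap := by linarith
        have hkl : kap * Real.log 2 ≤ 0.53 * 0.6932 := by
          nlinarith [hl.1, hl.2]
        have hpi' : 3.14159 < π := by
          have := Real.pi_gt_d6; linarith
        rw [div_le_iff₀ (by positivity)]
        rw [div_mul_eq_mul_div, div_mul_eq_mul_div, le_div_iff₀ (by positivity)]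
        have hA : 0 ≤ e0 ^ k.natAbs * Real.Gamma (1 - kap) := by positivity
        have : 3.78 * (kap * Real.log 2) ≤ 0.2212 * (2 * π) := by
          nlinarith
        nlinarith [mul_le_mul_of_nonneg_left this hA]

theorem four_eq (k : ℤ) :
    FourierTransform.fourier (fun v : ℝ => (qf v : ℂ)) (k : ℝ) = fh k := by
  rw [Real.fourier_real_eq_integral_exp_smul]
  unfold fh
  rw [← fou_q k]
  refine MeasureTheory.integral_congr_ae (Filter.Eventually.of_forall fun v => ?_)
  simp only [smul_eq_mul]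
  rw [mul_comm]
  congr 2
  push_cast
  ring

end PoiQ

theorem pq_summable (x : ℝ) : Summable (fun m : ℤ => qf (x + m)) := by
  obtain ⟨C, c, hC, hc, h⟩ := qf_bound
  refine Summable.of_nonneg_of_le (fun m => (h _).1) (fun m => (h _).2.trans ?_)
    ((PoiQ.summable_exp_int hc).mul_left (C * Real.exp (c * |x|)))
  rw [mul_assoc, ← Real.exp_add]
  refine mul_le_mul_of_nonneg_left (Real.exp_le_exp.2 ?_) hC.le
  have h1 : |(m : ℝ)| ≤ |x + m| + |x| := by
    have := abs_sub (x + m) x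
    simpa using this
  nlinarith [mul_le_mul_of_nonneg_left h1 hc.le]

theorem pq_near : ∃ p0 : ℝ, 0 < p0 ∧ ∀ x : ℝ, |pq x - p0| ≤ 7 / 10000000 * p0 := by
  refine ⟨PoiQ.p0, PoiQ.p0_pos, fun x => ?_⟩
  have hp0 := PoiQ.p0_pos
  have he1 : PoiQ.e0 < 1.26 / 1000000 := exp_b
  have he0 : 0 < PoiQ.e0 := Real.exp_pos _
  have hgs := PoiQ.hasSum_geom he0.le (by linarith)
  -- decay
  have hdec : (fun v : ℝ => (qf v : ℂ)) =O[cocompact ℝ] (fun v : ℝ => |v| ^ (-(2 : ℝ))) := by
    obtain ⟨C, c, hC, hc, h⟩ := qf_bound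
    refine Asymptotics.IsBigO.of_bound (2 * C / c ^ 2) ?_
    have : ({0}ᶜ : Set ℝ) ∈ cocompact ℝ := isCompact_singleton.compl_mem_cocompact
    filter_upwards [this] with v hv
    have hv0 : v ≠ 0 := hv
    have hav : 0 < |v| := abs_pos.2 hv0
    rw [Complex.norm_real, Real.norm_of_nonneg (h v).1, Real.norm_of_nonneg (by positivity),
      Real.rpow_neg (abs_nonneg v)]
    refine (h v).2.trans ?_
    have h1 : Real.exp (-(c * |v|)) ≤ 2 / (c * |v|) ^ 2 := by
      rw [Real.exp_neg, inv_le_comm₀ (Real.exp_pos _) (by positivity), inv_div]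
      have := Real.quadratic_le_exp_of_nonneg (by positivity : 0 ≤ c * |v|)
      nlinarith [mul_pos hc hav]
    calc C * Real.exp (-(c * |v|)) ≤ C * (2 / (c * |v|) ^ 2) := by gcongr
      _ = 2 * C / c ^ 2 * (|v| ^ (2 : ℝ))⁻¹ := by
        rw [show (2 : ℝ) = ((2 : ℕ) : ℝ) from rfl, Real.rpow_natCast]
        field_simp
  have hnorm : ∀ k : ℤ, ‖(if k = 0 then (0 : ℂ) else PoiQ.fh k * fourier k (x : UnitAddCircle))‖ ≤
      PoiQ.p0 * 0.2212 * (if k = 0 then (0 : ℝ) else PoiQ.e0 ^ k.natAbs) := by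
    intro k
    by_cases hk : k = 0
    · simp [hk]
    · rw [if_neg hk, if_neg hk, norm_mul]
      have : ‖(fourier k (x : UnitAddCircle) : ℂ)‖ = 1 := by
        rw [fourier_apply]; exact Circle.norm_coe _
      rw [this, mul_one, mul_assoc]
      exact PoiQ.fh_bound k hk
  have hsum0 : Summable (fun k : ℤ => PoiQ.fh k) := by
    refine Summable.of_norm ?_
    refine Summable.of_nonneg_of_le (fun _ => norm_nonneg _) (g := fun k => ‖PoiQ.fh k‖) ?_
      (((PoiQ.summable_geom_int he0.le (by linarith : PoiQ.e0 < 1)).mul_left (PoiQ.p0)))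
    intro k
    by_cases hk : k = 0
    · rw [hk, PoiQ.fh_zero, Complex.norm_real, Real.norm_of_nonneg hp0.le]; simp
    · refine (PoiQ.fh_bound k hk).trans ?_
      have : 0 ≤ PoiQ.e0 ^ k.natAbs := by positivity
      nlinarith [mul_nonneg hp0.le this]
  have hcont : Continuous (fun v : ℝ => (qf v : ℂ)) := Complex.continuous_ofReal.comp qf_cont
  have hps := Real.tsum_eq_tsum_fourier_of_rpow_decay_of_summable hcont (b := 2) (by norm_num)
    hdec (by simpa only [PoiQ.four_eq] using hsum0) x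
  simp only [PoiQ.four_eq] at hps
  have hsum1 : Summable (fun k : ℤ => PoiQ.fh k * fourier k (x : UnitAddCircle)) := by
    refine Summable.of_norm (hsum0.norm.congr fun k => ?_)
    rw [norm_mul]
    have : ‖(fourier k (x : UnitAddCircle) : ℂ)‖ = 1 := by
      rw [fourier_apply]; exact Circle.norm_coe _
    rw [this, mul_one]
  rw [hsum1.tsum_eq_add_tsum_ite 0] at hps
  have hc : (pq x : ℂ) = ∑' n : ℤ, (qf (x + n) : ℂ) := by
    unfold pq; exact Complex.ofReal_tsum _
  rw [← hc] at hps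
  rw [PoiQ.fh_zero] at hps
  have h0 : (fourier 0 (x : UnitAddCircle) : ℂ) = 1 := fourier_zero
  rw [h0, mul_one] at hps
  have hd : ((pq x - PoiQ.p0 : ℝ) : ℂ) =
      ∑' k : ℤ, (if k = 0 then (0 : ℂ) else PoiQ.fh k * fourier k (x : UnitAddCircle)) := by
    push_cast
    rw [hps]; ring
  have hb : |pq x - PoiQ.p0| ≤ PoiQ.p0 * 0.2212 * (2 * (PoiQ.e0 / (1 - PoiQ.e0))) := by
    rw [← Real.norm_eq_abs, ← Complex.norm_real, hd]
    exact tsum_of_norm_bounded (hgs.mul_left _) hnorm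
  refine hb.trans ?_
  have h1 : PoiQ.e0 / (1 - PoiQ.e0) ≤ 1.27 / 1000000 := by
    rw [div_le_iff₀ (by linarith)]
    nlinarith
  nlinarith [mul_le_mul_of_nonneg_left h1 hp0.le]

end Pool.Agent.EN2
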