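import Mathlib
import Pool.Agent.Lib.MP_ec0ede_nt_EN2.Defs
import Pool.Agent.Lib.MP_ec0ede_nt_EN2.FouQ
import Pool.Agent.Lib.MP_ec0ede_nt_EN2.PoiQ

set_option autoImplicit false

/-!
# MP_ec0ede_nt, project EN2, part 3: the value of the constant
-/

noncomputable section

namespace Pool.Agent.EN2

open Real Filter Topology Finset Pool.Agent.EN

/-- the logarithm to base 2 -/
def lb (x : ℝ) : ℝ := Real.log x / Real.log 2

/-- the prefactor -/
def c0 : ℝ := (Real.log 2) ^ (3 / 2 : ℝ) * √(2 / π)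

/-- the top functional with a test function -/
def BSg (S : ℕ) (g : ℝ → ℝ) : ℝ := (zz / Real.exp 1) ^ S *
  ∑' k : ℕ, (Real.log 2) ^ k / (k.factorial : ℝ) *
    ∫ v in Set.Icc (0 : Fin k → ℝ) (fun _ => (S : ℝ)),
      max 0 (lb (RR S v)) * (RR S v) ^ kap * g (lb (RR S v))

/-- the weights of the bottom part -/
def aw (K a : ℕ) : ℝ :=
  ind (Sm (bb K) a) / (a : ℝ) * max 0 ((K : ℝ) - a.primeFactors.card) * (LL a) ^ kap

/-- the product of the bottom and the top functional with a test function -/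
def Xg (K S : ℕ) (g : ℝ → ℝ) : ℝ :=
  (2 / Real.exp 1) ^ K * (∏ p ∈ Nat.primesLE (bb K), (1 - 1 / (p : ℝ))) *
    ∑' a : ℕ, aw K a * BSg S (fun y => g (lb (LL a) + y))

/-- the constant of the bottom part -/
def AK (K : ℕ) : ℝ :=
  (2 / Real.exp 1) ^ K * (∏ p ∈ Nat.primesLE (bb K), (1 - 1 / (p : ℝ))) * ∑' a : ℕ, aw K a

/-- the constant of the top part -/
def BS (S : ℕ) : ℝ := (zz / Real.exp 1) ^ S *
  ∑' k : ℕ, (Real.log 2) ^ k / (k.factorial : ℝ) *
    ∫ v in Set.Icc (0 : Fin k → ℝ) (fun _ => (S : ℝ)), max 0 (lb (RR S v)) * (RR S v) ^ kap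

end Pool.Agent.EN2
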