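import Mathlib
import Pool.Agent.Lib.MP_ec0ede_nt_EN2.Defs
import Pool.Agent.Lib.MP_ec0ede_nt_EN.LawB
import Pool.Agent.Lib.MP_ec0ede_nt_EN.App
import Pool.Agent.Lib.MP_ec0ede_nt_EN.Lim
import Pool.Agent.Lib.MP_ec0ede_nt_EN2.Rng
import Pool.Agent.Lib.MP_ec0ede_nt_EN2.App2
import Pool.Agent.Lib.MP_ec0ede_nt_EN2.CmpX
import Pool.Agent.Lib.MP_ec0ede_nt_EN2.ConP
import Pool.Agent.Lib.MP_ec0ede_nt_EN2.XiF
import Pool.Agent.Lib.MP_ec0ede_nt_EN2.ULb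

set_option autoImplicit false

/-!
# MP_ec0ede_nt, project EN2, module Fin2: the explicit formula
-/

noncomputable section

namespace Pool.Agent.EN2

open Real Filter Topology Finset Pool.Agent.EN

namespace Fin2

theorem Xi_add_nat (K S : ℕ) (t : ℝ) (n : ℕ) : Xi K S (t + n) = Xi K S t := by
  induction n with
  | zero => simp
  | succ n ih =>
    have h : t + ((n + 1 : ℕ) : ℝ) = (t + n) + 1 := by push_cast; ring
    rw [h, Xi_period, ih]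

theorem per_add_nat (Φ : ℝ → ℝ) (hp : ∀ x, Φ (x + 1) = Φ x) (t : ℝ) (n : ℕ) :
    Φ (t + n) = Φ t := by
  induction n with
  | zero => simp
  | succ n ih =>
    have h : t + ((n + 1 : ℕ) : ℝ) = (t + n) + 1 := by push_cast; ring
    rw [h, hp, ih]

/-- `Xi` in terms of `XS` -/
theorem Xi_eq (k S : ℕ) (θ : ℝ) : Xi k S θ =
    (Real.log 2) ^ (3 / 2 : ℝ) * √(2 / π) * (2 / Real.exp 1) ^ k *
      (∏ p ∈ Nat.primesLE (bb k), (1 - 1 / (p : ℝ))) * (zz / Real.exp 1) ^ S * XS k S θ := rfl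

/-- the pure algebra: `W - Xi = (1 - r) W` -/
theorem alg (k S : ℕ) (θ P : ℝ) (X1 : ℝ) :
    (Real.log 2) ^ (3 / 2 : ℝ) * √(2 / π) * (2 / Real.exp 1) ^ k * P * (zz / Real.exp 1) ^ S * X1
    = (P * 2 ^ k / (cinf * √2 * Real.exp (-Mer))) *
      (cinf * (Real.log 2) ^ (3 / 2 : ℝ) * (2 : ℝ) ^ (dl * (θ - ss)) *
        (√(2 / π) * (√2 * Real.exp (-Mer)) * Real.exp (-(k : ℝ)) * (zz / Real.exp 1) ^ S *
        (2 : ℝ) ^ (dl * (ss - θ)) * X1)) := by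
  have hc : cinf ≠ 0 := cinf_pos.ne'
  have h2 : √(2 : ℝ) ≠ 0 := by positivity
  have he : Real.exp (-Mer) ≠ 0 := (Real.exp_pos _).ne'
  have h1 : (2 : ℝ) ^ (dl * (θ - ss)) * (2 : ℝ) ^ (dl * (ss - θ)) = 1 := by
    rw [← Real.rpow_add (by norm_num)]
    have : dl * (θ - ss) + dl * (ss - θ) = 0 := by ring
    rw [this, Real.rpow_zero]
  have h3 : (2 / Real.exp 1) ^ k = 2 ^ k * Real.exp (-(k : ℝ)) := by
    rw [div_pow, ← Real.exp_nat_mul, mul_one, Real.exp_neg, div_eq_mul_inv]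
  rw [h3]
  calc (Real.log 2) ^ (3 / 2 : ℝ) * √(2 / π) * (2 ^ k * Real.exp (-(k : ℝ))) * P *
        (zz / Real.exp 1) ^ S * X1
      = (Real.log 2) ^ (3 / 2 : ℝ) * √(2 / π) * (2 ^ k * Real.exp (-(k : ℝ))) * P *
        (zz / Real.exp 1) ^ S * X1 *
        ((2 : ℝ) ^ (dl * (θ - ss)) * (2 : ℝ) ^ (dl * (ss - θ))) := by rw [h1, mul_one]
    _ = _ := by
      field_simp

/-- the ratio of the constants -/
theorem ratio_lim : Tendsto (fun k : ℕ =>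
    (∏ p ∈ Nat.primesLE (bb k), (1 - 1 / (p : ℝ))) * 2 ^ k / (cinf * √2 * Real.exp (-Mer)))
    atTop (𝓝 1) := by
  have h0 : cinf * √2 * Real.exp (-Mer) ≠ 0 := by
    have := cinf_pos
    positivity
  have h := pk_lim.div_const (cinf * √2 * Real.exp (-Mer))
  rwa [div_self h0] at h

/-- the factor on the window -/
theorem fac_le {θ : ℝ} (h1 : (mm : ℝ) + 1 ≤ θ) (h2 : θ ≤ mm + 2) :
    (2 : ℝ) ^ (dl * (θ - ss)) ≤ (2 : ℝ) ^ (|dl| * (mm + 2 + ss)) := by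
  refine Real.rpow_le_rpow_of_exponent_le (by norm_num) ?_
  have h3 : |θ - ss| ≤ mm + 2 + ss := by
    rw [abs_le]
    have hs : (0 : ℝ) ≤ ss := Nat.cast_nonneg _
    have hm : (0 : ℝ) ≤ mm := Nat.cast_nonneg _
    constructor <;> linarith
  calc dl * (θ - ss) ≤ |dl * (θ - ss)| := le_abs_self _
    _ = |dl| * |θ - ss| := abs_mul _ _
    _ ≤ |dl| * (mm + 2 + ss) := mul_le_mul_of_nonneg_left h3 (abs_nonneg _)

/-- the combination of the estimates -/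
theorem comb (A c U V X0 r M e1 e2 e3 B : ℝ) (hc0 : 0 ≤ c) (hc : c ≤ M) (h1 : |A - c * U| ≤ e1)
    (h2 : |U - V| ≤ e2) (hX : X0 = r * (c * V)) (hr : |r - 1| ≤ e3) (hU : |U| ≤ B) :
    |A - X0| ≤ e1 + M * e2 + e3 * (M * (B + e2)) := by
  have he2 : 0 ≤ e2 := (abs_nonneg _).trans h2
  have hM : 0 ≤ M := hc0.trans hc
  have hV : |V| ≤ B + e2 := by
    have h4 : V = U - (U - V) := by ring
    rw [h4]
    exact (abs_sub _ _).trans (add_le_add hU h2)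
  have e : A - X0 = (A - c * U) + c * (U - V) - (r - 1) * (c * V) := by rw [hX]; ring
  rw [e]
  refine (abs_sub _ _).trans (add_le_add ((abs_add_le _ _).trans (add_le_add h1 ?_)) ?_)
  · rw [abs_mul, abs_of_nonneg hc0]
    exact mul_le_mul hc h2 (abs_nonneg _) hM
  · rw [abs_mul, abs_mul, abs_of_nonneg hc0]
    exact mul_le_mul hr (mul_le_mul hc hV (abs_nonneg _) hM) (by positivity)
      ((abs_nonneg _).trans hr)

end Fin2

open Pool.Agent.EN2.Fin2 in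
theorem fin2 {ε : ℝ} (hε : 0 < ε) : ∃ K0 : ℕ, ∀ k ≥ K0, ∀ S ≥ K0, ∃ N0 : ℕ, ∀ N ≥ N0,
    |AA N - Xi k S (xx N)| ≤ ε := by
  have hci := cinf_pos
  have hl2 : 0 < Real.log 2 := Real.log_pos (by norm_num)
  obtain ⟨M, hM⟩ : ∃ M : ℝ, M = cinf * (Real.log 2) ^ (3 / 2 : ℝ) *
      (2 : ℝ) ^ (|dl| * (mm + 2 + ss)) := ⟨_, rfl⟩
  have hM0 : 0 < M := by
    rw [hM]
    positivity
  obtain ⟨e2, he2⟩ : ∃ e2 : ℝ, e2 = min 1 (ε / (4 * M)) := ⟨_, rfl⟩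
  have he20 : 0 < e2 := by
    rw [he2]
    exact lt_min one_pos (by positivity)
  have he21 : e2 ≤ 1 := by rw [he2]; exact min_le_left _ _
  have he22 : M * e2 ≤ ε / 4 := by
    calc M * e2 ≤ M * (ε / (4 * M)) := by
          refine mul_le_mul_of_nonneg_left ?_ hM0.le
          rw [he2]
          exact min_le_right _ _
      _ = ε / 4 := by field_simp
  obtain ⟨Fa, hFa⟩ := app2 (show (0 : ℝ) < ε / 4 by positivity)
  obtain ⟨Fb, hFb⟩ := cmp_XS he20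
  obtain ⟨F0, hF0⟩ : ∃ F0 : ℕ, F0 = max Fa Fb := ⟨_, rfl⟩
  obtain ⟨Ka, hKa⟩ := hFa F0 (by rw [hF0]; exact le_max_left _ _)
  obtain ⟨Kb, hKb⟩ := hFb F0 (by rw [hF0]; exact le_max_right _ _)
  obtain ⟨C, hC0, hC⟩ := UL_le
  obtain ⟨B, hB⟩ : ∃ B : ℝ, B = ∑ f ∈ Icc 1 F0, wf f * (C * f.divisors.card) := ⟨_, rfl⟩
  have hB0 : 0 ≤ B := by
    rw [hB]
    exact Finset.sum_nonneg fun f _ => mul_nonneg (wf_nonneg f) (by positivity)
  obtain ⟨e3, he3⟩ : ∃ e3 : ℝ, e3 = ε / (4 * (M * (B + 1))) := ⟨_, rfl⟩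
  have he30 : 0 < e3 := by
    rw [he3]
    positivity
  have he31 : e3 * (M * (B + 1)) = ε / 4 := by
    rw [he3]
    field_simp
  obtain ⟨Kc, hKc⟩ := eventually_atTop.mp (Metric.tendsto_nhds.mp ratio_lim e3 he30)
  refine ⟨Ka + Kb + Kc + 1, fun k hk S hS => ?_⟩
  obtain ⟨Na, hNa⟩ := hKa k (by omega) S (by omega)
  obtain ⟨Nb, hNb⟩ := eventually_atTop.mp
    (Lim.xx_tendsto.eventually_ge_atTop ((S : ℝ) + (mm + 1)))
  refine ⟨Na + Nb, fun N hN => ?_⟩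
  have hx := hNb N (by omega)
  -- the position
  obtain ⟨q, hq⟩ : ∃ q : ℕ, q = ⌊xx N - S⌋₊ := ⟨_, rfl⟩
  have hx0 : 0 ≤ xx N - S := by
    have hm : (0 : ℝ) ≤ mm := Nat.cast_nonneg _
    linarith
  have hq1 : (q : ℝ) ≤ xx N - S := by rw [hq]; exact Nat.floor_le hx0
  have hq2 : xx N - S < q + 1 := by rw [hq]; exact Nat.lt_floor_add_one _
  have hq3 : mm + 1 ≤ q := by
    rw [hq]
    refine Nat.le_floor ?_
    push_cast
    linarith
  obtain ⟨a, ha⟩ : ∃ a : ℕ, q = a + (mm + 1) := ⟨q - (mm + 1), by omega⟩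
  obtain ⟨θ, hθ⟩ : ∃ θ : ℝ, θ = xx N - S - a := ⟨_, rfl⟩
  have hqa : (q : ℝ) = a + (mm + 1) := by
    rw [ha]
    push_cast
    ring
  have hθ1 : (mm : ℝ) + 1 ≤ θ := by rw [hθ]; linarith
  have hθ2 : θ ≤ mm + 2 := by rw [hθ]; linarith
  have hper : Xi k S (xx N) = Xi k S θ := by
    have h : xx N = θ + ((S + a : ℕ) : ℝ) := by
      rw [hθ]
      push_cast
      ring
    rw [h, Xi_add_nat]
  rw [hper]
  have h1 := hNa N (by omega) a θ (by rw [hθ]; ring) hθ1 hθ2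
  have h2 := hKb k (by omega) S (by omega) θ hθ1 hθ2
  have h3 := hKc k (by omega)
  rw [Real.dist_eq] at h3
  have hU : |∑ f ∈ Icc 1 F0, wf f * UL (k + mm) (S + ss) S (bb k) θ (fun _ _ => 1) f| ≤ B := by
    rw [hB]
    refine (Finset.abs_sum_le_sum_abs _ _).trans (Finset.sum_le_sum fun f hf => ?_)
    have h4 := UL_nonneg (k + mm) (S + ss) S (bb k) θ (fun _ _ => 1)
      (fun _ _ => ⟨zero_le_one, le_rfl⟩) f
    rw [abs_of_nonneg (mul_nonneg (wf_nonneg f) h4)]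
    exact mul_le_mul_of_nonneg_left
      (hC k S f θ (Finset.mem_Icc.mp hf).1 (by omega) hθ1 hθ2) (wf_nonneg f)
  have hX : Xi k S θ = (∏ p ∈ Nat.primesLE (bb k), (1 - 1 / (p : ℝ))) * 2 ^ k /
      (cinf * √2 * Real.exp (-Mer)) * (cinf * (Real.log 2) ^ (3 / 2 : ℝ) *
        (2 : ℝ) ^ (dl * (θ - ss)) *
        (√(2 / π) * (√2 * Real.exp (-Mer)) * Real.exp (-(k : ℝ)) * (zz / Real.exp 1) ^ S *
        (2 : ℝ) ^ (dl * (ss - θ)) * XS k S θ)) := by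
    rw [Xi_eq, alg k S θ]
  have h5 := comb (AA N) (cinf * (Real.log 2) ^ (3 / 2 : ℝ) * (2 : ℝ) ^ (dl * (θ - ss))) _ _
    (Xi k S θ) _ M (ε / 4) e2 e3 B (by positivity)
    (by rw [hM]; exact mul_le_mul_of_nonneg_left (fac_le hθ1 hθ2) (by positivity))
    h1 h2 hX h3.le hU
  refine h5.trans ?_
  have h6 : e3 * (M * (B + e2)) ≤ ε / 4 := by
    rw [← he31]
    refine mul_le_mul_of_nonneg_left (mul_le_mul_of_nonneg_left ?_ hM0.le) he30.le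
    linarith
  linarith

open Pool.Agent.EN2.Fin2 in
theorem phi_xi (Φ : ℝ → ℝ) (hc : Continuous Φ) (hp : ∀ x, Φ (x + 1) = Φ x)
    (hΦ : Tendsto (fun N => AA N - Φ (xx N)) atTop (𝓝 0)) {ε : ℝ} (hε : 0 < ε) :
    ∃ K0 : ℕ, ∀ k ≥ K0, ∀ S ≥ K0, ∀ t : ℝ, |Φ t - Xi k S t| ≤ ε := by
  obtain ⟨K0, hK⟩ := fin2 (show (0 : ℝ) < ε / 3 by positivity)
  refine ⟨K0, fun k hk S hS t => ?_⟩
  obtain ⟨N0, hN0⟩ := hK k hk S hS
  have hc1 := Metric.continuous_iff.mp hc t (ε / 6) (by positivity)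
  obtain ⟨δ1, hδ1, hc1⟩ := hc1
  obtain ⟨δ2, hδ2, hc2⟩ := Metric.continuous_iff.mp (Xi_continuous k S) t (ε / 6) (by positivity)
  obtain ⟨N1, hN1⟩ := eventually_atTop.mp (Metric.tendsto_nhds.mp hΦ (ε / 6) (by positivity))
  obtain ⟨N, hN, L, h1, h2⟩ := Lim.dense_right t (lt_min hδ1 hδ2) (N0 + N1)
  have hd : |xx N - L - t| < min δ1 δ2 := by
    rw [abs_of_nonneg h1]
    exact h2
  have a1 := hc1 (xx N - L) (by rw [Real.dist_eq]; exact hd.trans_le (min_le_left _ _))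
  have a2 := hc2 (xx N - L) (by rw [Real.dist_eq]; exact hd.trans_le (min_le_right _ _))
  have a3 := hN1 N (by omega)
  have a4 := hN0 N (by omega)
  have e1 : Φ (xx N) = Φ (xx N - L) := by
    have h : xx N = (xx N - L) + (L : ℝ) := by ring
    conv_lhs => rw [h]
    rw [per_add_nat Φ hp]
  have e2 : Xi k S (xx N) = Xi k S (xx N - L) := by
    have h : xx N = (xx N - L) + (L : ℝ) := by ring
    conv_lhs => rw [h]
    rw [Xi_add_nat]
  rw [e1, Real.dist_eq, sub_zero] at a3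
  rw [e2] at a4
  rw [Real.dist_eq] at a1 a2
  rw [abs_lt] at a1 a2 a3
  rw [abs_le] at a4 ⊢
  constructor <;> linarith [a1.1, a1.2, a2.1, a2.2, a3.1, a3.2, a4.1, a4.2]

end Pool.Agent.EN2
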