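import Mathlib
import Pool.Agent.Lib.MP_ec0ede_nt_EN2.Defs
import Pool.Agent.Lib.MP_ec0ede_nt_EN2.FouQ
import Pool.Agent.Lib.MP_ec0ede_nt_EN2.PoiQ

set_option autoImplicit false

noncomputable section

namespace Pool.Agent.EN2

open Real Filter Topology Finset Pool.Agent.EN

namespace LamA

lemma lat (c : ℝ) (hc : 0 < c) : ∃ C : ℝ, 0 < C ∧ ∀ (x : ℝ) (F : ℤ → ℝ) (D : ℝ),
    (∀ m : ℤ, |F m| ≤ D * Real.exp (-(c * |x + m|))) → Summable F ∧ |∑' m, F m| ≤ D * C := by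
  have hgeo : Summable fun n : ℕ => Real.exp (-(c * n)) := by
    have h1 : Summable fun n : ℕ => (Real.exp (-c)) ^ n :=
      summable_geometric_of_lt_one (Real.exp_pos _).le (by
        rw [Real.exp_lt_one_iff]; linarith)
    refine h1.congr fun n => ?_
    rw [← Real.exp_nat_mul]
    congr 1
    ring
  have hs : Summable fun m : ℤ => Real.exp (-(c * |(m : ℝ)|)) := by
    apply Summable.of_nat_of_neg
    · refine hgeo.congr fun n => ?_
      rw [Int.cast_natCast, abs_of_nonneg (Nat.cast_nonneg n)]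
    · refine hgeo.congr fun n => ?_
      rw [Int.cast_neg, Int.cast_natCast, abs_neg, abs_of_nonneg (Nat.cast_nonneg n)]
  have hpos : 0 < ∑' m : ℤ, Real.exp (-(c * |(m : ℝ)|)) :=
    hs.tsum_pos (fun m => (Real.exp_pos _).le) 0 (Real.exp_pos _)
  refine ⟨Real.exp c * ∑' m : ℤ, Real.exp (-(c * |(m : ℝ)|)),
    mul_pos (Real.exp_pos _) hpos, fun x F D hF => ?_⟩
  have hD : 0 ≤ D := by
    have h1 := (abs_nonneg _).trans (hF 0)
    exact nonneg_of_mul_nonneg_left h1 (Real.exp_pos _)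
  have h1 : HasSum (fun m : ℤ => Real.exp (-(c * |((⌊x⌋ + m : ℤ) : ℝ)|)))
      (∑' m : ℤ, Real.exp (-(c * |(m : ℝ)|))) :=
    (Equiv.addLeft ⌊x⌋).hasSum_iff.mpr hs.hasSum
  have h2 := (h1.mul_left (Real.exp c)).mul_left D
  have h3 : ∀ m : ℤ, ‖F m‖ ≤ D * (Real.exp c * Real.exp (-(c * |((⌊x⌋ + m : ℤ) : ℝ)|))) := by
    intro m
    rw [Real.norm_eq_abs]
    refine (hF m).trans (mul_le_mul_of_nonneg_left ?_ hD)
    rw [← Real.exp_add, Real.exp_le_exp]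
    have h4 : |((⌊x⌋ + m : ℤ) : ℝ)| ≤ |x + m| + 1 := by
      have h5 : ((⌊x⌋ + m : ℤ) : ℝ) = (x + m) + (-(Int.fract x)) := by
        push_cast
        rw [Int.fract]
        ring
      rw [h5]
      refine (abs_add_le _ _).trans ?_
      rw [abs_neg, abs_of_nonneg (Int.fract_nonneg x)]
      linarith [Int.fract_lt_one x]
    nlinarith
  exact ⟨Summable.of_norm_bounded h2.summable h3, tsum_of_norm_bounded h2 h3⟩

lemma mul_exp_bd (c v : ℝ) (hc : 0 < c) :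
    v * Real.exp (-(c * v)) ≤ 2 / c * Real.exp (-(c / 2 * v)) := by
  have h1 : c / 2 * v ≤ Real.exp (c / 2 * v) := by
    linarith [Real.add_one_le_exp (c / 2 * v)]
  have h2 : Real.exp (-(c * v)) = Real.exp (-(c / 2 * v)) * Real.exp (-(c / 2 * v)) := by
    rw [← Real.exp_add]
    congr 1
    ring
  have h3 : Real.exp (c / 2 * v) * Real.exp (-(c / 2 * v)) = 1 := by
    rw [← Real.exp_add, add_neg_cancel, Real.exp_zero]
  have h4 : c / 2 * v * Real.exp (-(c / 2 * v)) ≤ 1 := by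
    rw [← h3]
    exact mul_le_mul_of_nonneg_right h1 (Real.exp_pos _).le
  have h5 : v * Real.exp (-(c / 2 * v)) ≤ 2 / c := by
    rw [le_div_iff₀ hc]
    nlinarith
  rw [h2, ← mul_assoc]
  exact mul_le_mul_of_nonneg_right h5 (Real.exp_pos _).le

lemma zz_pos : 0 < zz := by
  have := log2_b.1
  rw [zz]
  positivity

lemma a_pos : 0 < Real.log zz := by
  have h1 := kap_b.1
  have h2 := log2_b.1
  by_contra h
  push Not at h
  have : Real.log zz / Real.log 2 ≤ 0 := div_nonpos_of_nonpos_of_nonneg h (by linarith)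
  linarith

lemma b_pos : 0 < Real.log 2 - Real.log zz := by
  have h1 := kap_b.2
  have h2 := log2_b.1
  rw [div_lt_iff₀ (by linarith)] at h1
  linarith

lemma one_le_zz_rpow {q : ℝ} (hq : 0 ≤ q) : 1 ≤ zz ^ q := by
  rw [Real.rpow_def_of_pos zz_pos]
  exact Real.one_le_exp (mul_nonneg a_pos.le hq)

lemma zz_rpow (h : ℝ) : zz ^ h = Real.exp (Real.log zz * h) := Real.rpow_def_of_pos zz_pos h

lemma two_rpow (h : ℝ) : (2 : ℝ) ^ (-h) = Real.exp (-(Real.log 2 * h)) := by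
  rw [Real.rpow_def_of_pos two_pos]
  congr 1
  ring

lemma one_sub_nonneg (h : ℝ) {ρ : ℝ} (hρ : 0 ≤ ρ) :
    0 ≤ 1 - Real.exp (-((2 : ℝ) ^ (-h) * ρ)) := by
  have h1 : 0 ≤ (2 : ℝ) ^ (-h) * ρ := mul_nonneg (Real.rpow_pos_of_pos two_pos _).le hρ
  have h2 : Real.exp (-((2 : ℝ) ^ (-h) * ρ)) ≤ 1 := by
    rw [Real.exp_le_one_iff]
    linarith
  linarith

/-- the terms of the lattice sum -/
def T (ρ h : ℝ) : ℝ := max 0 h * zz ^ h * (1 - Real.exp (-((2 : ℝ) ^ (-h) * ρ)))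

/-- the terms with negative heights -/
def R (ρ h : ℝ) : ℝ := max 0 (-h) * zz ^ h * (1 - Real.exp (-((2 : ℝ) ^ (-h) * ρ)))

lemma T_nonneg (h : ℝ) {ρ : ℝ} (hρ : 0 ≤ ρ) : 0 ≤ T ρ h :=
  mul_nonneg (mul_nonneg (le_max_left _ _) (Real.rpow_pos_of_pos zz_pos _).le)
    (one_sub_nonneg h hρ)

lemma R_nonneg (h : ℝ) {ρ : ℝ} (hρ : 0 ≤ ρ) : 0 ≤ R ρ h :=
  mul_nonneg (mul_nonneg (le_max_left _ _) (Real.rpow_pos_of_pos zz_pos _).le)
    (one_sub_nonneg h hρ)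

lemma T_le (h : ℝ) {ρ : ℝ} (hρ : 0 ≤ ρ) :
    T ρ h ≤ ρ * (2 / (Real.log 2 - Real.log zz)) *
      Real.exp (-((Real.log 2 - Real.log zz) / 2 * |h|)) := by
  have hb := b_pos
  rcases le_or_gt h 0 with h0 | h0
  · rw [T, max_eq_left h0, zero_mul, zero_mul]
    positivity
  · rw [T, max_eq_right h0.le, abs_of_pos h0]
    have h1 : 1 - Real.exp (-((2 : ℝ) ^ (-h) * ρ)) ≤ (2 : ℝ) ^ (-h) * ρ := by
      linarith [Real.add_one_le_exp (-((2 : ℝ) ^ (-h) * ρ))]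
    have h2 := mul_exp_bd (Real.log 2 - Real.log zz) h hb
    have h3 : zz ^ h * (2 : ℝ) ^ (-h) = Real.exp (-((Real.log 2 - Real.log zz) * h)) := by
      rw [zz_rpow, two_rpow, ← Real.exp_add]
      congr 1
      ring
    have hz : 0 < zz ^ h := Real.rpow_pos_of_pos zz_pos _
    calc h * zz ^ h * (1 - Real.exp (-((2 : ℝ) ^ (-h) * ρ)))
        ≤ h * zz ^ h * ((2 : ℝ) ^ (-h) * ρ) :=
          mul_le_mul_of_nonneg_left h1 (mul_nonneg h0.le hz.le)
      _ = ρ * (h * (zz ^ h * (2 : ℝ) ^ (-h))) := by ring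
      _ = ρ * (h * Real.exp (-((Real.log 2 - Real.log zz) * h))) := by rw [h3]
      _ ≤ ρ * (2 / (Real.log 2 - Real.log zz) *
          Real.exp (-((Real.log 2 - Real.log zz) / 2 * h))) :=
          mul_le_mul_of_nonneg_left h2 hρ
      _ = _ := by ring

lemma R_le (h ρ : ℝ) :
    R ρ h ≤ 2 / Real.log zz * Real.exp (-(Real.log zz / 2 * |h|)) := by
  have ha := a_pos
  rcases le_or_gt 0 h with h0 | h0
  · rw [R, max_eq_left (by linarith), zero_mul, zero_mul]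
    positivity
  · rw [R, max_eq_right (by linarith), abs_of_neg h0]
    have h1 : 1 - Real.exp (-((2 : ℝ) ^ (-h) * ρ)) ≤ 1 := by
      linarith [Real.exp_pos (-((2 : ℝ) ^ (-h) * ρ))]
    have h2 := mul_exp_bd (Real.log zz) (-h) ha
    have hz : 0 < zz ^ h := Real.rpow_pos_of_pos zz_pos _
    have h3 : zz ^ h = Real.exp (-(Real.log zz * (-h))) := by
      rw [zz_rpow]
      congr 1
      ring
    calc -h * zz ^ h * (1 - Real.exp (-((2 : ℝ) ^ (-h) * ρ)))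
        ≤ -h * zz ^ h * 1 := mul_le_mul_of_nonneg_left h1 (mul_nonneg (by linarith) hz.le)
      _ = -h * Real.exp (-(Real.log zz * (-h))) := by rw [mul_one, h3]
      _ ≤ _ := h2

/-- the shifted form of a term -/
lemma T_eq (q v : ℝ) :
    T ((2 : ℝ) ^ q) (q + v) = zz ^ q * (q * qf v + v * qf v) + R ((2 : ℝ) ^ q) (q + v) := by
  have h1 : max 0 (q + v) = (q + v) + max 0 (-(q + v)) := by
    rcases le_total 0 (q + v) with h | h
    · rw [max_eq_right h, max_eq_left (by linarith), add_zero]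
    · rw [max_eq_left h, max_eq_right (by linarith), add_neg_cancel]
  have h2 : (2 : ℝ) ^ (-(q + v)) * (2 : ℝ) ^ q = (2 : ℝ) ^ (-v) := by
    rw [← Real.rpow_add two_pos]
    congr 1
    ring
  have h3 : zz ^ (q + v) = zz ^ q * zz ^ v := Real.rpow_add zz_pos _ _
  rw [T, R, h2, qf, h1, h3]
  ring

/-- the function `v * qf v` -/
lemma v_bound : ∃ D c : ℝ, 0 ≤ D ∧ 0 < c ∧ ∀ v : ℝ, |v * qf v| ≤ D * Real.exp (-(c * |v|)) := by
  obtain ⟨C, c, hC, hc, h⟩ := qf_bound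
  refine ⟨C * (2 / c), c / 2, by positivity, by positivity, fun v => ?_⟩
  obtain ⟨h1, h2⟩ := h v
  rw [abs_mul, abs_of_nonneg h1]
  have h3 := mul_exp_bd c |v| hc
  calc |v| * qf v ≤ |v| * (C * Real.exp (-(c * |v|))) := mul_le_mul_of_nonneg_left h2 (abs_nonneg v)
    _ = C * (|v| * Real.exp (-(c * |v|))) := by ring
    _ ≤ C * (2 / c * Real.exp (-(c / 2 * |v|))) := mul_le_mul_of_nonneg_left h3 hC.le
    _ = _ := by ring

end LamA

/-- the lattice sum -/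
def Lam (t ρ : ℝ) : ℝ := ∑' m : ℤ, max 0 (t + m) * zz ^ (t + m) *
  (1 - Real.exp (-((2 : ℝ) ^ (-(t + m)) * ρ)))
theorem Lam_summable (t : ℝ) {ρ : ℝ} (h : 0 ≤ ρ) : Summable (fun m : ℤ => max 0 (t + m) *
  zz ^ (t + m) * (1 - Real.exp (-((2 : ℝ) ^ (-(t + m)) * ρ)))) := by
  obtain ⟨C, hC, hlat⟩ := LamA.lat ((Real.log 2 - Real.log zz) / 2) (half_pos LamA.b_pos)
  refine (hlat t (fun m => LamA.T ρ (t + m)) (ρ * (2 / (Real.log 2 - Real.log zz))) ?_).1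
  intro m
  rw [abs_of_nonneg (LamA.T_nonneg _ h)]
  exact LamA.T_le _ h
theorem Lam_nonneg (t : ℝ) {ρ : ℝ} (h : 0 ≤ ρ) : 0 ≤ Lam t ρ :=
  tsum_nonneg fun m => LamA.T_nonneg (t + m) h

namespace LamA

/-- the bound for small `ρ` -/
lemma small : ∃ C : ℝ, 0 < C ∧ ∀ t ρ : ℝ, 0 ≤ ρ → Lam t ρ ≤ C * ρ := by
  obtain ⟨C, hC, hlat⟩ := lat ((Real.log 2 - Real.log zz) / 2) (half_pos b_pos)
  refine ⟨2 / (Real.log 2 - Real.log zz) * C, mul_pos (div_pos two_pos b_pos) hC,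
    fun t ρ h => ?_⟩
  have h1 := (hlat t (fun m => T ρ (t + m)) (ρ * (2 / (Real.log 2 - Real.log zz))) (by
    intro m
    rw [abs_of_nonneg (T_nonneg _ h)]
    exact T_le _ h)).2
  have h2 : Lam t ρ = ∑' m : ℤ, T ρ (t + m) := rfl
  rw [h2]
  refine (le_abs_self _).trans (h1.trans (le_of_eq ?_))
  ring

/-- the main term for large `ρ` -/
lemma large : ∃ C : ℝ, 0 < C ∧ ∀ t q : ℝ, 0 ≤ q →
    |Lam t ((2 : ℝ) ^ q) - zz ^ q * (q * pq (t - q))| ≤ C * zz ^ q := by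
  obtain ⟨D, c, hD, hc, hv⟩ := v_bound
  obtain ⟨C1, hC1, hlat1⟩ := lat c hc
  obtain ⟨C2, hC2, hlat2⟩ := lat (Real.log zz / 2) (half_pos a_pos)
  have ha := a_pos
  refine ⟨D * C1 + 2 / Real.log zz * C2 , by positivity, fun t q hq => ?_⟩
  have hρ : (0 : ℝ) ≤ (2 : ℝ) ^ q := (Real.rpow_pos_of_pos two_pos q).le
  obtain ⟨hs1, hb1⟩ := hlat1 (t - q) (fun m => (t - q + m) * qf (t - q + m)) D
    (fun m => hv (t - q + m))
  obtain ⟨hs2, hb2⟩ := hlat2 t (fun m => R ((2 : ℝ) ^ q) (t + m)) (2 / Real.log zz) (by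
    intro m
    rw [abs_of_nonneg (R_nonneg _ hρ)]
    exact R_le _ _)
  have h3 : HasSum (fun m : ℤ => qf (t - q + m)) (pq (t - q)) := (pq_summable (t - q)).hasSum
  have h4 := (((h3.mul_left q).add hs1.hasSum).mul_left (zz ^ q)).add hs2.hasSum
  have h5 : Lam t ((2 : ℝ) ^ q) = zz ^ q * (q * pq (t - q) +
      ∑' m : ℤ, (t - q + m) * qf (t - q + m)) + ∑' m : ℤ, R ((2 : ℝ) ^ q) (t + m) := by
    rw [← h4.tsum_eq]
    have h6 : Lam t ((2 : ℝ) ^ q) = ∑' m : ℤ, T ((2 : ℝ) ^ q) (t + m) := rfl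
    rw [h6]
    refine tsum_congr fun m => ?_
    have h7 : t + m = q + (t - q + m) := by ring
    have h8 := T_eq q (t - q + m)
    rw [← h7] at h8
    exact h8
  have h6 : Lam t ((2 : ℝ) ^ q) - zz ^ q * (q * pq (t - q)) =
      zz ^ q * (∑' m : ℤ, (t - q + m) * qf (t - q + m)) + ∑' m : ℤ, R ((2 : ℝ) ^ q) (t + m) := by
    rw [h5]
    ring
  have hz := one_le_zz_rpow hq
  rw [h6]
  refine (abs_add_le _ _).trans ?_
  rw [abs_mul, abs_of_pos (by linarith : (0 : ℝ) < zz ^ q)]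
  have h7 : zz ^ q * |∑' m : ℤ, (t - q + m) * qf (t - q + m)| ≤ zz ^ q * (D * C1) :=
    mul_le_mul_of_nonneg_left hb1 (by linarith)
  have h8 : 2 / Real.log zz * C2 ≤ zz ^ q * (2 / Real.log zz * C2) :=
    le_mul_of_one_le_left (by positivity) hz
  calc zz ^ q * |∑' m : ℤ, (t - q + m) * qf (t - q + m)| + |∑' m : ℤ, R ((2 : ℝ) ^ q) (t + m)|
      ≤ zz ^ q * (D * C1) + zz ^ q * (2 / Real.log zz * C2) := add_le_add h7 (hb2.trans h8)
    _ = _ := by ring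

lemma rpow_kap (q : ℝ) : ((2 : ℝ) ^ q) ^ kap = zz ^ q := by
  have h2 : Real.log 2 ≠ 0 := by
    have := log2_b.1
    linarith
  rw [← Real.rpow_mul two_pos.le, Real.rpow_def_of_pos two_pos, Real.rpow_def_of_pos zz_pos, kap]
  congr 1
  field_simp

lemma pq_osc (x y : ℝ) : pq x ≤ (1 + 2 / 1000000) * pq y := by
  obtain ⟨p0, hp0, h⟩ := pq_near
  have h1 := (abs_le.1 (h x)).2
  have h2 := (abs_le.1 (h y)).1
  nlinarith

end LamA

theorem lam_osc : ∃ C : ℝ, 0 < C ∧ ∀ t t' ρ : ℝ, 0 ≤ ρ →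
    Lam t ρ ≤ (1 + 2 / 1000000) * Lam t' ρ + C * ρ ^ kap := by
  obtain ⟨C1, hC1, h1⟩ := LamA.small
  obtain ⟨C2, hC2, h2⟩ := LamA.large
  refine ⟨C1 + 3 * C2, by positivity, fun t t' ρ hρ => ?_⟩
  have hk : 0 < kap ∧ kap < 1 := by
    have := kap_b
    rw [kap]
    exact ⟨by linarith, by linarith⟩
  have hpos : 0 ≤ ρ ^ kap := Real.rpow_nonneg hρ _
  have hL := Lam_nonneg t' hρ
  rcases le_or_gt ρ 1 with h | h
  · -- small `ρ`
    have h3 : ρ ≤ ρ ^ kap := by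
      rcases hρ.eq_or_lt with h0 | h0
      · rw [← h0, Real.zero_rpow hk.1.ne']
      · have h4 := Real.rpow_le_rpow_of_exponent_ge h0 h hk.2.le
        rwa [Real.rpow_one] at h4
    have h4 : C1 * ρ ≤ C1 * ρ ^ kap := mul_le_mul_of_nonneg_left h3 hC1.le
    have h5 : 0 ≤ 3 * C2 * ρ ^ kap := by positivity
    have h6 := h1 t ρ hρ
    nlinarith
  · -- large `ρ`
    have hq0 : 0 < ρ := by linarith
    obtain ⟨q, hq, rfl⟩ : ∃ q : ℝ, 0 ≤ q ∧ ρ = (2 : ℝ) ^ q := by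
      refine ⟨Real.log ρ / Real.log 2, div_nonneg (Real.log_nonneg h.le)
        (by have := log2_b.1; linarith), ?_⟩
      rw [Real.rpow_def_of_pos two_pos, mul_div_cancel₀ _ (by have := log2_b.1; linarith),
        Real.exp_log hq0]
    rw [LamA.rpow_kap] at hpos ⊢
    have h3 := (abs_le.1 (h2 t q hq)).2
    have h4 := (abs_le.1 (h2 t' q hq)).1
    have h5 : zz ^ q * (q * pq (t - q)) ≤ (1 + 2 / 1000000) * (zz ^ q * (q * pq (t' - q))) := by
      have h6 := mul_le_mul_of_nonneg_left (LamA.pq_osc (t - q) (t' - q)) (mul_nonneg hpos hq)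
      calc zz ^ q * (q * pq (t - q)) = zz ^ q * q * pq (t - q) := by ring
        _ ≤ _ := h6
        _ = _ := by ring
    have h6 : 0 ≤ C1 * zz ^ q := mul_nonneg hC1.le hpos
    have h7 : 0 ≤ C2 * zz ^ q := mul_nonneg hC2.le hpos
    nlinarith

end Pool.Agent.EN2
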