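import Mathlib
import Pool.Agent.Lib.MP_ec0ede_nt_EN2.Defs
import Pool.Agent.Lib.MP_ec0ede_nt_EN2.DefsC
import Pool.Agent.Lib.MP_ec0ede_nt_EN2.FouQ
import Pool.Agent.Lib.MP_ec0ede_nt_EN2.PoiQ
import Pool.Agent.Lib.MP_ec0ede_nt_EN2.LamA
import Pool.Agent.Lib.MP_ec0ede_nt_EN2.XiF

set_option autoImplicit false

/-!
# MP_ec0ede_nt, project EN2, part 3: module LamB, the asymptotics of the lattice sum
-/

noncomputable section

namespace Pool.Agent.EN2

open Real Filter Topology Finset Pool.Agent.EN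

namespace LamB

theorem log2_pos : 0 < Real.log 2 := Real.log_pos (by norm_num)

theorem kap_pos : 0 < kap := by
  have := kap_b.1
  rw [kap]
  linarith

theorem kap_lt : kap < 1 := by
  have := kap_b.2
  rw [kap]
  linarith

theorem two_lb {x : ℝ} (hx : 0 < x) : (2 : ℝ) ^ (lb x) = x := by
  unfold lb
  rw [Real.rpow_def_of_pos two_pos, mul_div_cancel₀ _ log2_pos.ne', Real.exp_log hx]

theorem lb_nonneg {x : ℝ} (hx : 1 ≤ x) : 0 ≤ lb x :=
  div_nonneg (Real.log_nonneg hx) log2_pos.le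

theorem lb_mul {x y : ℝ} (hx : 0 < x) (hy : 0 < y) : lb (x * y) = lb x + lb y := by
  unfold lb
  rw [Real.log_mul hx.ne' hy.ne', add_div]

theorem lb_mono {x y : ℝ} (hx : 0 < x) (h : x ≤ y) : lb x ≤ lb y :=
  div_le_div_of_nonneg_right (Real.log_le_log hx h) log2_pos.le

theorem lb_two_rpow (x : ℝ) : lb ((2 : ℝ) ^ x) = x := by
  unfold lb
  rw [Real.log_rpow two_pos, mul_div_assoc, div_self log2_pos.ne', mul_one]

theorem Lam_zero (t : ℝ) : Lam t 0 = 0 := by
  unfold Lam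
  simp

end LamB

theorem lam_asymp : ∃ C : ℝ, 0 < C ∧ ∀ t ρ : ℝ, 0 ≤ ρ →
    |Lam t ρ - max 0 (lb ρ) * ρ ^ kap * pq (t - lb ρ)| ≤ C * ρ ^ kap := by
  obtain ⟨C1, hC1, h1⟩ := LamA.small
  obtain ⟨C2, hC2, h2⟩ := LamA.large
  refine ⟨C1 + C2, by positivity, fun t ρ hρ => ?_⟩
  have hpos : 0 ≤ ρ ^ kap := Real.rpow_nonneg hρ _
  rcases le_or_gt ρ 1 with h | h
  · have h3 : ρ ≤ ρ ^ kap := by
      rcases hρ.eq_or_lt with h0 | h0
      · rw [← h0, Real.zero_rpow LamB.kap_pos.ne']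
      · have h4 := Real.rpow_le_rpow_of_exponent_ge h0 h LamB.kap_lt.le
        rwa [Real.rpow_one] at h4
    have h4 : lb ρ ≤ 0 := div_nonpos_of_nonpos_of_nonneg (Real.log_nonpos hρ h) LamB.log2_pos.le
    rw [max_eq_left h4, zero_mul, zero_mul, sub_zero, abs_of_nonneg (Lam_nonneg t hρ)]
    have h5 := h1 t ρ hρ
    have h6 : C1 * ρ ≤ C1 * ρ ^ kap := mul_le_mul_of_nonneg_left h3 hC1.le
    have h7 : 0 ≤ C2 * ρ ^ kap := by positivity
    nlinarith
  · have hρ0 : 0 < ρ := by linarith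
    have hq := LamB.lb_nonneg h.le
    have e1 := LamB.two_lb hρ0
    have h3 := h2 t (lb ρ) hq
    have h4 := LamA.rpow_kap (lb ρ)
    rw [e1] at h3 h4
    rw [max_eq_right hq, h4]
    have h5 : lb ρ * zz ^ (lb ρ) * pq (t - lb ρ) = zz ^ (lb ρ) * (lb ρ * pq (t - lb ρ)) := by ring
    rw [h5]
    refine h3.trans ?_
    rw [h4] at hpos
    have h7 : 0 ≤ C1 * zz ^ (lb ρ) := by positivity
    linarith

theorem LL_ge {a : ℕ} (ha : 1 ≤ a) : Real.log 2 ≤ LL a := by
  have hset : {t : ℝ | ∃ d ∈ a.divisors, Real.log d ≤ t ∧ t < Real.log d + Real.log 2} =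
      ⋃ d ∈ a.divisors, Set.Ico (Real.log d) (Real.log d + Real.log 2) := by
    ext t
    simp only [Set.mem_ofPred_eq, Set.mem_iUnion, Set.mem_Ico, exists_prop]
  have h1 : MeasureTheory.volume
      (⋃ d ∈ a.divisors, Set.Ico (Real.log (d : ℝ)) (Real.log d + Real.log 2)) ≤
      ∑ d ∈ a.divisors, MeasureTheory.volume
        (Set.Ico (Real.log (d : ℝ)) (Real.log d + Real.log 2)) :=
    MeasureTheory.measure_biUnion_finset_le _ _
  have h2 : ∑ d ∈ a.divisors, MeasureTheory.volume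
      (Set.Ico (Real.log (d : ℝ)) (Real.log d + Real.log 2)) =
      ENNReal.ofReal (a.divisors.card * Real.log 2) := by
    simp only [Real.volume_Ico, add_sub_cancel_left, Finset.sum_const, nsmul_eq_mul]
    rw [ENNReal.ofReal_mul (by positivity), ENNReal.ofReal_natCast]
  have h3 := h1.trans (le_of_eq h2)
  have h4 : MeasureTheory.volume
      (⋃ d ∈ a.divisors, Set.Ico (Real.log (d : ℝ)) (Real.log d + Real.log 2)) ≠ ⊤ :=
    (h3.trans_lt ENNReal.ofReal_lt_top).ne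
  have h5 : Set.Ico (0 : ℝ) (Real.log 2) ⊆
      ⋃ d ∈ a.divisors, Set.Ico (Real.log (d : ℝ)) (Real.log d + Real.log 2) := by
    intro t ht
    simp only [Set.mem_iUnion, exists_prop]
    refine ⟨1, Nat.mem_divisors.2 ⟨one_dvd a, by omega⟩, ?_⟩
    simpa using ht
  have h6 := ENNReal.toReal_mono h4 (MeasureTheory.measure_mono h5)
  rw [Real.volume_Ico, sub_zero, ENNReal.toReal_ofReal LamB.log2_pos.le] at h6
  unfold LL vol
  rw [hset]
  exact h6

theorem pq_add_nat (x : ℝ) (n : ℕ) : pq (x + n) = pq x := by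
  induction n with
  | zero => simp
  | succ n ih =>
    rw [Nat.cast_succ, ← add_assoc, pq_period, ih]

theorem pq_bdd : ∃ C : ℝ, 0 < C ∧ ∀ x : ℝ, 0 ≤ pq x ∧ pq x ≤ C := by
  obtain ⟨p0, hp0, h⟩ := pq_near
  refine ⟨2 * p0, by positivity, fun x => ?_⟩
  have h1 := abs_le.1 (h x)
  constructor <;> linarith [h1.1, h1.2]

namespace LamB

/-- `|lb (LL a)| ≤ 1 + lb (d a)` -/
theorem abs_lb_LL {a : ℕ} (ha : 1 ≤ a) : |lb (LL a)| ≤ 1 + lb a.divisors.card := by
  have h1 := LL_ge ha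
  have h2 := LL_le a
  have h3 : (1 / 2 : ℝ) ≤ Real.log 2 := by
    have := Real.log_two_gt_d9
    linarith
  have hd : (1 : ℝ) ≤ a.divisors.card := by
    have : 0 < a.divisors.card := Finset.card_pos.2 ⟨1, Nat.mem_divisors.2 ⟨one_dvd a, by omega⟩⟩
    exact_mod_cast this
  have h4 := lb_nonneg hd
  have hL : 0 < LL a := by linarith
  have h5 : lb (1 / 2) ≤ lb (LL a) := lb_mono (by norm_num) (by linarith)
  have h6 : lb (1 / 2) = -1 := by
    have := lb_two_rpow (-1)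
    rw [Real.rpow_neg_one] at this
    rw [one_div]
    exact this
  have h7 : lb (LL a) ≤ lb a.divisors.card := lb_mono hL h2
  rw [abs_le]
  constructor <;> linarith

theorem pow_bound {d : ℝ} (hd : 1 ≤ d) : d ^ kap * lb d ≤ d / ((1 - kap) * Real.log 2) := by
  have hk := kap_lt
  have h1 : Real.log d ≤ d ^ (1 - kap) / (1 - kap) :=
    Real.log_le_rpow_div (by linarith) (by linarith)
  have h2 : d ^ kap * d ^ (1 - kap) = d := by
    rw [← Real.rpow_add (by linarith)]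
    rw [add_sub_cancel, Real.rpow_one]
  have h3 : d ^ kap * Real.log d ≤ d / (1 - kap) := by
    calc d ^ kap * Real.log d ≤ d ^ kap * (d ^ (1 - kap) / (1 - kap)) :=
          mul_le_mul_of_nonneg_left h1 (Real.rpow_nonneg (by linarith) _)
      _ = d / (1 - kap) := by rw [← mul_div_assoc, h2]
  unfold lb
  rw [← mul_div_assoc, ← div_div]
  exact div_le_div_of_nonneg_right h3 log2_pos.le

end LamB

theorem lam_a : ∃ C : ℝ, 0 < C ∧ ∀ (a r : ℕ) (t : ℝ), 1 ≤ a →
    |zz ^ a.primeFactors.card * Lam t ((2 : ℝ) ^ (-(a.primeFactors.card : ℝ)) * LL a * r) -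
      (LL a) ^ kap * (max 0 (lb r) * (r : ℝ) ^ kap * pq (t - (lb (LL a) + lb r)))| ≤
    C * (a.primeFactors.card + 1) * a.divisors.card * (r : ℝ) ^ kap := by
  obtain ⟨C1, hC1, h1⟩ := lam_asymp
  obtain ⟨C2, hC2, h2⟩ := pq_bdd
  have hk1 : 0 < 1 - kap := by
    have := LamB.kap_lt
    linarith
  have hl2 := LamB.log2_pos
  refine ⟨C1 + C2 + C2 / ((1 - kap) * Real.log 2), by positivity, fun a r t ha => ?_⟩
  rcases Nat.eq_zero_or_pos r with h0 | hr
  · subst h0
    rw [Nat.cast_zero, mul_zero, LamB.Lam_zero, Real.zero_rpow LamB.kap_pos.ne']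
    simp
  · set w : ℕ := a.primeFactors.card with hw
    set d : ℝ := (a.divisors.card : ℝ) with hd
    have hL := LL_ge ha
    have hL0 : 0 < LL a := by linarith
    have hr1 : (1 : ℝ) ≤ r := by exact_mod_cast hr
    have hr0 : (0 : ℝ) < r := by linarith
    have hd1 : 1 ≤ d := by
      have : 0 < a.divisors.card :=
        Finset.card_pos.2 ⟨1, Nat.mem_divisors.2 ⟨one_dvd a, by omega⟩⟩
      rw [hd]
      exact_mod_cast this
    have h2w : (0 : ℝ) < (2 : ℝ) ^ (-(w : ℝ)) := Real.rpow_pos_of_pos two_pos _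
    set ρ : ℝ := (2 : ℝ) ^ (-(w : ℝ)) * LL a * r with hρ
    have hρ0 : 0 < ρ := by positivity
    have hz : 0 < zz := LamA.zz_pos
    have hzw : (0 : ℝ) < zz ^ w := pow_pos hz w
    -- the power of `ρ`
    have e1 : zz ^ w * ρ ^ kap = (LL a) ^ kap * (r : ℝ) ^ kap := by
      rw [hρ, Real.mul_rpow (by positivity) hr0.le, Real.mul_rpow h2w.le hL0.le, LamA.rpow_kap,
        Real.rpow_neg hz.le, Real.rpow_natCast]
      field_simp
    -- the logarithm of `ρ`
    have e2 : lb ρ = -(w : ℝ) + lb (LL a) + lb r := by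
      rw [hρ, LamB.lb_mul (by positivity) hr0, LamB.lb_mul h2w hL0, LamB.lb_two_rpow]
    have e3 : pq (t - lb ρ) = pq (t - (lb (LL a) + lb r)) := by
      have : t - lb ρ = t - (lb (LL a) + lb r) + (w : ℕ) := by
        rw [e2]
        ring
      rw [this, pq_add_nat]
    have h3 := h1 t ρ hρ0.le
    rw [e3] at h3
    set P := pq (t - (lb (LL a) + lb r)) with hP
    have hP0 := (h2 (t - (lb (LL a) + lb r))).1
    have hP1 := (h2 (t - (lb (LL a) + lb r))).2
    rw [← hP] at hP0 hP1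
    set A := (LL a) ^ kap * (r : ℝ) ^ kap with hA
    have hA0 : 0 ≤ A := by positivity
    have h4 : |zz ^ w * Lam t ρ - max 0 (lb ρ) * A * P| ≤ C1 * A := by
      have : zz ^ w * Lam t ρ - max 0 (lb ρ) * A * P =
          zz ^ w * (Lam t ρ - max 0 (lb ρ) * ρ ^ kap * P) := by
        rw [← e1]
        ring
      rw [this, abs_mul, abs_of_pos hzw]
      calc zz ^ w * |Lam t ρ - max 0 (lb ρ) * ρ ^ kap * P| ≤ zz ^ w * (C1 * ρ ^ kap) :=
            mul_le_mul_of_nonneg_left h3 hzw.le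
        _ = C1 * A := by rw [← e1]; ring
    have h5 : |max 0 (lb ρ) - max 0 (lb r)| ≤ w + 1 + lb d := by
      have q1 : |max 0 (lb ρ) - max 0 (lb r)| ≤ |lb ρ - lb r| := by
        have := abs_max_sub_max_le_abs (lb ρ) (lb r) 0
        rwa [max_comm (lb ρ) 0, max_comm (lb r) 0] at this
      have q2 : lb ρ - lb r = lb (LL a) - w := by
        rw [e2]
        ring
      have q3 : |lb (LL a) - w| ≤ |lb (LL a)| + |(w : ℝ)| := abs_sub _ _
      rw [q2] at q1
      have q4 := LamB.abs_lb_LL ha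
      have q5 : |(w : ℝ)| = w := abs_of_nonneg (Nat.cast_nonneg w)
      linarith
    have h6 : |max 0 (lb ρ) * A * P - (LL a) ^ kap * (max 0 (lb r) * (r : ℝ) ^ kap * P)| ≤
        C2 * (w + 1 + lb d) * A := by
      have : max 0 (lb ρ) * A * P - (LL a) ^ kap * (max 0 (lb r) * (r : ℝ) ^ kap * P) =
          (max 0 (lb ρ) - max 0 (lb r)) * P * A := by
        rw [hA]
        ring
      rw [this, abs_mul, abs_mul, abs_of_nonneg hP0, abs_of_nonneg hA0]
      refine mul_le_mul_of_nonneg_right ?_ hA0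
      calc |max 0 (lb ρ) - max 0 (lb r)| * P ≤ (w + 1 + lb d) * C2 :=
            mul_le_mul h5 hP1 hP0 (le_trans (abs_nonneg _) h5)
        _ = C2 * (w + 1 + lb d) := by ring
    have h7 : |zz ^ w * Lam t ρ - (LL a) ^ kap * (max 0 (lb r) * (r : ℝ) ^ kap * P)| ≤
        (C1 + C2 * (w + 1 + lb d)) * A := by
      calc _ ≤ |zz ^ w * Lam t ρ - max 0 (lb ρ) * A * P| +
            |max 0 (lb ρ) * A * P - (LL a) ^ kap * (max 0 (lb r) * (r : ℝ) ^ kap * P)| :=
            abs_sub_le _ _ _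
        _ ≤ C1 * A + C2 * (w + 1 + lb d) * A := add_le_add h4 h6
        _ = _ := by ring
    refine h7.trans ?_
    have hrk : 0 ≤ (r : ℝ) ^ kap := Real.rpow_nonneg hr0.le _
    rw [hA, ← mul_assoc]
    refine mul_le_mul_of_nonneg_right ?_ hrk
    have hlb := LamB.lb_nonneg hd1
    have h8 : (LL a) ^ kap ≤ d ^ kap :=
      Real.rpow_le_rpow hL0.le (LL_le a) LamB.kap_pos.le
    have h9 : d ^ kap ≤ d := by
      have := Real.rpow_le_rpow_of_exponent_le hd1 LamB.kap_lt.le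
      rwa [Real.rpow_one] at this
    have h10 := LamB.pow_bound hd1
    have hw0 : (0 : ℝ) ≤ w := Nat.cast_nonneg w
    have hdk : 0 ≤ d ^ kap := Real.rpow_nonneg (by linarith) _
    have hc0 : 0 ≤ C1 + C2 * (w + 1 + lb d) := by positivity
    calc (C1 + C2 * (w + 1 + lb d)) * (LL a) ^ kap
        ≤ (C1 + C2 * (w + 1 + lb d)) * d ^ kap := mul_le_mul_of_nonneg_left h8 hc0
      _ = (C1 + C2 * (w + 1)) * d ^ kap + C2 * (d ^ kap * lb d) := by ring
      _ ≤ (C1 + C2 * (w + 1)) * d + C2 * (d / ((1 - kap) * Real.log 2)) := by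
          gcongr
      _ = (C1 + C2 * (w + 1) + C2 / ((1 - kap) * Real.log 2)) * d := by ring
      _ ≤ ((C1 + C2 + C2 / ((1 - kap) * Real.log 2)) * (w + 1)) * d := by
          refine mul_le_mul_of_nonneg_right ?_ (by linarith)
          have g1 : 0 ≤ C1 * w := by positivity
          have g2 : 0 ≤ C2 / ((1 - kap) * Real.log 2) * w := by positivity
          nlinarith

end Pool.Agent.EN2
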