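import Mathlib
import Pool.Agent.Lib.MP_ec0ede_nt_EN2.Defs
import Pool.Agent.Lib.MP_ec0ede_nt_EN2.DefsC
import Pool.Agent.Lib.MP_ec0ede_nt_EN2.FouQ
import Pool.Agent.Lib.MP_ec0ede_nt_EN2.PoiQ
import Pool.Agent.Lib.MP_ec0ede_nt_EN2.LamB

set_option autoImplicit false

/-!
# MP_ec0ede_nt, project EN2, module PqM: the periodic function `pq` and its mean
-/

noncomputable section

namespace Pool.Agent.EN2

open Real Filter Topology Finset Pool.Agent.EN

namespace PqM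

theorem norm_four (k : ℤ) (x : ℝ) : ‖(fourier k (x : UnitAddCircle) : ℂ)‖ = 1 := by
  rw [fourier_apply]
  exact Circle.norm_coe _

theorem e0_pos : 0 < PoiQ.e0 := Real.exp_pos _

theorem e0_lt : PoiQ.e0 < 1.26 / 1000000 := exp_b

theorem decay : (fun v : ℝ => (qf v : ℂ)) =O[cocompact ℝ] (fun v : ℝ => |v| ^ (-(2 : ℝ))) := by
  obtain ⟨C, c, hC, hc, h⟩ := qf_bound
  refine Asymptotics.IsBigO.of_bound (2 * C / c ^ 2) ?_
  have : ({0}ᶜ : Set ℝ) ∈ cocompact ℝ := isCompact_singleton.compl_mem_cocompact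
  filter_upwards [this] with v hv
  have hv0 : v ≠ 0 := hv
  have hav : 0 < |v| := abs_pos.2 hv0
  rw [Complex.norm_real, Real.norm_of_nonneg (h v).1, Real.norm_of_nonneg (by positivity),
    Real.rpow_neg (abs_nonneg v)]
  refine (h v).2.trans ?_
  have h1 : Real.exp (-(c * |v|)) ≤ 2 / (c * |v|) ^ 2 := by
    rw [Real.exp_neg, inv_le_comm₀ (Real.exp_pos _) (by positivity), inv_div]
    have := Real.quadratic_le_exp_of_nonneg (by positivity : 0 ≤ c * |v|)
    nlinarith [mul_pos hc hav]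
  calc C * Real.exp (-(c * |v|)) ≤ C * (2 / (c * |v|) ^ 2) := by gcongr
    _ = 2 * C / c ^ 2 * (|v| ^ (2 : ℝ))⁻¹ := by
      rw [show (2 : ℝ) = ((2 : ℕ) : ℝ) from rfl, Real.rpow_natCast]
      field_simp

theorem fh_le (k : ℤ) : ‖PoiQ.fh k‖ ≤ PoiQ.p0 * PoiQ.e0 ^ k.natAbs := by
  have hp0 := PoiQ.p0_pos
  by_cases hk : k = 0
  · rw [hk, PoiQ.fh_zero, Complex.norm_real, Real.norm_of_nonneg hp0.le]
    simp
  · refine (PoiQ.fh_bound k hk).trans ?_
    have : 0 ≤ PoiQ.e0 ^ k.natAbs := pow_nonneg e0_pos.le _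
    nlinarith [mul_nonneg hp0.le this]

theorem summable_bd : Summable (fun k : ℤ => PoiQ.p0 * PoiQ.e0 ^ k.natAbs) := by
  have he1 := e0_lt
  exact (PoiQ.summable_geom_int e0_pos.le (by linarith : PoiQ.e0 < 1)).mul_left _

theorem summable_fh : Summable (fun k : ℤ => PoiQ.fh k) :=
  Summable.of_norm (Summable.of_nonneg_of_le (fun _ => norm_nonneg _) fh_le summable_bd)

/-- the Fourier series of `pq` -/
theorem hasSum_pq (x : ℝ) :
    HasSum (fun k : ℤ => PoiQ.fh k * (fourier k (x : UnitAddCircle) : ℂ)) (pq x : ℂ) := by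
  have hcont : Continuous (fun v : ℝ => (qf v : ℂ)) := Complex.continuous_ofReal.comp qf_cont
  have hps := Real.tsum_eq_tsum_fourier_of_rpow_decay_of_summable hcont (b := 2) (by norm_num)
    decay (by simpa only [PoiQ.four_eq] using summable_fh) x
  simp only [PoiQ.four_eq] at hps
  have hsum1 : Summable (fun k : ℤ => PoiQ.fh k * (fourier k (x : UnitAddCircle) : ℂ)) := by
    refine Summable.of_norm (summable_fh.norm.congr fun k => ?_)
    rw [norm_mul, norm_four, mul_one]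
  have hc : (pq x : ℂ) = ∑' n : ℤ, (qf (x + n) : ℂ) := by
    unfold pq
    exact Complex.ofReal_tsum _
  rw [hc, hps]
  exact hsum1.hasSum

/-- averages of characters -/
theorem avg_zero {M : ℕ} (hM : 1 ≤ M) (x : ℝ) {k : ℤ} (hk : k ≠ 0) (hkM : k.natAbs < M) :
    ∑ j ∈ range M, (fourier k (((j : ℝ) / M - x : ℝ) : UnitAddCircle) : ℂ) = 0 := by
  have hM0 : (M : ℂ) ≠ 0 := by
    have : M ≠ 0 := by omega
    exact_mod_cast this
  set ω : ℂ := Complex.exp (2 * π * Complex.I * k / M) with hω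
  have h1 : ∀ j ∈ range M, (fourier k (((j : ℝ) / M - x : ℝ) : UnitAddCircle) : ℂ) =
      Complex.exp (-(2 * π * Complex.I * k * x)) * ω ^ j := by
    intro j _
    rw [fourier_coe_apply, hω, ← Complex.exp_nat_mul, ← Complex.exp_add]
    congr 1
    push_cast
    field_simp
    ring
  rw [Finset.sum_congr rfl h1, ← Finset.mul_sum]
  have h2 : ω ^ M = 1 := by
    rw [hω, ← Complex.exp_nat_mul, Complex.exp_eq_one_iff]
    refine ⟨k, ?_⟩
    field_simp
  have h3 : ω ≠ 1 := by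
    intro h
    rw [hω, Complex.exp_eq_one_iff] at h
    obtain ⟨n, hn⟩ := h
    have hpi : (2 * π * Complex.I : ℂ) ≠ 0 := Complex.two_pi_I_ne_zero
    have h4 : (k : ℂ) = n * M := by
      have h5 : (2 * π * Complex.I : ℂ) * k = (2 * π * Complex.I : ℂ) * (n * M) := by
        have h6 : (2 * π * Complex.I * k / M : ℂ) * M = n * (2 * π * Complex.I) * M := by
          rw [hn]
        rw [div_mul_cancel₀ _ hM0] at h6
        rw [h6]
        ring
      exact mul_left_cancel₀ hpi h5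
    have h7 : k = n * M := by exact_mod_cast h4
    rcases eq_or_ne n 0 with hn0 | hn0
    · rw [hn0, zero_mul] at h7
      exact hk h7
    · have h8 : k.natAbs = n.natAbs * M := by
        rw [h7, Int.natAbs_mul, Int.natAbs_natCast]
      have h9 : 1 ≤ n.natAbs := Int.natAbs_pos.2 hn0
      have h10 : M ≤ n.natAbs * M := Nat.le_mul_of_pos_left M h9
      omega
  have h4 : (ω - 1) * ∑ j ∈ range M, ω ^ j = 0 := by
    rw [mul_geom_sum, h2, sub_self]
  rcases mul_eq_zero.1 h4 with h5 | h5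
  · exact absurd (sub_eq_zero.1 h5) h3
  · rw [h5, mul_zero]

theorem avg_le {M : ℕ} (hM : 1 ≤ M) (x : ℝ) (k : ℤ) :
    ‖(1 / (M : ℂ)) * ∑ j ∈ range M, (fourier k (((j : ℝ) / M - x : ℝ) : UnitAddCircle) : ℂ)‖ ≤
      1 := by
  have hM0 : (0 : ℝ) < M := by exact_mod_cast hM
  rw [norm_mul]
  have h1 : ‖∑ j ∈ range M, (fourier k (((j : ℝ) / M - x : ℝ) : UnitAddCircle) : ℂ)‖ ≤ M := by
    refine (norm_sum_le _ _).trans (le_of_eq ?_)
    rw [Finset.sum_congr rfl fun j _ => norm_four k _]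
    simp
  have h2 : ‖(1 / (M : ℂ))‖ = 1 / M := by
    rw [norm_div, norm_one, Complex.norm_natCast]
  rw [h2]
  calc 1 / (M : ℝ) * ‖∑ j ∈ range M, (fourier k (((j : ℝ) / M - x : ℝ) : UnitAddCircle) : ℂ)‖
      ≤ 1 / (M : ℝ) * M := mul_le_mul_of_nonneg_left h1 (by positivity)
    _ = 1 := by field_simp

/-- the square root of `e0` -/
def s0 : ℝ := √PoiQ.e0

theorem s0_nonneg : 0 ≤ s0 := Real.sqrt_nonneg _

theorem s0_lt : s0 < 1 := by
  unfold s0
  rw [Real.sqrt_lt' one_pos]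
  have := e0_lt
  norm_num
  linarith

theorem s0_sq : s0 * s0 = PoiQ.e0 := Real.mul_self_sqrt e0_pos.le

/-- the bound for the difference of the average and the mean -/
theorem mean_bd {M : ℕ} (hM : 1 ≤ M) (x : ℝ) :
    |1 / (M : ℝ) * ∑ j ∈ range M, pq ((j : ℝ) / M - x) - PoiQ.p0| ≤
      s0 ^ M * (PoiQ.p0 * ∑' k : ℤ, s0 ^ k.natAbs) := by
  have hM0 : (0 : ℝ) < M := by exact_mod_cast hM
  have hp0 := PoiQ.p0_pos
  set A : ℤ → ℂ := fun k => (1 / (M : ℂ)) *
    ∑ j ∈ range M, (fourier k (((j : ℝ) / M - x : ℝ) : UnitAddCircle) : ℂ) with hA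
  have h1 : HasSum (fun k : ℤ => PoiQ.fh k * A k)
      ((1 / (M : ℂ)) * ∑ j ∈ range M, (pq ((j : ℝ) / M - x) : ℂ)) := by
    have h2 := (hasSum_sum fun j (_ : j ∈ range M) => hasSum_pq ((j : ℝ) / M - x)).mul_left
      (1 / (M : ℂ))
    have e : (fun k : ℤ => PoiQ.fh k * A k) = fun k : ℤ => (1 / (M : ℂ)) *
        ∑ j ∈ range M, PoiQ.fh k * (fourier k (((j : ℝ) / M - x : ℝ) : UnitAddCircle) : ℂ) := by
      funext k
      simp only [hA]
      rw [← Finset.mul_sum]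
      ring
    rw [e]
    exact h2
  have hA0 : A 0 = 1 := by
    simp only [hA]
    have h3 : ∀ j ∈ range M, (fourier 0 (((j : ℝ) / M - x : ℝ) : UnitAddCircle) : ℂ) = 1 :=
      fun j _ => fourier_zero
    rw [Finset.sum_congr rfl h3, Finset.sum_const, Finset.card_range, nsmul_eq_mul, mul_one]
    have : (M : ℂ) ≠ 0 := by
      have : M ≠ 0 := by omega
      exact_mod_cast this
    field_simp
  have hps := h1.tsum_eq
  rw [h1.summable.tsum_eq_add_tsum_ite 0, PoiQ.fh_zero, hA0, mul_one] at hps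
  have hd : ((1 / (M : ℝ) * ∑ j ∈ range M, pq ((j : ℝ) / M - x) - PoiQ.p0 : ℝ) : ℂ) =
      ∑' k : ℤ, (if k = 0 then (0 : ℂ) else PoiQ.fh k * A k) := by
    push_cast
    rw [← hps]
    ring
  have hnorm : ∀ k : ℤ, ‖(if k = 0 then (0 : ℂ) else PoiQ.fh k * A k)‖ ≤
      s0 ^ M * (PoiQ.p0 * s0 ^ k.natAbs) := by
    intro k
    have hs := s0_nonneg
    by_cases hk : k = 0
    · rw [if_pos hk, norm_zero]
      positivity
    rw [if_neg hk]
    by_cases hkM : k.natAbs < M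
    · have h3 : A k = 0 := by
        simp only [hA]
        rw [avg_zero hM x hk hkM, mul_zero]
      rw [h3, mul_zero, norm_zero]
      positivity
    · rw [norm_mul]
      have h3 : s0 ^ k.natAbs ≤ s0 ^ M :=
        pow_le_pow_of_le_one hs s0_lt.le (not_lt.1 hkM)
      calc ‖PoiQ.fh k‖ * ‖A k‖ ≤ (PoiQ.p0 * PoiQ.e0 ^ k.natAbs) * 1 :=
            mul_le_mul (fh_le k) (avg_le hM x k) (norm_nonneg _)
              (mul_nonneg hp0.le (pow_nonneg e0_pos.le _))
        _ = s0 ^ k.natAbs * (PoiQ.p0 * s0 ^ k.natAbs) := by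
            rw [← s0_sq, mul_pow]
            ring
        _ ≤ s0 ^ M * (PoiQ.p0 * s0 ^ k.natAbs) := by gcongr
  have hsum : HasSum (fun k : ℤ => s0 ^ M * (PoiQ.p0 * s0 ^ k.natAbs))
      (s0 ^ M * (PoiQ.p0 * ∑' k : ℤ, s0 ^ k.natAbs)) :=
    (((PoiQ.summable_geom_int s0_nonneg s0_lt).hasSum).mul_left _).mul_left _
  rw [← Real.norm_eq_abs, ← Complex.norm_real, hd]
  exact tsum_of_norm_bounded hsum hnorm

end PqM

open PqM in
theorem pq_cont : Continuous pq := by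
  have h : pq = fun x : ℝ =>
      (∑' k : ℤ, PoiQ.fh k * (fourier k (x : UnitAddCircle) : ℂ)).re := by
    funext x
    rw [(hasSum_pq x).tsum_eq, Complex.ofReal_re]
  rw [h]
  refine Complex.continuous_re.comp ?_
  refine continuous_tsum (fun k => ?_) summable_bd (fun k x => ?_)
  · exact continuous_const.mul ((fourier k).continuous.comp (AddCircle.continuous_mk' 1))
  · rw [norm_mul, norm_four, mul_one]
    exact fh_le k

open PqM in
theorem pq_near0 (x : ℝ) : |pq x - PoiQ.p0| ≤ 7 / 10000000 * PoiQ.p0 := by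
  have hp0 := PoiQ.p0_pos
  have he1 := e0_lt
  have he0 := e0_pos
  have hgs := PoiQ.hasSum_geom he0.le (by linarith)
  have hnorm : ∀ k : ℤ, ‖(if k = 0 then (0 : ℂ) else
      PoiQ.fh k * (fourier k (x : UnitAddCircle) : ℂ))‖ ≤
      PoiQ.p0 * 0.2212 * (if k = 0 then (0 : ℝ) else PoiQ.e0 ^ k.natAbs) := by
    intro k
    by_cases hk : k = 0
    · simp [hk]
    · rw [if_neg hk, if_neg hk, norm_mul, norm_four, mul_one, mul_assoc]
      exact PoiQ.fh_bound k hk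
  have hs := hasSum_pq x
  have hps := hs.tsum_eq
  rw [hs.summable.tsum_eq_add_tsum_ite 0, PoiQ.fh_zero] at hps
  have h0 : (fourier 0 (x : UnitAddCircle) : ℂ) = 1 := fourier_zero
  rw [h0, mul_one] at hps
  have hd : ((pq x - PoiQ.p0 : ℝ) : ℂ) =
      ∑' k : ℤ, (if k = 0 then (0 : ℂ) else
        PoiQ.fh k * (fourier k (x : UnitAddCircle) : ℂ)) := by
    push_cast
    rw [← hps]
    ring
  have hb : |pq x - PoiQ.p0| ≤ PoiQ.p0 * 0.2212 * (2 * (PoiQ.e0 / (1 - PoiQ.e0))) := by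
    rw [← Real.norm_eq_abs, ← Complex.norm_real, hd]
    exact tsum_of_norm_bounded (hgs.mul_left _) hnorm
  refine hb.trans ?_
  have h1 : PoiQ.e0 / (1 - PoiQ.e0) ≤ 1.27 / 1000000 := by
    rw [div_le_iff₀ (by linarith)]
    nlinarith
  nlinarith [mul_le_mul_of_nonneg_left h1 hp0.le]

open PqM in
theorem pq_mean {ε : ℝ} (hε : 0 < ε) : ∃ M0 : ℕ, ∀ M ≥ M0, 1 ≤ M → ∀ x : ℝ,
    |1 / (M : ℝ) * ∑ j ∈ range M, pq ((j : ℝ) / M - x) - PoiQ.p0| ≤ ε := by
  have h1 : Tendsto (fun M : ℕ => s0 ^ M * (PoiQ.p0 * ∑' k : ℤ, s0 ^ k.natAbs)) atTop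
      (𝓝 (0 * (PoiQ.p0 * ∑' k : ℤ, s0 ^ k.natAbs))) :=
    (tendsto_pow_atTop_nhds_zero_of_lt_one s0_nonneg s0_lt).mul_const _
  rw [zero_mul] at h1
  obtain ⟨M0, hM0⟩ := eventually_atTop.1 (h1.eventually (eventually_le_nhds hε))
  exact ⟨M0, fun M hM hM1 x => (mean_bd hM1 x).trans (hM0 M hM)⟩

end Pool.Agent.EN2
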