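import Mathlib
import Pool.Agent.Lib.MP_ec0ede_nt_EN2.Defs
import Pool.Agent.Lib.MP_ec0ede_nt_EN.Ker
import Pool.Agent.Lib.MP_ec0ede_nt_EN.LawA
import Pool.Agent.Lib.MP_ec0ede_nt_EN2.Rng
import Pool.Agent.Lib.MP_ec0ede_nt_EN2.ULb
import Pool.Agent.Lib.MP_ec0ede_nt_EN2.Red
import Pool.Agent.Lib.MP_ec0ede_nt_EN2.HgL
import Pool.Agent.Lib.MP_ec0ede_nt_EN2.FFp
import Pool.Agent.Lib.MP_ec0ede_nt_EN2.FouQ
import Pool.Agent.Lib.MP_ec0ede_nt_EN2.EcA
import Pool.Agent.Lib.MP_ec0ede_nt_EN2.EaA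

set_option autoImplicit false

noncomputable section

namespace Pool.Agent.EN2

open Real Filter Topology Finset Pool.Agent.EN

/-- the moment of order `κ` of `RR` -/
def MW (S : ℕ) : ℝ := ∑' k : ℕ, (Real.log 2) ^ k / (k.factorial : ℝ) *
    ∫ v in Set.Icc (0 : Fin k → ℝ) (fun _ => (S : ℝ)), (RR S v) ^ kap

namespace TopW

theorem l2_pos : 0 < Real.log 2 := Real.log_pos (by norm_num)

theorem l2_lt : Real.log 2 < 1 := by
  have := Real.log_two_lt_d9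
  linarith

theorem l2_gt : 1 / 2 < Real.log 2 := by
  have := Real.log_two_gt_d9
  linarith

theorem z_pos : 0 < zz := by
  unfold zz
  exact one_div_pos.mpr l2_pos

theorem z_gt : 1 < zz := by
  unfold zz
  rw [lt_div_iff₀ l2_pos]
  linarith [l2_lt]

theorem z_lt : zz < 2 := by
  unfold zz
  rw [div_lt_iff₀ l2_pos]
  linarith [l2_gt]

theorem kap_pos : 0 < kap := by
  unfold kap
  exact div_pos (Real.log_pos z_gt) l2_pos

theorem kap_lt : kap < 1 := by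
  unfold kap
  rw [div_lt_one l2_pos]
  exact Real.log_lt_log z_pos z_lt

theorem two_kap : (2 : ℝ) ^ kap = zz := by
  rw [Real.rpow_def_of_pos (by norm_num : (0 : ℝ) < 2)]
  unfold kap
  rw [mul_div_cancel₀ _ l2_pos.ne', Real.exp_log z_pos]

open Classical in
/-- `RR` is a natural number -/
theorem RR_nat (S : ℕ) {k : ℕ} (v : Fin k → ℝ) : ∃ r : ℕ, RR S v = r := by
  refine ⟨((univ : Finset (Finset (Fin k))).filter fun I =>
    ((2 : ℝ) ^ S - 1 < ∑ i ∈ I, (2 : ℝ) ^ v i ∧ ∑ i ∈ I, (2 : ℝ) ^ v i ≤ (2 : ℝ) ^ S)).card, ?_⟩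
  unfold RR ind
  rw [Finset.card_filter]
  push_cast
  exact Finset.sum_congr rfl fun I _ => by congr

/-- `RR ^ κ ≤ 2 ^ k` -/
theorem RR_kap_le (S : ℕ) {k : ℕ} (v : Fin k → ℝ) : (RR S v) ^ kap ≤ 2 ^ k := by
  have h1 : (RR S v) ^ kap ≤ ((2 : ℝ) ^ k) ^ kap :=
    Real.rpow_le_rpow (RR_nonneg S v) (RR_le S v) kap_pos.le
  refine h1.trans ?_
  have h2 : ((2 : ℝ) ^ k) ^ kap ≤ ((2 : ℝ) ^ k) ^ (1 : ℝ) :=
    Real.rpow_le_rpow_of_exponent_le (one_le_pow₀ (by norm_num)) kap_lt.le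
  rwa [Real.rpow_one] at h2

theorem RR_kap_nonneg (S : ℕ) {k : ℕ} (v : Fin k → ℝ) : 0 ≤ (RR S v) ^ kap :=
  Real.rpow_nonneg (RR_nonneg S v) _

/-- the volume of the cube -/
theorem vol_cube (S k : ℕ) :
    MeasureTheory.volume (Set.Icc (0 : Fin k → ℝ) (fun _ => (S : ℝ))) = (S : ENNReal) ^ k := by
  rw [Real.volume_Icc_pi]
  simp

theorem vol_cube_lt (S k : ℕ) :
    MeasureTheory.volume (Set.Icc (0 : Fin k → ℝ) (fun _ => (S : ℝ))) < ⊤ := by
  rw [vol_cube]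
  exact ENNReal.pow_lt_top (ENNReal.natCast_lt_top S)

theorem vol_cube_real (S k : ℕ) :
    MeasureTheory.volume.real (Set.Icc (0 : Fin k → ℝ) (fun _ => (S : ℝ))) = (S : ℝ) ^ k := by
  rw [MeasureTheory.measureReal_def, vol_cube]
  simp

/-- bounded measurable functions are integrable on the cube -/
theorem int_of_bdd (S k : ℕ) {f : (Fin k → ℝ) → ℝ} (hf : Measurable f) {C : ℝ}
    (hC : ∀ v, |f v| ≤ C) :
    MeasureTheory.IntegrableOn f (Set.Icc (0 : Fin k → ℝ) (fun _ => (S : ℝ))) := by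
  refine MeasureTheory.IntegrableOn.of_bound (vol_cube_lt S k) hf.aestronglyMeasurable C ?_
  exact Filter.Eventually.of_forall fun v => by
    rw [Real.norm_eq_abs]
    exact hC v

theorem meas_kap (S k : ℕ) : Measurable (fun v : Fin k → ℝ => (RR S v) ^ kap) :=
  (RR_measurable S k).pow_const kap

theorem meas_exp (S k : ℕ) (l : ℝ) :
    Measurable (fun v : Fin k → ℝ => 1 - Real.exp (-(l * RR S v))) :=
  measurable_const.sub (Real.measurable_exp.comp (((RR_measurable S k).const_mul l).neg))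

theorem exp_nonneg' (S : ℕ) {k : ℕ} {l : ℝ} (hl : 0 ≤ l) (v : Fin k → ℝ) :
    0 ≤ 1 - Real.exp (-(l * RR S v)) := by
  have h1 : Real.exp (-(l * RR S v)) ≤ 1 := by
    rw [Real.exp_le_one_iff]
    have := mul_nonneg hl (RR_nonneg S v)
    linarith
  linarith

theorem exp_abs (S : ℕ) {k : ℕ} {l : ℝ} (hl : 0 ≤ l) (v : Fin k → ℝ) :
    |1 - Real.exp (-(l * RR S v))| ≤ 1 := by
  rw [abs_of_nonneg (exp_nonneg' S hl v)]
  have := Real.exp_pos (-(l * RR S v))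
  linarith

theorem integ_kap (S k : ℕ) : MeasureTheory.IntegrableOn (fun v : Fin k → ℝ => (RR S v) ^ kap)
    (Set.Icc (0 : Fin k → ℝ) (fun _ => (S : ℝ))) :=
  int_of_bdd S k (meas_kap S k) (C := 2 ^ k) fun v => by
    rw [abs_of_nonneg (RR_kap_nonneg S v)]
    exact RR_kap_le S v

theorem integ_exp (S k : ℕ) {l : ℝ} (hl : 0 ≤ l) :
    MeasureTheory.IntegrableOn (fun v : Fin k → ℝ => 1 - Real.exp (-(l * RR S v)))
    (Set.Icc (0 : Fin k → ℝ) (fun _ => (S : ℝ))) :=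
  int_of_bdd S k (meas_exp S k l) (C := 1) fun v => exp_abs S hl v

/-- the constant -/
def cc : ℝ := 1 / (1 - Real.exp (-(1 / 2)))

theorem cc_aux : 0 < 1 - Real.exp (-(1 / 2 : ℝ)) := by
  have : Real.exp (-(1 / 2 : ℝ)) < 1 := by
    rw [Real.exp_lt_one_iff]
    norm_num
  linarith

theorem cc_pos : 0 < cc := one_div_pos.mpr cc_aux

/-- the pointwise bound of `RR ^ κ` -/
theorem kap_le_sum (S : ℕ) {k M : ℕ} (hM : k < M) (v : Fin k → ℝ) :
    (RR S v) ^ kap ≤ cc * ∑ h ∈ range M, zz ^ (h + 1) *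
      (1 - Real.exp (-((1 / 2 : ℝ) ^ (h + 1) * RR S v))) := by
  have hnn : ∀ h ∈ range M, 0 ≤ zz ^ (h + 1) *
      (1 - Real.exp (-((1 / 2 : ℝ) ^ (h + 1) * RR S v))) := fun h _ =>
    mul_nonneg (pow_pos z_pos _).le (exp_nonneg' S (by positivity) v)
  obtain ⟨r, hr⟩ := RR_nat S v
  rcases Nat.eq_zero_or_pos r with h0 | hpos
  · have h1 : (RR S v) ^ kap = 0 := by
      rw [hr, h0, Nat.cast_zero, Real.zero_rpow kap_pos.ne']
    rw [h1]
    exact mul_nonneg cc_pos.le (Finset.sum_nonneg hnn)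
  · set h := Nat.log 2 r with hh
    have hr1 : 2 ^ h ≤ r := Nat.pow_log_le_self 2 hpos.ne'
    have hr2 : r < 2 ^ (h + 1) := Nat.lt_pow_succ_log_self (by norm_num) r
    have hrk : (r : ℝ) ≤ 2 ^ k := by
      rw [← hr]
      exact RR_le S v
    have hrk' : r ≤ 2 ^ k := by exact_mod_cast hrk
    have hhk : h ≤ k := by
      have : 2 ^ h ≤ 2 ^ k := hr1.trans hrk'
      exact (Nat.pow_le_pow_iff_right (by norm_num)).mp this
    have hmem : h ∈ range M := Finset.mem_range.mpr (lt_of_le_of_lt hhk hM)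
    have h1 : (RR S v) ^ kap ≤ zz ^ (h + 1) := by
      have h2 : (RR S v) ^ kap ≤ ((2 : ℝ) ^ (h + 1)) ^ kap := by
        refine Real.rpow_le_rpow (RR_nonneg S v) ?_ kap_pos.le
        rw [hr]
        exact_mod_cast hr2.le
      have h3 : ((2 : ℝ) ^ (h + 1)) ^ kap = zz ^ (h + 1) := by
        rw [← two_kap, ← Real.rpow_natCast, ← Real.rpow_natCast, ← Real.rpow_mul (by norm_num),
          ← Real.rpow_mul (by norm_num), mul_comm]
      rwa [h3] at h2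
    have h4 : 1 - Real.exp (-(1 / 2 : ℝ)) ≤
        1 - Real.exp (-((1 / 2 : ℝ) ^ (h + 1) * RR S v)) := by
      have h5 : (1 / 2 : ℝ) ≤ (1 / 2 : ℝ) ^ (h + 1) * RR S v := by
        rw [hr, one_div, inv_pow, inv_mul_eq_div, le_div_iff₀ (by positivity), pow_succ]
        have : ((2 : ℝ) ^ h) ≤ r := by exact_mod_cast hr1
        linarith
      have h6 : Real.exp (-((1 / 2 : ℝ) ^ (h + 1) * RR S v)) ≤ Real.exp (-(1 / 2 : ℝ)) :=
        Real.exp_le_exp.mpr (by linarith)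
      linarith
    have h7 : 1 ≤ cc * (1 - Real.exp (-((1 / 2 : ℝ) ^ (h + 1) * RR S v))) := by
      have h8 : cc * (1 - Real.exp (-(1 / 2 : ℝ))) = 1 := by
        unfold cc
        exact one_div_mul_cancel cc_aux.ne'
      calc (1 : ℝ) = cc * (1 - Real.exp (-(1 / 2 : ℝ))) := h8.symm
        _ ≤ _ := mul_le_mul_of_nonneg_left h4 cc_pos.le
    calc (RR S v) ^ kap ≤ zz ^ (h + 1) * 1 := by rw [mul_one]; exact h1
      _ ≤ zz ^ (h + 1) * (cc * (1 - Real.exp (-((1 / 2 : ℝ) ^ (h + 1) * RR S v)))) :=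
          mul_le_mul_of_nonneg_left h7 (pow_pos z_pos _).le
      _ = cc * (zz ^ (h + 1) * (1 - Real.exp (-((1 / 2 : ℝ) ^ (h + 1) * RR S v)))) := by ring
      _ ≤ cc * ∑ h ∈ range M, zz ^ (h + 1) *
          (1 - Real.exp (-((1 / 2 : ℝ) ^ (h + 1) * RR S v))) :=
          mul_le_mul_of_nonneg_left (Finset.single_le_sum hnn hmem) cc_pos.le

/-- the terms of `FF` -/
def ff (S : ℕ) (l : ℝ) (k : ℕ) : ℝ := (Real.log 2) ^ k / (k.factorial : ℝ) *
    ∫ v in Set.Icc (0 : Fin k → ℝ) (fun _ => (S : ℝ)), (1 - Real.exp (-(l * RR S v)))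

theorem ff_nonneg (S : ℕ) {l : ℝ} (hl : 0 ≤ l) (k : ℕ) : 0 ≤ ff S l k := by
  unfold ff
  refine mul_nonneg (div_nonneg (pow_pos l2_pos _).le (Nat.cast_nonneg _)) ?_
  exact MeasureTheory.integral_nonneg fun v => exp_nonneg' S hl v

/-- the terms of `MW` -/
def mw (S k : ℕ) : ℝ := (Real.log 2) ^ k / (k.factorial : ℝ) *
    ∫ v in Set.Icc (0 : Fin k → ℝ) (fun _ => (S : ℝ)), (RR S v) ^ kap

theorem mw_nonneg (S k : ℕ) : 0 ≤ mw S k := by
  unfold mw
  refine mul_nonneg (div_nonneg (pow_pos l2_pos _).le (Nat.cast_nonneg _)) ?_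
  exact MeasureTheory.integral_nonneg fun v => RR_kap_nonneg S v

theorem mw_le_ff (S : ℕ) {k M : ℕ} (hM : k < M) :
    mw S k ≤ cc * ∑ h ∈ range M, zz ^ (h + 1) * ff S ((1 / 2 : ℝ) ^ (h + 1)) k := by
  have hI : ∫ v in Set.Icc (0 : Fin k → ℝ) (fun _ => (S : ℝ)), (RR S v) ^ kap ≤
      cc * ∑ h ∈ range M, zz ^ (h + 1) *
      ∫ v in Set.Icc (0 : Fin k → ℝ) (fun _ => (S : ℝ)),
        (1 - Real.exp (-((1 / 2 : ℝ) ^ (h + 1) * RR S v))) := by
    have h1 : ∫ v in Set.Icc (0 : Fin k → ℝ) (fun _ => (S : ℝ)), (RR S v) ^ kap ≤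
        ∫ v in Set.Icc (0 : Fin k → ℝ) (fun _ => (S : ℝ)), cc * ∑ h ∈ range M, zz ^ (h + 1) *
        (1 - Real.exp (-((1 / 2 : ℝ) ^ (h + 1) * RR S v))) := by
      refine MeasureTheory.integral_mono (integ_kap S k) ?_ fun v => kap_le_sum S hM v
      refine MeasureTheory.Integrable.const_mul ?_ _
      refine MeasureTheory.integrable_finsetSum _ fun h _ => ?_
      exact (integ_exp S k (by positivity)).const_mul _
    refine h1.trans (le_of_eq ?_)
    rw [MeasureTheory.integral_const_mul, MeasureTheory.integral_finsetSum]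
    · congr 1
      refine Finset.sum_congr rfl fun h _ => ?_
      rw [MeasureTheory.integral_const_mul]
    · intro h _
      exact (integ_exp S k (by positivity)).const_mul _
  unfold mw ff
  calc (Real.log 2) ^ k / (k.factorial : ℝ) *
      ∫ v in Set.Icc (0 : Fin k → ℝ) (fun _ => (S : ℝ)), (RR S v) ^ kap
      ≤ (Real.log 2) ^ k / (k.factorial : ℝ) * (cc * ∑ h ∈ range M, zz ^ (h + 1) *
      ∫ v in Set.Icc (0 : Fin k → ℝ) (fun _ => (S : ℝ)),
        (1 - Real.exp (-((1 / 2 : ℝ) ^ (h + 1) * RR S v)))) :=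
        mul_le_mul_of_nonneg_left hI (div_nonneg (pow_pos l2_pos _).le (Nat.cast_nonneg _))
    _ = _ := by
        rw [Finset.mul_sum, Finset.mul_sum, Finset.mul_sum]
        refine Finset.sum_congr rfl fun h _ => ?_
        ring

theorem mw_summable (S : ℕ) : Summable (mw S) := by
  refine Summable.of_nonneg_of_le (mw_nonneg S) (fun k => ?_)
    (Real.summable_pow_div_factorial (Real.log 2 * (2 * S)))
  unfold mw
  have h1 : ∫ v in Set.Icc (0 : Fin k → ℝ) (fun _ => (S : ℝ)), (RR S v) ^ kap ≤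
      2 ^ k * (S : ℝ) ^ k := by
    have h2 := MeasureTheory.norm_setIntegral_le_of_norm_le_const (f := fun v => (RR S v) ^ kap)
      (C := (2 : ℝ) ^ k) (vol_cube_lt S k) (fun v _ => by
        rw [Real.norm_eq_abs, abs_of_nonneg (RR_kap_nonneg S v)]
        exact RR_kap_le S v)
    rw [vol_cube_real] at h2
    exact (le_abs_self _).trans h2
  calc (Real.log 2) ^ k / (k.factorial : ℝ) *
      ∫ v in Set.Icc (0 : Fin k → ℝ) (fun _ => (S : ℝ)), (RR S v) ^ kap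
      ≤ (Real.log 2) ^ k / (k.factorial : ℝ) * (2 ^ k * (S : ℝ) ^ k) :=
        mul_le_mul_of_nonneg_left h1 (div_nonneg (pow_pos l2_pos _).le (Nat.cast_nonneg _))
    _ = (Real.log 2 * (2 * S)) ^ k / (k.factorial : ℝ) := by
        rw [mul_pow, mul_pow]
        ring

/-- partial sums of `MW` -/
theorem mw_part (S M : ℕ) : ∑ k ∈ range M, mw S k ≤
    cc * ∑ h ∈ range M, zz ^ (h + 1) * FF S ((1 / 2 : ℝ) ^ (h + 1)) := by
  calc ∑ k ∈ range M, mw S k ≤ ∑ k ∈ range M,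
      (cc * ∑ h ∈ range M, zz ^ (h + 1) * ff S ((1 / 2 : ℝ) ^ (h + 1)) k) :=
        Finset.sum_le_sum fun k hk => mw_le_ff S (Finset.mem_range.mp hk)
    _ = cc * ∑ h ∈ range M, zz ^ (h + 1) * ∑ k ∈ range M, ff S ((1 / 2 : ℝ) ^ (h + 1)) k := by
        rw [← Finset.mul_sum, Finset.sum_comm]
        congr 1
        refine Finset.sum_congr rfl fun h _ => ?_
        rw [Finset.mul_sum]
    _ ≤ _ := by
        refine mul_le_mul_of_nonneg_left (Finset.sum_le_sum fun h _ => ?_) cc_pos.le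
        refine mul_le_mul_of_nonneg_left ?_ (pow_pos z_pos _).le
        have h0 : (0 : ℝ) ≤ (1 / 2 : ℝ) ^ (h + 1) := by positivity
        exact Summable.sum_le_tsum _ (fun k _ => ff_nonneg S h0 k) (FF_summable S h0)

/-! ### The lower bound for `UL` -/

theorem LL_one : LL 1 = Real.log 2 := by
  unfold LL vol
  have h1 : {t : ℝ | ∃ d ∈ Nat.divisors 1, Real.log d ≤ t ∧ t < Real.log d + Real.log 2} =
      Set.Ico 0 (Real.log 2) := by
    ext t
    simp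
  rw [h1, Real.volume_Ico, sub_zero, ENNReal.toReal_ofReal l2_pos.le]

theorem hg_mm_pos : 0 < hg mm := by
  have h1 := hg_lower mm mm_pos
  have h2 : 0 < √(2 / π) * (mm : ℝ) := by
    have : (0 : ℝ) < mm := by exact_mod_cast mm_pos
    positivity
  linarith

theorem EC_ge : hg mm ≤ EC (0 + mm) (bb 0) (fun x => (1 : ℝ) * hg x)
    (((0 + mm : ℕ) : ℤ) - (∅ : Finset ℕ).card) := by
  unfold EC
  have hnn : ∀ B ∈ ((range (bd (0 + mm))).filter (fun p => bb 0 < p)).powerset,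
      0 ≤ (∏ p ∈ B, wz (0 + mm) p) *
      (if 1 ≤ (((0 + mm : ℕ) : ℤ) - (∅ : Finset ℕ).card) - B.card then
        (fun x => (1 : ℝ) * hg x) ((((0 + mm : ℕ) : ℤ) - (∅ : Finset ℕ).card) - B.card).toNat
        else 0) := by
    intro B _
    refine mul_nonneg (Finset.prod_nonneg fun p _ => ?_) ?_
    · exact Finset.sum_nonneg fun j _ => mu_nonneg j p
    · split_ifs
      · simpa using hg_nonneg _
      · exact le_rfl
  have hmem : (∅ : Finset ℕ) ∈ ((range (bd (0 + mm))).filter (fun p => bb 0 < p)).powerset :=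
    Finset.empty_mem_powerset _
  refine le_trans (le_of_eq ?_) (Finset.single_le_sum hnn hmem)
  have hm : (1 : ℤ) ≤ (mm : ℤ) := by exact_mod_cast mm_pos
  simp [hm]

theorem EA_ge (h : ℕ) : 1 / ((mm + 2).factorial : ℝ) ≤
    EA ((mm : ℝ) + 1) (fun w => 1 / (w : ℝ) * w)
      (((h : ℤ) + 1 - (mm + 2 : ℕ)) + (Nat.primeFactors 1).card) := by
  have hmA := (mA_bounds (θ := (mm : ℝ) + 1) le_rfl (by linarith)).1
  have hmA0 : 0 ≤ mA ((mm : ℝ) + 1) := by linarith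
  unfold EA
  set W : ℤ := ((h : ℤ) + 1 - (mm + 2 : ℕ)) + (Nat.primeFactors 1).card with hW
  have hWe : W + ((mm + 2 : ℕ) : ℤ) = (h : ℤ) + 1 := by
    rw [hW]
    simp
  have hpsi0 : ∀ w : ℕ, 0 ≤ 1 / (w : ℝ) * w := fun w => by positivity
  have hpsi1 : ∀ w : ℕ, 1 / (w : ℝ) * w ≤ 1 := by
    intro w
    rcases Nat.eq_zero_or_pos w with h0 | h0
    · simp [h0]
    · have : (0 : ℝ) < w := by exact_mod_cast h0
      rw [one_div_mul_cancel this.ne']
  have hnn : ∀ e : ℕ, 0 ≤ mA ((mm : ℝ) + 1) ^ e / (e.factorial : ℝ) *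
      (if 1 ≤ W + e then (fun w : ℕ => 1 / (w : ℝ) * w) (W + e).toNat else 0) := by
    intro e
    refine mul_nonneg (by positivity) ?_
    split_ifs
    · exact hpsi0 _
    · exact le_rfl
  have hs : Summable (fun e : ℕ => mA ((mm : ℝ) + 1) ^ e / (e.factorial : ℝ) *
      (if 1 ≤ W + e then (fun w : ℕ => 1 / (w : ℝ) * w) (W + e).toNat else 0)) := by
    refine Summable.of_nonneg_of_le hnn (fun e => ?_)
      (Real.summable_pow_div_factorial (mA ((mm : ℝ) + 1)))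
    have h1 : (if 1 ≤ W + e then (fun w : ℕ => 1 / (w : ℝ) * w) (W + e).toNat else 0) ≤ 1 := by
      split_ifs
      · exact hpsi1 _
      · exact zero_le_one
    calc _ ≤ mA ((mm : ℝ) + 1) ^ e / (e.factorial : ℝ) * 1 :=
          mul_le_mul_of_nonneg_left h1 (by positivity)
      _ = _ := mul_one _
  refine le_trans ?_ (hs.le_tsum (mm + 2) fun e _ => hnn e)
  rw [hWe]
  have h2 : (1 : ℤ) ≤ (h : ℤ) + 1 := by omega
  rw [if_pos h2]
  have h3 : ((h : ℤ) + 1).toNat = h + 1 := by omega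
  have h4 : (fun w : ℕ => 1 / (w : ℝ) * w) ((h : ℤ) + 1).toNat = 1 := by
    rw [h3]
    have : ((h + 1 : ℕ) : ℝ) ≠ 0 := by positivity
    exact one_div_mul_cancel this
  rw [h4, mul_one]
  refine div_le_div_of_nonneg_right ?_ (by positivity)
  exact one_le_pow₀ (by linarith)

theorem tb_ge (S h : ℕ) : zz ^ (-((mm + 2 : ℕ) : ℤ)) * (zz ^ (h + 1) * FF S ((1 / 2 : ℝ) ^ (h + 1))) ≤
    tb 0 S ((mm : ℝ) + 1) 1 ∅ ((h : ℤ) + 1 - (mm + 2 : ℕ)) := by
  unfold tb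
  have h1 : ind (∀ p ∈ (∅ : Finset ℕ), ¬ p ∣ 1) = 1 := ind_of (by simp)
  rw [h1]
  simp only [Finset.prod_empty, Nat.primeFactors_one, Finset.card_empty, Nat.cast_zero, zero_add,
    one_mul, mul_one, add_zero, sub_zero, LL_one]
  rw [← mul_assoc]
  have h2 : zz ^ (-((mm + 2 : ℕ) : ℤ)) * zz ^ (h + 1) = zz ^ ((h : ℤ) + 1 - (mm + 2 : ℕ)) := by
    rw [← zpow_natCast, ← zpow_add₀ z_pos.ne']
    congr 1
  rw [h2]
  refine mul_le_mul_of_nonneg_left ?_ (zpow_pos z_pos _).le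
  refine FF_mono S (by positivity) ?_
  have h3 : -((((h : ℤ) + 1 - (mm + 2 : ℕ) : ℤ) : ℝ) + ((mm : ℝ) + 1)) = -(h : ℝ) := by
    push_cast
    ring
  rw [h3, Real.rpow_neg (by norm_num), Real.rpow_natCast, pow_succ, one_div, inv_pow]
  have h4 := l2_gt
  have h5 : (0 : ℝ) < (2 ^ h : ℝ)⁻¹ := by positivity
  nlinarith

/-- the constant in the lower bound -/
def c1 : ℝ := zz ^ (-((mm + 2 : ℕ) : ℤ)) * hg mm * (1 / ((mm + 2).factorial : ℝ))

theorem c1_pos : 0 < c1 := by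
  unfold c1
  have := zpow_pos z_pos (-((mm + 2 : ℕ) : ℤ))
  have := hg_mm_pos
  positivity

theorem prod_ge (S h : ℕ) : c1 * (zz ^ (h + 1) * FF S ((1 / 2 : ℝ) ^ (h + 1))) ≤
    tb 0 S ((mm : ℝ) + 1) 1 ∅ ((h : ℤ) + 1 - (mm + 2 : ℕ)) *
      EC (0 + mm) (bb 0) (fun x => (1 : ℝ) * hg x)
        (((0 + mm : ℕ) : ℤ) - (∅ : Finset ℕ).card) *
      EA ((mm : ℝ) + 1) (fun w => 1 / (w : ℝ) * w)
        (((h : ℤ) + 1 - (mm + 2 : ℕ)) + (Nat.primeFactors 1).card) := by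
  have h1 := tb_ge S h
  have h2 := EC_ge
  have h3 := EA_ge h
  have hF : 0 ≤ zz ^ (h + 1) * FF S ((1 / 2 : ℝ) ^ (h + 1)) :=
    mul_nonneg (pow_pos z_pos _).le (FF_nonneg S (by positivity))
  have h0 : 0 ≤ zz ^ (-((mm + 2 : ℕ) : ℤ)) * (zz ^ (h + 1) * FF S ((1 / 2 : ℝ) ^ (h + 1))) :=
    mul_nonneg (zpow_pos z_pos _).le hF
  have h4 : (0 : ℝ) ≤ 1 / ((mm + 2).factorial : ℝ) := by positivity
  calc c1 * (zz ^ (h + 1) * FF S ((1 / 2 : ℝ) ^ (h + 1)))
      = zz ^ (-((mm + 2 : ℕ) : ℤ)) * (zz ^ (h + 1) * FF S ((1 / 2 : ℝ) ^ (h + 1))) * hg mm *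
        (1 / ((mm + 2).factorial : ℝ)) := by
        unfold c1
        ring
    _ ≤ _ := by
        refine mul_le_mul (mul_le_mul h1 h2 hg_mm_pos.le (h0.trans h1)) h3 h4 ?_
        exact mul_nonneg (h0.trans h1) (hg_mm_pos.le.trans h2)

theorem kU_pos (S : ℕ) : 0 < kU 0 S ((mm : ℝ) + 1) := by
  unfold kU
  have hz := z_pos
  positivity

/-- the lower bound for `UL` -/
theorem UL_ge (S M : ℕ) : kU 0 S ((mm : ℝ) + 1) * (c1 * ∑ h ∈ range M, zz ^ (h + 1) *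
    FF S ((1 / 2 : ℝ) ^ (h + 1))) ≤
    UL (0 + mm) (S + ss) S (bb 0) ((mm : ℝ) + 1) (fun _ w => 1 / (w : ℝ)) 1 := by
  have hphi : ∀ w : ℕ, 0 ≤ 1 / (w : ℝ) ∧ 1 / (w : ℝ) ≤ 1 := by
    intro w
    refine ⟨by positivity, ?_⟩
    rcases Nat.eq_zero_or_pos w with h0 | h0
    · simp [h0]
    · have : (1 : ℝ) ≤ w := by exact_mod_cast h0
      rw [div_le_one (by linarith)]
      exact this
  have hSm : Sm (bb 0) 1 := ⟨one_ne_zero, fun p hp hd =>
    absurd (Nat.dvd_one.mp hd) hp.one_lt.ne'⟩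
  have hred := red 0 S (θ := (mm : ℝ) + 1) le_rfl (by linarith) (fun _ => 1)
    (fun w => 1 / (w : ℝ)) (fun _ => ⟨zero_le_one, le_rfl⟩) hphi 1 hSm
  have hUL0 : 0 ≤ UL (0 + mm) (S + ss) S (bb 0) ((mm : ℝ) + 1) (fun _ w => 1 / (w : ℝ)) 1 :=
    UL_nonneg _ _ _ _ _ _ (fun _ w => hphi w) 1
  simp only [one_mul] at hred
  rw [← ENNReal.ofReal_le_ofReal_iff hUL0, hred, ENNReal.ofReal_mul (kU_pos S).le]
  refine mul_le_mul_right ?_ _
  have hmem : (∅ : Finset ℕ) ∈ (Nat.primesLE (bb 0)).powerset := Finset.empty_mem_powerset _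
  refine le_trans ?_ (Finset.single_le_sum (fun _ _ => zero_le) hmem)
  rw [Finset.mul_sum, ENNReal.ofReal_sum_of_nonneg (fun h _ => mul_nonneg c1_pos.le
    (mul_nonneg (pow_pos z_pos _).le (FF_nonneg S (by positivity))))]
  have hinj : Function.Injective (fun h : ℕ => ((h : ℤ) + 1 - (mm + 2 : ℕ) : ℤ)) := by
    intro a b hab
    simp only at hab
    omega
  refine le_trans ?_ (ENNReal.sum_le_tsum ((range M).map ⟨_, hinj⟩))
  rw [Finset.sum_map]
  refine Finset.sum_le_sum fun h _ => ENNReal.ofReal_le_ofReal ?_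
  have := prod_ge S h
  simpa using this

theorem kU_eq (S : ℕ) : kU 0 S ((mm : ℝ) + 1) = (zz / Real.exp 1) ^ S * kU 0 0 ((mm : ℝ) + 1) := by
  unfold kU
  rw [zero_add ss, pow_add]
  ring

end TopW

theorem MW_summable (S : ℕ) : Summable (fun k : ℕ => (Real.log 2) ^ k / (k.factorial : ℝ) *
    ∫ v in Set.Icc (0 : Fin k → ℝ) (fun _ => (S : ℝ)), (RR S v) ^ kap) := TopW.mw_summable S

theorem MW_nonneg (S : ℕ) : 0 ≤ MW S := tsum_nonneg fun k => TopW.mw_nonneg S k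

theorem mw_lim : Tendsto (fun S : ℕ => (zz / Real.exp 1) ^ S * MW S) atTop (𝓝 0) := by
  have hk := TopW.kU_pos 0
  have hc1 := TopW.c1_pos
  have hcc := TopW.cc_pos
  have hz : 0 < zz / Real.exp 1 := div_pos TopW.z_pos (Real.exp_pos 1)
  -- the bound by `UL`
  have hb : ∀ S : ℕ, (zz / Real.exp 1) ^ S * MW S ≤ TopW.cc / (TopW.c1 * kU 0 0 ((mm : ℝ) + 1)) *
      UL (0 + mm) (S + ss) S (bb 0) ((mm : ℝ) + 1) (fun _ w => 1 / (w : ℝ)) 1 := by
    intro S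
    set U := UL (0 + mm) (S + ss) S (bb 0) ((mm : ℝ) + 1) (fun _ w => 1 / (w : ℝ)) 1 with hU
    have hzS : 0 < (zz / Real.exp 1) ^ S := pow_pos hz S
    have h1 : MW S ≤ TopW.cc / (TopW.c1 * kU 0 0 ((mm : ℝ) + 1)) * U / (zz / Real.exp 1) ^ S := by
      refine Summable.tsum_le_of_sum_range_le (TopW.mw_summable S) fun M => ?_
      refine (TopW.mw_part S M).trans ?_
      have h2 := TopW.UL_ge S M
      rw [TopW.kU_eq, ← hU] at h2
      rw [le_div_iff₀ hzS, div_mul_eq_mul_div, le_div_iff₀ (mul_pos hc1 hk)]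
      have h3 := mul_le_mul_of_nonneg_left h2 hcc.le
      refine le_trans (le_of_eq ?_) h3
      ring
    rw [le_div_iff₀ hzS] at h1
    linarith
  have h0 : ∀ S : ℕ, 0 ≤ (zz / Real.exp 1) ^ S * MW S := fun S =>
    mul_nonneg (pow_pos hz S).le (MW_nonneg S)
  rw [Metric.tendsto_atTop]
  intro ε hε
  have hC : 0 < TopW.cc / (TopW.c1 * kU 0 0 ((mm : ℝ) + 1)) := div_pos hcc (mul_pos hc1 hk)
  obtain ⟨S0, hS0⟩ := UL_small2 1 (ε := ε / 2 / (TopW.cc / (TopW.c1 * kU 0 0 ((mm : ℝ) + 1))))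
    (by positivity)
  refine ⟨max S0 1, fun S hS => ?_⟩
  have h1 := hS0 0 S ((le_max_left _ _).trans hS) ((le_max_right _ _).trans hS) 1
    (by simp) ((mm : ℝ) + 1) le_rfl (by linarith)
  have h2 := hb S
  rw [Real.dist_eq, sub_zero, abs_of_nonneg (h0 S)]
  have h3 := mul_le_mul_of_nonneg_left h1 hC.le
  rw [mul_div_cancel₀ _ hC.ne'] at h3
  linarith

end Pool.Agent.EN2
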