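import Mathlib
import Pool.Agent.Lib.MP_ec0ede_nt_EN2.Defs
import Pool.Agent.Lib.MP_ec0ede_nt_EN2.DefsC
import Pool.Agent.Lib.MP_ec0ede_nt_EN2.FFp
import Pool.Agent.Lib.MP_ec0ede_nt_EN2.XiF
import Pool.Agent.Lib.MP_ec0ede_nt_EN2.TopW
import Pool.Agent.Lib.MP_ec0ede_nt_EN2.LamB

set_option autoImplicit false

noncomputable section

namespace Pool.Agent.EN2

open Real Filter Topology Finset Pool.Agent.EN

namespace XgL

/-- the weight in the top functional -/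
def wg (S : ℕ) {k : ℕ} (v : Fin k → ℝ) : ℝ := max 0 (lb (RR S v)) * (RR S v) ^ kap

theorem l2 : 0 < Real.log 2 := Real.log_pos (by norm_num)

theorem lb_meas : Measurable lb := by
  unfold lb
  exact Real.measurable_log.div_const _

theorem lb_RR_meas (S k : ℕ) : Measurable (fun v : Fin k → ℝ => lb (RR S v)) :=
  lb_meas.comp (RR_measurable S k)

theorem lb_RR_le (S : ℕ) {k : ℕ} (v : Fin k → ℝ) : lb (RR S v) ≤ k := by
  obtain ⟨r, hr⟩ := TopW.RR_nat S v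
  have h1 := RR_le S v
  rw [hr] at h1 ⊢
  rcases Nat.eq_zero_or_pos r with h | h
  · rw [h]
    simp [lb]
  · unfold lb
    rw [div_le_iff₀ l2, ← Real.log_pow]
    exact Real.log_le_log (by exact_mod_cast h) h1

theorem wg_nonneg (S : ℕ) {k : ℕ} (v : Fin k → ℝ) : 0 ≤ wg S v :=
  mul_nonneg (le_max_left _ _) (TopW.RR_kap_nonneg S v)

theorem wg_le (S : ℕ) {k : ℕ} (v : Fin k → ℝ) : wg S v ≤ 4 ^ k := by
  have h1 : max 0 (lb (RR S v)) ≤ 2 ^ k := by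
    refine max_le (by positivity) ((lb_RR_le S v).trans ?_)
    exact_mod_cast (Nat.lt_two_pow_self (n := k)).le
  have h2 := TopW.RR_kap_le S v
  calc wg S v ≤ 2 ^ k * 2 ^ k := mul_le_mul h1 h2 (TopW.RR_kap_nonneg S v) (by positivity)
    _ = 4 ^ k := by rw [← mul_pow]; norm_num

theorem wg_meas (S k : ℕ) : Measurable (fun v : Fin k → ℝ => wg S v) :=
  (measurable_const.max (lb_RR_meas S k)).mul (TopW.meas_kap S k)

theorem wgg_meas (S k : ℕ) {g : ℝ → ℝ} (hm : Measurable g) :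
    Measurable (fun v : Fin k → ℝ => wg S v * g (lb (RR S v))) :=
  (wg_meas S k).mul (hm.comp (lb_RR_meas S k))

theorem wgg_le (S : ℕ) {k : ℕ} {g : ℝ → ℝ} {C : ℝ} (hb : ∀ y, |g y| ≤ C) (v : Fin k → ℝ) :
    |wg S v * g (lb (RR S v))| ≤ 4 ^ k * C := by
  rw [abs_mul, abs_of_nonneg (wg_nonneg S v)]
  exact mul_le_mul (wg_le S v) (hb _) (abs_nonneg _) (by positivity)

theorem wgg_int (S k : ℕ) {g : ℝ → ℝ} (hm : Measurable g) {C : ℝ} (hb : ∀ y, |g y| ≤ C) :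
    MeasureTheory.IntegrableOn (fun v : Fin k → ℝ => wg S v * g (lb (RR S v)))
      (Set.Icc (0 : Fin k → ℝ) (fun _ => (S : ℝ))) :=
  TopW.int_of_bdd S k (wgg_meas S k hm) (wgg_le S hb)

/-- the terms -/
def tI (S : ℕ) (g : ℝ → ℝ) (k : ℕ) : ℝ := (Real.log 2) ^ k / (k.factorial : ℝ) *
  ∫ v in Set.Icc (0 : Fin k → ℝ) (fun _ => (S : ℝ)), wg S v * g (lb (RR S v))

theorem coef_nonneg (k : ℕ) : 0 ≤ (Real.log 2) ^ k / (k.factorial : ℝ) := by
  have := l2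
  positivity

theorem BSg_eq (S : ℕ) (g : ℝ → ℝ) : BSg S g = (zz / Real.exp 1) ^ S * ∑' k : ℕ, tI S g k := rfl

theorem BS_eq (S : ℕ) : BS S = BSg S (fun _ => 1) := by
  unfold BS BSg
  simp only [mul_one]

theorem tI_abs (S : ℕ) {g : ℝ → ℝ} {C : ℝ} (hb : ∀ y, |g y| ≤ C) (k : ℕ) :
    ‖tI S g k‖ ≤ C * ((4 * S * Real.log 2) ^ k / (k.factorial : ℝ)) := by
  unfold tI
  rw [norm_mul, Real.norm_of_nonneg (coef_nonneg k)]
  have h1 : ‖∫ v in Set.Icc (0 : Fin k → ℝ) (fun _ => (S : ℝ)), wg S v * g (lb (RR S v))‖ ≤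
      4 ^ k * C * MeasureTheory.volume.real (Set.Icc (0 : Fin k → ℝ) (fun _ => (S : ℝ))) := by
    apply MeasureTheory.norm_setIntegral_le_of_norm_le_const (TopW.vol_cube_lt S k)
    intro v _
    exact wgg_le S hb v
  rw [TopW.vol_cube_real] at h1
  calc _ ≤ (Real.log 2) ^ k / (k.factorial : ℝ) * (4 ^ k * C * (S : ℝ) ^ k) :=
        mul_le_mul_of_nonneg_left h1 (coef_nonneg k)
    _ = _ := by
        rw [mul_pow, mul_pow]
        ring

theorem tI_summable (S : ℕ) {g : ℝ → ℝ} {C : ℝ} (hb : ∀ y, |g y| ≤ C) :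
    Summable (tI S g) := by
  exact Summable.of_norm_bounded ((Real.summable_pow_div_factorial _).mul_left C) (tI_abs S hb)

theorem zze (S : ℕ) : 0 ≤ (zz / Real.exp 1) ^ S :=
  pow_nonneg (div_nonneg TopW.z_pos.le (Real.exp_pos _).le) _

theorem tI_one_nonneg (S k : ℕ) : 0 ≤ tI S (fun _ => 1) k := by
  apply mul_nonneg (coef_nonneg k)
  apply MeasureTheory.integral_nonneg
  intro v
  show 0 ≤ wg S v * 1
  rw [mul_one]
  exact wg_nonneg S v

theorem tI_dist (S : ℕ) {g1 g2 : ℝ → ℝ} (hm1 : Measurable g1) (hm2 : Measurable g2) {C1 C2 : ℝ}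
    (hb1 : ∀ y, |g1 y| ≤ C1) (hb2 : ∀ y, |g2 y| ≤ C2) {δ : ℝ}
    (h : ∀ y, |g1 y - g2 y| ≤ δ) (k : ℕ) :
    |tI S g1 k - tI S g2 k| ≤ δ * tI S (fun _ => 1) k := by
  have hδ : 0 ≤ δ := (abs_nonneg _).trans (h 0)
  unfold tI
  rw [← mul_sub, ← MeasureTheory.integral_sub (wgg_int S k hm1 hb1) (wgg_int S k hm2 hb2),
    abs_mul, abs_of_nonneg (coef_nonneg k)]
  have h1 : |∫ v in Set.Icc (0 : Fin k → ℝ) (fun _ => (S : ℝ)),
      (wg S v * g1 (lb (RR S v)) - wg S v * g2 (lb (RR S v)))| ≤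
      ∫ v in Set.Icc (0 : Fin k → ℝ) (fun _ => (S : ℝ)), δ * (wg S v * 1) := by
    rw [← Real.norm_eq_abs]
    apply MeasureTheory.norm_integral_le_of_norm_le
    · exact (wgg_int S k (g := fun _ => 1) measurable_const (C := 1) (by simp)).const_mul δ
    · apply Filter.Eventually.of_forall
      intro v
      show ‖wg S v * g1 (lb (RR S v)) - wg S v * g2 (lb (RR S v))‖ ≤ δ * (wg S v * 1)
      rw [← mul_sub, Real.norm_eq_abs, abs_mul, abs_of_nonneg (wg_nonneg S v), mul_one, mul_comm δ]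
      exact mul_le_mul_of_nonneg_left (h _) (wg_nonneg S v)
  rw [MeasureTheory.integral_const_mul] at h1
  calc _ ≤ (Real.log 2) ^ k / (k.factorial : ℝ) * _ := mul_le_mul_of_nonneg_left h1 (coef_nonneg k)
    _ = _ := by ring

theorem BS_nonneg' (S : ℕ) : 0 ≤ BSg S (fun _ => 1) :=
  mul_nonneg (zze S) (tsum_nonneg (tI_one_nonneg S))

theorem BSg_dist' (S : ℕ) {g1 g2 : ℝ → ℝ} (hm1 : Measurable g1) (hm2 : Measurable g2) {C1 C2 : ℝ}
    (hb1 : ∀ y, |g1 y| ≤ C1) (hb2 : ∀ y, |g2 y| ≤ C2) {δ : ℝ}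
    (h : ∀ y, |g1 y - g2 y| ≤ δ) : |BSg S g1 - BSg S g2| ≤ δ * BSg S (fun _ => 1) := by
  have s1 := tI_summable S hb1
  have s2 := tI_summable S hb2
  have s3 : Summable (tI S (fun _ => 1)) := tI_summable S (C := 1) (by simp)
  rw [BSg_eq, BSg_eq, BSg_eq, ← mul_sub, ← s1.tsum_sub s2, abs_mul, abs_of_nonneg (zze S)]
  have h1 : |∑' k, (tI S g1 k - tI S g2 k)| ≤ ∑' k, δ * tI S (fun _ => 1) k := by
    rw [← Real.norm_eq_abs]
    exact tsum_of_norm_bounded (s3.mul_left δ).hasSum (tI_dist S hm1 hm2 hb1 hb2 h)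
  rw [tsum_mul_left] at h1
  calc _ ≤ (zz / Real.exp 1) ^ S * _ := mul_le_mul_of_nonneg_left h1 (zze S)
    _ = _ := by ring

theorem BSg_zero (S : ℕ) : BSg S (fun _ => 0) = 0 := by
  rw [BSg_eq]
  unfold tI
  simp

theorem BSg_abs (S : ℕ) {g : ℝ → ℝ} (hm : Measurable g) {C : ℝ} (hb : ∀ y, |g y| ≤ C) :
    |BSg S g| ≤ C * BSg S (fun _ => 1) := by
  have h := BSg_dist' S (g1 := g) (g2 := fun _ => 0) hm measurable_const hb (C2 := 0) (by simp)
    (δ := C) (fun y => by rw [sub_zero]; exact hb y)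
  rwa [BSg_zero, sub_zero] at h

/-- linearity -/
theorem BSg_lin (S : ℕ) {ι : Type} (s : Finset ι) (c : ℝ) (g : ι → ℝ → ℝ)
    (hm : ∀ i ∈ s, Measurable (g i)) {C : ℝ} (hb : ∀ i ∈ s, ∀ y, |g i y| ≤ C) :
    BSg S (fun y => c * ∑ i ∈ s, g i y) = c * ∑ i ∈ s, BSg S (g i) := by
  have h1 : ∀ k, tI S (fun y => c * ∑ i ∈ s, g i y) k = c * ∑ i ∈ s, tI S (g i) k := by
    intro k
    unfold tI
    have e1 : ∀ v : Fin k → ℝ, wg S v * (c * ∑ i ∈ s, g i (lb (RR S v))) =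
        c * ∑ i ∈ s, wg S v * g i (lb (RR S v)) := by
      intro v
      rw [← Finset.mul_sum]
      ring
    simp_rw [e1]
    rw [MeasureTheory.integral_const_mul, MeasureTheory.integral_finsetSum, ← Finset.mul_sum]
    · ring
    · intro i hi
      exact wgg_int S k (hm i hi) (hb i hi)
  rw [BSg_eq]
  simp_rw [h1]
  rw [tsum_mul_left, Summable.tsum_finsetSum (fun i hi => tI_summable S (hb i hi))]
  simp_rw [BSg_eq]
  rw [← Finset.mul_sum]
  ring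

theorem LL_kap_le {a : ℕ} (ha : a ≠ 0) : (LL a) ^ kap ≤ a.divisors.card := by
  have h0 := Pool.Agent.EN2.LL_nonneg a
  have h1 := Pool.Agent.EN2.LL_le a
  have hd : (1 : ℝ) ≤ a.divisors.card := by
    have : 0 < a.divisors.card := Finset.card_pos.2 ⟨1, Nat.one_mem_divisors.2 ha⟩
    exact_mod_cast this
  rcases le_total (LL a) 1 with h | h
  · exact (Real.rpow_le_one h0 h TopW.kap_pos.le).trans hd
  · calc (LL a) ^ kap ≤ (LL a) ^ (1 : ℝ) := Real.rpow_le_rpow_of_exponent_le h TopW.kap_lt.le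
      _ = LL a := Real.rpow_one _
      _ ≤ _ := h1

end XgL

open XgL

theorem bs_summable (S : ℕ) {g : ℝ → ℝ} (hm : Measurable g) (hb : ∃ C, ∀ y, |g y| ≤ C) :
    Summable (fun k : ℕ => (Real.log 2) ^ k / (k.factorial : ℝ) *
      ∫ v in Set.Icc (0 : Fin k → ℝ) (fun _ => (S : ℝ)),
        max 0 (lb (RR S v)) * (RR S v) ^ kap * g (lb (RR S v))) := by
  obtain ⟨C, hC⟩ := hb
  exact tI_summable S hC
theorem aw_nonneg (K a : ℕ) : 0 ≤ aw K a := by
  unfold aw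
  exact mul_nonneg (mul_nonneg (div_nonneg (ind_nonneg _) (Nat.cast_nonneg a)) (le_max_left _ _))
    (Real.rpow_nonneg (Pool.Agent.EN2.LL_nonneg a) _)
theorem aw_summable (K : ℕ) : Summable (aw K) := by
  apply Summable.of_nonneg_of_le (aw_nonneg K) _ ((sum_div_sm (bb K)).mul_left (K : ℝ))
  intro a
  unfold aw
  rcases Nat.eq_zero_or_pos a with h | h
  · rw [h]
    simp
  · have h1 : 0 ≤ ind (Sm (bb K) a) / (a : ℝ) := div_nonneg (ind_nonneg _) (Nat.cast_nonneg a)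
    have h2 : max 0 ((K : ℝ) - a.primeFactors.card) ≤ K := by
      refine max_le (Nat.cast_nonneg K) ?_
      have : (0 : ℝ) ≤ a.primeFactors.card := Nat.cast_nonneg _
      linarith
    have h3 := LL_kap_le h.ne'
    have h4 : 0 ≤ (LL a) ^ kap := Real.rpow_nonneg (Pool.Agent.EN2.LL_nonneg a) _
    calc ind (Sm (bb K) a) / (a : ℝ) * max 0 ((K : ℝ) - a.primeFactors.card) * (LL a) ^ kap
        = ind (Sm (bb K) a) / (a : ℝ) * (max 0 ((K : ℝ) - a.primeFactors.card) *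
          (LL a) ^ kap) := by ring
      _ ≤ ind (Sm (bb K) a) / (a : ℝ) * (K * a.divisors.card) := by
          apply mul_le_mul_of_nonneg_left _ h1
          exact mul_le_mul h2 h3 h4 (Nat.cast_nonneg K)
      _ = _ := by ring
theorem pre_nonneg (K : ℕ) :
    0 ≤ (2 / Real.exp 1) ^ K * (∏ p ∈ Nat.primesLE (bb K), (1 - 1 / (p : ℝ))) := by
  apply mul_nonneg (by positivity)
  apply Finset.prod_nonneg
  intro p hp
  rw [Nat.primesLE_eq_filter_range, Finset.mem_filter] at hp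
  have h1 : (1 : ℝ) ≤ p := by exact_mod_cast hp.2.one_lt.le
  have h2 : 1 / (p : ℝ) ≤ 1 := by
    rw [div_le_one (by linarith)]
    exact h1
  linarith
theorem AK_nonneg (K : ℕ) : 0 ≤ AK K :=
  mul_nonneg (pre_nonneg K) (tsum_nonneg (aw_nonneg K))
theorem BS_nonneg (S : ℕ) : 0 ≤ BS S := by
  rw [BS_eq]
  exact BS_nonneg' S
theorem BSg_dist (S : ℕ) {g1 g2 : ℝ → ℝ} (hm1 : Measurable g1) (hm2 : Measurable g2)
    (hb1 : ∃ C, ∀ y, |g1 y| ≤ C) (hb2 : ∃ C, ∀ y, |g2 y| ≤ C) {δ : ℝ}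
    (h : ∀ y, |g1 y - g2 y| ≤ δ) : |BSg S g1 - BSg S g2| ≤ δ * BS S := by
  obtain ⟨C1, hC1⟩ := hb1
  obtain ⟨C2, hC2⟩ := hb2
  rw [BS_eq]
  exact BSg_dist' S hm1 hm2 hC1 hC2 h

namespace XgL

theorem shift_meas {g : ℝ → ℝ} (hm : Measurable g) (x : ℝ) : Measurable (fun y => g (x + y)) :=
  hm.comp (measurable_const.add measurable_id)

theorem awB_summable (K S : ℕ) {g : ℝ → ℝ} (hm : Measurable g) {C : ℝ} (hb : ∀ y, |g y| ≤ C) :
    Summable (fun a : ℕ => aw K a * BSg S (fun y => g (lb (LL a) + y))) := by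
  apply Summable.of_norm_bounded ((aw_summable K).mul_right (C * BSg S (fun _ => 1)))
  intro a
  rw [norm_mul, Real.norm_of_nonneg (aw_nonneg K a)]
  apply mul_le_mul_of_nonneg_left _ (aw_nonneg K a)
  exact BSg_abs S (shift_meas hm _) (fun y => hb _)

/-- linearity -/
theorem Xg_lin (K S : ℕ) {ι : Type} (s : Finset ι) (c : ℝ) (g : ι → ℝ → ℝ)
    (hm : ∀ i ∈ s, Measurable (g i)) {C : ℝ} (hb : ∀ i ∈ s, ∀ y, |g i y| ≤ C) :
    Xg K S (fun y => c * ∑ i ∈ s, g i y) = c * ∑ i ∈ s, Xg K S (g i) := by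
  unfold Xg
  have h1 : ∀ a : ℕ, aw K a * BSg S (fun y => c * ∑ i ∈ s, g i (lb (LL a) + y)) =
      c * ∑ i ∈ s, aw K a * BSg S (fun y => g i (lb (LL a) + y)) := by
    intro a
    rw [BSg_lin S s c (fun i y => g i (lb (LL a) + y)) (fun i hi => shift_meas (hm i hi) _)
      (fun i hi y => hb i hi _), ← Finset.mul_sum]
    ring
  simp_rw [h1]
  rw [tsum_mul_left, Summable.tsum_finsetSum (fun i hi => awB_summable K S (hm i hi) (hb i hi)),
    ← Finset.mul_sum]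
  ring

end XgL

theorem Xg_dist (K S : ℕ) {g1 g2 : ℝ → ℝ} (hm1 : Measurable g1) (hm2 : Measurable g2)
    (hb1 : ∃ C, ∀ y, |g1 y| ≤ C) (hb2 : ∃ C, ∀ y, |g2 y| ≤ C) {δ : ℝ}
    (h : ∀ y, |g1 y - g2 y| ≤ δ) : |Xg K S g1 - Xg K S g2| ≤ δ * (AK K * BS S) := by
  obtain ⟨C1, hC1⟩ := hb1
  obtain ⟨C2, hC2⟩ := hb2
  unfold Xg AK
  rw [← mul_sub, ← (awB_summable K S hm1 hC1).tsum_sub (awB_summable K S hm2 hC2), abs_mul,
    abs_of_nonneg (pre_nonneg K)]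
  have h1 : |∑' a : ℕ, (aw K a * BSg S (fun y => g1 (lb (LL a) + y)) -
      aw K a * BSg S (fun y => g2 (lb (LL a) + y)))| ≤ ∑' a : ℕ, aw K a * (δ * BS S) := by
    rw [← Real.norm_eq_abs]
    apply tsum_of_norm_bounded ((aw_summable K).mul_right (δ * BS S)).hasSum
    intro a
    rw [← mul_sub, norm_mul, Real.norm_of_nonneg (aw_nonneg K a)]
    apply mul_le_mul_of_nonneg_left _ (aw_nonneg K a)
    exact BSg_dist S (shift_meas hm1 _) (shift_meas hm2 _) ⟨C1, fun y => hC1 _⟩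
      ⟨C2, fun y => hC2 _⟩ (fun y => h _)
  rw [tsum_mul_right] at h1
  calc _ ≤ (2 / Real.exp 1) ^ K * (∏ p ∈ Nat.primesLE (bb K), (1 - 1 / (p : ℝ))) *
        ((∑' a : ℕ, aw K a) * (δ * BS S)) := mul_le_mul_of_nonneg_left h1 (pre_nonneg K)
    _ = _ := by ring
theorem Xg_const (K S : ℕ) (c : ℝ) : Xg K S (fun _ => c) = c * (AK K * BS S) := by
  have h1 := Xg_lin K S ({()} : Finset Unit) c (fun _ _ => (1 : ℝ)) (fun _ _ => measurable_const)
    (C := 1) (by simp)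
  simp only [Finset.sum_singleton, mul_one] at h1
  rw [h1]
  congr 1
  unfold Xg AK
  show (2 / Real.exp 1) ^ K * (∏ p ∈ Nat.primesLE (bb K), (1 - 1 / (p : ℝ))) *
    ∑' a : ℕ, aw K a * BSg S (fun _ => 1) = _
  rw [← BS_eq, tsum_mul_right]
  ring
theorem Xg_avg (K S M : ℕ) {g : ℝ → ℝ} (hm : Measurable g) (hb : ∃ C, ∀ y, |g y| ≤ C) :
    1 / (M : ℝ) * ∑ j ∈ range M, Xg K S (fun y => g ((j : ℝ) / M - y)) =
      Xg K S (fun y => 1 / (M : ℝ) * ∑ j ∈ range M, g ((j : ℝ) / M - y)) := by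
  obtain ⟨C, hC⟩ := hb
  exact (Xg_lin K S (range M) (1 / (M : ℝ)) (fun j y => g ((j : ℝ) / M - y))
    (fun j _ => hm.comp (measurable_const.sub measurable_id)) (fun j _ y => hC _)).symm

end Pool.Agent.EN2
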