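import Mathlib
import Pool.Agent.Lib.MP_ec0ede_nt_EN2.Defs
import Pool.Agent.Lib.MP_ec0ede_nt_EN2.XiF
import Pool.Agent.Lib.MP_ec0ede_nt_EN2.FFp
import Pool.Agent.Lib.MP_ec0ede_nt_EN2.FouQ
import Pool.Agent.Lib.MP_ec0ede_nt_EN2.LamA
import Pool.Agent.Lib.MP_ec0ede_nt_EN2.TopW

set_option autoImplicit false

noncomputable section

namespace Pool.Agent.EN2

open Real Filter Topology Finset Pool.Agent.EN

namespace NearC

/-- the coefficients -/
def co (k : ℕ) : ℝ := (Real.log 2) ^ k / (k.factorial : ℝ)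

theorem co_pos (k : ℕ) : 0 < co k := by
  unfold co
  have := Real.log_pos (by norm_num : (1 : ℝ) < 2)
  positivity

/-- the weight of a height -/
def A (x : ℝ) : ℝ := max 0 x * zz ^ x

theorem A_nonneg (x : ℝ) : 0 ≤ A x :=
  mul_nonneg (le_max_left _ _) (Real.rpow_pos_of_pos LamA.zz_pos _).le

/-- the constant `2 ^ (- ω a) * LL a` -/
def ca (a : ℕ) : ℝ := (2 : ℝ) ^ (-(a.primeFactors.card : ℝ)) * LL a

theorem ca_nonneg (a : ℕ) : 0 ≤ ca a := mul_nonneg (by positivity) (LL_nonneg a)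

theorem ca_le (a : ℕ) : ca a ≤ a.divisors.card := by
  refine le_trans ?_ (LL_le a)
  unfold ca
  have h1 : (2 : ℝ) ^ (-(a.primeFactors.card : ℝ)) ≤ 1 :=
    Real.rpow_le_one_of_one_le_of_nonpos (by norm_num) (by
      have : (0 : ℝ) ≤ a.primeFactors.card := Nat.cast_nonneg _
      linarith)
  have h2 := LL_nonneg a
  nlinarith

theorem arg_eq (a : ℕ) (x : ℝ) :
    (2 : ℝ) ^ (-x - a.primeFactors.card) * LL a = (2 : ℝ) ^ (-x) * ca a := by
  unfold ca
  rw [sub_eq_add_neg, Real.rpow_add (by norm_num)]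
  ring

/-- the terms of the double sum -/
def D (S a : ℕ) (t : ℝ) (p : ℤ × ℕ) : ℝ :=
  A (t + p.1) * FFp.T S ((2 : ℝ) ^ (-(t + p.1)) * ca a) p.2

theorem l_nonneg (a : ℕ) (x : ℝ) : 0 ≤ (2 : ℝ) ^ (-x) * ca a :=
  mul_nonneg (by positivity) (ca_nonneg a)

theorem D_nonneg (S a : ℕ) (t : ℝ) (p : ℤ × ℕ) : 0 ≤ D S a t p :=
  mul_nonneg (A_nonneg _) (FFp.T_nonneg S (l_nonneg a _) _)

theorem D_sum (S a : ℕ) (t : ℝ) (m : ℤ) : ∑' k : ℕ, D S a t (m, k) =
    A (t + m) * FF S ((2 : ℝ) ^ (-(t + m) - a.primeFactors.card) * LL a) := by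
  rw [arg_eq, FFp.FF_eq, ← tsum_mul_left]
  rfl

theorem D_summable (S a : ℕ) (t : ℝ) : Summable (D S a t) := by
  rw [summable_prod_of_nonneg (fun p => D_nonneg S a t p)]
  refine ⟨fun m => ?_, ?_⟩
  · have h : Summable fun k : ℕ => A (t + m) * FFp.T S ((2 : ℝ) ^ (-(t + m)) * ca a) k :=
      (FFp.T_summable S (l_nonneg a (t + m))).mul_left _
    exact h
  refine (xin_summable S a t).congr fun m => ?_
  rw [D_sum]
  rfl

theorem xin_D (S a : ℕ) (t : ℝ) : xin S a t = ∑' k : ℕ, ∑' m : ℤ, D S a t (m, k) := by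
  have h : xin S a t = ∑' m : ℤ, ∑' k : ℕ, D S a t (m, k) := by
    unfold xin
    refine tsum_congr fun m => ?_
    rw [D_sum]
    rfl
  rw [h]
  exact (Summable.tsum_comm (f := fun (m : ℤ) (k : ℕ) => D S a t (m, k)) (D_summable S a t)).symm

theorem Dk_summable (S a : ℕ) (t : ℝ) (k : ℕ) : Summable (fun m : ℤ => D S a t (m, k)) :=
  (D_summable S a t).comp_injective (i := fun m : ℤ => (m, k)) fun _ _ h => (Prod.ext_iff.1 h).1

/-- the inner integral -/
theorem inner (S a : ℕ) (t : ℝ) (k : ℕ) : ∑' m : ℤ, D S a t (m, k) =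
    co k * ∫ v in Set.Icc (0 : Fin k → ℝ) (fun _ => (S : ℝ)), Lam t (ca a * RR S v) := by
  set F : ℤ → (Fin k → ℝ) → ℝ := fun m v =>
    A (t + m) * FFp.g S ((2 : ℝ) ^ (-(t + m)) * ca a) v with hF
  have hI : ∀ m : ℤ, ∫ v in FFp.box S k, F m v = D S a t (m, k) / co k := by
    intro m
    rw [hF]
    simp only
    rw [MeasureTheory.integral_const_mul]
    unfold D FFp.T
    rw [← show co k = (Real.log 2) ^ k / (k.factorial : ℝ) from rfl]
    have := (co_pos k).ne'
    field_simp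
  have h1 : ∀ m : ℤ, MeasureTheory.Integrable (F m)
      (MeasureTheory.volume.restrict (FFp.box S k)) := fun m =>
    (FFp.g_int S (l_nonneg a _) k).const_mul _
  have hn : ∀ (m : ℤ) (v : Fin k → ℝ), ‖F m v‖ = F m v := fun m v => by
    rw [Real.norm_eq_abs, abs_of_nonneg (mul_nonneg (A_nonneg _)
      (FFp.g_nonneg S (l_nonneg a _) v))]
  have h2 : Summable fun m : ℤ => ∫ v in FFp.box S k, ‖F m v‖ := by
    simp only [hn, hI]
    exact (Dk_summable S a t k).div_const _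
  have h3 := MeasureTheory.hasSum_integral_of_summable_integral_norm h1 h2
  simp only [hI] at h3
  have h4 := h3.tsum_eq
  rw [tsum_div_const, div_eq_iff (co_pos k).ne'] at h4
  rw [h4, mul_comm]
  congr 1
  refine MeasureTheory.integral_congr_ae (Filter.Eventually.of_forall fun v => ?_)
  simp only
  unfold Lam
  refine tsum_congr fun m => ?_
  rw [hF]
  simp only
  unfold A FFp.g
  rw [mul_assoc ((2 : ℝ) ^ (-(t + m))) (ca a)]

end NearC

theorem xin_lam (S a : ℕ) (t : ℝ) : xin S a t = ∑' k : ℕ, (Real.log 2) ^ k / (k.factorial : ℝ) *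
    ∫ v in Set.Icc (0 : Fin k → ℝ) (fun _ => (S : ℝ)),
      Lam t ((2 : ℝ) ^ (-(a.primeFactors.card : ℝ)) * LL a * RR S v) := by
  rw [NearC.xin_D]
  refine tsum_congr fun k => ?_
  rw [NearC.inner]
  rfl

namespace NearC

theorem kap_pos : 0 < kap := by
  have := kap_b
  unfold kap
  linarith

theorem kap_lt : kap < 1 := by
  have := kap_b
  unfold kap
  linarith

/-- the terms of the sum over `k` -/
def LT (S a : ℕ) (t : ℝ) (k : ℕ) : ℝ := co k * ∫ v in FFp.box S k, Lam t (ca a * RR S v)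

theorem LT_summable (S a : ℕ) (t : ℝ) : Summable (LT S a t) := by
  have h := (D_summable S a t).prod_symm.prod
  refine h.congr fun k => ?_
  exact (inner S a t k)

theorem xin_LT (S a : ℕ) (t : ℝ) : xin S a t = ∑' k, LT S a t k := xin_lam S a t

theorem Lam_meas (S k : ℕ) (t c : ℝ) : Measurable (fun v : Fin k → ℝ => Lam t (c * RR S v)) := by
  have h : (fun v : Fin k → ℝ => Lam t (c * RR S v)) =
      (fun n : ℕ => Lam t (c * n)) ∘ (fun v : Fin k → ℝ => ⌊RR S v⌋₊) := by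
    funext v
    obtain ⟨r, hr⟩ := TopW.RR_nat S v
    simp only [Function.comp, hr, Nat.floor_natCast]
  rw [h]
  exact (measurable_from_nat).comp (Nat.measurable_floor.comp (RR_measurable S k))

theorem Lam_int (S k a : ℕ) (t : ℝ) :
    MeasureTheory.IntegrableOn (fun v : Fin k → ℝ => Lam t (ca a * RR S v)) (FFp.box S k) := by
  obtain ⟨C, hC, h⟩ := LamA.small
  refine TopW.int_of_bdd S k (Lam_meas S k t (ca a)) (C := C * (ca a * 2 ^ k)) fun v => ?_
  have h0 : 0 ≤ ca a * RR S v := mul_nonneg (ca_nonneg a) (RR_nonneg S v)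
  rw [abs_of_nonneg (Lam_nonneg t h0)]
  refine (h t _ h0).trans ?_
  exact mul_le_mul_of_nonneg_left (mul_le_mul_of_nonneg_left (RR_le S v) (ca_nonneg a)) hC.le

theorem osc_k (S a k : ℕ) {C : ℝ} (hC : ∀ t t' ρ : ℝ, 0 ≤ ρ →
    Lam t ρ ≤ (1 + 2 / 1000000) * Lam t' ρ + C * ρ ^ kap) (t t' : ℝ) :
    LT S a t k ≤ (1 + 2 / 1000000) * LT S a t' k + C * (ca a) ^ kap * TopW.mw S k := by
  have h1 : ∫ v in FFp.box S k, Lam t (ca a * RR S v) ≤
      ∫ v in FFp.box S k, ((1 + 2 / 1000000) * Lam t' (ca a * RR S v) +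
        C * (ca a) ^ kap * (RR S v) ^ kap) := by
    refine MeasureTheory.integral_mono (Lam_int S k a t)
      (((Lam_int S k a t').const_mul _).add ((TopW.integ_kap S k).const_mul _)) fun v => ?_
    have h0 : 0 ≤ ca a * RR S v := mul_nonneg (ca_nonneg a) (RR_nonneg S v)
    have h2 := hC t t' _ h0
    rw [Real.mul_rpow (ca_nonneg a) (RR_nonneg S v)] at h2
    simp only
    linarith
  rw [MeasureTheory.integral_add ((Lam_int S k a t').const_mul _)
    ((TopW.integ_kap S k).const_mul _), MeasureTheory.integral_const_mul,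
    MeasureTheory.integral_const_mul] at h1
  have h3 := mul_le_mul_of_nonneg_left h1 (co_pos k).le
  have h4 : TopW.mw S k = co k * ∫ v in FFp.box S k, (RR S v) ^ kap := rfl
  unfold LT
  rw [h4]
  refine h3.trans (le_of_eq ?_)
  ring

theorem xin_osc (S a : ℕ) {C : ℝ} (hC : ∀ t t' ρ : ℝ, 0 ≤ ρ →
    Lam t ρ ≤ (1 + 2 / 1000000) * Lam t' ρ + C * ρ ^ kap) (t t' : ℝ) :
    xin S a t ≤ (1 + 2 / 1000000) * xin S a t' + C * (ca a) ^ kap * MW S := by
  rw [xin_LT, xin_LT]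
  have h1 : Summable fun k => (1 + 2 / 1000000) * LT S a t' k + C * (ca a) ^ kap * TopW.mw S k :=
    ((LT_summable S a t').mul_left _).add ((TopW.mw_summable S).mul_left _)
  refine ((LT_summable S a t).tsum_le_tsum (fun k => osc_k S a k hC t t') h1).trans (le_of_eq ?_)
  rw [((LT_summable S a t').mul_left _).tsum_add ((TopW.mw_summable S).mul_left _),
    tsum_mul_left, tsum_mul_left]
  rfl

theorem ca_kap (a : ℕ) : (ca a) ^ kap ≤ 1 + a.divisors.card := by
  have h0 := ca_nonneg a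
  rcases le_total (ca a) 1 with h | h
  · have h1 : (ca a) ^ kap ≤ 1 := Real.rpow_le_one h0 h kap_pos.le
    have : (0 : ℝ) ≤ a.divisors.card := Nat.cast_nonneg _
    linarith
  · have h1 : (ca a) ^ kap ≤ (ca a) ^ (1 : ℝ) :=
      Real.rpow_le_rpow_of_exponent_le h kap_lt.le
    rw [Real.rpow_one] at h1
    linarith [ca_le a]

/-- the weights of the outer sum -/
def wa (K a : ℕ) : ℝ := ind (Sm (bb K) a) / (a : ℝ) *
    zz ^ a.primeFactors.card * max 0 ((K : ℝ) - a.primeFactors.card)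

theorem wa_nonneg (K a : ℕ) : 0 ≤ wa K a := by
  have h1 : 0 ≤ ind (Sm (bb K) a) / (a : ℝ) := div_nonneg (ind_nonneg _) (Nat.cast_nonneg a)
  have h4 : 0 ≤ max 0 ((K : ℝ) - a.primeFactors.card) := le_max_left _ _
  have hz := LamA.zz_pos
  unfold wa
  positivity

theorem wa_le (K a : ℕ) : wa K a ≤ zz ^ K * K * (ind (Sm (bb K) a) / (a : ℝ)) := by
  have hz := XiF.zz_pos
  have hz1 := XiF.one_le_zz
  have h1 : 0 ≤ ind (Sm (bb K) a) / (a : ℝ) := div_nonneg (ind_nonneg _) (Nat.cast_nonneg a)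
  have h4 : 0 ≤ max 0 ((K : ℝ) - a.primeFactors.card) := le_max_left _ _
  have h5 : zz ^ a.primeFactors.card * max 0 ((K : ℝ) - a.primeFactors.card) ≤ zz ^ K * K := by
    rcases le_total a.primeFactors.card K with h | h
    · have h6 : zz ^ a.primeFactors.card ≤ zz ^ K := pow_le_pow_right₀ hz1 h
      have h7 : max 0 ((K : ℝ) - a.primeFactors.card) ≤ K :=
        max_le (by positivity) (by
          have : (0 : ℝ) ≤ a.primeFactors.card := by positivity
          linarith)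
      exact mul_le_mul h6 h7 h4 (by positivity)
    · have h6 : max 0 ((K : ℝ) - a.primeFactors.card) = 0 := by
        refine max_eq_left ?_
        have : (K : ℝ) ≤ a.primeFactors.card := by exact_mod_cast h
        linarith
      rw [h6, mul_zero]
      positivity
  unfold wa
  rw [mul_assoc, mul_comm (zz ^ K * K)]
  exact mul_le_mul_of_nonneg_left h5 h1

theorem wa_summable (K : ℕ) : Summable (fun a : ℕ => wa K a * (1 + a.divisors.card)) := by
  have h1 : Summable (fun a : ℕ => zz ^ K * K * (ind (Sm (bb K) a) / (a : ℝ) +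
      ind (Sm (bb K) a) / (a : ℝ) * a.divisors.card)) :=
    ((summable_sm (bb K)).add (sum_div_sm (bb K))).mul_left _
  refine Summable.of_nonneg_of_le (fun a => mul_nonneg (wa_nonneg K a) (by positivity))
    (fun a => ?_) h1
  have h2 : (0 : ℝ) ≤ 1 + a.divisors.card := by positivity
  refine (mul_le_mul_of_nonneg_right (wa_le K a) h2).trans (le_of_eq ?_)
  ring

/-- the constant factor without the power of `S` -/
def cKn (K : ℕ) : ℝ := (Real.log 2) ^ (3 / 2 : ℝ) * √(2 / π) * (2 / Real.exp 1) ^ K *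
    (∏ p ∈ Nat.primesLE (bb K), (1 - 1 / (p : ℝ)))

theorem cKn_nonneg (K : ℕ) : 0 ≤ cKn K := by
  unfold cKn
  have h0 := Real.log_two_gt_d9
  have h1 : 0 ≤ ∏ p ∈ Nat.primesLE (bb K), (1 - 1 / (p : ℝ)) := (EpsA.ph_pos (bb K)).le
  positivity

theorem Xi_eq2 (K S : ℕ) (t : ℝ) :
    Xi K S t = cKn K * (zz / Real.exp 1) ^ S * ∑' a : ℕ, wa K a * xin S a t := rfl

end NearC

open NearC in
theorem xi_osc (K : ℕ) : ∃ C : ℝ, ∀ (S : ℕ) (t t' : ℝ),
    Xi K S t ≤ (1 + 2 / 1000000) * Xi K S t' + C * ((zz / Real.exp 1) ^ S * MW S) := by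
  obtain ⟨C, hC0, hC⟩ := lam_osc
  refine ⟨cKn K * (C * ∑' a : ℕ, wa K a * (1 + a.divisors.card)), fun S t t' => ?_⟩
  have hM := MW_nonneg S
  have hs : ∀ t, Summable fun a : ℕ => wa K a * xin S a t := fun t => xs_summable K S t
  have h1 : ∀ a : ℕ, wa K a * xin S a t ≤ (1 + 2 / 1000000) * (wa K a * xin S a t') +
      C * MW S * (wa K a * (1 + a.divisors.card)) := by
    intro a
    have h2 := mul_le_mul_of_nonneg_left (xin_osc S a hC t t') (wa_nonneg K a)
    have h3 : C * (ca a) ^ kap * MW S ≤ C * (1 + a.divisors.card) * MW S :=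
      mul_le_mul_of_nonneg_right (mul_le_mul_of_nonneg_left (ca_kap a) hC0.le) hM
    have h4 := mul_le_mul_of_nonneg_left h3 (wa_nonneg K a)
    calc wa K a * xin S a t ≤ wa K a * ((1 + 2 / 1000000) * xin S a t' +
        C * (ca a) ^ kap * MW S) := h2
      _ ≤ _ := by linarith
  have h2 : ∑' a : ℕ, wa K a * xin S a t ≤ (1 + 2 / 1000000) * ∑' a : ℕ, wa K a * xin S a t' +
      C * MW S * ∑' a : ℕ, wa K a * (1 + a.divisors.card) := by
    rw [← tsum_mul_left, ← tsum_mul_left,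
      ← ((hs t').mul_left _).tsum_add ((wa_summable K).mul_left _)]
    exact (hs t).tsum_le_tsum h1 (((hs t').mul_left _).add ((wa_summable K).mul_left _))
  have h3 : 0 ≤ cKn K * (zz / Real.exp 1) ^ S :=
    mul_nonneg (cKn_nonneg K) (pow_nonneg (div_nonneg XiF.zz_pos.le (Real.exp_pos _).le) _)
  rw [Xi_eq2, Xi_eq2]
  refine (mul_le_mul_of_nonneg_left h2 h3).trans (le_of_eq ?_)
  ring

theorem phi_osc (Φ : ℝ → ℝ) (h : ∀ ε > 0, ∃ K0 : ℕ, ∀ k ≥ K0, ∀ S ≥ K0, ∀ t : ℝ,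
    |Φ t - Xi k S t| ≤ ε) (t t' : ℝ) : Φ t ≤ (1 + 2 / 1000000) * Φ t' := by
  refine le_of_forall_pos_le_add fun ε hε => ?_
  obtain ⟨K0, hK0⟩ := h (ε / 4) (by positivity)
  obtain ⟨C, hC⟩ := xi_osc K0
  have hl : Tendsto (fun S : ℕ => C * ((zz / Real.exp 1) ^ S * MW S)) atTop (𝓝 (C * 0)) :=
    mw_lim.const_mul C
  rw [mul_zero] at hl
  obtain ⟨S0, hS0⟩ := (Metric.tendsto_atTop.1 hl) (ε / 4) (by positivity)
  have h1 := hK0 K0 le_rfl (max K0 S0) (le_max_left _ _) t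
  have h2 := hK0 K0 le_rfl (max K0 S0) (le_max_left _ _) t'
  have h3 := hC (max K0 S0) t t'
  have h4 := hS0 (max K0 S0) (le_max_right _ _)
  rw [Real.dist_eq, sub_zero] at h4
  have h5 := (abs_lt.1 h4).2
  have h6 := (abs_le.1 h1).2
  have h7 := (abs_le.1 h2).1
  linarith

end Pool.Agent.EN2
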