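import Mathlib
import Pool.Agent.Lib.MP_ec0ede_nt_EN2.Defs
import Pool.Agent.Lib.MP_ec0ede_nt_EN2.DefsC
import Pool.Agent.Lib.MP_ec0ede_nt_EN2.XiF
import Pool.Agent.Lib.MP_ec0ede_nt_EN2.FFp
import Pool.Agent.Lib.MP_ec0ede_nt_EN2.FouQ
import Pool.Agent.Lib.MP_ec0ede_nt_EN2.PoiQ
import Pool.Agent.Lib.MP_ec0ede_nt_EN2.LamA
import Pool.Agent.Lib.MP_ec0ede_nt_EN2.TopW
import Pool.Agent.Lib.MP_ec0ede_nt_EN2.NearC
import Pool.Agent.Lib.MP_ec0ede_nt_EN2.LamB
import Pool.Agent.Lib.MP_ec0ede_nt_EN2.PqM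
import Pool.Agent.Lib.MP_ec0ede_nt_EN2.XgL

set_option autoImplicit false

noncomputable section

namespace Pool.Agent.EN2

open Real Filter Topology Finset Pool.Agent.EN

namespace XgX

open NearC

/-- the integrand of `BSg` for the test function `y ↦ pq (t - (x + y))` -/
def h (S : ℕ) (t x : ℝ) {k : ℕ} (v : Fin k → ℝ) : ℝ :=
  max 0 (lb (RR S v)) * (RR S v) ^ kap * pq (t - (x + lb (RR S v)))

/-- the terms of `BSg` -/
def BT (S : ℕ) (t x : ℝ) (k : ℕ) : ℝ := co k * ∫ v in FFp.box S k, h S t x v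

theorem lb_measurable : Measurable lb := by
  unfold lb
  exact Real.measurable_log.div_const _

theorem test_meas (t x : ℝ) : Measurable (fun y : ℝ => pq (t - (x + y))) :=
  (pq_cont.comp (continuous_const.sub (continuous_const.add continuous_id))).measurable

theorem test_bdd (t x : ℝ) : ∃ C, ∀ y, |(fun y : ℝ => pq (t - (x + y))) y| ≤ C := by
  obtain ⟨C, -, hC⟩ := pq_bdd
  refine ⟨C, fun y => ?_⟩
  rw [abs_of_nonneg (hC _).1]
  exact (hC _).2

theorem BT_summable (S : ℕ) (t x : ℝ) : Summable (BT S t x) :=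
  bs_summable S (test_meas t x) (test_bdd t x)

theorem h_meas (S : ℕ) (t x : ℝ) (k : ℕ) : Measurable (fun v : Fin k → ℝ => h S t x v) := by
  unfold h
  have hR := RR_measurable S k
  have hl : Measurable (fun v : Fin k → ℝ => lb (RR S v)) := lb_measurable.comp hR
  exact (((measurable_const.max hl).mul (TopW.meas_kap S k))).mul ((test_meas t x).comp hl)

theorem lb_le {S k : ℕ} (v : Fin k → ℝ) : max 0 (lb (RR S v)) ≤ k := by
  refine max_le (Nat.cast_nonneg k) ?_
  obtain ⟨r, hr⟩ := TopW.RR_nat S v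
  have h1 := RR_le S v
  rw [hr] at h1 ⊢
  unfold lb
  have hl := FouQ.l2_pos
  rw [div_le_iff₀ hl]
  rcases Nat.eq_zero_or_pos r with h0 | h0
  · rw [h0, Nat.cast_zero, Real.log_zero]
    positivity
  · have h2 : Real.log r ≤ Real.log ((2 : ℝ) ^ k) :=
      Real.log_le_log (by exact_mod_cast h0) h1
    rwa [Real.log_pow] at h2

theorem h_int (S : ℕ) (t x : ℝ) (k : ℕ) :
    MeasureTheory.IntegrableOn (fun v : Fin k → ℝ => h S t x v) (FFp.box S k) := by
  obtain ⟨C, hC0, hC⟩ := pq_bdd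
  refine TopW.int_of_bdd S k (h_meas S t x k) (C := k * 2 ^ k * C) fun v => ?_
  unfold h
  have h1 : 0 ≤ max 0 (lb (RR S v)) := le_max_left _ _
  have h2 := TopW.RR_kap_nonneg S v
  obtain ⟨h3, h4⟩ := hC (t - (x + lb (RR S v)))
  rw [abs_of_nonneg (mul_nonneg (mul_nonneg h1 h2) h3)]
  exact mul_le_mul (mul_le_mul (lb_le v) (TopW.RR_kap_le S v) h2 (Nat.cast_nonneg k)) h4 h3
    (by positivity)

theorem diff_k {C : ℝ} (hC : ∀ (a r : ℕ) (t : ℝ), 1 ≤ a →
    |zz ^ a.primeFactors.card * Lam t ((2 : ℝ) ^ (-(a.primeFactors.card : ℝ)) * LL a * r) -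
      (LL a) ^ kap * (max 0 (lb r) * (r : ℝ) ^ kap * pq (t - (lb (LL a) + lb r)))| ≤
    C * (a.primeFactors.card + 1) * a.divisors.card * (r : ℝ) ^ kap)
    (S a : ℕ) (ha : 1 ≤ a) (t : ℝ) (k : ℕ) :
    |zz ^ a.primeFactors.card * LT S a t k - (LL a) ^ kap * BT S t (lb (LL a)) k| ≤
      C * (a.primeFactors.card + 1) * a.divisors.card * TopW.mw S k := by
  have hco := (co_pos k).le
  have e1 : zz ^ a.primeFactors.card * LT S a t k - (LL a) ^ kap * BT S t (lb (LL a)) k =
      co k * ∫ v in FFp.box S k, (zz ^ a.primeFactors.card * Lam t (ca a * RR S v) -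
        (LL a) ^ kap * h S t (lb (LL a)) v) := by
    rw [MeasureTheory.integral_sub ((Lam_int S k a t).const_mul _) ((h_int S t _ k).const_mul _),
      MeasureTheory.integral_const_mul, MeasureTheory.integral_const_mul]
    unfold NearC.LT BT
    ring
  rw [e1, abs_mul, abs_of_nonneg hco]
  have h1 : |∫ v in FFp.box S k, (zz ^ a.primeFactors.card * Lam t (ca a * RR S v) -
        (LL a) ^ kap * h S t (lb (LL a)) v)| ≤
      ∫ v in FFp.box S k, C * (a.primeFactors.card + 1) * a.divisors.card * (RR S v) ^ kap := by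
    rw [← Real.norm_eq_abs]
    refine MeasureTheory.norm_integral_le_of_norm_le ((TopW.integ_kap S k).const_mul _)
      (Filter.Eventually.of_forall fun v => ?_)
    obtain ⟨r, hr⟩ := TopW.RR_nat S v
    rw [Real.norm_eq_abs]
    unfold h
    rw [hr]
    exact hC a r t ha
  rw [MeasureTheory.integral_const_mul] at h1
  have h2 := mul_le_mul_of_nonneg_left h1 hco
  refine h2.trans (le_of_eq ?_)
  have h4 : TopW.mw S k = co k * ∫ v in FFp.box S k, (RR S v) ^ kap := rfl
  rw [h4]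
  ring

theorem diff_a {C : ℝ} (hC : ∀ (a r : ℕ) (t : ℝ), 1 ≤ a →
    |zz ^ a.primeFactors.card * Lam t ((2 : ℝ) ^ (-(a.primeFactors.card : ℝ)) * LL a * r) -
      (LL a) ^ kap * (max 0 (lb r) * (r : ℝ) ^ kap * pq (t - (lb (LL a) + lb r)))| ≤
    C * (a.primeFactors.card + 1) * a.divisors.card * (r : ℝ) ^ kap)
    (S a : ℕ) (ha : 1 ≤ a) (t : ℝ) :
    |zz ^ a.primeFactors.card * xin S a t - (LL a) ^ kap * ∑' k, BT S t (lb (LL a)) k| ≤
      C * (a.primeFactors.card + 1) * a.divisors.card * MW S := by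
  have s1 : Summable fun k => zz ^ a.primeFactors.card * LT S a t k :=
    (LT_summable S a t).mul_left _
  have s2 : Summable fun k => (LL a) ^ kap * BT S t (lb (LL a)) k :=
    (BT_summable S t _).mul_left _
  have s3 : Summable fun k => C * (a.primeFactors.card + 1) * a.divisors.card * TopW.mw S k :=
    (TopW.mw_summable S).mul_left _
  rw [xin_LT, ← tsum_mul_left, ← tsum_mul_left, ← s1.tsum_sub s2, ← Real.norm_eq_abs]
  have h1 : MW S = ∑' k, TopW.mw S k := rfl
  rw [h1, ← tsum_mul_left]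
  exact tsum_of_norm_bounded s3.hasSum fun k => by
    rw [Real.norm_eq_abs]
    exact diff_k hC S a ha t k

/-- the weights without the factor `zz ^ ω` -/
def w (K a : ℕ) : ℝ := ind (Sm (bb K) a) / (a : ℝ) * max 0 ((K : ℝ) - a.primeFactors.card)

theorem w_nonneg (K a : ℕ) : 0 ≤ w K a :=
  mul_nonneg (div_nonneg (ind_nonneg _) (Nat.cast_nonneg a)) (le_max_left _ _)

theorem w_zero (K : ℕ) : w K 0 = 0 := by
  unfold w
  rw [ind_not_of (fun h => h.1 rfl)]
  simp

theorem w_le (K a : ℕ) : w K a * (a.primeFactors.card + 1) ≤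
    K * (K + 1) * (ind (Sm (bb K) a) / (a : ℝ)) := by
  have h1 : 0 ≤ ind (Sm (bb K) a) / (a : ℝ) := div_nonneg (ind_nonneg _) (Nat.cast_nonneg a)
  have h2 : max 0 ((K : ℝ) - a.primeFactors.card) * (a.primeFactors.card + 1) ≤ K * (K + 1) := by
    have h0 : (0 : ℝ) ≤ a.primeFactors.card := Nat.cast_nonneg _
    rcases le_total a.primeFactors.card K with h | h
    · have h' : (a.primeFactors.card : ℝ) ≤ K := by exact_mod_cast h
      rw [max_eq_right (by linarith)]
      exact mul_le_mul (by linarith) (by linarith) (by linarith) (Nat.cast_nonneg K)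
    · have h' : (K : ℝ) ≤ a.primeFactors.card := by exact_mod_cast h
      rw [max_eq_left (by linarith), zero_mul]
      positivity
  unfold w
  calc ind (Sm (bb K) a) / (a : ℝ) * max 0 ((K : ℝ) - a.primeFactors.card) *
        (a.primeFactors.card + 1)
      = (ind (Sm (bb K) a) / (a : ℝ)) *
        (max 0 ((K : ℝ) - a.primeFactors.card) * (a.primeFactors.card + 1)) := by ring
    _ ≤ (ind (Sm (bb K) a) / (a : ℝ)) * (K * (K + 1)) := mul_le_mul_of_nonneg_left h2 h1
    _ = _ := by ring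

theorem BSg_eq (S : ℕ) (t x : ℝ) : BSg S (fun y => pq (t - (x + y))) =
    (zz / Real.exp 1) ^ S * ∑' k, BT S t x k := rfl

theorem Xg_eq (K S : ℕ) (t : ℝ) : c0 * Xg K S (fun y => pq (t - y)) =
    cKn K * (zz / Real.exp 1) ^ S *
      ∑' a : ℕ, w K a * ((LL a) ^ kap * ∑' k, BT S t (lb (LL a)) k) := by
  unfold Xg
  have h1 : ∀ a : ℕ, aw K a * BSg S (fun y => (fun y => pq (t - y)) (lb (LL a) + y)) =
      (zz / Real.exp 1) ^ S * (w K a * ((LL a) ^ kap * ∑' k, BT S t (lb (LL a)) k)) := by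
    intro a
    simp only
    rw [BSg_eq]
    unfold aw w
    ring
  simp only [h1]
  rw [tsum_mul_left]
  unfold c0 cKn
  ring

end XgX

open XgX NearC in
theorem xi_xg (K : ℕ) : ∃ C : ℝ, ∀ (S : ℕ) (t : ℝ),
    |Xi K S t - c0 * Xg K S (fun y => pq (t - y))| ≤ C * ((zz / Real.exp 1) ^ S * MW S) := by
  obtain ⟨C, hC0, hC⟩ := lam_a
  refine ⟨cKn K * (K * (K + 1) * C *
    ∑' a : ℕ, ind (Sm (bb K) a) / (a : ℝ) * a.divisors.card), fun S t => ?_⟩
  have hM := MW_nonneg S
  set f : ℕ → ℝ := fun a => wa K a * xin S a t with hf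
  set g : ℕ → ℝ := fun a => w K a * ((LL a) ^ kap * ∑' k, BT S t (lb (LL a)) k) with hg
  have hsf : Summable f := xs_summable K S t
  have hsb : Summable fun a : ℕ => K * (K + 1) * C * MW S *
      (ind (Sm (bb K) a) / (a : ℝ) * a.divisors.card) := (sum_div_sm (bb K)).mul_left _
  have hd : ∀ a, ‖f a - g a‖ ≤ K * (K + 1) * C * MW S *
      (ind (Sm (bb K) a) / (a : ℝ) * a.divisors.card) := by
    intro a
    have e1 : f a - g a = w K a * (zz ^ a.primeFactors.card * xin S a t -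
        (LL a) ^ kap * ∑' k, BT S t (lb (LL a)) k) := by
      rw [hf, hg]
      simp only
      unfold wa w
      ring
    rw [e1, Real.norm_eq_abs, abs_mul, abs_of_nonneg (w_nonneg K a)]
    rcases Nat.eq_zero_or_pos a with h0 | h0
    · subst h0
      rw [w_zero, zero_mul]
      have : ind (Sm (bb K) 0) = 0 := ind_not_of (fun h => h.1 rfl)
      rw [this]
      simp
    · have h1 := diff_a hC S a h0 t
      have h2 := mul_le_mul_of_nonneg_left h1 (w_nonneg K a)
      refine h2.trans ?_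
      have h3 := w_le K a
      have h4 : 0 ≤ C * a.divisors.card * MW S := by positivity
      calc w K a * (C * (a.primeFactors.card + 1) * a.divisors.card * MW S)
          = w K a * (a.primeFactors.card + 1) * (C * a.divisors.card * MW S) := by ring
        _ ≤ K * (K + 1) * (ind (Sm (bb K) a) / (a : ℝ)) * (C * a.divisors.card * MW S) :=
            mul_le_mul_of_nonneg_right h3 h4
        _ = _ := by ring
  have hsd : Summable fun a => f a - g a := Summable.of_norm_bounded hsb hd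
  have hsg : Summable g := by
    have := hsf.sub hsd
    refine this.congr fun a => ?_
    ring
  have h3 : 0 ≤ cKn K * (zz / Real.exp 1) ^ S :=
    mul_nonneg (cKn_nonneg K) (pow_nonneg (div_nonneg XiF.zz_pos.le (Real.exp_pos _).le) _)
  rw [Xi_eq2, Xg_eq, ← mul_sub, abs_mul, abs_of_nonneg h3]
  have h4 : |∑' a, f a - ∑' a, g a| ≤ K * (K + 1) * C * MW S *
      ∑' a : ℕ, ind (Sm (bb K) a) / (a : ℝ) * a.divisors.card := by
    rw [← hsf.tsum_sub hsg, ← tsum_mul_left, ← Real.norm_eq_abs]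
    exact tsum_of_norm_bounded hsb.hasSum hd
  refine (mul_le_mul_of_nonneg_left h4 h3).trans (le_of_eq ?_)
  ring

end Pool.Agent.EN2
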