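import Mathlib
import Pool.Agent.Lib.MP_ec0ede_nt_EN2.Defs
import Pool.Agent.Lib.MP_ec0ede_nt_EN2.DefsC
import Pool.Agent.Lib.MP_ec0ede_nt_EN2.XiF
import Pool.Agent.Lib.MP_ec0ede_nt_EN2.TopW
import Pool.Agent.Lib.MP_ec0ede_nt_EN2.PoiQ
import Pool.Agent.Lib.MP_ec0ede_nt_EN2.Fin2
import Pool.Agent.Lib.MP_ec0ede_nt_EN2.PqM
import Pool.Agent.Lib.MP_ec0ede_nt_EN2.XgL
import Pool.Agent.Lib.MP_ec0ede_nt_EN2.XgX
import Pool.Agent.Lib.MP_ec0ede_nt_EN2.LimAB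
import Pool.Agent.Lib.MP_ec0ede_nt_EN2.LamB

set_option autoImplicit false

noncomputable section

namespace Pool.Agent.EN2

open Real Filter Topology Finset Pool.Agent.EN

theorem phi_xg (Φ : ℝ → ℝ) (h : ∀ ε > 0, ∃ K0 : ℕ, ∀ k ≥ K0, ∀ S ≥ K0, ∀ t : ℝ,
    |Φ t - Xi k S t| ≤ ε) {ε : ℝ} (hε : 0 < ε) : ∃ K0 : ℕ, ∀ K ≥ K0, ∃ S0 : ℕ, ∀ S ≥ S0, ∀ t : ℝ,
    |Φ t - c0 * Xg K S (fun y => pq (t - y))| ≤ ε := by
  obtain ⟨K1, h1⟩ := h (ε / 2) (half_pos hε)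
  refine ⟨K1, fun K hK => ?_⟩
  obtain ⟨C, hC⟩ := xi_xg K
  have h2 := mw_lim.const_mul C
  rw [mul_zero] at h2
  obtain ⟨S1, hS1⟩ := eventually_atTop.1 (h2.eventually (Iic_mem_nhds (half_pos hε)))
  refine ⟨max K1 S1, fun S hS t => ?_⟩
  have a := h1 K hK S ((le_max_left _ _).trans hS) t
  have b := hC S t
  have c : C * ((zz / Real.exp 1) ^ S * MW S) ≤ ε / 2 := hS1 S ((le_max_right _ _).trans hS)
  have d := abs_sub_le (Φ t) (Xi K S t) (c0 * Xg K S (fun y => pq (t - y)))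
  linarith

namespace FinAB

theorem c0_pos : 0 < c0 := by
  have h : 0 < Real.log 2 := Real.log_pos (by norm_num)
  unfold c0
  exact mul_pos (Real.rpow_pos_of_pos h _) (Real.sqrt_pos.2 (div_pos two_pos Real.pi_pos))

theorem pq_abs : ∃ C : ℝ, ∀ y : ℝ, |pq y| ≤ C := by
  obtain ⟨C, _, h⟩ := pq_bdd
  exact ⟨C, fun y => by rw [abs_of_nonneg (h y).1]; exact (h y).2⟩

theorem near (K S : ℕ) (t : ℝ) :
    |c0 * Xg K S (fun y => pq (t - y)) - c0 * PoiQ.p0 * (AK K * BS S)| ≤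
      7 / 10000000 * (c0 * PoiQ.p0 * (AK K * BS S)) := by
  obtain ⟨C, hC⟩ := pq_abs
  have h1 := Xg_dist K S (g1 := fun y => pq (t - y)) (g2 := fun _ => PoiQ.p0)
    (δ := 7 / 10000000 * PoiQ.p0) (pq_cont.comp (by fun_prop)).measurable measurable_const
    ⟨C, fun y => hC (t - y)⟩ ⟨|PoiQ.p0|, fun _ => le_rfl⟩ (fun y => pq_near0 (t - y))
  rw [Xg_const] at h1
  have h2 : c0 * Xg K S (fun y => pq (t - y)) - c0 * PoiQ.p0 * (AK K * BS S) =
      c0 * (Xg K S (fun y => pq (t - y)) - PoiQ.p0 * (AK K * BS S)) := by ring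
  rw [h2, abs_mul, abs_of_pos c0_pos]
  refine (mul_le_mul_of_nonneg_left h1 c0_pos.le).trans (le_of_eq ?_)
  ring

theorem mean {ε : ℝ} (hε : 0 < ε) : ∃ M0 : ℕ, ∀ M ≥ M0, 1 ≤ M → ∀ K S : ℕ,
    |1 / (M : ℝ) * ∑ j ∈ range M, c0 * Xg K S (fun y => pq ((j : ℝ) / M - y)) -
      c0 * PoiQ.p0 * (AK K * BS S)| ≤ c0 * ε * (AK K * BS S) := by
  obtain ⟨C, hC⟩ := pq_abs
  obtain ⟨M0, hM0⟩ := pq_mean hε
  refine ⟨M0, fun M hM hM1 K S => ?_⟩
  have hMp : (0 : ℝ) < M := by exact_mod_cast hM1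
  have h0 : ∀ y : ℝ, |1 / (M : ℝ) * ∑ j ∈ range M, pq ((j : ℝ) / M - y)| ≤ ε + |PoiQ.p0| := by
    intro y
    have a := hM0 M hM hM1 y
    have b := abs_add_le (1 / (M : ℝ) * ∑ j ∈ range M, pq ((j : ℝ) / M - y) - PoiQ.p0) PoiQ.p0
    rw [sub_add_cancel] at b
    linarith
  have hmeas : Measurable (fun y : ℝ => 1 / (M : ℝ) * ∑ j ∈ range M, pq ((j : ℝ) / M - y)) := by
    refine Continuous.measurable (continuous_const.mul (continuous_finsetSum _ fun j _ => ?_))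
    exact pq_cont.comp (by fun_prop)
  have h1 := Xg_dist K S
    (g1 := fun y => 1 / (M : ℝ) * ∑ j ∈ range M, pq ((j : ℝ) / M - y)) (g2 := fun _ => PoiQ.p0)
    (δ := ε) hmeas measurable_const ⟨_, h0⟩ ⟨|PoiQ.p0|, fun _ => le_rfl⟩ (fun y => hM0 M hM hM1 y)
  rw [Xg_const, ← Xg_avg K S M pq_cont.measurable ⟨C, hC⟩] at h1
  rw [← Finset.mul_sum]
  have h2 : 1 / (M : ℝ) * (c0 * ∑ j ∈ range M, Xg K S (fun y => pq ((j : ℝ) / M - y))) -
      c0 * PoiQ.p0 * (AK K * BS S) =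
      c0 * (1 / (M : ℝ) * ∑ j ∈ range M, Xg K S (fun y => pq ((j : ℝ) / M - y)) -
        PoiQ.p0 * (AK K * BS S)) := by ring
  rw [h2, abs_mul, abs_of_pos c0_pos]
  refine (mul_le_mul_of_nonneg_left h1 c0_pos.le).trans (le_of_eq ?_)
  ring

end FinAB

theorem fin_AB (Φ : ℝ → ℝ) (hc : Continuous Φ) (hp : ∀ t, 0 < Φ t)
    (h : ∀ ε > 0, ∃ K0 : ℕ, ∀ k ≥ K0, ∀ S ≥ K0, ∀ t : ℝ, |Φ t - Xi k S t| ≤ ε) :
    ∃ A B : ℝ, 0 < A ∧ 0 < B ∧ Tendsto AK atTop (𝓝 A) ∧ Tendsto BS atTop (𝓝 B) ∧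
    ∫ x in (0 : ℝ)..1, Φ x = c0 * PoiQ.p0 * (A * B) ∧
    ∀ t : ℝ, |Φ t - c0 * PoiQ.p0 * (A * B)| ≤ 7 / 10000000 * (c0 * PoiQ.p0 * (A * B)) := by
  have hc0 := FinAB.c0_pos
  have hp0 := PoiQ.p0_pos
  have hcp : 0 < c0 * PoiQ.p0 := mul_pos hc0 hp0
  set m : ℝ := ∫ x in (0 : ℝ)..1, Φ x with hm
  have hmpos : 0 < m :=
    intervalIntegral.intervalIntegral_pos_of_pos (hc.intervalIntegrable _ _) hp one_pos
  -- the products are bounded
  obtain ⟨K1, hK1⟩ := phi_xg Φ h one_pos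
  set C : ℝ := 2 * (Φ 0 + 1) / (c0 * PoiQ.p0) with hC
  have hCpos : 0 < C := div_pos (by have := hp 0; linarith) hcp
  have hbd : ∀ K ≥ K1, ∃ S1 : ℕ, ∀ S ≥ S1, AK K * BS S ≤ C := by
    intro K hK
    obtain ⟨S1, hS1⟩ := hK1 K hK
    refine ⟨S1, fun S hS => ?_⟩
    have a := (abs_le.1 (hS1 S hS 0)).1
    have b := (abs_le.1 (FinAB.near K S 0)).1
    have e : c0 * PoiQ.p0 * (AK K * BS S) ≤ 2 * (Φ 0 + 1) := by
      have := hp 0
      linarith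
    rw [hC, le_div_iff₀ hcp]
    linarith
  -- the mean value
  have key : ∀ ε > 0, ∃ K0 : ℕ, ∀ K ≥ K0, ∃ S0 : ℕ, ∀ S ≥ S0,
      |m - c0 * PoiQ.p0 * (AK K * BS S)| ≤ ε := by
    intro ε hε
    have hε3 : 0 < ε / 3 := by positivity
    obtain ⟨M1, hM1⟩ := Metric.tendsto_atTop.1 (riem Φ hc) (ε / 3) hε3
    obtain ⟨M2, hM2⟩ := FinAB.mean (ε := ε / 3 / (c0 * C)) (div_pos hε3 (mul_pos hc0 hCpos))
    set M := max (max M1 M2) 1 with hM
    have hM1' : M ≥ M1 := (le_max_left _ _).trans (le_max_left _ _)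
    have hM2' : M ≥ M2 := (le_max_right _ _).trans (le_max_left _ _)
    have hM3' : 1 ≤ M := le_max_right _ _
    have hMp : (0 : ℝ) < M := by exact_mod_cast hM3'
    obtain ⟨K2, hK2⟩ := phi_xg Φ h hε3
    refine ⟨max K1 K2, fun K hK => ?_⟩
    obtain ⟨S1, hS1⟩ := hbd K ((le_max_left _ _).trans hK)
    obtain ⟨S2, hS2⟩ := hK2 K ((le_max_right _ _).trans hK)
    refine ⟨max S1 S2, fun S hS => ?_⟩
    have hAB := hS1 S ((le_max_left _ _).trans hS)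
    have a := hM1 M hM1'
    rw [Real.dist_eq, abs_sub_comm] at a
    have b := hM2 M hM2' hM3' K S
    have b' : c0 * (ε / 3 / (c0 * C)) * (AK K * BS S) ≤ ε / 3 := by
      have e1 : c0 * (ε / 3 / (c0 * C)) = ε / 3 / C := by
        field_simp
      rw [e1]
      calc ε / 3 / C * (AK K * BS S) ≤ ε / 3 / C * C :=
            mul_le_mul_of_nonneg_left hAB (by positivity)
        _ = ε / 3 := by field_simp
    have c : |1 / (M : ℝ) * ∑ j ∈ range M, Φ ((j : ℝ) / M) -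
        1 / (M : ℝ) * ∑ j ∈ range M, c0 * Xg K S (fun y => pq ((j : ℝ) / M - y))| ≤ ε / 3 := by
      rw [← mul_sub, ← Finset.sum_sub_distrib, abs_mul, abs_of_pos (by positivity)]
      have e2 : |∑ j ∈ range M, (Φ ((j : ℝ) / M) -
          c0 * Xg K S (fun y => pq ((j : ℝ) / M - y)))| ≤ M * (ε / 3) := by
        refine (Finset.abs_sum_le_sum_abs _ _).trans ?_
        refine (Finset.sum_le_sum fun j _ => hS2 S ((le_max_right _ _).trans hS) _).trans ?_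
        rw [Finset.sum_const, Finset.card_range, nsmul_eq_mul]
      calc 1 / (M : ℝ) * _ ≤ 1 / (M : ℝ) * (M * (ε / 3)) :=
            mul_le_mul_of_nonneg_left e2 (by positivity)
        _ = ε / 3 := by field_simp
    have d1 := abs_sub_le m (1 / (M : ℝ) * ∑ j ∈ range M, Φ ((j : ℝ) / M))
      (1 / (M : ℝ) * ∑ j ∈ range M, c0 * Xg K S (fun y => pq ((j : ℝ) / M - y)))
    have d2 := abs_sub_le m
      (1 / (M : ℝ) * ∑ j ∈ range M, c0 * Xg K S (fun y => pq ((j : ℝ) / M - y)))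
      (c0 * PoiQ.p0 * (AK K * BS S))
    linarith
  -- the limits
  obtain ⟨A, B, hA, hB, hAl, hBl, hAB⟩ := lim_AB AK BS (m / (c0 * PoiQ.p0)) (div_pos hmpos hcp)
    AK_nonneg BS_nonneg (fun ε hε => by
      obtain ⟨K0, hK0⟩ := key (ε * (c0 * PoiQ.p0)) (mul_pos hε hcp)
      refine ⟨K0, fun K hK => ?_⟩
      obtain ⟨S0, hS0⟩ := hK0 K hK
      refine ⟨S0, fun S hS => ?_⟩
      have a := hS0 S hS
      have e : m / (c0 * PoiQ.p0) - AK K * BS S =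
          (m - c0 * PoiQ.p0 * (AK K * BS S)) / (c0 * PoiQ.p0) := by
        field_simp
      rw [e, abs_div, abs_of_pos hcp, div_le_iff₀ hcp]
      exact a)
  have hmAB : m = c0 * PoiQ.p0 * (A * B) := by
    rw [hAB]
    field_simp
  refine ⟨A, B, hA, hB, hAl, hBl, hmAB, fun t => ?_⟩
  -- the distance from the mean value
  refine le_of_forall_pos_le_add fun ε hε => ?_
  obtain ⟨K0, hK0⟩ := phi_xg Φ h hε
  have hK : ∀ K ≥ K0, |Φ t - c0 * PoiQ.p0 * (AK K * B)| ≤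
      7 / 10000000 * (c0 * PoiQ.p0 * (AK K * B)) + ε := by
    intro K hK
    obtain ⟨S0, hS0⟩ := hK0 K hK
    have hl : Tendsto (fun S => c0 * PoiQ.p0 * (AK K * BS S)) atTop
        (𝓝 (c0 * PoiQ.p0 * (AK K * B))) := (hBl.const_mul _).const_mul _
    refine le_of_tendsto_of_tendsto ((tendsto_const_nhds.sub hl).abs)
      ((hl.const_mul (7 / 10000000)).add_const ε) ?_
    filter_upwards [eventually_ge_atTop S0] with S hS
    have a := hS0 S hS t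
    have b := FinAB.near K S t
    have d := abs_sub_le (Φ t) (c0 * Xg K S (fun y => pq (t - y))) (c0 * PoiQ.p0 * (AK K * BS S))
    linarith
  have hl : Tendsto (fun K => c0 * PoiQ.p0 * (AK K * B)) atTop
      (𝓝 (c0 * PoiQ.p0 * (A * B))) := (hAl.mul_const _).const_mul _
  refine le_of_tendsto_of_tendsto ((tendsto_const_nhds.sub hl).abs)
    ((hl.const_mul (7 / 10000000)).add_const ε) ?_
  filter_upwards [eventually_ge_atTop K0] with K hK'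
  exact hK K hK'

end Pool.Agent.EN2
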