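import Mathlib
import Pool.Agent.Lib.MP_ec0ede_nt_EN2.Defs

set_option autoImplicit false

noncomputable section

namespace Pool.Agent.EN2

open Real Filter Topology Finset Pool.Agent.EN

theorem lim_AB (a b : ℕ → ℝ) (m : ℝ) (hm : 0 < m) (ha : ∀ K, 0 ≤ a K) (hb : ∀ S, 0 ≤ b S)
    (h : ∀ ε > 0, ∃ K0, ∀ K ≥ K0, ∃ S0, ∀ S ≥ S0, |m - a K * b S| ≤ ε) :
    ∃ A B : ℝ, 0 < A ∧ 0 < B ∧ Tendsto a atTop (𝓝 A) ∧ Tendsto b atTop (𝓝 B) ∧ A * B = m := by
  obtain ⟨K1, hK1⟩ := h (m / 2) (by positivity)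
  obtain ⟨S1, hS1⟩ := hK1 K1 le_rfl
  have hlow : ∀ S ≥ S1, m / 2 ≤ a K1 * b S ∧ a K1 * b S ≤ 3 * m / 2 := by
    intro S hS
    have h1 := abs_le.mp (hS1 S hS)
    constructor <;> linarith [h1.1, h1.2]
  have haK : 0 < a K1 := by
    rcases (ha K1).lt_or_eq with h1 | h1
    · exact h1
    · have h2 := (hlow S1 le_rfl).1
      rw [← h1, zero_mul] at h2
      linarith
  set β : ℝ := m / (2 * a K1) with hβ
  have hβ0 : 0 < β := by positivity
  have hβm : a K1 * β = m / 2 := by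
    rw [hβ]
    field_simp
  have hbl : ∀ S ≥ S1, β ≤ b S := by
    intro S hS
    have h1 := (hlow S hS).1
    rw [← hβm] at h1
    exact le_of_mul_le_mul_left h1 haK
  have hbu : ∀ S ≥ S1, b S ≤ 3 * β := by
    intro S hS
    have h1 := (hlow S hS).2
    have h2 : a K1 * b S ≤ a K1 * (3 * β) := by
      have : a K1 * (3 * β) = 3 * (a K1 * β) := by ring
      rw [this, hβm]
      linarith
    exact le_of_mul_le_mul_left h2 haK
  -- a is Cauchy
  have hca : CauchySeq a := by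
    rw [Metric.cauchySeq_iff']
    intro ε hε
    obtain ⟨K0, hK0⟩ := h (ε * β / 4) (by positivity)
    refine ⟨K0, fun K hK => ?_⟩
    obtain ⟨S0, hS0⟩ := hK0 K hK
    obtain ⟨S0', hS0'⟩ := hK0 K0 le_rfl
    set S := max (max S0 S0') S1 with hSdef
    have h1 := hS0 S ((le_max_left _ _).trans (le_max_left _ _))
    have h2 := hS0' S ((le_max_right _ _).trans (le_max_left _ _))
    have h3 := hbl S (le_max_right _ _)
    have h4 : |a K - a K0| * b S ≤ ε * β / 2 := by
      have h5 : (a K - a K0) * b S = (m - a K0 * b S) - (m - a K * b S) := by ring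
      have h6 : |a K - a K0| * b S = |(a K - a K0) * b S| := by
        rw [abs_mul, abs_of_nonneg (hb S)]
      rw [h6, h5]
      calc |(m - a K0 * b S) - (m - a K * b S)| ≤ |m - a K0 * b S| + |m - a K * b S| :=
            abs_sub _ _
        _ ≤ ε * β / 2 := by linarith
    have h7 : |a K - a K0| * β ≤ (ε / 2) * β := by
      calc |a K - a K0| * β ≤ |a K - a K0| * b S := by gcongr
        _ ≤ ε * β / 2 := h4
        _ = (ε / 2) * β := by ring
    have h8 : |a K - a K0| ≤ ε / 2 := le_of_mul_le_mul_right h7 hβ0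
    rw [Real.dist_eq]
    linarith
  obtain ⟨A, hA⟩ := cauchySeq_tendsto_of_complete hca
  have hal : ∀ K ≥ K1, a K1 / 3 ≤ a K := by
    intro K hK
    obtain ⟨S0, hS0⟩ := hK1 K hK
    set S := max S0 S1 with hSdef
    have h1 := abs_le.mp (hS0 S (le_max_left _ _))
    have h2 := hbu S (le_max_right _ _)
    have h3 : m / 2 ≤ a K * b S := by linarith [h1.2]
    have h4 : m / 2 ≤ a K * (3 * β) := h3.trans (by gcongr; exact ha K)
    have h5 : (a K1 / 3) * (3 * β) ≤ a K * (3 * β) := by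
      have : (a K1 / 3) * (3 * β) = a K1 * β := by ring
      rw [this, hβm]
      exact h4
    exact le_of_mul_le_mul_right h5 (by positivity)
  have hA0 : 0 < A := by
    have h1 : a K1 / 3 ≤ A := ge_of_tendsto hA (eventually_atTop.mpr ⟨K1, hal⟩)
    have h2 : 0 < a K1 / 3 := by positivity
    linarith
  -- b is Cauchy
  have hcb : CauchySeq b := by
    rw [Metric.cauchySeq_iff']
    intro ε hε
    obtain ⟨K0, hK0⟩ := h (ε * (a K1 / 3) / 4) (by positivity)
    set K := max K0 K1 with hK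
    obtain ⟨S0, hS0⟩ := hK0 K (le_max_left _ _)
    refine ⟨S0, fun S hS => ?_⟩
    have h1 := hS0 S hS
    have h2 := hS0 S0 le_rfl
    have h3 := hal K (le_max_right _ _)
    have h4 : |b S - b S0| * a K ≤ ε * (a K1 / 3) / 2 := by
      have h5 : (b S - b S0) * a K = (m - a K * b S0) - (m - a K * b S) := by ring
      have h6 : |b S - b S0| * a K = |(b S - b S0) * a K| := by
        rw [abs_mul, abs_of_nonneg (ha K)]
      rw [h6, h5]
      calc |(m - a K * b S0) - (m - a K * b S)| ≤ |m - a K * b S0| + |m - a K * b S| :=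
            abs_sub _ _
        _ ≤ ε * (a K1 / 3) / 2 := by linarith
    have h7 : |b S - b S0| * (a K1 / 3) ≤ (ε / 2) * (a K1 / 3) := by
      calc |b S - b S0| * (a K1 / 3) ≤ |b S - b S0| * a K := by gcongr
        _ ≤ ε * (a K1 / 3) / 2 := h4
        _ = (ε / 2) * (a K1 / 3) := by ring
    have h8 : |b S - b S0| ≤ ε / 2 := le_of_mul_le_mul_right h7 (by positivity)
    rw [Real.dist_eq]
    linarith
  obtain ⟨B, hB⟩ := cauchySeq_tendsto_of_complete hcb
  have hB0 : 0 < B := by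
    have h1 : β ≤ B := ge_of_tendsto hB (eventually_atTop.mpr ⟨S1, hbl⟩)
    linarith
  refine ⟨A, B, hA0, hB0, hA, hB, ?_⟩
  have hfin : ∀ ε > 0, |m - A * B| ≤ ε := by
    intro ε hε
    obtain ⟨K0, hK0⟩ := h ε hε
    have h1 : ∀ K ≥ K0, |m - a K * B| ≤ ε := by
      intro K hK
      obtain ⟨S0, hS0⟩ := hK0 K hK
      have h2 : Tendsto (fun S => |m - a K * b S|) atTop (𝓝 |m - a K * B|) :=
        (tendsto_const_nhds.sub (hB.const_mul (a K))).abs
      exact le_of_tendsto h2 (eventually_atTop.mpr ⟨S0, hS0⟩)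
    have h3 : Tendsto (fun K => |m - a K * B|) atTop (𝓝 |m - A * B|) :=
      (tendsto_const_nhds.sub (hA.mul_const B)).abs
    exact le_of_tendsto h3 (eventually_atTop.mpr ⟨K0, h1⟩)
  have h0 : |m - A * B| ≤ 0 := le_of_forall_pos_le_add (fun ε hε => by
    rw [zero_add]; exact hfin ε hε)
  have h1 := abs_nonpos_iff.mp h0
  linarith

theorem riem (Φ : ℝ → ℝ) (hc : Continuous Φ) : Tendsto (fun M : ℕ =>
    1 / (M : ℝ) * ∑ j ∈ range M, Φ ((j : ℝ) / M)) atTop (𝓝 (∫ x in (0 : ℝ)..1, Φ x)) := by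
  rw [Metric.tendsto_atTop]
  intro ε hε
  have huc : UniformContinuousOn Φ (Set.Icc 0 1) :=
    isCompact_Icc.uniformContinuousOn_of_continuous hc.continuousOn
  rw [Metric.uniformContinuousOn_iff] at huc
  obtain ⟨δ, hδ, hd⟩ := huc (ε / 2) (by positivity)
  obtain ⟨N, hN⟩ := exists_nat_gt (1 / δ)
  refine ⟨max N 1, fun M hM => ?_⟩
  have hM1 : 1 ≤ M := (le_max_right _ _).trans hM
  have hM0 : (0 : ℝ) < M := by exact_mod_cast hM1
  have hMδ : 1 / (M : ℝ) < δ := by
    have h1 : (N : ℝ) ≤ M := by exact_mod_cast (le_max_left _ _).trans hM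
    have h2 : 1 / δ < (M : ℝ) := hN.trans_le h1
    rw [div_lt_iff₀ hδ] at h2
    rw [div_lt_iff₀ hM0]
    linarith
  have hint : ∀ x y : ℝ, IntervalIntegrable Φ MeasureTheory.volume x y :=
    fun x y => hc.intervalIntegrable x y
  have hsum := intervalIntegral.sum_integral_adjacent_intervals (f := Φ)
    (μ := MeasureTheory.volume) (a := fun k : ℕ => (k : ℝ) / M) (n := M)
    (fun k _ => hint _ _)
  have h0 : ((0 : ℕ) : ℝ) / M = 0 := by simp
  have h1 : ((M : ℕ) : ℝ) / M = 1 := by field_simp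
  simp only [h0, h1] at hsum
  have hdiff : 1 / (M : ℝ) * ∑ j ∈ range M, Φ ((j : ℝ) / M) - ∫ x in (0 : ℝ)..1, Φ x
      = ∑ j ∈ range M, ∫ x in ((j : ℝ) / M)..(((j + 1 : ℕ) : ℝ) / M), (Φ ((j : ℝ) / M) - Φ x) := by
    rw [← hsum, mul_sum, ← sum_sub_distrib]
    refine sum_congr rfl fun j _ => ?_
    rw [intervalIntegral.integral_sub (by simp) (hint _ _), intervalIntegral.integral_const]
    congr 1
    have : (((j + 1 : ℕ) : ℝ) / M - (j : ℝ) / M) = 1 / M := by
      push_cast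
      ring
    rw [this, smul_eq_mul]
  rw [Real.dist_eq, hdiff]
  have hterm : ∀ j ∈ range M,
      |∫ x in ((j : ℝ) / M)..(((j + 1 : ℕ) : ℝ) / M), (Φ ((j : ℝ) / M) - Φ x)|
        ≤ ε / 2 * (1 / M) := by
    intro j hj
    have hjM : j < M := mem_range.mp hj
    have hle : (j : ℝ) / M ≤ ((j + 1 : ℕ) : ℝ) / M := by
      gcongr
      simp
    have hlen : (((j + 1 : ℕ) : ℝ) / M - (j : ℝ) / M) = 1 / M := by
      push_cast
      ring
    have hb := intervalIntegral.norm_integral_le_of_norm_le_const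
      (a := (j : ℝ) / M) (b := ((j + 1 : ℕ) : ℝ) / M) (C := ε / 2)
      (f := fun x => Φ ((j : ℝ) / M) - Φ x) (fun x hx => by
        rw [Set.uIoc_of_le hle] at hx
        have hj0 : 0 ≤ (j : ℝ) / M := by positivity
        have hj1 : ((j + 1 : ℕ) : ℝ) / M ≤ 1 := by
          rw [div_le_one hM0]
          exact_mod_cast hjM
        have hx0 : x ∈ Set.Icc (0 : ℝ) 1 := ⟨by linarith [hx.1], by linarith [hx.2]⟩
        have hj2 : (j : ℝ) / M ∈ Set.Icc (0 : ℝ) 1 := ⟨hj0, by linarith⟩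
        have h3 : dist ((j : ℝ) / M) x < δ := by
          rw [Real.dist_eq, abs_sub_comm, abs_of_nonneg (by linarith [hx.1])]
          linarith [hx.2]
        have h4 := hd _ hj2 _ hx0 h3
        rw [Real.dist_eq] at h4
        exact h4.le)
    rw [hlen, abs_of_pos (by positivity : (0 : ℝ) < 1 / M)] at hb
    exact hb
  calc |∑ j ∈ range M, ∫ x in ((j : ℝ) / M)..(((j + 1 : ℕ) : ℝ) / M), (Φ ((j : ℝ) / M) - Φ x)|
      ≤ ∑ j ∈ range M,
        |∫ x in ((j : ℝ) / M)..(((j + 1 : ℕ) : ℝ) / M), (Φ ((j : ℝ) / M) - Φ x)| :=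
        abs_sum_le_sum_abs _ _
    _ ≤ ∑ j ∈ range M, ε / 2 * (1 / (M : ℝ)) := sum_le_sum hterm
    _ = ε / 2 := by
        rw [sum_const, card_range, nsmul_eq_mul]
        field_simp
    _ < ε := by linarith

end Pool.Agent.EN2
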